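import Mathlib

set_option autoImplicit false

/-! Braid group and generic Hecke algebra of a Coxeter matrix. -/

namespace Pool.Agent.HeckeCox

/-- The alternating product `x * y * x * ⋯` with `n` factors. -/
def altProd {G : Type*} [Monoid G] : G → G → ℕ → G
  | _, _, 0 => 1
  | x, y, n + 1 => x * altProd y x n

variable {B : Type*}

/-- The braid relators `(σ_s σ_r σ_s ⋯) (σ_r σ_s σ_r ⋯)⁻¹` (`m_{sr}` factors each), one for each
pair `s ≠ r` with `m_{sr}` finite. (In a `CoxeterMatrix`, the entry `0` stands for `∞`.) -/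
def braidRels (M : CoxeterMatrix B) : Set (FreeGroup B) :=
  {g | ∃ s r : B, s ≠ r ∧ M s r ≠ 0 ∧
    g = altProd (FreeGroup.of s) (FreeGroup.of r) (M s r) *
      (altProd (FreeGroup.of r) (FreeGroup.of s) (M s r))⁻¹}

/-- The braid group (Artin group) of a Coxeter matrix. -/
abbrev BraidGroup (M : CoxeterMatrix B) : Type _ := PresentedGroup (braidRels M)

open LaurentPolynomial in
/-- The defining relations of the generic Hecke algebra over `ℤ[v, v⁻¹]` (`v = T 1`): the quadratic
relations `h_s ^ 2 = 1 + (v⁻¹ - v) h_s` and the braid relations. -/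
inductive HeckeRel (M : CoxeterMatrix B) :
    FreeAlgebra (LaurentPolynomial ℤ) B → FreeAlgebra (LaurentPolynomial ℤ) B → Prop
  | quad (s : B) : HeckeRel M
      (FreeAlgebra.ι (LaurentPolynomial ℤ) s * FreeAlgebra.ι (LaurentPolynomial ℤ) s)
      (1 + ((T (-1) : LaurentPolynomial ℤ) - T 1) • FreeAlgebra.ι (LaurentPolynomial ℤ) s)
  | braid (s r : B) (hsr : s ≠ r) (hM : M s r ≠ 0) : HeckeRel M
      (altProd (FreeAlgebra.ι (LaurentPolynomial ℤ) s) (FreeAlgebra.ι (LaurentPolynomial ℤ) r)
        (M s r))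
      (altProd (FreeAlgebra.ι (LaurentPolynomial ℤ) r) (FreeAlgebra.ι (LaurentPolynomial ℤ) s)
        (M s r))

/-- The generic Hecke algebra over `ℤ[v, v⁻¹]`. -/
abbrev HeckeAlgebra (M : CoxeterMatrix B) : Type _ := RingQuot (HeckeRel M)

/-- The generator `h_s`. -/
noncomputable def hgen (M : CoxeterMatrix B) (s : B) : HeckeAlgebra M :=
  RingQuot.mkAlgHom (LaurentPolynomial ℤ) (HeckeRel M) (FreeAlgebra.ι (LaurentPolynomial ℤ) s)

theorem map_altProd {G H F : Type*} [Monoid G] [Monoid H] [FunLike F G H] [MonoidHomClass F G H]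
    (f : F) (x y : G) (n : ℕ) : f (altProd x y n) = altProd (f x) (f y) n := by
  induction n generalizing x y with
  | zero => simp [altProd]
  | succ n ih => rw [altProd, map_mul, ih, altProd]

open LaurentPolynomial in
theorem hgen_mul_self (M : CoxeterMatrix B) (s : B) :
    hgen M s * hgen M s = 1 + ((T (-1) : LaurentPolynomial ℤ) - T 1) • hgen M s := by
  have h := RingQuot.mkAlgHom_rel (LaurentPolynomial ℤ) (HeckeRel.quad (M := M) s)
  simpa [hgen] using h

open LaurentPolynomial in
/-- `h_s` as a unit, with inverse `h_s + v - v⁻¹`. -/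
noncomputable def hunit (M : CoxeterMatrix B) (s : B) : (HeckeAlgebra M)ˣ where
  val := hgen M s
  inv := hgen M s + ((T 1 : LaurentPolynomial ℤ) - T (-1)) • 1
  val_inv := by
    rw [mul_add, hgen_mul_self, mul_smul_comm, mul_one, add_assoc, ← add_smul,
      sub_add_sub_cancel, sub_self, zero_smul, add_zero]
  inv_val := by
    rw [add_mul, hgen_mul_self, smul_mul_assoc, one_mul, add_assoc, ← add_smul,
      sub_add_sub_cancel, sub_self, zero_smul, add_zero]

theorem hunit_braid (M : CoxeterMatrix B) (s r : B) (hsr : s ≠ r) (hM : M s r ≠ 0) :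
    altProd (hunit M s) (hunit M r) (M s r) = altProd (hunit M r) (hunit M s) (M s r) := by
  apply Units.ext
  have h := RingQuot.mkAlgHom_rel (LaurentPolynomial ℤ) (HeckeRel.braid (M := M) s r hsr hM)
  rw [map_altProd, map_altProd] at h
  have e : ∀ x y : (HeckeAlgebra M)ˣ, ∀ n, ((altProd x y n : (HeckeAlgebra M)ˣ) : HeckeAlgebra M) =
      altProd (x : HeckeAlgebra M) (y : HeckeAlgebra M) n := by
    intro x y n
    exact map_altProd (Units.coeHom (HeckeAlgebra M)) x y n
  rw [e, e]
  exact h

/-- The homomorphism `ρ_W : B_W → H(W)ˣ`, `σ_s ↦ h_s`. -/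
noncomputable def rho (M : CoxeterMatrix B) : BraidGroup M →* (HeckeAlgebra M)ˣ :=
  PresentedGroup.toGroup (f := hunit M) (by
    rintro g ⟨s, r, hsr, hM, rfl⟩
    rw [map_mul, map_inv, map_altProd, map_altProd, FreeGroup.lift_apply_of,
      FreeGroup.lift_apply_of, hunit_braid M s r hsr hM, mul_inv_cancel])

theorem rho_of (M : CoxeterMatrix B) (s : B) :
    rho M (PresentedGroup.of s) = hunit M s := PresentedGroup.toGroup.of _

end Pool.Agent.HeckeCox
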