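import Mathlib

set_option autoImplicit false

namespace Pool.Agent.HeckeCox

open CoxeterSystem

section

variable {B W : Type*} [Group W] {M : CoxeterMatrix B} (cs : CoxeterSystem M W)

open Classical in
/-- the elementary signed permutation attached to a simple reflection -/
noncomputable def etaFun (i : B) (x : W × ZMod 2) : W × ZMod 2 :=
  (cs.simple i * x.1 * cs.simple i, x.2 + if x.1 = cs.simple i then 1 else 0)

theorem etaFun_etaFun (i : B) (x : W × ZMod 2) : etaFun cs i (etaFun cs i x) = x := by
  obtain ⟨t, e⟩ := x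
  have h2 : (2 : ZMod 2) = 0 := rfl
  unfold etaFun
  ext
  · simp [mul_assoc]
  · simp only
    by_cases h : t = cs.simple i
    · subst h
      have h11 : (1 : ZMod 2) + 1 = 0 := rfl
      simp [add_assoc, h11]
    · have h' : cs.simple i * t * cs.simple i ≠ cs.simple i := by
        intro hh
        apply h
        have := congrArg (fun y => cs.simple i * y * cs.simple i) hh
        simpa [mul_assoc] using this
      simp [h, h']

noncomputable def eta (i : B) : Equiv.Perm (W × ZMod 2) :=
  ⟨etaFun cs i, etaFun cs i, etaFun_etaFun cs i, etaFun_etaFun cs i⟩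

theorem eta_apply (i : B) (x : W × ZMod 2) : eta cs i x = etaFun cs i x := rfl

open Classical in
theorem eta_mul_pow (i j : B) (n : ℕ) (t : W) (e : ZMod 2) :
    ((eta cs i * eta cs j) ^ n) (t, e) =
      ((cs.simple i * cs.simple j) ^ n * t * ((cs.simple i * cs.simple j) ^ n)⁻¹,
        e + ∑ k ∈ Finset.range (2 * n),
          if t = cs.simple j * (cs.simple i * cs.simple j) ^ k then 1 else 0) := by
  induction n with
  | zero => simp
  | succ n ih =>
    set ρ := cs.simple i * cs.simple j with hρ
    have hconj : ∀ m : ℕ, (ρ ^ m)⁻¹ * cs.simple j = cs.simple j * ρ ^ m := by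
      intro m
      induction m with
      | zero => simp
      | succ m ihm =>
        have h1 : ρ⁻¹ * cs.simple j = cs.simple j * ρ := by
          rw [hρ]; simp [mul_assoc]
        calc (ρ ^ (m + 1))⁻¹ * cs.simple j = ρ⁻¹ * ((ρ ^ m)⁻¹ * cs.simple j) := by
              rw [pow_succ, mul_inv_rev, mul_assoc]
          _ = ρ⁻¹ * cs.simple j * ρ ^ m := by rw [ihm, mul_assoc]
          _ = cs.simple j * ρ * ρ ^ m := by rw [h1]
          _ = cs.simple j * ρ ^ (m + 1) := by rw [pow_succ', mul_assoc]
    rw [pow_succ', Equiv.Perm.mul_apply, ih, Equiv.Perm.mul_apply, eta_apply, eta_apply]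
    unfold etaFun
    simp only
    have e1 : (ρ ^ n * t * (ρ ^ n)⁻¹ = cs.simple j) ↔ t = cs.simple j * ρ ^ (2 * n) := by
      rw [mul_inv_eq_iff_eq_mul, ← eq_inv_mul_iff_mul_eq, ← mul_assoc, hconj, mul_assoc, ← pow_add,
        two_mul]
    have e2 : (cs.simple j * (ρ ^ n * t * (ρ ^ n)⁻¹) * cs.simple j = cs.simple i) ↔
        t = cs.simple j * ρ ^ (2 * n + 1) := by
      have : (cs.simple j * (ρ ^ n * t * (ρ ^ n)⁻¹) * cs.simple j = cs.simple i) ↔
          (ρ ^ n * t * (ρ ^ n)⁻¹ = cs.simple j * ρ) := by
        rw [hρ]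
        constructor
        · intro h
          have := congrArg (fun y => cs.simple j * y * cs.simple j) h
          simpa [mul_assoc] using this
        · intro h
          have := congrArg (fun y => cs.simple j * y * cs.simple j) h
          simpa [mul_assoc] using this
      rw [this, mul_inv_eq_iff_eq_mul, ← eq_inv_mul_iff_mul_eq, ← mul_assoc, ← mul_assoc, hconj]
      constructor
      · intro h; rw [h]; simp only [mul_assoc]; rw [← pow_succ', ← pow_add]; congr 2; ring
      · intro h; rw [h]; simp only [mul_assoc]; rw [← pow_succ', ← pow_add]; congr 2; ring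
    rw [show 2 * (n + 1) = 2 * n + 1 + 1 from by ring, Finset.sum_range_succ, Finset.sum_range_succ]
    ext
    · simp only
      rw [pow_succ', mul_inv_rev, hρ]
      simp [mul_assoc]
    · simp only [e1, e2]
      ring

theorem eta_liftable : M.IsLiftable (eta cs) := by
  classical
  intro i j
  ext1 ⟨t, e⟩
  rw [eta_mul_pow, two_mul, Finset.sum_range_add]
  have h1 : (cs.simple i * cs.simple j) ^ M i j = 1 := cs.simple_mul_simple_pow i j
  have h2 : ∀ x : ZMod 2, x + x = 0 := by decide
  ext
  · simp [h1]
  · simp only [pow_add, h1, one_mul, h2, add_zero]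
    rfl

/-- the signed permutation representation -/
noncomputable def Phi : W →* Equiv.Perm (W × ZMod 2) := cs.lift ⟨eta cs, eta_liftable cs⟩

theorem Phi_simple (i : B) : Phi cs (cs.simple i) = eta cs i := cs.lift_apply_simple _ i


open Classical in
theorem Phi_apply (w : W) : ∀ (t : W) (e : ZMod 2),
    Phi cs w (t, e) = (w * t * w⁻¹, e + (Phi cs w (t, 0)).2) := by
  induction w using cs.simple_induction_left with
  | one =>
    intro t e
    simp
  | mul_simple_left w i ih =>
    intro t e
    rw [map_mul, Equiv.Perm.mul_apply, Equiv.Perm.mul_apply, ih t e, Phi_simple, eta_apply,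
      eta_apply]
    have h0 := ih t 0
    have h1 : Phi cs w (t, 0) = (w * t * w⁻¹, (Phi cs w (t, 0)).2) := by
      rw [h0]
    unfold etaFun
    ext
    · simp [mul_assoc]
    · simp only
      rw [show (Phi cs w (t, 0)).1 = w * t * w⁻¹ from by rw [h1]]
      ring

/-- left inversion indicator -/
noncomputable def D (w t : W) : ZMod 2 := (Phi cs w⁻¹ (t, 0)).2

theorem D_mul (v x t : W) : D cs (v * x) t = D cs v t + D cs x (v⁻¹ * t * v) := by
  unfold D
  rw [mul_inv_rev, map_mul, Equiv.Perm.mul_apply, Phi_apply cs v⁻¹ t 0]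
  rw [Phi_apply]
  simp

theorem D_one (t : W) : D cs 1 t = 0 := by
  simp [D]

theorem D_inv (v t : W) : D cs v⁻¹ t = D cs v (v * t * v⁻¹) := by
  have h := D_mul cs v v⁻¹ (v * t * v⁻¹)
  have h2 : ∀ x y : ZMod 2, 0 = x + y → y = x := by decide
  rw [mul_inv_cancel, D_one] at h
  have h3 : v⁻¹ * (v * t * v⁻¹) * v = t := by group
  rw [h3] at h
  exact h2 _ _ h

open Classical in
theorem D_simple (i : B) (t : W) : D cs (cs.simple i) t = if t = cs.simple i then 1 else 0 := by
  unfold D
  rw [cs.inv_simple, Phi_simple, eta_apply]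
  simp [etaFun]

theorem D_self {t : W} (ht : cs.IsReflection t) : D cs t t = 1 := by
  classical
  obtain ⟨w, i, rfl⟩ := ht
  rw [D_mul, D_mul, D_inv]
  have h1 : w⁻¹ * (w * cs.simple i * w⁻¹) * w = cs.simple i := by group
  have h2 : w * ((w * cs.simple i)⁻¹ * (w * cs.simple i * w⁻¹) * (w * cs.simple i)) * w⁻¹ =
      w * cs.simple i * w⁻¹ := by group
  rw [h1, h2, D_simple, if_pos rfl]
  have h3 : ∀ x : ZMod 2, x + 1 + x = 1 := by decide
  exact h3 _

theorem mem_leftInvSeq_of_D (ω : List B) : ∀ (t : W), D cs (cs.wordProd ω) t ≠ 0 →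
    t ∈ cs.leftInvSeq ω := by
  classical
  induction ω with
  | nil => intro t h; simp [D_one] at h
  | cons i ω ih =>
    intro t h
    rw [cs.wordProd_cons, D_mul, D_simple] at h
    rw [leftInvSeq]
    by_cases hti : t = cs.simple i
    · subst hti; simp
    · rw [if_neg hti, zero_add] at h
      have := ih _ h
      rw [List.mem_cons]
      right
      rw [List.mem_map]
      refine ⟨_, this, ?_⟩
      simp [mul_assoc]

theorem D_eq_one_iff (w : W) {t : W} (ht : cs.IsReflection t) :
    D cs w t = 1 ↔ cs.length (t * w) < cs.length w := by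
  have key : ∀ w : W, D cs w t = 1 → cs.length (t * w) < cs.length w := by
    intro w h
    obtain ⟨ω, hω, rfl⟩ := cs.exists_isReduced w
    have := mem_leftInvSeq_of_D cs ω t (by rw [h]; exact one_ne_zero)
    exact (cs.isLeftInversion_of_mem_leftInvSeq hω this).2
  constructor
  · exact key w
  · intro h
    by_contra hD
    have h2 : ∀ x : ZMod 2, x ≠ 1 → 1 + x = 1 := by decide
    have h3 : D cs (t * w) t = 1 := by
      rw [D_mul, D_self cs ht]
      have : t⁻¹ * t * t = t := by group
      rw [this]
      exact h2 _ hD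
    have h4 := key _ h3
    rw [← mul_assoc, ht.mul_self, one_mul] at h4
    omega

theorem D_eq_zero_iff (w : W) {t : W} (ht : cs.IsReflection t) :
    D cs w t = 0 ↔ cs.length w < cs.length (t * w) := by
  have h1 := D_eq_one_iff cs w ht
  have h2 : ∀ x : ZMod 2, x = 0 ↔ ¬ x = 1 := by decide
  rw [h2, h1]
  have := ht.length_mul_right_ne w
  omega

/-- `t` separates `u` and `v` iff moving `u` by `t` brings it closer to `v`. -/
theorem D_ne_iff (u v : W) {t : W} (ht : cs.IsReflection t) :
    D cs u t ≠ D cs v t ↔ cs.length (v⁻¹ * (t * u)) < cs.length (v⁻¹ * u) := by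
  have h := D_mul cs v (v⁻¹ * u) t
  rw [mul_inv_cancel_left] at h
  have ht' : cs.IsReflection (v⁻¹ * t * v) := by
    have := ht.conj v⁻¹
    simpa using this
  have h1 := D_eq_one_iff cs (v⁻¹ * u) ht'
  have h2 : ∀ x y z : ZMod 2, x = y + z → (x ≠ y ↔ z = 1) := by decide
  rw [h2 _ _ _ h, h1]
  have : v⁻¹ * t * v * (v⁻¹ * u) = v⁻¹ * (t * u) := by group
  rw [this]

/-- sets of simple reflections -/
def simples : Set W := Set.range cs.simple

theorem mem_closure_of_D {I : Set W} (hI : I ⊆ simples cs) {x : W}
    (hx : x ∈ Subgroup.closure I) : ∀ t, D cs x t ≠ 0 → t ∈ Subgroup.closure I := by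
  classical
  induction hx using Subgroup.closure_induction with
  | mem x hx =>
    intro t h
    obtain ⟨i, rfl⟩ := hI hx
    rw [D_simple] at h
    by_cases hti : t = cs.simple i
    · rw [hti]; exact Subgroup.subset_closure hx
    · simp [hti] at h
  | one => intro t h; exact absurd (D_one cs t) h
  | mul x y hx hy ihx ihy =>
    intro t h
    rw [D_mul] at h
    by_cases h1 : D cs x t = 0
    · rw [h1, zero_add] at h
      have := ihy _ h
      have h3 : t = x * (x⁻¹ * t * x) * x⁻¹ := by group
      rw [h3]
      exact Subgroup.mul_mem _ (Subgroup.mul_mem _ hx this) (Subgroup.inv_mem _ hx)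
    · exact ihx _ h1
  | inv x hx ih =>
    intro t h
    rw [D_inv] at h
    have := ih _ h
    have h3 : t = x⁻¹ * (x * t * x⁻¹) * x := by group
    rw [h3]
    exact Subgroup.mul_mem _ (Subgroup.mul_mem _ (Subgroup.inv_mem _ hx) this) hx

theorem isReflection_of_mem_simples {s : W} (hs : s ∈ simples cs) : cs.IsReflection s := by
  obtain ⟨i, rfl⟩ := hs
  exact cs.isReflection_simple i

/-- a nontrivial element of a standard parabolic subgroup has a descent in it -/
theorem exists_descent {I : Set W} (hI : I ⊆ simples cs) {x : W}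
    (hx : x ∈ Subgroup.closure I) (hx1 : x ≠ 1) : ∃ s ∈ I, D cs x s = 1 := by
  classical
  -- words over I
  have hsub : ∀ x ∈ Subgroup.closure I, ∃ l : List W, (∀ y ∈ l, y ∈ I) ∧ l.prod = x := by
    intro x hx
    induction hx using Subgroup.closure_induction with
    | mem x hx => exact ⟨[x], by simpa using hx, by simp⟩
    | one => exact ⟨[], by simp, by simp⟩
    | mul x y _ _ ihx ihy =>
      obtain ⟨l1, h1, p1⟩ := ihx
      obtain ⟨l2, h2, p2⟩ := ihy
      refine ⟨l1 ++ l2, ?_, by rw [List.prod_append, p1, p2]⟩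
      intro z hz
      rcases List.mem_append.mp hz with h | h
      · exact h1 z h
      · exact h2 z h
    | inv x _ ihx =>
      obtain ⟨l1, h1, p1⟩ := ihx
      refine ⟨(l1.map (fun y => y⁻¹)).reverse, ?_, ?_⟩
      · intro z hz
        rw [List.mem_reverse, List.mem_map] at hz
        obtain ⟨y, hy, rfl⟩ := hz
        rw [(isReflection_of_mem_simples cs (hI (h1 y hy))).inv]
        exact h1 y hy
      · rw [← p1, List.prod_inv_reverse]
  -- choose minimal length word
  have hex : ∃ n : ℕ, ∃ l : List W, l.length = n ∧ (∀ y ∈ l, y ∈ I) ∧ l.prod = x := by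
    obtain ⟨l, hl, hp⟩ := hsub x hx
    exact ⟨_, l, rfl, hl, hp⟩
  obtain ⟨l, hlen, hl, hp⟩ := Nat.find_spec hex
  have hmin : ∀ l' : List W, (∀ y ∈ l', y ∈ I) → l'.prod = x → l.length ≤ l'.length := by
    intro l' h1 h2
    rw [hlen]
    exact Nat.find_min' hex ⟨l', rfl, h1, h2⟩
  match l, hl, hp, hmin with
  | [], _, hp, _ => exact absurd hp.symm (by simpa using hx1)
  | s :: l', hl, hp, hmin =>
    have hs : s ∈ I := hl s (by simp)
    refine ⟨s, hs, ?_⟩
    have hsr := isReflection_of_mem_simples cs (hI hs)
    have hD : D cs x s = 1 + D cs l'.prod s := by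
      rw [← hp, List.prod_cons, D_mul, D_self cs hsr]
      have : s⁻¹ * s * s = s := by group
      rw [this]
    by_contra hne
    have h2 : ∀ x y : ZMod 2, x = 1 + y → x ≠ 1 → y ≠ 0 := by decide
    have h3 : D cs l'.prod s ≠ 0 := h2 _ _ hD hne
    -- exchange: s * l'.prod = product of shorter list
    have hexch : ∀ (m : List W), (∀ y ∈ m, y ∈ I) → ∀ t, D cs m.prod t ≠ 0 →
        ∃ m' : List W, (∀ y ∈ m', y ∈ I) ∧ m'.length < m.length ∧ t * m.prod = m'.prod := by
      intro m
      induction m with
      | nil => intro _ t h; simp [D_one] at h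
      | cons y m ih =>
        intro hm t h
        have hy : y ∈ I := hm y (by simp)
        have hyr := isReflection_of_mem_simples cs (hI hy)
        rw [List.prod_cons, D_mul] at h
        by_cases hty : t = y
        · refine ⟨m, fun z hz => hm z (by simp [hz]), by simp, ?_⟩
          rw [List.prod_cons, hty, ← mul_assoc, hyr.mul_self, one_mul]
        · have h0 : D cs y t = 0 := by
            obtain ⟨i, rfl⟩ := hI hy
            rw [D_simple, if_neg hty]
          rw [h0, zero_add] at h
          obtain ⟨m', hm', hlen', hprod'⟩ := ih (fun z hz => hm z (by simp [hz])) _ h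
          refine ⟨y :: m', ?_, ?_, ?_⟩
          · intro z hz
            rcases List.mem_cons.mp hz with rfl | hz
            · exact hy
            · exact hm' z hz
          · simpa using hlen'
          · rw [List.prod_cons, List.prod_cons, ← hprod']
            group
    obtain ⟨m', hm', hlen', hprod'⟩ := hexch l' (fun z hz => hl z (by simp [hz])) s h3
    have := hmin m' hm' (by rw [← hprod', ← hp, List.prod_cons])
    simp at this
    omega

theorem mem_of_simple_mem_closure {I : Set W} (hI : I ⊆ simples cs) {s : W}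
    (hs : s ∈ simples cs) (h : s ∈ Subgroup.closure I) : s ∈ I := by
  classical
  obtain ⟨i, rfl⟩ := hs
  have hne : cs.simple i ≠ 1 := by
    intro h1
    have := cs.length_simple i
    rw [h1] at this
    simp at this
  obtain ⟨s, hsI, hD⟩ := exists_descent cs hI h hne
  rw [D_simple] at hD
  by_cases h1 : s = cs.simple i
  · rw [← h1]; exact hsI
  · simp [h1] at hD


/-! ### the Coxeter complex (the definitions used in the statement) -/

end

end Pool.Agent.HeckeCox
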