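import Mathlib
import Pool.Agent.Lib_helper18.Hecke.Cox

set_option autoImplicit false

/-! The geometric representation of a Coxeter group; exact orders of `s i * s j`. -/

namespace Pool.Agent.HeckeCox

open CoxeterSystem Polynomial.Chebyshev Real

section geo

variable {B W : Type*} [Group W] {M : CoxeterMatrix B} (cs : CoxeterSystem M W)

/-- the functional attached to a simple root -/
noncomputable def gf (M : CoxeterMatrix B) (i : B) : Module.Dual ℝ (B →₀ ℝ) :=
  Finsupp.linearCombination ℝ (fun j => -2 * cos (π / (M i j : ℝ)))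

/-- simple root -/
noncomputable def gx (i : B) : B →₀ ℝ := Finsupp.single i 1

theorem gf_gx (i j : B) : gf M i (gx j) = -2 * cos (π / (M i j : ℝ)) := by
  simp [gf, gx, Finsupp.linearCombination_single]

theorem gf_self (i : B) : gf M i (gx i) = 2 := by
  rw [gf_gx]; simp

/-- the reflection in a simple root -/
noncomputable def gr (M : CoxeterMatrix B) (i : B) : (B →₀ ℝ) ≃ₗ[ℝ] (B →₀ ℝ) :=
  Module.reflection (gf_self (M := M) i)

theorem gt_eq (i j : B) : gf M i (gx j) * gf M j (gx i) - 2 = 2 * cos (2 * π / (M i j : ℝ)) := by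
  rw [gf_gx, gf_gx, M.symmetric j i]
  have : 2 * π / (M i j : ℝ) = 2 * (π / (M i j : ℝ)) := by ring
  rw [this, cos_two_mul]; ring

theorem S_cos (θ : ℝ) (hθ : sin θ ≠ 0) (n : ℤ) :
    (S ℝ n).eval (2 * cos θ) = sin ((n + 1) * θ) / sin θ := by
  rw [eq_div_iff hθ]; exact S_two_mul_real_cos θ n

theorem sin_two_pi_div_ne {m : ℕ} (hm : 3 ≤ m) : sin (2 * π / (m : ℝ)) ≠ 0 := by
  have hm' : (3 : ℝ) ≤ m := by exact_mod_cast hm
  apply ne_of_gt
  apply sin_pos_of_pos_of_lt_pi
  · have := pi_pos; positivity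
  · rw [div_lt_iff₀ (by linarith)]
    nlinarith [pi_pos]

theorem gr_liftable : M.IsLiftable (gr M) := by
  intro i j
  by_cases hij : i = j
  · subst hij
    rw [M.diagonal, pow_one]
    ext1 z
    simp [gr, LinearEquiv.mul_apply, Module.involutive_reflection (gf_self (M := M) i) z]
  rcases Nat.eq_zero_or_pos (M i j) with h0 | hpos
  · rw [h0, pow_zero]
  have h1 : M i j ≠ 1 := M.off_diagonal i j hij
  by_cases h2 : M i j = 2
  · rw [h2]
    have e1 : gf M i (gx j) = 0 := by
      rw [gf_gx, h2]; simp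
    have e2 : gf M j (gx i) = 0 := by
      rw [gf_gx, M.symmetric j i, h2]; simp
    have key : gr M i * gr M j = gr M j * gr M i := by
      ext1 z
      simp only [gr, LinearEquiv.mul_apply, Module.reflection_apply, map_sub, map_smul, e1, e2]
      module
    have i1 : ∀ k : B, gr M k * gr M k = 1 := by
      intro k; ext1 z
      simp [gr, LinearEquiv.mul_apply, Module.involutive_reflection (gf_self (M := M) k) z]
    rw [pow_two]
    calc gr M i * gr M j * (gr M i * gr M j) = gr M i * (gr M j * gr M i) * gr M j := by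
          simp only [mul_assoc]
      _ = gr M i * (gr M i * gr M j) * gr M j := by rw [key]
      _ = (gr M i * gr M i) * (gr M j * gr M j) := by simp only [mul_assoc]
      _ = 1 := by rw [i1, i1, one_mul]
  have hm : 3 ≤ M i j := by omega
  set m := M i j with hmdef
  have hmR : (m : ℝ) ≠ 0 := by positivity
  ext1 z
  have hs := sin_two_pi_div_ne hm
  have key := Module.reflection_mul_reflection_pow_apply (gf_self (M := M) i) (gf_self (M := M) j)
    m z
  have ht := gt_eq (M := M) i j
  rw [← hmdef] at ht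
  simp only [ht, S_cos _ hs] at key
  show ((gr M i * gr M j) ^ m) z = z
  unfold gr
  rw [key]
  rcases Nat.even_or_odd m with ⟨k, hk⟩ | ⟨k, hk⟩
  · have e1 : ((m : ℤ) - 2) / 2 = k - 1 := by omega
    have e2 : ((m : ℤ) - 1) / 2 = k - 1 := by omega
    have e3 : sin ((((k : ℤ) - 1 : ℤ) + 1 : ℝ) * (2 * π / (m : ℝ))) = 0 := by
      have : (((k : ℤ) - 1 : ℤ) + 1 : ℝ) * (2 * π / (m : ℝ)) = π := by
        push_cast
        have : (m : ℝ) = k + k := by exact_mod_cast hk
        field_simp
        linarith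
      rw [this, sin_pi]
    rw [e1, e2, e3]
    simp
  · have e1 : ((m : ℤ) - 2) / 2 = k - 1 := by omega
    have e2 : ((m : ℤ) - 1) / 2 = k := by omega
    have e3 : ((m : ℤ) - 3) / 2 = k - 1 := by omega
    have e4 : (m : ℤ) / 2 = k := by omega
    have e5 : sin (((k : ℤ) + 1 : ℝ) * (2 * π / (m : ℝ))) +
        sin ((((k : ℤ) - 1 : ℤ) + 1 : ℝ) * (2 * π / (m : ℝ))) = 0 := by
      have hmk : (m : ℝ) = 2 * k + 1 := by exact_mod_cast hk
      have h1 : ((k : ℤ) + 1 : ℝ) * (2 * π / (m : ℝ)) = π + π / m := by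
        push_cast
        field_simp
        linarith
      have h2 : (((k : ℤ) - 1 : ℤ) + 1 : ℝ) * (2 * π / (m : ℝ)) = π - π / m := by
        push_cast
        field_simp
        linarith
      rw [h1, h2, sin_pi_sub, add_comm π, sin_add_pi]
      ring
    rw [e1, e2, e3, e4]
    have e6 : sin (((k : ℤ) + 1 : ℝ) * (2 * π / (m : ℝ))) / sin (2 * π / (m : ℝ)) +
        sin ((((k : ℤ) - 1 : ℤ) + 1 : ℝ) * (2 * π / (m : ℝ))) / sin (2 * π / (m : ℝ)) = 0 := by
      rw [← add_div, e5, zero_div]
    rw [e6]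
    simp

/-- the geometric representation -/
noncomputable def georep : W →* ((B →₀ ℝ) ≃ₗ[ℝ] (B →₀ ℝ)) := cs.lift ⟨gr M, gr_liftable⟩

theorem georep_simple (i : B) : georep cs (cs.simple i) = gr M i := cs.lift_apply_simple _ i

/-- if `(s i * s j)^k = 1` with `i ≠ j` and `k ≥ 1`, then `M i j ≠ 0` and `M i j ≤ k`. -/
theorem order_ge {i j : B} (hij : i ≠ j) {k : ℕ} (hk : 1 ≤ k)
    (h : (cs.simple i * cs.simple j) ^ k = 1) : M i j ≠ 0 ∧ M i j ≤ k := by
  have h1 : (gr M i * gr M j) ^ k = 1 := by
    have := congrArg (georep cs) h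
    rwa [map_pow, map_mul, georep_simple, georep_simple, map_one] at this
  have h2 := Module.reflection_mul_reflection_pow_apply_self (gf_self (M := M) i)
    (gf_self (M := M) j) k
  have h3 : ((gr M i * gr M j) ^ k) (gx i) = gx i := by rw [h1]; rfl
  have h4 : gx i = ((S ℝ k).eval (gf M i (gx j) * gf M j (gx i) - 2) +
      (S ℝ (k - 1)).eval (gf M i (gx j) * gf M j (gx i) - 2)) • gx i +
      ((S ℝ (k - 1)).eval (gf M i (gx j) * gf M j (gx i) - 2) * -gf M j (gx i)) • gx j := by
    rw [← h2]; exact h3.symm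
  have hi := DFunLike.congr_fun h4 i
  have hj := DFunLike.congr_fun h4 j
  simp only [gx, Finsupp.add_apply, Finsupp.smul_apply, Finsupp.single_eq_same, smul_eq_mul,
    Finsupp.single_eq_of_ne hij, Finsupp.single_eq_of_ne (Ne.symm hij), mul_one, mul_zero,
    add_zero, zero_add] at hi hj
  change _ = (S ℝ k).eval (gf M i (gx j) * gf M j (gx i) - 2) +
      (S ℝ (k - 1)).eval (gf M i (gx j) * gf M j (gx i) - 2) at hi
  change _ = (S ℝ (k - 1)).eval (gf M i (gx j) * gf M j (gx i) - 2) * -gf M j (gx i) at hj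
  rw [gt_eq] at hi hj
  have hne1 : M i j ≠ 1 := M.off_diagonal i j hij
  rcases Nat.eq_zero_or_pos (M i j) with h0 | hpos
  · exfalso
    rw [h0] at hj
    simp only [Nat.cast_zero, div_zero, cos_zero, mul_one] at hj
    rw [gf_gx, M.symmetric j i, h0, S_eval_two] at hj
    simp at hj
    omega
  refine ⟨by omega, ?_⟩
  by_contra hlt
  push Not at hlt
  by_cases h2' : M i j = 2
  · have hk1 : k = 1 := by omega
    subst hk1
    rw [h2'] at hi
    simp at hi
  have hm : 3 ≤ M i j := by omega
  have hs := sin_two_pi_div_ne hm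
  rw [S_cos _ hs] at hi hj
  rw [S_cos _ hs] at hi
  have hmR : (0 : ℝ) < (M i j : ℝ) := by positivity
  have hcos : cos (π / (M i j : ℝ)) ≠ 0 := by
    apply ne_of_gt
    apply cos_pos_of_mem_Ioo
    constructor
    · have := pi_pos
      have h5 : 0 < π / (M i j : ℝ) := by positivity
      linarith
    · rw [div_lt_div_iff₀ hmR two_pos]
      have : (3 : ℝ) ≤ M i j := by exact_mod_cast hm
      nlinarith [pi_pos]
  have hsin : sin ((k : ℝ) * (2 * π / (M i j : ℝ))) = 0 := by
    have e : (((k : ℤ) - 1 : ℤ) + 1 : ℝ) = (k : ℝ) := by push_cast; ring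
    rw [e, gf_gx, M.symmetric j i] at hj
    rcases mul_eq_zero.mp hj.symm with h | h
    · rcases div_eq_zero_iff.mp h with h | h
      · exact h
      · exact absurd h hs
    · exfalso; apply hcos; linarith
  have h2k : 2 * (k : ℝ) = M i j := by
    rw [sin_eq_zero_iff] at hsin
    obtain ⟨n, hn⟩ := hsin
    have hn' : (n : ℝ) * (M i j : ℝ) = 2 * k := by
      have : (n : ℝ) * π * (M i j : ℝ) = 2 * k * π := by
        rw [hn]; field_simp
      have hp := pi_pos
      nlinarith [mul_right_cancel₀ hp.ne' (show (n : ℝ) * (M i j : ℝ) * π = 2 * k * π by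
        rw [← this]; ring)]
    have hn'' : n * (M i j : ℤ) = 2 * k := by exact_mod_cast hn'
    have hkpos : (0 : ℤ) < k := by exact_mod_cast hk
    have hklt : (k : ℤ) < M i j := by exact_mod_cast hlt
    have hnpos : 0 < n := by
      by_contra hneg
      push Not at hneg
      nlinarith
    have hnlt : n < 2 := by
      by_contra hge
      push Not at hge
      nlinarith
    have hn1 : n = 1 := by omega
    rw [hn1] at hn'
    push_cast at hn'
    linarith
  have e1 : (((k : ℤ) : ℝ) + 1) * (2 * π / (M i j : ℝ)) = 2 * π / (M i j : ℝ) + π := by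
    rw [← h2k]
    have : (k : ℝ) ≠ 0 := by positivity
    push_cast
    field_simp
    ring
  have e2 : (((k : ℤ) - 1 : ℤ) + 1 : ℝ) = (k : ℝ) := by push_cast; ring
  rw [e1, sin_add_pi, e2, hsin, neg_div, div_self hs] at hi
  norm_num at hi

theorem simple_injective : Function.Injective cs.simple := by
  intro i j h
  by_contra hij
  have h1 : (cs.simple i * cs.simple j) ^ 1 = 1 := by
    rw [h]; simp
  have := order_ge cs hij le_rfl h1
  have h2 : M i j ≠ 1 := M.off_diagonal i j hij
  omega

end geo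

end Pool.Agent.HeckeCox
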