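import Mathlib
import Pool.Agent.Lib_helper18.Hecke.Geo

set_option autoImplicit false

/-! Standard parabolic subgroups, minimal coset representatives. -/

namespace Pool.Agent.HeckeCox

open CoxeterSystem

section par

variable {B W : Type*} [Group W] {M : CoxeterMatrix B} (cs : CoxeterSystem M W)

/-- standard parabolic subgroup -/
def WP (K : Set B) : Subgroup W := Subgroup.closure (cs.simple '' K)

/-- minimal representatives of the right cosets `W_K x` -/
def IsMin (K : Set B) (x : W) : Prop := ∀ i ∈ K, D cs x (cs.simple i) = 0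

theorem image_subset_simples (K : Set B) : cs.simple '' K ⊆ simples cs := by
  rintro _ ⟨i, _, rfl⟩; exact ⟨i, rfl⟩

theorem simple_mem_WP {K : Set B} {i : B} (hi : i ∈ K) : cs.simple i ∈ WP cs K :=
  Subgroup.subset_closure ⟨i, hi, rfl⟩

theorem simple_mem_WP_iff {K : Set B} {i : B} : cs.simple i ∈ WP cs K ↔ i ∈ K := by
  constructor
  · intro h
    obtain ⟨j, hj, hji⟩ := mem_of_simple_mem_closure cs (image_subset_simples cs K) ⟨i, rfl⟩ h
    rw [← simple_injective cs hji]; exact hj
  · exact simple_mem_WP cs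

theorem WP_mono {I J : Set B} (h : I ⊆ J) : WP cs I ≤ WP cs J :=
  Subgroup.closure_mono (Set.image_mono h)

theorem mem_WP_of_D {K : Set B} {u t : W} (hu : u ∈ WP cs K) (h : D cs u t ≠ 0) :
    t ∈ WP cs K := mem_closure_of_D cs (image_subset_simples cs K) hu t h

theorem exists_desc {K : Set B} {u : W} (hu : u ∈ WP cs K) (h1 : u ≠ 1) :
    ∃ i ∈ K, D cs u (cs.simple i) = 1 := by
  obtain ⟨s, ⟨i, hi, rfl⟩, hD⟩ := exists_descent cs (image_subset_simples cs K) hu h1
  exact ⟨i, hi, hD⟩

theorem desc_mem {K : Set B} {u : W} (hu : u ∈ WP cs K) {i : B}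
    (h : D cs u (cs.simple i) ≠ 0) : i ∈ K :=
  (simple_mem_WP_iff cs).mp (mem_WP_of_D cs hu h)

theorem zmod2_cases (x : ZMod 2) : x = 0 ∨ x = 1 := by
  revert x; decide

theorem length_lt_of_D {w : W} {i : B} (h : D cs w (cs.simple i) = 1) :
    cs.length (cs.simple i * w) < cs.length w :=
  (D_eq_one_iff cs w (cs.isReflection_simple i)).mp h

theorem D_simple_mul (i : B) (w : W) :
    D cs (cs.simple i * w) (cs.simple i) = 1 + D cs w (cs.simple i) := by
  rw [D_mul, D_simple, if_pos rfl]
  simp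

/-- every element of a coset is `u * x` with `x` minimal. -/
theorem exists_decomp (K : Set B) (w : W) :
    ∃ u ∈ WP cs K, ∃ x, IsMin cs K x ∧ w = u * x := by
  classical
  induction hn : cs.length w using Nat.strong_induction_on generalizing w with
  | _ n ih =>
    by_cases h : IsMin cs K w
    · exact ⟨1, Subgroup.one_mem _, w, h, by simp⟩
    · unfold IsMin at h
      push Not at h
      obtain ⟨i, hi, hD⟩ := h
      have hD1 : D cs w (cs.simple i) = 1 := (zmod2_cases _).resolve_left hD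
      have hlt := length_lt_of_D cs hD1
      obtain ⟨u, hu, x, hx, hw⟩ := ih _ (by rw [← hn]; exact hlt) (cs.simple i * w) rfl
      refine ⟨cs.simple i * u, Subgroup.mul_mem _ (simple_mem_WP cs hi) hu, x, hx, ?_⟩
      rw [mul_assoc, ← hw, ← mul_assoc, cs.simple_mul_simple_self, one_mul]

/-- conjugate of a reflection in `W_K` -/
theorem refl_conj {K : Set B} {u t : W} (hu : u ∈ WP cs K) (ht : t ∈ WP cs K)
    (hr : cs.IsReflection t) : u⁻¹ * t * u ∈ WP cs K ∧ cs.IsReflection (u⁻¹ * t * u) := by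
  refine ⟨Subgroup.mul_mem _ (Subgroup.mul_mem _ (Subgroup.inv_mem _ hu) ht) hu, ?_⟩
  have := hr.conj u⁻¹
  simpa using this

theorem D_isMin {K : Set B} {x : W} (hx : IsMin cs K x) {t : W} (ht : t ∈ WP cs K)
    (hr : cs.IsReflection t) : D cs x t = 0 := by
  classical
  -- choose an element of minimal length in the coset
  have hex : ∃ n : ℕ, ∃ u ∈ WP cs K, cs.length (u * x) = n := ⟨_, 1, Subgroup.one_mem _, rfl⟩
  obtain ⟨u, hu, hlen⟩ := Nat.find_spec hex
  have hmin : ∀ v ∈ WP cs K, cs.length (u * x) ≤ cs.length (v * x) := by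
    intro v hv
    rw [hlen]; exact Nat.find_min' hex ⟨v, hv, rfl⟩
  set y := u * x with hy
  have hDy : ∀ t ∈ WP cs K, cs.IsReflection t → D cs y t = 0 := by
    intro t ht hr
    rcases zmod2_cases (D cs y t) with h | h
    · exact h
    · exfalso
      have h1 := (D_eq_one_iff cs y hr).mp h
      have h2 := hmin (t * u) (Subgroup.mul_mem _ ht hu)
      rw [mul_assoc, ← hy] at h2
      omega
  have hxy : x = u⁻¹ * y := by rw [hy]; group
  have hu' : u⁻¹ ∈ WP cs K := Subgroup.inv_mem _ hu
  have hu1 : u⁻¹ = 1 := by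
    by_contra hne
    obtain ⟨i, hi, hD⟩ := exists_desc cs hu' hne
    have h1 := hx i hi
    rw [hxy, D_mul, hD] at h1
    have h2 := refl_conj cs hu' (simple_mem_WP cs hi) (cs.isReflection_simple i)
    rw [hDy _ h2.1 h2.2] at h1
    simp at h1
  rw [hxy, hu1, one_mul]
  exact hDy t ht hr

theorem D_mul_isMin {K : Set B} {u x t : W} (hu : u ∈ WP cs K) (hx : IsMin cs K x)
    (ht : t ∈ WP cs K) (hr : cs.IsReflection t) : D cs (u * x) t = D cs u t := by
  rw [D_mul]
  have h2 := refl_conj cs hu ht hr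
  rw [D_isMin cs hx h2.1 h2.2, add_zero]

theorem D_mul_isMin' {K : Set B} {u x : W} (hu : u ∈ WP cs K) (hx : IsMin cs K x)
    {i : B} (hi : i ∈ K) : D cs (u * x) (cs.simple i) = D cs u (cs.simple i) :=
  D_mul_isMin cs hu hx (simple_mem_WP cs hi) (cs.isReflection_simple i)

theorem isMin_unique {K : Set B} {u x x' : W} (hu : u ∈ WP cs K) (hx : IsMin cs K x)
    (hx' : IsMin cs K x') (h : x' = u * x) : u = 1 := by
  by_contra hne
  obtain ⟨i, hi, hD⟩ := exists_desc cs hu hne
  have h1 := hx' i hi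
  rw [h, D_mul_isMin' cs hu hx hi, hD] at h1
  simp at h1

theorem decomp_unique {K : Set B} {u x u' x' : W} (hu : u ∈ WP cs K) (hx : IsMin cs K x)
    (hu' : u' ∈ WP cs K) (hx' : IsMin cs K x') (h : u * x = u' * x') : u = u' ∧ x = x' := by
  have h1 : x' = (u'⁻¹ * u) * x := by rw [mul_assoc, h]; group
  have h2 := isMin_unique cs (Subgroup.mul_mem _ (Subgroup.inv_mem _ hu') hu) hx hx' h1
  have h3 : u = u' := by
    have := congrArg (fun y => u' * y) h2
    simpa using this
  refine ⟨h3, ?_⟩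
  rw [h1, h2, one_mul]

theorem isMin_WP_one {K : Set B} {x : W} (hx : x ∈ WP cs K) (hm : IsMin cs K x) : x = 1 := by
  by_contra hne
  obtain ⟨i, hi, hD⟩ := exists_desc cs hx hne
  rw [hm i hi] at hD
  simp at hD

theorem isMin_mono {I K : Set B} (h : I ⊆ K) {x : W} (hx : IsMin cs K x) : IsMin cs I x :=
  fun i hi => hx i (h hi)

theorem isMin_of_mem {J K : Set B} {x : W} (hx : x ∈ WP cs J) (hm : IsMin cs (J ∩ K) x) :
    IsMin cs K x := by
  intro i hi
  by_contra hne
  exact hne (hm i ⟨desc_mem cs hx hne, hi⟩)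

theorem mem_of_decomp {J K : Set B} {u x : W} (hu : u ∈ WP cs K) (hx : IsMin cs K x)
    (h : u * x ∈ WP cs J) : u ∈ WP cs (J ∩ K) ∧ x ∈ WP cs J := by
  obtain ⟨u', hu', x', hx', he⟩ := exists_decomp cs (J ∩ K) (u * x)
  have hu'J : u' ∈ WP cs J := WP_mono cs Set.inter_subset_left hu'
  have hx'J : x' ∈ WP cs J := by
    have : x' = u'⁻¹ * (u * x) := by rw [he]; group
    rw [this]; exact Subgroup.mul_mem _ (Subgroup.inv_mem _ hu'J) h
  have h1 := decomp_unique cs hu hx (WP_mono cs Set.inter_subset_right hu')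
    (isMin_of_mem cs hx'J hx') he
  rw [h1.1, h1.2]
  exact ⟨hu', hx'J⟩

theorem length_le_of_isMin {K : Set B} {x : W} (hx : IsMin cs K x) {u : W} (hu : u ∈ WP cs K) :
    cs.length x ≤ cs.length (u * x) ∧ (u ≠ 1 → cs.length x < cs.length (u * x)) := by
  classical
  induction hn : cs.length (u * x) using Nat.strong_induction_on generalizing u with
  | _ n ih =>
    by_cases h1 : u = 1
    · subst h1
      rw [one_mul] at hn
      exact ⟨hn.le, fun h => absurd rfl h⟩
    · obtain ⟨i, hi, hD⟩ := exists_desc cs hu h1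
      have hD' : D cs (u * x) (cs.simple i) = 1 := by rw [D_mul_isMin' cs hu hx hi]; exact hD
      have hlt := length_lt_of_D cs hD'
      have h2 := (ih _ (by rw [← hn]; exact hlt)
        (Subgroup.mul_mem _ (simple_mem_WP cs hi) hu) (by rw [mul_assoc])).1
      rw [← hn]
      have h3 : cs.length x < cs.length (u * x) := by omega
      exact ⟨h3.le, fun _ => h3⟩

theorem mem_WP_inter {I J : Set B} {u : W} (hI : u ∈ WP cs I) (hJ : u ∈ WP cs J) :
    u ∈ WP cs (I ∩ J) := by
  have h := mem_of_decomp cs (J := J) (K := I) (u := u) (x := 1) hI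
    (fun i _ => D_one cs _) (by rw [mul_one]; exact hJ)
  rw [Set.inter_comm]; exact h.1

/-- if all left inversions of `a` lie in `W_K`, so does `a`. -/
theorem mem_WP_of_forall {K : Set B} (a : W)
    (h : ∀ t, cs.IsReflection t → D cs a t = 1 → t ∈ WP cs K) : a ∈ WP cs K := by
  classical
  induction hn : cs.length a using Nat.strong_induction_on generalizing a with
  | _ n ih =>
    by_cases h1 : a = 1
    · rw [h1]; exact Subgroup.one_mem _
    have htop : a ∈ WP cs Set.univ := by
      have : WP cs Set.univ = ⊤ := by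
        unfold WP; rw [Set.image_univ]; exact cs.subgroup_closure_range_simple
      rw [this]; exact Subgroup.mem_top a
    obtain ⟨i, _, hD⟩ := exists_desc cs htop h1
    have hsi : cs.simple i ∈ WP cs K := h _ (cs.isReflection_simple i) hD
    have hlt := length_lt_of_D cs hD
    have h2 := ih _ (by rw [← hn]; exact hlt) (cs.simple i * a) (by
      intro t ht hDt
      by_cases hti : t = cs.simple i
      · rw [hti]; exact hsi
      · rw [D_mul, D_simple, if_neg hti, zero_add] at hDt
        have h3 := h _ (by simpa using ht.conj (cs.simple i)⁻¹) hDt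
        have h4 : t = cs.simple i * ((cs.simple i)⁻¹ * t * cs.simple i) * (cs.simple i)⁻¹ := by
          group
        rw [h4]
        exact Subgroup.mul_mem _ (Subgroup.mul_mem _ hsi h3) (Subgroup.inv_mem _ hsi)) rfl
    have h5 : a = cs.simple i * (cs.simple i * a) := by simp
    rw [h5]
    exact Subgroup.mul_mem _ hsi h2

/-- product of parabolic subgroups, as a set -/
def WPP (I J : Set B) : Set W := {x | ∃ a ∈ WP cs I, ∃ b ∈ WP cs J, x = a * b}

/-- optimal factorisation within `W_A x ∩ W_I W_J` where `A ⊆ I`. -/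
theorem optimal {I J A : Set B} (hA : A ⊆ I) {z : W} (hz : z ∈ WPP cs I J) :
    ∃ c ∈ WP cs A, ∃ a ∈ WP cs I, ∃ b ∈ WP cs J, c * z = a * b ∧ IsMin cs A a ∧
      ∀ t, cs.IsReflection t → D cs a t = 1 → D cs (a * b) t = 1 := by
  classical
  obtain ⟨a0, ha0, b0, hb0, hz0⟩ := hz
  have hex : ∃ n : ℕ, ∃ c ∈ WP cs A, ∃ a ∈ WP cs I, ∃ b ∈ WP cs J, c * z = a * b ∧
      cs.length a + cs.length b = n :=
    ⟨_, 1, Subgroup.one_mem _, a0, ha0, b0, hb0, by rw [one_mul]; exact hz0, rfl⟩
  obtain ⟨c, hc, a, ha, b, hb, he, hn⟩ := Nat.find_spec hex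
  have hmin : ∀ c ∈ WP cs A, ∀ a' ∈ WP cs I, ∀ b' ∈ WP cs J, c * z = a' * b' →
      cs.length a + cs.length b ≤ cs.length a' + cs.length b' := by
    intro c' hc' a' ha' b' hb' he'
    rw [hn]; exact Nat.find_min' hex ⟨c', hc', a', ha', b', hb', he', rfl⟩
  refine ⟨c, hc, a, ha, b, hb, he, ?_, ?_⟩
  · intro i hi
    by_contra hne
    have hD1 : D cs a (cs.simple i) = 1 := (zmod2_cases _).resolve_left hne
    have hlt := length_lt_of_D cs hD1
    have := hmin (cs.simple i * c) (Subgroup.mul_mem _ (simple_mem_WP cs hi) hc)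
      (cs.simple i * a) (Subgroup.mul_mem _ (simple_mem_WP cs (hA hi)) ha) b hb
      (by rw [mul_assoc, he, mul_assoc])
    omega
  · intro t ht hDt
    rw [D_mul, hDt]
    rcases zmod2_cases (D cs b (a⁻¹ * t * a)) with h | h
    · rw [h, add_zero]
    · exfalso
      have htI : t ∈ WP cs I := mem_WP_of_D cs ha (by rw [hDt]; exact one_ne_zero)
      have htJ : a⁻¹ * t * a ∈ WP cs J := mem_WP_of_D cs hb (by rw [h]; exact one_ne_zero)
      have hr : cs.IsReflection (a⁻¹ * t * a) := by simpa using ht.conj a⁻¹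
      have l1 := (D_eq_one_iff cs a ht).mp hDt
      have l2 := (D_eq_one_iff cs b hr).mp h
      have := hmin c hc (t * a) (Subgroup.mul_mem _ htI ha) (a⁻¹ * t * a * b)
        (Subgroup.mul_mem _ htJ hb) (by
          rw [he]
          have : t * a * (a⁻¹ * t * a * b) = (t * t) * (a * b) := by group
          rw [this, ht.mul_self, one_mul])
      omega

theorem WPP_inter {I J K : Set B} {x : W} (hx : x ∈ WP cs K) (h : x ∈ WPP cs I J) :
    x ∈ WPP cs (I ∩ K) (J ∩ K) := by
  obtain ⟨c, hc, a, ha, b, hb, he, -, hD⟩ := optimal cs (A := ∅) (Set.empty_subset _) h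
  have hc1 : c = 1 := by
    have : WP cs ∅ = ⊥ := by unfold WP; simp
    rw [this] at hc; exact Subgroup.mem_bot.mp hc
  rw [hc1, one_mul] at he
  have haK : a ∈ WP cs K := by
    apply mem_WP_of_forall
    intro t ht hDt
    have := hD t ht hDt
    rw [← he] at this
    exact mem_WP_of_D cs hx (by rw [this]; exact one_ne_zero)
  have hbK : b ∈ WP cs K := by
    have : b = a⁻¹ * x := by rw [he]; group
    rw [this]; exact Subgroup.mul_mem _ (Subgroup.inv_mem _ haK) hx
  exact ⟨a, mem_WP_inter cs ha haK, b, mem_WP_inter cs hb hbK, he⟩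

end par

end Pool.Agent.HeckeCox
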