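import Mathlib
import Pool.Agent.Lib_helper18.Hecke.Par

set_option autoImplicit false

/-! Alternating products and dihedral parabolic subgroups. -/

namespace Pool.Agent.HeckeCox

open CoxeterSystem

/-- alternating product `x c * x (!c) * x c * ...` with `n` factors -/
def alt {G : Type*} [Monoid G] (x : Bool → G) : Bool → ℕ → G
  | _, 0 => 1
  | c, n + 1 => x c * alt x (!c) n

/-- the `n`-th letter (counted from `0`) of an alternating word starting with `c` -/
def tw (c : Bool) : ℕ → Bool
  | 0 => c
  | n + 1 => !(tw c n)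

@[simp] theorem tw_zero (c : Bool) : tw c 0 = c := rfl
theorem tw_succ (c : Bool) (n : ℕ) : tw c (n + 1) = !(tw c n) := rfl
theorem tw_not (c : Bool) (n : ℕ) : tw (!c) n = !(tw c n) := by
  induction n with
  | zero => rfl
  | succ n ih => rw [tw_succ, tw_succ, ih]

theorem tw_add (c : Bool) (m n : ℕ) : tw c (m + n) = tw (tw c m) n := by
  induction n with
  | zero => rfl
  | succ n ih => rw [← add_assoc, tw_succ, tw_succ, ih]

theorem tw_two (c : Bool) : tw c 2 = c := by simp [tw_succ]

theorem tw_two_mul (c : Bool) (n : ℕ) : tw c (2 * n) = c := by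
  induction n with
  | zero => rfl
  | succ n ih => rw [mul_add, tw_add, ih]; simp [tw_succ]

section alt

variable {G : Type*} [Monoid G] (x : Bool → G)

@[simp] theorem alt_zero (c : Bool) : alt x c 0 = 1 := rfl
theorem alt_succ (c : Bool) (n : ℕ) : alt x c (n + 1) = x c * alt x (!c) n := rfl
@[simp] theorem alt_one (c : Bool) : alt x c 1 = x c := by simp [alt_succ]

theorem alt_succ' (c : Bool) (n : ℕ) : alt x c (n + 1) = alt x c n * x (tw c n) := by
  induction n generalizing c with
  | zero => simp
  | succ n ih =>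
    rw [alt_succ, ih, alt_succ, mul_assoc, tw_not, tw_succ]

theorem alt_add (c : Bool) (m n : ℕ) : alt x c (m + n) = alt x c m * alt x (tw c m) n := by
  induction n with
  | zero => simp
  | succ n ih => rw [← add_assoc, alt_succ', ih, alt_succ', mul_assoc, tw_add]

theorem map_alt {H : Type*} [Monoid H] (f : G →* H) (c : Bool) (n : ℕ) :
    f (alt x c n) = alt (fun b => f (x b)) c n := by
  induction n generalizing c with
  | zero => simp
  | succ n ih => rw [alt_succ, map_mul, ih, alt_succ]

theorem alt_two_mul (c : Bool) (k : ℕ) : alt x c (2 * k) = (x c * x (!c)) ^ k := by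
  induction k with
  | zero => simp
  | succ k ih =>
    rw [mul_add, alt_add, ih, tw_two_mul, pow_succ, alt_succ, alt_one]

/-- inverse of an alternating product of involutions -/
theorem alt_mul_alt (hx : ∀ b, x b * x b = 1) (c : Bool) (n : ℕ) :
    alt x c n * alt x (tw (!c) n) n = 1 := by
  induction n with
  | zero => simp
  | succ n ih =>
    rw [alt_succ', alt_succ, tw_succ, tw_not, Bool.not_not]
    have : alt x c n * x (tw c n) * (x (tw c n) * alt x (!tw c n) n) =
        alt x c n * (x (tw c n) * x (tw c n)) * alt x (!tw c n) n := by simp only [mul_assoc]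
    rw [this, hx, mul_one, ← tw_not, ih]

end alt

theorem alt_braid {G : Type*} [Group G] (x : Bool → G) (hx : ∀ b, x b * x b = 1) {m : ℕ}
    {c : Bool} (h : (x c * x (!c)) ^ m = 1) : alt x c m = alt x (!c) m := by
  have h1 := alt_mul_alt x hx (!c) m
  rw [Bool.not_not] at h1
  have h2 : alt x c m * alt x (tw c m) m = 1 := by
    rw [← alt_add, ← two_mul, alt_two_mul, h]
  exact mul_right_cancel (h2.trans h1.symm)

section dih

variable {B W : Type*} [Group W] {M : CoxeterMatrix B} (cs : CoxeterSystem M W)

/-- a pair of indices as a function on `Bool` -/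
def pr (i j : B) : Bool → B := fun b => if b then i else j

/-- simple reflections of a pair -/
def sx (i j : B) : Bool → W := fun b => cs.simple (pr i j b)

theorem sx_mul_self (i j : B) (b : Bool) : sx cs i j b * sx cs i j b = 1 :=
  cs.simple_mul_simple_self _

theorem pr_ne {i j : B} (hij : i ≠ j) (b : Bool) : pr i j b ≠ pr i j (!b) := by
  cases b
  · simpa [pr] using hij.symm
  · simpa [pr] using hij

theorem M_pr (i j : B) (b : Bool) : M (pr i j b) (pr i j (!b)) = M i j := by
  cases b
  · simp [pr, M.symmetric j i]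
  · simp [pr]

theorem sx_pow (i j : B) (c : Bool) : (sx cs i j c * sx cs i j (!c)) ^ (M i j) = 1 := by
  rw [← M_pr i j c]; exact cs.simple_mul_simple_pow _ _

theorem sx_order {i j : B} (hij : i ≠ j) (c : Bool) {k : ℕ} (hk : 1 ≤ k)
    (h : (sx cs i j c * sx cs i j (!c)) ^ k = 1) : M i j ≠ 0 ∧ M i j ≤ k := by
  have := order_ge cs (pr_ne hij c) hk h
  rwa [M_pr] at this

theorem alt_sx_braid (i j : B) (c : Bool) :
    alt (sx cs i j) c (M i j) = alt (sx cs i j) (!c) (M i j) :=
  alt_braid _ (sx_mul_self cs i j) (sx_pow cs i j c)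

open Classical in
theorem D_alt (i j : B) (c : Bool) (l : ℕ) (t : W) :
    D cs (alt (sx cs i j) c l) t = ∑ k ∈ Finset.range l,
      if t = (sx cs i j c * sx cs i j (!c)) ^ k * sx cs i j c then 1 else 0 := by
  induction l generalizing c t with
  | zero => simp [D_one]
  | succ l ih =>
    rw [alt_succ, D_mul, ih, Finset.sum_range_succ', add_comm]
    congr 1
    · apply Finset.sum_congr rfl
      intro k _
      have key : ∀ k : ℕ, sx cs i j c * ((sx cs i j (!c) * sx cs i j c) ^ k * sx cs i j (!c)) *
          (sx cs i j c)⁻¹ = (sx cs i j c * sx cs i j (!c)) ^ (k + 1) * sx cs i j c := by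
        intro k
        have h1 : sx cs i j c * (sx cs i j (!c) * sx cs i j c) ^ k =
            (sx cs i j c * sx cs i j (!c)) ^ k * sx cs i j c := by
          induction k with
          | zero => simp
          | succ k ihk => rw [pow_succ, ← mul_assoc, ihk, pow_succ]; simp only [mul_assoc]
        have h2 : (sx cs i j c)⁻¹ = sx cs i j c := cs.inv_simple _
        rw [← mul_assoc, h1, h2, pow_succ]; simp only [mul_assoc]
      have : ((sx cs i j c)⁻¹ * t * sx cs i j c =
          (sx cs i j (!c) * sx cs i j (!!c)) ^ k * sx cs i j (!c)) ↔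
          t = (sx cs i j c * sx cs i j (!c)) ^ (k + 1) * sx cs i j c := by
        rw [Bool.not_not, ← key k]
        constructor
        · intro h
          rw [← h]; group
        · intro h
          rw [h]; group
      simp only [this]
    · rw [show sx cs i j c = cs.simple (pr i j c) from rfl, D_simple]
      simp

theorem D_alt_not {i j : B} (hij : i ≠ j) (c : Bool) {l : ℕ} (hl : M i j = 0 ∨ l < M i j) :
    D cs (alt (sx cs i j) c l) (sx cs i j (!c)) = 0 := by
  classical
  rw [D_alt]
  apply Finset.sum_eq_zero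
  intro k hk
  rw [Finset.mem_range] at hk
  rw [if_neg]
  intro h
  have h1 : (sx cs i j c * sx cs i j (!c)) ^ (k + 1) = 1 := by
    rw [pow_succ, ← mul_assoc, ← h, sx_mul_self]
  have := sx_order cs hij c (by omega) h1
  omega

theorem D_alt_self {i j : B} (hij : i ≠ j) (c : Bool) {l : ℕ} (hl1 : 1 ≤ l)
    (hl : M i j = 0 ∨ l ≤ M i j) :
    D cs (alt (sx cs i j) c l) (sx cs i j c) = 1 := by
  classical
  rw [D_alt]
  obtain ⟨l, rfl⟩ : ∃ l', l = l' + 1 := ⟨l - 1, by omega⟩
  rw [Finset.sum_range_succ']
  have : ∀ k ∈ Finset.range l, (if sx cs i j c =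
      (sx cs i j c * sx cs i j (!c)) ^ (k + 1) * sx cs i j c then (1 : ZMod 2) else 0) = 0 := by
    intro k hk
    rw [Finset.mem_range] at hk
    rw [if_neg]
    intro h
    have h1 : (sx cs i j c * sx cs i j (!c)) ^ (k + 1) = 1 := by
      have := h.symm
      rwa [mul_eq_right] at this
    have := sx_order cs hij c (by omega) h1
    omega
  rw [Finset.sum_eq_zero this]
  simp

/-- for infinite or large label, length of alternating words -/
theorem length_alt {i j : B} (hij : i ≠ j) (c : Bool) {l : ℕ} (hl : M i j = 0 ∨ l ≤ M i j) :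
    cs.length (alt (sx cs i j) c l) = l := by
  induction l generalizing c with
  | zero => simp
  | succ l ih =>
    have h1 := ih (!c) (by omega)
    have h2 : D cs (alt (sx cs i j) (!c) l) (sx cs i j c) = 0 := by
      have := D_alt_not cs hij (!c) (l := l) (by omega)
      rwa [Bool.not_not] at this
    have h3 := (D_eq_zero_iff cs _ (cs.isReflection_simple (pr i j c))).mp h2
    rw [alt_succ]
    have h4 := cs.length_mul_le (sx cs i j c) (alt (sx cs i j) (!c) l)
    have h5 : cs.length (sx cs i j c) = 1 := cs.length_simple _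
    change _ < cs.length (sx cs i j c * alt (sx cs i j) (!c) l) at h3
    omega

theorem pair_image (i j : B) : cs.simple '' {i, j} = Set.range (sx cs i j) := by
  ext w
  constructor
  · rintro ⟨k, hk, rfl⟩
    rcases hk with rfl | hk
    · exact ⟨true, by simp [sx, pr]⟩
    · rw [Set.mem_singleton_iff] at hk; subst hk
      exact ⟨false, by simp [sx, pr]⟩
  · rintro ⟨b, rfl⟩
    cases b
    · exact ⟨j, by simp, by simp [sx, pr]⟩
    · exact ⟨i, by simp, by simp [sx, pr]⟩

theorem sx_mem (i j : B) (b : Bool) : sx cs i j b ∈ WP cs {i, j} := by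
  unfold WP; rw [pair_image]; exact Subgroup.subset_closure ⟨b, rfl⟩

theorem alt_mem (i j : B) (c : Bool) (l : ℕ) : alt (sx cs i j) c l ∈ WP cs {i, j} := by
  induction l generalizing c with
  | zero => exact Subgroup.one_mem _
  | succ l ih => exact Subgroup.mul_mem _ (sx_mem cs i j c) (ih _)

/-- left multiplication of an alternating word by a generator -/
theorem mul_alt (i j : B) (b c : Bool) (l : ℕ) :
    ∃ c' l', sx cs i j b * alt (sx cs i j) c l = alt (sx cs i j) c' l' ∧ (l' = l + 1 ∨ l' < l) := by
  rcases Nat.eq_zero_or_pos l with h0 | hpos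
  · subst h0
    exact ⟨b, 1, by simp, Or.inl rfl⟩
  · obtain ⟨l, rfl⟩ : ∃ l', l = l' + 1 := ⟨l - 1, by omega⟩
    by_cases hbc : b = c
    · subst hbc
      refine ⟨!b, l, ?_, Or.inr (by omega)⟩
      rw [alt_succ, ← mul_assoc, sx_mul_self, one_mul]
    · have : c = !b := by cases b <;> cases c <;> simp_all
      subst this
      exact ⟨b, l + 1 + 1, by rw [alt_succ _ b], Or.inl rfl⟩

theorem exists_alt (i j : B) {u : W} (hu : u ∈ WP cs {i, j}) :
    ∃ c l, u = alt (sx cs i j) c l := by
  unfold WP at hu
  rw [pair_image] at hu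
  induction hu using Subgroup.closure_induction_left with
  | one => exact ⟨true, 0, rfl⟩
  | mul_left x hx y hy ih =>
    obtain ⟨b, rfl⟩ := hx
    obtain ⟨c, l, rfl⟩ := ih
    obtain ⟨c', l', h, -⟩ := mul_alt cs i j b c l
    exact ⟨c', l', h⟩
  | inv_mul_cancel x hx y hy ih =>
    obtain ⟨b, rfl⟩ := hx
    obtain ⟨c, l, rfl⟩ := ih
    obtain ⟨c', l', h, -⟩ := mul_alt cs i j b c l
    refine ⟨c', l', ?_⟩
    rw [← h]
    congr 1
    exact cs.inv_simple _

theorem exists_alt_le {i j : B} (hM : M i j ≠ 0) {u : W} (hu : u ∈ WP cs {i, j}) :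
    ∃ c l, l ≤ M i j ∧ u = alt (sx cs i j) c l := by
  have key : ∀ (b c : Bool) (l : ℕ), l ≤ M i j → ∃ c' l', l' ≤ M i j ∧
      sx cs i j b * alt (sx cs i j) c l = alt (sx cs i j) c' l' := by
    intro b c l hl
    rcases Nat.lt_or_ge l (M i j) with h | h
    · obtain ⟨c', l', h1, h2⟩ := mul_alt cs i j b c l
      exact ⟨c', l', by omega, h1⟩
    · have hlm : l = M i j := by omega
      have h1 : alt (sx cs i j) c l = alt (sx cs i j) b l := by
        by_cases hbc : b = c
        · rw [hbc]
        · have : c = !b := by cases b <;> cases c <;> simp_all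
          rw [this, hlm, ← alt_sx_braid]
      obtain ⟨l', hl'⟩ : ∃ l', l = l' + 1 := ⟨l - 1, by omega⟩
      refine ⟨!b, l', by omega, ?_⟩
      rw [h1, hl', alt_succ, ← mul_assoc, sx_mul_self, one_mul]
  unfold WP at hu
  rw [pair_image] at hu
  induction hu using Subgroup.closure_induction_left with
  | one => exact ⟨true, 0, by omega, rfl⟩
  | mul_left x hx y hy ih =>
    obtain ⟨b, rfl⟩ := hx
    obtain ⟨c, l, hl, rfl⟩ := ih
    exact key b c l hl
  | inv_mul_cancel x hx y hy ih =>
    obtain ⟨b, rfl⟩ := hx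
    obtain ⟨c, l, hl, rfl⟩ := ih
    obtain ⟨c', l', hl', h⟩ := key b c l hl
    refine ⟨c', l', hl', ?_⟩
    rw [← h]
    congr 1
    exact cs.inv_simple _

/-- two distinct left descents force a finite label -/
theorem no_two_desc {i j : B} (hij : i ≠ j) {w : W} (hi : D cs w (cs.simple i) = 1)
    (hj : D cs w (cs.simple j) = 1) : M i j ≠ 0 := by
  intro hM
  obtain ⟨u, hu, x, hx, rfl⟩ := exists_decomp cs {i, j} w
  rw [D_mul_isMin' cs hu hx (by simp)] at hi hj
  obtain ⟨c, l, rfl⟩ := exists_alt cs i j hu
  have := D_alt_not cs hij c (l := l) (Or.inl hM)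
  cases c
  · have h2 : sx cs i j (!false) = cs.simple i := by simp [sx, pr]
    rw [h2, hi] at this; simp at this
  · have h2 : sx cs i j (!true) = cs.simple j := by simp [sx, pr]
    rw [h2, hj] at this; simp at this

end dih

end Pool.Agent.HeckeCox
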