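import Mathlib
import Pool.Agent.Lib_helper18.Hecke.Dih
import Pool.Agent.Lib_helper18.Hecke.Defs

set_option autoImplicit false

/-! The regular representation of the Hecke algebra on the free module with basis `W`. -/

namespace Pool.Agent.HeckeCox

open CoxeterSystem

theorem alt_eq_altProd {G : Type*} [Monoid G] (x : Bool → G) (c : Bool) (n : ℕ) :
    alt x c n = altProd (x c) (x (!c)) n := by
  induction n generalizing c with
  | zero => rfl
  | succ n ih => rw [alt_succ, ih, altProd, Bool.not_not]

section mod

variable {B W : Type*} [Group W] {M : CoxeterMatrix B} (cs : CoxeterSystem M W)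
variable {R : Type*} [CommRing R] (q : R)

/-- left multiplication by `h_i`, on `W →₀ R` -/
noncomputable def Lop (i : B) : (W →₀ R) →ₗ[R] (W →₀ R) :=
  Finsupp.linearCombination R (fun w => Finsupp.single (cs.simple i * w) 1 +
    Finsupp.single w (if D cs w (cs.simple i) = 1 then q else 0))

/-- right multiplication by `h_i`, on `W →₀ R` -/
noncomputable def Rop (i : B) : (W →₀ R) →ₗ[R] (W →₀ R) :=
  Finsupp.linearCombination R (fun w => Finsupp.single (w * cs.simple i) 1 +
    Finsupp.single w (if D cs w⁻¹ (cs.simple i) = 1 then q else 0))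

theorem Lop_single (i : B) (w : W) : Lop cs q i (Finsupp.single w 1) =
    Finsupp.single (cs.simple i * w) 1 +
    Finsupp.single w (if D cs w (cs.simple i) = 1 then q else 0) := by
  simp [Lop, Finsupp.linearCombination_single]

theorem Rop_single (i : B) (w : W) : Rop cs q i (Finsupp.single w 1) =
    Finsupp.single (w * cs.simple i) 1 +
    Finsupp.single w (if D cs w⁻¹ (cs.simple i) = 1 then q else 0) := by
  simp [Rop, Finsupp.linearCombination_single]

theorem Lop_apply (i : B) (x : W →₀ R) (w : W) : Lop cs q i x w =
    x (cs.simple i * w) + (if D cs w (cs.simple i) = 1 then q else 0) * x w := by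
  classical
  induction x using Finsupp.induction_linear with
  | zero => simp
  | add f g hf hg => rw [map_add, Finsupp.add_apply, hf, hg, Finsupp.add_apply,
      Finsupp.add_apply]; ring
  | single a b =>
    have h : (Finsupp.single a b : W →₀ R) = b • Finsupp.single a 1 := by simp
    rw [h, map_smul, Lop_single]
    simp only [Finsupp.smul_apply, Finsupp.add_apply, smul_eq_mul, Finsupp.single_apply]
    have e1 : (cs.simple i * a = w) ↔ (a = cs.simple i * w) := by
      constructor
      · rintro rfl; simp
      · rintro rfl; simp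
    simp only [e1]
    by_cases h1 : a = w
    · subst h1
      by_cases h2 : a = cs.simple i * a
      · split_ifs <;> ring
      · split_ifs <;> ring
    · simp [h1]

theorem Rop_apply (i : B) (x : W →₀ R) (w : W) : Rop cs q i x w =
    x (w * cs.simple i) + (if D cs w⁻¹ (cs.simple i) = 1 then q else 0) * x w := by
  classical
  induction x using Finsupp.induction_linear with
  | zero => simp
  | add f g hf hg => rw [map_add, Finsupp.add_apply, hf, hg, Finsupp.add_apply,
      Finsupp.add_apply]; ring
  | single a b =>
    have h : (Finsupp.single a b : W →₀ R) = b • Finsupp.single a 1 := by simp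
    rw [h, map_smul, Rop_single]
    simp only [Finsupp.smul_apply, Finsupp.add_apply, smul_eq_mul, Finsupp.single_apply]
    have e1 : (a * cs.simple i = w) ↔ (a = w * cs.simple i) := by
      constructor
      · rintro rfl; simp [mul_assoc]
      · rintro rfl; simp [mul_assoc]
    simp only [e1]
    by_cases h1 : a = w
    · subst h1
      by_cases h2 : a = a * cs.simple i
      · split_ifs <;> ring
      · split_ifs <;> ring
    · simp [h1]

open Classical in
theorem D_inv_mul (i j : B) (w : W) : D cs (cs.simple i * w)⁻¹ (cs.simple j) =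
    D cs w⁻¹ (cs.simple j) + if cs.simple i * w = w * cs.simple j then 1 else 0 := by
  classical
  rw [mul_inv_rev, D_mul, cs.inv_simple, D_simple]
  congr 1
  have : (w⁻¹⁻¹ * cs.simple j * w⁻¹ = cs.simple i) ↔ (cs.simple i * w = w * cs.simple j) := by
    rw [inv_inv]
    constructor
    · intro h; rw [← h]; group
    · intro h; rw [← h]; group
  simp only [this]

open Classical in
theorem D_mul_simple (i j : B) (w : W) : D cs (w * cs.simple j) (cs.simple i) =
    D cs w (cs.simple i) + if cs.simple i * w = w * cs.simple j then 1 else 0 := by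
  classical
  rw [D_mul, D_simple]
  congr 1
  have : (w⁻¹ * cs.simple i * w = cs.simple j) ↔ (cs.simple i * w = w * cs.simple j) := by
    constructor
    · intro h; rw [← h]; group
    · intro h
      have : w⁻¹ * cs.simple i * w = w⁻¹ * (cs.simple i * w) := by group
      rw [this, h]; group
  simp only [this]

theorem D_inv_eq (i j : B) (w : W) (h : cs.simple i * w = w * cs.simple j) :
    D cs w⁻¹ (cs.simple j) = D cs w (cs.simple i) := by
  rw [D_inv]
  congr 1
  rw [← h]; group

/-- left and right operators commute -/
theorem Lop_Rop (i j : B) (x : W →₀ R) : Lop cs q i (Rop cs q j x) = Rop cs q j (Lop cs q i x) := by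
  classical
  ext w
  rw [Lop_apply, Rop_apply, Rop_apply, Rop_apply, Lop_apply, Lop_apply, D_inv_mul, D_mul_simple,
    mul_assoc]
  by_cases h : cs.simple i * w = w * cs.simple j
  · rw [if_pos h]
    have h1 := D_inv_eq cs i j w h
    rw [h1]
    have h2 : cs.simple i * (w * cs.simple j) = w := by rw [← h]; simp
    rw [h2, h]
  · rw [if_neg h]; simp only [add_zero]; ring

theorem Lop_quad (i : B) (x : W →₀ R) : Lop cs q i (Lop cs q i x) = x + q • Lop cs q i x := by
  classical
  ext w
  rw [Finsupp.add_apply, Finsupp.smul_apply, Lop_apply, Lop_apply, Lop_apply, D_simple_mul]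
  have e : cs.simple i * (cs.simple i * w) = w := by simp
  rw [e]
  rcases zmod2_cases (D cs w (cs.simple i)) with hD | hD
  · rw [hD]; simp
  · rw [hD]
    have h11 : (1 : ZMod 2) + 1 = 0 := rfl
    simp [h11]

/-- `h_i` as an invertible operator -/
noncomputable def Leq (i : B) : (W →₀ R) ≃ₗ[R] (W →₀ R) :=
  LinearEquiv.ofLinearMap (Lop cs q i) (Lop cs q i - q • LinearMap.id)
    (by
      ext1; ext1
      simp only [LinearMap.comp_apply, LinearMap.sub_apply, LinearMap.smul_apply,
        LinearMap.id_apply, map_sub, map_smul, Lop_quad]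
      simp)
    (by
      ext1; ext1
      simp only [LinearMap.comp_apply, LinearMap.sub_apply, LinearMap.smul_apply,
        LinearMap.id_apply, Lop_quad]
      simp)

@[simp] theorem Leq_apply (i : B) (x : W →₀ R) : Leq cs q i x = Lop cs q i x := rfl

theorem Leq_symm_apply (i : B) (x : W →₀ R) :
    (Leq cs q i)⁻¹ x = Lop cs q i x - q • x := rfl

theorem Lop_single_of_D {i : B} {w : W} (h : D cs w (cs.simple i) = 0) :
    Lop cs q i (Finsupp.single w 1) = Finsupp.single (cs.simple i * w) 1 := by
  rw [Lop_single, h]; simp

theorem Rop_single_of_D {i : B} {w : W} (h : D cs w⁻¹ (cs.simple i) = 0) :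
    Rop cs q i (Finsupp.single w 1) = Finsupp.single (w * cs.simple i) 1 := by
  rw [Rop_single, h]; simp

/-- pair of operators -/
noncomputable def Lx (i j : B) : Bool → ((W →₀ R) ≃ₗ[R] (W →₀ R)) := fun b => Leq cs q (pr i j b)

theorem alt_Lx_one {i j : B} (hij : i ≠ j) (c : Bool) {l : ℕ} (hl : M i j = 0 ∨ l ≤ M i j) :
    alt (Lx cs q i j) c l (Finsupp.single 1 1) = Finsupp.single (alt (sx cs i j) c l) 1 := by
  induction l generalizing c with
  | zero => simp
  | succ l ih =>
    rw [alt_succ, LinearEquiv.mul_apply, ih (!c) (by omega), alt_succ]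
    have h2 : D cs (alt (sx cs i j) (!c) l) (sx cs i j c) = 0 := by
      have := D_alt_not cs hij (!c) (l := l) (by omega)
      rwa [Bool.not_not] at this
    exact Lop_single_of_D cs q h2

theorem alt_Lx_Rop (i j k : B) (c : Bool) (l : ℕ) (x : W →₀ R) :
    alt (Lx cs q i j) c l (Rop cs q k x) = Rop cs q k (alt (Lx cs q i j) c l x) := by
  induction l generalizing c with
  | zero => simp
  | succ l ih =>
    rw [alt_succ, LinearEquiv.mul_apply, ih, LinearEquiv.mul_apply]
    exact Lop_Rop cs q _ _ _

/-- two operators commuting with the right operators and agreeing at `1` agree -/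
theorem ext_of_comm {X Y : (W →₀ R) →ₗ[R] (W →₀ R)}
    (hX : ∀ k x, X (Rop cs q k x) = Rop cs q k (X x))
    (hY : ∀ k x, Y (Rop cs q k x) = Rop cs q k (Y x))
    (h1 : X (Finsupp.single 1 1) = Y (Finsupp.single 1 1)) : X = Y := by
  classical
  ext1 w
  ext1
  simp only [LinearMap.comp_apply, Finsupp.lsingle_apply]
  induction hn : cs.length w using Nat.strong_induction_on generalizing w with
  | _ n ih =>
    by_cases hw : w = 1
    · rw [hw]; exact h1
    · have hw' : w⁻¹ ≠ 1 := by simpa using hw
      have htop : w⁻¹ ∈ WP cs Set.univ := by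
        have : WP cs Set.univ = ⊤ := by
          unfold WP; rw [Set.image_univ]; exact cs.subgroup_closure_range_simple
        rw [this]; exact Subgroup.mem_top _
      obtain ⟨i, _, hD⟩ := exists_desc cs htop hw'
      have hlt := length_lt_of_D cs hD
      have e1 : cs.length (w * cs.simple i) < cs.length w := by
        have : (w * cs.simple i)⁻¹ = cs.simple i * w⁻¹ := by simp
        rw [← cs.length_inv (w * cs.simple i), this, ← cs.length_inv w]
        exact hlt
      have e2 : D cs (w * cs.simple i)⁻¹ (cs.simple i) = 0 := by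
        have : (w * cs.simple i)⁻¹ = cs.simple i * w⁻¹ := by simp
        rw [this, D_simple_mul, hD]; rfl
      have e3 : (Finsupp.single w (1 : R)) = Rop cs q i (Finsupp.single (w * cs.simple i) 1) := by
        rw [Rop_single_of_D cs q e2, mul_assoc, cs.simple_mul_simple_self, mul_one]
      rw [e3, hX, hY, ih _ (by rw [← hn]; exact e1) _ rfl]

theorem Lx_braid {i j : B} (hij : i ≠ j) (c : Bool) :
    alt (Lx cs q i j) c (M i j) = alt (Lx cs q i j) (!c) (M i j) := by
  apply LinearEquiv.toLinearMap_injective
  apply ext_of_comm cs q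
  · intro k x; exact alt_Lx_Rop cs q i j k c _ x
  · intro k x; exact alt_Lx_Rop cs q i j k (!c) _ x
  · show alt (Lx cs q i j) c (M i j) (Finsupp.single 1 1) =
      alt (Lx cs q i j) (!c) (M i j) (Finsupp.single 1 1)
    rw [alt_Lx_one cs q hij c (Or.inr le_rfl), alt_Lx_one cs q hij (!c) (Or.inr le_rfl),
      alt_sx_braid]

/-- the action of the braid group -/
noncomputable def act : BraidGroup M →* ((W →₀ R) ≃ₗ[R] (W →₀ R)) :=
  PresentedGroup.toGroup (f := fun i => Leq cs q i) (by
    rintro g ⟨i, j, hij, hM, rfl⟩
    have h := Lx_braid cs q hij true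
    rw [alt_eq_altProd, alt_eq_altProd] at h
    have e1 : Lx cs q i j true = Leq cs q i := rfl
    have e2 : Lx cs q i j false = Leq cs q j := rfl
    rw [Bool.not_true, Bool.not_false, e1, e2] at h
    rw [map_mul, map_inv, map_altProd, map_altProd, FreeGroup.lift_apply_of,
      FreeGroup.lift_apply_of, h, mul_inv_cancel])

theorem act_of (i : B) : act cs q (PresentedGroup.of i) = Leq cs q i :=
  PresentedGroup.toGroup.of _

end mod

end Pool.Agent.HeckeCox
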