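import Mathlib
import Pool.Agent.Lib_helper18.Hecke.Mod

set_option autoImplicit false

/-! The inductive property `Q`, restriction to cosets, and direct products. -/

namespace Pool.Agent.HeckeCox

open CoxeterSystem

section Q

variable {B W : Type*} [Group W] {M : CoxeterMatrix B} (cs : CoxeterSystem M W)
variable {R : Type*} [CommRing R] (q : R)

/-- standard parabolic subgroups of the braid group -/
def BP (M : CoxeterMatrix B) (K : Set B) : Subgroup (BraidGroup M) :=
  Subgroup.closure ((fun i => (PresentedGroup.of i : BraidGroup M)) '' K)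

theorem of_mem_BP {K : Set B} {i : B} (hi : i ∈ K) :
    (PresentedGroup.of i : BraidGroup M) ∈ BP M K := Subgroup.subset_closure ⟨i, hi, rfl⟩

theorem BP_mono {I J : Set B} (h : I ⊆ J) : BP M I ≤ BP M J :=
  Subgroup.closure_mono (Set.image_mono h)

/-- `x` is supported in `S` -/
def Supp (S : Set W) (x : W →₀ R) : Prop := ∀ w, x w ≠ 0 → w ∈ S

omit [Group W] in
theorem Supp.mono {S T : Set W} (h : S ⊆ T) {x : W →₀ R} (hx : Supp S x) : Supp T x :=
  fun w hw => h (hx w hw)

theorem supp_Lop {S : Set W} {i : B} (hS : ∀ w, w ∈ S → cs.simple i * w ∈ S) {x : W →₀ R}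
    (hx : Supp S x) : Supp S (Lop cs q i x) := by
  intro w hw
  rw [Lop_apply] at hw
  by_contra hwS
  apply hw
  have h1 : x w = 0 := by
    by_contra h; exact hwS (hx w h)
  have h2 : x (cs.simple i * w) = 0 := by
    by_contra h
    apply hwS
    have := hS _ (hx _ h)
    simpa using this
  rw [h1, h2]; simp

theorem supp_act {S : Set W} {K : Set B} (hS : ∀ i ∈ K, ∀ w, w ∈ S → cs.simple i * w ∈ S)
    {g : BraidGroup M} (hg : g ∈ BP M K) {x : W →₀ R} (hx : Supp S x) :
    Supp S (act cs q g x) := by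
  unfold BP at hg
  induction hg using Subgroup.closure_induction_left with
  | one => rw [map_one]; exact hx
  | mul_left y hy z hz ih =>
    obtain ⟨i, hi, rfl⟩ := hy
    rw [map_mul, act_of]
    exact supp_Lop cs q (hS i hi) ih
  | inv_mul_cancel y hy z hz ih =>
    obtain ⟨i, hi, rfl⟩ := hy
    rw [map_mul, map_inv, act_of, LinearEquiv.mul_apply, Leq_symm_apply]
    intro w hw
    have h1 := supp_Lop cs q (hS i hi) ih
    by_contra hwS
    apply hw
    rw [Finsupp.sub_apply, Finsupp.smul_apply]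
    have h2 : act cs q z x w = 0 := by
      by_contra h; exact hwS (ih w h)
    have h3 : Lop cs q i (act cs q z x) w = 0 := by
      by_contra h; exact hwS (h1 w h)
    rw [h2, h3]; simp

theorem mul_mem_WPP {I J : Set B} {i : B} (hi : i ∈ I) {w : W} (hw : w ∈ WPP cs I J) :
    cs.simple i * w ∈ WPP cs I J := by
  obtain ⟨a, ha, b, hb, rfl⟩ := hw
  exact ⟨cs.simple i * a, Subgroup.mul_mem _ (simple_mem_WP cs hi) ha, b, hb, by rw [mul_assoc]⟩

theorem supp_act_WPP {I J : Set B} {g : BraidGroup M} (hg : g ∈ BP M I) {x : W →₀ R}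
    (hx : Supp (WPP cs I J) x) : Supp (WPP cs I J) (act cs q g x) :=
  supp_act cs q (fun _ hi _ hw => mul_mem_WPP cs hi hw) hg hx

theorem supp_act_WP {K : Set B} {g : BraidGroup M} (hg : g ∈ BP M K) {x : W →₀ R}
    (hx : Supp (WP cs K : Set W) x) : Supp (WP cs K : Set W) (act cs q g x) :=
  supp_act cs q (fun _ hi _ hw => Subgroup.mul_mem _ (simple_mem_WP cs hi) hw) hg hx

open Classical in
/-- component along the coset `W_K y` -/
noncomputable def comp (K : Set B) (y : W) (x : W →₀ R) : W →₀ R :=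
  (Finsupp.comapDomain (fun u => u * y) x (mul_left_injective y).injOn).filter (· ∈ WP cs K)

open Classical in
theorem comp_apply (K : Set B) (y : W) (x : W →₀ R) (u : W) :
    comp cs K y x u = if u ∈ WP cs K then x (u * y) else 0 := by
  unfold comp
  rw [Finsupp.filter_apply, Finsupp.comapDomain_apply]

theorem comp_apply_mem {K : Set B} {y : W} {x : W →₀ R} {u : W} (hu : u ∈ WP cs K) :
    comp cs K y x u = x (u * y) := by
  classical
  rw [comp_apply, if_pos hu]

theorem comp_supp (K : Set B) (y : W) (x : W →₀ R) : Supp (WP cs K : Set W) (comp cs K y x) := by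
  classical
  intro u hu
  rw [comp_apply] at hu
  by_contra h
  exact hu (if_neg h)

theorem comp_Lop {K : Set B} {y : W} (hy : IsMin cs K y) {i : B} (hi : i ∈ K) (x : W →₀ R) :
    comp cs K y (Lop cs q i x) = Lop cs q i (comp cs K y x) := by
  classical
  ext u
  rw [comp_apply, Lop_apply, Lop_apply, comp_apply, comp_apply]
  have e : cs.simple i * u ∈ WP cs K ↔ u ∈ WP cs K :=
    Subgroup.mul_mem_cancel_left _ (simple_mem_WP cs hi)
  by_cases hu : u ∈ WP cs K
  · rw [if_pos hu, if_pos hu, if_pos (e.mpr hu), D_mul_isMin' cs hu hy hi, mul_assoc]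
  · rw [if_neg hu, if_neg hu, if_neg (fun h => hu (e.mp h))]
    simp

theorem comp_act {K : Set B} {y : W} (hy : IsMin cs K y) {g : BraidGroup M} (hg : g ∈ BP M K)
    (x : W →₀ R) : comp cs K y (act cs q g x) = act cs q g (comp cs K y x) := by
  have key : ∀ i ∈ K, ∀ x : W →₀ R, comp cs K y (act cs q (PresentedGroup.of i) x) =
      act cs q (PresentedGroup.of i) (comp cs K y x) := by
    intro i hi x
    rw [act_of]
    exact comp_Lop cs q hy hi x
  unfold BP at hg
  induction hg using Subgroup.closure_induction generalizing x with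
  | mem z hz =>
    obtain ⟨i, hi, rfl⟩ := hz
    exact key i hi x
  | one => simp
  | mul z z' _ _ ih ih' =>
    rw [map_mul, LinearEquiv.mul_apply, LinearEquiv.mul_apply, ih, ih']
  | inv z _ ih =>
    have h := ih (act cs q z⁻¹ x)
    have h1 : act cs q z (act cs q z⁻¹ x) = x := by
      rw [← LinearEquiv.mul_apply, ← map_mul, mul_inv_cancel, map_one]; rfl
    rw [h1] at h
    rw [h, ← LinearEquiv.mul_apply, ← map_mul, inv_mul_cancel, map_one]; rfl

/-- The inductive property. -/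
def QP (P : Set B) : Prop :=
  ∀ I ⊆ P, ∀ J ⊆ P, ∀ g ∈ BP M P, ∀ c : W →₀ R, c ≠ 0 → Supp (WP cs J : Set W) c →
    Supp (WPP cs I J) (act cs q g c) → ∃ a ∈ BP M I, ∃ b ∈ BP M J, g = a * b

omit [Group W] in
theorem exists_ne_zero {c : W →₀ R} (hc : c ≠ 0) : ∃ w, c w ≠ 0 := by
  by_contra h
  push Not at h
  exact hc (Finsupp.ext h)

/-- component data at a support point -/
theorem comp_data {J K : Set B} {c : W →₀ R} (hJ : Supp (WP cs J : Set W) c) {w : W}
    (hw : c w ≠ 0) : ∃ u ∈ WP cs (J ∩ K), ∃ x ∈ WP cs J, IsMin cs K x ∧ w = u * x ∧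
      comp cs K x c ≠ 0 ∧ Supp (WP cs (J ∩ K) : Set W) (comp cs K x c) := by
  obtain ⟨u, hu, x, hx, rfl⟩ := exists_decomp cs K w
  have h1 := mem_of_decomp cs hu hx (hJ _ hw)
  refine ⟨u, h1.1, x, h1.2, hx, rfl, ?_, ?_⟩
  · intro h
    apply hw
    have := DFunLike.congr_fun h u
    rwa [comp_apply_mem cs hu] at this
  · intro u' hu'
    have hK := comp_supp cs K x c u' hu'
    rw [comp_apply_mem cs hK] at hu'
    exact (mem_of_decomp cs hK hx (hJ _ hu')).1

theorem star {P : Set B} (hQ : QP cs q P) {I J : Set B} {g : BraidGroup M} (hg : g ∈ BP M P)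
    {c : W →₀ R} (hc : c ≠ 0) (hJ : Supp (WP cs J : Set W) c)
    (hIJ : Supp (WPP cs I J) (act cs q g c)) :
    ∃ a ∈ BP M (I ∩ P), ∃ b ∈ BP M (J ∩ P), g = a * b := by
  obtain ⟨w, hw⟩ := exists_ne_zero hc
  obtain ⟨u, hu, x, hxJ, hx, rfl, hne, hsupp⟩ := comp_data cs (K := P) hJ hw
  apply hQ (I ∩ P) Set.inter_subset_right (J ∩ P) Set.inter_subset_right g hg _ hne hsupp
  intro u' hu'
  rw [← comp_act cs q hx hg] at hu'
  have hK := comp_supp cs P x _ u' hu'
  rw [comp_apply_mem cs hK] at hu'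
  obtain ⟨a, ha, b, hb, he⟩ := hIJ _ hu'
  apply WPP_inter cs hK
  exact ⟨a, ha, b * x⁻¹, Subgroup.mul_mem _ hb (Subgroup.inv_mem _ hxJ), by
    rw [← mul_assoc, ← he]; group⟩

theorem WPP_mono {I I' J J' : Set B} (h : I ⊆ I') (h' : J ⊆ J') :
    WPP cs I J ⊆ WPP cs I' J' := by
  rintro w ⟨a, ha, b, hb, rfl⟩
  exact ⟨a, WP_mono cs h ha, b, WP_mono cs h' hb, rfl⟩

theorem of_comm {a b : B} (h : a ≠ b) (hM : M a b = 2) :
    (PresentedGroup.of a : BraidGroup M) * PresentedGroup.of b =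
      PresentedGroup.of b * PresentedGroup.of a := by
  have h1 : (PresentedGroup.mk (braidRels M)) (altProd (FreeGroup.of a) (FreeGroup.of b) (M a b) *
      (altProd (FreeGroup.of b) (FreeGroup.of a) (M a b))⁻¹) = 1 := by
    apply (PresentedGroup.mk_eq_one_iff).mpr
    apply Subgroup.subset_normalClosure
    exact ⟨a, b, h, by rw [hM]; norm_num, rfl⟩
  rw [map_mul, map_inv, map_altProd, map_altProd, hM, mul_inv_eq_one] at h1
  simp only [altProd, mul_one] at h1
  exact h1

theorem BP_comm {P1 P2 : Set B} (h : ∀ a ∈ P1, ∀ b ∈ P2, M a b = 2) {x y : BraidGroup M}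
    (hx : x ∈ BP M P1) (hy : y ∈ BP M P2) : x * y = y * x := by
  have hne : ∀ a ∈ P1, ∀ b ∈ P2, a ≠ b := by
    rintro a ha b hb rfl
    have := h a ha a hb
    rw [M.diagonal] at this
    omega
  have h1 : BP M P2 ≤ Subgroup.centralizer
      ((fun i => (PresentedGroup.of i : BraidGroup M)) '' P1) := by
    unfold BP
    rw [Subgroup.closure_le]
    rintro _ ⟨b, hb, rfl⟩
    rw [SetLike.mem_coe, Subgroup.mem_centralizer_iff]
    rintro _ ⟨a, ha, rfl⟩
    exact of_comm (hne a ha b hb) (h a ha b hb)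
  have h2 : BP M P1 ≤ Subgroup.centralizer (BP M P2 : Set (BraidGroup M)) := by
    unfold BP at h1 ⊢
    rw [Subgroup.closure_le]
    rintro z hz
    rw [SetLike.mem_coe, Subgroup.mem_centralizer_iff]
    intro y hy
    exact ((Subgroup.mem_centralizer_iff.mp (h1 hy)) z hz).symm
  exact ((Subgroup.mem_centralizer_iff.mp (h2 hx)) y hy).symm

theorem BP_union_comm {P1 P2 : Set B} (h : ∀ a ∈ P1, ∀ b ∈ P2, M a b = 2) {g : BraidGroup M}
    (hg : g ∈ BP M (P1 ∪ P2)) : ∃ x ∈ BP M P1, ∃ y ∈ BP M P2, g = x * y := by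
  unfold BP at hg
  induction hg using Subgroup.closure_induction with
  | mem z hz =>
    obtain ⟨i, hi, rfl⟩ := hz
    rcases hi with hi | hi
    · exact ⟨_, of_mem_BP hi, 1, Subgroup.one_mem _, by simp⟩
    · exact ⟨1, Subgroup.one_mem _, _, of_mem_BP hi, by simp⟩
  | one => exact ⟨1, Subgroup.one_mem _, 1, Subgroup.one_mem _, by simp⟩
  | mul z z' _ _ ih ih' =>
    obtain ⟨x, hx, y, hy, rfl⟩ := ih
    obtain ⟨x', hx', y', hy', rfl⟩ := ih'
    refine ⟨x * x', Subgroup.mul_mem _ hx hx', y * y', Subgroup.mul_mem _ hy hy', ?_⟩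
    have := BP_comm h hx' hy
    calc x * y * (x' * y') = x * (y * x') * y' := by group
      _ = x * (x' * y) * y' := by rw [this]
      _ = x * x' * (y * y') := by group
  | inv z _ ih =>
    obtain ⟨x, hx, y, hy, rfl⟩ := ih
    refine ⟨x⁻¹, Subgroup.inv_mem _ hx, y⁻¹, Subgroup.inv_mem _ hy, ?_⟩
    rw [BP_comm h hx hy, mul_inv_rev]

theorem act_mul_apply (g h : BraidGroup M) (x : W →₀ R) :
    act cs q (g * h) x = act cs q g (act cs q h x) := by
  rw [map_mul, LinearEquiv.mul_apply]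

theorem act_inv_act (g : BraidGroup M) (x : W →₀ R) :
    act cs q g⁻¹ (act cs q g x) = x := by
  rw [← act_mul_apply, inv_mul_cancel, map_one]; rfl

/-- direct products -/
theorem QP_prod {P1 P2 : Set B} (h : ∀ a ∈ P1, ∀ b ∈ P2, M a b = 2) (h1 : QP cs q P1)
    (h2 : QP cs q P2) : QP cs q (P1 ∪ P2) := by
  intro I hI J hJ g hg c hc hcJ hcIJ
  have hdisj : ∀ a ∈ P1, a ∉ P2 := by
    intro a ha hb
    have := h a ha a hb
    rw [M.diagonal] at this
    omega
  obtain ⟨x, hx, y, hy, rfl⟩ := BP_union_comm h hg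
  -- the first component
  have k1 : Supp (WPP cs (I ∪ P2) J) (act cs q x c) := by
    have e : act cs q x c = act cs q y⁻¹ (act cs q (x * y) c) := by
      rw [BP_comm h hx hy, act_mul_apply, act_inv_act]
    rw [e]
    apply supp_act cs q _ (Subgroup.inv_mem _ hy)
      (hcIJ.mono (WPP_mono cs Set.subset_union_left (subset_refl _)))
    intro i hi w hw
    exact mul_mem_WPP cs (Or.inr hi) hw
  have k2 : Supp (WPP cs (I ∪ P1) J) (act cs q y c) := by
    have e : act cs q y c = act cs q x⁻¹ (act cs q (x * y) c) := by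
      rw [act_mul_apply, act_inv_act]
    rw [e]
    apply supp_act cs q _ (Subgroup.inv_mem _ hx)
      (hcIJ.mono (WPP_mono cs Set.subset_union_left (subset_refl _)))
    intro i hi w hw
    exact mul_mem_WPP cs (Or.inr hi) hw
  obtain ⟨a1, ha1, b1, hb1, e1⟩ := star cs q h1 hx hc hcJ k1
  obtain ⟨a2, ha2, b2, hb2, e2⟩ := star cs q h2 hy hc hcJ k2
  have ha1' : a1 ∈ BP M (I ∩ P1) := BP_mono (by
    rintro i ⟨hi | hi, hi'⟩
    · exact ⟨hi, hi'⟩
    · exact absurd hi (hdisj i hi')) ha1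
  have ha2' : a2 ∈ BP M (I ∩ P2) := BP_mono (by
    rintro i ⟨hi | hi, hi'⟩
    · exact ⟨hi, hi'⟩
    · exact absurd hi' (hdisj i hi)) ha2
  refine ⟨a1 * a2, Subgroup.mul_mem _ (BP_mono Set.inter_subset_left ha1')
    (BP_mono Set.inter_subset_left ha2'), b1 * b2, Subgroup.mul_mem _
    (BP_mono Set.inter_subset_left hb1) (BP_mono Set.inter_subset_left hb2), ?_⟩
  have hcomm := BP_comm h (BP_mono Set.inter_subset_right hb1)
    (BP_mono Set.inter_subset_right ha2')
  rw [e1, e2]
  calc a1 * b1 * (a2 * b2) = a1 * (b1 * a2) * b2 := by group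
    _ = a1 * (a2 * b1) * b2 := by rw [hcomm]
    _ = a1 * a2 * (b1 * b2) := by group

theorem BP_empty : BP M (∅ : Set B) = ⊥ := by unfold BP; simp

theorem QP_empty : QP cs q (∅ : Set B) := by
  intro I hI J hJ g hg c _ _ _
  rw [BP_empty, Subgroup.mem_bot] at hg
  exact ⟨1, Subgroup.one_mem _, 1, Subgroup.one_mem _, by rw [hg, one_mul]⟩

end Q

end Pool.Agent.HeckeCox
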