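import Mathlib
import Pool.Agent.Lib_helper18.Hecke.Q

set_option autoImplicit false

/-! The amalgam step for property `Q`. -/

namespace Pool.Agent.HeckeCox

open CoxeterSystem

section amal

variable {B W : Type*} [Group W] {M : CoxeterMatrix B} (cs : CoxeterSystem M W)
variable {R : Type*} [CommRing R] (q : R) (P : Bool → Set B)

/-- the amalgamated part -/
def P0 : Set B := P true ∩ P false

theorem P0_sub (ε : Bool) : P0 P ⊆ P ε := by
  cases ε
  · exact Set.inter_subset_right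
  · exact Set.inter_subset_left

theorem mem_P0 {ε : Bool} {i : B} (h : i ∈ P ε) (h' : i ∈ P (!ε)) : i ∈ P0 P := by
  cases ε
  · exact ⟨h', h⟩
  · exact ⟨h, h'⟩

/-- the label condition for the amalgam -/
def Free (M : CoxeterMatrix B) (P : Bool → Set B) : Prop :=
  ∀ ε, ∀ a ∈ P ε, a ∉ P (!ε) → ∀ b ∈ P (!ε), b ∉ P ε → M a b = 0

variable {P}

theorem isMin_mul (hF : Free M P) {ε : Bool} {p x : W} (hp : p ∈ WP cs (P ε)) (hp1 : p ≠ 1)
    (hpm : IsMin cs (P0 P) p) (hx : IsMin cs (P ε) x) : IsMin cs (P (!ε)) (p * x) := by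
  intro i hi
  by_cases hi' : i ∈ P ε
  · rw [D_mul_isMin' cs hp hx hi']
    exact hpm i (mem_P0 P hi' hi)
  · obtain ⟨r, hr, hD⟩ := exists_desc cs hp hp1
    have hr' : r ∉ P (!ε) := by
      intro h
      rw [hpm r (mem_P0 P hr h)] at hD
      simp at hD
    have hD' : D cs (p * x) (cs.simple r) = 1 := by rw [D_mul_isMin' cs hp hx hr]; exact hD
    by_contra hne
    have hDi : D cs (p * x) (cs.simple i) = 1 := (zmod2_cases _).resolve_left hne
    have hri : r ≠ i := by rintro rfl; exact hi' hr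
    exact no_two_desc cs hri hD' hDi (hF ε r hr hr' i hi hi')

/-- minimal representative of the coset `W_K w` -/
noncomputable def minRep (K : Set B) (w : W) : W := (exists_decomp cs K w).choose_spec.2.choose

theorem minRep_spec (K : Set B) (w : W) : IsMin cs K (minRep cs K w) ∧
    ∃ u ∈ WP cs K, w = u * minRep cs K w := by
  have h := (exists_decomp cs K w).choose_spec.2.choose_spec
  exact ⟨h.1, _, (exists_decomp cs K w).choose_spec.1, h.2⟩

theorem minRep_mul {K : Set B} {u x : W} (hu : u ∈ WP cs K) (hx : IsMin cs K x) :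
    minRep cs K (u * x) = x := by
  obtain ⟨h1, u', hu', h2⟩ := minRep_spec cs K (u * x)
  exact (decomp_unique cs hu hx hu' h1 h2).2.symm

theorem minRep_of_isMin {K : Set B} {x : W} (hx : IsMin cs K x) : minRep cs K x = x := by
  have := minRep_mul cs (Subgroup.one_mem (WP cs K)) hx
  rwa [one_mul] at this

theorem minRep_minRep {I K : Set B} (h : I ⊆ K) (w : W) :
    minRep cs K (minRep cs I w) = minRep cs K w := by
  obtain ⟨h1, u, hu, h2⟩ := minRep_spec cs I w
  obtain ⟨h3, v, hv, h4⟩ := minRep_spec cs K (minRep cs I w)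
  have h5 : w = (u * v) * minRep cs K (minRep cs I w) := by
    rw [mul_assoc, ← h4]; exact h2
  have := minRep_mul cs (Subgroup.mul_mem _ (WP_mono cs h hu) hv) h3
  rw [← h5] at this
  exact this.symm

theorem minRep_lt {I K : Set B} (h : I ⊆ K) {w : W} {i : B} (hi : i ∈ K)
    (hD : D cs (minRep cs I w) (cs.simple i) = 1) :
    cs.length (minRep cs K w) < cs.length w := by
  obtain ⟨h1, u, hu, h2⟩ := minRep_spec cs I w
  obtain ⟨h3, v, hv, h4⟩ := minRep_spec cs K (minRep cs I w)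
  rw [minRep_minRep cs h] at h3 h4
  have hv1 : v ≠ 1 := by
    rintro rfl
    rw [one_mul] at h4
    rw [h4, h3 i hi] at hD
    simp at hD
  have l1 := (length_le_of_isMin cs h3 hv).2 hv1
  rw [← h4] at l1
  have l2 := (length_le_of_isMin cs h1 hu).1
  rw [← h2] at l2
  omega

variable (P)

open Classical in
/-- Bass-Serre depth -/
noncomputable def dp (w : W) : ℕ :=
  if h : ∃ i ∈ P true, i ∉ P false ∧ D cs (minRep cs (P0 P) w) (cs.simple i) = 1 then
    have : cs.length (minRep cs (P true) w) < cs.length w := by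
      obtain ⟨i, hi, _, hD⟩ := h
      exact minRep_lt cs (P0_sub P true) hi hD
    dp (minRep cs (P true) w) + 1
  else if h' : ∃ i ∈ P false, i ∉ P true ∧ D cs (minRep cs (P0 P) w) (cs.simple i) = 1 then
    have : cs.length (minRep cs (P false) w) < cs.length w := by
      obtain ⟨i, hi, _, hD⟩ := h'
      exact minRep_lt cs (P0_sub P false) hi hD
    dp (minRep cs (P false) w) + 1
  else 0
termination_by cs.length w

open Classical in
theorem dp_eq (w : W) : dp cs P w =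
    if ∃ i ∈ P true, i ∉ P false ∧ D cs (minRep cs (P0 P) w) (cs.simple i) = 1 then
      dp cs P (minRep cs (P true) w) + 1
    else if ∃ i ∈ P false, i ∉ P true ∧ D cs (minRep cs (P0 P) w) (cs.simple i) = 1 then
      dp cs P (minRep cs (P false) w) + 1
    else 0 := by
  rw [dp]
  simp only [dite_eq_ite]

theorem dp_minRep (w : W) : dp cs P (minRep cs (P0 P) w) = dp cs P w := by
  have e : minRep cs (P0 P) (minRep cs (P0 P) w) = minRep cs (P0 P) w :=
    minRep_of_isMin cs (minRep_spec cs (P0 P) w).1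
  rw [dp_eq, dp_eq cs P w, minRep_minRep cs (P0_sub P true), minRep_minRep cs (P0_sub P false), e]

variable {P}

theorem dp_mul_mem {ε : Bool} {u x : W} (hu : u ∈ WP cs (P0 P)) (hx : IsMin cs (P ε) x) :
    dp cs P (u * x) = dp cs P x := by
  rw [← dp_minRep cs P (u * x), minRep_mul cs hu (isMin_mono cs (P0_sub P ε) hx)]

theorem dp_mul_not_mem (hF : Free M P) {ε : Bool} {u x : W} (hu : u ∈ WP cs (P ε))
    (hu0 : u ∉ WP cs (P0 P)) (hx : IsMin cs (P ε) x) :
    dp cs P (u * x) = dp cs P x + 1 := by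
  obtain ⟨a, ha, p, hp, rfl⟩ := exists_decomp cs (P0 P) u
  have haε : a ∈ WP cs (P ε) := WP_mono cs (P0_sub P ε) ha
  have hpε : p ∈ WP cs (P ε) := by
    have : p = a⁻¹ * (a * p) := by group
    rw [this]; exact Subgroup.mul_mem _ (Subgroup.inv_mem _ haε) hu
  have hp1 : p ≠ 1 := by
    rintro rfl
    exact hu0 (by rw [mul_one]; exact ha)
  have hpx : IsMin cs (P0 P) (p * x) := by
    intro i hi
    rw [D_mul_isMin' cs hpε hx (P0_sub P ε hi)]
    exact hp i hi
  have hpx' := isMin_mul cs hF hpε hp1 hp hx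
  obtain ⟨r, hr, hD⟩ := exists_desc cs hpε hp1
  have hr' : r ∉ P (!ε) := by
    intro h
    rw [hp r (mem_P0 P hr h)] at hD
    simp at hD
  have hDr : D cs (p * x) (cs.simple r) = 1 := by rw [D_mul_isMin' cs hpε hx hr]; exact hD
  have e0 : minRep cs (P0 P) (a * p * x) = p * x := by
    rw [mul_assoc]; exact minRep_mul cs ha hpx
  have e1 : minRep cs (P ε) (a * p * x) = x := minRep_mul cs hu hx
  rw [dp_eq, e0]
  cases ε
  · rw [if_neg, if_pos ⟨r, hr, hr', hDr⟩, e1]
    rintro ⟨i, hi, -, hDi⟩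
    rw [hpx' i hi] at hDi
    simp at hDi
  · rw [if_pos ⟨r, hr, hr', hDr⟩, e1]

theorem dp_bounds (hF : Free M P) {ε : Bool} {u x : W} (hu : u ∈ WP cs (P ε))
    (hx : IsMin cs (P ε) x) :
    dp cs P x ≤ dp cs P (u * x) ∧ dp cs P (u * x) ≤ dp cs P x + 1 := by
  by_cases h : u ∈ WP cs (P0 P)
  · rw [dp_mul_mem cs h hx]; omega
  · rw [dp_mul_not_mem cs hF hu h hx]; omega

/-- the leading-term state -/
def Good (P : Bool → Set B) (J : Set B) (ε : Bool) (x : W →₀ R) : Prop :=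
  ∃ z, x z ≠ 0 ∧ (∀ z', x z' ≠ 0 → dp cs P z' ≤ dp cs P z) ∧ z ∉ WPP cs (P0 P) J ∧
    ∃ u ∈ WP cs (P ε), u ∉ WP cs (P0 P) ∧ ∃ y, IsMin cs (P ε) y ∧ z = u * y

/-- the transition data extracted from a good state -/
theorem Good.data (hF : Free M P) {J : Set B} {ε : Bool} {x : W →₀ R}
    (h : Good cs P J ε x) : ∃ z x1, x z ≠ 0 ∧ (∀ z', x z' ≠ 0 → dp cs P z' ≤ dp cs P z) ∧
      IsMin cs (P (!ε)) x1 ∧ dp cs P x1 = dp cs P z ∧ x1 ∉ WP cs J ∧
      comp cs (P (!ε)) x1 x ≠ 0 ∧ Supp (WP cs (P0 P) : Set W) (comp cs (P (!ε)) x1 x) := by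
  obtain ⟨z, hz, hmax, hzJ, u, hu, hu0, y, hy, rfl⟩ := h
  obtain ⟨a, ha, p, hp, rfl⟩ := exists_decomp cs (P0 P) u
  have haε : a ∈ WP cs (P ε) := WP_mono cs (P0_sub P ε) ha
  have hpε : p ∈ WP cs (P ε) := by
    have : p = a⁻¹ * (a * p) := by group
    rw [this]; exact Subgroup.mul_mem _ (Subgroup.inv_mem _ haε) hu
  have hp1 : p ≠ 1 := by
    rintro rfl
    exact hu0 (by rw [mul_one]; exact ha)
  have hx1 := isMin_mul cs hF hpε hp1 hp hy
  have hd : dp cs P (p * y) = dp cs P (a * p * y) := by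
    rw [mul_assoc]; exact (dp_mul_mem cs ha hx1).symm
  refine ⟨a * p * y, p * y, hz, hmax, hx1, hd, ?_, ?_, ?_⟩
  · intro h
    exact hzJ ⟨a, ha, p * y, h, by rw [mul_assoc]⟩
  · intro h
    apply hz
    have := DFunLike.congr_fun h a
    rw [comp_apply_mem cs (WP_mono cs (P0_sub P (!ε)) ha)] at this
    rw [mul_assoc]; exact this
  · intro w hw
    have hwK := comp_supp cs _ _ _ w hw
    rw [comp_apply_mem cs hwK] at hw
    by_contra hw0
    have h1 := hmax _ hw
    rw [dp_mul_not_mem cs hF hwK hw0 hx1, hd] at h1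
    omega

theorem comp_ne_of_act {K : Set B} {y : W} (hy : IsMin cs K y) {g : BraidGroup M}
    (hg : g ∈ BP M K) {x : W →₀ R} {u : W} (hu : u ∈ WP cs K) (h : act cs q g x (u * y) ≠ 0) :
    ∃ u' ∈ WP cs K, x (u' * y) ≠ 0 := by
  have h1 : comp cs K y (act cs q g x) ≠ 0 := by
    intro h0
    apply h
    rw [← comp_apply_mem cs hu, h0]; rfl
  rw [comp_act cs q hy hg] at h1
  have h2 : comp cs K y x ≠ 0 := by
    intro h0; rw [h0, map_zero] at h1; exact h1 rfl
  obtain ⟨w, hw⟩ := exists_ne_zero h2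
  have hwK := comp_supp cs _ _ _ w hw
  rw [comp_apply_mem cs hwK] at hw
  exact ⟨w, hwK, hw⟩

theorem step_bound (hF : Free M P) {ε : Bool} {g : BraidGroup M} (hg : g ∈ BP M (P ε))
    {x : W →₀ R} {N : ℕ} (hmax : ∀ z', x z' ≠ 0 → dp cs P z' ≤ N) :
    ∀ z', act cs q g x z' ≠ 0 → dp cs P z' ≤ N + 1 := by
  intro z' hz'
  obtain ⟨u', hu', y', hy', rfl⟩ := exists_decomp cs (P ε) z'
  obtain ⟨u'', hu'', hne⟩ := comp_ne_of_act cs q hy' hg hu' hz'
  have h1 := hmax _ hne
  have h2 := (dp_bounds cs hF hu'' hy').1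
  have h3 := (dp_bounds cs hF hu' hy').2
  omega

theorem Good.step (hF : Free M P) {J : Set B} {ε : Bool} {x : W →₀ R}
    (hQ : QP cs q (P (!ε))) (h : Good cs P J ε x) {g : BraidGroup M} (hg : g ∈ BP M (P (!ε)))
    (hg0 : g ∉ BP M (P0 P)) : Good cs P J (!ε) (act cs q g x) := by
  obtain ⟨z, x1, hz, hmax, hx1, hd, hx1J, hne, hsupp⟩ := h.data cs hF
  have h1 : ¬ Supp (WPP cs (P0 P) (P0 P)) (act cs q g (comp cs (P (!ε)) x1 x)) := by
    intro hs
    obtain ⟨a, ha, b, hb, rfl⟩ := hQ _ (P0_sub P _) _ (P0_sub P _) g hg _ hne hsupp hs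
    exact hg0 (Subgroup.mul_mem _ ha hb)
  unfold Supp at h1
  push Not at h1
  obtain ⟨w, hw, hw0⟩ := h1
  rw [← comp_act cs q hx1 hg] at hw
  have hwK := comp_supp cs _ _ _ w hw
  rw [comp_apply_mem cs hwK] at hw
  have hw0' : w ∉ WP cs (P0 P) := fun h => hw0 ⟨w, h, 1, Subgroup.one_mem _, by rw [mul_one]⟩
  refine ⟨w * x1, hw, ?_, ?_, w, hwK, hw0', x1, hx1, rfl⟩
  · rw [dp_mul_not_mem cs hF hwK hw0' hx1, hd]
    exact step_bound cs q hF hg hmax
  · rintro ⟨a, ha, b, hb, he⟩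
    apply hx1J
    have h2 : (a⁻¹ * w) * x1 ∈ WP cs J := by
      rw [mul_assoc, he]; simpa using hb
    exact (mem_of_decomp cs (Subgroup.mul_mem _ (Subgroup.inv_mem _
      (WP_mono cs (P0_sub P _) ha)) hwK) hx1 h2).2

theorem Good.init (hF : Free M P) {J : Set B} {ε : Bool} (hQ : QP cs q (P ε)) {c : W →₀ R}
    (hc : c ≠ 0) (hJ : Supp (WP cs J : Set W) c) {g : BraidGroup M} (hg : g ∈ BP M (P ε))
    (hg0 : ¬ ∃ a ∈ BP M (P0 P), ∃ b ∈ BP M (J ∩ P ε), g = a * b) :
    Good cs P J ε (act cs q g c) := by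
  obtain ⟨w, hwmem, hwmax⟩ := Finset.exists_max_image c.support
    (fun w => dp cs P (minRep cs (P ε) w)) (by
      obtain ⟨w, hw⟩ := exists_ne_zero hc
      exact ⟨w, Finsupp.mem_support_iff.mpr hw⟩)
  rw [Finsupp.mem_support_iff] at hwmem
  obtain ⟨u, hu, x, hxJ, hx, rfl, hne, hsupp⟩ := comp_data cs (K := P ε) hJ hwmem
  have huε : u ∈ WP cs (P ε) := WP_mono cs Set.inter_subset_right hu
  rw [minRep_mul cs huε hx] at hwmax
  have h1 : ¬ Supp (WPP cs (P0 P) (J ∩ P ε)) (act cs q g (comp cs (P ε) x c)) := by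
    intro hs
    exact hg0 (hQ _ (P0_sub P _) _ Set.inter_subset_right g hg _ hne hsupp hs)
  unfold Supp at h1
  push Not at h1
  obtain ⟨w, hw, hw0⟩ := h1
  rw [← comp_act cs q hx hg] at hw
  have hwK := comp_supp cs _ _ _ w hw
  rw [comp_apply_mem cs hwK] at hw
  have hw0' : w ∉ WP cs (P0 P) := fun h => hw0 ⟨w, h, 1, Subgroup.one_mem _, by rw [mul_one]⟩
  refine ⟨w * x, hw, ?_, ?_, w, hwK, hw0', x, hx, rfl⟩
  · rw [dp_mul_not_mem cs hF hwK hw0' hx]
    intro z' hz'
    obtain ⟨u', hu', y', hy', rfl⟩ := exists_decomp cs (P ε) z'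
    obtain ⟨u'', hu'', hne'⟩ := comp_ne_of_act cs q hy' hg hu' hz'
    have h2 := hwmax _ (Finsupp.mem_support_iff.mpr hne')
    rw [minRep_mul cs hu'' hy'] at h2
    have h3 := (dp_bounds cs hF hu' hy').2
    omega
  · rintro ⟨a, ha, b, hb, he⟩
    apply hw0
    have haε := WP_mono cs (P0_sub P ε) ha
    have h2 : (a⁻¹ * w) * x ∈ WP cs J := by
      rw [mul_assoc, he]; simpa using hb
    have h3 := (mem_of_decomp cs (Subgroup.mul_mem _ (Subgroup.inv_mem _ haε) hwK) hx h2).1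
    exact ⟨a, ha, a⁻¹ * w, h3, by group⟩

theorem Good.final (hF : Free M P) {I J : Set B} (hI : I ⊆ P true ∪ P false) {ε : Bool}
    {x : W →₀ R} (hQ : QP cs q (P (!ε))) (h : Good cs P J ε x) {g : BraidGroup M}
    (hg : g ∈ BP M (P (!ε)))
    (hg0 : ¬ ∃ a ∈ BP M (I ∩ P (!ε)), ∃ b ∈ BP M (P0 P), g = a * b) :
    ¬ Supp (WPP cs I J) (act cs q g x) := by
  intro hs
  obtain ⟨z, x1, hz, hmax, hx1, hd, hx1J, hne, hsupp⟩ := h.data cs hF
  have h1 : ¬ Supp (WPP cs (I ∩ P (!ε)) (P0 P)) (act cs q g (comp cs (P (!ε)) x1 x)) := by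
    intro hs
    exact hg0 (hQ _ Set.inter_subset_right _ (P0_sub P _) g hg _ hne hsupp hs)
  unfold Supp at h1
  push Not at h1
  obtain ⟨w, hw, hw0⟩ := h1
  rw [← comp_act cs q hx1 hg] at hw
  have hwK := comp_supp cs _ _ _ w hw
  rw [comp_apply_mem cs hwK] at hw
  obtain ⟨c, hc, a, ha, b, hb, he, hamin, haD⟩ :=
    optimal cs (A := I ∩ P (!ε)) Set.inter_subset_left (hs _ hw)
  have hamin' : IsMin cs (P (!ε)) a := isMin_of_mem cs ha hamin
  have hcK : c ∈ WP cs (P (!ε)) := WP_mono cs Set.inter_subset_right hc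
  have hcw : c * w ∈ WP cs (P (!ε)) := Subgroup.mul_mem _ hcK hwK
  have he' : (c * w) * x1 = a * b := by rw [mul_assoc]; exact he
  by_cases ha1 : a = 1
  · rw [ha1, one_mul] at he'
    exact hx1J (mem_of_decomp cs hcw hx1 (by rw [he']; exact hb)).2
  · obtain ⟨r, hrI, hDr⟩ := exists_desc cs ha ha1
    have hr' : r ∉ P (!ε) := by
      intro hr
      rw [hamin' r hr] at hDr
      simp at hDr
    have hrε : r ∈ P ε := by
      rcases hI hrI with hrr | hrr
      · cases ε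
        · exact absurd hrr hr'
        · exact hrr
      · cases ε
        · exact hrr
        · exact absurd hrr hr'
    have hDr' := haD _ (cs.isReflection_simple r) hDr
    rw [← he'] at hDr'
    obtain ⟨a', ha', p, hp, hcwp⟩ := exists_decomp cs (P0 P) (c * w)
    have hpK : p ∈ WP cs (P (!ε)) := by
      have : p = a'⁻¹ * (c * w) := by rw [hcwp]; group
      rw [this]
      exact Subgroup.mul_mem _ (Subgroup.inv_mem _ (WP_mono cs (P0_sub P _) ha')) hcw
    have hp1 : p ≠ 1 := by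
      rintro rfl
      apply hw0
      refine ⟨c⁻¹, Subgroup.inv_mem _ hc, a', ha', ?_⟩
      rw [mul_one] at hcwp
      rw [← hcwp]; group
    have hpx := isMin_mul cs hF hpK hp1 hp hx1
    rw [Bool.not_not] at hpx
    rw [hcwp, mul_assoc, D_mul_isMin' cs (WP_mono cs (P0_sub P ε) ha') hpx hrε] at hDr'
    have h0 : r ∈ P0 P := desc_mem cs ha' (by rw [hDr']; exact one_ne_zero)
    exact hr' (P0_sub P _ h0)

/-- reduced elements relative to `J` -/
inductive Tr (M : CoxeterMatrix B) (P : Bool → Set B) (J : Set B) : Bool → BraidGroup M → Prop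
  | base (ε : Bool) (g b : BraidGroup M) (hg : g ∈ BP M (P ε))
      (hg0 : ¬ ∃ a ∈ BP M (P0 P), ∃ b' ∈ BP M (J ∩ P ε), g = a * b') (hb : b ∈ BP M J) :
      Tr M P J ε (g * b)
  | step (ε : Bool) (g h : BraidGroup M) (hg : g ∈ BP M (P ε)) (hg0 : g ∉ BP M (P0 P))
      (hh : Tr M P J (!ε) h) : Tr M P J ε (g * h)

theorem Tr.mul_left {J : Set B} {ε : Bool} {g : BraidGroup M} (h : Tr M P J ε g)
    {u : BraidGroup M} (hu : u ∈ BP M (P0 P)) : Tr M P J ε (u * g) := by
  cases h with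
  | base _ g b hg hg0 hb =>
    rw [← mul_assoc]
    apply Tr.base ε (u * g) b (Subgroup.mul_mem _ (BP_mono (P0_sub P ε) hu) hg) _ hb
    rintro ⟨a, ha, b', hb', he⟩
    exact hg0 ⟨u⁻¹ * a, Subgroup.mul_mem _ (Subgroup.inv_mem _ hu) ha, b', hb', by
      rw [mul_assoc, ← he]; group⟩
  | step _ g h hg hg0 hh =>
    rw [← mul_assoc]
    apply Tr.step ε (u * g) h (Subgroup.mul_mem _ (BP_mono (P0_sub P ε) hu) hg) _ hh
    intro h'
    exact hg0 (by
      have := Subgroup.mul_mem _ (Subgroup.inv_mem _ hu) h'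
      simpa using this)

/-- trivial or reduced -/
def Dec (M : CoxeterMatrix B) (P : Bool → Set B) (J : Set B) (g : BraidGroup M) : Prop :=
  (∃ u ∈ BP M (P0 P), ∃ b ∈ BP M J, g = u * b) ∨ ∃ ε, Tr M P J ε g

theorem Dec.of_mem {J : Set B} {ε : Bool} {g b : BraidGroup M} (hg : g ∈ BP M (P ε))
    (hb : b ∈ BP M J) : Dec M P J (g * b) := by
  by_cases h : ∃ a ∈ BP M (P0 P), ∃ b' ∈ BP M (J ∩ P ε), g = a * b'
  · obtain ⟨a, ha, b', hb', rfl⟩ := h
    exact Or.inl ⟨a, ha, b' * b, Subgroup.mul_mem _ (BP_mono Set.inter_subset_left hb') hb,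
      by rw [mul_assoc]⟩
  · exact Or.inr ⟨ε, Tr.base ε g b hg h hb⟩

theorem Dec.mul {J : Set B} {ε : Bool} {a g : BraidGroup M} (ha : a ∈ BP M (P ε))
    (h : Dec M P J g) : Dec M P J (a * g) := by
  rcases h with ⟨u, hu, b, hb, rfl⟩ | ⟨δ, h⟩
  · rw [← mul_assoc]
    exact Dec.of_mem (Subgroup.mul_mem _ ha (BP_mono (P0_sub P ε) hu)) hb
  · by_cases hδ : δ = ε
    · subst hδ
      cases h with
      | base _ g b hg hg0 hb =>
        rw [← mul_assoc]
        exact Dec.of_mem (Subgroup.mul_mem _ ha hg) hb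
      | step _ g h hg hg0 hh =>
        rw [← mul_assoc]
        by_cases h0 : a * g ∈ BP M (P0 P)
        · exact Or.inr ⟨_, hh.mul_left h0⟩
        · exact Or.inr ⟨_, Tr.step _ _ _ (Subgroup.mul_mem _ ha hg) h0 hh⟩
    · have : δ = !ε := by cases δ <;> cases ε <;> simp_all
      subst this
      by_cases h0 : a ∈ BP M (P0 P)
      · exact Or.inr ⟨_, h.mul_left h0⟩
      · exact Or.inr ⟨_, Tr.step _ _ _ ha h0 h⟩

theorem dec_all {J : Set B} {g : BraidGroup M} (hg : g ∈ BP M (P true ∪ P false)) :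
    Dec M P J g := by
  have key : ∀ i ∈ P true ∪ P false, ∃ ε, i ∈ P ε := by
    rintro i (hi | hi)
    · exact ⟨true, hi⟩
    · exact ⟨false, hi⟩
  unfold BP at hg
  induction hg using Subgroup.closure_induction_left with
  | one => exact Or.inl ⟨1, Subgroup.one_mem _, 1, Subgroup.one_mem _, by simp⟩
  | mul_left y hy z hz ih =>
    obtain ⟨i, hi, rfl⟩ := hy
    obtain ⟨ε, hε⟩ := key i hi
    exact ih.mul (of_mem_BP hε)
  | inv_mul_cancel y hy z hz ih =>
    obtain ⟨i, hi, rfl⟩ := hy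
    obtain ⟨ε, hε⟩ := key i hi
    exact ih.mul (Subgroup.inv_mem _ (of_mem_BP hε))

theorem act_ne_zero {g : BraidGroup M} {c : W →₀ R} (hc : c ≠ 0) : act cs q g c ≠ 0 := by
  intro h
  exact hc ((LinearEquiv.map_eq_zero_iff _).mp h)

theorem Tr.good (hF : Free M P) (hQ : ∀ ε, QP cs q (P ε)) {J : Set B} {c : W →₀ R}
    (hc : c ≠ 0) (hJ : Supp (WP cs J : Set W) c) {ε : Bool} {g : BraidGroup M}
    (h : Tr M P J ε g) : Good cs P J ε (act cs q g c) := by
  induction h with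
  | base ε g b hg hg0 hb =>
    rw [act_mul_apply]
    exact Good.init cs q hF (hQ ε) (act_ne_zero cs q hc) (supp_act_WP cs q hb hJ) hg hg0
  | step ε g h hg hg0 hh ih =>
    rw [act_mul_apply]
    have := Good.step cs q hF (hQ _) ih (g := g) (by rw [Bool.not_not]; exact hg) hg0
    rwa [Bool.not_not] at this

/-- The amalgam step. -/
theorem QP_amalgam (hF : Free M P) (hQ : ∀ ε, QP cs q (P ε)) : QP cs q (P true ∪ P false) := by
  intro I hI J hJ g hg c hc hcJ hcIJ
  have base : ∀ ε, ∀ g' ∈ BP M (P ε), ∀ b ∈ BP M J, Supp (WPP cs I J) (act cs q (g' * b) c) →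
      ∃ a ∈ BP M I, ∃ b' ∈ BP M J, g' * b = a * b' := by
    intro ε g' hg' b hb hs
    rw [act_mul_apply] at hs
    obtain ⟨a, ha, b', hb', rfl⟩ := star cs q (hQ ε) hg' (act_ne_zero cs q hc)
      (supp_act_WP cs q hb hcJ) hs
    exact ⟨a, BP_mono Set.inter_subset_left ha, b' * b,
      Subgroup.mul_mem _ (BP_mono Set.inter_subset_left hb') hb, by rw [mul_assoc]⟩
  have main : ∀ ε g, Tr M P J ε g → ∀ u ∈ BP M (P0 P), Supp (WPP cs I J) (act cs q (u * g) c) →
      ∃ a ∈ BP M I, ∃ b' ∈ BP M J, u * g = a * b' := by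
    intro ε g h
    induction h with
    | base ε g b hg hg0 hb =>
      intro u hu hs
      rw [← mul_assoc] at hs ⊢
      exact base ε (u * g) (Subgroup.mul_mem _ (BP_mono (P0_sub P ε) hu) hg) b hb hs
    | step ε g h hg hg0 hh ih =>
      intro u hu hs
      rw [← mul_assoc] at hs ⊢
      have hug : u * g ∈ BP M (P ε) := Subgroup.mul_mem _ (BP_mono (P0_sub P ε) hu) hg
      by_cases hex : ∃ a ∈ BP M (I ∩ P ε), ∃ b ∈ BP M (P0 P), u * g = a * b
      · obtain ⟨a, ha, b, hb, he⟩ := hex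
        have haI : a ∈ BP M I := BP_mono Set.inter_subset_left ha
        rw [he, mul_assoc] at hs ⊢
        rw [act_mul_apply] at hs
        have hs' := supp_act_WPP cs q (Subgroup.inv_mem _ haI) hs
        rw [act_inv_act] at hs'
        obtain ⟨a', ha', b', hb', he'⟩ := ih b hb hs'
        exact ⟨a * a', Subgroup.mul_mem _ haI ha', b', hb', by rw [he', mul_assoc]⟩
      · exfalso
        rw [act_mul_apply] at hs
        have hgood := hh.good cs q hF hQ hc hcJ
        exact Good.final cs q hF hI (hQ _) hgood (g := u * g)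
          (by rw [Bool.not_not]; exact hug) (by rw [Bool.not_not]; exact hex) hs
  rcases dec_all (J := J) hg with ⟨u, hu, b, hb, rfl⟩ | ⟨ε, h⟩
  · exact base true u (BP_mono (P0_sub P true) hu) b hb hcIJ
  · have := main ε g h 1 (Subgroup.one_mem _) (by rw [one_mul]; exact hcIJ)
    rwa [one_mul] at this

end amal

end Pool.Agent.HeckeCox
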