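import Mathlib
import Pool.Agent.Lib_helper18.Hecke.Q

set_option autoImplicit false

/-! Positivity at real specialisations. -/

namespace Pool.Agent.HeckeCox

open CoxeterSystem

section basechange

variable {B W : Type*} [Group W] {M : CoxeterMatrix B} (cs : CoxeterSystem M W)
variable {R S : Type*} [CommRing R] [CommRing S] (q : R) (φ : R →+* S)

/-- change of coefficients -/
noncomputable def bc (x : W →₀ R) : W →₀ S := Finsupp.mapRange φ (map_zero φ) x

omit [Group W] in
@[simp] theorem bc_apply (x : W →₀ R) (w : W) : bc φ x w = φ (x w) := by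
  simp [bc]

theorem bc_Lop (i : B) (x : W →₀ R) : bc φ (Lop cs q i x) = Lop cs (φ q) i (bc φ x) := by
  ext w
  simp only [bc_apply, Lop_apply]
  rw [φ.map_add, φ.map_mul]
  split_ifs <;> simp

theorem bc_act {K : Set B} {g : BraidGroup M} (hg : g ∈ BP M K) (x : W →₀ R) :
    bc φ (act cs q g x) = act cs (φ q) g (bc φ x) := by
  unfold BP at hg
  induction hg using Subgroup.closure_induction_left with
  | one => simp
  | mul_left y hy z hz ih =>
    obtain ⟨i, hi, rfl⟩ := hy
    rw [act_mul_apply, act_mul_apply, ← ih, act_of, act_of]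
    exact bc_Lop cs q φ i _
  | inv_mul_cancel y hy z hz ih =>
    obtain ⟨i, hi, rfl⟩ := hy
    rw [act_mul_apply, act_mul_apply, ← ih, map_inv, map_inv, act_of, act_of, Leq_symm_apply,
      Leq_symm_apply]
    ext w
    rw [bc_apply, Finsupp.sub_apply, Finsupp.sub_apply, Finsupp.smul_apply, Finsupp.smul_apply,
      map_sub, ← bc_Lop, bc_apply, bc_apply, smul_eq_mul, smul_eq_mul, map_mul]

end basechange

section pos

variable {B W : Type*} [Group W] {M : CoxeterMatrix B} (cs : CoxeterSystem M W)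
variable (q : ℝ)

/-- nonnegative coefficients -/
def Nn (x : W →₀ ℝ) : Prop := ∀ w, 0 ≤ x w

theorem Nn_Lop (hq : 0 ≤ q) (i : B) {x : W →₀ ℝ} (hx : Nn x) : Nn (Lop cs q i x) := by
  intro w
  rw [Lop_apply]
  have h1 := hx (cs.simple i * w)
  have h2 := hx w
  split_ifs
  · positivity
  · simpa using h1

theorem Lop_ge (hq : 0 ≤ q) (i : B) {x : W →₀ ℝ} (hx : Nn x) (w : W) :
    x w ≤ Lop cs q i x (cs.simple i * w) := by
  rw [Lop_apply]
  have h2 := hx (cs.simple i * w)
  have e : cs.simple i * (cs.simple i * w) = w := by simp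
  rw [e]
  split_ifs
  · have : 0 ≤ q * x (cs.simple i * w) := by positivity
    linarith
  · simp

theorem Lop_pos (hq : 0 < q) (i : B) {x : W →₀ ℝ} (hx : Nn x) {w : W}
    (hD : D cs w (cs.simple i) = 1) (hw : 0 < x w) : 0 < Lop cs q i x w := by
  rw [Lop_apply, if_pos hD]
  have h1 := hx (cs.simple i * w)
  have : 0 < q * x w := by positivity
  linarith

theorem Linv_apply (i : B) (x : W →₀ ℝ) (w : W) : (Leq cs q i)⁻¹ x w =
    x (cs.simple i * w) + (if D cs w (cs.simple i) = 1 then 0 else -q) * x w := by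
  rw [Leq_symm_apply, Finsupp.sub_apply, Finsupp.smul_apply, Lop_apply, smul_eq_mul]
  split_ifs <;> ring

theorem Nn_Linv (hq : q ≤ 0) (i : B) {x : W →₀ ℝ} (hx : Nn x) : Nn ((Leq cs q i)⁻¹ x) := by
  intro w
  rw [Linv_apply]
  have h1 := hx (cs.simple i * w)
  have h2 := hx w
  have h3 : 0 ≤ -q := by linarith
  split_ifs
  · simpa using h1
  · positivity

theorem Linv_ge (hq : q ≤ 0) (i : B) {x : W →₀ ℝ} (hx : Nn x) (w : W) :
    x w ≤ (Leq cs q i)⁻¹ x (cs.simple i * w) := by
  rw [Linv_apply]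
  have h2 := hx (cs.simple i * w)
  have h3 : 0 ≤ -q := by linarith
  have e : cs.simple i * (cs.simple i * w) = w := by simp
  rw [e]
  split_ifs
  · simp
  · have : 0 ≤ -q * x (cs.simple i * w) := by positivity
    linarith

theorem Linv_one_pos (hq : q < 0) (i : B) {x : W →₀ ℝ} (hx : Nn x) (h : 0 < x 1) :
    0 < (Leq cs q i)⁻¹ x 1 := by
  rw [Linv_apply, D_one, if_neg (by decide)]
  have h1 := hx (cs.simple i * 1)
  have h3 : 0 < -q := by linarith
  have : 0 < -q * x 1 := by positivity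
  linarith

variable (i j : B)

theorem Nn_alt (hq : 0 ≤ q) {x : W →₀ ℝ} (hx : Nn x) (c : Bool) (l : ℕ) :
    Nn (alt (Lx cs q i j) c l x) := by
  induction l generalizing c with
  | zero => exact hx
  | succ l ih => exact Nn_Lop cs q hq _ (ih (!c))

theorem alt_ge (hq : 0 ≤ q) {x : W →₀ ℝ} (hx : Nn x) (c : Bool) (l : ℕ) :
    x 1 ≤ alt (Lx cs q i j) c l x (alt (sx cs i j) c l) := by
  induction l generalizing c with
  | zero => exact le_rfl
  | succ l ih =>
    exact (ih (!c)).trans (Lop_ge cs q hq _ (Nn_alt cs q i j hq hx (!c) l) _)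

theorem alt_pos (hq : 0 < q) {x : W →₀ ℝ} (hx : Nn x) {w : W}
    (hD : ∀ b, D cs w (sx cs i j b) = 1) (hw : 0 < x w) (c : Bool) (l : ℕ) :
    0 < alt (Lx cs q i j) c l x w := by
  induction l generalizing c with
  | zero => exact hw
  | succ l ih => exact Lop_pos cs q hq _ (Nn_alt cs q i j hq.le hx (!c) l) (hD c) (ih (!c))

theorem alt_succ_inv_apply (x : W →₀ ℝ) (c : Bool) (l : ℕ) :
    (alt (Lx cs q i j) c (l + 1))⁻¹ x =
      (Leq cs q (pr i j (tw c l)))⁻¹ ((alt (Lx cs q i j) c l)⁻¹ x) := by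
  rw [alt_succ', mul_inv_rev]; rfl

theorem Nn_altinv (hq : q ≤ 0) {x : W →₀ ℝ} (hx : Nn x) (c : Bool) (l : ℕ) :
    Nn ((alt (Lx cs q i j) c l)⁻¹ x) := by
  induction l with
  | zero => simpa using hx
  | succ l ih =>
    rw [alt_succ_inv_apply]
    exact Nn_Linv cs q hq _ ih

theorem altinv_ge (hq : q ≤ 0) {x : W →₀ ℝ} (hx : Nn x) (c : Bool) (l : ℕ) :
    x 1 ≤ (alt (Lx cs q i j) c l)⁻¹ x (alt (sx cs i j) c l)⁻¹ := by
  induction l with
  | zero => simp
  | succ l ih =>
    rw [alt_succ_inv_apply, alt_succ', mul_inv_rev]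
    have e : (sx cs i j (tw c l))⁻¹ = cs.simple (pr i j (tw c l)) := cs.inv_simple _
    rw [e]
    exact ih.trans (Linv_ge cs q hq _ (Nn_altinv cs q i j hq hx c l) _)

theorem altinv_one_pos (hq : q < 0) {x : W →₀ ℝ} (hx : Nn x) (h : 0 < x 1) (c : Bool) (l : ℕ) :
    0 < (alt (Lx cs q i j) c l)⁻¹ x 1 := by
  induction l with
  | zero => simpa using h
  | succ l ih =>
    rw [alt_succ_inv_apply]
    exact Linv_one_pos cs q hq _ (Nn_altinv cs q i j hq.le hx c l) ih

variable {i j}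

theorem D_w0 (hij : i ≠ j) (hM : 1 ≤ M i j) (b : Bool) :
    D cs (alt (sx cs i j) true (M i j)) (sx cs i j b) = 1 := by
  cases b
  · rw [alt_sx_braid]
    exact D_alt_self cs hij false hM (Or.inr le_rfl)
  · exact D_alt_self cs hij true hM (Or.inr le_rfl)

theorem w0_inv : (alt (sx cs i j) true (M i j))⁻¹ = alt (sx cs i j) true (M i j) := by
  have h := alt_mul_alt (sx cs i j) (sx_mul_self cs i j) true (M i j)
  have h2 : alt (sx cs i j) (tw (!true) (M i j)) (M i j) = alt (sx cs i j) true (M i j) := by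
    cases tw (!true) (M i j)
    · exact (alt_sx_braid cs i j true).symm
    · rfl
  rw [h2] at h
  exact (eq_inv_of_mul_eq_one_left h).symm

/-- braid generators of a pair -/
def bx (M : CoxeterMatrix B) (i j : B) : Bool → BraidGroup M :=
  fun b => PresentedGroup.of (pr i j b)

theorem act_alt {R : Type*} [CommRing R] (q : R) (c : Bool) (l : ℕ) :
    act cs q (alt (bx M i j) c l) = alt (Lx cs q i j) c l := by
  rw [map_alt]
  congr 1

theorem delta_pos (hij : i ≠ j) (hM : 1 ≤ M i j) (hq : 0 < q) {x : W →₀ ℝ} (hx : Nn x)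
    (h1 : 0 < x 1) (N : ℕ) : Nn (act cs q (alt (bx M i j) true (M i j) ^ (N + 1)) x) ∧
    0 < act cs q (alt (bx M i j) true (M i j) ^ (N + 1)) x (alt (sx cs i j) true (M i j)) := by
  induction N with
  | zero =>
    rw [zero_add, pow_one, act_alt]
    exact ⟨Nn_alt cs q i j hq.le hx _ _, h1.trans_le (alt_ge cs q i j hq.le hx _ _)⟩
  | succ N ih =>
    rw [pow_succ', act_mul_apply, act_alt]
    exact ⟨Nn_alt cs q i j hq.le ih.1 _ _,
      alt_pos cs q i j hq ih.1 (D_w0 cs hij hM) ih.2 _ _⟩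

theorem delta_neg (hq : q < 0) {x : W →₀ ℝ} (hx : Nn x)
    (h1 : 0 < x 1) (N : ℕ) : (Nn (act cs q ((alt (bx M i j) true (M i j))⁻¹ ^ N) x) ∧
    0 < act cs q ((alt (bx M i j) true (M i j))⁻¹ ^ N) x 1) ∧
    0 < act cs q ((alt (bx M i j) true (M i j))⁻¹ ^ (N + 1)) x (alt (sx cs i j) true (M i j)) := by
  have key : ∀ N, (Nn (act cs q ((alt (bx M i j) true (M i j))⁻¹ ^ N) x) ∧
      0 < act cs q ((alt (bx M i j) true (M i j))⁻¹ ^ N) x 1) := by
    intro N
    induction N with
    | zero => simpa using ⟨hx, h1⟩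
    | succ N ih =>
      rw [pow_succ', act_mul_apply, map_inv, act_alt]
      exact ⟨Nn_altinv cs q i j hq.le ih.1 _ _, altinv_one_pos cs q i j hq ih.1 ih.2 _ _⟩
  refine ⟨key N, ?_⟩
  rw [pow_succ', act_mul_apply, map_inv, act_alt]
  have h := altinv_ge cs q i j hq.le (key N).1 true (M i j)
  rw [w0_inv] at h
  exact (key N).2.trans_le h

end pos

end Pool.Agent.HeckeCox
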