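import Mathlib
import Pool.Agent.Lib_helper18.Hecke.Dih

set_option autoImplicit false

/-! Normal form in a group with two generators satisfying a braid relation of length `m ≥ 3`,
and the ping-pong argument for the Hecke triangle representation. -/

namespace Pool.Agent.HeckeCox

theorem tw_tw (b : Bool) (n : ℕ) : tw (tw b n) n = b := by
  rw [← tw_add, ← two_mul, tw_two_mul]

section nf

variable {G : Type*} [Group G] (x : Bool → G) (m : ℕ)

/-- reduced words -/
inductive PW : Bool → G → Prop
  | last (a : Bool) (l : ℕ) (h : l + 3 ≤ m) (ht : tw a l = true) : PW a (alt x a (l + 1))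
  | cons (a : Bool) (l : ℕ) (p : G) (h : l + 2 ≤ m) (hp : PW (tw a l) p) :
      PW a (alt x a (l + 1) * p)

/-- normal forms -/
def NF (g : G) : Prop :=
  ∃ (k n : ℤ) (p : G), (p = 1 ∨ ∃ a, PW x m a p) ∧ g = alt x true m ^ k * p * x false ^ n

variable {x m}

theorem delta_eq (hb : alt x true m = alt x false m) (c : Bool) : alt x c m = alt x true m := by
  cases c
  · exact hb.symm
  · rfl

theorem delta_mul (hb : alt x true m = alt x false m) (b : Bool) :
    alt x true m * x b = x (tw b m) * alt x true m := by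
  have h1 := alt_succ' x (tw b m) m
  rw [tw_tw, delta_eq hb] at h1
  have h2 := alt_succ x (tw b m) m
  rw [delta_eq hb] at h2
  rw [← h1, ← h2]

theorem exists_conj (hb : alt x true m = alt x false m) (k : ℤ) (b : Bool) :
    ∃ b', x b * alt x true m ^ k = alt x true m ^ k * x b' := by
  have h1 : ∀ b, x b * alt x true m = alt x true m * x (tw b m) := by
    intro b
    have := delta_mul hb (tw b m)
    rw [tw_tw] at this
    exact this.symm
  have h2 : ∀ b, x b * (alt x true m)⁻¹ = (alt x true m)⁻¹ * x (tw b m) := by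
    intro b
    have := delta_mul hb b
    rw [eq_inv_mul_iff_mul_eq, ← mul_assoc, this]; group
  induction k using Int.induction_on generalizing b with
  | zero => exact ⟨b, by simp⟩
  | succ k ih =>
    obtain ⟨b', hb'⟩ := ih b
    refine ⟨tw b' m, ?_⟩
    rw [zpow_add_one, ← mul_assoc, hb', mul_assoc, h1, mul_assoc]
  | pred k ih =>
    obtain ⟨b', hb'⟩ := ih b
    refine ⟨tw b' m, ?_⟩
    rw [zpow_sub_one, ← mul_assoc, hb', mul_assoc, h2, mul_assoc]

theorem NF.delta_mul {g : G} (h : NF x m g) (k : ℤ) : NF x m (alt x true m ^ k * g) := by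
  obtain ⟨k', n, p, hp, rfl⟩ := h
  exact ⟨k + k', n, p, hp, by rw [zpow_add]; simp only [mul_assoc]⟩

theorem NF.mul_zpow {g : G} (h : NF x m g) (n : ℤ) : NF x m (g * x false ^ n) := by
  obtain ⟨k, n', p, hp, rfl⟩ := h
  exact ⟨k, n' + n, p, hp, by rw [zpow_add]; simp only [mul_assoc]⟩

theorem NF.of_PW {a : Bool} {p : G} (h : PW x m a p) : NF x m p :=
  ⟨0, 0, p, Or.inr ⟨a, h⟩, by simp⟩

theorem NF.one : NF x m (1 : G) := ⟨0, 0, 1, Or.inl rfl, by simp⟩

theorem NF.zpow (n : ℤ) : NF x m (x false ^ n) := ⟨0, n, 1, Or.inl rfl, by simp⟩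

theorem not_of_ne {a b : Bool} (h : b ≠ a) : b = !a := by
  cases a <;> cases b <;> simp_all

theorem NF.mul_left (hb : alt x true m = alt x false m) (hm : 3 ≤ m) (b : Bool) {p : G}
    (hp : p = 1 ∨ ∃ a, PW x m a p) : NF x m (x b * p) := by
  rcases hp with rfl | ⟨a, hp⟩
  · cases b
    · have := NF.zpow (x := x) (m := m) 1
      simpa using this
    · rw [mul_one]
      have := NF.of_PW (PW.last (x := x) (m := m) true 0 (by omega) rfl)
      simpa using this
  · by_cases hba : b = a
    · subst hba
      have := NF.of_PW (PW.cons (x := x) (m := m) b 0 p (by omega) hp)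
      simpa using this
    · have hb' := not_of_ne hba
      subst hb'
      cases hp with
      | last _ l h ht =>
        have e : x (!a) * alt x a (l + 1) = alt x (!a) (l + 2) := by
          rw [alt_succ _ (!a), Bool.not_not]
        rw [e]
        have htw : tw (!a) (l + 1) = true := by rw [tw_succ, tw_not, Bool.not_not, ht]
        rcases Nat.lt_or_ge (l + 3) m with h' | h'
        · exact NF.of_PW (PW.last (!a) (l + 1) (by omega) htw)
        · have hlm : l + 2 + 1 = m := by omega
          have h1 := alt_succ' x (!a) (l + 2)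
          rw [hlm, delta_eq hb, tw_succ, htw] at h1
          refine ⟨1, -1, 1, Or.inl rfl, ?_⟩
          rw [zpow_one, mul_one, h1, Bool.not_true]
          group
      | cons _ l p2 h hp2 =>
        have e : x (!a) * (alt x a (l + 1) * p2) = alt x (!a) (l + 2) * p2 := by
          rw [← mul_assoc, alt_succ _ (!a), Bool.not_not]
        rw [e]
        have htw : tw (!a) (l + 1) = tw a l := by rw [tw_succ, tw_not, Bool.not_not]
        rcases Nat.lt_or_ge (l + 2) m with h' | h'
        · exact NF.of_PW (PW.cons (!a) (l + 1) p2 (by omega) (by rw [htw]; exact hp2))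
        · have hlm : l + 2 = m := by omega
          rw [hlm, delta_eq hb]
          exact ⟨1, 0, p2, Or.inr ⟨_, hp2⟩, by simp⟩

theorem exists_tw (b : Bool) (n : ℕ) : ∃ c, tw c n = b := ⟨tw b n, tw_tw b n⟩

theorem NF.inv_mul_left (hb : alt x true m = alt x false m) (hm : 3 ≤ m) (b : Bool) {p : G}
    (hp : p = 1 ∨ ∃ a, PW x m a p) : NF x m ((x b)⁻¹ * p) := by
  rcases hp with rfl | ⟨a, hp⟩
  · cases b
    · have := NF.zpow (x := x) (m := m) (-1)
      simpa using this
    · obtain ⟨l, hl⟩ : ∃ l, m = l + 3 := ⟨m - 3, by omega⟩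
      obtain ⟨c, hc⟩ := exists_tw true l
      have h1 : alt x c m = alt x c (l + 1) * x false * x true := by
        rw [hl, alt_succ' x c (l + 2), alt_succ' x c (l + 1)]
        simp only [tw_succ, hc, Bool.not_true, Bool.not_false]
      rw [delta_eq hb] at h1
      refine ⟨-1, 1, alt x c (l + 1), Or.inr ⟨c, PW.last c l (by omega) hc⟩, ?_⟩
      rw [h1]; group
  · by_cases hba : b = a
    · subst hba
      cases hp with
      | last _ l h ht =>
        rw [alt_succ, inv_mul_cancel_left]
        rcases Nat.eq_zero_or_pos l with h0 | hpos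
        · subst h0; exact NF.one
        · obtain ⟨l', rfl⟩ : ∃ l', l = l' + 1 := ⟨l - 1, by omega⟩
          exact NF.of_PW (PW.last (!b) l' (by omega) (by rw [tw_not, ← tw_succ]; exact ht))
      | cons _ l p2 h hp2 =>
        rw [alt_succ, mul_assoc, inv_mul_cancel_left]
        rcases Nat.eq_zero_or_pos l with h0 | hpos
        · subst h0
          rw [alt_zero, one_mul]
          exact NF.of_PW hp2
        · obtain ⟨l', rfl⟩ : ∃ l', l = l' + 1 := ⟨l - 1, by omega⟩
          exact NF.of_PW (PW.cons (!b) l' p2 (by omega) (by rw [tw_not, ← tw_succ]; exact hp2))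
    · have hb' := not_of_ne hba
      subst hb'
      obtain ⟨l, hl⟩ : ∃ l, m = l + 2 := ⟨m - 2, by omega⟩
      obtain ⟨c, hc⟩ := exists_tw a l
      have h1 : alt x c m = alt x c (l + 1) * x (!a) := by
        rw [hl, alt_succ' x c (l + 1), tw_succ, hc]
      rw [delta_eq hb] at h1
      refine ⟨-1, 0, alt x c (l + 1) * p, Or.inr ⟨c, PW.cons c l p (by omega)
        (by rw [hc]; exact hp)⟩, ?_⟩
      rw [h1]; group

theorem NF.all (hb : alt x true m = alt x false m) (hm : 3 ≤ m) {g : G}
    (hg : g ∈ Subgroup.closure (Set.range x)) : NF x m g := by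
  induction hg using Subgroup.closure_induction_left with
  | one => exact NF.one
  | mul_left y hy z hz ih =>
    obtain ⟨b, rfl⟩ := hy
    obtain ⟨k, n, p, hp, rfl⟩ := ih
    obtain ⟨b', hb'⟩ := exists_conj hb k b
    have e : x b * (alt x true m ^ k * p * x false ^ n) =
        alt x true m ^ k * (x b' * p) * x false ^ n := by
      rw [← mul_assoc, ← mul_assoc, hb']; simp only [mul_assoc]
    rw [e]
    exact ((NF.mul_left hb hm b' hp).delta_mul k).mul_zpow n
  | inv_mul_cancel y hy z hz ih =>
    obtain ⟨b, rfl⟩ := hy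
    obtain ⟨k, n, p, hp, rfl⟩ := ih
    obtain ⟨b'', hb3⟩ : ∃ b'', (x b)⁻¹ * alt x true m ^ k = alt x true m ^ k * (x b'')⁻¹ := by
      obtain ⟨b'', h⟩ := exists_conj hb k b
      refine ⟨b'', ?_⟩
      rw [inv_mul_eq_iff_eq_mul, ← mul_assoc, h, mul_assoc, mul_inv_cancel, mul_one]
    have e : (x b)⁻¹ * (alt x true m ^ k * p * x false ^ n) =
        alt x true m ^ k * ((x b'')⁻¹ * p) * x false ^ n := by
      rw [← mul_assoc, ← mul_assoc, hb3]; simp only [mul_assoc]
    rw [e]
    exact ((NF.inv_mul_left hb hm b'' hp).delta_mul k).mul_zpow n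

end nf

end Pool.Agent.HeckeCox
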