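import Mathlib
import Pool.Agent.Lib_helper18.Hecke.NF

set_option autoImplicit false

/-! The Hecke triangle representation and the stabiliser of a cusp. -/

namespace Pool.Agent.HeckeCox

open Real Matrix

theorem tw_eq (c : Bool) (l : ℕ) : tw c l = if l % 2 = 0 then c else !c := by
  induction l with
  | zero => simp
  | succ l ih =>
    rw [tw_succ, ih]
    rcases Nat.mod_two_eq_zero_or_one l with h | h
    · have : (l + 1) % 2 = 1 := by omega
      simp [h, this]
    · have : (l + 1) % 2 = 0 := by omega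
      simp [h, this]

section tri

variable (m : ℕ)

/-- normalised sines -/
noncomputable def us (j : ℤ) : ℝ := sin (j * (π / m)) / sin (π / m)

/-- `2 cos (π / m)` -/
noncomputable def lam : ℝ := 2 * cos (π / m)

variable {m}

theorem sin_pos_m (hm : 3 ≤ m) : 0 < sin (π / (m : ℝ)) := by
  have hm' : (3 : ℝ) ≤ m := by exact_mod_cast hm
  apply sin_pos_of_pos_of_lt_pi
  · have := pi_pos; positivity
  · rw [div_lt_iff₀ (by linarith)]
    nlinarith [pi_pos]

theorem lam_pos (hm : 3 ≤ m) : 0 < lam m := by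
  have hm' : (3 : ℝ) ≤ m := by exact_mod_cast hm
  unfold lam
  apply mul_pos two_pos
  apply cos_pos_of_mem_Ioo
  constructor
  · have := pi_pos
    have h5 : 0 < π / (m : ℝ) := by positivity
    linarith
  · rw [div_lt_div_iff₀ (by linarith) two_pos]
    nlinarith [pi_pos]

theorem us_rec (j : ℤ) : us m (j + 1) = lam m * us m j - us m (j - 1) := by
  unfold us lam
  have e1 : ((j + 1 : ℤ) : ℝ) * (π / m) = j * (π / m) + π / m := by push_cast; ring
  have e2 : ((j - 1 : ℤ) : ℝ) * (π / m) = j * (π / m) - π / m := by push_cast; ring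
  rw [e1, e2, sin_add, sin_sub]
  ring

theorem us_zero : us m 0 = 0 := by simp [us]

theorem us_one (hm : 3 ≤ m) : us m 1 = 1 := by
  have := (sin_pos_m hm).ne'
  unfold us
  push_cast
  rw [one_mul, div_self this]

theorem us_neg_one (hm : 3 ≤ m) : us m (-1) = -1 := by
  have := (sin_pos_m hm).ne'
  unfold us
  push_cast
  rw [neg_mul, one_mul, sin_neg, neg_div, div_self this]

theorem m_mul (hm : 3 ≤ m) : ((m : ℤ) : ℝ) * (π / m) = π := by
  have hm' : (m : ℝ) ≠ 0 := by positivity
  push_cast; field_simp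

theorem us_m (hm : 3 ≤ m) : us m m = 0 := by
  unfold us; rw [m_mul hm, sin_pi, zero_div]

theorem us_m_sub (hm : 3 ≤ m) : us m (m - 1) = 1 := by
  have := (sin_pos_m hm).ne'
  unfold us
  have e : (((m : ℤ) - 1 : ℤ) : ℝ) * (π / m) = π - π / m := by
    have := m_mul hm
    push_cast at this ⊢
    rw [sub_mul, this, one_mul]
  rw [e, sin_pi_sub, div_self this]

theorem us_m_add (hm : 3 ≤ m) : us m (m + 1) = -1 := by
  rw [us_rec, us_m hm, us_m_sub hm]; ring

theorem us_pos (hm : 3 ≤ m) {j : ℤ} (h0 : 0 < j) (h1 : j < m) : 0 < us m j := by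
  unfold us
  apply div_pos _ (sin_pos_m hm)
  have hj0 : (0 : ℝ) < j := by exact_mod_cast h0
  have hj1 : (j : ℝ) < m := by exact_mod_cast h1
  have hm' : (0 : ℝ) < m := by linarith
  apply sin_pos_of_pos_of_lt_pi
  · have := pi_pos; positivity
  · rw [mul_div_assoc', div_lt_iff₀ hm']
    nlinarith [pi_pos]

theorem us_nonneg (hm : 3 ≤ m) {j : ℤ} (h0 : 0 ≤ j) (h1 : j ≤ m) : 0 ≤ us m j := by
  rcases h0.lt_or_eq with h | h
  · rcases h1.lt_or_eq with h' | h'
    · exact (us_pos hm h h').le
    · rw [h', us_m hm]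
  · rw [← h, us_zero]

variable (m)

/-- the two parabolic matrices -/
noncomputable def Tmat : Bool → SpecialLinearGroup (Fin 2) ℝ
  | true => ⟨!![1, lam m; 0, 1], by simp [Matrix.det_fin_two]⟩
  | false => ⟨!![1, 0; -lam m, 1], by simp [Matrix.det_fin_two]⟩

/-- underlying matrix -/
noncomputable def mt : SpecialLinearGroup (Fin 2) ℝ →* Matrix (Fin 2) (Fin 2) ℝ where
  toFun A := A.1
  map_one' := rfl
  map_mul' _ _ := rfl

theorem mt_Tmat_true : mt (Tmat m true) = !![1, lam m; 0, 1] := rfl
theorem mt_Tmat_false : mt (Tmat m false) = !![1, 0; -lam m, 1] := rfl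

/-- explicit alternating products up to sign -/
noncomputable def Emat (c : Bool) (l : ℕ) : Matrix (Fin 2) (Fin 2) ℝ :=
  if l % 2 = 0 then
    (if c then !![-us m (l + 1), us m l; -us m l, us m (l - 1)]
      else !![us m (l - 1), us m l; -us m l, -us m (l + 1)])
  else
    (if c then !![us m l, us m (l + 1); us m (l - 1), us m l]
      else !![us m l, -us m (l - 1); -us m (l + 1), us m l])

variable {m}

theorem alt_Tmat (hm : 3 ≤ m) (l : ℕ) : ∃ η : ℝ, (η = 1 ∨ η = -1) ∧ ∀ c,
    mt (alt (Tmat m) c l) = η • Emat m c l := by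
  induction l with
  | zero =>
    refine ⟨-1, Or.inr rfl, ?_⟩
    intro c
    have h1 : us m 1 = 1 := us_one hm
    have h2 : us m (-1) = -1 := us_neg_one hm
    have h0 : us m 0 = 0 := us_zero
    cases c
    · ext i j
      fin_cases i <;> fin_cases j <;> simp [Emat, h1, h2, h0]
    · ext i j
      fin_cases i <;> fin_cases j <;> simp [Emat, h1, h2, h0]
  | succ l ih =>
    obtain ⟨η, hη, h⟩ := ih
    have r1 : us m (((l : ℤ) + 1) + 1) = lam m * us m (l + 1) - us m l := by
      have := us_rec (m := m) ((l : ℤ) + 1)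
      rwa [add_sub_cancel_right] at this
    have r2 : us m ((l : ℤ) - 1) = lam m * us m l - us m (l + 1) := by
      have := us_rec (m := m) (l : ℤ)
      linarith
    have cs' : ((l + 1 : ℕ) : ℤ) = (l : ℤ) + 1 := by push_cast; ring
    have cs2 : ((l : ℤ) + 1) - 1 = (l : ℤ) := by ring
    rcases Nat.mod_two_eq_zero_or_one l with hl | hl
    · have hl' : ¬ (l + 1) % 2 = 0 := by omega
      refine ⟨-η, by rcases hη with h | h <;> simp [h], ?_⟩
      intro c
      rw [alt_succ, map_mul, h]
      cases c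
      · ext i j
        fin_cases i <;> fin_cases j <;>
          simp [Emat, hl, hl', mt_Tmat_true, mt_Tmat_false, Matrix.mul_apply, Fin.sum_univ_two, r1, r2] <;> ring
      · ext i j
        fin_cases i <;> fin_cases j <;>
          simp [Emat, hl, hl', mt_Tmat_true, mt_Tmat_false, Matrix.mul_apply, Fin.sum_univ_two, r1, r2] <;> ring
    · have hl' : (l + 1) % 2 = 0 := by omega
      have hl'' : ¬ l % 2 = 0 := by omega
      refine ⟨η, hη, ?_⟩
      intro c
      rw [alt_succ, map_mul, h]
      cases c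
      · ext i j
        fin_cases i <;> fin_cases j <;>
          simp [Emat, hl, hl', hl'', mt_Tmat_true, mt_Tmat_false, Matrix.mul_apply, Fin.sum_univ_two, r1, r2] <;> ring
      · ext i j
        fin_cases i <;> fin_cases j <;>
          simp [Emat, hl, hl', hl'', mt_Tmat_true, mt_Tmat_false, Matrix.mul_apply, Fin.sum_univ_two, r1, r2] <;> ring

theorem Emat_m (hm : 3 ≤ m) (c : Bool) : Emat m c m =
    if m % 2 = 0 then 1 else !![0, -1; 1, 0] := by
  have h1 := us_m hm
  have h2 := us_m_sub hm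
  have h3 := us_m_add hm
  unfold Emat
  rw [h1, h2, h3]
  split_ifs <;> ext i j <;> fin_cases i <;> fin_cases j <;> simp

theorem Tmat_braid (hm : 3 ≤ m) : alt (Tmat m) true m = alt (Tmat m) false m := by
  obtain ⟨η, -, h⟩ := alt_Tmat hm m
  apply Subtype.ext
  show mt _ = mt _
  rw [h true, h false, Emat_m hm, Emat_m hm]

/-- the two cones -/
def cone (c : Bool) (v : Fin 2 → ℝ) : Prop := if c then 0 < v 0 * v 1 else v 0 * v 1 < 0

theorem cone_alt (hm : 3 ≤ m) {c : Bool} {l : ℕ} (hl : l + 2 ≤ m) {v : Fin 2 → ℝ}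
    (hv : cone (tw c l) v) :
    cone c (mt (alt (Tmat m) c (l + 1)) *ᵥ v) := by
  obtain ⟨η, hη, h⟩ := alt_Tmat hm (l + 1)
  rw [h c]
  have hη2 : η * η = 1 := by rcases hη with h | h <;> simp [h]
  have p1 : 0 < us m (l + 1) := us_pos hm (by omega) (by omega)
  have p2 : 0 ≤ us m l := us_nonneg hm (by omega) (by omega)
  have p3 : 0 ≤ us m (l + 1 + 1) := us_nonneg hm (by omega) (by omega)
  have cs2 : ((l : ℤ) + 1) - 1 = (l : ℤ) := by ring
  set a := us m (l + 1) with ha
  set b := us m l with hb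
  set d := us m (l + 1 + 1) with hd
  set X := v 0 with hX
  set Y := v 1 with hY
  rw [tw_eq] at hv
  rcases Nat.mod_two_eq_zero_or_one l with hl0 | hl1
  · have hl' : ¬ (l + 1) % 2 = 0 := by omega
    rw [if_pos hl0] at hv
    cases c
    · simp only [cone, Bool.false_eq_true, if_false] at hv ⊢
      have e0 : ((η • Emat m false (l + 1)) *ᵥ v) 0 = η * (a * X - b * Y) := by
        simp [Emat, hl', Matrix.mulVec, dotProduct, Fin.sum_univ_two, ← ha, ← hb, ← hd, ← hX, ← hY]
        ring
      have e1 : ((η • Emat m false (l + 1)) *ᵥ v) 1 = η * (-d * X + a * Y) := by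
        simp [Emat, hl', Matrix.mulVec, dotProduct, Fin.sum_univ_two, ← ha, ← hb, ← hd, ← hX, ← hY]
        ring
      rw [e0, e1]
      have e2 : η * (a * X - b * Y) * (η * (-d * X + a * Y)) =
          (a * a + b * d) * (X * Y) - a * d * (X * X) - a * b * (Y * Y) := by
        linear_combination ((a * X - b * Y) * (-d * X + a * Y)) * hη2
      rw [e2]
      have : 0 < a * a := by positivity
      have h3 : 0 ≤ b * d := by positivity
      have h4 : 0 ≤ a * d * (X * X) := mul_nonneg (by positivity) (mul_self_nonneg X)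
      have h5 : 0 ≤ a * b * (Y * Y) := mul_nonneg (by positivity) (mul_self_nonneg Y)
      nlinarith
    · simp only [cone, if_true] at hv ⊢
      have e0 : ((η • Emat m true (l + 1)) *ᵥ v) 0 = η * (a * X + d * Y) := by
        simp [Emat, hl', Matrix.mulVec, dotProduct, Fin.sum_univ_two, ← ha, ← hb, ← hd, ← hX, ← hY]
        ring
      have e1 : ((η • Emat m true (l + 1)) *ᵥ v) 1 = η * (b * X + a * Y) := by
        simp [Emat, hl', Matrix.mulVec, dotProduct, Fin.sum_univ_two, ← ha, ← hb, ← hd, ← hX, ← hY]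
        ring
      rw [e0, e1]
      have e2 : η * (a * X + d * Y) * (η * (b * X + a * Y)) =
          (a * a + b * d) * (X * Y) + a * b * (X * X) + a * d * (Y * Y) := by
        linear_combination ((a * X + d * Y) * (b * X + a * Y)) * hη2
      rw [e2]
      have : 0 < a * a := by positivity
      have h3 : 0 ≤ b * d := by positivity
      have h4 : 0 ≤ a * b * (X * X) := mul_nonneg (by positivity) (mul_self_nonneg X)
      have h5 : 0 ≤ a * d * (Y * Y) := mul_nonneg (by positivity) (mul_self_nonneg Y)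
      nlinarith
  · have hl' : (l + 1) % 2 = 0 := by omega
    rw [if_neg (by omega)] at hv
    cases c
    · simp only [cone, Bool.false_eq_true, if_false, Bool.not_false, if_true] at hv ⊢
      have e0 : ((η • Emat m false (l + 1)) *ᵥ v) 0 = η * (b * X + a * Y) := by
        simp [Emat, hl', Matrix.mulVec, dotProduct, Fin.sum_univ_two, ← ha, ← hb, ← hd, ← hX, ← hY]
        ring
      have e1 : ((η • Emat m false (l + 1)) *ᵥ v) 1 = η * (-a * X - d * Y) := by
        simp [Emat, hl', Matrix.mulVec, dotProduct, Fin.sum_univ_two, ← ha, ← hb, ← hd, ← hX, ← hY]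
        ring
      rw [e0, e1]
      have e2 : η * (b * X + a * Y) * (η * (-a * X - d * Y)) =
          -((a * a + b * d) * (X * Y) + a * b * (X * X) + a * d * (Y * Y)) := by
        linear_combination ((b * X + a * Y) * (-a * X - d * Y)) * hη2
      rw [e2]
      have : 0 < a * a := by positivity
      have h3 : 0 ≤ b * d := by positivity
      have h4 : 0 ≤ a * b * (X * X) := mul_nonneg (by positivity) (mul_self_nonneg X)
      have h5 : 0 ≤ a * d * (Y * Y) := mul_nonneg (by positivity) (mul_self_nonneg Y)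
      nlinarith
    · simp only [cone, if_true, Bool.not_true, Bool.false_eq_true, if_false] at hv ⊢
      have e0 : ((η • Emat m true (l + 1)) *ᵥ v) 0 = η * (-d * X + a * Y) := by
        simp [Emat, hl', Matrix.mulVec, dotProduct, Fin.sum_univ_two, ← ha, ← hb, ← hd, ← hX, ← hY]
        ring
      have e1 : ((η • Emat m true (l + 1)) *ᵥ v) 1 = η * (-a * X + b * Y) := by
        simp [Emat, hl', Matrix.mulVec, dotProduct, Fin.sum_univ_two, ← ha, ← hb, ← hd, ← hX, ← hY]
        ring
      rw [e0, e1]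
      have e2 : η * (-d * X + a * Y) * (η * (-a * X + b * Y)) =
          -((a * a + b * d) * (X * Y)) + a * d * (X * X) + a * b * (Y * Y) := by
        linear_combination ((-d * X + a * Y) * (-a * X + b * Y)) * hη2
      rw [e2]
      have : 0 < a * a := by positivity
      have h3 : 0 ≤ b * d := by positivity
      have h4 : 0 ≤ a * d * (X * X) := mul_nonneg (by positivity) (mul_self_nonneg X)
      have h5 : 0 ≤ a * b * (Y * Y) := mul_nonneg (by positivity) (mul_self_nonneg Y)
      nlinarith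

/-- the cusp fixed by the second generator -/
def fvec : Fin 2 → ℝ := ![0, 1]

theorem cone_last (hm : 3 ≤ m) {c : Bool} {l : ℕ} (hl : l + 3 ≤ m) (ht : tw c l = true) :
    cone c (mt (alt (Tmat m) c (l + 1)) *ᵥ fvec) := by
  obtain ⟨η, hη, h⟩ := alt_Tmat hm (l + 1)
  rw [h c]
  have hη2 : η * η = 1 := by rcases hη with h | h <;> simp [h]
  have p1 : 0 < us m (l + 1) := us_pos hm (by omega) (by omega)
  have p3 : 0 < us m (l + 1 + 1) := us_pos hm (by omega) (by omega)
  set a := us m (l + 1) with ha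
  set d := us m (l + 1 + 1) with hd
  rw [tw_eq] at ht
  rcases Nat.mod_two_eq_zero_or_one l with hl0 | hl1
  · have hl' : ¬ (l + 1) % 2 = 0 := by omega
    rw [if_pos hl0] at ht
    subst ht
    simp only [cone, if_true]
    have e0 : ((η • Emat m true (l + 1)) *ᵥ fvec) 0 = η * d := by
      simp [Emat, hl', Matrix.mulVec, dotProduct, Fin.sum_univ_two, ← hd, fvec]
    have e1 : ((η • Emat m true (l + 1)) *ᵥ fvec) 1 = η * a := by
      simp [Emat, hl', Matrix.mulVec, dotProduct, Fin.sum_univ_two, ← ha, fvec]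
    rw [e0, e1]
    have e2 : η * d * (η * a) = d * a := by linear_combination (d * a) * hη2
    rw [e2]; positivity
  · have hl' : (l + 1) % 2 = 0 := by omega
    rw [if_neg (by omega)] at ht
    have hc : c = false := by cases c <;> simp_all
    subst hc
    simp only [cone, Bool.false_eq_true, if_false]
    have e0 : ((η • Emat m false (l + 1)) *ᵥ fvec) 0 = η * a := by
      simp [Emat, hl', Matrix.mulVec, dotProduct, Fin.sum_univ_two, ← ha, fvec]
    have e1 : ((η • Emat m false (l + 1)) *ᵥ fvec) 1 = η * (-d) := by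
      simp [Emat, hl', Matrix.mulVec, dotProduct, Fin.sum_univ_two, ← hd, fvec]
    rw [e0, e1]
    have e2 : η * a * (η * -d) = -(a * d) := by linear_combination (-(a * d)) * hη2
    rw [e2]
    have : 0 < a * d := by positivity
    linarith

theorem mt_mul_mulVec (A C : SpecialLinearGroup (Fin 2) ℝ) (v : Fin 2 → ℝ) :
    mt (A * C) *ᵥ v = mt A *ᵥ (mt C *ᵥ v) := by
  rw [map_mul, Matrix.mulVec_mulVec]

theorem cone_PW (hm : 3 ≤ m) {G : Type*} [Group G] {x : Bool → G}
    (φ : G →* SpecialLinearGroup (Fin 2) ℝ) (hφ : ∀ b, φ (x b) = Tmat m b) {a : Bool} {p : G}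
    (h : PW x m a p) : cone a (mt (φ p) *ᵥ fvec) := by
  have hx : (fun b => φ (x b)) = Tmat m := funext hφ
  induction h with
  | last a l h ht =>
    rw [map_alt, hx]
    exact cone_last hm h ht
  | cons a l p h hp ih =>
    rw [map_mul, mt_mul_mulVec, map_alt, hx]
    exact cone_alt hm h ih

theorem delta_Z (hm : 3 ≤ m) (v : Fin 2 → ℝ) :
    (mt (alt (Tmat m) true m) *ᵥ v) 0 * (mt (alt (Tmat m) true m) *ᵥ v) 1 = 0 ↔
      v 0 * v 1 = 0 := by
  obtain ⟨η, hη, h⟩ := alt_Tmat hm m
  rw [h true, Emat_m hm]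
  have hη2 : η ≠ 0 := by rcases hη with h | h <;> simp [h]
  split_ifs
  · have e0 : ((η • (1 : Matrix (Fin 2) (Fin 2) ℝ)) *ᵥ v) 0 = η * v 0 := by
      simp [Matrix.smul_mulVec]
    have e1 : ((η • (1 : Matrix (Fin 2) (Fin 2) ℝ)) *ᵥ v) 1 = η * v 1 := by
      simp [Matrix.smul_mulVec]
    rw [e0, e1]
    simp [hη2]
  · have e0 : ((η • !![0, -1; 1, 0]) *ᵥ v) 0 = -(η * v 1) := by
      simp [Matrix.mulVec, dotProduct, Fin.sum_univ_two]
    have e1 : ((η • !![0, -1; 1, 0]) *ᵥ v) 1 = η * v 0 := by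
      simp [Matrix.mulVec, dotProduct, Fin.sum_univ_two]
    rw [e0, e1]
    simp [hη2]
    tauto

theorem delta_zpow_Z (hm : 3 ≤ m) (k : ℤ) (v : Fin 2 → ℝ) :
    (mt (alt (Tmat m) true m ^ k) *ᵥ v) 0 * (mt (alt (Tmat m) true m ^ k) *ᵥ v) 1 = 0 ↔
      v 0 * v 1 = 0 := by
  induction k using Int.induction_on generalizing v with
  | zero => simp
  | succ k ih =>
    rw [_root_.zpow_add_one, mt_mul_mulVec, ih, delta_Z hm]
  | pred k ih =>
    rw [_root_.zpow_sub_one, mt_mul_mulVec, ih, ← delta_Z hm, ← mt_mul_mulVec, mul_inv_cancel]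
    simp

theorem Tfalse_zpow (n : ℤ) : mt (Tmat m false ^ n) *ᵥ fvec = fvec := by
  have h1 : mt (Tmat m false) *ᵥ fvec = fvec := by
    rw [mt_Tmat_false]
    ext i
    fin_cases i <;> simp [Matrix.mulVec, dotProduct, Fin.sum_univ_two, fvec]
  have h2 : mt (Tmat m false)⁻¹ *ᵥ fvec = fvec := by
    conv_lhs => rw [← h1]
    rw [← mt_mul_mulVec, inv_mul_cancel]; simp
  induction n using Int.induction_on with
  | zero => simp
  | succ k ih => rw [_root_.zpow_add_one, mt_mul_mulVec, h1, ih]
  | pred k ih => rw [_root_.zpow_sub_one, mt_mul_mulVec, h2, ih]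

/-- The stabiliser of the cusp. -/
theorem stab (hm : 3 ≤ m) {G : Type*} [Group G] {x : Bool → G}
    (hb : alt x true m = alt x false m)
    (φ : G →* SpecialLinearGroup (Fin 2) ℝ) (hφ : ∀ b, φ (x b) = Tmat m b) {g : G}
    (hg : g ∈ Subgroup.closure (Set.range x)) (hfix : mt (φ g) *ᵥ fvec = fvec) :
    ∃ k n : ℤ, g = alt x true m ^ k * x false ^ n := by
  obtain ⟨k, n, p, hp, rfl⟩ := NF.all hb hm hg
  rcases hp with rfl | ⟨a, hp⟩
  · exact ⟨k, n, by rw [mul_one]⟩
  · exfalso
    have hx : (fun b => φ (x b)) = Tmat m := funext hφ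
    have hc := cone_PW hm φ hφ hp
    have e : φ (alt x true m ^ k * p * x false ^ n) =
        alt (Tmat m) true m ^ k * φ p * Tmat m false ^ n := by
      rw [map_mul, map_mul, map_zpow, map_zpow, map_alt, hx, hφ]
    rw [e, mt_mul_mulVec, Tfalse_zpow, mt_mul_mulVec] at hfix
    have h1 := delta_zpow_Z hm k (mt (φ p) *ᵥ fvec)
    rw [hfix] at h1
    have h2 : (mt (φ p) *ᵥ fvec) 0 * (mt (φ p) *ᵥ fvec) 1 = 0 := by
      apply h1.mp
      simp [fvec]
    unfold cone at hc
    rw [h2] at hc
    split_ifs at hc <;> exact lt_irrefl _ hc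

end tri

end Pool.Agent.HeckeCox
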