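import Mathlib
import Pool.Agent.Lib_helper18.Hecke.Pos
import Pool.Agent.Lib_helper18.Hecke.Tri

set_option autoImplicit false

/-! Evaluation of the dihedral part of the regular representation at `v = i`. -/

namespace Pool.Agent.HeckeCox

open CoxeterSystem Matrix

section phi

/-- complexified matrix -/
noncomputable def mc : SpecialLinearGroup (Fin 2) ℝ →* Matrix (Fin 2) (Fin 2) ℂ :=
  (Complex.ofRealHom.mapMatrix (m := Fin 2) : Matrix (Fin 2) (Fin 2) ℝ →* _).comp mt

theorem mc_apply (A : SpecialLinearGroup (Fin 2) ℝ) (i j : Fin 2) :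
    mc A i j = ((mt A i j : ℝ) : ℂ) := rfl

/-- operators of the specialised Hecke algebra -/
noncomputable def ro (m : ℕ) (b : Bool) : Matrix (Fin 2) (Fin 2) ℂ :=
  (-Complex.I) • mc (Tmat m b)

theorem ro_sq (m : ℕ) (b : Bool) : ro m b * ro m b = 1 + (-2 * Complex.I) • ro m b := by
  unfold ro
  have h : mc (Tmat m b) * mc (Tmat m b) = (2 : ℂ) • mc (Tmat m b) - 1 := by
    cases b
    · ext i j
      fin_cases i <;> fin_cases j <;>
        simp [Matrix.mul_apply, Fin.sum_univ_two, mc_apply, mt_Tmat_false] <;> ring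
    · ext i j
      fin_cases i <;> fin_cases j <;>
        simp [Matrix.mul_apply, Fin.sum_univ_two, mc_apply, mt_Tmat_true] <;> ring
  rw [smul_mul_smul_comm, h, smul_smul]
  have e1 : -Complex.I * -Complex.I = -1 := by
    have := Complex.I_mul_I
    linear_combination this
  have e2 : -2 * Complex.I * -Complex.I = -2 := by
    have := Complex.I_mul_I
    linear_combination 2 * this
  rw [e1, e2, smul_sub, smul_smul]
  ext i j
  simp
  ring

theorem alt_ro (m : ℕ) (c : Bool) (l : ℕ) :
    alt (ro m) c l = (-Complex.I) ^ l • mc (alt (Tmat m) c l) := by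
  induction l generalizing c with
  | zero => simp
  | succ l ih =>
    rw [alt_succ, ih, alt_succ, map_mul, ro, smul_mul_smul_comm, pow_succ']

theorem ro_braid {m : ℕ} (hm : 3 ≤ m) (c : Bool) : alt (ro m) c m = alt (ro m) (!c) m := by
  rw [alt_ro, alt_ro]
  cases c
  · rw [Bool.not_false, Tmat_braid hm]
  · rw [Bool.not_true, Tmat_braid hm]

variable {B W : Type*} [Group W] {M : CoxeterMatrix B} (cs : CoxeterSystem M W) (i j : B)

/-- the other cusp -/
def vinf : Fin 2 → ℂ := ![1, 0]

open Classical in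
/-- value of the evaluation on the basis -/
noncomputable def vec (w : W) : Fin 2 → ℂ :=
  if h : ∃ p : Bool × ℕ, p.2 ≤ M i j ∧ w = alt (sx cs i j) p.1 p.2 then
    alt (ro (M i j)) h.choose.1 h.choose.2 *ᵥ vinf else 0

variable {i j}

theorem alt_inj (hij : i ≠ j) {c c' : Bool} {l l' : ℕ} (hl : l ≤ M i j) (hl' : l' ≤ M i j)
    (h : alt (sx cs i j) c l = alt (sx cs i j) c' l') : l = l' ∧ (c = c' ∨ l = 0 ∨ l = M i j) := by
  have h1 : l = l' := by
    rw [← length_alt cs hij c (Or.inr hl), h, length_alt cs hij c' (Or.inr hl')]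
  subst h1
  refine ⟨rfl, ?_⟩
  by_contra hcon
  push Not at hcon
  obtain ⟨hc, h0, hm⟩ := hcon
  have h2 : c' = !c := by cases c <;> cases c' <;> simp_all
  subst h2
  have h3 := D_alt_self cs hij c (l := l) (by omega) (Or.inr hl)
  have h4 := D_alt_not cs hij (!c) (l := l) (Or.inr (by omega))
  rw [Bool.not_not, ← h, h3] at h4
  simp at h4

theorem vec_alt (hij : i ≠ j) (hm : 3 ≤ M i j) (c : Bool) {l : ℕ} (hl : l ≤ M i j) :
    vec cs i j (alt (sx cs i j) c l) = alt (ro (M i j)) c l *ᵥ vinf := by
  classical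
  have h : ∃ p : Bool × ℕ, p.2 ≤ M i j ∧ alt (sx cs i j) c l = alt (sx cs i j) p.1 p.2 :=
    ⟨(c, l), hl, rfl⟩
  unfold vec
  rw [dif_pos h]
  have hs := h.choose_spec
  set p := h.choose with hp
  obtain ⟨h1, h2⟩ := alt_inj cs hij hl hs.1 hs.2
  rw [← h1]
  rcases h2 with h2 | h2 | h2
  · rw [h2]
  · rw [h2]; simp
  · rw [h2]
    by_cases hc : c = p.1
    · rw [hc]
    · have h3 : p.1 = !c := not_of_ne (fun h => hc h.symm)
      rw [h3, ← ro_braid hm]

theorem vec_not {w : W} (hw : w ∉ WP cs {i, j}) : vec cs i j w = 0 := by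
  classical
  unfold vec
  rw [dif_neg]
  rintro ⟨p, -, rfl⟩
  exact hw (alt_mem cs i j _ _)

theorem vec_up (hij : i ≠ j) (hm : 3 ≤ M i j) {w : W} {a : Bool}
    (hD : D cs w (sx cs i j a) = 0) :
    vec cs i j (sx cs i j a * w) = ro (M i j) a *ᵥ vec cs i j w := by
  by_cases hw : w ∈ WP cs {i, j}
  · obtain ⟨c, l, hl, rfl⟩ := exists_alt_le cs (by omega) hw
    rcases Nat.eq_zero_or_pos l with h0 | hpos
    · subst h0
      have e1 := vec_alt cs hij hm a (l := 1) (by omega)
      have e2 := vec_alt cs hij hm a (l := 0) (by omega)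
      rw [alt_one, alt_one] at e1
      rw [alt_zero, alt_zero, one_mulVec] at e2
      rw [alt_zero, mul_one, e1, e2]
    · have h1 := D_alt_self cs hij c hpos (Or.inr hl)
      have hac : a = !c := by
        by_contra hne
        have : a = c := by cases a <;> cases c <;> simp_all
        rw [this, h1] at hD
        simp at hD
      subst hac
      have hlm : l ≠ M i j := by
        rintro rfl
        rw [D_w0'] at hD
        simp at hD
      rw [vec_alt cs hij hm c hl]
      have e : sx cs i j (!c) * alt (sx cs i j) c l = alt (sx cs i j) (!c) (l + 1) := by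
        rw [alt_succ, Bool.not_not]
      rw [e, vec_alt cs hij hm (!c) (by omega), alt_succ, Bool.not_not, mulVec_mulVec]
  · rw [vec_not cs hw, mulVec_zero]
    apply vec_not
    intro h
    apply hw
    have := Subgroup.mul_mem _ (Subgroup.inv_mem _ (sx_mem cs i j a)) h
    simpa using this
where
  D_w0' {c : Bool} : D cs (alt (sx cs i j) c (M i j)) (sx cs i j (!c)) = 1 := by
    rw [alt_sx_braid]
    exact D_alt_self cs hij (!c) (by omega) (Or.inr le_rfl)

variable {R : Type*} [CommRing R] (q : R) (ψ : R →+* ℂ)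

variable (i j) in
/-- the evaluation map -/
noncomputable def Ev (x : W →₀ R) : Fin 2 → ℂ := x.sum (fun w r => ψ r • vec cs i j w)

theorem Ev_add (x y : W →₀ R) : Ev cs i j ψ (x + y) = Ev cs i j ψ x + Ev cs i j ψ y := by
  classical
  unfold Ev
  apply Finsupp.sum_add_index'
  · intro a; simp
  · intro a b c; rw [map_add, add_smul]

theorem Ev_single (w : W) (r : R) : Ev cs i j ψ (Finsupp.single w r) = ψ r • vec cs i j w := by
  unfold Ev
  rw [Finsupp.sum_single_index]
  simp

theorem Ev_zero : Ev cs i j ψ (0 : W →₀ R) = 0 := by simp [Ev]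

theorem Ev_smul (r : R) (x : W →₀ R) : Ev cs i j ψ (r • x) = ψ r • Ev cs i j ψ x := by
  classical
  induction x using Finsupp.induction_linear with
  | zero => simp [Ev_zero]
  | add f g hf hg => rw [smul_add, Ev_add, hf, hg, Ev_add, smul_add]
  | single a b => rw [Finsupp.smul_single, Ev_single, Ev_single, smul_eq_mul, map_mul, mul_smul]

theorem Ev_Lop (hij : i ≠ j) (hm : 3 ≤ M i j) (hψ : ψ q = -2 * Complex.I) (a : Bool)
    (x : W →₀ R) : Ev cs i j ψ (Lop cs q (pr i j a) x) = ro (M i j) a *ᵥ Ev cs i j ψ x := by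
  classical
  induction x using Finsupp.induction_linear with
  | zero => simp [Ev_zero]
  | add f g hf hg => rw [map_add, Ev_add, hf, hg, Ev_add, mulVec_add]
  | single w r =>
    have h : (Finsupp.single w r : W →₀ R) = r • Finsupp.single w 1 := by simp
    rw [h, map_smul, Ev_smul, Ev_smul, mulVec_smul, Lop_single, Ev_add, Ev_single, Ev_single,
      Ev_single, map_one, one_smul, one_smul]
    congr 1
    change vec cs i j (sx cs i j a * w) +
      ψ (if D cs w (sx cs i j a) = 1 then q else 0) • vec cs i j w = _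
    rcases zmod2_cases (D cs w (sx cs i j a)) with hD | hD
    · rw [vec_up cs hij hm hD, hD]
      simp
    · have hD' : D cs (sx cs i j a * w) (sx cs i j a) = 0 := by
        have := D_simple_mul cs (pr i j a) w
        change D cs (sx cs i j a * w) (sx cs i j a) = 1 + D cs w (sx cs i j a) at this
        rw [this, hD]; rfl
      have h1 := vec_up cs hij hm hD'
      rw [← mul_assoc, sx_mul_self, one_mul] at h1
      rw [if_pos hD, hψ]
      have h2 : ro (M i j) a *ᵥ vec cs i j w = (ro (M i j) a * ro (M i j) a) *ᵥ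
          vec cs i j (sx cs i j a * w) := by
        rw [← mulVec_mulVec, ← h1]
      rw [h2, ro_sq, add_mulVec, one_mulVec, smul_mulVec, ← h1]

end phi

end Pool.Agent.HeckeCox
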