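import Mathlib
import Pool.Agent.Lib_helper18.Hecke.Phi

set_option autoImplicit false

/-! Property `Q` in rank one and for finite dihedral groups. -/

namespace Pool.Agent.HeckeCox

open CoxeterSystem
open scoped Matrix

/-- the specialisations needed for the base cases -/
structure SD (R : Type*) [CommRing R] (q ε ε' : R) : Prop where
  sum : ε + ε' = q
  prod : ε * ε' = -1
  ne : ε ≠ ε'
  ev : ∃ ψ : R →+* ℂ, ψ ε = -Complex.I ∧ ψ ε' = -Complex.I ∧
    ∀ r, ∃ a b : ℤ, ψ r = a + b * Complex.I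
  pos : ∃ φ : R →+* ℝ, φ ε' < 0 ∧ 0 < φ q
  neg : ∃ φ : R →+* ℝ, φ ε' < 0 ∧ φ q < 0

section base

variable {B W : Type*} [Group W] {M : CoxeterMatrix B} (cs : CoxeterSystem M W)
variable {R : Type*} [CommRing R] {q ε ε' : R}

theorem act_Rop (q : R) {K : Set B} {g : BraidGroup M} (hg : g ∈ BP M K) (k : B) (x : W →₀ R) :
    act cs q g (Rop cs q k x) = Rop cs q k (act cs q g x) := by
  unfold BP at hg
  induction hg using Subgroup.closure_induction_left with
  | one => simp
  | mul_left y hy z hz ih =>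
    obtain ⟨i, hi, rfl⟩ := hy
    rw [act_mul_apply, act_mul_apply, ih, act_of, Leq_apply, Leq_apply, Lop_Rop]
  | inv_mul_cancel y hy z hz ih =>
    obtain ⟨i, hi, rfl⟩ := hy
    rw [act_mul_apply, act_mul_apply, ih, map_inv, act_of, Leq_symm_apply, Leq_symm_apply,
      Lop_Rop, map_sub, map_smul]

theorem mem_WP_singleton {i : B} {w : W} (h : w ∈ WP cs {i}) : w = 1 ∨ w = cs.simple i := by
  unfold WP at h
  rw [Set.image_singleton, ← Subgroup.zpowers_eq_closure, Subgroup.mem_zpowers_iff] at h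
  obtain ⟨k, rfl⟩ := h
  have h2 : cs.simple i ^ (2 : ℤ) = 1 := by
    have := cs.simple_sq i
    exact_mod_cast this
  rcases Int.even_or_odd' k with ⟨n, hn | hn⟩
  · left; rw [hn, zpow_mul, h2, one_zpow]
  · right; rw [hn, zpow_add, zpow_mul, h2, one_zpow, one_mul, zpow_one]

theorem mem_BP_singleton {i : B} {g : BraidGroup M} (h : g ∈ BP M {i}) :
    ∃ k : ℤ, g = (PresentedGroup.of i : BraidGroup M) ^ k := by
  unfold BP at h
  rw [Set.image_singleton, ← Subgroup.zpowers_eq_closure, Subgroup.mem_zpowers_iff] at h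
  obtain ⟨k, hk⟩ := h
  exact ⟨k, hk.symm⟩

theorem of_zpow_mem (i : B) (k : ℤ) : (PresentedGroup.of i : BraidGroup M) ^ k ∈ BP M {i} :=
  Subgroup.zpow_mem _ (of_mem_BP (Set.mem_singleton i)) k

theorem WP_empty : WP cs ∅ = ⊥ := by unfold WP; simp

theorem mem_BP_empty {g : BraidGroup M} (h : g ∈ BP M ∅) : g = 1 := by
  rw [BP_empty] at h; exact Subgroup.mem_bot.mp h

/-- rank one positivity -/
theorem one_pos (q : ℝ) (hq : 0 < q) (i : B) {x : W →₀ ℝ} (hx : Nn x) (h1 : 0 < x 1) (N : ℕ) :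
    Nn (act cs q ((PresentedGroup.of i : BraidGroup M) ^ (N + 1)) x) ∧
    0 < act cs q ((PresentedGroup.of i : BraidGroup M) ^ (N + 1)) x (cs.simple i) := by
  induction N with
  | zero =>
    rw [zero_add, pow_one, act_of, Leq_apply]
    refine ⟨Nn_Lop cs q hq.le i hx, ?_⟩
    have := Lop_ge cs q hq.le i hx 1
    rw [mul_one] at this
    exact h1.trans_le this
  | succ N ih =>
    rw [pow_succ', act_mul_apply, act_of, Leq_apply]
    refine ⟨Nn_Lop cs q hq.le i ih.1, Lop_pos cs q hq i ih.1 ?_ ih.2⟩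
    rw [D_simple, if_pos rfl]

theorem one_neg (q : ℝ) (hq : q < 0) (i : B) {x : W →₀ ℝ} (hx : Nn x) (h1 : 0 < x 1) (N : ℕ) :
    0 < act cs q ((PresentedGroup.of i : BraidGroup M)⁻¹ ^ (N + 1)) x (cs.simple i) := by
  have key : ∀ N, Nn (act cs q ((PresentedGroup.of i : BraidGroup M)⁻¹ ^ N) x) ∧
      0 < act cs q ((PresentedGroup.of i : BraidGroup M)⁻¹ ^ N) x 1 := by
    intro N
    induction N with
    | zero => simpa using ⟨hx, h1⟩
    | succ N ih =>
      rw [pow_succ', act_mul_apply, map_inv, act_of]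
      exact ⟨Nn_Linv cs q hq.le i ih.1, Linv_one_pos cs q hq i ih.1 ih.2⟩
  rw [pow_succ', act_mul_apply, map_inv, act_of]
  have := Linv_ge cs q hq.le i (key N).1 1
  rw [mul_one] at this
  exact (key N).2.trans_le this

theorem QP_single [IsDomain R] (hS : SD R q ε ε') (i : B) : QP cs q {i} := by
  classical
  intro I hI J hJ g hg c hc hcJ hcIJ
  by_cases hiI : i ∈ I
  · refine ⟨g, BP_mono (by simpa using hiI) hg, 1, Subgroup.one_mem _, by simp⟩
  by_cases hiJ : i ∈ J
  · refine ⟨1, Subgroup.one_mem _, g, BP_mono (by simpa using hiJ) hg, by simp⟩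
  have hI0 : I = ∅ := by
    ext k; simp only [Set.mem_empty_iff_false, iff_false]
    intro hk
    have := hI hk
    rw [Set.mem_singleton_iff] at this
    subst this; exact hiI hk
  have hJ0 : J = ∅ := by
    ext k; simp only [Set.mem_empty_iff_false, iff_false]
    intro hk
    have := hJ hk
    rw [Set.mem_singleton_iff] at this
    subst this; exact hiJ hk
  subst hI0 hJ0
  obtain ⟨k, rfl⟩ := mem_BP_singleton hg
  have hsupp1 : ∀ w, c w ≠ 0 → w = 1 := by
    intro w hw
    have := hcJ w hw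
    rw [WP_empty] at this
    exact Subgroup.mem_bot.mp this
  have hc1 : c 1 ≠ 0 := by
    obtain ⟨w, hw⟩ := exists_ne_zero hc
    rw [← hsupp1 w hw]; exact hw
  have hce : c = c 1 • Finsupp.single 1 1 := by
    ext w
    rw [Finsupp.smul_apply, Finsupp.single_apply]
    by_cases hw : 1 = w
    · subst hw; simp
    · rw [if_neg hw]
      by_contra h
      exact hw (hsupp1 w (by simpa using h)).symm
  have hzero : act cs q ((PresentedGroup.of i : BraidGroup M) ^ k)
      (Finsupp.single 1 1) (cs.simple i) = 0 := by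
    by_contra hne
    have h1 : act cs q ((PresentedGroup.of i : BraidGroup M) ^ k) c (cs.simple i) ≠ 0 := by
      rw [hce, map_smul, Finsupp.smul_apply, smul_eq_mul]
      exact mul_ne_zero hc1 hne
    obtain ⟨a, ha, b, hb, he⟩ := hcIJ _ h1
    rw [WP_empty, Subgroup.mem_bot] at ha hb
    rw [ha, hb, one_mul] at he
    have := cs.length_simple i
    rw [he, cs.length_one] at this
    exact zero_ne_one this
  have hNn : Nn (Finsupp.single (1 : W) (1 : ℝ)) := by
    intro w
    rw [Finsupp.single_apply]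
    split_ifs <;> norm_num
  have hbc : ∀ φ : R →+* ℝ, bc φ (Finsupp.single (1 : W) (1 : R)) = Finsupp.single 1 1 := by
    intro φ; ext w
    rw [bc_apply, Finsupp.single_apply, Finsupp.single_apply]
    split_ifs <;> simp
  have hk0 : k = 0 := by
    rcases lt_trichotomy k 0 with hk | hk | hk
    · exfalso
      obtain ⟨φ, -, hφ⟩ := hS.neg
      obtain ⟨N, hN⟩ : ∃ N : ℕ, k = -((N + 1 : ℕ) : ℤ) := ⟨(-k).toNat - 1, by omega⟩
      have h1 := one_neg cs (φ q) hφ i hNn (by simp) N
      rw [← hbc φ, ← bc_act cs q φ (K := {i}) (Subgroup.pow_mem _ (Subgroup.inv_mem _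
        (of_mem_BP (Set.mem_singleton i))) _), bc_apply] at h1
      rw [hN, zpow_neg, zpow_natCast, ← inv_pow] at hzero
      rw [hzero, map_zero] at h1
      exact lt_irrefl _ h1
    · exact hk
    · exfalso
      obtain ⟨φ, -, hφ⟩ := hS.pos
      obtain ⟨N, hN⟩ : ∃ N : ℕ, k = ((N + 1 : ℕ) : ℤ) := ⟨k.toNat - 1, by omega⟩
      have h1 := (one_pos cs (φ q) hφ i hNn (by simp) N).2
      rw [← hbc φ, ← bc_act cs q φ (K := {i}) (Subgroup.pow_mem _
        (of_mem_BP (Set.mem_singleton i)) _), bc_apply] at h1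
      rw [hN, zpow_natCast] at hzero
      rw [hzero, map_zero] at h1
      exact lt_irrefl _ h1
  exact ⟨1, Subgroup.one_mem _, 1, Subgroup.one_mem _, by rw [hk0]; simp⟩

end base

end Pool.Agent.HeckeCox
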