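import Mathlib
import Pool.Agent.Lib_helper18.Hecke.Tri

set_option autoImplicit false

/-! Roots of the geometric representation: positivity, crossing, nested walls. -/

namespace Pool.Agent.HeckeCox

open CoxeterSystem Real

section ul

/-- Chebyshev-type numbers -/
def ul (x : ℝ) : ℕ → ℝ
  | 0 => 0
  | 1 => 1
  | n + 2 => x * ul x (n + 1) - ul x n

theorem ul_zero (x : ℝ) : ul x 0 = 0 := rfl
theorem ul_one (x : ℝ) : ul x 1 = 1 := rfl
theorem ul_rec (x : ℝ) (n : ℕ) : ul x (n + 2) = x * ul x (n + 1) - ul x n := rfl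

theorem ul_sin (θ : ℝ) (n : ℕ) : ul (2 * cos θ) n * sin θ = sin (n * θ) := by
  induction n using Nat.twoStepInduction with
  | zero => simp [ul_zero]
  | one => simp [ul_one]
  | more n ih1 ih2 =>
    rw [ul_rec]
    have e1 : sin (((n + 2 : ℕ) : ℝ) * θ) = 2 * cos θ * sin (((n + 1 : ℕ) : ℝ) * θ) -
        sin ((n : ℝ) * θ) := by
      have a1 : ((n + 2 : ℕ) : ℝ) * θ = ((n + 1 : ℕ) : ℝ) * θ + θ := by push_cast; ring
      have a2 : (n : ℝ) * θ = ((n + 1 : ℕ) : ℝ) * θ - θ := by push_cast; ring
      rw [a1, a2, sin_add, sin_sub]; ring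
    rw [e1, ← ih1, ← ih2]; ring

theorem ul_two (n : ℕ) : ul 2 n = n := by
  induction n using Nat.twoStepInduction with
  | zero => simp [ul_zero]
  | one => simp [ul_one]
  | more n ih1 ih2 => rw [ul_rec, ih1, ih2]; push_cast; ring

variable {B : Type*} (M : CoxeterMatrix B)

theorem ul_ge_one {i j : B} (hij : i ≠ j) {l : ℕ} (h1 : 1 ≤ l) (h2 : M i j = 0 ∨ l < M i j) :
    1 ≤ ul (2 * cos (π / (M i j : ℝ))) l := by
  rcases h2 with h0 | hlt
  · rw [h0]
    simp only [Nat.cast_zero, div_zero, cos_zero, mul_one]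
    rw [ul_two]
    exact_mod_cast h1
  · set m := M i j with hm
    have hm2 : (2 : ℝ) ≤ m := by
      have : 2 ≤ m := by omega
      exact_mod_cast this
    have hl1 : (1 : ℝ) ≤ l := by exact_mod_cast h1
    have hl2 : (l : ℝ) + 1 ≤ m := by exact_mod_cast hlt
    have hpi := pi_pos
    set θ := π / (m : ℝ) with hθ
    have hmθ : (m : ℝ) * θ = π := by rw [hθ]; field_simp
    have hθ0 : 0 < θ := by rw [hθ]; positivity
    have hθ2 : θ ≤ π / 2 := by nlinarith
    have hsin : 0 < sin θ := sin_pos_of_pos_of_lt_pi hθ0 (by linarith)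
    have key : sin θ ≤ sin ((l : ℝ) * θ) := by
      rcases le_total ((l : ℝ) * θ) (π / 2) with h | h
      · apply sin_le_sin_of_le_of_le_pi_div_two (by linarith) h
        nlinarith
      · rw [← sin_pi_sub ((l : ℝ) * θ)]
        apply sin_le_sin_of_le_of_le_pi_div_two (by linarith) (by linarith)
        nlinarith
    rw [← ul_sin] at key
    have := (le_mul_iff_one_le_left hsin).mp key
    exact this

theorem ul_nonneg {i j : B} (hij : i ≠ j) {l : ℕ} (h2 : M i j = 0 ∨ l ≤ M i j) :
    0 ≤ ul (2 * cos (π / (M i j : ℝ))) l := by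
  rcases Nat.eq_zero_or_pos l with rfl | hpos
  · rw [ul_zero]
  · by_cases h : M i j = 0 ∨ l < M i j
    · exact zero_le_one.trans (ul_ge_one M hij hpos h)
    · push Not at h
      have hl : l = M i j := by omega
      have hm2 : (2 : ℝ) ≤ M i j := by
        have h1 : M i j ≠ 1 := M.off_diagonal i j hij
        have : 2 ≤ M i j := by omega
        exact_mod_cast this
      have hpi := pi_pos
      have hθ0 : 0 < π / (M i j : ℝ) := by positivity
      have hsin : 0 < sin (π / (M i j : ℝ)) := by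
        apply sin_pos_of_pos_of_lt_pi hθ0
        rw [div_lt_iff₀ (by linarith)]
        nlinarith
      have h3 := ul_sin (π / (M i j : ℝ)) l
      have h4 : (l : ℝ) * (π / (M i j : ℝ)) = π := by
        rw [hl]; field_simp
      rw [h4, sin_pi] at h3
      rcases mul_eq_zero.mp h3 with h5 | h5
      · rw [h5]
      · exact absurd h5 hsin.ne'

end ul

section root

variable {B W : Type*} [Group W] {M : CoxeterMatrix B} (cs : CoxeterSystem M W)

/-- the invariant bilinear form -/
noncomputable def bf (M : CoxeterMatrix B) : (B →₀ ℝ) →ₗ[ℝ] Module.Dual ℝ (B →₀ ℝ) :=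
  Finsupp.linearCombination ℝ (fun i => (1 / 2 : ℝ) • gf M i)

theorem bf_gx (i : B) (z : B →₀ ℝ) : bf M (gx i) z = (1 / 2) * gf M i z := by
  simp [bf, gx, Finsupp.linearCombination_single]

/-- cosine of the angle -/
noncomputable def kap (M : CoxeterMatrix B) (i j : B) : ℝ := cos (π / (M i j : ℝ))

theorem kap_symm (i j : B) : kap M i j = kap M j i := by
  unfold kap; rw [M.symmetric]

theorem bf_gx_gx (i j : B) : bf M (gx i) (gx j) = -kap M i j := by
  rw [bf_gx, gf_gx, kap]; ring

theorem bf_self (i : B) : bf M (gx i) (gx i) = 1 := by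
  rw [bf_gx, gf_self]; norm_num

theorem bf_symm (x y : B →₀ ℝ) : bf M x y = bf M y x := by
  classical
  induction x using Finsupp.induction_linear with
  | zero => simp
  | add f g hf hg => rw [map_add, LinearMap.add_apply, hf, hg, map_add]
  | single i a =>
    induction y using Finsupp.induction_linear with
    | zero => simp
    | add f g hf hg => rw [map_add, hf, hg, map_add, LinearMap.add_apply]
    | single j b =>
      have e1 : (Finsupp.single i a : B →₀ ℝ) = a • gx i := by simp [gx]
      have e2 : (Finsupp.single j b : B →₀ ℝ) = b • gx j := by simp [gx]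
      rw [e1, e2, map_smul, map_smul, map_smul, map_smul, LinearMap.smul_apply,
        LinearMap.smul_apply, bf_gx_gx, bf_gx_gx, kap_symm]
      simp only [smul_eq_mul]; ring

theorem gr_apply (i : B) (z : B →₀ ℝ) : gr M i z = z - (2 * bf M (gx i) z) • gx i := by
  rw [gr, Module.reflection_apply, bf_gx]
  congr 2; ring

theorem bf_gr (i : B) (x y : B →₀ ℝ) : bf M (gr M i x) (gr M i y) = bf M x y := by
  rw [gr_apply, gr_apply, map_sub, map_sub, LinearMap.sub_apply, map_smul, map_smul,
    LinearMap.sub_apply, LinearMap.smul_apply, LinearMap.smul_apply, bf_self, bf_symm x (gx i)]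
  simp only [smul_eq_mul]; ring

/-- the action of `W` on the root space -/
noncomputable def ga (w : W) (z : B →₀ ℝ) : B →₀ ℝ := georep cs w z

theorem ga_one (z : B →₀ ℝ) : ga cs 1 z = z := by simp [ga]
theorem ga_mul (v w : W) (z : B →₀ ℝ) : ga cs (v * w) z = ga cs v (ga cs w z) := by
  simp [ga, map_mul, LinearEquiv.mul_apply]
theorem ga_simple (i : B) (z : B →₀ ℝ) :
    ga cs (cs.simple i) z = z - (2 * bf M (gx i) z) • gx i := by
  rw [ga, georep_simple, gr_apply]
theorem ga_add (w : W) (x y : B →₀ ℝ) : ga cs w (x + y) = ga cs w x + ga cs w y := map_add _ _ _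
theorem ga_sub (w : W) (x y : B →₀ ℝ) : ga cs w (x - y) = ga cs w x - ga cs w y := map_sub _ _ _
theorem ga_smul (w : W) (a : ℝ) (y : B →₀ ℝ) : ga cs w (a • y) = a • ga cs w y := map_smul _ _ _
theorem ga_neg (w : W) (y : B →₀ ℝ) : ga cs w (-y) = -ga cs w y := map_neg _ _
theorem ga_inv (w : W) (z : B →₀ ℝ) : ga cs w⁻¹ (ga cs w z) = z := by
  rw [← ga_mul, inv_mul_cancel, ga_one]
theorem ga_inv' (w : W) (z : B →₀ ℝ) : ga cs w (ga cs w⁻¹ z) = z := by
  rw [← ga_mul, mul_inv_cancel, ga_one]

theorem bf_ga (w : W) (x y : B →₀ ℝ) : bf M (ga cs w x) (ga cs w y) = bf M x y := by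
  induction w using cs.simple_induction_left with
  | one => rw [ga_one, ga_one]
  | mul_simple_left w i ih =>
    have e : ∀ z, ga cs (cs.simple i) z = gr M i z := fun z => by rw [ga, georep_simple]
    rw [ga_mul, ga_mul, ← ih, e, e, bf_gr]

/-- nonnegative / nonpositive vectors -/
def Pos (z : B →₀ ℝ) : Prop := ∀ k, 0 ≤ z k
def Ng (z : B →₀ ℝ) : Prop := ∀ k, z k ≤ 0

theorem Pos.add {x y : B →₀ ℝ} (h1 : Pos x) (h2 : Pos y) : Pos (x + y) :=
  fun k => add_nonneg (h1 k) (h2 k)
theorem Pos.smul {x : B →₀ ℝ} {a : ℝ} (ha : 0 ≤ a) (h1 : Pos x) : Pos (a • x) :=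
  fun k => mul_nonneg ha (h1 k)
theorem Ng.add {x y : B →₀ ℝ} (h1 : Ng x) (h2 : Ng y) : Ng (x + y) :=
  fun k => add_nonpos (h1 k) (h2 k)
theorem Ng.smul {x : B →₀ ℝ} {a : ℝ} (ha : 0 ≤ a) (h1 : Ng x) : Ng (a • x) :=
  fun k => mul_nonpos_of_nonneg_of_nonpos ha (h1 k)
theorem Ng_neg {x : B →₀ ℝ} : Ng (-x) ↔ Pos x := by
  constructor
  · intro h k; have := h k; rw [Finsupp.neg_apply] at this; linarith
  · intro h k; have := h k; rw [Finsupp.neg_apply]; linarith
theorem Pos_neg {x : B →₀ ℝ} : Pos (-x) ↔ Ng x := by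
  rw [← Ng_neg, neg_neg]
theorem Pos_gx (i : B) : Pos (gx i) := by
  classical
  intro k
  rw [gx, Finsupp.single_apply]
  split_ifs <;> norm_num

theorem gx_same (i : B) : (gx i : B →₀ ℝ) i = 1 := by simp [gx]
theorem gx_ne {i j : B} (h : i ≠ j) : (gx i : B →₀ ℝ) j = 0 := by
  classical
  rw [gx, Finsupp.single_apply, if_neg h]

theorem bf_sx (i j : B) (c : Bool) : bf M (gx (pr i j c)) (gx (pr i j (!c))) = -kap M i j := by
  rw [bf_gx_gx]
  cases c
  · simp [pr, kap_symm]
  · simp [pr]

/-- rank two computation -/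
theorem ga_alt_inv (i j : B) (l : ℕ) : ∀ c : Bool,
    ga cs (alt (sx cs i j) c l)⁻¹ (gx (pr i j (!c))) =
      ul (2 * kap M i j) (l + 1) • gx (pr i j (tw (!c) l)) +
        ul (2 * kap M i j) l • gx (pr i j (tw c l)) := by
  induction l using Nat.twoStepInduction with
  | zero => intro c; simp [ga_one, ul_one, ul_zero]
  | one =>
    intro c
    rw [alt_one, show 1 + 1 = 0 + 2 from rfl, ul_rec, zero_add, ul_one, ul_zero]
    have e : (sx cs i j c)⁻¹ = cs.simple (pr i j c) := cs.inv_simple _
    rw [e, ga_simple, bf_sx, tw_succ, tw_zero, Bool.not_not, tw_succ, tw_zero]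
    module
  | more l ih1 ih2 =>
    intro c
    have e1 : alt (sx cs i j) c (l + 2) = sx cs i j c * (sx cs i j (!c) * alt (sx cs i j) c l) := by
      rw [alt_succ, alt_succ, Bool.not_not]
    have e2 : alt (sx cs i j) (!c) (l + 1) = sx cs i j (!c) * alt (sx cs i j) c l := by
      rw [alt_succ, Bool.not_not]
    have hc : (sx cs i j c)⁻¹ = cs.simple (pr i j c) := cs.inv_simple _
    have hc' : (sx cs i j (!c))⁻¹ = cs.simple (pr i j (!c)) := cs.inv_simple _
    have h2 := ih2 (!c)
    rw [Bool.not_not] at h2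
    have h1 := ih1 c
    rw [e1, ← e2, mul_inv_rev, ga_mul, hc, ga_simple, bf_sx, ga_sub, ga_smul, h2]
    have h3 : ga cs (alt (sx cs i j) (!c) (l + 1))⁻¹ (gx (pr i j (!c))) =
        -ga cs (alt (sx cs i j) c l)⁻¹ (gx (pr i j (!c))) := by
      rw [e2, mul_inv_rev, ga_mul, hc', ga_simple, bf_self, ← ga_neg]
      congr 1
      module
    rw [h3, h1]
    have t1 : tw (!c) (l + 2) = tw (!c) l := by rw [tw_add, tw_two]
    have t2 : tw c (l + 2) = tw c l := by rw [tw_add, tw_two]
    have t3 : tw c (l + 1) = tw (!c) l := by rw [tw_succ, tw_not]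
    have t4 : tw (!c) (l + 1) = tw c l := by rw [tw_succ, tw_not, Bool.not_not]
    rw [t1, t2, t3, t4, ul_rec _ (l + 1), ul_rec _ l]
    module

/-- for `u` in a rank two parabolic with `i` not a left descent -/
theorem rank_two {i j : B} (hij : i ≠ j) {u : W} (hu : u ∈ WP cs {i, j})
    (hD : D cs u (cs.simple i) = 0) : ∃ a b : ℝ, (a = 0 ∨ 1 ≤ a) ∧ (b = 0 ∨ 1 ≤ b) ∧
      ga cs u⁻¹ (gx i) = a • gx i + b • gx j := by
  have key : ∀ c l, (M i j = 0 ∨ l < M i j) → (c = false ∨ l = 0) →
      ∃ a b : ℝ, (a = 0 ∨ 1 ≤ a) ∧ (b = 0 ∨ 1 ≤ b) ∧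
      ga cs (alt (sx cs i j) c l)⁻¹ (gx i) = a • gx i + b • gx j := by
    intro c l hl hc
    rcases Nat.eq_zero_or_pos l with rfl | hpos
    · exact ⟨1, 0, Or.inr le_rfl, Or.inl rfl, by simp [ga_one]⟩
    have hc : c = false := by rcases hc with h | h <;> [exact h; omega]
    subst hc
    have h1 := ga_alt_inv cs i j l false
    have e : pr i j (!false) = i := by simp [pr]
    rw [e] at h1
    have hM : M i j = 0 ∨ l + 1 ≤ M i j := by omega
    have n1 : ul (2 * kap M i j) (l + 1) = 0 ∨ 1 ≤ ul (2 * kap M i j) (l + 1) := by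
      by_cases h : M i j = 0 ∨ l + 1 < M i j
      · exact Or.inr (ul_ge_one M hij (by omega) h)
      · left
        have hl' : l + 1 = M i j := by omega
        have hm2 : (2 : ℝ) ≤ M i j := by
          have : 2 ≤ M i j := by omega
          exact_mod_cast this
        have hpi := pi_pos
        have hθ0 : 0 < π / (M i j : ℝ) := by positivity
        have hsin : 0 < sin (π / (M i j : ℝ)) := by
          apply sin_pos_of_pos_of_lt_pi hθ0
          rw [div_lt_iff₀ (by linarith)]
          nlinarith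
        have h3 := ul_sin (π / (M i j : ℝ)) (l + 1)
        have h4 : ((l + 1 : ℕ) : ℝ) * (π / (M i j : ℝ)) = π := by
          rw [hl']; field_simp
        rw [h4, sin_pi] at h3
        rcases mul_eq_zero.mp h3 with h5 | h5
        · exact h5
        · exact absurd h5 hsin.ne'
    have n2 : ul (2 * kap M i j) l = 0 ∨ 1 ≤ ul (2 * kap M i j) l :=
      Or.inr (ul_ge_one M hij hpos hl)
    have e1 : pr i j true = i := rfl
    have e2 : pr i j false = j := rfl
    rw [h1]
    rw [Bool.not_false, tw_eq, tw_eq]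
    rcases Nat.mod_two_eq_zero_or_one l with hl0 | hl0
    · refine ⟨_, _, n1, n2, ?_⟩
      rw [if_pos hl0, if_pos hl0, e1, e2]
    · refine ⟨_, _, n2, n1, ?_⟩
      rw [if_neg (by omega), if_neg (by omega), Bool.not_true, Bool.not_false, e1, e2, add_comm]
  rcases Nat.eq_zero_or_pos (M i j) with h0 | hpos
  · obtain ⟨c, l, rfl⟩ := exists_alt cs i j hu
    apply key c l (Or.inl h0)
    rcases Nat.eq_zero_or_pos l with hl | hl
    · exact Or.inr hl
    · left
      cases c
      · rfl
      · exfalso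
        have := D_alt_self cs hij true hl (Or.inl h0)
        change D cs (alt (sx cs i j) true l) (cs.simple i) = 1 at this
        rw [hD] at this
        simp at this
  · obtain ⟨c, l, hl, rfl⟩ := exists_alt_le cs (by omega) hu
    have hlt : l < M i j := by
      by_contra hge
      have hl' : l = M i j := by omega
      have h1 : D cs (alt (sx cs i j) c l) (cs.simple i) = 1 := by
        rw [hl']
        cases c
        · rw [alt_sx_braid]
          exact D_alt_self cs hij true hpos (Or.inr le_rfl)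
        · exact D_alt_self cs hij true hpos (Or.inr le_rfl)
      rw [hD] at h1
      simp at h1
    apply key c l (Or.inr hlt)
    rcases Nat.eq_zero_or_pos l with hl | hl
    · exact Or.inr hl
    · left
      cases c
      · rfl
      · exfalso
        have := D_alt_self cs hij true hl (Or.inr hlt.le)
        change D cs (alt (sx cs i j) true l) (cs.simple i) = 1 at this
        rw [hD] at this
        simp at this

/-- root positivity -/
theorem root_pos (y : W) {i : B} (hD : D cs y (cs.simple i) = 0) : Pos (ga cs y⁻¹ (gx i)) := by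
  induction hn : cs.length y using Nat.strong_induction_on generalizing y i with
  | _ n ih =>
    by_cases h1 : y = 1
    · subst h1
      rw [inv_one, ga_one]; exact Pos_gx i
    have htop : y ∈ WP cs Set.univ := by
      have : WP cs Set.univ = ⊤ := by
        unfold WP; rw [Set.image_univ]; exact cs.subgroup_closure_range_simple
      rw [this]; exact Subgroup.mem_top _
    obtain ⟨j, _, hDj⟩ := exists_desc cs htop h1
    have hij : i ≠ j := by
      rintro rfl
      rw [hD] at hDj; simp at hDj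
    obtain ⟨u, hu, x, hx, rfl⟩ := exists_decomp cs {i, j} y
    have hDi : D cs u (cs.simple i) = 0 := by
      rw [← D_mul_isMin' cs hu hx (by simp)]; exact hD
    have hu1 : u ≠ 1 := by
      rintro rfl
      have := hx j (by simp)
      rw [one_mul] at hDj
      rw [this] at hDj
      simp at hDj
    have hlt := (length_le_of_isMin cs hx hu).2 hu1
    obtain ⟨a, b, ha, hb, he⟩ := rank_two cs hij hu hDi
    have ha0 : 0 ≤ a := by rcases ha with h | h <;> linarith
    have hb0 : 0 ≤ b := by rcases hb with h | h <;> linarith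
    rw [mul_inv_rev, ga_mul, he, ga_add, ga_smul, ga_smul]
    exact (Pos.smul ha0 (ih _ (by rw [← hn]; exact hlt) x (hx i (by simp)) rfl)).add
      (Pos.smul hb0 (ih _ (by rw [← hn]; exact hlt) x (hx j (by simp)) rfl))

theorem root_neg (y : W) {i : B} (hD : D cs y (cs.simple i) = 1) : Ng (ga cs y⁻¹ (gx i)) := by
  have h1 : D cs (cs.simple i * y) (cs.simple i) = 0 := by
    rw [D_simple_mul, hD]; rfl
  have h2 := root_pos cs _ h1
  rw [mul_inv_rev, cs.inv_simple, ga_mul, ga_simple, bf_self] at h2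
  have e : gx i - (2 * (1 : ℝ)) • gx i = -gx i := by module
  rw [e, ga_neg, Pos_neg] at h2
  exact h2

/-- roots -/
def IsRt (γ : B →₀ ℝ) : Prop := ∃ w i, γ = ga cs w (gx i)

theorem IsRt_gx (i : B) : IsRt cs (gx i) := ⟨1, i, (ga_one cs _).symm⟩

theorem IsRt.ga {γ : B →₀ ℝ} (h : IsRt cs γ) (w : W) : IsRt cs (ga cs w γ) := by
  obtain ⟨v, i, rfl⟩ := h
  exact ⟨w * v, i, (ga_mul cs _ _ _).symm⟩

theorem IsRt.neg {γ : B →₀ ℝ} (h : IsRt cs γ) : IsRt cs (-γ) := by
  obtain ⟨v, i, rfl⟩ := h
  refine ⟨v * cs.simple i, i, ?_⟩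
  rw [ga_mul, ga_simple, bf_self, ← ga_neg]
  congr 1
  module

theorem IsRt.norm {γ : B →₀ ℝ} (h : IsRt cs γ) : bf M γ γ = 1 := by
  obtain ⟨v, i, rfl⟩ := h
  rw [bf_ga, bf_self]

theorem IsRt.ne_zero {γ : B →₀ ℝ} (h : IsRt cs γ) : γ ≠ 0 := by
  rintro rfl
  have := h.norm
  simp at this

theorem IsRt.pos_or_neg {γ : B →₀ ℝ} (h : IsRt cs γ) : Pos γ ∨ Ng γ := by
  obtain ⟨v, i, rfl⟩ := h
  have h1 := root_pos cs v⁻¹ (i := i)
  have h2 := root_neg cs v⁻¹ (i := i)
  rw [inv_inv] at h1 h2
  rcases zmod2_cases (D cs v⁻¹ (cs.simple i)) with h | h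
  · exact Or.inl (h1 h)
  · exact Or.inr (h2 h)

theorem not_pos_ng {γ : B →₀ ℝ} (h : γ ≠ 0) (h1 : Pos γ) (h2 : Ng γ) : False := by
  apply h
  ext k
  exact le_antisymm (h2 k) (h1 k)

theorem IsRt.not_ng {γ : B →₀ ℝ} (h : IsRt cs γ) (h1 : Pos γ) : ¬ Ng γ :=
  fun h2 => not_pos_ng h.ne_zero h1 h2

theorem IsRt.pos_of_not_ng {γ : B →₀ ℝ} (h : IsRt cs γ) (h1 : ¬ Ng γ) : Pos γ :=
  h.pos_or_neg.resolve_right h1

theorem IsRt.pos_of_coord {γ : B →₀ ℝ} (h : IsRt cs γ) {k : B} (h1 : 0 < γ k) : Pos γ := by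
  apply h.pos_of_not_ng
  intro h2
  exact absurd (h2 k) (not_le.mpr h1)

theorem D_inv_of_pos {v : W} {i : B} (h : Pos (ga cs v (gx i))) :
    D cs v⁻¹ (cs.simple i) = 0 := by
  rcases zmod2_cases (D cs v⁻¹ (cs.simple i)) with h1 | h1
  · exact h1
  · have h2 := root_neg cs _ h1
    rw [inv_inv] at h2
    exact absurd h2 (((IsRt_gx cs i).ga cs v).not_ng cs h)

theorem D_inv_of_ng {v : W} {i : B} (h : Ng (ga cs v (gx i))) :
    D cs v⁻¹ (cs.simple i) = 1 := by
  rcases zmod2_cases (D cs v⁻¹ (cs.simple i)) with h1 | h1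
  · have h2 := root_pos cs _ h1
    rw [inv_inv] at h2
    exact absurd h (((IsRt_gx cs i).ga cs v).not_ng cs h2)
  · exact h1

theorem ga_parab {K : Set B} {u : W} (hu : u ∈ WP cs K) (z : B →₀ ℝ) {k : B} (hk : k ∉ K) :
    ga cs u z k = z k := by
  unfold WP at hu
  induction hu using Subgroup.closure_induction_left with
  | one => rw [ga_one]
  | mul_left x hx y hy ih =>
    obtain ⟨i, hi, rfl⟩ := hx
    rw [ga_mul, ga_simple, Finsupp.sub_apply, Finsupp.smul_apply,
      gx_ne (fun h => hk (by rw [← h]; exact hi)), smul_zero, sub_zero, ih]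
  | inv_mul_cancel x hx y hy ih =>
    obtain ⟨i, hi, rfl⟩ := hx
    rw [ga_mul, cs.inv_simple, ga_simple, Finsupp.sub_apply, Finsupp.smul_apply,
      gx_ne (fun h => hk (by rw [← h]; exact hi)), smul_zero, sub_zero, ih]

theorem pos_parab {K : Set B} {u : W} (hu : u ∈ WP cs K) {σ : B →₀ ℝ} (hσ : IsRt cs σ) {k : B}
    (hk : k ∉ K) (h : 0 < σ k) : Pos (ga cs u σ) :=
  (hσ.ga cs u).pos_of_coord cs (k := k) (by rw [ga_parab cs hu _ hk]; exact h)

/-- crossing one panel -/
theorem cross {σ : B →₀ ℝ} (hσ : IsRt cs σ) {r : B} (h1 : Pos σ)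
    (h2 : Ng (ga cs (cs.simple r) σ)) : σ = gx r := by
  have h3 : ∀ k, k ≠ r → σ k = 0 := by
    intro k hk
    have := h2 k
    rw [ga_simple, Finsupp.sub_apply, Finsupp.smul_apply, gx_ne hk.symm, smul_zero,
      sub_zero] at this
    exact le_antisymm this (h1 k)
  have h4 : σ = (σ r) • gx r := by
    ext k
    by_cases hk : k = r
    · subst hk; rw [Finsupp.smul_apply, gx_same, smul_eq_mul, mul_one]
    · rw [h3 k hk, Finsupp.smul_apply, gx_ne (Ne.symm hk), smul_zero]
  have h5 := hσ.norm
  rw [h4, map_smul, map_smul, LinearMap.smul_apply, bf_self, smul_eq_mul, smul_eq_mul,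
    mul_one] at h5
  have h6 := h1 r
  have h7 : σ r = 1 := by nlinarith
  rw [h4, h7, one_smul]

/-- roots of parabolic subgroups -/
theorem parab_root {K : Set B} {u : W} (hu : u ∈ WP cs K) {σ : B →₀ ℝ} (hσ : IsRt cs σ)
    (h1 : Pos σ) (h2 : Ng (ga cs u σ)) : ∃ z ∈ WP cs K, ∃ b ∈ K, ga cs z σ = gx b := by
  unfold WP at hu
  induction hu using Subgroup.closure_induction_left with
  | one => rw [ga_one] at h2; exact absurd h2 (hσ.not_ng cs h1)
  | mul_left x hx y hy ih =>
    obtain ⟨i, hi, rfl⟩ := hx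
    rcases (hσ.ga cs y).pos_or_neg with h | h
    · rw [ga_mul] at h2
      exact ⟨y, hy, i, hi, cross cs (hσ.ga cs y) h h2⟩
    · exact ih h
  | inv_mul_cancel x hx y hy ih =>
    obtain ⟨i, hi, rfl⟩ := hx
    rw [cs.inv_simple] at h2
    rcases (hσ.ga cs y).pos_or_neg with h | h
    · rw [ga_mul] at h2
      exact ⟨y, hy, i, hi, cross cs (hσ.ga cs y) h h2⟩
    · exact ih h

theorem parab_root_supp {K : Set B} {u : W} (hu : u ∈ WP cs K) {σ : B →₀ ℝ} (hσ : IsRt cs σ)
    (h1 : Pos σ) (h2 : Ng (ga cs u σ)) {k : B} (hk : k ∉ K) : σ k = 0 := by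
  obtain ⟨z, hz, b, hb, he⟩ := parab_root cs hu hσ h1 h2
  have : σ k = ga cs z σ k := (ga_parab cs hz σ hk).symm
  rw [this, he, gx_ne (fun h => hk (by rw [← h]; exact hb))]

/-- the longest element -/
theorem exists_long {s t : B} (hst : s ≠ t) (hM : M s t ≠ 0) : ∃ w0 ∈ WP cs {s, t},
    Ng (ga cs w0 (gx s)) ∧ Ng (ga cs w0 (gx t)) := by
  refine ⟨alt (sx cs s t) true (M s t), alt_mem cs s t _ _, ?_, ?_⟩
  · have h1 : D cs (alt (sx cs s t) true (M s t)) (cs.simple s) = 1 :=
      D_alt_self cs hst true (by omega) (Or.inr le_rfl)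
    have h2 := root_neg cs _ h1
    have h3 : (alt (sx cs s t) true (M s t))⁻¹ = alt (sx cs s t) true (M s t) := by
      have h := alt_mul_alt (sx cs s t) (sx_mul_self cs s t) true (M s t)
      have h2 : alt (sx cs s t) (tw (!true) (M s t)) (M s t) = alt (sx cs s t) true (M s t) := by
        cases tw (!true) (M s t)
        · exact (alt_sx_braid cs s t true).symm
        · rfl
      rw [h2] at h
      exact (eq_inv_of_mul_eq_one_left h).symm
    rwa [h3] at h2
  · have h1 : D cs (alt (sx cs s t) true (M s t)) (cs.simple t) = 1 := by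
      rw [alt_sx_braid]
      exact D_alt_self cs hst false (by omega) (Or.inr le_rfl)
    have h2 := root_neg cs _ h1
    have h3 : (alt (sx cs s t) true (M s t))⁻¹ = alt (sx cs s t) true (M s t) := by
      have h := alt_mul_alt (sx cs s t) (sx_mul_self cs s t) true (M s t)
      have h2 : alt (sx cs s t) (tw (!true) (M s t)) (M s t) = alt (sx cs s t) true (M s t) := by
        cases tw (!true) (M s t)
        · exact (alt_sx_braid cs s t true).symm
        · rfl
      rw [h2] at h
      exact (eq_inv_of_mul_eq_one_left h).symm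
    rwa [h3] at h2

/-- `w` lies beyond the wall of `β` -/
def Bey (w : W) (β : B →₀ ℝ) : Prop := Ng (ga cs w β)

/-- `φ` dominates `β` -/
def Dom (β φ : B →₀ ℝ) : Prop := ∀ w, Bey cs w φ → Bey cs w β

theorem Dom.trans {α β γ : B →₀ ℝ} (h1 : Dom cs α β) (h2 : Dom cs β γ) : Dom cs α γ :=
  fun w hw => h1 w (h2 w hw)

theorem Dom.refl (α : B →₀ ℝ) : Dom cs α α := fun _ h => h

/-- a finite rank two residue does not cross two nested walls -/
theorem finite_res {s t : B} (hst : s ≠ t) (hM : M s t ≠ 0) {σ τ : B →₀ ℝ} (hσ : IsRt cs σ)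
    (hτ : IsRt cs τ) (h1 : Pos σ) (h2 : Pos τ) (hne : σ ≠ τ) (hd : Dom cs σ τ) {u : W}
    (hu : u ∈ WP cs {s, t}) (h3 : Ng (ga cs u τ)) : False := by
  obtain ⟨w0, hw0, l1, l2⟩ := exists_long cs hst hM
  have hw : ∀ ρ : B →₀ ℝ, IsRt cs ρ → Pos ρ → ∀ v ∈ WP cs {s, t}, Ng (ga cs v ρ) →
      Ng (ga cs w0 ρ) := by
    intro ρ hρ hp v hv hn
    have e : ρ = ρ s • gx s + ρ t • gx t := by
      ext k
      by_cases hks : k = s
      · subst hks
        rw [Finsupp.add_apply, Finsupp.smul_apply, Finsupp.smul_apply, gx_same, gx_ne hst.symm]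
        simp
      · by_cases hkt : k = t
        · subst hkt
          rw [Finsupp.add_apply, Finsupp.smul_apply, Finsupp.smul_apply, gx_same, gx_ne hst]
          simp
        · rw [parab_root_supp cs hv hρ hp hn (k := k) (by simp [hks, hkt]), Finsupp.add_apply,
            Finsupp.smul_apply, Finsupp.smul_apply, gx_ne (Ne.symm hks), gx_ne (Ne.symm hkt)]
          simp
    rw [e, ga_add, ga_smul, ga_smul]
    exact (Ng.smul (hp s) l1).add (Ng.smul (hp t) l2)
  obtain ⟨z, hz, b, hb, he⟩ := parab_root cs hu hτ h2 h3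
  rcases (hσ.ga cs z).pos_or_neg with h | h
  · have h4 : Bey cs (cs.simple b * z) τ := by
      unfold Bey
      rw [ga_mul, he, ga_simple, bf_self]
      have e : gx b - (2 * (1 : ℝ)) • gx b = -gx b := by module
      rw [e, Ng_neg]; exact Pos_gx b
    have h5 := hd _ h4
    unfold Bey at h5
    rw [ga_mul] at h5
    have h6 := cross cs (hσ.ga cs z) h h5
    apply hne
    rw [← ga_inv cs z σ, h6, ← he, ga_inv]
  · have h4 : Bey cs (w0 * z) τ := by
      unfold Bey
      rw [ga_mul, he]
      rcases hb with rfl | hb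
      · exact l1
      · rw [Set.mem_singleton_iff] at hb; subst hb; exact l2
    have h5 := hd _ h4
    unfold Bey at h5
    rw [ga_mul] at h5
    have hρ : IsRt cs (-(ga cs z σ)) := (hσ.ga cs z).neg cs
    have hp : Pos (-(ga cs z σ)) := Pos_neg.mpr h
    have h6 := hw _ hρ hp z⁻¹ (Subgroup.inv_mem _ hz) (by
      rw [ga_neg, ga_inv, Ng_neg]; exact h1)
    rw [ga_neg, Ng_neg] at h6
    exact ((hσ.ga cs z).ga cs w0).not_ng cs h6 h5

/-- two positive roots with product at most `-1` are not both negated -/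
theorem not_both (w : W) : ∀ α β : B →₀ ℝ, IsRt cs α → IsRt cs β → Pos α → Pos β →
    bf M α β ≤ -1 → Ng (ga cs w α) → Ng (ga cs w β) → False := by
  induction hn : cs.length w using Nat.strong_induction_on generalizing w with
  | _ n ih =>
    intro α β hα hβ pα pβ hb nα nβ
    obtain ⟨v, i, rfl⟩ := hα
    set r := v * cs.simple i * v⁻¹ with hr
    set α := ga cs v (gx i) with hαdef
    have hrα : ∀ z, ga cs r z = z - (2 * bf M α z) • α := by
      intro z
      rw [hr, ga_mul, ga_mul, ga_simple, ga_sub, ga_smul, ga_inv', ← hαdef]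
      congr 3
      rw [hαdef, ← bf_ga cs v, ga_inv']
    have hrefl : cs.IsReflection r := by
      exact (cs.isReflection_simple i).conj v
    have hlen : cs.length (w * r) < cs.length w := by
      have d1 := D_inv_of_pos cs pα
      have n1 : Ng (ga cs (w * v) (gx i)) := by rw [ga_mul]; exact nα
      have d2 := D_inv_of_ng cs n1
      rw [mul_inv_rev, D_mul, d1, zero_add] at d2
      have d3 := (D_eq_one_iff cs w⁻¹ (by simpa using hrefl)).mp (by simpa using d2)
      have e1 : r * w⁻¹ = (w * r)⁻¹ := by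
        rw [mul_inv_rev, hrefl.inv]
      rw [e1, cs.length_inv, cs.length_inv] at d3
      exact d3
    have hrr : r * r = 1 := hrefl.mul_self
    set β' := ga cs r β with hβ'
    have eβ' : β' = β + (-(2 * bf M α β)) • α := by
      rw [hβ', hrα]; module
    have hc : 0 ≤ -(2 * bf M α β) := by linarith
    refine ih _ (by rw [← hn]; exact hlen) (w * r) rfl β' β (hβ.ga cs r) hβ ?_ pβ ?_ ?_ ?_
    · rw [eβ']; exact pβ.add (Pos.smul hc pα)
    · rw [eβ', map_add, LinearMap.add_apply, map_smul, LinearMap.smul_apply, hβ.norm,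
        smul_eq_mul]
      nlinarith
    · rw [hβ', ← ga_mul, mul_assoc, hrr, mul_one]; exact nβ
    · rw [ga_mul, ← hβ', eβ', ga_add, ga_smul]
      exact nβ.add (Ng.smul hc nα)

/-- nested walls from the inner product at `x` -/
theorem dom_of_bf {x : W} {β φ : B →₀ ℝ} (hβ : IsRt cs β) (hφ : IsRt cs φ)
    (h1 : Ng (ga cs x β)) (h2 : Pos (ga cs x φ)) (h3 : 1 ≤ bf M (ga cs x β) (ga cs x φ)) :
    Dom cs β φ := by
  intro w hw
  unfold Bey at hw ⊢
  rcases (hβ.ga cs w).pos_or_neg with h | h
  · exfalso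
    apply not_both cs (w * x⁻¹) (-(ga cs x β)) (ga cs x φ) ((hβ.ga cs x).neg cs) (hφ.ga cs x)
      (Pos_neg.mpr h1) h2
    · rw [map_neg, LinearMap.neg_apply]; linarith
    · rw [ga_neg, ga_mul, ga_inv, Ng_neg]; exact h
    · rw [ga_mul, ga_inv]; exact hw
  · exact h

/-- fixing a simple root -/
theorem fix_root {U : Set B} {t : B} (ht : t ∉ U) (hU : ∀ k ∈ U, bf M (gx k) (gx t) < 0) {u : W}
    (hu : u ∈ WP cs U) (h : ga cs u (gx t) = gx t) : u = 1 := by
  by_contra hne
  have hne' : u⁻¹ ≠ 1 := by simpa using hne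
  obtain ⟨k, hk, hD⟩ := exists_desc cs (Subgroup.inv_mem _ hu) hne'
  set u1 := u * cs.simple k with hu1
  have hu1m : u1 ∈ WP cs U := Subgroup.mul_mem _ hu (simple_mem_WP cs hk)
  have e0 : u = u1 * cs.simple k := by rw [hu1, mul_assoc, cs.simple_mul_simple_self, mul_one]
  have hD1 : D cs u1⁻¹ (cs.simple k) = 0 := by
    rw [hu1, mul_inv_rev, cs.inv_simple, D_simple_mul, hD]; rfl
  have p1 : Pos (ga cs u1 (gx k)) := by
    have := root_pos cs _ hD1
    rwa [inv_inv] at this
  have p2 : Pos (ga cs u1 (gx t)) :=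
    pos_parab cs hu1m (IsRt_gx cs t) ht (by rw [gx_same]; norm_num)
  have hc := hU k hk
  have e1 : ga cs u (gx t) = ga cs u1 (gx t) + (-(2 * bf M (gx k) (gx t))) • ga cs u1 (gx k) := by
    rw [e0, ga_mul, ga_simple, ga_sub, ga_smul]; module
  rw [h] at e1
  apply ((IsRt_gx cs k).ga cs u1).ne_zero
  ext l
  have e2 := DFunLike.congr_fun e1 l
  rw [Finsupp.add_apply, Finsupp.smul_apply, smul_eq_mul] at e2
  have q1 := p1 l
  have q2 := p2 l
  have hcp : 0 < -(2 * bf M (gx k) (gx t)) := by linarith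
  rw [Finsupp.zero_apply]
  by_cases hl : l = t
  · subst hl
    rw [ga_parab cs hu1m _ ht] at e2
    nlinarith
  · rw [gx_ne (Ne.symm hl)] at e2
    nlinarith

/-- gate lemma -/
theorem gate {U : Set B} {s t : B} (hst : s ≠ t) (ht : t ∉ U)
    (hU : ∀ k ∈ U, bf M (gx k) (gx t) < 0) (u : W) : ∀ a b : ℝ, 0 < b →
    IsRt cs (a • gx s + b • gx t) → u ∈ WP cs U →
    (∀ k, k ≠ s → k ≠ t → ga cs u (a • gx s + b • gx t) k = 0) → u ∈ WP cs (U ∩ {s}) := by
  induction hn : cs.length u using Nat.strong_induction_on generalizing u with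
  | _ n ih =>
    intro a b hb hσ hu hsupp
    have ht0 : (a • gx s + b • gx t : B →₀ ℝ) t = b := by
      rw [Finsupp.add_apply, Finsupp.smul_apply, Finsupp.smul_apply, gx_ne hst, gx_same]; simp
    have hs0 : (a • gx s + b • gx t : B →₀ ℝ) s = a := by
      rw [Finsupp.add_apply, Finsupp.smul_apply, Finsupp.smul_apply, gx_ne hst.symm, gx_same]
      simp
    have ha : 0 ≤ a := by
      have := hσ.pos_of_coord cs (k := t) (by rw [ht0]; exact hb)
      rw [← hs0]; exact this s
    -- right descent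
    rcases zmod2_cases (D cs u⁻¹ (cs.simple s)) with hr | hr
    · rcases zmod2_cases (D cs u (cs.simple s)) with hl | hl
      · -- no descents
        have p1 : Pos (ga cs u (gx s)) := by
          have := root_pos cs _ hr
          rwa [inv_inv] at this
        have p2 : Pos (ga cs u⁻¹ (gx s)) := root_pos cs _ hl
        have hu' := Subgroup.inv_mem _ hu
        have p3 : Pos (ga cs u (gx t)) :=
          pos_parab cs hu (IsRt_gx cs t) ht (by rw [gx_same]; norm_num)
        have p4 : Pos (ga cs u⁻¹ (gx t)) :=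
          pos_parab cs hu' (IsRt_gx cs t) ht (by rw [gx_same]; norm_num)
        have t1 : ga cs u (gx t) t = 1 := by rw [ga_parab cs hu _ ht, gx_same]
        have t2 : ga cs u⁻¹ (gx t) t = 1 := by rw [ga_parab cs hu' _ ht, gx_same]
        set c := ga cs u (gx t) s with hcdef
        have hc0 : 0 ≤ c := p3 s
        have e1 : ga cs u (gx t) = c • gx s + gx t := by
          ext k
          rw [Finsupp.add_apply, Finsupp.smul_apply, smul_eq_mul]
          by_cases hks : k = s
          · subst hks; rw [gx_same, gx_ne hst.symm, ← hcdef]; ring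
          · by_cases hkt : k = t
            · subst hkt; rw [gx_ne hst, gx_same, t1]; ring
            · rw [gx_ne (Ne.symm hks), gx_ne (Ne.symm hkt)]
              have := hsupp k hks hkt
              rw [ga_add, ga_smul, ga_smul, Finsupp.add_apply, Finsupp.smul_apply,
                Finsupp.smul_apply, smul_eq_mul, smul_eq_mul] at this
              have q1 := mul_nonneg ha (p1 k)
              have q2 := p3 k
              nlinarith
        have e2 := congrArg (ga cs u⁻¹) e1
        rw [ga_inv, ga_add, ga_smul] at e2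
        have hc : c = 0 := by
          by_contra hcne
          have hcp : 0 < c := lt_of_le_of_ne hc0 (Ne.symm hcne)
          apply ((IsRt_gx cs s).ga cs u⁻¹).ne_zero
          ext k
          have e3 := DFunLike.congr_fun e2 k
          rw [Finsupp.add_apply, Finsupp.smul_apply, smul_eq_mul] at e3
          have q1 := p2 k
          have q2 := p4 k
          rw [Finsupp.zero_apply]
          by_cases hkt : k = t
          · subst hkt
            rw [gx_same, t2] at e3
            nlinarith
          · rw [gx_ne (Ne.symm hkt)] at e3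
            nlinarith
        rw [hc, zero_smul, zero_add] at e1
        rw [fix_root cs ht hU hu e1]
        exact Subgroup.one_mem _
      · -- left descent
        have hsU : s ∈ U := desc_mem cs hu (by rw [hl]; exact one_ne_zero)
        have hlt := length_lt_of_D cs hl
        have h1 := ih _ (by rw [← hn]; exact hlt) (cs.simple s * u) rfl a b hb hσ
          (Subgroup.mul_mem _ (simple_mem_WP cs hsU) hu) (by
            intro k hks hkt
            rw [ga_mul, ga_simple, Finsupp.sub_apply, Finsupp.smul_apply, hsupp k hks hkt,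
              gx_ne (Ne.symm hks)]
            simp)
        have h2 : u = cs.simple s * (cs.simple s * u) := by simp
        rw [h2]
        exact Subgroup.mul_mem _ (simple_mem_WP cs ⟨hsU, rfl⟩) h1
    · have hsU : s ∈ U := desc_mem cs (Subgroup.inv_mem _ hu) (by rw [hr]; exact one_ne_zero)
      have hlt : cs.length (u * cs.simple s) < cs.length u := by
        have := length_lt_of_D cs hr
        rw [← cs.length_inv (u * cs.simple s), mul_inv_rev, cs.inv_simple]
        rwa [cs.length_inv u] at this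
      have e1 : ga cs (cs.simple s) (a • gx s + b • gx t) =
          (-a + 2 * kap M s t * b) • gx s + b • gx t := by
        rw [ga_simple, map_add, map_smul, map_smul, bf_self, bf_gx_gx]
        simp only [smul_eq_mul]
        module
      have h1 := ih _ (by rw [← hn]; exact hlt) (u * cs.simple s) rfl
        (-a + 2 * kap M s t * b) b hb (by rw [← e1]; exact hσ.ga cs _)
        (Subgroup.mul_mem _ hu (simple_mem_WP cs hsU)) (by
          intro k hks hkt
          rw [← e1, ← ga_mul, mul_assoc, cs.simple_mul_simple_self, mul_one]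
          exact hsupp k hks hkt)
      have h2 : u = (u * cs.simple s) * cs.simple s := by simp [mul_assoc]
      rw [h2]
      exact Subgroup.mul_mem _ h1 (simple_mem_WP cs ⟨hsU, rfl⟩)

end root

section numeric

variable {B : Type*} {M : CoxeterMatrix B}

theorem kap_ge {i j : B} (h : M i j = 0 ∨ 5 ≤ M i j) : 4 / 5 ≤ kap M i j := by
  unfold kap
  rcases h with h | h
  · rw [h]; simp; norm_num
  · have h1 : cos (π / 5) ≤ cos (π / (M i j : ℝ)) := by
      have hm : (5 : ℝ) ≤ M i j := by exact_mod_cast h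
      have hpi := pi_pos
      apply cos_le_cos_of_nonneg_of_le_pi
      · positivity
      · rw [div_le_iff₀ (by norm_num)]; linarith
      · apply div_le_div_of_nonneg_left hpi.le (by norm_num) hm
    refine le_trans ?_ h1
    rw [cos_pi_div_five]
    have : (2.2 : ℝ) ≤ √5 := by
      rw [show (2.2 : ℝ) = √(2.2 ^ 2) from by rw [sqrt_sq (by norm_num)]]
      exact sqrt_le_sqrt (by norm_num)
    linarith

theorem kap_le (i j : B) : kap M i j ≤ 1 := cos_le_one _

theorem kap_inf {i j : B} (h : M i j = 0) : kap M i j = 1 := by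
  unfold kap; rw [h]; simp

end numeric

end Pool.Agent.HeckeCox
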