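import Mathlib
import Pool.Agent.Lib_helper18.Hecke.Root

set_option autoImplicit false

/-! Nodes and stretches: the combinatorics of nested walls. -/

namespace Pool.Agent.HeckeCox

open CoxeterSystem

section node

variable {B W : Type*} [Group W] {M : CoxeterMatrix B} (cs : CoxeterSystem M W)

/-- all elements of `W_J` are on the near side -/
def NearJ (J : Set B) (β : B →₀ ℝ) : Prop := ∀ w ∈ WP cs J, Pos (ga cs w β)

theorem NearJ.of_dom {J : Set B} {β φ : B →₀ ℝ} (hβ : IsRt cs β) (hφ : IsRt cs φ)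
    (h : NearJ cs J β) (hd : Dom cs β φ) : NearJ cs J φ := by
  intro w hw
  apply (hφ.ga cs w).pos_of_not_ng
  intro hn
  exact (hβ.ga cs w).not_ng cs (h w hw) (hd w hn)

/-- admissible relative roots -/
def Adm (J : Set B) (x : W) (S0 : Finset (B →₀ ℝ)) (σ : B →₀ ℝ) : Prop :=
  NearJ cs J (ga cs x⁻¹ σ) ∧ ∀ β ∈ S0, Dom cs β (ga cs x⁻¹ σ)

/-- nodes -/
structure Node (P J : Set B) (x : W) (U : Set B) (S0 : Finset (B →₀ ℝ)) (X : Set W)
    (E : Set B) : Prop where
  hU : U ⊆ P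
  hE : E ⊆ U
  rt : ∀ β ∈ S0, IsRt cs β
  bey : ∀ β ∈ S0, Ng (ga cs x β)
  supS : ∀ β ∈ S0, ∀ K : Set B, ¬ U ⊆ K → ∀ u ∈ WP cs K, Ng (ga cs u (ga cs x β))
  near : ∀ β ∈ S0, NearJ cs J β
  loc : ∀ v ∈ X, (∀ β ∈ S0, Ng (ga cs v β)) → ∃ u ∈ WP cs U, v = u * x
  dE : ∀ k ∈ E, D cs x (cs.simple k) = 0
  a1 : ∀ r ∈ P, r ∉ U → Adm cs J x S0 (gx r)
  a2 : ∀ r ∈ P, r ∉ U → ∀ k ∈ P, k ≠ r → Adm cs J x S0 (ga cs (cs.simple r) (gx k))
  a3 : ∀ a ∈ P, a ∉ U → ∀ b ∈ P, b ≠ a →
    Adm cs J x S0 (ga cs (cs.simple a) (ga cs (cs.simple b) (gx a)))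
  a4 : ∀ s ∈ P, ∀ t ∈ P, s ≠ t → t ∉ U → (s ∈ U → s ∈ E) → ∀ σ : B →₀ ℝ, IsRt cs σ → Pos σ →
    1 ≤ σ t → (∀ k, k ≠ s → k ≠ t → σ k = 0) → (s ∉ U → 1 ≤ σ s) → Adm cs J x S0 σ

/-- the labels in `P` -/
def HL (M : CoxeterMatrix B) (P : Set B) : Prop :=
  ∀ s ∈ P, ∀ t ∈ P, s ≠ t → M s t = 0 ∨ 5 ≤ M s t

variable {P J : Set B}

theorem kpos (hP : HL M P) {s t : B} (hs : s ∈ P) (ht : t ∈ P) (h : s ≠ t) :
    4 / 5 ≤ kap M s t := kap_ge (hP s hs t ht h)

theorem two_supp {s t : B} (hst : s ≠ t) {σ : B →₀ ℝ} (h : ∀ k, k ≠ s → k ≠ t → σ k = 0) :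
    σ = σ s • gx s + σ t • gx t := by
  ext k
  rw [Finsupp.add_apply, Finsupp.smul_apply, Finsupp.smul_apply, smul_eq_mul, smul_eq_mul]
  by_cases hks : k = s
  · subst hks; rw [gx_same, gx_ne hst.symm]; ring
  · by_cases hkt : k = t
    · subst hkt; rw [gx_same, gx_ne hst]; ring
    · rw [h k hks hkt, gx_ne (Ne.symm hks), gx_ne (Ne.symm hkt)]; ring

/-- simple reflection of a simple root -/
theorem ga_sg (r k : B) : ga cs (cs.simple r) (gx k) = gx k + (2 * kap M r k) • gx r := by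
  rw [ga_simple, bf_gx_gx]; module

theorem ga_sg_self (r : B) : ga cs (cs.simple r) (gx r) = -gx r := by
  rw [ga_simple, bf_self]; module

theorem ga_ssg (a b : B) : ga cs (cs.simple a) (ga cs (cs.simple b) (gx a)) =
    (4 * kap M a b ^ 2 - 1) • gx a + (2 * kap M a b) • gx b := by
  rw [ga_sg, ga_add, ga_smul, ga_sg_self, ga_sg, kap_symm b a]
  module

/-- initial node -/
theorem node_init (hP : HL M P) (hJ : J ⊆ P) {x : W} (hx : x ∈ WP cs J) {E : Set B} (hE : E ⊆ J)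
    (hD : ∀ k ∈ E, D cs x (cs.simple k) = 0) :
    Node cs P J x J ∅ (WP cs J : Set W) E := by
  have key : ∀ σ : B →₀ ℝ, IsRt cs σ → ∀ k, k ∉ J → 0 < σ k → Adm cs J x ∅ σ := by
    intro σ hσ k hk h
    refine ⟨?_, by simp⟩
    intro w hw
    rw [← ga_mul]
    exact pos_parab cs (Subgroup.mul_mem _ hw (Subgroup.inv_mem _ hx)) hσ hk h
  constructor
  · exact hJ
  · exact hE
  · simp
  · simp
  · simp
  · simp
  · intro v hv _
    exact ⟨v * x⁻¹, Subgroup.mul_mem _ hv (Subgroup.inv_mem _ hx), by group⟩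
  · exact hD
  · intro r hr hrJ
    exact key _ (IsRt_gx cs r) r hrJ (by rw [gx_same]; norm_num)
  · intro r hr hrJ k hk hkr
    apply key _ ((IsRt_gx cs k).ga cs _) r hrJ
    rw [ga_sg, Finsupp.add_apply, Finsupp.smul_apply, gx_ne hkr, gx_same]
    have := kpos hP hr hk (Ne.symm hkr)
    simp
    linarith
  · intro a ha haJ b hb hba
    apply key _ (((IsRt_gx cs a).ga cs _).ga cs _) a haJ
    rw [ga_ssg, Finsupp.add_apply, Finsupp.smul_apply, Finsupp.smul_apply, gx_ne hba, gx_same]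
    have := kpos hP ha hb (Ne.symm hba)
    simp
    nlinarith
  · intro s hs t ht hst htJ hsE σ hσ hp h1 _ _
    exact key σ hσ t htJ (by linarith)

/-- a node at the end of a long piece -/
theorem node_long (hP : HL M P) {b b' : B} (hb : b ∈ P) (hb' : b' ∈ P) (hbb : b ≠ b')
    {x : W} {β : B →₀ ℝ} (hβ : IsRt cs β)
    (hxβ : ga cs x β = -(gx b' + (2 * kap M b b') • gx b)) (hn : NearJ cs J β) {X : Set W}
    (hloc : ∀ v ∈ X, Ng (ga cs v β) → ∃ u ∈ WP cs {b, b'}, v = u * x) {E : Set B}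
    (hE : E ⊆ {b'}) (hD : ∀ k ∈ E, D cs x (cs.simple k) = 0) :
    Node cs P J x {b, b'} {β} X E := by
  set ρ : B →₀ ℝ := gx b' + (2 * kap M b b') • gx b with hρ
  have hκ := kpos hP hb hb' hbb
  have hκ1 := kap_le (M := M) b b'
  have hρb : ρ b = 2 * kap M b b' := by
    rw [hρ, Finsupp.add_apply, Finsupp.smul_apply, gx_same, gx_ne hbb.symm]; simp
  have hρb' : ρ b' = 1 := by
    rw [hρ, Finsupp.add_apply, Finsupp.smul_apply, gx_same, gx_ne hbb]; simp
  have hρrt : IsRt cs ρ := by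
    have := (hβ.ga cs x).neg cs
    rwa [hxβ, neg_neg] at this
  have hρp : Pos ρ := hρrt.pos_of_coord cs (k := b') (by rw [hρb']; norm_num)
  have key : ∀ σ : B →₀ ℝ, IsRt cs σ → Pos σ → bf M ρ σ ≤ -1 → Adm cs J x {β} σ := by
    intro σ hσ hp h
    have hd : Dom cs β (ga cs x⁻¹ σ) := by
      apply dom_of_bf cs (x := x) hβ (hσ.ga cs _)
      · rw [hxβ, Ng_neg]; exact hρp
      · rw [ga_inv']; exact hp
      · rw [hxβ, ga_inv', map_neg, LinearMap.neg_apply]; linarith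
    refine ⟨hn.of_dom cs hβ (hσ.ga cs _) hd, ?_⟩
    intro β' hβ'
    rw [Finset.mem_singleton] at hβ'
    subst hβ'
    exact hd
  -- products with simple roots
  have q0 : ∀ r ∈ P, r ≠ b → r ≠ b' → bf M ρ (gx r) ≤ -2 := by
    intro r hr h1 h2
    rw [hρ, map_add, LinearMap.add_apply, map_smul, LinearMap.smul_apply, bf_gx_gx, bf_gx_gx,
      smul_eq_mul]
    have k1 := kpos hP hb' hr (Ne.symm h2)
    have k2 := kpos hP hb hr (Ne.symm h1)
    nlinarith
  have qb : bf M ρ (gx b) ≤ 1 := by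
    rw [hρ, map_add, LinearMap.add_apply, map_smul, LinearMap.smul_apply, bf_gx_gx, bf_self,
      smul_eq_mul, kap_symm b' b]
    nlinarith
  have qb' : bf M ρ (gx b') ≤ 0 := by
    rw [hρ, map_add, LinearMap.add_apply, map_smul, LinearMap.smul_apply, bf_self, bf_gx_gx,
      smul_eq_mul]
    nlinarith
  have q1 : ∀ r ∈ P, bf M ρ (gx r) ≤ 1 := by
    intro r hr
    by_cases h1 : r = b
    · subst h1; exact qb
    · by_cases h2 : r = b'
      · subst h2; linarith
      · linarith [q0 r hr h1 h2]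
  have mem : ∀ r, r ∉ ({b, b'} : Set B) → r ≠ b ∧ r ≠ b' := by
    intro r hr
    simp only [Set.mem_insert_iff, Set.mem_singleton_iff, not_or] at hr
    exact hr
  constructor
  · intro k hk
    rcases hk with rfl | hk
    · exact hb
    · rw [Set.mem_singleton_iff] at hk; subst hk; exact hb'
  · intro k hk
    have := hE hk
    rw [Set.mem_singleton_iff] at this
    subst this
    simp
  · intro β' hβ'
    rw [Finset.mem_singleton] at hβ'; subst hβ'; exact hβ
  · intro β' hβ'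
    rw [Finset.mem_singleton] at hβ'; subst hβ'
    rw [hxβ, Ng_neg]; exact hρp
  · intro β' hβ' K hK u hu
    rw [Finset.mem_singleton] at hβ'; subst hβ'
    rw [hxβ, ga_neg, Ng_neg]
    rw [Set.not_subset] at hK
    obtain ⟨k, hk, hkK⟩ := hK
    apply pos_parab cs hu hρrt hkK
    rcases hk with rfl | hk
    · rw [hρb]; linarith
    · rw [Set.mem_singleton_iff] at hk; subst hk; rw [hρb']; norm_num
  · intro β' hβ'
    rw [Finset.mem_singleton] at hβ'; subst hβ'; exact hn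
  · intro v hv h
    exact hloc v hv (h β (Finset.mem_singleton_self β))
  · exact hD
  · intro r hr hrU
    obtain ⟨h1, h2⟩ := mem r hrU
    exact key _ (IsRt_gx cs r) (Pos_gx r) (by linarith [q0 r hr h1 h2])
  · intro r hr hrU k hk hkr
    obtain ⟨h1, h2⟩ := mem r hrU
    have k1 := kpos hP hr hk (Ne.symm hkr)
    have hrt : IsRt cs (ga cs (cs.simple r) (gx k)) := (IsRt_gx cs k).ga cs _
    apply key _ hrt
    · apply hrt.pos_of_coord cs (k := k)
      rw [ga_sg, Finsupp.add_apply, Finsupp.smul_apply, gx_ne (Ne.symm hkr), gx_same]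
      norm_num
    · rw [ga_sg, map_add, map_smul, smul_eq_mul]
      have e1 := q0 r hr h1 h2
      have e2 := q1 k hk
      nlinarith
  · intro a ha haU c hc hca
    obtain ⟨h1, h2⟩ := mem a haU
    have k1 := kpos hP ha hc (Ne.symm hca)
    have k2 := kap_le (M := M) a c
    have hrt : IsRt cs (ga cs (cs.simple a) (ga cs (cs.simple c) (gx a))) :=
      ((IsRt_gx cs a).ga cs _).ga cs _
    apply key _ hrt
    · apply hrt.pos_of_coord cs (k := c)
      rw [ga_ssg, Finsupp.add_apply, Finsupp.smul_apply, Finsupp.smul_apply, gx_same,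
        gx_ne (Ne.symm hca)]
      simp; linarith
    · rw [ga_ssg, map_add, map_smul, map_smul, smul_eq_mul, smul_eq_mul]
      have e1 := q0 a ha h1 h2
      have e2 := q1 c hc
      have e3 : (39 : ℝ) / 25 ≤ 4 * kap M a c ^ 2 - 1 := by nlinarith
      nlinarith
  · intro s hs t ht hst htU hsE σ hσ hp h1 hsupp hs1
    obtain ⟨t1, t2⟩ := mem t htU
    apply key σ hσ hp
    have et := q0 t ht t1 t2
    rw [two_supp hst hsupp, map_add, map_smul, map_smul, smul_eq_mul, smul_eq_mul]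
    have hs0 := hp s
    by_cases hsU : s ∈ ({b, b'} : Set B)
    · have := hE (hsE hsU)
      rw [Set.mem_singleton_iff] at this
      subst this
      nlinarith
    · obtain ⟨s1, s2⟩ := mem s hsU
      have es := q0 s hs s1 s2
      nlinarith

end node

end Pool.Agent.HeckeCox
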