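import Mathlib
import Pool.Agent.Lib_helper18.Hecke.Node

set_option autoImplicit false

/-! Stretches of syllables between nodes. -/

namespace Pool.Agent.HeckeCox

open CoxeterSystem
open scoped Classical

section stretch

variable {B W : Type*} [Group W] {M : CoxeterMatrix B} (cs : CoxeterSystem M W)

/-- final position -/
def fin' (x : W) : List B → W
  | [] => x
  | r :: l => cs.simple r * fin' x l

/-- the wall of the panel crossed at `fin' x l` by `r` -/
noncomputable def Kw (x : W) (r : B) (l : List B) : B →₀ ℝ := ga cs (fin' cs x l)⁻¹ (gx r)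

/-- all walls crossed -/
noncomputable def walls (x : W) : List B → Finset (B →₀ ℝ)
  | [] => ∅
  | r :: l => insert (Kw cs x r l) (walls x l)

/-- reachable elements -/
def reach (X : Set W) : List B → Set W
  | [] => X
  | r :: l => {w | w ∈ reach X l ∨ cs.simple r * w ∈ reach X l}

/-- valid stretches -/
def Vs (M : CoxeterMatrix B) (P U : Set B) : List B → Prop
  | [] => True
  | [r] => r ∈ P ∧ r ∉ U
  | r :: r' :: l => r ∈ P ∧ r ≠ r' ∧ (∀ r'' l', l = r'' :: l' → r = r'' → M r r' = 0) ∧
      Vs M P U (r' :: l)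

variable {P J U : Set B} {x : W} {S0 : Finset (B →₀ ℝ)} {X : Set W} {E : Set B}

theorem Vs.tail {r : B} {l : List B} (h : Vs M P U (r :: l)) : Vs M P U l := by
  cases l with
  | nil => trivial
  | cons r' l => exact h.2.2.2

theorem Vs.head {r : B} {l : List B} (h : Vs M P U (r :: l)) : r ∈ P := by
  cases l with
  | nil => exact h.1
  | cons r' l => exact h.1

theorem Vs.last {r : B} {l : List B} (h : Vs M P U (l ++ [r])) : r ∈ P ∧ r ∉ U := by
  induction l with
  | nil => exact h
  | cons r' l ih => exact ih h.tail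

theorem Kw_rt (x : W) (r : B) (l : List B) : IsRt cs (Kw cs x r l) := (IsRt_gx cs r).ga cs _

theorem walls_rt (x : W) (l : List B) : ∀ β ∈ walls cs x l, IsRt cs β := by
  induction l with
  | nil => intro β hβ; simp [walls] at hβ
  | cons r l ih =>
    intro β hβ
    rw [walls, Finset.mem_insert] at hβ
    rcases hβ with rfl | hβ
    · exact Kw_rt cs x r l
    · exact ih β hβ

theorem ga_Kw (x : W) (r : B) (l : List B) : ga cs (fin' cs x l) (Kw cs x r l) = gx r := by
  rw [Kw, ga_inv']

theorem ga_Kw1 (x : W) (r : B) (l : List B) :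
    ga cs (fin' cs x (r :: l)) (Kw cs x r l) = -gx r := by
  rw [fin', ga_mul, ga_Kw, ga_sg_self]

theorem ga_Kw2 (x : W) (r r' : B) (l : List B) :
    ga cs (fin' cs x (r :: r' :: l)) (Kw cs x r' l) = -(gx r' + (2 * kap M r r') • gx r) := by
  rw [fin', ga_mul, ga_Kw1, ga_neg, ga_sg]

/-- nestedness of walls at distance two -/
theorem nest13 (hP : HL M P) {x : W} {r r' r'' : B} {l : List B}
    (h : Vs M P U (r :: r' :: r'' :: l)) : Dom cs (Kw cs x r'' l) (Kw cs x r (r' :: r'' :: l)) := by
  have hr := h.head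
  have hr' := h.tail.head
  have hr'' := h.tail.tail.head
  have n1 : r ≠ r' := h.2.1
  have n2 : r' ≠ r'' := h.tail.2.1
  have n3 : r = r'' → M r r' = 0 := h.2.2.1 r'' l rfl
  have k1 := kpos hP hr hr' n1
  have k2 := kpos hP hr' hr'' n2
  apply dom_of_bf cs (x := fin' cs x (r' :: r'' :: l)) (Kw_rt cs _ _ _) (Kw_rt cs _ _ _)
  · rw [ga_Kw2, Ng_neg]
    exact (Pos_gx _).add (Pos.smul (by linarith) (Pos_gx _))
  · rw [ga_Kw]; exact Pos_gx r
  · rw [ga_Kw2, ga_Kw, map_neg, LinearMap.neg_apply, map_add, LinearMap.add_apply, map_smul,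
      LinearMap.smul_apply, smul_eq_mul, bf_gx_gx r' r]
    by_cases h3 : r = r''
    · subst h3
      rw [bf_self, kap_symm r' r, kap_inf (n3 rfl)]; norm_num
    · have k3 := kpos hP hr'' hr (Ne.symm h3)
      rw [bf_gx_gx r'' r, kap_symm r' r]
      rw [kap_symm r' r''] at *
      nlinarith

/-- every wall of a valid stretch is admissible -/
theorem admW (hP : HL M P) (hN : Node cs P J x U S0 X E) : ∀ l : List B, Vs M P U l →
    ∀ K ∈ walls cs x l, NearJ cs J K ∧ ∀ β ∈ S0, Dom cs β K := by
  intro l
  induction l with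
  | nil => intro _ K hK; simp [walls] at hK
  | cons r l ih =>
    intro hV K hK
    rw [walls, Finset.mem_insert] at hK
    rcases hK with rfl | hK
    · match l, hV, ih with
      | [], hV, _ =>
        have := hN.a1 r hV.1 hV.2
        exact this
      | [r'], hV, _ =>
        have := hN.a2 r' hV.tail.1 hV.tail.2 r hV.head hV.2.1
        unfold Adm at this
        rw [← ga_mul] at this
        have e : Kw cs x r [r'] = ga cs (x⁻¹ * cs.simple r') (gx r) := by
          rw [Kw, fin', fin', mul_inv_rev, cs.inv_simple]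
        rw [e]; exact this
      | r' :: r'' :: l, hV, ih =>
        have hd := nest13 cs hP (x := x) hV
        have h3 := ih hV.tail (Kw cs x r'' l) (by simp [walls])
        exact ⟨h3.1.of_dom cs (Kw_rt cs _ _ _) (Kw_rt cs _ _ _) hd,
          fun β hβ => (h3.2 β hβ).trans cs hd⟩
    · exact ih hV.tail K hK

/-- every wall is dominated by one of the last two -/
theorem top (hP : HL M P) (hN : Node cs P J x U S0 X E) : ∀ (l : List B) (r : B),
    Vs M P U (r :: l) → ∀ β ∈ walls cs x (r :: l) ∪ S0, Dom cs β (Kw cs x r l) ∨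
      ∃ r' l', l = r' :: l' ∧ Dom cs β (Kw cs x r' l') := by
  intro l
  induction l with
  | nil =>
    intro r hV β hβ
    left
    rw [Finset.mem_union, walls, Finset.mem_insert] at hβ
    rcases hβ with (rfl | hβ) | hβ
    · exact Dom.refl cs _
    · simp [walls] at hβ
    · exact (admW cs hP hN [r] hV _ (by simp [walls])).2 β hβ
  | cons r' l ih =>
    intro r hV β hβ
    rw [Finset.mem_union, walls, Finset.mem_insert] at hβ
    have key : β ∈ walls cs x (r' :: l) ∪ S0 → Dom cs β (Kw cs x r (r' :: l)) ∨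
      ∃ r'' l', r' :: l = r'' :: l' ∧ Dom cs β (Kw cs x r'' l') := by
      intro h
      rcases ih r' hV.tail β h with h1 | ⟨r'', l', rfl, h1⟩
      · exact Or.inr ⟨r', l, rfl, h1⟩
      · left
        exact h1.trans cs (nest13 cs hP hV)
    rcases hβ with (rfl | hβ) | hβ
    · exact Or.inl (Dom.refl cs _)
    · exact key (Finset.mem_union_left _ hβ)
    · exact key (Finset.mem_union_right _ hβ)

/-- positions lie beyond the walls, even after moving by a parabolic not containing the last
letter -/
theorem posn' (hP : HL M P) (hN : Node cs P J x U S0 X E) {r : B} {l : List B}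
    (hV : Vs M P U (r :: l)) {K : Set B} (hK : r ∉ K) {u : W} (hu : u ∈ WP cs K) :
    ∀ β ∈ walls cs x (r :: l) ∪ S0, Ng (ga cs (u * fin' cs x (r :: l)) β) := by
  intro β hβ
  rcases top cs hP hN l r hV β hβ with h | ⟨r', l', rfl, h⟩
  · apply h
    unfold Bey
    rw [ga_mul, ga_Kw1, ga_neg, Ng_neg]
    exact pos_parab cs hu (IsRt_gx cs r) hK (by rw [gx_same]; norm_num)
  · apply h
    unfold Bey
    have n1 : r ≠ r' := hV.2.1
    have k1 := kpos hP hV.head hV.tail.head n1
    rw [ga_mul, ga_Kw2, ga_neg, Ng_neg]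
    apply pos_parab cs hu _ hK
    · rw [Finsupp.add_apply, Finsupp.smul_apply, gx_ne (Ne.symm n1), gx_same]
      simp; linarith
    · have := ((Kw_rt cs x r' l').ga cs (fin' cs x (r :: r' :: l'))).neg cs
      rwa [ga_Kw2, neg_neg] at this

theorem posn (hP : HL M P) (hN : Node cs P J x U S0 X E) {r : B} {l : List B}
    (hV : Vs M P U (r :: l)) :
    ∀ β ∈ walls cs x (r :: l) ∪ S0, Ng (ga cs (fin' cs x (r :: l)) β) := by
  have := posn' cs hP hN hV (K := ∅) (by simp) (Subgroup.one_mem _)
  simpa using this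

theorem posn0 (hP : HL M P) (hN : Node cs P J x U S0 X E) {l : List B}
    (hV : Vs M P U l) : ∀ β ∈ walls cs x l ∪ S0, Ng (ga cs (fin' cs x l) β) := by
  cases l with
  | nil =>
    intro β hβ
    simp only [walls, Finset.empty_union] at hβ
    exact hN.bey β hβ
  | cons r l => exact posn cs hP hN hV

theorem Kw_not_mem (hP : HL M P) (hN : Node cs P J x U S0 X E) {r : B} {l : List B}
    (hV : Vs M P U (r :: l)) : Kw cs x r l ∉ walls cs x l ∪ S0 := by
  intro h
  have h1 := posn0 cs hP hN hV.tail _ h
  rw [ga_Kw] at h1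
  exact (IsRt_gx cs r).not_ng cs (Pos_gx r) h1

theorem card_walls (hP : HL M P) (hN : Node cs P J x U S0 X E) : ∀ l : List B, Vs M P U l →
    (walls cs x l ∪ S0).card = l.length + S0.card := by
  intro l
  induction l with
  | nil => intro _; simp [walls]
  | cons r l ih =>
    intro hV
    rw [walls, Finset.insert_union, Finset.card_insert_of_notMem (Kw_not_mem cs hP hN hV),
      ih hV.tail, List.length_cons]
    ring

/-- walls not met by the first step -/
def Late (x : W) (S0 : Finset (B →₀ ℝ)) (X : Set W) (r1 : B) (K : B →₀ ℝ) : Prop :=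
  (∀ v ∈ X, ¬ Ng (ga cs v K)) ∧
    ∀ v ∈ X, (∀ β ∈ S0, Ng (ga cs v β)) → ¬ Ng (ga cs (cs.simple r1 * v) K)

theorem cross_eq {β : B →₀ ℝ} (hβ : IsRt cs β) {r : B} {v : W} (h1 : ¬ Ng (ga cs v β))
    (h2 : Ng (ga cs (cs.simple r * v) β)) : ga cs v β = gx r := by
  rw [ga_mul] at h2
  exact cross cs (hβ.ga cs v) ((hβ.ga cs v).pos_of_not_ng cs h1) h2

theorem K1_near (hN : Node cs P J x U S0 X E) {r1 : B} (hr : r1 ∈ P) (hrU : r1 ∉ U) :
    ∀ v ∈ X, ¬ Ng (ga cs v (Kw cs x r1 [])) := by
  intro v hv h
  have h1 := (hN.a1 r1 hr hrU).2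
  obtain ⟨u, hu, rfl⟩ := hN.loc v hv (fun β hβ => h1 β hβ v h)
  rw [ga_mul] at h
  have e : ga cs x (Kw cs x r1 []) = gx r1 := ga_Kw cs x r1 []
  rw [e] at h
  exact ((IsRt_gx cs r1).ga cs u).not_ng cs
    (pos_parab cs hu (IsRt_gx cs r1) hrU (by rw [gx_same]; norm_num)) h

theorem late_walls (hP : HL M P) (hN : Node cs P J x U S0 X E) {r1 : B} : ∀ l : List B,
    Vs M P U (l ++ [r1]) → ∀ K ∈ walls cs x (l ++ [r1]),
      K = Kw cs x r1 [] ∨ Late cs x S0 X r1 K := by
  intro l
  induction l with
  | nil =>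
    intro _ K hK
    simp only [List.nil_append, walls, Finset.mem_insert, Finset.notMem_empty, or_false] at hK
    exact Or.inl hK
  | cons r l ih =>
    intro hV K hK
    rw [List.cons_append, walls, Finset.mem_insert] at hK
    obtain ⟨hr1, hr1U⟩ := hV.last
    rcases hK with rfl | hK
    · right
      match l, hV, ih with
      | [], hV, _ =>
        have hVr : Vs M P U [r, r1] := hV
        have n1 : r ≠ r1 := hVr.2.1
        have k1 := kpos hP hr1 hVr.head (Ne.symm n1)
        have hK : Kw cs x r ([] ++ [r1]) = ga cs x⁻¹ (ga cs (cs.simple r1) (gx r)) := by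
          rw [← ga_mul, Kw]
          simp only [List.nil_append, fin']
          rw [mul_inv_rev, cs.inv_simple]
        have h2 := (hN.a2 r1 hr1 hr1U r hVr.head n1).2
        rw [hK]
        have hcoord : (ga cs (cs.simple r1) (gx r)) r1 = 2 * kap M r1 r := by
          rw [ga_sg, Finsupp.add_apply, Finsupp.smul_apply, gx_ne n1, gx_same]; simp
        have hrt : IsRt cs (ga cs (cs.simple r1) (gx r)) := (IsRt_gx cs r).ga cs _
        constructor
        · intro v hv h
          obtain ⟨u, hu, rfl⟩ := hN.loc v hv (fun β hβ => h2 β hβ v h)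
          rw [ga_mul, ga_inv'] at h
          exact (hrt.ga cs u).not_ng cs (pos_parab cs hu hrt hr1U (by rw [hcoord]; linarith)) h
        · intro v hv hS h
          obtain ⟨u, hu, rfl⟩ := hN.loc v hv hS
          have h3 : ¬ Ng (ga cs (u * x) (ga cs x⁻¹ (ga cs (cs.simple r1) (gx r)))) := by
            rw [ga_mul, ga_inv']
            exact (hrt.ga cs u).not_ng cs (pos_parab cs hu hrt hr1U (by rw [hcoord]; linarith))
          have h4 := cross_eq cs (hrt.ga cs _) h3 h
          rw [ga_mul, ga_inv'] at h4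
          have h5 := DFunLike.congr_fun h4 r1
          rw [ga_parab cs hu _ hr1U, hcoord, gx_same] at h5
          linarith
      | r' :: l, hV, ih =>
        obtain ⟨r'', l3, he⟩ : ∃ r'' l3, l ++ [r1] = r'' :: l3 := by
          cases l with
          | nil => exact ⟨r1, [], rfl⟩
          | cons a l => exact ⟨a, l ++ [r1], rfl⟩
        have hV' : Vs M P U (r :: r' :: r'' :: l3) := by
          rw [← he]; exact hV
        have hd := nest13 cs hP (x := x) hV'
        have e1 : (r' :: l) ++ [r1] = r' :: r'' :: l3 := by rw [List.cons_append, he]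
        rw [e1]
        have hmem : Kw cs x r'' l3 ∈ walls cs x ((r' :: l) ++ [r1]) := by
          rw [e1]; simp [walls]
        have h3 := ih hV.tail _ hmem
        have hnear : ∀ v ∈ X, ¬ Ng (ga cs v (Kw cs x r'' l3)) := by
          rcases h3 with h | h
          · rw [h]; exact K1_near cs hN hr1 hr1U
          · exact h.1
        constructor
        · intro v hv h
          exact hnear v hv (hd v h)
        · intro v hv hS h
          rcases h3 with h4 | h4
          · have h5 : Ng (ga cs (cs.simple r1 * v) (Kw cs x r'' l3)) := hd _ h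
            have h6 : ¬ Ng (ga cs v (Kw cs x r (r' :: r'' :: l3))) :=
              fun h' => hnear v hv (hd v h')
            have e2 := cross_eq cs (Kw_rt cs _ _ _) h6 h
            have e3 := cross_eq cs (Kw_rt cs _ _ _) (hnear v hv) h5
            have e4 : Kw cs x r (r' :: r'' :: l3) = Kw cs x r'' l3 := by
              rw [← ga_inv cs v (Kw cs x r (r' :: r'' :: l3)), e2, ← e3, ga_inv]
            have h7 := Kw_not_mem cs hP hN hV'
            apply h7
            rw [e4]
            simp [walls]
          · exact h4.2 v hv hS (hd _ h)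
    · exact ih hV.tail K hK

/-- number of walls of `S` which `v` is beyond -/
noncomputable def cnt (S : Finset (B →₀ ℝ)) (v : W) : ℕ :=
  (S.filter (fun β => Ng (ga cs v β))).card

theorem cnt_step {S : Finset (B →₀ ℝ)} (hS : ∀ β ∈ S, IsRt cs β) (r : B) (v : W) :
    cnt cs S (cs.simple r * v) ≤ cnt cs S v + 1 := by
  unfold cnt
  have hsub : S.filter (fun β => Ng (ga cs (cs.simple r * v) β)) ⊆
      insert (ga cs v⁻¹ (gx r)) (S.filter (fun β => Ng (ga cs v β))) := by
    intro β hβ
    rw [Finset.mem_filter] at hβ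
    rw [Finset.mem_insert, Finset.mem_filter]
    by_cases h : Ng (ga cs v β)
    · exact Or.inr ⟨hβ.1, h⟩
    · left
      have := cross_eq cs (hS β hβ.1) h hβ.2
      rw [← this, ga_inv]
  exact (Finset.card_le_card hsub).trans (Finset.card_insert_le _ _)

theorem count (hP : HL M P) (hN : Node cs P J x U S0 X E) {r1 : B} (hr1 : r1 ∈ P) (hr1U : r1 ∉ U)
    {S : Finset (B →₀ ℝ)} (hS : ∀ β ∈ S, IsRt cs β)
    (hcl : ∀ β ∈ S, β ∈ S0 ∨ β = Kw cs x r1 [] ∨ Late cs x S0 X r1 β) (l : List B) :
    ∀ v ∈ reach cs X (l ++ [r1]), cnt cs S v ≤ (l ++ [r1]).length + S0.card ∧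
      (cnt cs S v = (l ++ [r1]).length + S0.card → v = fin' cs x (l ++ [r1])) := by
  have hX : ∀ v ∈ X, S.filter (fun β => Ng (ga cs v β)) ⊆ S0 := by
    intro v hv β hβ
    rw [Finset.mem_filter] at hβ
    rcases hcl β hβ.1 with h | h | h
    · exact h
    · exact absurd (h ▸ hβ.2) (K1_near cs hN hr1 hr1U v hv)
    · exact absurd hβ.2 (h.1 v hv)
  induction l with
  | nil =>
    intro v hv
    simp only [List.nil_append, List.length_singleton]
    simp only [List.nil_append, reach, Set.mem_setOf_eq] at hv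
    rcases hv with hv | hv
    · have h1 := Finset.card_le_card (hX v hv)
      have h2 : cnt cs S v ≤ S0.card := h1
      exact ⟨by omega, fun h => by omega⟩
    · set v' := cs.simple r1 * v with hv'
      have hvv : v = cs.simple r1 * v' := by rw [hv']; simp
      have h1 : cnt cs S v' ≤ S0.card := Finset.card_le_card (hX v' hv)
      have h2 := cnt_step cs hS r1 v'
      rw [← hvv] at h2
      refine ⟨by omega, ?_⟩
      intro heq
      have h3 : cnt cs S v' = S0.card := by omega
      have h4 : S.filter (fun β => Ng (ga cs v' β)) = S0 :=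
        Finset.eq_of_subset_of_card_le (hX v' hv) (le_of_eq h3.symm)
      have h5 : ∀ β ∈ S0, Ng (ga cs v' β) := by
        intro β hβ
        rw [← h4, Finset.mem_filter] at hβ
        exact hβ.2
      obtain ⟨u, hu, hvu⟩ := hN.loc v' hv h5
      -- a new wall
      have h6 : ∃ β ∈ S, Ng (ga cs v β) ∧ ¬ Ng (ga cs v' β) := by
        by_contra hcon
        push Not at hcon
        have hsub : S.filter (fun β => Ng (ga cs v β)) ⊆
            S.filter (fun β => Ng (ga cs v' β)) := by
          intro β hβ
          rw [Finset.mem_filter] at hβ ⊢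
          exact ⟨hβ.1, hcon β hβ.1 hβ.2⟩
        have h7 : cnt cs S v ≤ cnt cs S v' := Finset.card_le_card hsub
        omega
      obtain ⟨β, hβ, h7, h8⟩ := h6
      rcases hcl β hβ with h | h | h
      · exact absurd (h5 β h) h8
      · have h9 : ga cs v' β = gx r1 := by
          apply cross_eq cs (hS β hβ) h8
          rw [← hvv]; exact h7
        rw [h, hvu, ga_mul] at h9
        have e : ga cs x (Kw cs x r1 []) = gx r1 := ga_Kw cs x r1 []
        rw [e] at h9
        have h10 := fix_root cs hr1U (fun k hk => by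
          rw [bf_gx_gx]
          have hkP := hN.hU hk
          have hne : k ≠ r1 := by rintro rfl; exact hr1U hk
          have := kpos hP hkP hr1 hne
          linarith) hu h9
        rw [hvv, hvu, h10, one_mul]
        rfl
      · exfalso
        apply h.2 v' hv h5
        rw [← hvv]; exact h7
  | cons r l ih =>
    intro v hv
    rw [List.cons_append] at hv ⊢
    simp only [reach, Set.mem_setOf_eq] at hv
    rw [List.length_cons]
    rcases hv with hv | hv
    · have h1 := (ih v hv).1
      exact ⟨by omega, fun h => by omega⟩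
    · obtain ⟨h1, h2⟩ := ih _ hv
      have h3 := cnt_step cs hS r (cs.simple r * v)
      rw [← mul_assoc, cs.simple_mul_simple_self, one_mul] at h3
      refine ⟨by omega, ?_⟩
      intro h
      have h4 := h2 (by omega)
      rw [fin', ← h4, ← mul_assoc, cs.simple_mul_simple_self, one_mul]

theorem cnt_full {S : Finset (B →₀ ℝ)} {v : W} (h : ∀ β ∈ S, Ng (ga cs v β)) :
    cnt cs S v = S.card := by
  unfold cnt
  rw [Finset.filter_true_of_mem h]

theorem cnt_lt {S : Finset (B →₀ ℝ)} {v : W} (h : cnt cs S v ≠ S.card) :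
    ∃ β ∈ S, ¬ Ng (ga cs v β) := by
  by_contra hcon
  push Not at hcon
  exact h (cnt_full cs hcon)

/-- the main counting statement for a valid stretch -/
theorem count_stretch (hP : HL M P) (hN : Node cs P J x U S0 X E) {l : List B} {r1 : B}
    (hV : Vs M P U (l ++ [r1])) (l' : List B) : ∀ v ∈ reach cs X (l' ++ [r1]),
      cnt cs (walls cs x (l ++ [r1]) ∪ S0) v ≤ (l' ++ [r1]).length + S0.card ∧
      (cnt cs (walls cs x (l ++ [r1]) ∪ S0) v = (l' ++ [r1]).length + S0.card →
        v = fin' cs x (l' ++ [r1])) := by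
  obtain ⟨hr1, hr1U⟩ := hV.last
  apply count cs hP hN hr1 hr1U
  · intro β hβ
    rcases Finset.mem_union.mp hβ with h | h
    · exact walls_rt cs x _ β h
    · exact hN.rt β h
  · intro β hβ
    rcases Finset.mem_union.mp hβ with h | h
    · exact Or.inr (late_walls cs hP hN l hV β h)
    · exact Or.inl h

theorem fin_not_mem (hP : HL M P) (hN : Node cs P J x U S0 X E) {r : B} {l : List B}
    (hV : Vs M P U (r :: l)) : fin' cs x (r :: l) ∉ reach cs X l := by
  rcases List.eq_nil_or_concat l with rfl | ⟨l', r1, rfl⟩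
  · intro h
    have h1 := K1_near cs hN hV.1 hV.2 _ h
    apply h1
    rw [ga_Kw1, Ng_neg]; exact Pos_gx r
  · intro h
    rw [List.concat_eq_append] at *
    have h1 := (count_stretch cs hP hN (l := r :: l') (r1 := r1) hV l' _ h).1
    have h2 := cnt_full cs (posn cs hP hN hV)
    rw [card_walls cs hP hN _ hV] at h2
    rw [List.cons_append, h2, List.length_cons] at h1
    omega

theorem eq_fin (hP : HL M P) (hN : Node cs P J x U S0 X E) {r : B} {l : List B}
    (hV : Vs M P U (r :: l)) {v : W} (hv : v ∈ reach cs X (r :: l))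
    (h : ∀ β ∈ walls cs x (r :: l) ∪ S0, Ng (ga cs v β)) : v = fin' cs x (r :: l) := by
  obtain ⟨l', r1, he⟩ : ∃ l' r1, r :: l = l' ++ [r1] := by
    rcases List.eq_nil_or_concat (r :: l) with h | ⟨l', r1, h⟩
    · exact absurd h (by simp)
    · exact ⟨l', r1, by rw [h, List.concat_eq_append]⟩
  have h1 := cnt_full cs h
  rw [card_walls cs hP hN _ hV] at h1
  rw [he] at hv hV h1 ⊢
  exact (count_stretch cs hP hN hV l' v hv).2 h1

end stretch

end Pool.Agent.HeckeCox
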