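import Mathlib
import Pool.Agent.Lib_helper18.Hecke.Stretch

set_option autoImplicit false

/-! Interfaces: positions before a long piece. -/

namespace Pool.Agent.HeckeCox

open CoxeterSystem
open scoped Classical

section iface

variable {B W : Type*} [Group W] {M : CoxeterMatrix B} (cs : CoxeterSystem M W)
variable {P J U : Set B} {x : W} {S0 : Finset (B →₀ ℝ)} {X : Set W} {E : Set B}

/-- position before a long piece -/
structure Iface (J : Set B) (s t : B) (E : Set B) (x : W) (X : Set W) : Prop where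
  hmin : IsMin cs {s, t} x
  sup : ∀ u ∈ WP cs {s, t}, u * x ∈ X → u ∈ WP cs E
  far : ∀ σ : B →₀ ℝ, IsRt cs σ → Pos σ → (∀ k, k ≠ s → k ≠ t → σ k = 0) →
    (s ∉ E → 1 ≤ σ s) → (t ∉ E → 1 ≤ σ t) → NearJ cs J (ga cs x⁻¹ σ) ∧
      ∀ v ∈ X, ∀ u ∈ WP cs {s, t}, Ng (ga cs (u * v) (ga cs x⁻¹ σ)) →
        ∃ u' ∈ WP cs {s, t}, u * v = u' * x

theorem Iface.symm {s t : B} (h : Iface cs J s t E x X) : Iface cs J t s E x X := by
  constructor
  · rw [Set.pair_comm]; exact h.hmin
  · rw [Set.pair_comm]; exact h.sup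
  · rw [Set.pair_comm t s]
    intro σ h1 h2 h3 h4 h5
    exact h.far σ h1 h2 (fun k a b => h3 k b a) h5 h4

theorem no_jump {s t : B} (hst : s ≠ t) (hM : M s t ≠ 0) {β φ : B →₀ ℝ} (hβ : IsRt cs β)
    (hφ : IsRt cs φ) (hd : Dom cs β φ) (hne : β ≠ φ) {v u : W} (hu : u ∈ WP cs {s, t})
    (hv : ¬ Ng (ga cs v β)) (h : Ng (ga cs (u * v) φ)) : False := by
  have p1 : Pos (ga cs v β) := (hβ.ga cs v).pos_of_not_ng cs hv
  have p2 : Pos (ga cs v φ) := (hφ.ga cs v).pos_of_not_ng cs (fun h' => hv (hd v h'))
  refine finite_res cs hst hM (hβ.ga cs v) (hφ.ga cs v) p1 p2 ?_ ?_ hu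
    (by rw [← ga_mul]; exact h)
  · intro he
    apply hne
    rw [← ga_inv cs v β, he, ga_inv]
  · intro w hw
    unfold Bey at *
    rw [← ga_mul] at *
    exact hd _ hw

theorem D_of_near {x : W} {k : B} (h : NearJ cs J (ga cs x⁻¹ (gx k))) :
    D cs x (cs.simple k) = 0 := by
  have h1 := h 1 (Subgroup.one_mem _)
  rw [ga_one] at h1
  have h2 := D_inv_of_pos cs h1
  rwa [inv_inv] at h2

theorem iface0_aux (hP : HL M P) (hN : Node cs P J x U S0 X E) {s t : B} (hs : s ∈ P)
    (ht : t ∈ P) (hst : s ≠ t) (hM : M s t ≠ 0) (hE : E = U ∩ {s, t}) (htU : t ∉ U)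
    (h2 : S0.Nonempty → ¬ U ⊆ {s, t}) : Iface cs J s t E x X := by
  have hUt : ∀ k ∈ U, bf M (gx k) (gx t) < 0 := by
    intro k hk
    rw [bf_gx_gx]
    have hne : k ≠ t := by rintro rfl; exact htU hk
    have := kpos hP (hN.hU hk) ht hne
    linarith
  have hsE : s ∈ U → s ∈ E := by
    intro h
    rw [hE]
    exact ⟨h, Or.inl rfl⟩
  have htE : t ∉ E := fun h => htU (hN.hE h)
  constructor
  · intro k hk
    rcases hk with rfl | hk
    · by_cases h : k ∈ U
      · exact hN.dE k (hsE h)
      · exact D_of_near cs (hN.a1 k hs h).1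
    · rw [Set.mem_singleton_iff] at hk
      subst hk
      exact D_of_near cs (hN.a1 k ht htU).1
  · intro u hu hux
    have hb : ∀ β ∈ S0, Ng (ga cs (u * x) β) := by
      intro β hβ
      rw [ga_mul]
      exact hN.supS β hβ {s, t} (h2 ⟨β, hβ⟩) u hu
    obtain ⟨u0, hu0, he⟩ := hN.loc _ hux hb
    have he' : u = u0 := mul_right_cancel he
    rw [hE]
    exact mem_WP_inter cs (he' ▸ hu0) hu
  · intro σ hσ hp hsupp hs1 ht1
    have had := hN.a4 s hs t ht hst htU hsE σ hσ hp (ht1 htE) hsupp
      (fun h => hs1 (fun h' => h (hN.hE h')))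
    refine ⟨had.1, ?_⟩
    intro v hv u hu hn
    have ht0 : 0 < σ t := by linarith [ht1 htE]
    by_cases hb : ∀ β ∈ S0, Ng (ga cs v β)
    · obtain ⟨u0, hu0, rfl⟩ := hN.loc v hv hb
      have e1 : ga cs (u * (u0 * x)) (ga cs x⁻¹ σ) = ga cs u (ga cs u0 σ) := by
        rw [ga_mul, ga_mul, ga_inv']
      rw [e1] at hn
      have p1 : Pos (ga cs u0 σ) := pos_parab cs hu0 hσ htU ht0
      have h3 : ∀ k, k ≠ s → k ≠ t → ga cs u0 σ k = 0 := by
        intro k h1 h2
        exact parab_root_supp cs hu (hσ.ga cs u0) p1 hn (k := k) (by simp [h1, h2])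
      have e2 := two_supp hst hsupp
      rw [e2] at h3 hσ
      have h4 := gate cs hst htU hUt u0 (σ s) (σ t) ht0 hσ hu0 h3
      have h5 : u0 ∈ WP cs {s, t} := WP_mono cs (by
        rintro k ⟨-, hk⟩
        rw [Set.mem_singleton_iff] at hk
        exact Or.inl hk) h4
      exact ⟨u * u0, Subgroup.mul_mem _ hu h5, by rw [mul_assoc]⟩
    · exfalso
      push Not at hb
      obtain ⟨β, hβ, hnb⟩ := hb
      refine no_jump cs hst hM (hN.rt β hβ) (hσ.ga cs x⁻¹) (had.2 β hβ) ?_ hu hnb hn
      rintro rfl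
      have := hN.bey _ hβ
      rw [ga_inv'] at this
      exact hσ.not_ng cs hp this

theorem iface0 (hP : HL M P) (hN : Node cs P J x U S0 X E) {s t : B} (hs : s ∈ P)
    (ht : t ∈ P) (hst : s ≠ t) (hM : M s t ≠ 0) (hE : E = U ∩ {s, t}) (h1 : ¬ {s, t} ⊆ U)
    (h2 : S0.Nonempty → ¬ U ⊆ {s, t}) : Iface cs J s t E x X := by
  by_cases htU : t ∈ U
  · have hsU : s ∉ U := by
      intro h
      apply h1
      rintro k (rfl | hk)
      · exact h
      · rw [Set.mem_singleton_iff] at hk; subst hk; exact htU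
    apply Iface.symm
    apply iface0_aux cs hP hN ht hs hst.symm (by rw [M.symmetric]; exact hM)
      (by rw [hE, Set.pair_comm]) hsU
    rw [Set.pair_comm t s]; exact h2
  · exact iface0_aux cs hP hN hs ht hst hM hE htU h2

theorem iface1 (hP : HL M P) (hN : Node cs P J x U S0 X E) {r : B} {l : List B}
    (hV : Vs M P U (r :: l)) {s t : B} (hs : s ∈ P) (ht : t ∈ P) (hst : s ≠ t) (hM : M s t ≠ 0)
    (hrs : r ≠ s) (hrt : r ≠ t) :
    Iface cs J s t ∅ (fin' cs x (r :: l)) (reach cs X (r :: l)) := by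
  have hrK : r ∉ ({s, t} : Set B) := by simp [hrs, hrt]
  have hr := hV.head
  constructor
  · intro k hk
    have hkP : k ∈ P := by
      rcases hk with rfl | hk
      · exact hs
      · rw [Set.mem_singleton_iff] at hk; subst hk; exact ht
    have hkr : k ≠ r := by rintro rfl; exact hrK hk
    apply D_of_near cs (J := J)
    by_cases hval : ∀ r'' l', l = r'' :: l' → k = r'' → M k r = 0
    · have hV' : Vs M P U (k :: r :: l) := ⟨hkP, hkr, hval, hV⟩
      exact (admW cs hP hN _ hV' (Kw cs x k (r :: l)) (by simp [walls])).1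
    · push Not at hval
      obtain ⟨r'', l', rfl, rfl, hMk⟩ := hval
      match l', hV with
      | [], hV =>
        have hkU : k ∉ U := hV.tail.2
        have h3 := (hN.a3 k hkP hkU r hr (Ne.symm hkr)).1
        have e : ga cs (fin' cs x [r, k])⁻¹ (gx k) =
            ga cs x⁻¹ (ga cs (cs.simple k) (ga cs (cs.simple r) (gx k))) := by
          rw [← ga_mul, ← ga_mul]
          simp only [fin', mul_inv_rev, cs.inv_simple, mul_assoc]
        rw [e]; exact h3
      | c :: l', hV =>
        have hc := hV.tail.tail.head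
        have n1 : k ≠ c := hV.tail.2.1
        have n2 : r = c → M r k = 0 := hV.2.2.1 c l' rfl
        have hrc : r ≠ c := by
          intro h
          apply hMk
          rw [M.symmetric]; exact n2 h
        have k1 := kpos hP hc hkP (Ne.symm n1)
        have k2 := kpos hP hc hr (Ne.symm hrc)
        have k3 := kpos hP hkP hr hkr
        have e : ga cs (fin' cs x (c :: l')) (ga cs (fin' cs x (r :: k :: c :: l'))⁻¹ (gx k)) =
            (4 * kap M k r ^ 2 - 1) • gx k + (2 * kap M k r) • gx r := by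
          rw [← ga_ssg cs, ← ga_mul, ← ga_mul]
          congr 1
          simp only [fin', mul_inv_rev, cs.inv_simple]
          group
          rw [cs.simple_mul_simple_self, one_mul]
        have hrt2 : IsRt cs (ga cs (fin' cs x (r :: k :: c :: l'))⁻¹ (gx k)) :=
          (IsRt_gx cs k).ga cs _
        have had := (admW cs hP hN _ hV (Kw cs x c l') (by simp [walls])).1
        apply had.of_dom cs (Kw_rt cs _ _ _) hrt2
        apply dom_of_bf cs (x := fin' cs x (c :: l')) (Kw_rt cs _ _ _) hrt2
        · rw [ga_Kw1, Ng_neg]; exact Pos_gx c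
        · rw [e]
          exact (Pos.smul (by nlinarith) (Pos_gx _)).add (Pos.smul (by linarith) (Pos_gx _))
        · rw [e, ga_Kw1, map_neg, LinearMap.neg_apply, map_add, map_smul, map_smul, bf_gx_gx,
            bf_gx_gx, smul_eq_mul, smul_eq_mul]
          have h5 : (39 : ℝ) / 25 ≤ 4 * kap M k r ^ 2 - 1 := by nlinarith
          nlinarith
  · intro u hu hux
    have h1 := eq_fin cs hP hN hV hux (posn' cs hP hN hV hrK hu)
    have h2 : u = 1 := mul_eq_right.mp h1
    rw [h2]; exact Subgroup.one_mem _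
  · intro σ hσ hp hsupp hs1 ht1
    have s1 := hs1 (by simp)
    have t1 := ht1 (by simp)
    set φ := ga cs (fin' cs x (r :: l))⁻¹ σ with hφ
    have hφrt : IsRt cs φ := hσ.ga cs _
    have eφ : ga cs (fin' cs x (r :: l)) φ = σ := by rw [hφ, ga_inv']
    have e2 := two_supp hst hsupp
    have k1 := kpos hP hr hs hrs
    have k2 := kpos hP hr ht hrt
    have d1 : Dom cs (Kw cs x r l) φ := by
      apply dom_of_bf cs (x := fin' cs x (r :: l)) (Kw_rt cs _ _ _) hφrt
      · rw [ga_Kw1, Ng_neg]; exact Pos_gx r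
      · rw [eφ]; exact hp
      · rw [eφ, ga_Kw1, map_neg, LinearMap.neg_apply, e2, map_add, map_smul, map_smul, bf_gx_gx,
          bf_gx_gx, smul_eq_mul, smul_eq_mul]
        nlinarith
    have d2 : ∀ r' l', l = r' :: l' → Dom cs (Kw cs x r' l') φ := by
      rintro r' l' rfl
      have hr' := hV.tail.head
      have n1 : r ≠ r' := hV.2.1
      have k3 := kpos hP hr hr' n1
      apply dom_of_bf cs (x := fin' cs x (r :: r' :: l')) (Kw_rt cs _ _ _) hφrt
      · rw [ga_Kw2, Ng_neg]
        exact (Pos_gx _).add (Pos.smul (by linarith) (Pos_gx _))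
      · rw [eφ]; exact hp
      · have key : ∀ k ∈ P, r ≠ k → 0 ≤ kap M r k → 7 / 25 ≤
            -(bf M (gx r' + (2 * kap M r r') • gx r) (gx k)) := by
          intro k hk hrk _
          rw [map_add, LinearMap.add_apply, map_smul, LinearMap.smul_apply, smul_eq_mul,
            bf_gx_gx r k]
          have k4 := kpos hP hr hk hrk
          by_cases h : k = r'
          · subst h
            rw [bf_self]
            nlinarith
          · rw [bf_gx_gx]
            have k5 := kpos hP hr' hk (Ne.symm h)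
            nlinarith
        have key2 : ∀ k ∈ P, r ≠ k → k ≠ r' → 2 ≤
            -(bf M (gx r' + (2 * kap M r r') • gx r) (gx k)) := by
          intro k hk hrk h
          rw [map_add, LinearMap.add_apply, map_smul, LinearMap.smul_apply, smul_eq_mul,
            bf_gx_gx r k, bf_gx_gx]
          have k4 := kpos hP hr hk hrk
          have k5 := kpos hP hr' hk (Ne.symm h)
          nlinarith
        rw [eφ, ga_Kw2, map_neg, LinearMap.neg_apply]
        have e3 : bf M (gx r' + (2 * kap M r r') • gx r) σ =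
            σ s * bf M (gx r' + (2 * kap M r r') • gx r) (gx s) +
            σ t * bf M (gx r' + (2 * kap M r r') • gx r) (gx t) := by
          conv_lhs => rw [e2]
          rw [map_add, map_smul, map_smul, smul_eq_mul, smul_eq_mul]
        rw [e3]
        have q1 := key s hs hrs (by linarith)
        have q2 := key t ht hrt (by linarith)
        by_cases h : s = r'
        · have q3 := key2 t ht hrt (by rintro rfl; exact hst h)
          nlinarith
        · have q3 := key2 s hs hrs h
          nlinarith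
    have dall : ∀ β ∈ walls cs x (r :: l) ∪ S0, Dom cs β φ := by
      intro β hβ
      rcases top cs hP hN l r hV β hβ with h | ⟨r', l', he, h⟩
      · exact h.trans cs d1
      · exact h.trans cs (d2 r' l' he)
    refine ⟨?_, ?_⟩
    · have h1 := (admW cs hP hN _ hV (Kw cs x r l) (by simp [walls])).1
      exact h1.of_dom cs (Kw_rt cs _ _ _) hφrt d1
    · intro v hv u hu hn
      by_cases hb : ∀ β ∈ walls cs x (r :: l) ∪ S0, Ng (ga cs v β)
      · rw [eq_fin cs hP hN hV hv hb]
        exact ⟨u, hu, rfl⟩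
      · exfalso
        push Not at hb
        obtain ⟨β, hβ, hnb⟩ := hb
        have hβrt : IsRt cs β := by
          rcases Finset.mem_union.mp hβ with h | h
          · exact walls_rt cs x _ β h
          · exact hN.rt β h
        refine no_jump cs hst hM hβrt hφrt (dall β hβ) ?_ hu hnb hn
        intro h
        have h1 := posn cs hP hN hV β hβ
        rw [h, eφ] at h1
        exact hσ.not_ng cs hp h1

end iface

end Pool.Agent.HeckeCox
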