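import Mathlib
import Pool.Agent.Lib_helper18.Hecke.Base

set_option autoImplicit false

/-! Property `Q` for finite dihedral groups. -/

namespace Pool.Agent.HeckeCox

open CoxeterSystem
open scoped Matrix

section dihbase

variable {B W : Type*} [Group W] {M : CoxeterMatrix B} (cs : CoxeterSystem M W)
variable {R : Type*} [CommRing R] {q ε ε' : R}

/-- the eigenvector `h_j - ε'` -/
noncomputable def ev (ε' : R) (j : B) : W →₀ R :=
  Finsupp.single (cs.simple j) 1 + Finsupp.single 1 (-ε')

omit [Group W] in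
theorem single_one_smul (w : W) (r : R) : (Finsupp.single w r : W →₀ R) = r • Finsupp.single w 1 := by
  simp

theorem SD.sq (hS : SD R q ε ε') : ε * ε = 1 + q * ε := by
  have h1 := hS.sum
  have h2 := hS.prod
  rw [← h1]; linear_combination (-1 : R) * h2

theorem Rop_ev (hS : SD R q ε ε') (j : B) : Rop cs q j (ev cs ε' j) = ε • ev cs ε' j := by
  have h1 := hS.sum
  have h2 := hS.prod
  unfold ev
  rw [single_one_smul 1 (-ε'), map_add, map_smul, Rop_single, Rop_single]
  have e1 : D cs (cs.simple j)⁻¹ (cs.simple j) = 1 := by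
    rw [cs.inv_simple, D_simple, if_pos rfl]
  have e2 : D cs (1 : W)⁻¹ (cs.simple j) = 0 := by rw [inv_one, D_one]
  rw [e1, e2, if_pos rfl, if_neg (by decide), cs.simple_mul_simple_self, one_mul,
    Finsupp.single_zero, add_zero, single_one_smul (cs.simple j) q]
  have e3 : q + -ε' = ε := by rw [← h1]; ring
  have e4 : ε * -ε' = 1 := by rw [mul_neg, h2, neg_neg]
  rw [smul_add, smul_smul, e4, one_smul, add_assoc, ← add_smul, e3, add_comm]

theorem Lop_ev (hS : SD R q ε ε') (j : B) : Lop cs q j (ev cs ε' j) = ε • ev cs ε' j := by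
  have h1 := hS.sum
  have h2 := hS.prod
  unfold ev
  rw [single_one_smul 1 (-ε'), map_add, map_smul, Lop_single, Lop_single]
  have e1 : D cs (cs.simple j) (cs.simple j) = 1 := by
    rw [D_simple, if_pos rfl]
  have e2 : D cs (1 : W) (cs.simple j) = 0 := by rw [D_one]
  rw [e1, e2, if_pos rfl, if_neg (by decide), cs.simple_mul_simple_self, mul_one,
    Finsupp.single_zero, add_zero, single_one_smul (cs.simple j) q]
  have e3 : q + -ε' = ε := by rw [← h1]; ring
  have e4 : ε * -ε' = 1 := by rw [mul_neg, h2, neg_neg]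
  rw [smul_add, smul_smul, e4, one_smul, add_assoc, ← add_smul, e3, add_comm]

/-- the one-dimensional character as a functional -/
noncomputable def chiL (ε : R) : (W →₀ R) →ₗ[R] R :=
  Finsupp.linearCombination R (fun w => ε ^ cs.length w)

theorem chiL_single (ε : R) (w : W) (r : R) :
    chiL cs ε (Finsupp.single w r) = r * ε ^ cs.length w := by
  simp [chiL, Finsupp.linearCombination_single]

theorem chiL_Lop (hS : SD R q ε ε') (i : B) (x : W →₀ R) :
    chiL cs ε (Lop cs q i x) = ε * chiL cs ε x := by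
  induction x using Finsupp.induction_linear with
  | zero => simp
  | add f g hf hg => rw [map_add, map_add, hf, hg, map_add]; ring
  | single w r =>
    rw [single_one_smul w r, map_smul, map_smul, map_smul, Lop_single, map_add, chiL_single,
      chiL_single, chiL_single, smul_eq_mul, smul_eq_mul]
    have hr := cs.isReflection_simple i
    rcases zmod2_cases (D cs w (cs.simple i)) with hD | hD
    · have h1 := (D_eq_zero_iff cs w hr).mp hD
      have h2 := cs.length_simple_mul w i
      have h3 : cs.length (cs.simple i * w) = cs.length w + 1 := by omega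
      rw [hD, if_neg (by decide), h3]; ring
    · have h1 := (D_eq_one_iff cs w hr).mp hD
      have h2 := cs.length_simple_mul w i
      have h3 : cs.length w = cs.length (cs.simple i * w) + 1 := by omega
      rw [hD, if_pos rfl, h3]
      have := hS.sq
      linear_combination (-r * ε ^ cs.length (cs.simple i * w)) * this

/-- `ε` as a unit -/
def SD.unit (hS : SD R q ε ε') : Rˣ where
  val := ε
  inv := -ε'
  val_inv := by rw [mul_neg, hS.prod, neg_neg]
  inv_val := by rw [neg_mul, mul_comm, hS.prod, neg_neg]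

/-- the triple group generators -/
noncomputable def tx (M : CoxeterMatrix B) (i j : B) (u : Rˣ) :
    Bool → BraidGroup M × (Matrix.SpecialLinearGroup (Fin 2) ℝ) × Rˣ :=
  fun b => (bx M i j b, Tmat (M i j) b, u)

theorem bx_braid {i j : B} (hij : i ≠ j) (hM : M i j ≠ 0) :
    alt (bx M i j) true (M i j) = alt (bx M i j) false (M i j) := by
  have h1 : (PresentedGroup.mk (braidRels M)) (altProd (FreeGroup.of i) (FreeGroup.of j) (M i j) *
      (altProd (FreeGroup.of j) (FreeGroup.of i) (M i j))⁻¹) = 1 := by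
    apply (PresentedGroup.mk_eq_one_iff).mpr
    apply Subgroup.subset_normalClosure
    exact ⟨i, j, hij, hM, rfl⟩
  rw [map_mul, map_inv, map_altProd, map_altProd, mul_inv_eq_one] at h1
  rw [alt_eq_altProd, alt_eq_altProd]
  exact h1

theorem alt_const {G : Type*} [Monoid G] (u : G) (c : Bool) (l : ℕ) :
    alt (fun _ => u) c l = u ^ l := by
  induction l generalizing c with
  | zero => simp
  | succ l ih => rw [alt_succ, ih, pow_succ']

theorem tx_braid {i j : B} (hij : i ≠ j) (hm : 3 ≤ M i j) (u : Rˣ) :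
    alt (tx M i j u) true (M i j) = alt (tx M i j u) false (M i j) := by
  apply Prod.ext
  · have h : ∀ c, (alt (tx M i j u) c (M i j)).1 = alt (bx M i j) c (M i j) := fun c =>
      map_alt (tx M i j u) (MonoidHom.fst _ _) c (M i j)
    rw [h, h, bx_braid hij (by omega)]
  · apply Prod.ext
    · have h : ∀ c, (alt (tx M i j u) c (M i j)).2.1 = alt (Tmat (M i j)) c (M i j) := fun c =>
        map_alt (tx M i j u) ((MonoidHom.fst _ _).comp (MonoidHom.snd _ _)) c (M i j)
      rw [h, h, Tmat_braid hm]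
    · have h : ∀ c, (alt (tx M i j u) c (M i j)).2.2 = u ^ (M i j) := fun c => by
        have := map_alt (tx M i j u) ((MonoidHom.snd _ _).comp (MonoidHom.snd _ _)) c (M i j)
        rw [show (alt (tx M i j u) c (M i j)).2.2 = _ from this]
        exact alt_const u c _
      rw [h, h]

theorem pair_image_bx (i j : B) :
    (fun i => (PresentedGroup.of i : BraidGroup M)) '' {i, j} = Set.range (bx M i j) := by
  ext w
  constructor
  · rintro ⟨k, hk, rfl⟩
    rcases hk with rfl | hk
    · exact ⟨true, by simp [bx, pr]⟩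
    · rw [Set.mem_singleton_iff] at hk; subst hk
      exact ⟨false, by simp [bx, pr]⟩
  · rintro ⟨b, rfl⟩
    cases b
    · exact ⟨j, by simp, by simp [bx, pr]⟩
    · exact ⟨i, by simp, by simp [bx, pr]⟩

theorem lift_tx {i j : B} (u : Rˣ) {g : BraidGroup M} (hg : g ∈ BP M {i, j}) :
    ∃ g' ∈ Subgroup.closure (Set.range (tx M i j u)), g'.1 = g := by
  unfold BP at hg
  rw [pair_image_bx] at hg
  induction hg using Subgroup.closure_induction with
  | mem x hx =>
    obtain ⟨b, rfl⟩ := hx
    exact ⟨tx M i j u b, Subgroup.subset_closure ⟨b, rfl⟩, rfl⟩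
  | one => exact ⟨1, Subgroup.one_mem _, rfl⟩
  | mul x y _ _ ihx ihy =>
    obtain ⟨x', hx', rfl⟩ := ihx
    obtain ⟨y', hy', rfl⟩ := ihy
    exact ⟨x' * y', Subgroup.mul_mem _ hx' hy', rfl⟩
  | inv x _ ihx =>
    obtain ⟨x', hx', rfl⟩ := ihx
    exact ⟨x'⁻¹, Subgroup.inv_mem _ hx', rfl⟩

theorem chiL_act (hS : SD R q ε ε') {i j : B}
    {g : BraidGroup M × (Matrix.SpecialLinearGroup (Fin 2) ℝ) × Rˣ}
    (hg : g ∈ Subgroup.closure (Set.range (tx M i j hS.unit))) (x : W →₀ R) :
    chiL cs ε (act cs q g.1 x) = (g.2.2 : R) * chiL cs ε x := by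
  induction hg using Subgroup.closure_induction_left generalizing x with
  | one => simp
  | mul_left y hy z hz ih =>
    obtain ⟨b, rfl⟩ := hy
    rw [Prod.fst_mul, act_mul_apply, Prod.snd_mul, Prod.snd_mul, Units.val_mul]
    have h1 : act cs q (tx M i j hS.unit b).1 (act cs q z.1 x) =
        Lop cs q (pr i j b) (act cs q z.1 x) := by
      show act cs q (PresentedGroup.of (pr i j b)) _ = _
      rw [act_of]; rfl
    rw [h1, chiL_Lop cs hS, ih]
    show ε * _ = ε * _ * _
    ring
  | inv_mul_cancel y hy z hz ih =>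
    obtain ⟨b, rfl⟩ := hy
    rw [Prod.fst_mul, act_mul_apply, Prod.snd_mul, Prod.snd_mul, Units.val_mul]
    have h1 : act cs q (tx M i j hS.unit b)⁻¹.1 (act cs q z.1 x) =
        Lop cs q (pr i j b) (act cs q z.1 x) - q • (act cs q z.1 x) := by
      show act cs q (PresentedGroup.of (pr i j b))⁻¹ _ = _
      rw [map_inv, act_of]; rfl
    rw [h1, map_sub, chiL_Lop cs hS, ih, map_smul, ih, smul_eq_mul]
    show ε * _ - _ = -ε' * _ * _
    have := hS.sum
    linear_combination ((z.2.2 : R) * chiL cs ε x) * this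

theorem Ev_act {i j : B} (hij : i ≠ j) (hm : 3 ≤ M i j) (hS : SD R q ε ε') (ψ : R →+* ℂ)
    (h1 : ψ ε = -Complex.I) (h2 : ψ ε' = -Complex.I)
    {g : BraidGroup M × (Matrix.SpecialLinearGroup (Fin 2) ℝ) × Rˣ}
    (hg : g ∈ Subgroup.closure (Set.range (tx M i j hS.unit))) (x : W →₀ R) :
    Ev cs i j ψ (act cs q g.1 x) = ψ (g.2.2 : R) • (mc g.2.1 *ᵥ Ev cs i j ψ x) := by
  have hψ : ψ q = -2 * Complex.I := by rw [← hS.sum, map_add, h1, h2]; ring
  have key : ∀ b x, Ev cs i j ψ (act cs q (PresentedGroup.of (pr i j b)) x) =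
      ψ ε • (mc (Tmat (M i j) b) *ᵥ Ev cs i j ψ x) := by
    intro b x
    rw [act_of, Leq_apply, Ev_Lop cs q ψ hij hm hψ, h1, ro, Matrix.smul_mulVec]
  induction hg using Subgroup.closure_induction_left generalizing x with
  | one => simp
  | mul_left y hy z hz ih =>
    obtain ⟨b, rfl⟩ := hy
    rw [Prod.fst_mul, act_mul_apply, Prod.snd_mul, Prod.snd_mul, Prod.fst_mul, Units.val_mul,
      map_mul, map_mul]
    have h3 := key b (act cs q z.1 x)
    rw [ih] at h3
    show Ev cs i j ψ (act cs q (PresentedGroup.of (pr i j b)) (act cs q z.1 x)) =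
      (ψ ε * _) • ((mc (Tmat (M i j) b) * mc z.2.1) *ᵥ _)
    rw [h3, Matrix.mulVec_smul, smul_smul, Matrix.mulVec_mulVec]
  | inv_mul_cancel y hy z hz ih =>
    obtain ⟨b, rfl⟩ := hy
    rw [Prod.fst_mul, act_mul_apply, Prod.snd_mul, Prod.snd_mul, Prod.fst_mul, Units.val_mul,
      map_mul, map_mul]
    have h3 := key b (act cs q (PresentedGroup.of (pr i j b))⁻¹ (act cs q z.1 x))
    have h4 : act cs q (PresentedGroup.of (pr i j b))
        (act cs q (PresentedGroup.of (pr i j b))⁻¹ (act cs q z.1 x)) = act cs q z.1 x := by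
      rw [← act_mul_apply, mul_inv_cancel, map_one]; rfl
    rw [h4, ih] at h3
    show Ev cs i j ψ (act cs q (PresentedGroup.of (pr i j b))⁻¹ (act cs q z.1 x)) =
      (ψ (-ε') * _) • ((mc (Tmat (M i j) b)⁻¹ * mc z.2.1) *ᵥ _)
    have h5 : mc (Tmat (M i j) b)⁻¹ * mc (Tmat (M i j) b) = 1 := by
      rw [← map_mul, inv_mul_cancel, map_one]
    have h6 : ψ (-ε') * ψ ε = 1 := by
      rw [← map_mul, neg_mul, mul_comm, hS.prod, neg_neg, map_one]
    have h7 : ∀ v : Fin 2 → ℂ, v = ψ (-ε') • (mc (Tmat (M i j) b)⁻¹ *ᵥ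
        (ψ ε • (mc (Tmat (M i j) b) *ᵥ v))) := by
      intro v
      rw [Matrix.mulVec_smul, smul_smul, h6, one_smul, Matrix.mulVec_mulVec, h5,
        Matrix.one_mulVec]
    rw [h7 (Ev cs i j ψ _), ← h3, Matrix.mulVec_smul, smul_smul, Matrix.mulVec_mulVec]

end dihbase

end Pool.Agent.HeckeCox
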