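import Mathlib
import Pool.Agent.Lib_helper18.Hecke.DihBase

set_option autoImplicit false

/-! Property `Q` for finite dihedral groups, main part. -/

namespace Pool.Agent.HeckeCox

open CoxeterSystem
open scoped Matrix

section dihmain

variable {B W : Type*} [Group W] {M : CoxeterMatrix B} (cs : CoxeterSystem M W)
variable {R : Type*} [CommRing R] {q ε ε' : R}

theorem simple_ne {i j : B} (hij : i ≠ j) : cs.simple i ≠ cs.simple j :=
  fun h => hij (simple_injective cs h)

theorem simple_ne_one (i : B) : cs.simple i ≠ 1 := by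
  intro h
  have := cs.length_simple i
  rw [h, cs.length_one] at this
  exact zero_ne_one this

theorem Lop_ev_other {i j : B} (hij : i ≠ j) (q ε' : R) : Lop cs q i (ev cs ε' j) =
    Finsupp.single (cs.simple i * cs.simple j) 1 + Finsupp.single (cs.simple i) (-ε') := by
  unfold ev
  rw [single_one_smul 1 (-ε'), map_add, map_smul, Lop_single, Lop_single]
  have e1 : D cs (cs.simple j) (cs.simple i) = 0 := by
    rw [D_simple, if_neg (simple_ne cs hij)]
  have e2 : D cs (1 : W) (cs.simple i) = 0 := by rw [D_one]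
  rw [e1, e2, if_neg (by decide), mul_one, Finsupp.single_zero, add_zero,
    Finsupp.single_zero, add_zero, ← single_one_smul]

/-- coordinates of eigenvectors supported on `{1, s_i, s_j, s_i s_j}` -/
theorem coords {i j : B} (hij : i ≠ j) (hS : SD R q ε ε') {y : W →₀ R}
    (hy : Supp (WPP cs {i} {j}) y) (hR : Rop cs q j y = ε • y) :
    y = y (cs.simple j) • ev cs ε' j + y (cs.simple i * cs.simple j) • Lop cs q i (ev cs ε' j) := by
  classical
  rw [Lop_ev_other cs hij]
  have hprod := hS.prod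
  have k1 : y 1 = -ε' * y (cs.simple j) := by
    have h := DFunLike.congr_fun hR 1
    rw [Rop_apply, Finsupp.smul_apply, smul_eq_mul, one_mul, inv_one, D_one, if_neg (by decide),
      zero_mul, add_zero] at h
    rw [h]; linear_combination (y 1) * hprod
  have k2 : y (cs.simple i) = -ε' * y (cs.simple i * cs.simple j) := by
    have h := DFunLike.congr_fun hR (cs.simple i)
    rw [Rop_apply, Finsupp.smul_apply, smul_eq_mul, cs.inv_simple, D_simple,
      if_neg (simple_ne cs hij.symm), if_neg (by decide), zero_mul, add_zero] at h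
    rw [h]; linear_combination (y (cs.simple i)) * hprod
  have n1 := simple_ne cs hij
  have n2 := simple_ne_one cs i
  have n3 := simple_ne_one cs j
  have n4 : cs.simple i * cs.simple j ≠ 1 := by
    intro h
    apply n1
    have := congrArg (fun z => z * cs.simple j) h
    simpa [mul_assoc] using this
  have n5 : cs.simple i * cs.simple j ≠ cs.simple i := by
    intro h; exact n3 (mul_eq_left.mp h)
  have n6 : cs.simple i * cs.simple j ≠ cs.simple j := by
    intro h; exact n2 (mul_eq_right.mp h)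
  ext w
  simp only [ev, Finsupp.add_apply, Finsupp.smul_apply, Finsupp.single_apply, smul_eq_mul]
  by_cases hw : w ∈ WPP cs {i} {j}
  · obtain ⟨a, ha, b, hb, rfl⟩ := hw
    rcases mem_WP_singleton cs ha with rfl | rfl <;> rcases mem_WP_singleton cs hb with rfl | rfl
    · rw [mul_one, k1]
      simp [n3, n4, n2]
      ring
    · rw [one_mul]
      simp [n3.symm, n6, n1]
    · rw [mul_one, k2]
      simp [n1.symm, n2.symm, n5]
      ring
    · simp [n6.symm, n5.symm, n4.symm]
  · have hw0 : y w = 0 := by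
      by_contra h; exact hw (hy w h)
    rw [hw0]
    have m1 : cs.simple j ≠ w := by
      rintro rfl
      exact hw ⟨1, Subgroup.one_mem _, cs.simple j, simple_mem_WP cs rfl, by simp⟩
    have m2 : (1 : W) ≠ w := by
      rintro rfl
      exact hw ⟨1, Subgroup.one_mem _, 1, Subgroup.one_mem _, by simp⟩
    have m3 : cs.simple i ≠ w := by
      rintro rfl
      exact hw ⟨cs.simple i, simple_mem_WP cs rfl, 1, Subgroup.one_mem _, by simp⟩
    have m4 : cs.simple i * cs.simple j ≠ w := by
      rintro rfl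
      exact hw ⟨cs.simple i, simple_mem_WP cs rfl, cs.simple j, simple_mem_WP cs rfl, rfl⟩
    simp [m1, m2, m3, m4]

theorem chiL_ev (ε ε' : R) (j : B) : chiL cs ε (ev cs ε' j) = ε - ε' := by
  unfold ev
  rw [map_add, chiL_single, chiL_single, cs.length_simple, cs.length_one]
  ring

/-- complex cusp vector -/
def fc : Fin 2 → ℂ := ![0, 1]

theorem Ev_ev {i j : B} (hij : i ≠ j) (hm : 3 ≤ M i j) (ψ : R →+* ℂ) (h2 : ψ ε' = -Complex.I) :
    Ev cs i j ψ (ev cs ε' j) = (Complex.I * (lam (M i j) : ℂ)) • fc := by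
  have e1 : vec cs i j (cs.simple j) = ro (M i j) false *ᵥ vinf := by
    have := vec_alt cs hij hm false (l := 1) (by omega)
    rw [alt_one, alt_one] at this
    exact this
  have e2 : vec cs i j (1 : W) = vinf := by
    have := vec_alt cs hij hm false (l := 0) (by omega)
    rw [alt_zero, alt_zero, Matrix.one_mulVec] at this
    exact this
  unfold ev
  rw [Ev_add, Ev_single, Ev_single, e1, e2, map_one, map_neg, h2, one_smul]
  ext k
  fin_cases k
  · simp [ro, mc_apply, mt_Tmat_false, Matrix.mulVec, dotProduct, Fin.sum_univ_two, vinf, fc]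
  · simp [ro, mc_apply, mt_Tmat_false, Matrix.mulVec, dotProduct, Fin.sum_univ_two, vinf, fc]

theorem ro_fc (m : ℕ) : ro m true *ᵥ fc = ![-Complex.I * (lam m : ℂ), -Complex.I] := by
  ext k
  fin_cases k
  · simp [ro, mc_apply, mt_Tmat_true, fc]
  · simp [ro, mc_apply, mt_Tmat_true, fc]

theorem Ttrue_zpow (m : ℕ) (n : ℤ) : mt (Tmat m true ^ n) *ᵥ fvec = ![(n : ℝ) * lam m, 1] := by
  have h1 : ∀ a : ℝ, mt (Tmat m true) *ᵥ ![a, 1] = ![a + lam m, 1] := by
    intro a
    rw [mt_Tmat_true]
    ext i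
    fin_cases i <;> simp [Matrix.mulVec, dotProduct, Fin.sum_univ_two]
  have h2 : ∀ a : ℝ, mt (Tmat m true)⁻¹ *ᵥ ![a, 1] = ![a - lam m, 1] := by
    intro a
    have := h1 (a - lam m)
    rw [sub_add_cancel] at this
    rw [← this, ← mt_mul_mulVec, inv_mul_cancel, map_one, Matrix.one_mulVec]
  induction n using Int.induction_on with
  | zero => simp [fvec]
  | succ k ih =>
    rw [add_comm, zpow_add, zpow_one, mt_mul_mulVec, ih, h1]
    congr 1
    push_cast; ring
  | pred k ih =>
    rw [sub_eq_neg_add, zpow_add, zpow_neg_one, mt_mul_mulVec, ih, h2]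
    congr 1
    push_cast; ring

theorem act_zpow_ev (hS : SD R q ε ε') (j : B) (n : ℤ) :
    act cs q ((PresentedGroup.of j : BraidGroup M) ^ n) (ev cs ε' j) =
      ((hS.unit ^ n : Rˣ) : R) • ev cs ε' j := by
  have h1 : act cs q (PresentedGroup.of j : BraidGroup M) (ev cs ε' j) = ε • ev cs ε' j := by
    rw [act_of, Leq_apply, Lop_ev cs hS]
  have h2 : act cs q (PresentedGroup.of j : BraidGroup M)⁻¹ (ev cs ε' j) =
      (-ε') • ev cs ε' j := by
    have h3 := congrArg (fun z => (-ε') • act cs q (PresentedGroup.of j : BraidGroup M)⁻¹ z) h1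
    simp only [act_inv_act, map_smul, smul_smul] at h3
    have h6 : -ε' * ε = 1 := by rw [neg_mul, mul_comm, hS.prod, neg_neg]
    rw [h6, one_smul] at h3
    exact h3.symm
  induction n using Int.induction_on with
  | zero => simp
  | succ k ih =>
    rw [zpow_add_one, act_mul_apply, h1, map_smul, ih, smul_smul, zpow_add_one, Units.val_mul]
    congr 1
    exact mul_comm _ _
  | pred k ih =>
    rw [zpow_sub_one, act_mul_apply, h2, map_smul, ih, smul_smul, zpow_sub_one, Units.val_mul]
    congr 1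
    exact mul_comm _ _

theorem length_le_of_mem_WPP {i j : B} {w : W} (h : w ∈ WPP cs {i} {j}) : cs.length w ≤ 2 := by
  obtain ⟨a, ha, b, hb, rfl⟩ := h
  have h1 := cs.length_mul_le a b
  have h2 : cs.length a ≤ 1 := by
    rcases mem_WP_singleton cs ha with rfl | rfl
    · simp
    · rw [cs.length_simple]
  have h3 : cs.length b ≤ 1 := by
    rcases mem_WP_singleton cs hb with rfl | rfl
    · simp
    · rw [cs.length_simple]
  omega

/-- exclusion of the centre -/
theorem center_excl {i j : B} (hij : i ≠ j) (hm : 3 ≤ M i j) (hS : SD R q ε ε') {k : ℤ}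
    (h : Supp (WPP cs {i} {j}) (act cs q (alt (bx M i j) true (M i j) ^ k) (ev cs ε' j))) :
    k = 0 := by
  classical
  set w0 := alt (sx cs i j) true (M i j) with hw0
  have hzero : act cs q (alt (bx M i j) true (M i j) ^ k) (ev cs ε' j) w0 = 0 := by
    by_contra hne
    have h1 := length_le_of_mem_WPP cs (h _ hne)
    rw [hw0, length_alt cs hij true (Or.inr le_rfl)] at h1
    omega
  have hmem : alt (bx M i j) true (M i j) ∈ BP M {i, j} := by
    have : ∀ c l, alt (bx M i j) c l ∈ BP M {i, j} := by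
      intro c l
      induction l generalizing c with
      | zero => exact Subgroup.one_mem _
      | succ l ih =>
        refine Subgroup.mul_mem _ (of_mem_BP ?_) (ih _)
        cases c <;> simp [pr]
    exact this _ _
  have hNn : ∀ φ : R →+* ℝ, φ ε' < 0 → Nn (bc φ (ev cs ε' j)) ∧ 0 < bc φ (ev cs ε' j) 1 := by
    intro φ hφ
    have e : ∀ w, bc φ (ev cs ε' j) w = (if cs.simple j = w then 1 else 0) +
        (if 1 = w then -φ ε' else 0) := by
      intro w
      rw [bc_apply, ev, Finsupp.add_apply, Finsupp.single_apply, Finsupp.single_apply, map_add]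
      split_ifs <;> simp
    constructor
    · intro w
      rw [e]
      split_ifs <;> first | linarith | norm_num
    · rw [e]
      rw [if_neg (simple_ne_one cs j), if_pos rfl]
      linarith
  rcases lt_trichotomy k 0 with hk | hk | hk
  · exfalso
    obtain ⟨φ, hφ', hφ⟩ := hS.neg
    obtain ⟨N, hN⟩ : ∃ N : ℕ, k = -((N + 1 : ℕ) : ℤ) := ⟨(-k).toNat - 1, by omega⟩
    obtain ⟨h1, h2⟩ := hNn φ hφ'
    have h3 := (delta_neg cs (φ q) (i := i) (j := j) hφ h1 h2 N).2
    rw [← bc_act cs q φ (K := {i, j}) (Subgroup.pow_mem _ (Subgroup.inv_mem _ hmem) _),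
      bc_apply] at h3
    rw [hN, zpow_neg, zpow_natCast, ← inv_pow] at hzero
    rw [hzero, map_zero] at h3
    exact lt_irrefl _ h3
  · exact hk
  · exfalso
    obtain ⟨φ, hφ', hφ⟩ := hS.pos
    obtain ⟨N, hN⟩ : ∃ N : ℕ, k = ((N + 1 : ℕ) : ℤ) := ⟨k.toNat - 1, by omega⟩
    obtain ⟨h1, h2⟩ := hNn φ hφ'
    have h3 := (delta_pos cs (φ q) hij (by omega) hφ h1 h2 N).2
    rw [← bc_act cs q φ (K := {i, j}) (Subgroup.pow_mem _ hmem _), bc_apply] at h3
    rw [hN, zpow_natCast] at hzero
    rw [hzero, map_zero] at h3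
    exact lt_irrefl _ h3

theorem dih_main [IsDomain R] {i j : B} (hij : i ≠ j) (hm : 3 ≤ M i j) (hS : SD R q ε ε')
    {g : BraidGroup M} (hg : g ∈ BP M {i, j})
    (h : Supp (WPP cs {i} {j}) (act cs q g (ev cs ε' j))) :
    ∃ a ∈ BP M {i}, ∃ b ∈ BP M {j}, g = a * b := by
  obtain ⟨G, hG, rfl⟩ := lift_tx (M := M) hS.unit hg
  set y := act cs q G.1 (ev cs ε' j) with hy
  have hR : Rop cs q j y = ε • y := by
    rw [hy, ← act_Rop cs q hg, Rop_ev cs hS, map_smul]
  have hco := coords cs hij hS h hR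
  set α := y (cs.simple j) with hα
  set β := y (cs.simple i * cs.simple j) with hβ
  -- the one-dimensional character
  have hchi : (G.2.2 : R) = α + β * ε := by
    have h1 := chiL_act cs hS hG (ev cs ε' j)
    rw [← hy, hco, map_add, map_smul, map_smul, chiL_Lop cs hS, chiL_ev cs ε ε', smul_eq_mul,
      smul_eq_mul] at h1
    have h2 : ε - ε' ≠ 0 := sub_ne_zero.mpr hS.ne
    apply mul_right_cancel₀ h2
    rw [← h1]; ring
  -- evaluation at `v = i`
  obtain ⟨ψ, hψ1, hψ2, hψ3⟩ := hS.ev
  have hψq : ψ q = -2 * Complex.I := by rw [← hS.sum, map_add, hψ1, hψ2]; ring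
  have hev := Ev_act cs hij hm hS ψ hψ1 hψ2 hG (ev cs ε' j)
  rw [← hy, hco, Ev_add, Ev_smul, Ev_smul] at hev
  have hLi : Ev cs i j ψ (Lop cs q i (ev cs ε' j)) =
      ro (M i j) true *ᵥ Ev cs i j ψ (ev cs ε' j) := by
    have := Ev_Lop cs q ψ hij hm hψq true (ev cs ε' j)
    exact this
  rw [hLi, Ev_ev cs hij hm ψ hψ2, Matrix.mulVec_smul, Matrix.mulVec_smul] at hev
  have hlam : (lam (M i j) : ℂ) ≠ 0 := by
    have := (lam_pos hm).ne'
    exact_mod_cast this
  have hκ : Complex.I * (lam (M i j) : ℂ) ≠ 0 := mul_ne_zero Complex.I_ne_zero hlam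
  set n : ℂ := ψ (((G.2.2⁻¹ : Rˣ) : R) * β * ε) with hn
  have hu1 : ψ ((G.2.2⁻¹ : Rˣ) : R) * ψ (G.2.2 : R) = 1 := by
    rw [← map_mul, Units.inv_mul, map_one]
  have hvec : mc G.2.1 *ᵥ fc = ![n * (lam (M i j) : ℂ), 1] := by
    have h0 : ψ (G.2.2 : R) • (mc G.2.1 *ᵥ fc) = ψ α • fc + ψ β • (ro (M i j) true *ᵥ fc) := by
      have h1 : (Complex.I * (lam (M i j) : ℂ)) • (ψ (G.2.2 : R) • (mc G.2.1 *ᵥ fc)) =
          (Complex.I * (lam (M i j) : ℂ)) • (ψ α • fc + ψ β • (ro (M i j) true *ᵥ fc)) := by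
        rw [smul_comm, ← hev, smul_add, smul_comm (ψ α), smul_comm (ψ β)]
      exact smul_right_injective _ hκ h1
    have h1 := congrArg (fun z => ψ ((G.2.2⁻¹ : Rˣ) : R) • z) h0
    simp only [smul_smul, hu1, one_smul] at h1
    rw [h1]
    have hchi' : ψ (G.2.2 : R) = ψ α + ψ β * (-Complex.I) := by
      rw [hchi, map_add, map_mul, hψ1]
    have h9 : ψ ((G.2.2⁻¹ : Rˣ) : R) * (ψ α + ψ β * (-Complex.I)) = 1 := by
      rw [← hchi', hu1]
    rw [ro_fc, hn, map_mul, map_mul, hψ1]
    clear_value n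
    generalize ψ ((G.2.2⁻¹ : Rˣ) : R) = κ at h9 ⊢
    ext k
    fin_cases k
    · simp [fc]
      ring
    · simp [fc]
      linear_combination h9
  -- integrality
  obtain ⟨a, b, hab⟩ := hψ3 (((G.2.2⁻¹ : Rˣ) : R) * β * ε)
  rw [← hn] at hab
  have e01 : ((mt G.2.1 0 1 : ℝ) : ℂ) = n * (lam (M i j) : ℂ) := by
    have := congrFun hvec 0
    simpa [mc_apply, Matrix.mulVec, dotProduct, Fin.sum_univ_two, fc] using this
  have e11 : ((mt G.2.1 1 1 : ℝ) : ℂ) = 1 := by
    have := congrFun hvec 1
    simpa [mc_apply, Matrix.mulVec, dotProduct, Fin.sum_univ_two, fc] using this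
  have hb0 : (b : ℝ) = 0 := by
    rw [hab] at e01
    have := congrArg Complex.im e01
    simp at this
    rcases this with h | h
    · exact_mod_cast h
    · exact absurd h (lam_pos hm).ne'
  have e01' : mt G.2.1 0 1 = a * lam (M i j) := by
    rw [hab] at e01
    have := congrArg Complex.re e01
    simpa using this
  have e11' : mt G.2.1 1 1 = 1 := by exact_mod_cast e11
  have hf : mt G.2.1 *ᵥ fvec = ![(a : ℝ) * lam (M i j), 1] := by
    ext k
    fin_cases k
    · simp [Matrix.mulVec, dotProduct, Fin.sum_univ_two, fvec, e01']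
    · simp [Matrix.mulVec, dotProduct, Fin.sum_univ_two, fvec, e11']
  -- the corrected element
  set X := tx M i j hS.unit with hX
  have hG' : X true ^ (-a) * G ∈ Subgroup.closure (Set.range X) :=
    Subgroup.mul_mem _ (Subgroup.zpow_mem _ (Subgroup.subset_closure (Set.mem_range_self true)) _) hG
  have hfix : mt (((MonoidHom.fst _ _).comp (MonoidHom.snd (BraidGroup M)
      ((Matrix.SpecialLinearGroup (Fin 2) ℝ) × Rˣ))) (X true ^ (-a) * G)) *ᵥ fvec = fvec := by
    rw [map_mul, map_zpow, mt_mul_mulVec]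
    show mt (Tmat (M i j) true ^ (-a)) *ᵥ (mt G.2.1 *ᵥ fvec) = fvec
    rw [hf, ← Ttrue_zpow, ← mt_mul_mulVec, ← zpow_add, neg_add_cancel, zpow_zero, map_one,
      Matrix.one_mulVec]
  obtain ⟨k, n', hkn⟩ := stab hm (tx_braid hij hm hS.unit) _ (fun b => rfl) hG' hfix
  have hkn1 : (PresentedGroup.of i : BraidGroup M) ^ (-a) * G.1 =
      alt (bx M i j) true (M i j) ^ k * (PresentedGroup.of j : BraidGroup M) ^ n' := by
    have h1 := congrArg (MonoidHom.fst (BraidGroup M)
      ((Matrix.SpecialLinearGroup (Fin 2) ℝ) × Rˣ)) hkn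
    rw [map_mul, map_mul, map_zpow, map_zpow, map_zpow, map_alt] at h1
    exact h1
  have hk : k = 0 := by
    apply center_excl cs hij hm hS
    have h1 : Supp (WPP cs {i} {j}) (act cs q
        ((PresentedGroup.of i : BraidGroup M) ^ (-a) * G.1) (ev cs ε' j)) := by
      rw [act_mul_apply]
      exact supp_act_WPP cs q (of_zpow_mem i _) h
    rw [hkn1, act_mul_apply, act_zpow_ev cs hS, map_smul] at h1
    intro w hw
    apply h1 w
    rw [Finsupp.smul_apply, smul_eq_mul]
    exact mul_ne_zero (Units.ne_zero _) hw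
  rw [hk, zpow_zero, one_mul] at hkn1
  refine ⟨(PresentedGroup.of i : BraidGroup M) ^ a, of_zpow_mem i _,
    (PresentedGroup.of j : BraidGroup M) ^ n', of_zpow_mem j _, ?_⟩
  rw [← hkn1, ← mul_assoc, ← zpow_add, add_neg_cancel, zpow_zero, one_mul]

end dihmain

end Pool.Agent.HeckeCox
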