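import Mathlib
import Pool.Agent.Lib_helper18.Hecke.DihMain
import Pool.Agent.Lib_helper18.Hecke.Amal

set_option autoImplicit false

/-! Final assembly. -/

namespace Pool.Agent.HeckeCox

open CoxeterSystem

section fin

variable {B W : Type*} [Group W] {M : CoxeterMatrix B} (cs : CoxeterSystem M W)
variable {R : Type*} [CommRing R] {q ε ε' : R}

theorem reduce {j : B} (hS : SD R q ε ε') {c : W →₀ R} (hc : Supp (WP cs {j} : Set W) c) :
    Rop cs q j c - ε' • c = (c 1 + c (cs.simple j) * ε) • ev cs ε' j := by
  classical
  have h1 := hS.sum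
  have h2 := hS.prod
  have n3 := simple_ne_one cs j
  ext w
  simp only [ev, Finsupp.sub_apply, Finsupp.smul_apply, Finsupp.add_apply, Finsupp.single_apply,
    smul_eq_mul, Rop_apply]
  by_cases hw1 : w = 1
  · subst hw1
    rw [inv_one, D_one, if_neg (by decide), if_neg n3, if_pos rfl, one_mul]
    linear_combination (c (cs.simple j)) * h2
  · by_cases hwj : w = cs.simple j
    · subst hwj
      rw [cs.inv_simple, D_simple, if_pos rfl, if_pos rfl, if_pos rfl,
        cs.simple_mul_simple_self, if_neg (fun h => n3 h.symm)]
      rw [← h1]; ring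
    · have e1 : c w = 0 := by
        by_contra h
        rcases mem_WP_singleton cs (hc w h) with h | h
        · exact hw1 h
        · exact hwj h
      have e2 : c (w * cs.simple j) = 0 := by
        by_contra h
        rcases mem_WP_singleton cs (hc _ h) with h | h
        · apply hwj
          have := congrArg (fun z => z * cs.simple j) h
          simpa [mul_assoc] using this
        · apply hw1
          have := congrArg (fun z => z * cs.simple j) h
          simpa [mul_assoc] using this
      have m1 : cs.simple j ≠ w := fun h => hwj h.symm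
      have m2 : (1 : W) ≠ w := fun h => hw1 h.symm
      simp [e1, e2, m1, m2]

theorem supp_Rop {I : Set B} {j : B} {x : W →₀ R} (q : R) (hx : Supp (WPP cs I {j}) x) :
    Supp (WPP cs I {j}) (Rop cs q j x) := by
  have key : ∀ w, w * cs.simple j ∈ WPP cs I {j} → w ∈ WPP cs I {j} := by
    rintro w ⟨a, ha, b, hb, he⟩
    refine ⟨a, ha, b * cs.simple j, Subgroup.mul_mem _ hb (simple_mem_WP cs rfl), ?_⟩
    rw [← mul_assoc, ← he, mul_assoc, cs.simple_mul_simple_self, mul_one]
  intro w hw
  rw [Rop_apply] at hw
  by_contra hcon
  apply hw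
  have e1 : x w = 0 := by
    by_contra h; exact hcon (hx w h)
  have e2 : x (w * cs.simple j) = 0 := by
    by_contra h; exact hcon (key w (hx _ h))
  rw [e1, e2]; simp

theorem pair_main [IsDomain R] (S1 : SD R q ε ε') (S2 : SD R q ε' ε) {i j : B} (hij : i ≠ j)
    (hm : 3 ≤ M i j) {g : BraidGroup M} (hg : g ∈ BP M {i, j}) {c : W →₀ R} (hc : c ≠ 0)
    (hcj : Supp (WP cs {j} : Set W) c) (h : Supp (WPP cs {i} {j}) (act cs q g c)) :
    ∃ a ∈ BP M {i}, ∃ b ∈ BP M {j}, g = a * b := by
  have key : ∀ {ε ε' : R}, SD R q ε ε' → c 1 + c (cs.simple j) * ε ≠ 0 →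
      ∃ a ∈ BP M {i}, ∃ b ∈ BP M {j}, g = a * b := by
    intro ε ε' hS hne
    apply dih_main cs hij hm hS hg
    have e1 : (c 1 + c (cs.simple j) * ε) • act cs q g (ev cs ε' j) =
        Rop cs q j (act cs q g c) - ε' • act cs q g c := by
      rw [← map_smul, ← reduce cs hS hcj, map_sub, map_smul, act_Rop cs q hg]
    intro w hw
    have hw' : ((c 1 + c (cs.simple j) * ε) • act cs q g (ev cs ε' j)) w ≠ 0 := by
      rw [Finsupp.smul_apply, smul_eq_mul]
      exact mul_ne_zero hne hw
    rw [e1] at hw'
    by_contra hcon
    apply hw'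
    have e2 : Rop cs q j (act cs q g c) w = 0 := by
      by_contra h'; exact hcon (supp_Rop cs q h w h')
    have e3 : act cs q g c w = 0 := by
      by_contra h'; exact hcon (h w h')
    rw [Finsupp.sub_apply, Finsupp.smul_apply, e2, e3]; simp
  by_cases h1 : c 1 + c (cs.simple j) * ε = 0
  · by_cases h2 : c 1 + c (cs.simple j) * ε' = 0
    · exfalso
      have h3 : c (cs.simple j) * (ε - ε') = 0 := by linear_combination h1 - h2
      have h4 : c (cs.simple j) = 0 := by
        rcases mul_eq_zero.mp h3 with h | h
        · exact h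
        · exact absurd (sub_eq_zero.mp h) S1.ne
      have h5 : c 1 = 0 := by rw [h4, zero_mul, add_zero] at h1; exact h1
      obtain ⟨w, hw⟩ := exists_ne_zero hc
      rcases mem_WP_singleton cs (hcj w hw) with rfl | rfl
      · exact hw h5
      · exact hw h4
    · exact key S2 h2
  · exact key S1 h1

theorem WP_sub_WPP_left {I J : Set B} {w : W} (h : w ∈ WP cs I) : w ∈ WPP cs I J :=
  ⟨w, h, 1, Subgroup.one_mem _, by rw [mul_one]⟩

theorem WP_sub_WPP_right {I J : Set B} {w : W} (h : w ∈ WP cs J) : w ∈ WPP cs I J :=
  ⟨1, Subgroup.one_mem _, w, h, by rw [one_mul]⟩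

theorem WPP_sub_WP {I J K : Set B} (hI : I ⊆ K) (hJ : J ⊆ K) :
    WPP cs I J ⊆ (WP cs K : Set W) := by
  rintro w ⟨a, ha, b, hb, rfl⟩
  exact Subgroup.mul_mem _ (WP_mono cs hI ha) (WP_mono cs hJ hb)

theorem eq_one_of_mem {A C : Set B} (hA : A = ∅) (hC : C = ∅) {x : BraidGroup M}
    (h : ∃ a ∈ BP M A, ∃ b ∈ BP M C, x = a * b) : x = 1 := by
  subst hA hC
  obtain ⟨a, ha, b, hb, rfl⟩ := h
  rw [mem_BP_empty ha, mem_BP_empty hb, one_mul]

/-- half of the dihedral case: `J ⊆ {j}` -/
theorem half [IsDomain R] (S1 : SD R q ε ε') (S2 : SD R q ε' ε) {i j : B} (hij : i ≠ j)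
    (hm : 3 ≤ M i j) {I J : Set B} (hI : I ⊆ {i} ∨ I ⊆ {j}) (hJ : J ⊆ {j})
    {g : BraidGroup M} (hg : g ∈ BP M {i, j}) {c : W →₀ R} (hc : c ≠ 0)
    (hcJ : Supp (WP cs J : Set W) c) (h : Supp (WPP cs I J) (act cs q g c)) :
    ∃ a ∈ BP M I, ∃ b ∈ BP M J, g = a * b := by
  have hcj : Supp (WP cs {j} : Set W) c := hcJ.mono (WP_mono cs hJ)
  have hdisj : ({j} ∩ {i} : Set B) = ∅ := by
    ext k; simp only [Set.mem_inter_iff, Set.mem_singleton_iff, Set.mem_empty_iff_false, iff_false]
    rintro ⟨rfl, rfl⟩; exact hij rfl
  have hdisj' : ({i} ∩ {j} : Set B) = ∅ := by rw [Set.inter_comm]; exact hdisj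
  rcases hI with hI | hI
  · have h' : Supp (WPP cs {i} {j}) (act cs q g c) := h.mono (WPP_mono cs hI hJ)
    obtain ⟨a, ha, b, hb, rfl⟩ := pair_main cs S1 S2 hij hm hg hc hcj h'
    rw [act_mul_apply] at h
    -- the `b` part
    have hbJ : b ∈ BP M J := by
      by_cases hj : j ∈ J
      · exact BP_mono (by simpa using hj) hb
      · have hJ0 : J = ∅ := by
          ext k; simp only [Set.mem_empty_iff_false, iff_false]
          intro hk
          have := hJ hk
          rw [Set.mem_singleton_iff] at this
          subst this; exact hj hk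
        subst hJ0
        have h1 : Supp (WPP cs {i} ∅) (act cs q b c) := by
          have h2 : Supp (WPP cs {i} ∅) (act cs q a (act cs q b c)) :=
            h.mono (WPP_mono cs hI (subset_refl _))
          have h3 := supp_act_WPP cs q (Subgroup.inv_mem _ ha) h2
          rwa [act_inv_act] at h3
        have h4 := star cs q (QP_single cs S1 j) hb hc hcJ h1
        rw [eq_one_of_mem hdisj' (Set.empty_inter _) h4]
        exact Subgroup.one_mem _
    -- the `a` part
    have haI : ∃ a' ∈ BP M I, ∃ b' ∈ BP M J, a * b = a' * b' := by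
      by_cases hi : i ∈ I
      · exact ⟨a, BP_mono (by simpa using hi) ha, b, hbJ, rfl⟩
      · have hI0 : I = ∅ := by
          ext k; simp only [Set.mem_empty_iff_false, iff_false]
          intro hk
          have := hI hk
          rw [Set.mem_singleton_iff] at this
          subst this; exact hi hk
        subst hI0
        have h1 : Supp (WPP cs ∅ {j}) (act cs q a (act cs q b c)) :=
          h.mono (WPP_mono cs (subset_refl _) hJ)
        have h4 := star cs q (QP_single cs S1 i) ha (act_ne_zero cs q hc)
          (supp_act_WP cs q hb hcj) h1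
        have h5 := eq_one_of_mem (Set.empty_inter _) hdisj h4
        exact ⟨1, Subgroup.one_mem _, b, hbJ, by rw [h5]⟩
    exact haI
  · have h0 : Supp (WP cs {j} : Set W) (act cs q g c) := h.mono (WPP_sub_WP cs hI hJ)
    have h' : Supp (WPP cs {i} {j}) (act cs q g c) := h0.mono (fun w hw => WP_sub_WPP_right cs hw)
    obtain ⟨a, ha, b, hb, rfl⟩ := pair_main cs S1 S2 hij hm hg hc hcj h'
    rw [act_mul_apply] at h0
    have h1 : Supp (WPP cs ∅ {j}) (act cs q a (act cs q b c)) :=
      h0.mono (fun w hw => WP_sub_WPP_right cs hw)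
    have h4 := star cs q (QP_single cs S1 i) ha (act_ne_zero cs q hc)
      (supp_act_WP cs q hb hcj) h1
    have h5 := eq_one_of_mem (Set.empty_inter _) hdisj h4
    subst h5
    rw [one_mul] at h ⊢
    exact QP_single cs S1 j I hI J hJ b hb c hc hcJ h

theorem sub_cases {i j : B} {J : Set B} (hJ : J ⊆ {i, j}) :
    (i ∈ J ∧ j ∈ J) ∨ J ⊆ {j} ∨ J ⊆ {i} := by
  by_cases hi : i ∈ J
  · by_cases hj : j ∈ J
    · exact Or.inl ⟨hi, hj⟩
    · right; right
      intro k hk
      rcases hJ hk with h | h
      · exact h
      · rw [Set.mem_singleton_iff] at h; subst h; exact absurd hk hj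
  · right; left
    intro k hk
    rcases hJ hk with h | h
    · subst h; exact absurd hk hi
    · exact h

theorem QP_pair [IsDomain R] (S1 : SD R q ε ε') (S2 : SD R q ε' ε) {i j : B} (hij : i ≠ j)
    (hm : 3 ≤ M i j) : QP cs q {i, j} := by
  intro I hI J hJ g hg c hc hcJ h
  rcases sub_cases hI with ⟨h1, h2⟩ | hI'
  · exact ⟨g, BP_mono (by
      intro k hk
      rcases hk with rfl | hk
      · exact h1
      · rw [Set.mem_singleton_iff] at hk; subst hk; exact h2) hg, 1, Subgroup.one_mem _, by simp⟩
  rcases sub_cases hJ with ⟨h1, h2⟩ | hJ' | hJ'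
  · exact ⟨1, Subgroup.one_mem _, g, BP_mono (by
      intro k hk
      rcases hk with rfl | hk
      · exact h1
      · rw [Set.mem_singleton_iff] at hk; subst hk; exact h2) hg, by simp⟩
  · exact half cs S1 S2 hij hm hI'.symm hJ' hg hc hcJ h
  · exact half cs S1 S2 hij.symm (by rw [M.symmetric]; exact hm) hI' hJ'
      (by rw [Set.pair_comm]; exact hg) hc hcJ h

/-- the main induction -/
theorem QP_finset [IsDomain R] (S1 : SD R q ε ε') (S2 : SD R q ε' ε)
    (hM : ∀ s t u : B, s ≠ t → t ≠ u → s ≠ u → 3 ≤ M s t → 3 ≤ M t u → M s u = 0)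
    (P : Finset B) : QP cs q (P : Set B) := by
  classical
  induction hn : P.card using Nat.strong_induction_on generalizing P with
  | _ n ih =>
    by_cases hinf : ∃ s ∈ P, ∃ r ∈ P, s ≠ r ∧ M s r = 0
    · obtain ⟨s, hs, r, hr, hsr, h0⟩ := hinf
      let P' : Bool → Set B := fun b => if b then ((P.erase r : Finset B) : Set B)
        else ((P.erase s : Finset B) : Set B)
      have e1 : P' true = ((P.erase r : Finset B) : Set B) := rfl
      have e2 : P' false = ((P.erase s : Finset B) : Set B) := rfl
      have hU : P' true ∪ P' false = (P : Set B) := by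
        rw [e1, e2]
        ext k
        simp only [Finset.coe_erase, Set.mem_union, Set.mem_sdiff, Finset.mem_coe,
          Set.mem_singleton_iff]
        constructor
        · rintro (h | h) <;> exact h.1
        · intro hk
          by_cases hkr : k = r
          · right; exact ⟨hk, by rw [hkr]; exact hsr.symm⟩
          · left; exact ⟨hk, hkr⟩
      have hF : Free M P' := by
        intro b a ha ha' b' hb hb'
        cases b
        · simp only [Bool.not_false, e1, e2, Finset.coe_erase, Set.mem_sdiff, Finset.mem_coe,
            Set.mem_singleton_iff, not_and, not_not] at ha ha' hb hb'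
          rw [ha' ha.1, hb' hb.1, M.symmetric]; exact h0
        · simp only [Bool.not_true, e1, e2, Finset.coe_erase, Set.mem_sdiff, Finset.mem_coe,
            Set.mem_singleton_iff, not_and, not_not] at ha ha' hb hb'
          rw [ha' ha.1, hb' hb.1]; exact h0
      rw [← hU]
      apply QP_amalgam cs q hF
      intro b
      cases b
      · rw [e2]
        exact ih _ (by rw [← hn]; exact Finset.card_erase_lt_of_mem hs) _ rfl
      · rw [e1]
        exact ih _ (by rw [← hn]; exact Finset.card_erase_lt_of_mem hr) _ rfl
    · push Not at hinf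
      rcases P.eq_empty_or_nonempty with rfl | ⟨s, hs⟩
      · rw [Finset.coe_empty]; exact QP_empty cs q
      have key : ∀ a ∈ P, ∀ b ∈ P, a ≠ b → M a b = 2 ∨ 3 ≤ M a b := by
        intro a ha b hb hab
        have h1 := hinf a ha b hb hab
        have h2 : M a b ≠ 1 := M.off_diagonal a b hab
        omega
      by_cases ht : ∃ t ∈ P, t ≠ s ∧ 3 ≤ M s t
      · obtain ⟨t, ht, hts, h3⟩ := ht
        have hU : (P : Set B) = ({s, t} : Set B) ∪ (((P.erase s).erase t : Finset B) : Set B) := by
          ext k
          simp only [Finset.coe_erase, Set.mem_union, Set.mem_sdiff, Finset.mem_coe,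
            Set.mem_singleton_iff, Set.mem_insert_iff]
          constructor
          · intro hk
            by_cases h1 : k = s
            · left; left; exact h1
            · by_cases h2 : k = t
              · left; right; exact h2
              · right; exact ⟨⟨hk, h1⟩, h2⟩
          · rintro ((rfl | rfl) | h)
            · exact hs
            · exact ht
            · exact h.1.1
        rw [hU]
        apply QP_prod cs q
        · intro a ha b hb
          have hb1 : b ∈ P := Finset.mem_of_mem_erase (Finset.mem_of_mem_erase hb)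
          have hb2 : b ≠ t := Finset.ne_of_mem_erase hb
          have hb3 : b ≠ s := Finset.ne_of_mem_erase (Finset.mem_of_mem_erase hb)
          rcases ha with rfl | ha
          · rcases key a hs b hb1 hb3.symm with h | h
            · exact h
            · exfalso
              have := hM b a t hb3 hts.symm hb2 (by rw [M.symmetric]; exact h) h3
              exact hinf b hb1 t ht hb2 this
          · rw [Set.mem_singleton_iff] at ha
            subst ha
            rcases key a ht b hb1 hb2.symm with h | h
            · exact h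
            · exfalso
              have := hM s a b hts.symm hb2.symm hb3.symm h3 h
              exact hinf s hs b hb1 hb3.symm this
        · exact QP_pair cs S1 S2 hts.symm h3
        · apply ih _ _ _ rfl
          rw [← hn]
          exact lt_of_le_of_lt (Finset.card_erase_le) (Finset.card_erase_lt_of_mem hs)
      · push Not at ht
        have hU : (P : Set B) = {s} ∪ ((P.erase s : Finset B) : Set B) := by
          ext k
          simp only [Finset.coe_erase, Set.mem_union, Set.mem_sdiff, Finset.mem_coe,
            Set.mem_singleton_iff]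
          constructor
          · intro hk
            by_cases h1 : k = s
            · left; exact h1
            · right; exact ⟨hk, h1⟩
          · rintro (rfl | h)
            · exact hs
            · exact h.1
        rw [hU]
        apply QP_prod cs q
        · intro a ha b hb
          rw [Set.mem_singleton_iff] at ha
          subst ha
          have hb1 : b ∈ P := Finset.mem_of_mem_erase hb
          have hb3 : b ≠ a := Finset.ne_of_mem_erase hb
          rcases key a hs b hb1 hb3.symm with h | h
          · exact h
          · have := ht b hb1 hb3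
            omega
        · exact QP_single cs S1 s
        · exact ih _ (by rw [← hn]; exact Finset.card_erase_lt_of_mem hs) _ rfl

end fin

end Pool.Agent.HeckeCox
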