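import Mathlib
import Pool.Agent.Lib_helper18.Hecke.Tri

set_option autoImplicit false

/-! The module of odd `2m`-periodic functions and the positivity argument (coherence). -/

namespace Pool.Agent.HeckeCox

open scoped ComplexOrder

section ver

variable (m : ℕ)

/-- odd `2m`-periodic functions -/
def MM : Submodule ℂ (ℤ → ℂ) where
  carrier := {φ | (∀ k, φ (-k) = -φ k) ∧ ∀ k, φ (k + 2 * m) = φ k}
  add_mem' := by
    rintro a b ⟨h1, h2⟩ ⟨h3, h4⟩
    refine ⟨fun k => ?_, fun k => ?_⟩
    · simp only [Pi.add_apply, h1, h3]; ring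
    · simp only [Pi.add_apply, h2, h4]
  zero_mem' := by simp
  smul_mem' := by
    rintro c a ⟨h1, h2⟩
    refine ⟨fun k => ?_, fun k => ?_⟩
    · simp only [Pi.smul_apply, smul_eq_mul, h1]; ring
    · simp only [Pi.smul_apply, h2]

variable {m}

theorem MM_odd (φ : MM m) (k : ℤ) : φ.1 (-k) = -φ.1 k := φ.2.1 k
theorem MM_per (φ : MM m) (k : ℤ) : φ.1 (k + 2 * m) = φ.1 k := φ.2.2 k
theorem MM_zero (φ : MM m) : φ.1 0 = 0 := by
  have := MM_odd φ 0
  rw [neg_zero] at this
  exact self_eq_neg.mp this
theorem MM_m (φ : MM m) : φ.1 m = 0 := by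
  have h1 := MM_odd φ m
  have h2 := MM_per φ (-(m : ℤ))
  rw [show -(m : ℤ) + 2 * m = m from by ring] at h2
  rw [← h2] at h1
  exact self_eq_neg.mp h1

variable (m)

/-- neighbour sum -/
def Lam : Module.End ℂ (MM m) where
  toFun φ := ⟨fun k => φ.1 (k + 1) + φ.1 (k - 1), by
    refine ⟨fun k => ?_, fun k => ?_⟩
    · have h1 := MM_odd φ (k - 1)
      have h2 := MM_odd φ (k + 1)
      rw [show -(k - 1) = -k + 1 from by ring] at h1
      rw [show -(k + 1) = -k - 1 from by ring] at h2
      beta_reduce
      rw [h1, h2]; ring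
    · have h1 := MM_per φ (k - 1)
      have h2 := MM_per φ (k + 1)
      rw [show k - 1 + 2 * m = k + 2 * m - 1 from by ring] at h1
      rw [show k + 1 + 2 * m = k + 2 * m + 1 from by ring] at h2
      beta_reduce
      rw [h1, h2]⟩
  map_add' φ ψ := by
    ext k
    simp only [Submodule.coe_add, Pi.add_apply]; ring
  map_smul' c φ := by
    ext k
    simp only [Submodule.coe_smul, Pi.smul_apply, smul_eq_mul, RingHom.id_apply]; ring

theorem Lam_apply (φ : MM m) (k : ℤ) : (Lam m φ).1 k = φ.1 (k + 1) + φ.1 (k - 1) := rfl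

/-- Chebyshev operators -/
noncomputable def xn : ℕ → Module.End ℂ (MM m)
  | 0 => 0
  | 1 => 1
  | l + 2 => Lam m * xn (l + 1) - xn l

theorem xn_zero : xn m 0 = 0 := rfl
theorem xn_one : xn m 1 = 1 := rfl
theorem xn_rec (l : ℕ) (φ : MM m) : xn m (l + 2) φ = Lam m (xn m (l + 1) φ) - xn m l φ := rfl

variable {m}

theorem xn_diag (φ : MM m) (l : ℕ) : ∀ k : ℤ,
    (xn m (l + 1) φ).1 (k + 1) = (xn m l φ).1 k + φ.1 (k + l + 1) := by
  induction l using Nat.twoStepInduction with
  | zero =>
    intro k
    rw [xn_one, xn_zero]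
    simp
  | one =>
    intro k
    rw [show 1 + 1 = 0 + 2 from rfl, xn_rec, xn_zero, xn_one]
    simp only [Module.End.one_apply, LinearMap.zero_apply, sub_zero, Lam_apply]
    push_cast
    rw [show k + 1 - 1 = k from by ring]
    ring
  | more l ih1 ih2 =>
    intro k
    have e1 := xn_rec m (l + 1) φ
    have e2 := ih2 (k + 1)
    have e3 := ih1 k
    rw [show l + 2 + 1 = l + 1 + 2 from rfl, e1]
    simp only [AddSubgroupClass.coe_sub, Pi.sub_apply, Lam_apply]
    rw [show l + 1 + 1 = l + 2 from rfl] at e2 ⊢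
    rw [e2, e3]
    push_cast
    rw [show k + 1 - 1 = k from by ring, show k + 1 + (l + 1) + 1 = k + (l + 2) + 1 from by ring]
    ring

theorem xn_diff (φ : MM m) (l : ℕ) : ∀ k : ℤ,
    (xn m l φ).1 (k + 1) - (xn m l φ).1 (k - 1) = φ.1 (k + l) - φ.1 (k - l) := by
  induction l using Nat.twoStepInduction with
  | zero => intro k; rw [xn_zero]; simp
  | one => intro k; rw [xn_one]; simp
  | more l ih1 ih2 =>
    intro k
    have e1 := xn_rec m l φ
    rw [e1]
    simp only [AddSubgroupClass.coe_sub, Pi.sub_apply, Lam_apply]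
    have a1 := ih2 (k + 1)
    have a2 := ih2 (k - 1)
    have a3 := ih1 k
    push_cast at a1 a2 a3 ⊢
    rw [show k + 1 - 1 = k from by ring] at a1
    rw [show k - 1 + 1 = k from by ring] at a2
    rw [show k + 1 + (l + 1) = k + (l + 2) from by ring,
      show k + 1 - (l + 1) = k - l from by ring] at a1
    rw [show k - 1 + (l + 1) = k + l from by ring,
      show k - 1 - (l + 1) = k - (l + 2) from by ring] at a2
    rw [show k + 1 - 1 = k from by ring, show k - 1 + 1 = k from by ring]
    linear_combination a1 + a2 - a3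

/-- an element of `MM` with equal values at distance two vanishes -/
theorem MM_eq_zero {ψ : MM m} (h : ∀ k, ψ.1 (k + 1) = ψ.1 (k - 1)) : ψ = 0 := by
  have h1 : ψ.1 1 = 0 := by
    have := h 0
    rw [zero_add, zero_sub, MM_odd] at this
    exact self_eq_neg.mp this
  have h2 : ∀ n : ℕ, ψ.1 n = 0 ∧ ψ.1 (n + 1) = 0 := by
    intro n
    induction n with
    | zero => exact ⟨by simpa using MM_zero ψ, by simpa using h1⟩
    | succ n ih =>
      refine ⟨by push_cast; exact ih.2, ?_⟩
      have := h (n + 1)
      rw [show (n : ℤ) + 1 - 1 = n from by ring, ih.1] at this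
      push_cast; exact this
  ext k
  rcases Int.eq_nat_or_neg k with ⟨n, rfl | rfl⟩
  · exact (h2 n).1
  · rw [MM_odd, (h2 n).1]; simp

theorem xn_m (φ : MM m) : xn m m φ = 0 := by
  apply MM_eq_zero
  intro k
  have h1 := xn_diff φ m k
  have h2 := MM_per φ (k - m)
  rw [show k - m + 2 * m = k + m from by ring] at h2
  rw [h2, sub_self] at h1
  exact sub_eq_zero.mp h1

/-- reflection of labels -/
def Jm (φ : MM m) : MM m := ⟨fun k => φ.1 (m - k), by
    refine ⟨fun k => ?_, fun k => ?_⟩
    · have h1 := MM_odd φ (m - k)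
      have h2 := MM_per φ (-(m - k))
      rw [show -((m : ℤ) - k) + 2 * m = m - -k from by ring] at h2
      beta_reduce
      rw [h2, h1]
    · have h2 := MM_per φ (m - (k + 2 * m))
      rw [show (m : ℤ) - (k + 2 * m) + 2 * m = m - k from by ring] at h2
      exact h2.symm⟩

theorem Jm_apply (φ : MM m) (k : ℤ) : (Jm φ).1 k = φ.1 (m - k) := rfl

theorem xn_m_succ (φ : MM m) : xn m (m + 1) φ = -Jm φ := by
  have h : xn m (m + 1) φ + Jm φ = 0 := by
    apply MM_eq_zero
    intro k
    simp only [Submodule.coe_add, Pi.add_apply, Jm_apply]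
    have h1 := xn_diff φ (m + 1) k
    have h2 := MM_odd φ (k + 1 - m)
    have h3 := MM_per φ (k + 1 - m)
    have h4 := MM_odd φ (k - 1 - m)
    rw [show k + 1 - (m : ℤ) + 2 * m = k + ((m + 1 : ℕ) : ℤ) from by push_cast; ring] at h3
    rw [show -(k + 1 - (m : ℤ)) = m - (k + 1) from by ring] at h2
    rw [show -(k - 1 - (m : ℤ)) = m - (k - 1) from by ring] at h4
    rw [show k - ((m + 1 : ℕ) : ℤ) = k - 1 - m from by push_cast; ring, h3] at h1
    rw [h2, h4]
    linear_combination h1
  exact eq_neg_of_add_eq_zero_left h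

/-- nonnegative on the labels -/
def Nnn (φ : MM m) : Prop := ∀ k : ℕ, 0 < k → k < m → 0 ≤ φ.1 k

theorem Nnn.add {φ ψ : MM m} (h1 : Nnn φ) (h2 : Nnn ψ) : Nnn (φ + ψ) := by
  intro k hk hk'
  exact add_nonneg (h1 k hk hk') (h2 k hk hk')

theorem Nnn_Jm {φ : MM m} (h : Nnn φ) : Nnn (Jm φ) := by
  intro k hk hk'
  have := h (m - k) (by omega) (by omega)
  rw [Jm_apply]
  rw [Nat.cast_sub hk'.le] at this
  exact this

theorem xn_posA {φ : MM m} (h : Nnn φ) (l : ℕ) : ∀ k : ℕ, l + k ≤ m → 0 ≤ (xn m l φ).1 k := by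
  induction l with
  | zero => intro k _; rw [xn_zero]; simp
  | succ l ih =>
    intro k hk
    cases k with
    | zero => simp [MM_zero]
    | succ k =>
      have h1 := xn_diag φ l k
      push_cast
      rw [h1]
      apply add_nonneg (ih k (by omega))
      have := h (k + l + 1) (by omega) (by omega)
      push_cast at this
      exact this

theorem xn_posB {φ : MM m} (h : Nnn φ) (d : ℕ) : ∀ l k : ℕ, l + d = m → k ≤ m → m ≤ l + k →
    0 ≤ (xn m l φ).1 k := by
  induction d with
  | zero =>
    intro l k hl _ _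
    have : l = m := by omega
    subst this
    rw [xn_m]; simp
  | succ d ih =>
    intro l k hl hk hlk
    rcases Nat.lt_or_ge k m with hk' | hk'
    · have h1 := xn_diag φ l k
      have h2 := ih (l + 1) (k + 1) (by omega) (by omega) (by omega)
      push_cast at h2
      have h3 := MM_odd φ (k + l + 1)
      have h4 := MM_per φ (-(k + l + 1))
      have h5 := h (2 * m - (k + l + 1)) (by omega) (by omega)
      rw [Nat.cast_sub (by omega)] at h5
      push_cast at h5
      rw [show 2 * (m : ℤ) - (k + l + 1) = -(k + l + 1) + 2 * m from by ring, h4, h3] at h5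
      have h6 : (xn m l φ).1 k = (xn m (l + 1) φ).1 (k + 1) + -φ.1 (k + l + 1) := by
        rw [h1]; ring
      rw [h6]
      exact add_nonneg h2 h5
    · have : k = m := by omega
      subst this
      rw [MM_m]

theorem Nnn_xn {φ : MM m} (h : Nnn φ) {l : ℕ} (hl : l ≤ m) : Nnn (xn m l φ) := by
  intro k hk hk'
  rcases Nat.lt_or_ge (l + k) m with h1 | h1
  · exact xn_posA h l k h1.le
  · exact xn_posB h (m - l) l k (by omega) hk'.le h1

theorem xn_neg (l : ℕ) (φ : MM m) : xn m l (-φ) = -xn m l φ := map_neg _ _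

variable (m)

/-- the unipotent operators on pairs -/
def TT : Bool → ((MM m × MM m) ≃ₗ[ℂ] (MM m × MM m))
  | true =>
    { toFun := fun p => (p.1 + Lam m p.2, p.2)
      invFun := fun p => (p.1 - Lam m p.2, p.2)
      map_add' := by intro p p'; ext1 <;> simp; abel
      map_smul' := by intro c p; ext1 <;> simp
      left_inv := by intro p; simp
      right_inv := by intro p; simp }
  | false =>
    { toFun := fun p => (p.1, p.2 - Lam m p.1)
      invFun := fun p => (p.1, p.2 + Lam m p.1)
      map_add' := by intro p p'; ext1 <;> simp; abel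
      map_smul' := by intro c p; ext1 <;> simp [smul_sub]
      left_inv := by intro p; simp
      right_inv := by intro p; simp }

theorem TT_true (p : MM m × MM m) : TT m true p = (p.1 + Lam m p.2, p.2) := rfl
theorem TT_false (p : MM m × MM m) : TT m false p = (p.1, p.2 - Lam m p.1) := rfl
theorem TT_true_inv (p : MM m × MM m) : (TT m true)⁻¹ p = (p.1 - Lam m p.2, p.2) := rfl
theorem TT_false_inv (p : MM m × MM m) : (TT m false)⁻¹ p = (p.1, p.2 + Lam m p.1) := rfl

/-- explicit alternating products up to sign -/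
noncomputable def EE (c : Bool) (l : ℕ) (p : MM m × MM m) : MM m × MM m :=
  if l % 2 = 0 then
    (if c then (-xn m (l + 1) p.1 + xn m l p.2,
        -xn m l p.1 + (Lam m (xn m l p.2) - xn m (l + 1) p.2))
      else ((Lam m (xn m l p.1) - xn m (l + 1) p.1) + xn m l p.2,
        -xn m l p.1 - xn m (l + 1) p.2))
  else
    (if c then (xn m l p.1 + xn m (l + 1) p.2,
        (Lam m (xn m l p.1) - xn m (l + 1) p.1) + xn m l p.2)
      else (xn m l p.1 - (Lam m (xn m l p.2) - xn m (l + 1) p.2),
        -xn m (l + 1) p.1 + xn m l p.2))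

theorem alt_TT (l : ℕ) : ∃ η : ℂ, (η = 1 ∨ η = -1) ∧ ∀ c p,
    alt (TT m) c l p = η • EE m c l p := by
  induction l with
  | zero =>
    refine ⟨-1, Or.inr rfl, ?_⟩
    intro c p
    cases c
    · simp [EE, xn_zero, xn_one]
    · simp [EE, xn_zero, xn_one]
  | succ l ih =>
    obtain ⟨η, hη, h⟩ := ih
    rcases Nat.mod_two_eq_zero_or_one l with hl | hl
    · have hl' : ¬ (l + 1) % 2 = 0 := by omega
      refine ⟨-η, by rcases hη with h | h <;> simp [h], ?_⟩
      intro c p
      rw [alt_succ, LinearEquiv.mul_apply, h, map_smul]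
      cases c
      · rw [TT_false]
        simp only [EE, hl, hl', if_true, if_false, Bool.not_false, Bool.false_eq_true,
          xn_rec, map_add, map_sub, map_neg]
        ext1
        · simp only [Prod.smul_fst]; module
        · simp only [Prod.smul_snd]; module
      · rw [TT_true]
        simp only [EE, hl, hl', if_true, if_false, Bool.not_true, Bool.false_eq_true,
          xn_rec, map_add, map_sub, map_neg]
        ext1
        · simp only [Prod.smul_fst]; module
        · simp only [Prod.smul_snd]; module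
    · have hl' : (l + 1) % 2 = 0 := by omega
      have hl'' : ¬ l % 2 = 0 := by omega
      refine ⟨η, hη, ?_⟩
      intro c p
      rw [alt_succ, LinearEquiv.mul_apply, h, map_smul]
      cases c
      · rw [TT_false]
        simp only [EE, hl', hl'', if_true, if_false, Bool.not_false, Bool.false_eq_true,
          xn_rec, map_add, map_sub, map_neg]
        ext1
        · simp only [Prod.smul_fst]; module
        · simp only [Prod.smul_snd]; module
      · rw [TT_true]
        simp only [EE, hl', hl'', if_true, if_false, Bool.not_true, Bool.false_eq_true,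
          xn_rec, map_add, map_sub, map_neg]
        ext1
        · simp only [Prod.smul_fst]; module
        · simp only [Prod.smul_snd]; module

theorem EE_m (c : Bool) (p : MM m × MM m) : EE m c m p =
    if m % 2 = 0 then (Jm p.1, Jm p.2) else (-Jm p.2, Jm p.1) := by
  unfold EE
  simp only [xn_m, xn_m_succ]
  split_ifs <;> simp

theorem TT_braid : alt (TT m) true m = alt (TT m) false m := by
  obtain ⟨η, -, h⟩ := alt_TT m m
  ext1 p
  rw [h, h, EE_m, EE_m]

end ver

end Pool.Agent.HeckeCox
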