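import Mathlib
import Pool.Agent.Lib_helper18.Hecke.Ver

set_option autoImplicit false

/-! Coherence of the orbit of `(0, h)`, `h ≥ 0`. -/

namespace Pool.Agent.HeckeCox

open scoped ComplexOrder

section coh

variable {m : ℕ}

/-- half cones -/
def hc (c : Bool) (p : MM m × MM m) : Prop := Nnn p.1 ∧ Nnn (if c then p.2 else -p.2)

/-- weak cones -/
def wc (c : Bool) (p : MM m × MM m) : Prop := hc c p ∨ hc c (-p)

theorem wc_neg {c : Bool} {p : MM m × MM m} (h : wc c p) : wc c (-p) := by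
  rcases h with h | h
  · right; rwa [neg_neg]
  · left; exact h

theorem wc_smul {c : Bool} {p : MM m × MM m} {η : ℂ} (hη : η = 1 ∨ η = -1) (h : wc c p) :
    wc c (η • p) := by
  rcases hη with rfl | rfl
  · rwa [one_smul]
  · have e : (-1 : ℂ) • p = -p := neg_one_smul ℂ p
    rw [e]; exact wc_neg h

theorem EE_neg (c : Bool) (l : ℕ) (p : MM m × MM m) : EE m c l (-p) = -EE m c l p := by
  unfold EE
  simp only [Prod.fst_neg, Prod.snd_neg, map_neg]
  split_ifs <;> ext1 <;> simp <;> abel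

theorem hc_EE {c : Bool} {l : ℕ} (hl : l + 2 ≤ m) {p : MM m × MM m} (hp : hc (tw c l) p) :
    wc c (EE m c (l + 1) p) := by
  have e : ∀ φ : MM m, Lam m (xn m (l + 1) φ) - xn m (l + 1 + 1) φ = xn m l φ := by
    intro φ; rw [xn_rec]; abel
  obtain ⟨h1, h2⟩ := hp
  rw [tw_eq] at h2
  have a1 := Nnn_xn h1 (l := l) (by omega)
  have a2 := Nnn_xn h1 (l := l + 1) (by omega)
  have a3 := Nnn_xn h1 (l := l + 1 + 1) (by omega)
  rcases Nat.mod_two_eq_zero_or_one l with hl0 | hl1
  · have hl' : ¬ (l + 1) % 2 = 0 := by omega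
    rw [if_pos hl0] at h2
    have b1 := Nnn_xn h2 (l := l) (by omega)
    have b2 := Nnn_xn h2 (l := l + 1) (by omega)
    have b3 := Nnn_xn h2 (l := l + 1 + 1) (by omega)
    cases c
    · left
      simp only [EE, hl', if_false, Bool.false_eq_true, hc, e, map_neg] at *
      refine ⟨?_, ?_⟩
      · rw [sub_eq_add_neg]; exact a2.add b1
      · rw [neg_add, neg_neg]; exact a3.add b2
    · left
      simp only [EE, hl', if_false, if_true, hc, e] at *
      exact ⟨a2.add b3, a1.add b2⟩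
  · have hl' : (l + 1) % 2 = 0 := by omega
    have hl'' : ¬ l % 2 = 0 := by omega
    rw [if_neg hl''] at h2
    have b1 := Nnn_xn h2 (l := l) (by omega)
    have b2 := Nnn_xn h2 (l := l + 1) (by omega)
    have b3 := Nnn_xn h2 (l := l + 1 + 1) (by omega)
    cases c
    · left
      simp only [EE, hl', if_true, if_false, Bool.false_eq_true, hc, e, Bool.not_false] at *
      refine ⟨a1.add b2, ?_⟩
      rw [neg_sub, sub_neg_eq_add, add_comm]; exact a2.add b3
    · right
      simp only [EE, hl', if_true, if_false, Bool.false_eq_true, hc, e, Bool.not_true,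
        map_neg, Prod.fst_neg, Prod.snd_neg] at *
      refine ⟨?_, ?_⟩
      · rw [neg_add, neg_neg]; exact a3.add b2
      · rw [neg_add, neg_neg]; exact a2.add b1

theorem wc_alt {c : Bool} {l : ℕ} (hl : l + 2 ≤ m) {p : MM m × MM m} (hp : wc (tw c l) p) :
    wc c (alt (TT m) c (l + 1) p) := by
  obtain ⟨η, hη, h⟩ := alt_TT m (l + 1)
  rw [h]
  apply wc_smul hη
  rcases hp with hp | hp
  · exact hc_EE hl hp
  · have := wc_neg (hc_EE hl hp)
    rwa [EE_neg, neg_neg] at this

theorem wc_PW {G : Type*} [Group G] {x : Bool → G}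
    (φ : G →* ((MM m × MM m) ≃ₗ[ℂ] (MM m × MM m))) (hφ : ∀ b, φ (x b) = TT m b)
    {h : MM m} (hh : Nnn h) {a : Bool} {p : G} (hp : PW x m a p) : wc a (φ p (0, h)) := by
  have hx : (fun b => φ (x b)) = TT m := funext hφ
  induction hp with
  | last a l hl ht =>
    rw [map_alt, hx]
    apply wc_alt (by omega)
    rw [ht]
    left
    exact ⟨by intro k _ _; simp, by simpa using hh⟩
  | cons a l p hl hp ih =>
    rw [map_mul, LinearEquiv.mul_apply, map_alt, hx]
    exact wc_alt hl ih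

/-- coherent functions -/
def Coh (φ : MM m) : Prop := Nnn φ ∨ Nnn (-φ)

theorem Coh_neg {φ : MM m} : Coh (-φ) ↔ Coh φ := by
  unfold Coh
  rw [neg_neg]
  exact or_comm

theorem Jm_Jm (φ : MM m) : Jm (Jm φ) = φ := by
  ext k
  rw [Jm_apply, Jm_apply, sub_sub_cancel]

theorem Jm_neg (φ : MM m) : Jm (-φ) = -Jm φ := by
  ext k; rfl

theorem Coh_Jm' {φ : MM m} (h : Coh φ) : Coh (Jm φ) := by
  rcases h with h | h
  · exact Or.inl (Nnn_Jm h)
  · right; rw [← Jm_neg]; exact Nnn_Jm h

theorem Coh_Jm {φ : MM m} : Coh (Jm φ) ↔ Coh φ :=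
  ⟨fun h => by have := Coh_Jm' h; rwa [Jm_Jm] at this, Coh_Jm'⟩

theorem Coh_smul {φ : MM m} {η : ℂ} (hη : η = 1 ∨ η = -1) : Coh (η • φ) ↔ Coh φ := by
  rcases hη with rfl | rfl
  · rw [one_smul]
  · have e : (-1 : ℂ) • φ = -φ := neg_one_smul ℂ φ
    rw [e, Coh_neg]

theorem Coh_of_wc {c : Bool} {p : MM m × MM m} (h : wc c p) : Coh p.1 ∧ Coh p.2 := by
  cases c
  · rcases h with ⟨h1, h2⟩ | ⟨h1, h2⟩
    · exact ⟨Or.inl h1, Or.inr (by simpa using h2)⟩
    · exact ⟨Or.inr h1, Or.inl (by simpa using h2)⟩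
  · rcases h with ⟨h1, h2⟩ | ⟨h1, h2⟩
    · exact ⟨Or.inl h1, Or.inl (by simpa using h2)⟩
    · exact ⟨Or.inr h1, Or.inr (by simpa using h2)⟩

theorem Coh_delta (p : MM m × MM m) :
    (Coh (alt (TT m) true m p).1 ∧ Coh (alt (TT m) true m p).2) ↔ (Coh p.1 ∧ Coh p.2) := by
  obtain ⟨η, hη, h⟩ := alt_TT m m
  rw [h, EE_m]
  split_ifs
  · simp only [Prod.smul_fst, Prod.smul_snd, Coh_smul hη, Coh_Jm]
  · simp only [Prod.smul_fst, Prod.smul_snd, Coh_smul hη, Coh_Jm, Coh_neg]
    exact and_comm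

theorem Coh_delta_zpow (k : ℤ) (p : MM m × MM m) :
    (Coh ((alt (TT m) true m ^ k) p).1 ∧ Coh ((alt (TT m) true m ^ k) p).2) ↔
      (Coh p.1 ∧ Coh p.2) := by
  induction k using Int.induction_on generalizing p with
  | zero => simp
  | succ k ih => rw [zpow_add_one, LinearEquiv.mul_apply, ih, Coh_delta]
  | pred k ih =>
    rw [zpow_sub_one, LinearEquiv.mul_apply, ih, ← Coh_delta, ← LinearEquiv.mul_apply,
      mul_inv_cancel]
    simp

theorem TT_false_zpow (h : MM m) (n : ℤ) : (TT m false ^ n) (0, h) = (0, h) := by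
  have h1 : TT m false (0, h) = (0, h) := by rw [TT_false]; simp
  have h2 : (TT m false)⁻¹ (0, h) = (0, h) := by rw [TT_false_inv]; simp
  induction n using Int.induction_on with
  | zero => simp
  | succ n ih => rw [zpow_add_one, LinearEquiv.mul_apply, h1, ih]
  | pred n ih => rw [zpow_sub_one, LinearEquiv.mul_apply, h2, ih]

/-- coherence of the orbit -/
theorem coh_orbit (hm : 3 ≤ m) {G : Type*} [Group G] {x : Bool → G}
    (hb : alt x true m = alt x false m)
    (φ : G →* ((MM m × MM m) ≃ₗ[ℂ] (MM m × MM m))) (hφ : ∀ b, φ (x b) = TT m b)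
    {h : MM m} (hh : Nnn h) {g : G} (hg : g ∈ Subgroup.closure (Set.range x)) :
    Coh (φ g (0, h)).1 ∧ Coh (φ g (0, h)).2 := by
  have hx : (fun b => φ (x b)) = TT m := funext hφ
  obtain ⟨k, n, p, hp, rfl⟩ := NF.all hb hm hg
  have e : φ (alt x true m ^ k * p * x false ^ n) (0, h) =
      (alt (TT m) true m ^ k) (φ p (0, h)) := by
    rw [map_mul, map_mul, map_zpow, map_zpow, map_alt, hx, hφ, LinearEquiv.mul_apply,
      TT_false_zpow, LinearEquiv.mul_apply]
  rw [e, Coh_delta_zpow]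
  rcases hp with rfl | ⟨a, hp⟩
  · rw [map_one]
    exact ⟨Or.inl (by intro k _ _; simp), Or.inl hh⟩
  · exact Coh_of_wc (wc_PW φ hφ hh hp)

end coh

section exact

variable {m : ℕ}

theorem sum_shift {F : ℤ → ℂ} {N : ℕ} (hF : ∀ k, F (k + N) = F k) :
    ∑ k ∈ Finset.range N, F (k + 1) = ∑ k ∈ Finset.range N, F k := by
  have h1 := Finset.sum_range_succ (fun k : ℕ => F k) N
  have h2 := Finset.sum_range_succ' (fun k : ℕ => F k) N
  rw [h1] at h2
  have h3 := hF 0
  rw [zero_add] at h3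
  push_cast at h2
  rw [h3] at h2
  exact (add_right_cancel h2).symm

/-- the kernel and the image of `Lam` meet trivially -/
theorem ker_im (hm : 0 < m) {w u : MM m} (h1 : Lam m w = 0) (h2 : w = Lam m u) : w = 0 := by
  have hper : ∀ φ : MM m, ∀ k : ℤ, φ.1 (k + (2 * m : ℕ)) = φ.1 k := by
    intro φ k
    have := MM_per φ k
    push_cast; exact this
  have hN : 0 < 2 * m := by omega
  -- sum of squares
  have key : ∑ k ∈ Finset.range (2 * m), w.1 k * (starRingEnd ℂ) (w.1 k) = 0 := by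
    have e1 : ∀ k : ℤ, w.1 k * (starRingEnd ℂ) (w.1 k) =
        u.1 (k + 1) * (starRingEnd ℂ) (w.1 k) + u.1 (k - 1) * (starRingEnd ℂ) (w.1 k) := by
      intro k
      have : w.1 k = u.1 (k + 1) + u.1 (k - 1) := by
        rw [h2]; rfl
      conv_lhs => rw [show w.1 k * (starRingEnd ℂ) (w.1 k) =
        (u.1 (k + 1) + u.1 (k - 1)) * (starRingEnd ℂ) (w.1 k) by rw [← this]]
      ring
    have s1 : ∑ k ∈ Finset.range (2 * m), u.1 ((k : ℤ) + 1) * (starRingEnd ℂ) (w.1 k) =
        ∑ k ∈ Finset.range (2 * m), u.1 (k : ℤ) * (starRingEnd ℂ) (w.1 ((k : ℤ) - 1)) := by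
      have := sum_shift (F := fun k => u.1 k * (starRingEnd ℂ) (w.1 (k - 1))) (N := 2 * m) (by
        intro k
        have a1 := hper u k
        have a2 := hper w (k - 1)
        rw [show k - 1 + ((2 * m : ℕ) : ℤ) = k + ((2 * m : ℕ) : ℤ) - 1 from by ring] at a2
        beta_reduce
        rw [a1, a2])
      simp only [add_sub_cancel_right] at this
      exact this
    have s2 : ∑ k ∈ Finset.range (2 * m), u.1 ((k : ℤ) - 1) * (starRingEnd ℂ) (w.1 k) =
        ∑ k ∈ Finset.range (2 * m), u.1 (k : ℤ) * (starRingEnd ℂ) (w.1 ((k : ℤ) + 1)) := by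
      have := sum_shift (F := fun k => u.1 (k - 1) * (starRingEnd ℂ) (w.1 k)) (N := 2 * m) (by
        intro k
        have a1 := hper w k
        have a2 := hper u (k - 1)
        rw [show k - 1 + ((2 * m : ℕ) : ℤ) = k + ((2 * m : ℕ) : ℤ) - 1 from by ring] at a2
        beta_reduce
        rw [a1, a2])
      simp only [add_sub_cancel_right] at this
      exact this.symm
    have e2 : ∀ k : ℤ, (starRingEnd ℂ) (w.1 (k - 1)) + (starRingEnd ℂ) (w.1 (k + 1)) = 0 := by
      intro k
      have : (Lam m w).1 k = 0 := by rw [h1]; rfl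
      rw [Lam_apply] at this
      rw [← map_add, add_comm, this, map_zero]
    calc ∑ k ∈ Finset.range (2 * m), w.1 k * (starRingEnd ℂ) (w.1 k)
        = ∑ k ∈ Finset.range (2 * m), u.1 ((k : ℤ) + 1) * (starRingEnd ℂ) (w.1 k) +
          ∑ k ∈ Finset.range (2 * m), u.1 ((k : ℤ) - 1) * (starRingEnd ℂ) (w.1 k) := by
          rw [← Finset.sum_add_distrib]
          apply Finset.sum_congr rfl
          intro k _
          exact e1 k
      _ = ∑ k ∈ Finset.range (2 * m), (u.1 (k : ℤ) * (starRingEnd ℂ) (w.1 ((k : ℤ) - 1)) +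
            u.1 (k : ℤ) * (starRingEnd ℂ) (w.1 ((k : ℤ) + 1))) := by
          rw [s1, s2, Finset.sum_add_distrib]
      _ = 0 := by
          apply Finset.sum_eq_zero
          intro k _
          rw [← mul_add, e2, mul_zero]
  have hz : ∀ k ∈ Finset.range (2 * m), w.1 k = 0 := by
    have hnn : ∀ k ∈ Finset.range (2 * m), 0 ≤ w.1 (k : ℤ) * (starRingEnd ℂ) (w.1 k) := by
      intro k _
      exact mul_star_self_nonneg (w.1 (k : ℤ))
    have := (Finset.sum_eq_zero_iff_of_nonneg hnn).mp key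
    intro k hk
    have h3 := this k hk
    rcases mul_eq_zero.mp h3 with h | h
    · exact h
    · exact (map_eq_zero _).mp h
  ext k
  have hmod : w.1 k = w.1 (k % (2 * m)) := by
    have h3 : ∀ n : ℕ, ∀ k : ℤ, w.1 (k + n * (2 * m)) = w.1 k := by
      intro n
      induction n with
      | zero => intro k; simp
      | succ n ih =>
        intro k
        have := MM_per w (k + n * (2 * m))
        rw [show k + n * (2 * m) + 2 * (m : ℤ) = k + ((n + 1 : ℕ) : ℤ) * (2 * m) from by
          push_cast; ring] at this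
        rw [this, ih]
    have h4 := Int.emod_add_mul_ediv k (2 * m)
    rcases Int.eq_nat_or_neg (k / (2 * m)) with ⟨n, hn | hn⟩
    · rw [hn] at h4
      have h5 := h3 n (k % (2 * m))
      rw [show k % (2 * (m : ℤ)) + n * (2 * m) = k from by linear_combination h4] at h5
      exact h5
    · rw [hn] at h4
      have h5 := h3 n k
      rw [show k + n * (2 * (m : ℤ)) = k % (2 * m) from by linear_combination -h4] at h5
      exact h5.symm
  rw [hmod]
  have h5 : 0 ≤ k % (2 * m) := Int.emod_nonneg _ (by omega)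
  have h6 : k % (2 * m) < 2 * m := Int.emod_lt_of_pos _ (by omega)
  have h7 := hz (k % (2 * m)).toNat (by rw [Finset.mem_range]; omega)
  rw [Int.toNat_of_nonneg h5] at h7
  rw [h7]; rfl

end exact

end Pool.Agent.HeckeCox
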