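import Mathlib
import Pool.Agent.Lib_helper18.Hecke.DihMain
import Pool.Agent.Lib_helper18.Hecke.Coh

set_option autoImplicit false

/-! Evaluation of the dihedral part of the regular representation at `v = i`, with values in a
module. -/

namespace Pool.Agent.HeckeCox

open CoxeterSystem

section phin

variable {N : Type*} [AddCommGroup N] [Module ℂ N] (ρ : Bool → Module.End ℂ N) (v0 : N)
variable {B W : Type*} [Group W] {M : CoxeterMatrix B} (cs : CoxeterSystem M W) (i j : B)

open Classical in
/-- value of the evaluation on the basis -/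
noncomputable def vecN (w : W) : N :=
  if h : ∃ p : Bool × ℕ, p.2 ≤ M i j ∧ w = alt (sx cs i j) p.1 p.2 then
    alt ρ h.choose.1 h.choose.2 v0 else 0

variable {i j}

theorem vecN_alt (hij : i ≠ j) (hb : alt ρ true (M i j) = alt ρ false (M i j)) (c : Bool) {l : ℕ}
    (hl : l ≤ M i j) : vecN ρ v0 cs i j (alt (sx cs i j) c l) = alt ρ c l v0 := by
  classical
  have h : ∃ p : Bool × ℕ, p.2 ≤ M i j ∧ alt (sx cs i j) c l = alt (sx cs i j) p.1 p.2 :=
    ⟨(c, l), hl, rfl⟩
  unfold vecN
  rw [dif_pos h]
  have hs := h.choose_spec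
  set p := h.choose with hp
  obtain ⟨h1, h2⟩ := alt_inj cs hij hl hs.1 hs.2
  rw [← h1]
  rcases h2 with h2 | h2 | h2
  · rw [h2]
  · rw [h2]; simp
  · rw [h2]
    cases c <;> cases p.1 <;> first | rfl | rw [hb]

theorem vecN_not {w : W} (hw : w ∉ WP cs {i, j}) : vecN ρ v0 cs i j w = 0 := by
  classical
  unfold vecN
  rw [dif_neg]
  rintro ⟨p, -, rfl⟩
  exact hw (alt_mem cs i j _ _)

theorem D_w0'' {i j : B} (hij : i ≠ j) (hm : 1 ≤ M i j) {c : Bool} :
    D cs (alt (sx cs i j) c (M i j)) (sx cs i j (!c)) = 1 := by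
  rw [alt_sx_braid]
  exact D_alt_self cs hij (!c) hm (Or.inr le_rfl)

theorem vecN_up (hij : i ≠ j) (hm : 3 ≤ M i j)
    (hb : alt ρ true (M i j) = alt ρ false (M i j)) {w : W} {a : Bool}
    (hD : D cs w (sx cs i j a) = 0) :
    vecN ρ v0 cs i j (sx cs i j a * w) = ρ a (vecN ρ v0 cs i j w) := by
  by_cases hw : w ∈ WP cs {i, j}
  · obtain ⟨c, l, hl, rfl⟩ := exists_alt_le cs (by omega) hw
    rcases Nat.eq_zero_or_pos l with h0 | hpos
    · subst h0
      have e1 := vecN_alt ρ v0 cs hij hb a (l := 1) (by omega)
      have e2 := vecN_alt ρ v0 cs hij hb a (l := 0) (by omega)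
      rw [alt_one, alt_one] at e1
      rw [alt_zero, alt_zero, Module.End.one_apply] at e2
      rw [alt_zero, mul_one, e1, e2]
    · have h1 := D_alt_self cs hij c hpos (Or.inr hl)
      have hac : a = !c := by
        by_contra hne
        have : a = c := by cases a <;> cases c <;> simp_all
        rw [this, h1] at hD
        simp at hD
      subst hac
      have hlm : l ≠ M i j := by
        rintro rfl
        rw [D_w0'' cs hij (by omega)] at hD
        simp at hD
      rw [vecN_alt ρ v0 cs hij hb c hl]
      have e : sx cs i j (!c) * alt (sx cs i j) c l = alt (sx cs i j) (!c) (l + 1) := by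
        rw [alt_succ, Bool.not_not]
      rw [e, vecN_alt ρ v0 cs hij hb (!c) (by omega), alt_succ, Bool.not_not,
        Module.End.mul_apply]
  · rw [vecN_not ρ v0 cs hw, map_zero]
    apply vecN_not
    intro h
    apply hw
    have := Subgroup.mul_mem _ (Subgroup.inv_mem _ (sx_mem cs i j a)) h
    simpa using this

variable {R : Type*} [CommRing R] (q : R) (ψ : R →+* ℂ)

variable (i j) in
/-- the evaluation map -/
noncomputable def EvN (x : W →₀ R) : N := x.sum (fun w r => ψ r • vecN ρ v0 cs i j w)

theorem EvN_add (x y : W →₀ R) :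
    EvN ρ v0 cs i j ψ (x + y) = EvN ρ v0 cs i j ψ x + EvN ρ v0 cs i j ψ y := by
  classical
  unfold EvN
  apply Finsupp.sum_add_index'
  · intro a; simp
  · intro a b c; rw [map_add, add_smul]

theorem EvN_single (w : W) (r : R) :
    EvN ρ v0 cs i j ψ (Finsupp.single w r) = ψ r • vecN ρ v0 cs i j w := by
  unfold EvN
  rw [Finsupp.sum_single_index]
  simp

theorem EvN_zero : EvN ρ v0 cs i j ψ (0 : W →₀ R) = 0 := by simp [EvN]

theorem EvN_smul (r : R) (x : W →₀ R) :
    EvN ρ v0 cs i j ψ (r • x) = ψ r • EvN ρ v0 cs i j ψ x := by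
  classical
  induction x using Finsupp.induction_linear with
  | zero => simp [EvN_zero]
  | add f g hf hg => rw [smul_add, EvN_add, hf, hg, EvN_add, smul_add]
  | single a b => rw [Finsupp.smul_single, EvN_single, EvN_single, smul_eq_mul, map_mul, mul_smul]

theorem EvN_Lop (hij : i ≠ j) (hm : 3 ≤ M i j)
    (hb : alt ρ true (M i j) = alt ρ false (M i j)) (hψ : ψ q = -2 * Complex.I)
    (hsq : ∀ b, ρ b * ρ b = 1 + (-2 * Complex.I) • ρ b) (a : Bool)
    (x : W →₀ R) : EvN ρ v0 cs i j ψ (Lop cs q (pr i j a) x) = ρ a (EvN ρ v0 cs i j ψ x) := by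
  classical
  induction x using Finsupp.induction_linear with
  | zero => simp [EvN_zero]
  | add f g hf hg => rw [map_add, EvN_add, hf, hg, EvN_add, map_add]
  | single w r =>
    have h : (Finsupp.single w r : W →₀ R) = r • Finsupp.single w 1 := by simp
    rw [h, map_smul, EvN_smul, EvN_smul, map_smul, Lop_single, EvN_add, EvN_single, EvN_single,
      EvN_single, map_one, one_smul, one_smul]
    congr 1
    change vecN ρ v0 cs i j (sx cs i j a * w) +
      ψ (if D cs w (sx cs i j a) = 1 then q else 0) • vecN ρ v0 cs i j w = _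
    rcases zmod2_cases (D cs w (sx cs i j a)) with hD | hD
    · rw [vecN_up ρ v0 cs hij hm hb hD, hD]
      simp
    · have hD' : D cs (sx cs i j a * w) (sx cs i j a) = 0 := by
        have := D_simple_mul cs (pr i j a) w
        change D cs (sx cs i j a * w) (sx cs i j a) = 1 + D cs w (sx cs i j a) at this
        rw [this, hD]; rfl
      have h1 := vecN_up ρ v0 cs hij hm hb hD'
      rw [← mul_assoc, sx_mul_self, one_mul] at h1
      rw [if_pos hD, hψ]
      have h2 : ρ a (vecN ρ v0 cs i j w) = (ρ a * ρ a)
          (vecN ρ v0 cs i j (sx cs i j a * w)) := by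
        rw [Module.End.mul_apply, ← h1]
      rw [h2, hsq, LinearMap.add_apply, Module.End.one_apply, LinearMap.smul_apply, ← h1]

end phin

section roN

variable (m : ℕ)

/-- operators of the specialised Hecke algebra on pairs -/
noncomputable def roN (b : Bool) : Module.End ℂ (MM m × MM m) :=
  (-Complex.I) • (TT m b).toLinearMap

theorem roN_apply (b : Bool) (p : MM m × MM m) : roN m b p = (-Complex.I) • TT m b p := rfl

theorem TT_sq (b : Bool) (p : MM m × MM m) : TT m b (TT m b p) = (2 : ℂ) • TT m b p - p := by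
  cases b
  · rw [TT_false, TT_false]
    ext1
    · simp only [Prod.fst_sub, Prod.smul_fst]; module
    · simp only [Prod.snd_sub, Prod.smul_snd]; module
  · rw [TT_true, TT_true]
    ext1
    · simp only [Prod.fst_sub, Prod.smul_fst]; module
    · simp only [Prod.snd_sub, Prod.smul_snd]; module

theorem roN_sq (b : Bool) : roN m b * roN m b = 1 + (-2 * Complex.I) • roN m b := by
  apply LinearMap.ext
  intro p
  rw [Module.End.mul_apply, LinearMap.add_apply, Module.End.one_apply, LinearMap.smul_apply,
    roN_apply, roN_apply, map_smul, TT_sq, smul_smul, smul_smul, smul_sub, smul_smul]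
  have e1 : -Complex.I * -Complex.I = -1 := by
    have := Complex.I_mul_I
    linear_combination this
  have e2 : -2 * Complex.I * -Complex.I = -2 := by
    have := Complex.I_mul_I
    linear_combination 2 * this
  rw [e1, e2]
  module

theorem alt_roN (c : Bool) (l : ℕ) (p : MM m × MM m) :
    alt (roN m) c l p = (-Complex.I) ^ l • alt (TT m) c l p := by
  induction l generalizing c with
  | zero => simp
  | succ l ih =>
    rw [alt_succ, Module.End.mul_apply, ih, alt_succ, LinearEquiv.mul_apply, roN_apply, map_smul,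
      smul_smul, pow_succ']

theorem roN_braid : alt (roN m) true m = alt (roN m) false m := by
  apply LinearMap.ext
  intro p
  rw [alt_roN, alt_roN, TT_braid]

end roN

end Pool.Agent.HeckeCox
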