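import Mathlib
import Pool.Agent.Lib_helper18.Hecke.PhiN

set_option autoImplicit false

/-! The dihedral lemma for products of three rank one parabolic subgroups, label at least five. -/

namespace Pool.Agent.HeckeCox

open CoxeterSystem
open scoped Matrix ComplexOrder

section basis

variable {m : ℕ}

/-- basis functions of `MM m` -/
def ek (m : ℕ) (k : ℤ) : MM m := ⟨fun j => (if (2 * (m : ℤ)) ∣ (j - k) then 1 else 0) -
    (if (2 * (m : ℤ)) ∣ (j + k) then 1 else 0), by
  refine ⟨fun j => ?_, fun j => ?_⟩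
  · have e1 : (2 * (m : ℤ)) ∣ (-j - k) ↔ (2 * (m : ℤ)) ∣ (j + k) := by
      rw [show -j - k = -(j + k) from by ring, dvd_neg]
    have e2 : (2 * (m : ℤ)) ∣ (-j + k) ↔ (2 * (m : ℤ)) ∣ (j - k) := by
      rw [show -j + k = -(j - k) from by ring, dvd_neg]
    simp only [e1, e2]; ring
  · have e1 : (2 * (m : ℤ)) ∣ (j + 2 * m - k) ↔ (2 * (m : ℤ)) ∣ (j - k) := by
      rw [show j + 2 * (m : ℤ) - k = (j - k) + 2 * m from by ring]
      exact dvd_add_self_right
    have e2 : (2 * (m : ℤ)) ∣ (j + 2 * m + k) ↔ (2 * (m : ℤ)) ∣ (j + k) := by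
      rw [show j + 2 * (m : ℤ) + k = (j + k) + 2 * m from by ring]
      exact dvd_add_self_right
    simp only [e1, e2]⟩

theorem ek_apply (k j : ℤ) : (ek m k).1 j = (if (2 * (m : ℤ)) ∣ (j - k) then 1 else 0) -
    (if (2 * (m : ℤ)) ∣ (j + k) then 1 else 0) := rfl

theorem Lam_ek (k : ℤ) : Lam m (ek m k) = ek m (k - 1) + ek m (k + 1) := by
  ext j
  simp only [Lam_apply, Submodule.coe_add, Pi.add_apply, ek_apply]
  rw [show j + 1 - k = j - (k - 1) from by ring, show j + 1 + k = j + (k + 1) from by ring,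
    show j - 1 - k = j - (k + 1) from by ring, show j - 1 + k = j + (k - 1) from by ring]
  ring

theorem ek_zero : ek m 0 = 0 := by
  ext j
  rw [ek_apply, sub_zero, add_zero, sub_self]; rfl

theorem ndvd {c : ℤ} (h0 : c ≠ 0) (h : |c| < 2 * m) : ¬ (2 * (m : ℤ)) ∣ c := by
  intro hd
  exact h0 (Int.eq_zero_of_abs_lt_dvd hd h)

theorem ek_val {k j : ℤ} (h1 : j - k ≠ 0) (h2 : |j - k| < 2 * m) (h3 : j + k ≠ 0)
    (h4 : |j + k| < 2 * m) : (ek m k).1 j = 0 := by
  rw [ek_apply, if_neg (ndvd h1 h2), if_neg (ndvd h3 h4), sub_zero]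

theorem ek_self {k : ℤ} (h3 : k + k ≠ 0) (h4 : |k + k| < 2 * m) : (ek m k).1 k = 1 := by
  rw [ek_apply, sub_self, if_pos (dvd_zero _), if_neg (ndvd h3 h4), sub_zero]

theorem Nnn_e1 (hm : 3 ≤ m) : Nnn (ek m 1) := by
  intro k hk hk'
  have h2 : ¬ (2 * (m : ℤ)) ∣ ((k : ℤ) + 1) := ndvd (by omega) (by rw [abs_lt]; omega)
  rw [ek_apply, if_neg h2, sub_zero]
  split_ifs
  · exact zero_le_one
  · exact le_rfl

theorem int_nonneg (k : ℤ) : (0 : ℂ) ≤ (k : ℂ) ↔ 0 ≤ k := by
  rw [Complex.le_def]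
  simp

theorem coh_two {φ : MM m} (h : Coh φ) {k1 k2 : ℕ} (h1 : 0 < k1) (h1' : k1 < m) (h2 : 0 < k2)
    (h2' : k2 < m) {a b : ℤ} (ha : φ.1 k1 = a) (hb : φ.1 k2 = b) :
    (0 ≤ a ∧ 0 ≤ b) ∨ (a ≤ 0 ∧ b ≤ 0) := by
  rcases h with h | h
  · left
    have e1 := h k1 h1 h1'
    have e2 := h k2 h2 h2'
    rw [ha, int_nonneg] at e1
    rw [hb, int_nonneg] at e2
    exact ⟨e1, e2⟩
  · right
    have e1 := h k1 h1 h1'
    have e2 := h k2 h2 h2'
    change 0 ≤ -φ.1 k1 at e1
    change 0 ≤ -φ.1 k2 at e2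
    rw [ha, ← Int.cast_neg, int_nonneg] at e1
    rw [hb, ← Int.cast_neg, int_nonneg] at e2
    omega

/-- the target vectors -/
noncomputable def zz (m : ℕ) (n a : ℂ) : MM m × MM m :=
  (n • ek m 2, (1 - a) • ek m 1 - a • ek m 3)

theorem zz_lam (n a : ℂ) : (zz m n a).1 = Lam m (n • ek m 1) ∧
    (zz m n a).2 = ek m 1 + Lam m (-(a • ek m 2)) := by
  constructor
  · simp only [zz, map_smul, Lam_ek]
    norm_num [ek_zero]
  · simp only [zz, map_neg, map_smul, Lam_ek]
    norm_num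
    module

theorem zz_s (n a : ℂ) (l : ℤ) : (TT m false ^ l) (zz m n a) = zz m n (a + l * n) := by
  have h1 : ∀ a : ℂ, TT m false (zz m n a) = zz m n (a + n) := by
    intro a
    rw [TT_false]
    simp only [zz, map_smul, Lam_ek]
    norm_num
    module
  have h2 : ∀ a : ℂ, (TT m false)⁻¹ (zz m n a) = zz m n (a - n) := by
    intro a
    rw [TT_false_inv]
    simp only [zz, map_smul, Lam_ek]
    norm_num
    module
  induction l using Int.induction_on generalizing a with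
  | zero => simp
  | succ l ih =>
    rw [zpow_add_one, LinearEquiv.mul_apply, h1, ih]
    congr 1
    push_cast; ring
  | pred l ih =>
    rw [zpow_sub_one, LinearEquiv.mul_apply, h2, ih]
    congr 1
    push_cast; ring

/-- incoherence -/
theorem incoherent (hm : 5 ≤ m) {G : Type*} [Group G] {x : Bool → G}
    (hb : alt x true m = alt x false m)
    (φ : G →* ((MM m × MM m) ≃ₗ[ℂ] (MM m × MM m))) (hφ : ∀ b, φ (x b) = TT m b)
    {g : G} (hg : g ∈ Subgroup.closure (Set.range x)) {n a : ℤ}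
    (hz : φ g (0, ek m 1) = zz m n a)
    (hna : (0 < n ∧ -n < a ∧ a < 0) ∨ (n < 0 ∧ 0 < a ∧ a < -n)) : False := by
  have hx : ∀ b, x b ∈ Subgroup.closure (Set.range x) := fun b =>
    Subgroup.subset_closure (Set.mem_range_self b)
  have hh := Nnn_e1 (m := m) (by omega)
  have g1 := Subgroup.mul_mem _ (Subgroup.inv_mem _ (hx true)) hg
  have g2 := Subgroup.mul_mem _ (Subgroup.inv_mem _ (hx false)) g1
  have g3 := Subgroup.mul_mem _ (hx true) g2
  have c1 := coh_orbit (by omega) hb φ hφ hh g1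
  have c2 := coh_orbit (by omega) hb φ hφ hh g2
  have c3 := coh_orbit (by omega) hb φ hφ hh g3
  simp only [map_mul, map_inv, hφ, LinearEquiv.mul_apply, hz] at c1 c2 c3
  set z1 := (TT m true)⁻¹ (zz m n a) with hz1
  set z2 := (TT m false)⁻¹ z1 with hz2
  set z3 := TT m true z2 with hz3
  have f1 : z1.1 = ((n : ℂ) - 1 + 2 * a) • ek m 2 + (a : ℂ) • ek m 4 := by
    rw [hz1, TT_true_inv]
    simp only [zz, map_sub, map_smul, Lam_ek]
    norm_num [ek_zero]
    module
  have f2 : z1.2 = (1 - (a : ℂ)) • ek m 1 - (a : ℂ) • ek m 3 := by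
    rw [hz1, TT_true_inv]; rfl
  have f3 : z2.1 = z1.1 := by rw [hz2, TT_false_inv]
  have f4 : z2.2 = ((n : ℂ) + a) • ek m 1 + ((n : ℂ) - 1 + 2 * a) • ek m 3 + (a : ℂ) • ek m 5 := by
    rw [hz2, TT_false_inv]
    show z1.2 + Lam m z1.1 = _
    rw [f1, f2]
    simp only [map_add, map_smul, Lam_ek]
    norm_num
    module
  have f5 : z3.1 = z1.1 + Lam m z2.2 := by rw [hz3, TT_true, f3]
  -- values
  have v2 : z1.1.1 (2 : ℕ) = ((n - 1 + 2 * a : ℤ) : ℂ) := by
    rw [f1]
    simp only [Submodule.coe_add, Submodule.coe_smul, Pi.add_apply, Pi.smul_apply, smul_eq_mul]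
    push_cast
    rw [ek_self (by omega) (by rw [abs_lt]; omega),
      ek_val (by omega) (by rw [abs_lt]; omega) (by omega) (by rw [abs_lt]; omega)]
    ring
  have v4 : z1.1.1 (4 : ℕ) = ((a : ℤ) : ℂ) := by
    rw [f1]
    simp only [Submodule.coe_add, Submodule.coe_smul, Pi.add_apply, Pi.smul_apply, smul_eq_mul]
    push_cast
    rw [ek_self (by omega) (by rw [abs_lt]; omega),
      ek_val (by omega) (by rw [abs_lt]; omega) (by omega) (by rw [abs_lt]; omega)]
    ring
  have w1 : z2.2.1 (1 : ℕ) = ((n + a : ℤ) : ℂ) := by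
    rw [f4]
    simp only [Submodule.coe_add, Submodule.coe_smul, Pi.add_apply, Pi.smul_apply, smul_eq_mul]
    push_cast
    rw [ek_self (by omega) (by rw [abs_lt]; omega),
      ek_val (k := 3) (by omega) (by rw [abs_lt]; omega) (by omega) (by rw [abs_lt]; omega),
      ek_val (k := 5) (by omega) (by rw [abs_lt]; omega) (by omega) (by rw [abs_lt]; omega)]
    ring
  have w3 : z2.2.1 (3 : ℕ) = ((n - 1 + 2 * a : ℤ) : ℂ) := by
    rw [f4]
    simp only [Submodule.coe_add, Submodule.coe_smul, Pi.add_apply, Pi.smul_apply, smul_eq_mul]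
    push_cast
    rw [ek_self (by omega) (by rw [abs_lt]; omega),
      ek_val (k := 1) (by omega) (by rw [abs_lt]; omega) (by omega) (by rw [abs_lt]; omega),
      ek_val (k := 5) (by omega) (by rw [abs_lt]; omega) (by omega) (by rw [abs_lt]; omega)]
    ring
  have q1 := coh_two c1.1 (k1 := 2) (k2 := 4) (by omega) (by omega) (by omega) (by omega) v2 v4
  have q2 := coh_two c2.2 (k1 := 1) (k2 := 3) (by omega) (by omega) (by omega) (by omega) w1 w3
  rcases Nat.lt_or_ge 5 m with hm6 | hm5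
  · have w5 : z2.2.1 (5 : ℕ) = ((a : ℤ) : ℂ) := by
      rw [f4]
      simp only [Submodule.coe_add, Submodule.coe_smul, Pi.add_apply, Pi.smul_apply, smul_eq_mul]
      push_cast
      rw [ek_self (by omega) (by rw [abs_lt]; omega),
        ek_val (k := 1) (by omega) (by rw [abs_lt]; omega) (by omega) (by rw [abs_lt]; omega),
        ek_val (k := 3) (by omega) (by rw [abs_lt]; omega) (by omega) (by rw [abs_lt]; omega)]
      ring
    have q3 := coh_two c2.2 (k1 := 1) (k2 := 5) (by omega) (by omega) (by omega) (by omega) w1 w5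
    omega
  · have hm' : m = 5 := by omega
    have w5 : z2.2.1 (5 : ℕ) = 0 := by
      rw [show ((5 : ℕ) : ℤ) = (m : ℤ) from by omega]
      exact MM_m z2.2
    have u2 : z3.1.1 (2 : ℕ) = ((n - 1 + 2 * a + (n - 1 + 2 * a + (n + a)) : ℤ) : ℂ) := by
      rw [f5]
      simp only [Submodule.coe_add, Pi.add_apply, Lam_apply]
      have e1 : ((2 : ℕ) : ℤ) + 1 = ((3 : ℕ) : ℤ) := by norm_num
      have e2 : ((2 : ℕ) : ℤ) - 1 = ((1 : ℕ) : ℤ) := by norm_num
      rw [e1, e2, v2, w1, w3]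
      push_cast; ring
    have u4 : z3.1.1 (4 : ℕ) = ((a + (n - 1 + 2 * a) : ℤ) : ℂ) := by
      rw [f5]
      simp only [Submodule.coe_add, Pi.add_apply, Lam_apply]
      have e1 : ((4 : ℕ) : ℤ) + 1 = ((5 : ℕ) : ℤ) := by norm_num
      have e2 : ((4 : ℕ) : ℤ) - 1 = ((3 : ℕ) : ℤ) := by norm_num
      rw [e1, e2, v4, w5, w3]
      push_cast; ring
    have q3 := coh_two c3.1 (k1 := 2) (k2 := 4) (by omega) (by omega) (by omega) (by omega) u2 u4
    omega

end basis

section tri0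

variable {m : ℕ}

/-- variant of `stab` -/
theorem stab0 (hm : 3 ≤ m) {G : Type*} [Group G] {x : Bool → G}
    (hb : alt x true m = alt x false m)
    (φ : G →* Matrix.SpecialLinearGroup (Fin 2) ℝ) (hφ : ∀ b, φ (x b) = Tmat m b) {g : G}
    (hg : g ∈ Subgroup.closure (Set.range x))
    (hfix : (mt (φ g) *ᵥ fvec) 0 * (mt (φ g) *ᵥ fvec) 1 = 0) :
    ∃ k n : ℤ, g = alt x true m ^ k * x false ^ n := by
  obtain ⟨k, n, p, hp, rfl⟩ := NF.all hb hm hg
  rcases hp with rfl | ⟨a, hp⟩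
  · exact ⟨k, n, by rw [mul_one]⟩
  · exfalso
    have hx : (fun b => φ (x b)) = Tmat m := funext hφ
    have hc := cone_PW hm φ hφ hp
    have e : φ (alt x true m ^ k * p * x false ^ n) =
        alt (Tmat m) true m ^ k * φ p * Tmat m false ^ n := by
      rw [map_mul, map_mul, map_zpow, map_zpow, map_alt, hx, hφ]
    rw [e, mt_mul_mulVec, Tfalse_zpow, mt_mul_mulVec] at hfix
    have h2 := (delta_zpow_Z hm k (mt (φ p) *ᵥ fvec)).mp hfix
    unfold cone at hc
    rw [h2] at hc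
    split_ifs at hc <;> exact lt_irrefl _ hc

theorem Tfalse_zpow' (m : ℕ) (n : ℤ) (a b : ℝ) :
    mt (Tmat m false ^ n) *ᵥ ![a, b] = ![a, b - n * lam m * a] := by
  have h1 : ∀ b : ℝ, mt (Tmat m false) *ᵥ ![a, b] = ![a, b - lam m * a] := by
    intro b
    rw [mt_Tmat_false]
    ext i
    fin_cases i
    · simp [Matrix.mulVec, dotProduct, Fin.sum_univ_two]
    · simp [Matrix.mulVec, dotProduct, Fin.sum_univ_two]; ring
  have h2 : ∀ b : ℝ, mt (Tmat m false)⁻¹ *ᵥ ![a, b] = ![a, b + lam m * a] := by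
    intro b
    have := h1 (b + lam m * a)
    rw [add_sub_cancel_right] at this
    rw [← this, ← mt_mul_mulVec, inv_mul_cancel, map_one, Matrix.one_mulVec]
  induction n using Int.induction_on generalizing b with
  | zero => simp
  | succ k ih =>
    rw [_root_.zpow_add_one, mt_mul_mulVec, h1, ih]
    congr 1
    push_cast; ring_nf
  | pred k ih =>
    rw [_root_.zpow_sub_one, mt_mul_mulVec, h2, ih]
    congr 1
    push_cast; ring_nf

end tri0

end Pool.Agent.HeckeCox
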