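import Mathlib
import Pool.Agent.Lib_helper18.Hecke.QThree
import Pool.Agent.Lib_helper18.Hecke.Fin

set_option autoImplicit false

/-! The dihedral lemma for products of three rank one parabolic subgroups, label at least five. -/

namespace Pool.Agent.HeckeCox

open CoxeterSystem
open scoped Matrix ComplexOrder

section qmain

variable {B W : Type*} [Group W] {M : CoxeterMatrix B} (cs : CoxeterSystem M W)
variable {R : Type*} [CommRing R] {q ε ε' : R}

/-- the product `W_j W_i W_j` -/
def WT (i j : B) : Set W := {w | ∃ a ∈ WP cs {j}, ∃ b ∈ WPP cs {i} {j}, w = a * b}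

theorem WT_mul {i j : B} {w : W} (hw : w ∈ WT cs i j) : cs.simple j * w ∈ WT cs i j := by
  obtain ⟨a, ha, b, hb, rfl⟩ := hw
  exact ⟨cs.simple j * a, Subgroup.mul_mem _ (simple_mem_WP cs rfl) ha, b, hb, by rw [mul_assoc]⟩

theorem length_le_of_mem_WT {i j : B} {w : W} (h : w ∈ WT cs i j) : cs.length w ≤ 3 := by
  obtain ⟨a, ha, b, hb, rfl⟩ := h
  have h1 := cs.length_mul_le a b
  have h2 : cs.length a ≤ 1 := by
    rcases mem_WP_singleton cs ha with rfl | rfl
    · simp
    · rw [cs.length_simple]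
  have h3 := length_le_of_mem_WPP cs hb
  omega

theorem eig_val {j : B} (hS : SD R q ε ε') {d : W →₀ R} (hR : Rop cs q j d = ε • d) {w : W}
    (hD : D cs w⁻¹ (cs.simple j) = 0) : d w = -ε' * d (w * cs.simple j) := by
  have h := DFunLike.congr_fun hR w
  rw [Rop_apply, Finsupp.smul_apply, smul_eq_mul, hD, if_neg (by decide), zero_mul,
    add_zero] at h
  rw [h]; linear_combination (d w) * hS.prod

theorem D_ij_j {i j : B} (hij : i ≠ j) (hm : 3 ≤ M i j) :
    D cs (cs.simple i * cs.simple j) (cs.simple j) = 0 := by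
  have h := D_alt_not cs hij true (l := 2) (Or.inr (by omega))
  have e : alt (sx cs i j) true 2 = cs.simple i * cs.simple j := by
    rw [alt_succ, alt_succ, alt_zero, mul_one]; rfl
  rw [e] at h
  exact h

theorem D_i_j {i j : B} (hij : i ≠ j) : D cs (cs.simple i) (cs.simple j) = 0 := by
  rw [D_simple, if_neg (fun h => hij (simple_injective cs h).symm)]

theorem LL_ev {i j : B} (hij : i ≠ j) (hm : 3 ≤ M i j) (q ε' : R) :
    Lop cs q j (Lop cs q i (ev cs ε' j)) =
    Finsupp.single (cs.simple j * (cs.simple i * cs.simple j)) 1 +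
      Finsupp.single (cs.simple j * cs.simple i) (-ε') := by
  rw [Lop_ev_other cs hij, single_one_smul (cs.simple i) (-ε'), map_add, map_smul, Lop_single,
    Lop_single, D_ij_j cs hij hm, D_i_j cs hij, if_neg (by decide), Finsupp.single_zero, add_zero,
    Finsupp.single_zero, add_zero, ← single_one_smul]

theorem coords3 {i j : B} (hij : i ≠ j) (hm : 3 ≤ M i j) (hS : SD R q ε ε') {y : W →₀ R}
    (hy : Supp (WT cs i j) y) (hR : Rop cs q j y = ε • y) :
    y = y (cs.simple j) • ev cs ε' j + y (cs.simple i * cs.simple j) • Lop cs q i (ev cs ε' j) +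
      y (cs.simple j * (cs.simple i * cs.simple j)) •
        Lop cs q j (Lop cs q i (ev cs ε' j)) := by
  classical
  set si := cs.simple i with hsi
  set sj := cs.simple j with hsj
  set d := y - (y sj • ev cs ε' j + y (si * sj) • Lop cs q i (ev cs ε' j) +
      y (sj * (si * sj)) • Lop cs q j (Lop cs q i (ev cs ε' j))) with hd
  have ns : si ≠ sj := simple_ne cs hij
  have ni : si ≠ 1 := simple_ne_one cs i
  have nj : sj ≠ 1 := simple_ne_one cs j
  have ii : si * si = 1 := cs.simple_mul_simple_self i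
  have jj : sj * sj = 1 := cs.simple_mul_simple_self j
  have nc : sj * si ≠ si * sj := by
    intro h
    have h1 : (cs.simple j * cs.simple i) ^ 2 = 1 := by
      rw [← hsi, ← hsj, pow_two]
      nth_rewrite 2 [h]
      rw [mul_assoc, ← mul_assoc si, ii, one_mul, jj]
    have := order_ge cs hij.symm (by norm_num) h1
    rw [M.symmetric] at this
    omega
  have hRd : Rop cs q j d = ε • d := by
    rw [hd, map_sub, hR, map_add, map_add, map_smul, map_smul, map_smul, ← Lop_Rop, ← Lop_Rop,
      ← Lop_Rop, Rop_ev cs hS, map_smul, map_smul]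
    module
  have hdj : d sj = 0 := by
    rw [hd, LL_ev cs hij hm, Lop_ev_other cs hij, ev, ← hsi, ← hsj]
    simp only [Finsupp.sub_apply, Finsupp.add_apply, Finsupp.smul_apply, Finsupp.single_apply,
      smul_eq_mul]
    have n1 : (1 : W) ≠ sj := nj.symm
    have n2 : si * sj ≠ sj := fun h => ni (mul_eq_right.mp h)
    have n3 : sj * (si * sj) ≠ sj := by
      intro h
      have h2 := mul_eq_left.mp h
      apply ns
      calc si = si * sj * sj := by rw [mul_assoc, jj, mul_one]
        _ = sj := by rw [h2, one_mul]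
    have n4 : sj * si ≠ sj := fun h => ni (mul_eq_left.mp h)
    simp [n1, n2, n3, n4, ns]
  have hdij : d (si * sj) = 0 := by
    rw [hd, LL_ev cs hij hm, Lop_ev_other cs hij, ev, ← hsi, ← hsj]
    simp only [Finsupp.sub_apply, Finsupp.add_apply, Finsupp.smul_apply, Finsupp.single_apply,
      smul_eq_mul]
    have n1 : (1 : W) ≠ si * sj := by
      intro h
      apply ns
      calc si = si * sj * sj := by rw [mul_assoc, jj, mul_one]
        _ = sj := by rw [← h, one_mul]
    have n2 : sj ≠ si * sj := fun h => ni (mul_eq_right.mp h.symm)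
    have n3 : sj * (si * sj) ≠ si * sj := fun h => nj (mul_eq_right.mp h)
    have n4 : si ≠ si * sj := fun h => nj (mul_eq_left.mp h.symm)
    simp [n1, n2, n3, n4, nc]
  have hdjij : d (sj * (si * sj)) = 0 := by
    rw [hd, LL_ev cs hij hm, Lop_ev_other cs hij, ev, ← hsi, ← hsj]
    simp only [Finsupp.sub_apply, Finsupp.add_apply, Finsupp.smul_apply, Finsupp.single_apply,
      smul_eq_mul]
    have n1 : (1 : W) ≠ sj * (si * sj) := by
      intro h
      have h1 := cs.length_one
      have h2 : alt (sx cs i j) false 3 = cs.simple j * (cs.simple i * cs.simple j) := by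
        rw [alt_succ, alt_succ, alt_succ, alt_zero, mul_one]; rfl
      have h3 := length_alt cs hij false (l := 3) (Or.inr hm)
      rw [h2, ← hsi, ← hsj, ← h, h1] at h3
      omega
    have n2 : sj ≠ sj * (si * sj) := by
      intro h
      have h2 := mul_eq_left.mp h.symm
      apply ns
      calc si = si * sj * sj := by rw [mul_assoc, jj, mul_one]
        _ = sj := by rw [h2, one_mul]
    have n3 : si * sj ≠ sj * (si * sj) := fun h => nj (mul_eq_right.mp h.symm)
    have n4 : si ≠ sj * (si * sj) := by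
      intro h
      apply nc
      calc sj * si = sj * (sj * (si * sj)) := by rw [← h]
        _ = si * sj := by rw [← mul_assoc, jj, one_mul]
    have n5 : sj * si ≠ sj * (si * sj) := by
      intro h
      exact nj (mul_eq_left.mp (mul_left_cancel h).symm)
    simp [n1, n2, n3, n4, n5]
  have hd0 : d = 0 := by
    ext w
    by_contra hne
    have hw : w ∈ WT cs i j := by
      have hc : ∀ c : W →₀ R, Supp (WT cs i j) c → Supp (WT cs i j) c := fun c h => h
      by_contra hwn
      apply hne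
      have m1 : y w = 0 := by
        by_contra h; exact hwn (hy w h)
      have k : ∀ v : W, v ∈ WT cs i j → v ≠ w := by
        rintro v hv rfl; exact hwn hv
      have b1 : (1 : W) ∈ WP cs {i} := Subgroup.one_mem _
      have b2 : (1 : W) ∈ WP cs {j} := Subgroup.one_mem _
      have b3 : cs.simple i ∈ WP cs {i} := simple_mem_WP cs rfl
      have b4 : cs.simple j ∈ WP cs {j} := simple_mem_WP cs rfl
      have p1 := k sj ⟨1, b2, sj, ⟨1, b1, sj, b4, by simp⟩, by simp⟩
      have p2 := k 1 ⟨1, b2, 1, ⟨1, b1, 1, b2, by simp⟩, by simp⟩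
      have p3 := k si ⟨1, b2, si, ⟨si, b3, 1, b2, by simp⟩, by simp⟩
      have p4 := k (si * sj) ⟨1, b2, si * sj, ⟨si, b3, sj, b4, rfl⟩, by simp⟩
      have p5 := k (sj * si) ⟨sj, b4, si, ⟨si, b3, 1, b2, by simp⟩, rfl⟩
      have p6 := k (sj * (si * sj)) ⟨sj, b4, si * sj, ⟨si, b3, sj, b4, rfl⟩, rfl⟩
      rw [hd, LL_ev cs hij hm, Lop_ev_other cs hij, ev, ← hsi, ← hsj]
      simp only [Finsupp.sub_apply, Finsupp.add_apply, Finsupp.smul_apply, Finsupp.single_apply,
        smul_eq_mul]
      simp [m1, p1, p2, p3, p4, p5, p6]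
    apply hne
    have D1 : D cs (1 : W)⁻¹ (cs.simple j) = 0 := by rw [inv_one, D_one]
    have z1 : d 1 = 0 := by
      rw [eig_val cs hS hRd D1, one_mul, ← hsj, hdj, mul_zero]
    have zi : d si = 0 := by
      have D2 : D cs (cs.simple i)⁻¹ (cs.simple j) = 0 := by
        rw [cs.inv_simple]; exact D_i_j cs hij
      rw [eig_val cs hS hRd D2, ← hsi, ← hsj, hdij, mul_zero]
    have zji : d (sj * si) = 0 := by
      have D2 : D cs (cs.simple j * cs.simple i)⁻¹ (cs.simple j) = 0 := by
        rw [mul_inv_rev, cs.inv_simple, cs.inv_simple]; exact D_ij_j cs hij hm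
      rw [eig_val cs hS hRd D2, ← hsi, ← hsj, mul_assoc, hdjij, mul_zero]
    obtain ⟨a, ha, b, ⟨b1, hb1, b2, hb2, rfl⟩, rfl⟩ := hw
    rcases mem_WP_singleton cs ha with rfl | rfl <;>
      rcases mem_WP_singleton cs hb1 with rfl | rfl <;>
      rcases mem_WP_singleton cs hb2 with rfl | rfl
    · simpa using z1
    · simpa using hdj
    · simpa using zi
    · simpa using hdij
    · simpa using hdj
    · simpa using z1
    · simpa using zji
    · simpa using hdjij
  have := sub_eq_zero.mp hd0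
  exact this

/-- exclusion of the centre -/
theorem center_excl' {i j : B} (hij : i ≠ j) (hm : 3 ≤ M i j) (hS : SD R q ε ε') {k : ℤ}
    (hzero : act cs q (alt (bx M i j) true (M i j) ^ k) (ev cs ε' j)
      (alt (sx cs i j) true (M i j)) = 0) :
    k = 0 := by
  classical
  have hmem : alt (bx M i j) true (M i j) ∈ BP M {i, j} := by
    have : ∀ c l, alt (bx M i j) c l ∈ BP M {i, j} := by
      intro c l
      induction l generalizing c with
      | zero => exact Subgroup.one_mem _
      | succ l ih =>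
        refine Subgroup.mul_mem _ (of_mem_BP ?_) (ih _)
        cases c <;> simp [pr]
    exact this _ _
  have hNn : ∀ φ : R →+* ℝ, φ ε' < 0 → Nn (bc φ (ev cs ε' j)) ∧ 0 < bc φ (ev cs ε' j) 1 := by
    intro φ hφ
    have e : ∀ w, bc φ (ev cs ε' j) w = (if cs.simple j = w then 1 else 0) +
        (if 1 = w then -φ ε' else 0) := by
      intro w
      rw [bc_apply, ev, Finsupp.add_apply, Finsupp.single_apply, Finsupp.single_apply, map_add]
      split_ifs <;> simp
    constructor
    · intro w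
      rw [e]
      split_ifs <;> first | linarith | norm_num
    · rw [e]
      rw [if_neg (simple_ne_one cs j), if_pos rfl]
      linarith
  rcases lt_trichotomy k 0 with hk | hk | hk
  · exfalso
    obtain ⟨φ, hφ', hφ⟩ := hS.neg
    obtain ⟨N, hN⟩ : ∃ N : ℕ, k = -((N + 1 : ℕ) : ℤ) := ⟨(-k).toNat - 1, by omega⟩
    obtain ⟨h1, h2⟩ := hNn φ hφ'
    have h3 := (delta_neg cs (φ q) (i := i) (j := j) hφ h1 h2 N).2
    rw [← bc_act cs q φ (K := {i, j}) (Subgroup.pow_mem _ (Subgroup.inv_mem _ hmem) _),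
      bc_apply] at h3
    rw [hN, zpow_neg, zpow_natCast, ← inv_pow] at hzero
    rw [hzero, map_zero] at h3
    exact lt_irrefl _ h3
  · exact hk
  · exfalso
    obtain ⟨φ, hφ', hφ⟩ := hS.pos
    obtain ⟨N, hN⟩ : ∃ N : ℕ, k = ((N + 1 : ℕ) : ℤ) := ⟨k.toNat - 1, by omega⟩
    obtain ⟨h1, h2⟩ := hNn φ hφ'
    have h3 := (delta_pos cs (φ q) hij (by omega) hφ h1 h2 N).2
    rw [← bc_act cs q φ (K := {i, j}) (Subgroup.pow_mem _ hmem _), bc_apply] at h3
    rw [hN, zpow_natCast] at hzero
    rw [hzero, map_zero] at h3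
    exact lt_irrefl _ h3

/-- the group with four components -/
noncomputable def x4 (M : CoxeterMatrix B) (i j : B) (u : Rˣ) :
    Bool → (BraidGroup M × (Matrix.SpecialLinearGroup (Fin 2) ℝ) × Rˣ) ×
      ((MM (M i j) × MM (M i j)) ≃ₗ[ℂ] (MM (M i j) × MM (M i j))) :=
  fun b => (tx M i j u b, TT (M i j) b)

theorem x4_braid {i j : B} (hij : i ≠ j) (hm : 3 ≤ M i j) (u : Rˣ) :
    alt (x4 M i j u) true (M i j) = alt (x4 M i j u) false (M i j) := by
  apply Prod.ext
  · have h : ∀ c, (alt (x4 M i j u) c (M i j)).1 = alt (tx M i j u) c (M i j) := fun c =>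
      map_alt (x4 M i j u) (MonoidHom.fst _ _) c (M i j)
    rw [h, h, tx_braid hij hm]
  · have h : ∀ c, (alt (x4 M i j u) c (M i j)).2 = alt (TT (M i j)) c (M i j) := fun c =>
      map_alt (x4 M i j u) (MonoidHom.snd _ _) c (M i j)
    rw [h, h, TT_braid]

theorem lift_x4 {i j : B} (u : Rˣ) {g : BraidGroup M} (hg : g ∈ BP M {i, j}) :
    ∃ g' ∈ Subgroup.closure (Set.range (x4 M i j u)), g'.1.1 = g := by
  unfold BP at hg
  rw [pair_image_bx] at hg
  induction hg using Subgroup.closure_induction with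
  | mem x hx =>
    obtain ⟨b, rfl⟩ := hx
    exact ⟨x4 M i j u b, Subgroup.subset_closure ⟨b, rfl⟩, rfl⟩
  | one => exact ⟨1, Subgroup.one_mem _, rfl⟩
  | mul x y _ _ ihx ihy =>
    obtain ⟨x', hx', rfl⟩ := ihx
    obtain ⟨y', hy', rfl⟩ := ihy
    exact ⟨x' * y', Subgroup.mul_mem _ hx' hy', rfl⟩
  | inv x _ ihx =>
    obtain ⟨x', hx', rfl⟩ := ihx
    exact ⟨x'⁻¹, Subgroup.inv_mem _ hx', rfl⟩

theorem x4_fst {i j : B} {u : Rˣ} {G : (BraidGroup M × (Matrix.SpecialLinearGroup (Fin 2) ℝ) × Rˣ) ×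
      ((MM (M i j) × MM (M i j)) ≃ₗ[ℂ] (MM (M i j) × MM (M i j)))}
    (hG : G ∈ Subgroup.closure (Set.range (x4 M i j u))) :
    G.1 ∈ Subgroup.closure (Set.range (tx M i j u)) := by
  induction hG using Subgroup.closure_induction with
  | mem x hx =>
    obtain ⟨b, rfl⟩ := hx
    exact Subgroup.subset_closure ⟨b, rfl⟩
  | one => exact Subgroup.one_mem _
  | mul x y _ _ ihx ihy => exact Subgroup.mul_mem _ ihx ihy
  | inv x _ ihx => exact Subgroup.inv_mem _ ihx

theorem EvN_act {i j : B} (hij : i ≠ j) (hm : 3 ≤ M i j) (hS : SD R q ε ε') (ψ : R →+* ℂ)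
    (h1 : ψ ε = -Complex.I) (h2 : ψ ε' = -Complex.I) (v0 : MM (M i j) × MM (M i j))
    {G : (BraidGroup M × (Matrix.SpecialLinearGroup (Fin 2) ℝ) × Rˣ) ×
      ((MM (M i j) × MM (M i j)) ≃ₗ[ℂ] (MM (M i j) × MM (M i j)))}
    (hG : G ∈ Subgroup.closure (Set.range (x4 M i j hS.unit))) (x : W →₀ R) :
    EvN (roN (M i j)) v0 cs i j ψ (act cs q G.1.1 x) =
      ψ (G.1.2.2 : R) • G.2 (EvN (roN (M i j)) v0 cs i j ψ x) := by
  have hψ : ψ q = -2 * Complex.I := by rw [← hS.sum, map_add, h1, h2]; ring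
  have key : ∀ b x, EvN (roN (M i j)) v0 cs i j ψ (act cs q (PresentedGroup.of (pr i j b)) x) =
      ψ ε • TT (M i j) b (EvN (roN (M i j)) v0 cs i j ψ x) := by
    intro b x
    rw [act_of, Leq_apply, EvN_Lop (roN (M i j)) v0 cs q ψ hij hm (roN_braid _) hψ
      (roN_sq _), h1, roN_apply]
  induction hG using Subgroup.closure_induction_left generalizing x with
  | one => simp
  | mul_left y hy z hz ih =>
    obtain ⟨b, rfl⟩ := hy
    have h3 := key b (act cs q z.1.1 x)
    rw [ih, map_smul, smul_smul, ← map_mul] at h3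
    rw [show (x4 M i j hS.unit b * z).1.1 = PresentedGroup.of (pr i j b) * z.1.1 from rfl,
      act_mul_apply, h3]
    rfl
  | inv_mul_cancel y hy z hz ih =>
    obtain ⟨b, rfl⟩ := hy
    have h3 := key b (act cs q (PresentedGroup.of (pr i j b))⁻¹ (act cs q z.1.1 x))
    have h4 : act cs q (PresentedGroup.of (pr i j b))
        (act cs q (PresentedGroup.of (pr i j b))⁻¹ (act cs q z.1.1 x)) = act cs q z.1.1 x := by
      rw [← act_mul_apply, mul_inv_cancel, map_one]; rfl
    rw [h4, ih] at h3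
    have h6 : ψ (-ε') * ψ ε = 1 := by
      rw [← map_mul, neg_mul, mul_comm, hS.prod, neg_neg, map_one]
    have h7 : ∀ v : MM (M i j) × MM (M i j), v = ψ (-ε') • ((TT (M i j) b)⁻¹
        (ψ ε • (TT (M i j) b v))) := by
      intro v
      rw [map_smul, smul_smul, h6, one_smul, ← LinearEquiv.mul_apply, inv_mul_cancel]
      rfl
    rw [show ((x4 M i j hS.unit b)⁻¹ * z).1.1 = (PresentedGroup.of (pr i j b))⁻¹ * z.1.1 from rfl,
      act_mul_apply, h7 (EvN (roN (M i j)) v0 cs i j ψ _), ← h3, map_smul, smul_smul,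
      ← map_mul]
    rfl

end qmain

end Pool.Agent.HeckeCox
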