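import Mathlib
import Pool.Agent.Lib_helper18.Hecke.QThreeMain

set_option autoImplicit false

/-! The dihedral lemma for products of three rank one parabolic subgroups, label at least five. -/

namespace Pool.Agent.HeckeCox

open CoxeterSystem
open scoped Matrix ComplexOrder

section qfin

variable {B W : Type*} [Group W] {M : CoxeterMatrix B} (cs : CoxeterSystem M W)
variable {R : Type*} [CommRing R] {q ε ε' : R}

/-- `Lam` on pairs -/
def LL (m : ℕ) (p : MM m × MM m) : MM m × MM m := (Lam m p.1, Lam m p.2)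

theorem LL_TT (m : ℕ) (b : Bool) (p : MM m × MM m) : TT m b (LL m p) = LL m (TT m b p) := by
  cases b
  · rw [TT_false, TT_false]; simp [LL]
  · rw [TT_true, TT_true]; simp [LL]

theorem LL_smul (m : ℕ) (c : ℂ) (p : MM m × MM m) : LL m (c • p) = c • LL m p := by
  simp only [LL, Prod.smul_fst, Prod.smul_snd, map_smul]; rfl

theorem LL_add (m : ℕ) (p p' : MM m × MM m) : LL m (p + p') = LL m p + LL m p' := by
  simp only [LL, Prod.fst_add, Prod.snd_add, map_add]; rfl

theorem G_LL {i j : B} {u : Rˣ}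
    {G : (BraidGroup M × (Matrix.SpecialLinearGroup (Fin 2) ℝ) × Rˣ) ×
      ((MM (M i j) × MM (M i j)) ≃ₗ[ℂ] (MM (M i j) × MM (M i j)))}
    (hG : G ∈ Subgroup.closure (Set.range (x4 M i j u))) (p : MM (M i j) × MM (M i j)) :
    G.2 (LL (M i j) p) = LL (M i j) (G.2 p) := by
  induction hG using Subgroup.closure_induction_left with
  | one => rfl
  | mul_left y hy z hz ih =>
    obtain ⟨b, rfl⟩ := hy
    rw [Prod.snd_mul, LinearEquiv.mul_apply, ih, LinearEquiv.mul_apply]
    exact LL_TT _ _ _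
  | inv_mul_cancel y hy z hz ih =>
    obtain ⟨b, rfl⟩ := hy
    rw [Prod.snd_mul, LinearEquiv.mul_apply, ih, LinearEquiv.mul_apply]
    show (TT (M i j) b)⁻¹ (LL (M i j) (z.2 p)) = LL (M i j) ((TT (M i j) b)⁻¹ (z.2 p))
    have h1 : ∀ p, TT (M i j) b ((TT (M i j) b)⁻¹ p) = p := by
      intro p; rw [← LinearEquiv.mul_apply, mul_inv_cancel]; rfl
    have h2 : ∀ p, (TT (M i j) b)⁻¹ (TT (M i j) b p) = p := by
      intro p; rw [← LinearEquiv.mul_apply, inv_mul_cancel]; rfl
    conv_lhs => rw [← h1 (z.2 p), ← LL_TT, h2]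

theorem G_mod {i j : B} {u : Rˣ}
    {G : (BraidGroup M × (Matrix.SpecialLinearGroup (Fin 2) ℝ) × Rˣ) ×
      ((MM (M i j) × MM (M i j)) ≃ₗ[ℂ] (MM (M i j) × MM (M i j)))}
    (hG : G ∈ Subgroup.closure (Set.range (x4 M i j u))) :
    ∃ u1 u2, G.2 (0, ek (M i j) 1) = (Lam (M i j) u1, ek (M i j) 1 + Lam (M i j) u2) := by
  induction hG using Subgroup.closure_induction_left with
  | one => exact ⟨0, 0, by simp⟩
  | mul_left y hy z hz ih =>
    obtain ⟨b, rfl⟩ := hy
    obtain ⟨u1, u2, h⟩ := ih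
    rw [Prod.snd_mul, LinearEquiv.mul_apply, h]
    cases b
    · refine ⟨u1, u2 - Lam _ u1, ?_⟩
      show TT (M i j) false _ = _
      rw [TT_false]
      simp only [map_sub]
      ext1
      · rfl
      · simp only; abel
    · refine ⟨u1 + ek (M i j) 1 + Lam _ u2, u2, ?_⟩
      show TT (M i j) true _ = _
      rw [TT_true]
      simp only [map_add]
      ext1
      · simp only; abel
      · rfl
  | inv_mul_cancel y hy z hz ih =>
    obtain ⟨b, rfl⟩ := hy
    obtain ⟨u1, u2, h⟩ := ih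
    rw [Prod.snd_mul, LinearEquiv.mul_apply, h]
    cases b
    · refine ⟨u1, u2 + Lam _ u1, ?_⟩
      show (TT (M i j) false)⁻¹ _ = _
      rw [TT_false_inv]
      simp only [map_add]
      ext1
      · rfl
      · simp only; abel
    · refine ⟨u1 - ek (M i j) 1 - Lam _ u2, u2, ?_⟩
      show (TT (M i j) true)⁻¹ _ = _
      rw [TT_true_inv]
      simp only [map_add, map_sub]
      ext1
      · simp only; abel
      · rfl

theorem EvN_ev {i j : B} (hij : i ≠ j) (hm : 3 ≤ M i j) (ψ : R →+* ℂ) (h2 : ψ ε' = -Complex.I) :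
    EvN (roN (M i j)) (ek (M i j) 1, 0) cs i j ψ (ev cs ε' j) =
      Complex.I • LL (M i j) (0, ek (M i j) 1) := by
  have e1 : vecN (roN (M i j)) (ek (M i j) 1, 0) cs i j (cs.simple j) =
      roN (M i j) false (ek (M i j) 1, 0) := by
    have := vecN_alt (roN (M i j)) (ek (M i j) 1, 0) cs hij (roN_braid _) false (l := 1)
      (by omega)
    rw [alt_one, alt_one] at this
    exact this
  have e2 : vecN (roN (M i j)) (ek (M i j) 1, 0) cs i j (1 : W) = (ek (M i j) 1, 0) := by
    have := vecN_alt (roN (M i j)) (ek (M i j) 1, 0) cs hij (roN_braid _) false (l := 0)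
      (by omega)
    rw [alt_zero, alt_zero, Module.End.one_apply] at this
    exact this
  unfold ev
  rw [EvN_add, EvN_single, EvN_single, e1, e2, map_one, map_neg, h2, one_smul, roN_apply, TT_false]
  ext1
  · simp only [LL, Prod.fst_add, Prod.smul_fst, map_zero]; module
  · simp only [LL, Prod.snd_add, Prod.smul_snd, map_zero]; module

theorem ro_ro_fc (m : ℕ) : ro m false *ᵥ (ro m true *ᵥ fc) =
    ![-(lam m : ℂ), (lam m : ℂ) ^ 2 - 1] := by
  rw [ro_fc]
  have hI := Complex.I_mul_I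
  ext k
  fin_cases k
  · simp [ro, mc_apply, mt_Tmat_false, Matrix.mulVec, dotProduct, Fin.sum_univ_two]
    linear_combination (lam m : ℂ) * hI
  · simp [ro, mc_apply, mt_Tmat_false, Matrix.mulVec, dotProduct, Fin.sum_univ_two]
    linear_combination (-(lam m : ℂ) ^ 2) * hI

theorem q3_ev [IsDomain R] {i j : B} (hij : i ≠ j) (hm : 5 ≤ M i j) (hS : SD R q ε ε')
    {g : BraidGroup M} (hg : g ∈ BP M {i, j})
    (h : Supp (WT cs i j) (act cs q g (ev cs ε' j))) :
    ∃ a ∈ BP M {j}, ∃ b ∈ BP M {i}, ∃ c ∈ BP M {j}, g = a * b * c := by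
  obtain ⟨G, hG, rfl⟩ := lift_x4 (M := M) hS.unit hg
  set y := act cs q G.1.1 (ev cs ε' j) with hy
  have hR : Rop cs q j y = ε • y := by
    rw [hy, ← act_Rop cs q hg, Rop_ev cs hS, map_smul]
  have hco := coords3 cs hij (by omega) hS h hR
  set α := y (cs.simple j) with hα
  set β := y (cs.simple i * cs.simple j) with hβ
  set γ := y (cs.simple j * (cs.simple i * cs.simple j)) with hγ
  have hG1 := x4_fst hG
  -- the one-dimensional character
  have hchi : (G.1.2.2 : R) = α + β * ε + γ * (ε * ε) := by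
    have h1 := chiL_act cs hS hG1 (ev cs ε' j)
    rw [← hy, hco, map_add, map_add, map_smul, map_smul, map_smul, chiL_Lop cs hS, chiL_Lop cs hS,
      chiL_Lop cs hS, chiL_ev cs ε ε', smul_eq_mul, smul_eq_mul, smul_eq_mul] at h1
    have h2 : ε - ε' ≠ 0 := sub_ne_zero.mpr hS.ne
    apply mul_right_cancel₀ h2
    rw [← h1]; ring
  obtain ⟨ψ, hψ1, hψ2, hψ3⟩ := hS.ev
  have hψq : ψ q = -2 * Complex.I := by rw [← hS.sum, map_add, hψ1, hψ2]; ring
  have hII := Complex.I_mul_I
  set n : ℂ := ψ (((G.1.2.2⁻¹ : Rˣ) : R) * (β * ε + γ * (ε * ε))) with hn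
  set a : ℂ := ψ (((G.1.2.2⁻¹ : Rˣ) : R) * (γ * (ε * ε))) with ha
  have hu1 : ψ ((G.1.2.2⁻¹ : Rˣ) : R) * ψ (G.1.2.2 : R) = 1 := by
    rw [← map_mul, Units.inv_mul, map_one]
  have hchi' : ψ (G.1.2.2 : R) = ψ α + ψ β * (-Complex.I) - ψ γ := by
    rw [hchi, map_add, map_add, map_mul, map_mul, map_mul, hψ1]
    linear_combination (ψ γ) * hII
  have hn' : n = ψ ((G.1.2.2⁻¹ : Rˣ) : R) * (ψ β * (-Complex.I) - ψ γ) := by
    rw [hn, map_mul, map_add, map_mul, map_mul, map_mul, hψ1]
    linear_combination (ψ ((G.1.2.2⁻¹ : Rˣ) : R) * ψ γ) * hII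
  have ha' : a = -(ψ ((G.1.2.2⁻¹ : Rˣ) : R) * ψ γ) := by
    rw [ha, map_mul, map_mul, map_mul, hψ1]
    linear_combination (ψ ((G.1.2.2⁻¹ : Rˣ) : R) * ψ γ) * hII
  have h9 : ψ ((G.1.2.2⁻¹ : Rˣ) : R) * (ψ α + ψ β * (-Complex.I) - ψ γ) = 1 := by
    rw [← hchi', hu1]
  have hlam : (lam (M i j) : ℂ) ≠ 0 := by
    have := (lam_pos (m := M i j) (by omega)).ne'
    exact_mod_cast this
  have hκ : Complex.I * (lam (M i j) : ℂ) ≠ 0 := mul_ne_zero Complex.I_ne_zero hlam
  -- two-dimensional evaluation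
  have hvec : mc G.1.2.1 *ᵥ fc = ![n * (lam (M i j) : ℂ), 1 - a * (lam (M i j) : ℂ) ^ 2] := by
    have hev := Ev_act cs hij (by omega) hS ψ hψ1 hψ2 hG1 (ev cs ε' j)
    have hLi : Ev cs i j ψ (Lop cs q i (ev cs ε' j)) =
        ro (M i j) true *ᵥ Ev cs i j ψ (ev cs ε' j) :=
      Ev_Lop cs q ψ hij (by omega) hψq true (ev cs ε' j)
    have hLj : Ev cs i j ψ (Lop cs q j (Lop cs q i (ev cs ε' j))) =
        ro (M i j) false *ᵥ Ev cs i j ψ (Lop cs q i (ev cs ε' j)) :=
      Ev_Lop cs q ψ hij (by omega) hψq false (Lop cs q i (ev cs ε' j))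
    rw [← hy, hco, Ev_add, Ev_add, Ev_smul, Ev_smul, Ev_smul, hLj, hLi,
      Ev_ev cs hij (by omega) ψ hψ2] at hev
    simp only [Matrix.mulVec_smul] at hev
    have h0 : ψ (G.1.2.2 : R) • (mc G.1.2.1 *ᵥ fc) = ψ α • fc + ψ β • (ro (M i j) true *ᵥ fc) +
        ψ γ • (ro (M i j) false *ᵥ (ro (M i j) true *ᵥ fc)) := by
      have h1 : (Complex.I * (lam (M i j) : ℂ)) • (ψ (G.1.2.2 : R) • (mc G.1.2.1 *ᵥ fc)) =
          (Complex.I * (lam (M i j) : ℂ)) • (ψ α • fc + ψ β • (ro (M i j) true *ᵥ fc) +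
          ψ γ • (ro (M i j) false *ᵥ (ro (M i j) true *ᵥ fc))) := by
        rw [smul_comm, ← hev, smul_add, smul_add, smul_comm (ψ α), smul_comm (ψ β),
          smul_comm (ψ γ)]
      exact smul_right_injective _ hκ h1
    have h1 := congrArg (fun z => ψ ((G.1.2.2⁻¹ : Rˣ) : R) • z) h0
    simp only [smul_smul, hu1, one_smul] at h1
    rw [h1, ro_ro_fc, ro_fc, hn', ha']
    clear_value n a
    generalize ψ ((G.1.2.2⁻¹ : Rˣ) : R) = κ at h9 ⊢
    ext k
    fin_cases k
    · simp [fc]
      ring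
    · simp [fc]
      linear_combination h9
  -- evaluation in the module
  have hzz : G.2 (0, ek (M i j) 1) = zz (M i j) n a := by
    have hev := EvN_act cs hij (by omega) hS ψ hψ1 hψ2 (ek (M i j) 1, 0) hG (ev cs ε' j)
    set v0 : MM (M i j) × MM (M i j) := (ek (M i j) 1, 0) with hv0
    have hLi : EvN (roN (M i j)) v0 cs i j ψ (Lop cs q i (ev cs ε' j)) =
        roN (M i j) true (EvN (roN (M i j)) v0 cs i j ψ (ev cs ε' j)) :=
      EvN_Lop (roN (M i j)) v0 cs q ψ hij (by omega) (roN_braid _) hψq (roN_sq _) true _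
    have hLj : EvN (roN (M i j)) v0 cs i j ψ (Lop cs q j (Lop cs q i (ev cs ε' j))) =
        roN (M i j) false (EvN (roN (M i j)) v0 cs i j ψ (Lop cs q i (ev cs ε' j))) :=
      EvN_Lop (roN (M i j)) v0 cs q ψ hij (by omega) (roN_braid _) hψq (roN_sq _) false _
    rw [← hy, hco, EvN_add, EvN_add, EvN_smul, EvN_smul, EvN_smul, hLj, hLi, hv0,
      EvN_ev cs hij (by omega) ψ hψ2] at hev
    simp only [map_smul, roN_apply] at hev
    have h0 : ψ (G.1.2.2 : R) • LL (M i j) (G.2 (0, ek (M i j) 1)) =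
        LL (M i j) (ψ α • (0, ek (M i j) 1) + (ψ β * -Complex.I) •
          (TT (M i j) true (0, ek (M i j) 1)) +
        (-ψ γ) • (TT (M i j) false (TT (M i j) true (0, ek (M i j) 1)))) := by
      have h1 : Complex.I • (ψ (G.1.2.2 : R) • LL (M i j) (G.2 (0, ek (M i j) 1))) =
          Complex.I • LL (M i j) (ψ α • (0, ek (M i j) 1) + (ψ β * -Complex.I) •
          (TT (M i j) true (0, ek (M i j) 1)) +
        (-ψ γ) • (TT (M i j) false (TT (M i j) true (0, ek (M i j) 1)))) := by
        rw [← G_LL hG, smul_comm, ← hev, LL_add, LL_add, LL_smul, LL_smul, LL_smul, ← LL_TT,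
          ← LL_TT, ← LL_TT, smul_add, smul_add]
        simp only [smul_smul]
        have i1 : ψ β * (Complex.I * -Complex.I) = Complex.I * (ψ β * -Complex.I) := by ring
        have i2 : ψ γ * (Complex.I * -Complex.I * -Complex.I) = Complex.I * -ψ γ := by
          linear_combination (Complex.I * ψ γ) * hII
        rw [i1, mul_comm (ψ α)]
        congr 2
        linear_combination (Complex.I * ψ γ) * hII
      exact smul_right_injective _ Complex.I_ne_zero h1
    have h1 := congrArg (fun z => ψ ((G.1.2.2⁻¹ : Rˣ) : R) • z) h0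
    simp only [smul_smul, hu1, one_smul] at h1
    rw [← LL_smul] at h1
    have h2 : ψ ((G.1.2.2⁻¹ : Rˣ) : R) • (ψ α • (0, ek (M i j) 1) + (ψ β * -Complex.I) •
          (TT (M i j) true (0, ek (M i j) 1)) +
        (-ψ γ) • (TT (M i j) false (TT (M i j) true (0, ek (M i j) 1)))) =
        zz (M i j) n a := by
      rw [TT_true, TT_false, hn', ha', zz]
      have l1 : Lam (M i j) (ek (M i j) 1) = ek (M i j) 2 := by
        rw [Lam_ek]; norm_num [ek_zero]
      have l2 : Lam (M i j) (ek (M i j) 2) = ek (M i j) 1 + ek (M i j) 3 := by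
        rw [Lam_ek]; norm_num
      simp only [zero_add, l1, l2]
      ext1
      · simp only [Prod.smul_fst, Prod.fst_add, smul_zero, zero_add, smul_add, smul_smul]
        rw [← add_smul]; congr 1; ring
      · simp only [Prod.smul_snd, Prod.snd_add, smul_add, smul_smul, smul_sub]
        have c1 : 1 - -(ψ ((G.1.2.2⁻¹ : Rˣ) : R) * ψ γ) = ψ ((G.1.2.2⁻¹ : Rˣ) : R) * ψ α +
            ψ ((G.1.2.2⁻¹ : Rˣ) : R) * (ψ β * -Complex.I) := by linear_combination -h9
        rw [c1]
        module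
    rw [h2] at h1
    obtain ⟨u1, u2, hu⟩ := G_mod hG
    obtain ⟨z1, z2⟩ := zz_lam (m := M i j) n a
    have d1 : (G.2 (0, ek (M i j) 1)).1 = (zz (M i j) n a).1 := by
      apply sub_eq_zero.mp
      apply ker_im (m := M i j) (by omega) (u := u1 - n • ek (M i j) 1)
      · have := congrArg Prod.fst h1
        simp only [LL] at this
        rw [map_sub, this, sub_self]
      · rw [hu, z1, map_sub]
    have d2 : (G.2 (0, ek (M i j) 1)).2 = (zz (M i j) n a).2 := by
      apply sub_eq_zero.mp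
      apply ker_im (m := M i j) (by omega) (u := u2 - -(a • ek (M i j) 2))
      · have := congrArg Prod.snd h1
        simp only [LL] at this
        rw [map_sub, this, sub_self]
      · rw [hu, z2, map_sub]; simp only; abel
    exact Prod.ext d1 d2
  -- integrality
  obtain ⟨nz, nz', hnz⟩ := hψ3 (((G.1.2.2⁻¹ : Rˣ) : R) * (β * ε + γ * (ε * ε)))
  obtain ⟨az, az', haz⟩ := hψ3 (((G.1.2.2⁻¹ : Rˣ) : R) * (γ * (ε * ε)))
  rw [← hn] at hnz
  rw [← ha] at haz
  have hlr := lam_pos (m := M i j) (by omega)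
  have e01 : ((mt G.1.2.1 0 1 : ℝ) : ℂ) = n * (lam (M i j) : ℂ) := by
    have := congrFun hvec 0
    simpa [mc_apply, Matrix.mulVec, dotProduct, Fin.sum_univ_two, fc] using this
  have e11 : ((mt G.1.2.1 1 1 : ℝ) : ℂ) = 1 - a * (lam (M i j) : ℂ) ^ 2 := by
    have := congrFun hvec 1
    simpa [mc_apply, Matrix.mulVec, dotProduct, Fin.sum_univ_two, fc] using this
  have hb0 : (nz' : ℝ) = 0 := by
    rw [hnz] at e01
    have := congrArg Complex.im e01
    simp at this
    rcases this with h | h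
    · exact_mod_cast h
    · exact absurd h hlr.ne'
  have hb1 : (az' : ℝ) = 0 := by
    rw [haz] at e11
    have := congrArg Complex.im e11
    simp only [Complex.ofReal_im, Complex.sub_im, Complex.one_im, Complex.mul_im,
      Complex.add_im, Complex.intCast_im, Complex.mul_re, Complex.add_re, Complex.intCast_re,
      Complex.I_re, Complex.I_im, mul_zero, mul_one, zero_add, sub_zero, add_zero, zero_sub,
      ← Complex.ofReal_pow, Complex.ofReal_re] at this
    have h3 : (az' : ℝ) * lam (M i j) ^ 2 = 0 := by linarith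
    rcases mul_eq_zero.mp h3 with h | h
    · exact h
    · exact absurd h (pow_pos hlr 2).ne'
  have hnC : n = (nz : ℂ) := by
    rw [hnz]
    have : (nz' : ℂ) = 0 := by exact_mod_cast hb0
    rw [this]; ring
  have haC : a = (az : ℂ) := by
    rw [haz]
    have : (az' : ℂ) = 0 := by exact_mod_cast hb1
    rw [this]; ring
  have e01' : mt G.1.2.1 0 1 = nz * lam (M i j) := by
    rw [hnC] at e01
    exact_mod_cast e01
  have e11' : mt G.1.2.1 1 1 = 1 - az * lam (M i j) ^ 2 := by
    rw [haC] at e11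
    exact_mod_cast e11
  have hf : mt G.1.2.1 *ᵥ fvec = ![(nz : ℝ) * lam (M i j), 1 - az * lam (M i j) ^ 2] := by
    ext k
    fin_cases k
    · simp [Matrix.mulVec, dotProduct, Fin.sum_univ_two, fvec, e01']
    · simp [Matrix.mulVec, dotProduct, Fin.sum_univ_two, fvec, e11']
  set X := x4 M i j hS.unit with hX
  set φ := (MonoidHom.fst (Matrix.SpecialLinearGroup (Fin 2) ℝ) Rˣ).comp
    ((MonoidHom.snd (BraidGroup M) ((Matrix.SpecialLinearGroup (Fin 2) ℝ) × Rˣ)).comp
      (MonoidHom.fst (BraidGroup M × (Matrix.SpecialLinearGroup (Fin 2) ℝ) × Rˣ)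
        ((MM (M i j) × MM (M i j)) ≃ₗ[ℂ] (MM (M i j) × MM (M i j))))) with hφ
  set π := (MonoidHom.fst (BraidGroup M) ((Matrix.SpecialLinearGroup (Fin 2) ℝ) × Rˣ)).comp
      (MonoidHom.fst (BraidGroup M × (Matrix.SpecialLinearGroup (Fin 2) ℝ) × Rˣ)
        ((MM (M i j) × MM (M i j)) ≃ₗ[ℂ] (MM (M i j) × MM (M i j)))) with hπ
  have hXm : ∀ b, X b ∈ Subgroup.closure (Set.range X) := fun b =>
    Subgroup.subset_closure (Set.mem_range_self b)
  have hbr := x4_braid (M := M) hij (by omega) hS.unit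
  have hπX : ∀ b, π (X b) = PresentedGroup.of (pr i j b) := fun b => rfl
  have hπalt : π (alt X true (M i j)) = alt (bx M i j) true (M i j) := by
    rw [map_alt]; rfl
  have hunit : ∀ (k n' : ℤ) (H : BraidGroup M), H = alt (bx M i j) true (M i j) ^ k *
      (PresentedGroup.of j : BraidGroup M) ^ n' →
      act cs q H (ev cs ε' j) (alt (sx cs i j) true (M i j)) = 0 → k = 0 := by
    intro k n' H hH hz
    apply center_excl' cs hij (by omega) hS
    rw [hH, act_mul_apply, act_zpow_ev cs hS, map_smul, Finsupp.smul_apply, smul_eq_mul] at hz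
    rcases mul_eq_zero.mp hz with h | h
    · exact absurd h (Units.ne_zero _)
    · exact h
  by_cases hn0 : nz = 0
  · have hfix : (mt (φ G) *ᵥ fvec) 0 * (mt (φ G) *ᵥ fvec) 1 = 0 := by
      show (mt G.1.2.1 *ᵥ fvec) 0 * (mt G.1.2.1 *ᵥ fvec) 1 = 0
      rw [hf, hn0]; simp
    obtain ⟨k, n', hkn⟩ := stab0 (by omega) hbr φ (fun b => rfl) hG hfix
    have hkn1 : G.1.1 = alt (bx M i j) true (M i j) ^ k *
        (PresentedGroup.of j : BraidGroup M) ^ n' := by
      have h1 := congrArg π hkn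
      rw [map_mul, map_zpow, map_zpow, hπalt, hπX] at h1
      exact h1
    have hk : k = 0 := by
      apply hunit k n' _ hkn1
      by_contra hne
      have h1 := length_le_of_mem_WT cs (h _ hne)
      rw [length_alt cs hij true (Or.inr le_rfl)] at h1
      omega
    rw [hk, zpow_zero, one_mul] at hkn1
    exact ⟨1, Subgroup.one_mem _, 1, Subgroup.one_mem _, _, of_zpow_mem j n', by
      rw [hkn1]; simp⟩
  by_cases hdvd : nz ∣ az
  · obtain ⟨c, hc⟩ := hdvd
    have hG2 : X true ^ (-nz) * (X false ^ (-c) * G) ∈ Subgroup.closure (Set.range X) :=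
      Subgroup.mul_mem _ (Subgroup.zpow_mem _ (hXm true) _)
        (Subgroup.mul_mem _ (Subgroup.zpow_mem _ (hXm false) _) hG)
    have hfix : mt (φ (X true ^ (-nz) * (X false ^ (-c) * G))) *ᵥ fvec = fvec := by
      rw [map_mul φ, map_mul φ, map_zpow φ, map_zpow φ, mt_mul_mulVec, mt_mul_mulVec]
      show mt (Tmat (M i j) true ^ (-nz)) *ᵥ (mt (Tmat (M i j) false ^ (-c)) *ᵥ
        (mt G.1.2.1 *ᵥ fvec)) = fvec
      rw [hf, Tfalse_zpow']
      have e : (1 : ℝ) - az * lam (M i j) ^ 2 - ((-c : ℤ) : ℝ) * lam (M i j) *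
          (nz * lam (M i j)) = 1 := by
        rw [hc]; push_cast; ring
      rw [e, ← Ttrue_zpow, ← mt_mul_mulVec, ← zpow_add, neg_add_cancel, zpow_zero, map_one,
        Matrix.one_mulVec]
    obtain ⟨k, n', hkn⟩ := stab (by omega) hbr φ (fun b => rfl) hG2 hfix
    have hkn1 : (PresentedGroup.of i : BraidGroup M) ^ (-nz) *
        ((PresentedGroup.of j : BraidGroup M) ^ (-c) * G.1.1) = alt (bx M i j) true (M i j) ^ k *
        (PresentedGroup.of j : BraidGroup M) ^ n' := by
      have h1 := congrArg π hkn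
      rw [map_mul, map_mul, map_zpow, map_zpow, map_mul, map_zpow, map_zpow, hπalt, hπX, hπX] at h1
      exact h1
    have hk : k = 0 := by
      apply hunit k n' _ hkn1
      by_contra hne
      rw [act_mul_apply, act_mul_apply] at hne
      have s1 : Supp (WT cs i j) (act cs q ((PresentedGroup.of j : BraidGroup M) ^ (-c))
          (act cs q G.1.1 (ev cs ε' j))) := by
        apply supp_act cs q _ (of_zpow_mem j _) h
        intro k hk w hw
        rw [Set.mem_singleton_iff] at hk
        subst hk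
        exact WT_mul cs hw
      have s2 := supp_act cs q (S := {w | ∃ a ∈ WP cs {i}, ∃ b ∈ WT cs i j, w = a * b})
        (K := {i}) (by
          rintro k hk w ⟨a, ha, b, hb, rfl⟩
          exact ⟨cs.simple k * a, Subgroup.mul_mem _ (simple_mem_WP cs hk) ha, b, hb, by
            rw [mul_assoc]⟩) (of_zpow_mem i (-nz)) (x := _) (s1.mono (by
          intro w hw
          exact ⟨1, Subgroup.one_mem _, w, hw, by simp⟩))
      obtain ⟨a, ha, b, hb, hab⟩ := s2 _ hne
      have l1 := length_le_of_mem_WT cs hb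
      have l2 : cs.length a ≤ 1 := by
        rcases mem_WP_singleton cs ha with rfl | rfl
        · simp
        · rw [cs.length_simple]
      have l3 := cs.length_mul_le a b
      rw [← hab, length_alt cs hij true (Or.inr le_rfl)] at l3
      omega
    rw [hk, zpow_zero, one_mul] at hkn1
    refine ⟨(PresentedGroup.of j : BraidGroup M) ^ c, of_zpow_mem j _,
      (PresentedGroup.of i : BraidGroup M) ^ nz, of_zpow_mem i _,
      (PresentedGroup.of j : BraidGroup M) ^ n', of_zpow_mem j _, ?_⟩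
    rw [mul_assoc, ← hkn1]
    group
  · exfalso
    rw [hnC, haC] at hzz
    have main : ∀ l : ℤ, ((0 < nz ∧ -nz < az + l * nz ∧ az + l * nz < 0) ∨
        (nz < 0 ∧ 0 < az + l * nz ∧ az + l * nz < -nz)) → False := by
      intro l hl
      have hGl : X false ^ l * G ∈ Subgroup.closure (Set.range X) :=
        Subgroup.mul_mem _ (Subgroup.zpow_mem _ (hXm false) _) hG
      apply incoherent (m := M i j) (by omega) hbr (MonoidHom.snd _ _) (fun b => rfl) hGl _ hl
      rw [map_mul, LinearEquiv.mul_apply, map_zpow]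
      show (TT (M i j) false ^ l) (G.2 (0, ek (M i j) 1)) = _
      rw [hzz, zz_s]
      congr 1
      push_cast; ring
    rcases lt_trichotomy nz 0 with hneg | h0 | hpos
    · apply main (-(az / nz))
      right
      have h1 := Int.emod_add_mul_ediv az nz
      have h2 := Int.emod_nonneg az hn0
      have h3 := Int.emod_lt az hn0
      have h4 : az % nz ≠ 0 := fun h => hdvd (Int.dvd_of_emod_eq_zero h)
      have h5 : az + -(az / nz) * nz = az % nz := by linear_combination -h1
      rw [h5]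
      exact ⟨hneg, by omega, by omega⟩
    · exact hn0 h0
    · apply main ((-az) / nz)
      left
      have h1 := Int.emod_add_mul_ediv (-az) nz
      have h2 := Int.emod_nonneg (-az) hn0
      have h3 := Int.emod_lt_of_pos (-az) hpos
      have h4 : (-az) % nz ≠ 0 := fun h => hdvd ((dvd_neg).mp (Int.dvd_of_emod_eq_zero h))
      have h5 : az + (-az) / nz * nz = -((-az) % nz) := by linear_combination h1
      rw [h5]
      exact ⟨hpos, by omega, by omega⟩

end qfin

end Pool.Agent.HeckeCox
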