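import Mathlib
import Pool.Agent.Lib_helper18.Hecke.QThreeFin

set_option autoImplicit false

/-! Local lemmas: three factors in dihedral groups, off-diagonal coefficients. -/

namespace Pool.Agent.HeckeCox

open CoxeterSystem

section loc

variable {B W : Type*} [Group W] {M : CoxeterMatrix B} (cs : CoxeterSystem M W)
variable {R : Type*} [CommRing R] {q ε ε' : R}

theorem supp_Rop_WT {i j : B} {x : W →₀ R} (q : R) (hx : Supp (WT cs i j) x) :
    Supp (WT cs i j) (Rop cs q j x) := by
  have key : ∀ w, w * cs.simple j ∈ WT cs i j → w ∈ WT cs i j := by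
    rintro w ⟨a, ha, b, ⟨b1, hb1, b2, hb2, rfl⟩, he⟩
    refine ⟨a, ha, b1 * (b2 * cs.simple j), ⟨b1, hb1, _,
      Subgroup.mul_mem _ hb2 (simple_mem_WP cs rfl), rfl⟩, ?_⟩
    rw [← mul_assoc, ← mul_assoc, mul_assoc a, ← he, mul_assoc, cs.simple_mul_simple_self, mul_one]
  intro w hw
  rw [Rop_apply] at hw
  by_contra hcon
  apply hw
  have e1 : x w = 0 := by
    by_contra h; exact hcon (hx w h)
  have e2 : x (w * cs.simple j) = 0 := by
    by_contra h; exact hcon (key w (hx _ h))
  rw [e1, e2]; simp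

theorem q3 [IsDomain R] (S1 : SD R q ε ε') (S2 : SD R q ε' ε) {i j : B} (hij : i ≠ j)
    (hm : 5 ≤ M i j) {g : BraidGroup M} (hg : g ∈ BP M {i, j}) {c : W →₀ R} (hc : c ≠ 0)
    (hcj : Supp (WP cs {j} : Set W) c) (h : Supp (WT cs i j) (act cs q g c)) :
    ∃ a ∈ BP M {j}, ∃ b ∈ BP M {i}, ∃ c ∈ BP M {j}, g = a * b * c := by
  have key : ∀ {ε ε' : R}, SD R q ε ε' → c 1 + c (cs.simple j) * ε ≠ 0 →
      ∃ a ∈ BP M {j}, ∃ b ∈ BP M {i}, ∃ c ∈ BP M {j}, g = a * b * c := by
    intro ε ε' hS hne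
    apply q3_ev cs hij hm hS hg
    have e1 : (c 1 + c (cs.simple j) * ε) • act cs q g (ev cs ε' j) =
        Rop cs q j (act cs q g c) - ε' • act cs q g c := by
      rw [← map_smul, ← reduce cs hS hcj, map_sub, map_smul, act_Rop cs q hg]
    intro w hw
    have hw' : ((c 1 + c (cs.simple j) * ε) • act cs q g (ev cs ε' j)) w ≠ 0 := by
      rw [Finsupp.smul_apply, smul_eq_mul]
      exact mul_ne_zero hne hw
    rw [e1] at hw'
    by_contra hcon
    apply hw'
    have e2 : Rop cs q j (act cs q g c) w = 0 := by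
      by_contra h'; exact hcon (supp_Rop_WT cs q h w h')
    have e3 : act cs q g c w = 0 := by
      by_contra h'; exact hcon (h w h')
    rw [Finsupp.sub_apply, Finsupp.smul_apply, e2, e3]; simp
  by_cases h1 : c 1 + c (cs.simple j) * ε = 0
  · by_cases h2 : c 1 + c (cs.simple j) * ε' = 0
    · exfalso
      have h3 : c (cs.simple j) * (ε - ε') = 0 := by linear_combination h1 - h2
      have h4 : c (cs.simple j) = 0 := by
        rcases mul_eq_zero.mp h3 with h | h
        · exact h
        · exact absurd (sub_eq_zero.mp h) S1.ne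
      have h5 : c 1 = 0 := by rw [h4, zero_mul, add_zero] at h1; exact h1
      obtain ⟨w, hw⟩ := exists_ne_zero hc
      rcases mem_WP_singleton cs (hcj w hw) with rfl | rfl
      · exact hw h5
      · exact hw h4
    · exact key S2 h2
  · exact key S1 h1

theorem zpow_form (q : R) (r : B) (k : ℤ) : ∃ b c : R, ∀ z : W →₀ R,
    act cs q ((PresentedGroup.of r : BraidGroup M) ^ k) z = b • Lop cs q r z + c • z := by
  induction k using Int.induction_on with
  | zero => exact ⟨0, 1, fun z => by simp⟩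
  | succ k ih =>
    obtain ⟨b, c, h⟩ := ih
    refine ⟨b * q + c, b, fun z => ?_⟩
    rw [add_comm, zpow_add, zpow_one, act_mul_apply, h, act_of, Leq_apply, map_add, map_smul,
      map_smul, Lop_quad]
    module
  | pred k ih =>
    obtain ⟨b, c, h⟩ := ih
    refine ⟨c, b - q * c, fun z => ?_⟩
    rw [sub_eq_neg_add, zpow_add, zpow_neg_one, act_mul_apply, h, map_inv, act_of,
      Leq_symm_apply, map_add, map_smul, map_smul, Lop_quad]
    module

/-- the length homomorphism -/
def lenHom (M : CoxeterMatrix B) : BraidGroup M →* Multiplicative ℤ :=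
  PresentedGroup.toGroup (f := fun _ => Multiplicative.ofAdd (1 : ℤ)) (by
    rintro g ⟨i, j, hij, hM, rfl⟩
    rw [map_mul, map_inv, map_altProd, map_altProd, FreeGroup.lift_apply_of,
      FreeGroup.lift_apply_of, mul_inv_cancel])

theorem of_zpow_ne (r : B) {k : ℤ} (hk : k ≠ 0) : (PresentedGroup.of r : BraidGroup M) ^ k ≠ 1 := by
  intro h
  have h1 := congrArg (lenHom M) h
  have h2 : lenHom M (PresentedGroup.of r) = Multiplicative.ofAdd (1 : ℤ) :=
    PresentedGroup.toGroup.of _
  rw [map_zpow, map_one, h2, ← ofAdd_zsmul] at h1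
  have h3 := congrArg Multiplicative.toAdd h1
  simp at h3
  exact hk h3

/-- off-diagonal coefficients of powers -/
theorem offdiag [IsDomain R] (S1 : SD R q ε ε') (r : B) {k : ℤ} (hk : k ≠ 0) :
    ∃ b : R, b ≠ 0 ∧ ∀ (z : W →₀ R) (x : W), z (cs.simple r * x) = 0 →
      act cs q ((PresentedGroup.of r : BraidGroup M) ^ k) z (cs.simple r * x) = b * z x := by
  classical
  obtain ⟨b, c, h⟩ := zpow_form cs q r k
  refine ⟨b, ?_, ?_⟩
  · rintro rfl
    have h1 := h (Finsupp.single 1 1)
    rw [zero_smul, zero_add] at h1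
    have hne : (Finsupp.single (1 : W) (1 : R)) ≠ 0 := by
      rw [Ne, Finsupp.single_eq_zero]; exact one_ne_zero
    have hs : ∀ w, (Finsupp.single (1 : W) (1 : R)) w ≠ 0 → w = 1 := by
      intro w hw
      rw [Finsupp.single_apply] at hw
      by_contra h
      exact hw (if_neg (fun h' => h h'.symm))
    obtain ⟨a, ha, d, hd, he⟩ := QP_single cs S1 r ∅ (Set.empty_subset _) ∅ (Set.empty_subset _)
      _ (of_zpow_mem r k) _ hne (by
        intro w hw
        rw [hs w hw]; exact Subgroup.one_mem _) (by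
        intro w hw
        rw [h1, Finsupp.smul_apply, smul_eq_mul] at hw
        rw [hs w (fun h0 => hw (by rw [h0, mul_zero]))]
        exact ⟨1, Subgroup.one_mem _, 1, Subgroup.one_mem _, by simp⟩)
    rw [mem_BP_empty ha, mem_BP_empty hd, one_mul] at he
    exact of_zpow_ne r hk he
  · intro z x hz
    rw [h, Finsupp.add_apply, Finsupp.smul_apply, Finsupp.smul_apply, hz, smul_zero, add_zero,
      Lop_apply, hz, mul_zero, add_zero, smul_eq_mul]
    congr 2
    simp

theorem jij_not_mem {i j : B} (hij : i ≠ j) (hm : 4 ≤ M i j) :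
    cs.simple j * (cs.simple i * cs.simple j) ∉ WPP cs {i} {j} ∧
      cs.simple j * (cs.simple i * cs.simple j) ∉ WPP cs {j} {i} := by
  have h2 : alt (sx cs i j) false 3 = cs.simple j * (cs.simple i * cs.simple j) := by
    rw [alt_succ, alt_succ, alt_succ, alt_zero, mul_one]; rfl
  have h3 := length_alt cs hij false (l := 3) (Or.inr (by omega))
  rw [h2] at h3
  constructor
  · intro h
    have := length_le_of_mem_WPP cs h
    omega
  · intro h
    have := length_le_of_mem_WPP cs h
    omega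

/-- vertex to vertex -/
theorem q3_vertex [IsDomain R] (S1 : SD R q ε ε') (S2 : SD R q ε' ε) {i j : B} (hij : i ≠ j)
    (hm : 5 ≤ M i j) {g : BraidGroup M} (hg : g ∈ BP M {i, j}) {c : W →₀ R} (hc : c ≠ 0)
    (hcj : Supp (WP cs ∅ : Set W) c)
    (h : Supp (WPP cs {i} {j} ∪ WPP cs {j} {i}) (act cs q g c)) :
    (∃ a ∈ BP M {i}, ∃ b ∈ BP M {j}, g = a * b) ∨ (∃ a ∈ BP M {j}, ∃ b ∈ BP M {i}, g = a * b) := by
  classical
  have hsub : WPP cs {i} {j} ∪ WPP cs {j} {i} ⊆ WT cs i j := by
    rintro w (hw | ⟨a, ha, b, hb, rfl⟩)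
    · exact ⟨1, Subgroup.one_mem _, w, hw, by simp⟩
    · exact ⟨a, ha, b, ⟨b, hb, 1, Subgroup.one_mem _, by simp⟩, rfl⟩
  obtain ⟨a, ha, b, hb, d, hd, he⟩ := q3 cs S1 S2 hij hm hg hc
    (hcj.mono (WP_mono cs (Set.empty_subset _))) (h.mono hsub)
  by_cases ha1 : a = 1
  · left; exact ⟨b, hb, d, hd, by rw [he, ha1, one_mul]⟩
  by_cases hd1 : d = 1
  · right; exact ⟨a, ha, b, hb, by rw [he, hd1, mul_one]⟩
  by_cases hb1 : b = 1
  · left; exact ⟨1, Subgroup.one_mem _, a * d, Subgroup.mul_mem _ ha hd, by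
      rw [he, hb1, mul_one, one_mul]⟩
  exfalso
  obtain ⟨ka, rfl⟩ := mem_BP_singleton ha
  obtain ⟨kb, rfl⟩ := mem_BP_singleton hb
  obtain ⟨kd, rfl⟩ := mem_BP_singleton hd
  have na : ka ≠ 0 := by rintro rfl; exact ha1 (zpow_zero _)
  have nb : kb ≠ 0 := by rintro rfl; exact hb1 (zpow_zero _)
  have nd : kd ≠ 0 := by rintro rfl; exact hd1 (zpow_zero _)
  obtain ⟨βa, hβa, fa⟩ := offdiag cs S1 j na
  obtain ⟨βb, hβb, fb⟩ := offdiag cs S1 i nb
  obtain ⟨βd, hβd, fd⟩ := offdiag cs S1 j nd
  have s1 : ∀ w, c w ≠ 0 → w = 1 := by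
    intro w hw
    have := hcj w hw
    rw [WP_empty] at this
    exact Subgroup.mem_bot.mp this
  have hc1 : c 1 ≠ 0 := by
    obtain ⟨w, hw⟩ := exists_ne_zero hc
    rw [← s1 w hw]; exact hw
  set z1 := act cs q ((PresentedGroup.of j : BraidGroup M) ^ kd) c with hz1
  set z2 := act cs q ((PresentedGroup.of i : BraidGroup M) ^ kb) z1 with hz2
  have s2 : Supp (WP cs {j} : Set W) z1 :=
    supp_act_WP cs q hd (hcj.mono (WP_mono cs (Set.empty_subset _)))
  have s3 : Supp (WPP cs {i} {j}) z2 :=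
    supp_act_WPP cs q hb (s2.mono (fun w hw => WP_sub_WPP_right cs hw))
  have v1 : z1 (cs.simple j * 1) = βd * c 1 := by
    apply fd
    by_contra hne
    have := s1 _ hne
    rw [mul_one] at this
    exact simple_ne_one cs j this
  rw [mul_one] at v1
  have v2 : z2 (cs.simple i * cs.simple j) = βb * z1 (cs.simple j) := by
    apply fb
    by_contra hne
    rcases mem_WP_singleton cs (s2 _ hne) with h1 | h1
    · apply simple_ne cs hij
      have := congrArg (fun z => z * cs.simple j) h1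
      simpa [mul_assoc] using this
    · exact simple_ne_one cs i (mul_eq_right.mp h1)
  have v3 : act cs q g c (cs.simple j * (cs.simple i * cs.simple j)) =
      βa * z2 (cs.simple i * cs.simple j) := by
    rw [he, act_mul_apply, act_mul_apply]
    apply fa
    by_contra hne
    exact (jij_not_mem cs hij (by omega)).1 (s3 _ hne)
  have v4 : act cs q g c (cs.simple j * (cs.simple i * cs.simple j)) ≠ 0 := by
    rw [v3, v2, v1]
    exact mul_ne_zero hβa (mul_ne_zero hβb (mul_ne_zero hβd hc1))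
  rcases h _ v4 with h5 | h5
  · exact (jij_not_mem cs hij (by omega)).1 h5
  · exact (jij_not_mem cs hij (by omega)).2 h5

end loc

end Pool.Agent.HeckeCox
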