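import Mathlib
import Pool.Agent.Lib_helper18.Hecke.Loc
import Pool.Agent.Lib_helper18.Hecke.Iface

set_option autoImplicit false

/-! Exits from long pieces. -/

namespace Pool.Agent.HeckeCox

open CoxeterSystem
open scoped Classical

section exit

variable {B W : Type*} [Group W] {M : CoxeterMatrix B} (cs : CoxeterSystem M W)
variable {R : Type*} [CommRing R] {q ε ε' : R}

/-- exit point of a long piece -/
def ExitP (T E F : Set B) (z : W →₀ R) : Prop :=
  ∃ (b b' : B) (u2 : W), b ≠ b' ∧ ({b, b'} : Set B) = T ∧ u2 ∈ WP cs T ∧ F ⊆ {b'} ∧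
    (∀ k ∈ F, D cs (cs.simple b * (cs.simple b' * u2)) (cs.simple k) = 0) ∧
    (∃ e ∈ WP cs F, z (e * (cs.simple b * (cs.simple b' * u2))) ≠ 0) ∧
    Pos (ga cs u2⁻¹ (gx b')) ∧ (∀ k, k ∉ T → ga cs u2⁻¹ (gx b') k = 0) ∧
    ∀ k ∈ T, k ∉ E → 1 ≤ ga cs u2⁻¹ (gx b') k

theorem pr_pair (i j : B) (c : Bool) : ({pr i j c, pr i j (!c)} : Set B) = {i, j} := by
  cases c
  · simp only [pr, Bool.not_false, Bool.false_eq_true, if_false, if_true]
    exact Set.pair_comm _ _
  · simp [pr]

theorem exit_of_alt {i j : B} (hij : i ≠ j) (_hM : M i j ≠ 0) {E F : Set B} (hF : F ⊆ {i, j})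
    {z : W →₀ R} {c : Bool} {l : ℕ} (hl : l ≤ M i j) (h2 : 2 ≤ l) (hE : l = 2 → pr i j c ∈ E)
    (hD : ∀ k ∈ F, D cs (alt (sx cs i j) c l) (cs.simple k) = 0)
    (hz : ∃ e ∈ WP cs F, z (e * alt (sx cs i j) c l) ≠ 0) : ExitP cs {i, j} E F z := by
  obtain ⟨n, rfl⟩ : ∃ n, l = n + 2 := ⟨l - 2, by omega⟩
  have e0 : alt (sx cs i j) c (n + 2) = cs.simple (pr i j c) * (cs.simple (pr i j (!c)) *
      alt (sx cs i j) c n) := by
    rw [alt_succ, alt_succ, Bool.not_not]; rfl
  have e1 := ga_alt_inv cs i j n c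
  have u1 : 1 ≤ ul (2 * kap M i j) (n + 1) := ul_ge_one M hij (by omega) (Or.inr (by omega))
  have u2 : 0 ≤ ul (2 * kap M i j) n := ul_nonneg M hij (Or.inr (by omega))
  have htw : tw (!c) n = !(tw c n) := tw_not c n
  have hne : pr i j (tw c n) ≠ pr i j (tw (!c) n) := by
    rw [htw]; exact pr_ne hij _
  have hpair : ({pr i j (tw c n), pr i j (tw (!c) n)} : Set B) = {i, j} := by
    rw [htw]; exact pr_pair i j _
  refine ⟨pr i j c, pr i j (!c), alt (sx cs i j) c n, pr_ne hij c, pr_pair i j c,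
    alt_mem cs i j c n, ?_, ?_, ?_, ?_, ?_, ?_⟩
  · intro k hk
    have h1 := hF hk
    rw [← pr_pair i j c] at h1
    rcases h1 with h1 | h1
    · exfalso
      have h3 := hD k hk
      have h4 : D cs (alt (sx cs i j) c (n + 2)) (sx cs i j c) = 1 :=
        D_alt_self cs hij c (by omega) (Or.inr hl)
      have h5 : sx cs i j c = cs.simple k := by rw [h1]; rfl
      rw [h5, h3] at h4
      simp at h4
    · exact h1
  · rw [← e0]; exact hD
  · rw [← e0]; exact hz
  · rw [e1]
    exact (Pos.smul (by linarith) (Pos_gx _)).add (Pos.smul u2 (Pos_gx _))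
  · intro k hk
    rw [← hpair] at hk
    simp only [Set.mem_insert_iff, Set.mem_singleton_iff, not_or] at hk
    rw [e1, Finsupp.add_apply, Finsupp.smul_apply, Finsupp.smul_apply, gx_ne (Ne.symm hk.2),
      gx_ne (Ne.symm hk.1)]
    simp
  · intro k hk hkE
    rw [← hpair] at hk
    rw [e1, Finsupp.add_apply, Finsupp.smul_apply, Finsupp.smul_apply]
    rcases hk with rfl | hk
    · rw [gx_ne hne.symm, gx_same, smul_zero, zero_add, smul_eq_mul, mul_one]
      rcases Nat.eq_zero_or_pos n with h0 | hpos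
      · subst h0
        exact absurd (hE rfl) hkE
      · exact ul_ge_one M hij hpos (Or.inr (by omega))
    · rw [Set.mem_singleton_iff] at hk
      subst hk
      rw [gx_same, gx_ne hne, smul_zero, add_zero, smul_eq_mul, mul_one]
      exact u1

theorem alt_small (i j : B) (c : Bool) {l : ℕ} (hl : l ≤ 2) :
    alt (sx cs i j) c l ∈ WPP cs {i} {j} ∨ alt (sx cs i j) c l ∈ WPP cs {j} {i} := by
  have hi : cs.simple i ∈ WP cs {i} := simple_mem_WP cs rfl
  have hj : cs.simple j ∈ WP cs {j} := simple_mem_WP cs rfl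
  interval_cases l
  · left; exact ⟨1, Subgroup.one_mem _, 1, Subgroup.one_mem _, by simp⟩
  · cases c
    · left; exact ⟨1, Subgroup.one_mem _, _, hj, by simp [sx, pr]⟩
    · left; exact ⟨_, hi, 1, Subgroup.one_mem _, by simp [sx, pr]⟩
  · cases c
    · right; exact ⟨_, hj, _, hi, by simp [alt_succ, sx, pr]⟩
    · left; exact ⟨_, hi, _, hj, by simp [alt_succ, sx, pr]⟩

theorem WPP_sub_WT (i j : B) : WPP cs {i} {j} ∪ WPP cs {j} {i} ⊆ WT cs i j := by
  rintro w (hw | ⟨a, ha, b, hb, rfl⟩)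
  · exact ⟨1, Subgroup.one_mem _, w, hw, by simp⟩
  · exact ⟨a, ha, b, ⟨b, hb, 1, Subgroup.one_mem _, by simp⟩, rfl⟩

theorem choose_min {f : B} {z : W →₀ R} {w : W} (hw : z w ≠ 0) : ∃ u,
    D cs u (cs.simple f) = 0 ∧ (∃ e ∈ WP cs {f}, z (e * u) ≠ 0) ∧
      (u = w ∨ u = cs.simple f * w) := by
  rcases zmod2_cases (D cs w (cs.simple f)) with h | h
  · exact ⟨w, h, ⟨1, Subgroup.one_mem _, by rwa [one_mul]⟩, Or.inl rfl⟩
  · refine ⟨cs.simple f * w, by rw [D_simple_mul, h]; rfl, ⟨cs.simple f, simple_mem_WP cs rfl, ?_⟩,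
      Or.inr rfl⟩
    rwa [← mul_assoc, cs.simple_mul_simple_self, one_mul]

/-- bad long pieces -/
def NBad (M : CoxeterMatrix B) (T E F : Set B) (p : BraidGroup M) : Prop :=
  ∀ n ∈ BP M F, ∀ x ∈ T, ∀ y ∈ T, ∀ a ∈ BP M {x}, ∀ b ∈ BP M {y}, ∀ d ∈ BP M E,
    p ≠ n * a * b * d

theorem exitA [IsDomain R] (S1 : SD R q ε ε') (S2 : SD R q ε' ε) {s t : B} (hst : s ≠ t)
    (hm : 5 ≤ M s t) {p : BraidGroup M} (hp : p ∈ BP M {s, t}) (hNB : NBad M {s, t} ∅ ∅ p)
    {d : W →₀ R} (hd : d ≠ 0) (hdE : Supp (WP cs ∅ : Set W) d) :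
    ExitP cs {s, t} ∅ ∅ (act cs q p d) := by
  by_contra hcon
  have h : Supp (WPP cs {s} {t} ∪ WPP cs {t} {s}) (act cs q p d) := by
    intro w hw
    by_contra hw2
    apply hcon
    have hwm := supp_act_WP cs q hp (hdE.mono (WP_mono cs (Set.empty_subset _))) w hw
    obtain ⟨c, l, hl, rfl⟩ := exists_alt_le cs (by omega) hwm
    have hl3 : 3 ≤ l := by
      by_contra h3
      exact hw2 (alt_small cs s t c (by omega))
    exact exit_of_alt cs hst (by omega) (Set.empty_subset _) hl (by omega) (by omega)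
      (by simp) ⟨1, Subgroup.one_mem _, by rwa [one_mul]⟩
  rcases q3_vertex cs S1 S2 hst hm hp hd hdE h with ⟨a, ha, b, hb, he⟩ | ⟨a, ha, b, hb, he⟩
  · exact hNB 1 (Subgroup.one_mem _) s (by simp) t (by simp) a ha b hb 1 (Subgroup.one_mem _)
      (by rw [he]; simp)
  · exact hNB 1 (Subgroup.one_mem _) t (by simp) s (by simp) a ha b hb 1 (Subgroup.one_mem _)
      (by rw [he]; simp)

theorem exitB [IsDomain R] (S1 : SD R q ε ε') (S2 : SD R q ε' ε) {g e : B} (hge : g ≠ e)
    (hm : 5 ≤ M g e) {p : BraidGroup M} (hp : p ∈ BP M {g, e}) (hNB : NBad M {g, e} {e} ∅ p)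
    {d : W →₀ R} (hd : d ≠ 0) (hdE : Supp (WP cs {e} : Set W) d) :
    ExitP cs {g, e} {e} ∅ (act cs q p d) := by
  by_contra hcon
  have h : Supp (WT cs g e) (act cs q p d) := by
    intro w hw
    by_contra hw2
    apply hcon
    have hwm := supp_act_WP cs q hp (hdE.mono (WP_mono cs (by simp))) w hw
    obtain ⟨c, l, hl, rfl⟩ := exists_alt_le cs (by omega) hwm
    have hl3 : 3 ≤ l := by
      by_contra h3
      exact hw2 (WPP_sub_WT cs g e (alt_small cs g e c (by omega)))
    exact exit_of_alt cs hge (by omega) (Set.empty_subset _) hl (by omega) (by omega)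
      (by simp) ⟨1, Subgroup.one_mem _, by rwa [one_mul]⟩
  obtain ⟨a, ha, b, hb, c, hc, he⟩ := q3 cs S1 S2 hge hm hp hd hdE h
  exact hNB 1 (Subgroup.one_mem _) e (by simp) g (by simp) a ha b hb c hc (by rw [he]; simp)

theorem exitC [IsDomain R] (S1 : SD R q ε ε') (S2 : SD R q ε' ε) {g f : B} (hgf : g ≠ f)
    (hm : 5 ≤ M g f) {p : BraidGroup M} (hp : p ∈ BP M {g, f}) {E : Set B}
    (hNB : NBad M {g, f} E {f} p) {d : W →₀ R} (hd : d ≠ 0)
    (hdE : Supp (WP cs {f} : Set W) d) : ExitP cs {g, f} E {f} (act cs q p d) := by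
  by_contra hcon
  have h : Supp (WT cs g f) (act cs q p d) := by
    intro w hw
    by_contra hw2
    apply hcon
    have hwm := supp_act_WP cs q hp (hdE.mono (WP_mono cs (by simp))) w hw
    obtain ⟨u, hD, hz, hu⟩ := choose_min cs (f := f) hw
    have hum : u ∈ WP cs {g, f} := by
      rcases hu with rfl | rfl
      · exact hwm
      · exact Subgroup.mul_mem _ (simple_mem_WP cs (by simp)) hwm
    have huT : u ∉ WT cs g f := by
      rcases hu with rfl | rfl
      · exact hw2
      · intro h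
        apply hw2
        have := WT_mul cs h
        rwa [← mul_assoc, cs.simple_mul_simple_self, one_mul] at this
    obtain ⟨c, l, hl, rfl⟩ := exists_alt_le cs (by omega) hum
    have hl3 : 3 ≤ l := by
      by_contra h3
      exact huT (WPP_sub_WT cs g f (alt_small cs g f c (by omega)))
    exact exit_of_alt cs hgf (by omega) (by simp) hl (by omega) (by omega)
      (by intro k hk; rw [Set.mem_singleton_iff] at hk; subst hk; exact hD) hz
  obtain ⟨a, ha, b, hb, c, hc, he⟩ := q3 cs S1 S2 hgf hm hp hd hdE h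
  exact hNB a ha g (by simp) f (by simp) b hb c hc 1 (Subgroup.one_mem _) (by rw [he]; simp)

theorem exitD [IsDomain R] (S1 : SD R q ε ε') (S2 : SD R q ε' ε) {f g : B} (hfg : f ≠ g)
    (hm : 5 ≤ M f g) {p : BraidGroup M} (hp : p ∈ BP M {f, g})
    (hNB : NBad M {f, g} {g} {f} p) {d : W →₀ R} (hd : d ≠ 0)
    (hdE : Supp (WP cs {g} : Set W) d) : ExitP cs {f, g} {g} {f} (act cs q p d) := by
  by_contra hcon
  have h : Supp (WPP cs {f} {g}) (act cs q p d) := by
    intro w hw
    by_contra hw2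
    apply hcon
    have hwm := supp_act_WP cs q hp (hdE.mono (WP_mono cs (by simp))) w hw
    obtain ⟨u, hD, hz, hu⟩ := choose_min cs (f := f) hw
    have hum : u ∈ WP cs {f, g} := by
      rcases hu with rfl | rfl
      · exact hwm
      · exact Subgroup.mul_mem _ (simple_mem_WP cs (by simp)) hwm
    have huT : u ∉ WPP cs {f} {g} := by
      rcases hu with rfl | rfl
      · exact hw2
      · intro h
        apply hw2
        have := mul_mem_WPP cs (Set.mem_singleton f) h
        rwa [← mul_assoc, cs.simple_mul_simple_self, one_mul] at this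
    obtain ⟨c, l, hl, rfl⟩ := exists_alt_le cs (by omega) hum
    have hi : cs.simple f ∈ WP cs {f} := simple_mem_WP cs rfl
    have hj : cs.simple g ∈ WP cs {g} := simple_mem_WP cs rfl
    have hl2 : 2 ≤ l := by
      by_contra h3
      apply huT
      have : l ≤ 1 := by omega
      interval_cases l
      · exact ⟨1, Subgroup.one_mem _, 1, Subgroup.one_mem _, by simp⟩
      · cases c
        · exact ⟨1, Subgroup.one_mem _, _, hj, by simp [sx, pr]⟩
        · exact ⟨_, hi, 1, Subgroup.one_mem _, by simp [sx, pr]⟩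
    have hc : l = 2 → pr f g c ∈ ({g} : Set B) := by
      rintro rfl
      cases c
      · simp [pr]
      · exfalso
        exact huT ⟨_, hi, _, hj, by simp [alt_succ, sx, pr]⟩
    exact exit_of_alt cs hfg (by omega) (by simp) hl hl2 hc
      (by intro k hk; rw [Set.mem_singleton_iff] at hk; subst hk; exact hD) hz
  obtain ⟨a, ha, b, hb, he⟩ := pair_main cs S1 S2 hfg (by omega) hp hd hdE h
  exact hNB 1 (Subgroup.one_mem _) f (by simp) g (by simp) a ha b hb 1 (Subgroup.one_mem _)
    (by rw [he]; simp)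

theorem proper_sub {s t : B} (hst : s ≠ t) {E : Set B} (hE : E ⊆ {s, t}) (hE' : ¬ {s, t} ⊆ E) :
    E = ∅ ∨ E = {s} ∨ E = {t} := by
  by_cases hs : s ∈ E
  · right; left
    ext k
    constructor
    · intro hk
      rcases hE hk with h | h
      · exact h
      · exfalso
        rw [Set.mem_singleton_iff] at h; subst h
        apply hE'
        rintro k' (rfl | hk')
        · exact hs
        · rw [Set.mem_singleton_iff] at hk'; subst hk'; exact hk
    · intro hk; rw [Set.mem_singleton_iff] at hk; subst hk; exact hs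
  · by_cases ht : t ∈ E
    · right; right
      ext k
      constructor
      · intro hk
        rcases hE hk with h | h
        · subst h; exact absurd hk hs
        · exact h
      · intro hk; rw [Set.mem_singleton_iff] at hk; subst hk; exact ht
    · left
      ext k
      constructor
      · intro hk
        exfalso
        rcases hE hk with h | h
        · subst h; exact hs hk
        · rw [Set.mem_singleton_iff] at h; subst h; exact ht hk
      · intro hk; exact absurd hk (Set.notMem_empty k)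

/-- the exit lemma -/
theorem exit_lemma [IsDomain R] (S1 : SD R q ε ε') (S2 : SD R q ε' ε) {s t : B} (hst : s ≠ t)
    (hm : 5 ≤ M s t) {p : BraidGroup M} (hp : p ∈ BP M {s, t}) {E F : Set B}
    (hE : E ⊆ {s, t}) (hE' : ¬ {s, t} ⊆ E) (hF : F ⊆ {s, t}) (hF' : ¬ {s, t} ⊆ F)
    (hNB : NBad M {s, t} E F p) {d : W →₀ R} (hd : d ≠ 0) (hdE : Supp (WP cs E : Set W) d) :
    ExitP cs {s, t} E F (act cs q p d) := by
  have hm' : 5 ≤ M t s := by rw [M.symmetric]; exact hm
  have hcomm : ({t, s} : Set B) = {s, t} := Set.pair_comm t s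
  rcases proper_sub hst hF hF' with rfl | rfl | rfl
  · rcases proper_sub hst hE hE' with rfl | rfl | rfl
    · exact exitA cs S1 S2 hst hm hp hNB hd hdE
    · rw [← hcomm] at hp hNB ⊢
      exact exitB cs S1 S2 hst.symm hm' hp hNB hd hdE
    · exact exitB cs S1 S2 hst hm hp hNB hd hdE
  · rcases proper_sub hst hE hE' with rfl | rfl | rfl
    · rw [← hcomm] at hp hNB ⊢
      exact exitC cs S1 S2 hst.symm hm' hp hNB hd (hdE.mono (WP_mono cs (Set.empty_subset _)))
    · rw [← hcomm] at hp hNB ⊢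
      exact exitC cs S1 S2 hst.symm hm' hp hNB hd hdE
    · exact exitD cs S1 S2 hst hm hp hNB hd hdE
  · rcases proper_sub hst hE hE' with rfl | rfl | rfl
    · exact exitC cs S1 S2 hst hm hp hNB hd (hdE.mono (WP_mono cs (Set.empty_subset _)))
    · rw [← hcomm] at hp hNB ⊢
      exact exitD cs S1 S2 hst.symm hm' hp hNB hd hdE
    · exact exitC cs S1 S2 hst hm hp hNB hd hdE

end exit

end Pool.Agent.HeckeCox
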