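import Mathlib
import Pool.Agent.Lib_helper18.Hecke.Exit

set_option autoImplicit false

/-! Chains of syllables and long pieces. -/

namespace Pool.Agent.HeckeCox

open CoxeterSystem
open scoped Classical

section chain

universe u

/-- chains -/
inductive Ch {B : Type u} (M : CoxeterMatrix B) : Type u
  | nil : Ch M
  | syl (r : B) (k : ℤ) (C : Ch M) : Ch M
  | long (s t : B) (p : BraidGroup M) (C : Ch M) : Ch M

variable {B : Type u} {M : CoxeterMatrix B}

namespace Ch

/-- the product -/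
def val : Ch M → BraidGroup M
  | nil => 1
  | syl r k C => (PresentedGroup.of r : BraidGroup M) ^ k * C.val
  | long _ _ p C => p * C.val

/-- the cost -/
def cost : Ch M → ℕ
  | nil => 0
  | syl _ _ C => C.cost + 2
  | long _ _ _ C => C.cost + 5

/-- leading letters -/
def lets : Ch M → List B
  | nil => []
  | syl r _ C => r :: C.lets
  | long _ _ _ _ => []

/-- type of the core -/
def ut (J : Set B) : Ch M → Set B
  | nil => J
  | syl _ _ C => C.ut J
  | long s t _ _ => {s, t}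

/-- well-formed chains -/
def wf (P : Set B) : Ch M → Prop
  | nil => True
  | syl r _ C => r ∈ P ∧ C.wf P
  | long s t p C => s ∈ P ∧ t ∈ P ∧ s ≠ t ∧ M s t ≠ 0 ∧ p ∈ BP M {s, t} ∧ C.wf P

end Ch

/-- minimal chains -/
def MinC (P J N : Set B) (C : Ch M) : Prop :=
  C.wf P ∧ ∀ C' : Ch M, C'.wf P → ∀ b ∈ BP M N, ∀ b' ∈ BP M J, C.val = b * C'.val * b' →
    C.cost ≤ C'.cost

variable {P J N : Set B}

theorem MinC.mono {N' : Set B} (h : N' ⊆ N) {C : Ch M} (hC : MinC P J N C) : MinC P J N' C :=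
  ⟨hC.1, fun C' hw b hb b' hb' he => hC.2 C' hw b (BP_mono h hb) b' hb' he⟩

theorem MinC.syl_ne {r : B} {k : ℤ} {C : Ch M} (h : MinC P J N (Ch.syl r k C)) : k ≠ 0 := by
  rintro rfl
  have := h.2 C h.1.2 1 (Subgroup.one_mem _) 1 (Subgroup.one_mem _) (by simp [Ch.val])
  simp only [Ch.cost] at this
  omega

theorem MinC.syl_N {r : B} {k : ℤ} {C : Ch M} (h : MinC P J N (Ch.syl r k C)) : r ∉ N := by
  intro hr
  have := h.2 C h.1.2 _ (Subgroup.zpow_mem _ (of_mem_BP hr) k) 1 (Subgroup.one_mem _)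
    (by simp [Ch.val])
  simp only [Ch.cost] at this
  omega

theorem MinC.syl_tail {r : B} {k : ℤ} {C : Ch M} (h : MinC P J N (Ch.syl r k C)) :
    MinC P J {r} C := by
  refine ⟨h.1.2, ?_⟩
  intro C' hw b hb b' hb' he
  obtain ⟨j, rfl⟩ := mem_BP_singleton hb
  have := h.2 (Ch.syl r (k + j) C') ⟨h.1.1, hw⟩ 1 (Subgroup.one_mem _) b' hb' (by
    simp only [Ch.val]
    rw [he, zpow_add]; group)
  simp only [Ch.cost] at this
  omega

theorem MinC.long_N {s t : B} {p : BraidGroup M} {C : Ch M}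
    (h : MinC P J N (Ch.long s t p C)) : ¬ {s, t} ⊆ N := by
  intro hN
  have := h.2 C h.1.2.2.2.2.2 p (BP_mono hN h.1.2.2.2.2.1) 1 (Subgroup.one_mem _)
    (by simp [Ch.val])
  simp only [Ch.cost] at this
  omega

theorem MinC.long_tail {s t : B} {p : BraidGroup M} {C : Ch M}
    (h : MinC P J N (Ch.long s t p C)) : MinC P J {s, t} C := by
  obtain ⟨⟨h1, h2, h3, h4, h5, h6⟩, h7⟩ := h
  refine ⟨h6, ?_⟩
  intro C' hw b hb b' hb' he
  have := h7 (Ch.long s t (p * b) C') ⟨h1, h2, h3, h4, Subgroup.mul_mem _ h5 hb, hw⟩ 1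
    (Subgroup.one_mem _) b' hb' (by
      simp only [Ch.val]
      rw [he]; group)
  simp only [Ch.cost] at this
  omega

theorem absorb {C : Ch M} (hw : C.wf P) (hl : C.lets = []) {d : BraidGroup M}
    (hd : d ∈ BP M (C.ut J)) : ∃ C' : Ch M, ∃ b' ∈ BP M J, C'.wf P ∧
      d * C.val = C'.val * b' ∧ C'.cost = C.cost := by
  cases C with
  | nil => exact ⟨Ch.nil, d, hd, trivial, by simp [Ch.val], rfl⟩
  | syl r k C => simp [Ch.lets] at hl
  | long s t p C =>
    obtain ⟨h1, h2, h3, h4, h5, h6⟩ := hw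
    exact ⟨Ch.long s t (d * p) C, 1, Subgroup.one_mem _,
      ⟨h1, h2, h3, h4, Subgroup.mul_mem _ hd h5, h6⟩, by simp [Ch.val, mul_assoc], rfl⟩

theorem MinC.syl_ut {r : B} {k : ℤ} {C : Ch M} (h : MinC P J N (Ch.syl r k C))
    (hl : C.lets = []) : r ∉ C.ut J := by
  intro hr
  obtain ⟨C', b', hb', hw, he, hc⟩ := absorb (J := J) h.1.2 hl
    (Subgroup.zpow_mem _ (of_mem_BP hr) k)
  have := h.2 C' hw 1 (Subgroup.one_mem _) b' hb' (by simp only [Ch.val]; rw [he, one_mul])
  simp only [Ch.cost] at this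
  omega

theorem MinC.long_ut {s t : B} {p : BraidGroup M} {C : Ch M}
    (h : MinC P J N (Ch.long s t p C)) (hl : C.lets = []) : ¬ {s, t} ⊆ C.ut J := by
  intro hN
  obtain ⟨C', b', hb', hw, he, hc⟩ := absorb (J := J) h.1.2.2.2.2.2 hl
    (BP_mono hN h.1.2.2.2.2.1)
  have := h.2 C' hw 1 (Subgroup.one_mem _) b' hb' (by simp only [Ch.val]; rw [he, one_mul])
  simp only [Ch.cost] at this
  omega

theorem MinC.triple {r r' : B} {k k' k'' : ℤ} {C : Ch M}
    (h : MinC P J N (Ch.syl r k (Ch.syl r' k' (Ch.syl r k'' C)))) : M r r' = 0 := by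
  by_contra hM
  have hne : r ≠ r' := by
    have := h.syl_tail.syl_N
    intro h'
    exact this h'.symm
  obtain ⟨h1, h2, h3, h4⟩ := h.1
  have m1 : (PresentedGroup.of r : BraidGroup M) ∈ BP M {r, r'} := of_mem_BP (by simp)
  have m2 : (PresentedGroup.of r' : BraidGroup M) ∈ BP M {r, r'} := of_mem_BP (by simp)
  have := h.2 (Ch.long r r' ((PresentedGroup.of r : BraidGroup M) ^ k *
    ((PresentedGroup.of r' : BraidGroup M) ^ k' * (PresentedGroup.of r : BraidGroup M) ^ k'')) C)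
    ⟨h1, h2, hne, hM, Subgroup.mul_mem _ (Subgroup.zpow_mem _ m1 _)
      (Subgroup.mul_mem _ (Subgroup.zpow_mem _ m2 _) (Subgroup.zpow_mem _ m1 _)), h4⟩
    1 (Subgroup.one_mem _) 1 (Subgroup.one_mem _) (by simp [Ch.val, mul_assoc])
  simp only [Ch.cost] at this
  omega

theorem MinC.vs (C : Ch M) : ∀ N : Set B, MinC P J N C → Vs M P (C.ut J) C.lets := by
  induction C with
  | nil => intro N _; trivial
  | long s t p C _ => intro N _; trivial
  | syl r k C ih =>
    intro N h
    match C, ih, h with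
    | Ch.nil, _, h => exact ⟨h.1.1, h.syl_ut rfl⟩
    | Ch.long s t p C, _, h => exact ⟨h.1.1, h.syl_ut rfl⟩
    | Ch.syl r' k' C, ih, h =>
      refine ⟨h.1.1, ?_, ?_, ih _ h.syl_tail⟩
      · intro h'
        exact h.syl_tail.syl_N h'.symm
      · intro r'' l' hl hr
        subst hr
        match C, hl, h with
        | Ch.syl r'' k'' C, hl, h =>
          simp only [Ch.lets, List.cons.injEq] at hl
          obtain ⟨rfl, -⟩ := hl
          exact h.triple

/-- the exit type of a chain -/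
noncomputable def exE (J N : Set B) (C : Ch M) : Set B := if C.lets = [] then C.ut J ∩ N else ∅

theorem MinC.nbad {s t : B} {p : BraidGroup M} {C : Ch M}
    (h : MinC P J N (Ch.long s t p C)) :
    NBad M {s, t} (exE J {s, t} C) ({s, t} ∩ N) p := by
  intro n hn x hx y hy a ha b hb d hd he
  obtain ⟨h1, h2, h3, h4, h5, h6⟩ := h.1
  have hP : ∀ z ∈ ({s, t} : Set B), z ∈ P := by
    rintro z (rfl | hz)
    · exact h1
    · rw [Set.mem_singleton_iff] at hz; subst hz; exact h2
  obtain ⟨i, rfl⟩ := mem_BP_singleton ha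
  obtain ⟨j, rfl⟩ := mem_BP_singleton hb
  have hd' : ∃ C' : Ch M, ∃ b' ∈ BP M J, C'.wf P ∧ d * C.val = C'.val * b' ∧
      C'.cost = C.cost := by
    by_cases hl : C.lets = []
    · rw [exE, if_pos hl] at hd
      exact absorb (J := J) h6 hl (BP_mono Set.inter_subset_left hd)
    · rw [exE, if_neg hl] at hd
      rw [mem_BP_empty hd]
      exact ⟨C, 1, Subgroup.one_mem _, h6, by simp, rfl⟩
  obtain ⟨C', b', hb', hw, he', hc⟩ := hd'
  have := h.2 (Ch.syl x i (Ch.syl y j C')) ⟨hP x hx, hP y hy, hw⟩ n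
    (BP_mono Set.inter_subset_right hn) b' hb' (by
      simp only [Ch.val]
      rw [he]
      calc n * (PresentedGroup.of x : BraidGroup M) ^ i * (PresentedGroup.of y) ^ j * d * C.val
          = n * (PresentedGroup.of x : BraidGroup M) ^ i * (PresentedGroup.of y) ^ j *
            (d * C.val) := by group
        _ = n * (PresentedGroup.of x : BraidGroup M) ^ i * (PresentedGroup.of y) ^ j *
            (C'.val * b') := by rw [he']
        _ = _ := by group)
  simp only [Ch.cost] at this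
  omega

section state

variable {W : Type*} [Group W] (cs : CoxeterSystem M W)
variable {R : Type*} [CommRing R] {q ε ε' : R}

/-- the invariant -/
def St (P J N : Set B) (C : Ch M) (z : W →₀ R) : Prop :=
  ∃ (x : W) (S0 : Finset (B →₀ ℝ)) (X : Set W), Node cs P J x (C.ut J) S0 X (exE J N C) ∧
    Supp (reach cs X C.lets) z ∧ (∃ e ∈ WP cs (exE J N C), z (e * fin' cs x C.lets) ≠ 0) ∧
    (C.lets = [] → C ≠ Ch.nil → S0.Nonempty) ∧ (C = Ch.nil → S0 = ∅)

theorem st_nil (hP : HL M P) (hJ : J ⊆ P) (N : Set B) {c : W →₀ R} (hc : c ≠ 0)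
    (hcJ : Supp (WP cs J : Set W) c) : St cs P J N (Ch.nil : Ch M) c := by
  obtain ⟨w, hw⟩ := exists_ne_zero hc
  obtain ⟨u, hu, x, hx, rfl⟩ := exists_decomp cs (J ∩ N) w
  have hE : exE J N (Ch.nil : Ch M) = J ∩ N := by
    rw [exE, if_pos (by rfl)]; rfl
  have huJ : u ∈ WP cs J := WP_mono cs Set.inter_subset_left hu
  have hxJ : x ∈ WP cs J := by
    have : x = u⁻¹ * (u * x) := by group
    rw [this]; exact Subgroup.mul_mem _ (Subgroup.inv_mem _ huJ) (hcJ _ hw)
  refine ⟨x, ∅, (WP cs J : Set W), ?_, hcJ, ?_, ?_, ?_⟩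
  · rw [hE]
    exact node_init cs hP hJ hxJ Set.inter_subset_left (fun k hk => hx k hk)
  · rw [hE]
    exact ⟨u, hu, hw⟩
  · intro _ h; exact absurd rfl h
  · intro _; rfl

theorem exE_empty (J : Set B) (C : Ch M) : exE J ∅ C = ∅ := by
  unfold exE
  split_ifs
  · simp
  · rfl

theorem st_syl [IsDomain R] (S1 : SD R q ε ε') (hP : HL M P) {r : B} {k : ℤ} {C : Ch M}
    (h : MinC P J N (Ch.syl r k C)) {z : W →₀ R} (hz : St cs P J ∅ C z) :
    St cs P J N (Ch.syl r k C) (act cs q ((PresentedGroup.of r : BraidGroup M) ^ k) z) := by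
  obtain ⟨x, S0, X, hN, hX, ⟨e, he, hv⟩, -, -⟩ := hz
  rw [exE_empty] at hN he
  have he1 : e = 1 := by
    rw [WP_empty] at he; exact Subgroup.mem_bot.mp he
  rw [he1, one_mul] at hv
  have hE : exE J N (Ch.syl r k C) = ∅ := by
    rw [exE, if_neg (by simp [Ch.lets])]
  have hV : Vs M P (C.ut J) (r :: C.lets) := h.vs _ _
  refine ⟨x, S0, X, ?_, ?_, ?_, ?_, ?_⟩
  · rw [hE]; exact hN
  · have hX' : Supp (reach cs X (r :: C.lets)) z := hX.mono (fun w hw => Or.inl hw)
    apply supp_act cs q _ (of_zpow_mem r k) hX'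
    intro i hi w hw
    rw [Set.mem_singleton_iff] at hi; subst hi
    rcases hw with hw | hw
    · exact Or.inr (by rwa [← mul_assoc, cs.simple_mul_simple_self, one_mul])
    · exact Or.inl hw
  · rw [hE]
    refine ⟨1, Subgroup.one_mem _, ?_⟩
    rw [one_mul]
    obtain ⟨b, hb, hf⟩ := offdiag cs S1 r h.syl_ne
    have h0 : z (cs.simple r * fin' cs x C.lets) = 0 := by
      by_contra hne
      exact fin_not_mem cs hP hN hV (hX _ hne)
    have h1 := hf z _ h0
    change act cs q _ z (cs.simple r * fin' cs x C.lets) ≠ 0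
    rw [h1]
    exact mul_ne_zero hb hv
  · intro h; simp [Ch.lets] at h
  · intro h; exact absurd h (by simp)

theorem st_long [IsDomain R] (S1 : SD R q ε ε') (S2 : SD R q ε' ε) (hP : HL M P) {s t : B}
    {p : BraidGroup M} {C : Ch M} (h : MinC P J N (Ch.long s t p C)) {z : W →₀ R}
    (hz : St cs P J {s, t} C z) : St cs P J N (Ch.long s t p C) (act cs q p z) := by
  obtain ⟨x, S0, X, hN, hX, ⟨e, he, hv⟩, hS1, hS2⟩ := hz
  obtain ⟨hs, ht, hst, hM, hp, hw⟩ := h.1
  have hm : 5 ≤ M s t := (hP s hs t ht hst).resolve_left hM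
  have hV := h.long_tail.vs _ _
  have hEsub : exE J {s, t} C ⊆ {s, t} := by
    unfold exE
    split_ifs
    · exact Set.inter_subset_right
    · exact Set.empty_subset _
  have hEn : ¬ {s, t} ⊆ exE J {s, t} C := by
    unfold exE
    split_ifs with hl
    · intro h'
      exact h.long_ut hl (h'.trans Set.inter_subset_left)
    · intro h'
      exact h' (Set.mem_insert s {t})
  -- the interface
  have hI : Iface cs J s t (exE J {s, t} C) (fin' cs x C.lets) (reach cs X C.lets) := by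
    match C, h, hN, hX, hV, hS1, hS2 with
    | Ch.nil, h, hN, hX, hV, hS1, hS2 =>
      apply iface0 cs hP hN hs ht hst hM
      · rw [exE, if_pos (by rfl)]
      · exact h.long_ut rfl
      · intro hne
        rw [hS2 rfl] at hne
        exact absurd hne (by simp)
    | Ch.long s' t' p' C', h, hN, hX, hV, hS1, hS2 =>
      apply iface0 cs hP hN hs ht hst hM
      · rw [exE, if_pos (by rfl)]
      · exact h.long_ut rfl
      · intro _
        exact h.long_tail.long_N
    | Ch.syl r k C', h, hN, hX, hV, hS1, hS2 =>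
      have hr := h.long_tail.syl_N
      simp only [Set.mem_insert_iff, Set.mem_singleton_iff, not_or] at hr
      have hE : exE J {s, t} (Ch.syl r k C') = ∅ := by
        rw [exE, if_neg (by simp [Ch.lets])]
      rw [hE]
      exact iface1 cs hP hN hV hs ht hst hM hr.1 hr.2
  set x' := fin' cs x C.lets with hx'
  set X' := reach cs X C.lets with hX'
  set E0 := exE J {s, t} C with hE0
  set d := comp cs {s, t} x' z with hd
  have hd0 : d ≠ 0 := by
    intro h0
    apply hv
    have h1 := DFunLike.congr_fun h0 e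
    rw [hd, comp_apply_mem cs (WP_mono cs hEsub he)] at h1
    exact h1
  have hdE : Supp (WP cs E0 : Set W) d := by
    intro u hu
    have hK := comp_supp cs {s, t} x' z u hu
    rw [hd, comp_apply_mem cs hK] at hu
    exact hI.sup u hK (hX _ hu)
  have hFn : ¬ {s, t} ⊆ ({s, t} ∩ N : Set B) := fun h' =>
    h.long_N (h'.trans Set.inter_subset_right)
  obtain ⟨b, b', u2, hbb, hpair, hu2, hF, hD, ⟨e', he', hv'⟩, hpos, hsupp, hbig⟩ :=
    exit_lemma cs S1 S2 hst hm hp hEsub hEn Set.inter_subset_left hFn h.nbad hd0 hdE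
  have hbT : b ∈ ({s, t} : Set B) := by rw [← hpair]; simp
  have hbT' : b' ∈ ({s, t} : Set B) := by rw [← hpair]; simp
  have hTP : ∀ z ∈ ({s, t} : Set B), z ∈ P := by
    rintro z (rfl | hz)
    · exact hs
    · rw [Set.mem_singleton_iff] at hz; subst hz; exact ht
  set u := cs.simple b * (cs.simple b' * u2) with hu
  have huT : u ∈ WP cs {s, t} := Subgroup.mul_mem _ (simple_mem_WP cs hbT)
    (Subgroup.mul_mem _ (simple_mem_WP cs hbT') hu2)
  set σ := ga cs u2⁻¹ (gx b') with hσ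
  have hσrt : IsRt cs σ := (IsRt_gx cs b').ga cs _
  set β := ga cs x'⁻¹ σ with hβ
  have hβrt : IsRt cs β := hσrt.ga cs _
  obtain ⟨hnear, hfar⟩ := hI.far σ hσrt hpos
    (fun k h1 h2 => hsupp k (by simp [h1, h2]))
    (fun h' => hbig s (by simp) h') (fun h' => hbig t (by simp) h')
  have hxβ : ga cs (u * x') β = -(gx b' + (2 * kap M b b') • gx b) := by
    rw [ga_mul, hβ, ga_inv', hu, ga_mul, ga_mul, hσ, ga_inv', ga_sg_self, ga_neg, ga_sg]
  set Xn : Set W := {w | ∃ u ∈ WP cs {s, t}, ∃ v ∈ X', w = u * v} with hXn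
  have hloc : ∀ v ∈ Xn, Ng (ga cs v β) → ∃ u1 ∈ WP cs {b, b'}, v = u1 * (u * x') := by
    rintro v ⟨u1, hu1, v1, hv1, rfl⟩ hn
    obtain ⟨u3, hu3, he3⟩ := hfar v1 hv1 u1 hu1 hn
    refine ⟨u3 * u⁻¹, ?_, ?_⟩
    · rw [hpair]
      exact Subgroup.mul_mem _ hu3 (Subgroup.inv_mem _ huT)
    · rw [he3]; group
  have hDn : ∀ k ∈ ({s, t} ∩ N : Set B), D cs (u * x') (cs.simple k) = 0 := by
    intro k hk
    rw [D_mul_isMin' cs huT hI.hmin hk.1]
    exact hD k hk
  have hnode := node_long cs hP (hTP b hbT) (hTP b' hbT') hbb hβrt hxβ hnear hloc hF hDn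
  have hE : exE J N (Ch.long s t p C) = {s, t} ∩ N := by
    rw [exE, if_pos (by rfl)]; rfl
  refine ⟨u * x', {β}, Xn, ?_, ?_, ?_, ?_, ?_⟩
  · rw [hE]
    rw [hpair] at hnode
    exact hnode
  · have hsub : X' ⊆ Xn := by
      intro w hw
      exact ⟨1, Subgroup.one_mem _, w, hw, by simp⟩
    have h1 : Supp Xn z := hX.mono hsub
    apply supp_act cs q _ hp h1
    rintro i hi w ⟨u1, hu1, v1, hv1, rfl⟩
    exact ⟨cs.simple i * u1, Subgroup.mul_mem _ (simple_mem_WP cs hi) hu1, v1, hv1,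
      by rw [mul_assoc]⟩
  · rw [hE]
    refine ⟨e', he', ?_⟩
    rw [hd, ← comp_act cs q hI.hmin hp] at hv'
    rw [comp_apply_mem cs (Subgroup.mul_mem _ (WP_mono cs Set.inter_subset_left he') huT)] at hv'
    change act cs q p z (e' * (u * x')) ≠ 0
    rwa [← mul_assoc]
  · intro _ _; exact Finset.singleton_nonempty _
  · intro h; exact absurd h (by simp)

theorem state [IsDomain R] (S1 : SD R q ε ε') (S2 : SD R q ε' ε) (hP : HL M P) (hJ : J ⊆ P)
    {c : W →₀ R} (hc : c ≠ 0) (hcJ : Supp (WP cs J : Set W) c) (C : Ch M) :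
    ∀ N : Set B, MinC P J N C → St cs P J N C (act cs q C.val c) := by
  induction C with
  | nil =>
    intro N _
    have : act cs q (Ch.nil : Ch M).val c = c := by simp [Ch.val]
    rw [this]
    exact st_nil cs hP hJ N hc hcJ
  | syl r k C ih =>
    intro N h
    have h1 := ih ∅ (h.syl_tail.mono (Set.empty_subset _))
    have h2 := st_syl cs S1 hP h h1
    rw [← act_mul_apply] at h2
    exact h2
  | long s t p C ih =>
    intro N h
    have h1 := ih {s, t} h.long_tail
    have h2 := st_long cs S1 S2 hP h h1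
    rw [← act_mul_apply] at h2
    exact h2

theorem not_supp [IsDomain R] (S1 : SD R q ε ε') (S2 : SD R q ε' ε) (hP : HL M P) (hJ : J ⊆ P)
    {I : Set B} {c : W →₀ R} (hc : c ≠ 0) (hcJ : Supp (WP cs J : Set W) c) {C : Ch M}
    (hC : MinC P J I C) (hne : C ≠ Ch.nil) : ¬ Supp (WPP cs I J) (act cs q C.val c) := by
  intro hsupp
  obtain ⟨x, S0, X, hN, hX, ⟨e, he, hv⟩, hS1, hS2⟩ := state cs S1 S2 hP hJ hc hcJ C I hC
  obtain ⟨a, ha, b, hb, hab⟩ := hsupp _ hv
  have hV := hC.vs _ _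
  by_cases hl : C.lets = []
  · obtain ⟨β, hβ⟩ := hS1 hl hne
    have hU : ¬ C.ut J ⊆ I := by
      match C, hl, hne, hC with
      | Ch.long s t p C, _, _, hC => exact hC.long_N
    have heI : e ∈ WP cs I := by
      rw [exE, if_pos hl] at he
      exact WP_mono cs Set.inter_subset_right he
    rw [hl] at hab
    simp only [fin'] at hab
    have h1 := hN.supS β hβ I hU (a⁻¹ * e) (Subgroup.mul_mem _ (Subgroup.inv_mem _ ha) heI)
    rw [← ga_mul] at h1
    have h2 : a⁻¹ * e * x = b := by rw [mul_assoc, hab]; group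
    rw [h2] at h1
    exact ((hN.rt β hβ).ga cs b).not_ng cs (hN.near β hβ b hb) h1
  · obtain ⟨r, k, C', rfl⟩ : ∃ r k C', C = Ch.syl r k C' := by
      match C, hl, hne with
      | Ch.syl r k C', _, _ => exact ⟨r, k, C', rfl⟩
      | Ch.long s t p C, hl, _ => exact absurd rfl hl
    have he1 : e = 1 := by
      rw [exE, if_neg hl, WP_empty] at he
      exact Subgroup.mem_bot.mp he
    rw [he1, one_mul] at hab
    have hrI := hC.syl_N
    have hV' : Vs M P ((Ch.syl r k C').ut J) (r :: C'.lets) := hV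
    have hmem : Kw cs x r C'.lets ∈ walls cs x (r :: C'.lets) := by simp [walls]
    have h1 := posn' cs hP hN hV' hrI (Subgroup.inv_mem _ ha) _
      (Finset.mem_union_left _ hmem)
    have h2 : a⁻¹ * fin' cs x (r :: C'.lets) = b := by
      change fin' cs x (r :: C'.lets) = a * b at hab
      rw [hab]; group
    rw [h2] at h1
    have h3 := (admW cs hP hN _ hV' _ hmem).1
    exact ((Kw_rt cs x r C'.lets).ga cs b).not_ng cs (h3 b hb) h1

theorem exists_chain {g : BraidGroup M} (hg : g ∈ BP M P) : ∃ C : Ch M, C.wf P ∧ g = C.val := by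
  unfold BP at hg
  induction hg using Subgroup.closure_induction_left with
  | one => exact ⟨Ch.nil, trivial, rfl⟩
  | mul_left y hy z hz ih =>
    obtain ⟨i, hi, rfl⟩ := hy
    obtain ⟨C, hC, rfl⟩ := ih
    exact ⟨Ch.syl i 1 C, ⟨hi, hC⟩, by simp [Ch.val]⟩
  | inv_mul_cancel y hy z hz ih =>
    obtain ⟨i, hi, rfl⟩ := hy
    obtain ⟨C, hC, rfl⟩ := ih
    exact ⟨Ch.syl i (-1) C, ⟨hi, hC⟩, by simp [Ch.val]⟩

/-- the property for large labels -/
theorem QP_xxl [IsDomain R] (S1 : SD R q ε ε') (S2 : SD R q ε' ε) (hP : HL M P) :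
    QP cs q P := by
  intro I hI J hJ g hg c hc hcJ hcIJ
  have hex : ∃ n : ℕ, ∃ C : Ch M, C.wf P ∧ (∃ b ∈ BP M I, ∃ b' ∈ BP M J, g = b * C.val * b') ∧
      C.cost = n := by
    obtain ⟨C, hC, he⟩ := exists_chain hg
    exact ⟨_, C, hC, ⟨1, Subgroup.one_mem _, 1, Subgroup.one_mem _, by rw [← he]; simp⟩, rfl⟩
  obtain ⟨C, hC, ⟨b, hb, b', hb', he⟩, hn⟩ := Nat.find_spec hex
  have hmin : MinC P J I C := by
    refine ⟨hC, ?_⟩
    intro C' hC' b1 hb1 b1' hb1' he'
    rw [hn]
    apply Nat.find_min' hex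
    refine ⟨C', hC', ⟨b * b1, Subgroup.mul_mem _ hb hb1, b1' * b', Subgroup.mul_mem _ hb1' hb',
      ?_⟩, rfl⟩
    rw [he, he']; group
  by_cases hnil : C = Ch.nil
  · subst hnil
    exact ⟨b, hb, b', hb', by rw [he]; simp [Ch.val]⟩
  · exfalso
    set c' := act cs q b' c with hc'
    have hc0 : c' ≠ 0 := by
      intro h0
      apply hc
      have := congrArg (act cs q b'⁻¹) h0
      rw [hc', act_inv_act, map_zero] at this
      exact this
    have hcJ' : Supp (WP cs J : Set W) c' := supp_act_WP cs q hb' hcJ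
    apply not_supp cs S1 S2 hP hJ hc0 hcJ' hmin hnil
    have e1 : act cs q C.val c' = act cs q b⁻¹ (act cs q g c) := by
      rw [he, mul_assoc, act_mul_apply, act_inv_act, act_mul_apply]
    rw [e1]
    exact supp_act_WPP cs q (Subgroup.inv_mem _ hb) hcIJ

end state

end chain

end Pool.Agent.HeckeCox
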