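import Mathlib
import Pool.Agent.Lib_helper18.Hecke.Fin

set_option autoImplicit false

/-! Injectivity of `rho`. -/

namespace Pool.Agent.HeckeCox

open CoxeterSystem LaurentPolynomial

section sd

theorem int_gauss_zpow (n : ℤ) : ∃ a b : ℤ,
    ((Units.mk0 Complex.I Complex.I_ne_zero ^ n : ℂˣ) : ℂ) = a + b * Complex.I := by
  induction n using Int.induction_on with
  | zero => exact ⟨1, 0, by simp⟩
  | succ k ih =>
    obtain ⟨a, b, h⟩ := ih
    refine ⟨-b, a, ?_⟩
    rw [zpow_add_one, Units.val_mul, h, Units.val_mk0]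
    push_cast
    have := Complex.I_mul_I
    linear_combination (b : ℂ) * this
  | pred k ih =>
    obtain ⟨a, b, h⟩ := ih
    refine ⟨b, -a, ?_⟩
    rw [zpow_sub_one, Units.val_mul, h, Units.val_inv_eq_inv_val, Units.val_mk0, Complex.inv_I]
    push_cast
    have := Complex.I_mul_I
    linear_combination (-b : ℂ) * this

/-- evaluation at `v = i` -/
noncomputable def evI : LaurentPolynomial ℤ →+* ℂ :=
  eval₂ (Int.castRingHom ℂ) (Units.mk0 Complex.I Complex.I_ne_zero)

theorem evI_T (n : ℤ) : evI (T n) = ((Units.mk0 Complex.I Complex.I_ne_zero ^ n : ℂˣ) : ℂ) :=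
  eval₂_T _ _ n

theorem evI_int (p : LaurentPolynomial ℤ) : ∃ a b : ℤ, evI p = a + b * Complex.I := by
  induction p using LaurentPolynomial.induction_on' with
  | add p r hp hr =>
    obtain ⟨a, b, h⟩ := hp
    obtain ⟨a', b', h'⟩ := hr
    refine ⟨a + a', b + b', ?_⟩
    rw [map_add, h, h']; push_cast; ring
  | C_mul_T n a =>
    obtain ⟨x, y, h⟩ := int_gauss_zpow n
    refine ⟨a * x, a * y, ?_⟩
    rw [map_mul, evI_T, h, evI, eval₂_C]
    simp
    ring

/-- evaluation at a nonzero real number -/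
noncomputable def evR (x : ℝˣ) : LaurentPolynomial ℤ →+* ℝ := eval₂ (Int.castRingHom ℝ) x

theorem evR_T (x : ℝˣ) (n : ℤ) : evR x (T n) = ((x ^ n : ℝˣ) : ℝ) := eval₂_T _ _ n

theorem evR_T1 (x : ℝˣ) : evR x (T 1) = (x : ℝ) := by rw [evR_T, zpow_one]
theorem evR_Tn1 (x : ℝˣ) : evR x (T (-1)) = (x : ℝ)⁻¹ := by
  rw [evR_T, zpow_neg_one, Units.val_inv_eq_inv_val]

theorem evI_T1 : evI (T 1) = Complex.I := by rw [evI_T, zpow_one, Units.val_mk0]
theorem evI_Tn1 : evI (T (-1)) = -Complex.I := by
  rw [evI_T, zpow_neg_one, Units.val_inv_eq_inv_val, Units.val_mk0, Complex.inv_I]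

theorem T_prod : (T (-1) : LaurentPolynomial ℤ) * T 1 = 1 := by
  rw [← T_add]; simp

theorem T_ne : (T (-1) : LaurentPolynomial ℤ) ≠ -T 1 := by
  intro h
  have := congrArg (evR (Units.mk0 1 one_ne_zero)) h
  rw [map_neg, evR_T1, evR_Tn1] at this
  norm_num at this

theorem SD1 : SD (LaurentPolynomial ℤ) (T (-1) - T 1) (T (-1)) (-T 1) where
  sum := by ring
  prod := by rw [mul_neg, T_prod]
  ne := T_ne
  ev := ⟨evI, evI_Tn1, by rw [map_neg, evI_T1], evI_int⟩
  pos := ⟨evR (Units.mk0 (1 / 2) (by norm_num)), by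
    rw [map_neg, evR_T1, Units.val_mk0]; norm_num, by
    rw [map_sub, evR_T1, evR_Tn1, Units.val_mk0]; norm_num⟩
  neg := ⟨evR (Units.mk0 2 (by norm_num)), by
    rw [map_neg, evR_T1, Units.val_mk0]; norm_num, by
    rw [map_sub, evR_T1, evR_Tn1, Units.val_mk0]; norm_num⟩

theorem SD2 : SD (LaurentPolynomial ℤ) (T (-1) - T 1) (-T 1) (T (-1)) where
  sum := by ring
  prod := by rw [neg_mul, mul_comm, T_prod]
  ne := T_ne.symm
  ev := ⟨evI, by rw [map_neg, evI_T1], evI_Tn1, evI_int⟩
  pos := ⟨evR (Units.mk0 (-2) (by norm_num)), by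
    rw [evR_Tn1, Units.val_mk0]; norm_num, by
    rw [map_sub, evR_T1, evR_Tn1, Units.val_mk0]; norm_num⟩
  neg := ⟨evR (Units.mk0 (-1 / 2) (by norm_num)), by
    rw [evR_Tn1, Units.val_mk0]; norm_num, by
    rw [map_sub, evR_T1, evR_Tn1, Units.val_mk0]; norm_num⟩

end sd

section inj

variable {B : Type*} (M : CoxeterMatrix B)

/-- every braid lies in a finitely generated standard parabolic subgroup -/
theorem exists_finset (g : BraidGroup M) : ∃ P : Finset B, g ∈ BP M (P : Set B) := by
  classical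
  have hg : g ∈ Subgroup.closure (Set.range (PresentedGroup.of : B → BraidGroup M)) := by
    rw [PresentedGroup.closure_range_of]; exact Subgroup.mem_top g
  induction hg using Subgroup.closure_induction with
  | mem x hx =>
    obtain ⟨i, rfl⟩ := hx
    exact ⟨{i}, of_mem_BP (by simp)⟩
  | one => exact ⟨∅, Subgroup.one_mem _⟩
  | mul x y _ _ ihx ihy =>
    obtain ⟨P, hP⟩ := ihx
    obtain ⟨Q, hQ⟩ := ihy
    refine ⟨P ∪ Q, Subgroup.mul_mem _ (BP_mono ?_ hP) (BP_mono ?_ hQ)⟩
    · rw [Finset.coe_union]; exact Set.subset_union_left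
    · rw [Finset.coe_union]; exact Set.subset_union_right
  | inv x _ ih =>
    obtain ⟨P, hP⟩ := ih
    exact ⟨P, Subgroup.inv_mem _ hP⟩

/-- the regular representation of the Hecke algebra -/
noncomputable def regRep : HeckeAlgebra M →ₐ[LaurentPolynomial ℤ]
    Module.End (LaurentPolynomial ℤ) (M.Group →₀ LaurentPolynomial ℤ) :=
  RingQuot.liftAlgHom (LaurentPolynomial ℤ)
    ⟨FreeAlgebra.lift (LaurentPolynomial ℤ)
      (fun i => Lop M.toCoxeterSystem (T (-1) - T 1 : LaurentPolynomial ℤ) i), by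
      intro x y h
      cases h with
      | quad s =>
        rw [map_mul, FreeAlgebra.lift_ι_apply, map_add, map_one, map_smul,
          FreeAlgebra.lift_ι_apply]
        ext1 w
        ext1
        simp only [LinearMap.comp_apply, Module.End.mul_apply, LinearMap.add_apply,
          Module.End.one_apply, LinearMap.smul_apply]
        exact Lop_quad _ _ _ _
      | braid s r hsr hM =>
        rw [map_altProd, map_altProd, FreeAlgebra.lift_ι_apply, FreeAlgebra.lift_ι_apply]
        have h := Lx_braid M.toCoxeterSystem (T (-1) - T 1 : LaurentPolynomial ℤ) hsr true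
        rw [alt_eq_altProd, alt_eq_altProd] at h
        have h2 := congrArg (LinearEquiv.automorphismGroup.toLinearMapMonoidHom
          (R := LaurentPolynomial ℤ) (M := M.Group →₀ LaurentPolynomial ℤ)) h
        rw [map_altProd, map_altProd] at h2
        exact h2⟩

theorem regRep_hgen (s : B) : regRep M (hgen M s) =
    Lop M.toCoxeterSystem (T (-1) - T 1 : LaurentPolynomial ℤ) s := by
  unfold regRep hgen
  rw [RingQuot.liftAlgHom_mkAlgHom_apply, FreeAlgebra.lift_ι_apply]

theorem regRep_rho (g : BraidGroup M) : regRep M (rho M g : HeckeAlgebra M) =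
    (act M.toCoxeterSystem (T (-1) - T 1 : LaurentPolynomial ℤ) g).toLinearMap := by
  have h : (Units.map (regRep M : HeckeAlgebra M →* _)).comp (rho M) =
      ((LinearMap.GeneralLinearGroup.generalLinearEquiv (LaurentPolynomial ℤ)
        (M.Group →₀ LaurentPolynomial ℤ)).symm.toMonoidHom).comp
      (act M.toCoxeterSystem (T (-1) - T 1 : LaurentPolynomial ℤ)) := by
    apply PresentedGroup.ext
    intro s
    apply Units.ext
    rw [MonoidHom.comp_apply, MonoidHom.comp_apply, rho_of, act_of]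
    exact regRep_hgen M s
  exact congrArg Units.val (DFunLike.congr_fun h g)

theorem rho_injective
    (hM : ∀ s t u : B, s ≠ t → t ≠ u → s ≠ u → 3 ≤ M s t → 3 ≤ M t u → M s u = 0) :
    Function.Injective (rho M) := by
  classical
  rw [injective_iff_map_eq_one]
  intro g hg
  have h1 := regRep_rho M g
  rw [hg, Units.val_one, map_one] at h1
  obtain ⟨P, hP⟩ := exists_finset M g
  have hQ := QP_finset M.toCoxeterSystem SD1 SD2 hM P
  have hne : (Finsupp.single (1 : M.Group) (1 : LaurentPolynomial ℤ)) ≠ 0 := by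
    rw [Ne, Finsupp.single_eq_zero]; exact one_ne_zero
  have hs : ∀ w, (Finsupp.single (1 : M.Group) (1 : LaurentPolynomial ℤ)) w ≠ 0 → w = 1 := by
    intro w hw
    rw [Finsupp.single_apply] at hw
    by_contra h
    exact hw (if_neg (fun h' => h h'.symm))
  have hact : act M.toCoxeterSystem (T (-1) - T 1 : LaurentPolynomial ℤ) g
      (Finsupp.single (1 : M.Group) 1) = Finsupp.single (1 : M.Group) 1 := by
    have := DFunLike.congr_fun h1 (Finsupp.single (1 : M.Group) 1)
    exact this.symm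
  obtain ⟨a, ha, b, hb, he⟩ := hQ ∅ (Set.empty_subset _) ∅ (Set.empty_subset _) g hP _ hne
    (by
      intro w hw
      rw [hs w hw]; exact Subgroup.one_mem _)
    (by
      intro w hw
      rw [hact] at hw
      rw [hs w hw]
      exact ⟨1, Subgroup.one_mem _, 1, Subgroup.one_mem _, by simp⟩)
  rw [he, mem_BP_empty ha, mem_BP_empty hb, one_mul]

end inj

end Pool.Agent.HeckeCox
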