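import Mathlib
import Pool.Agent.Lib_helper18.Hecke.Chain
import Pool.Agent.Lib_helper18.Hecke.Inj

set_option autoImplicit false

/-! Assembly: faithfulness when every irreducible triangle has an infinite label or all labels at
least five. -/

namespace Pool.Agent.HeckeCox

open CoxeterSystem LaurentPolynomial

section final

variable {B W : Type*} [Group W] {M : CoxeterMatrix B} (cs : CoxeterSystem M W)
variable {R : Type*} [CommRing R] {q ε ε' : R}

/-- two finite labels `≥ 3` with a common vertex: the third is infinite, or all are `≥ 5` -/
def Tri5 (M : CoxeterMatrix B) : Prop :=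
  ∀ s t u : B, s ≠ t → t ≠ u → s ≠ u → 3 ≤ M s t → 3 ≤ M t u →
    M s u = 0 ∨ (5 ≤ M s t ∧ 5 ≤ M t u ∧ 5 ≤ M s u)

/-- the main induction -/
theorem QP_finset5 [IsDomain R] (S1 : SD R q ε ε') (S2 : SD R q ε' ε) (hM : Tri5 M)
    (P : Finset B) : QP cs q (P : Set B) := by
  classical
  induction hn : P.card using Nat.strong_induction_on generalizing P with
  | _ n ih =>
    by_cases hinf : ∃ s ∈ P, ∃ r ∈ P, s ≠ r ∧ M s r = 0
    · obtain ⟨s, hs, r, hr, hsr, h0⟩ := hinf
      let P' : Bool → Set B := fun b => if b then ((P.erase r : Finset B) : Set B)
        else ((P.erase s : Finset B) : Set B)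
      have e1 : P' true = ((P.erase r : Finset B) : Set B) := rfl
      have e2 : P' false = ((P.erase s : Finset B) : Set B) := rfl
      have hU : P' true ∪ P' false = (P : Set B) := by
        rw [e1, e2]
        ext k
        simp only [Finset.coe_erase, Set.mem_union, Set.mem_sdiff, Finset.mem_coe,
          Set.mem_singleton_iff]
        constructor
        · rintro (h | h) <;> exact h.1
        · intro hk
          by_cases hkr : k = r
          · right; exact ⟨hk, by rw [hkr]; exact hsr.symm⟩
          · left; exact ⟨hk, hkr⟩
      have hF : Free M P' := by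
        intro b a ha ha' b' hb hb'
        cases b
        · simp only [Bool.not_false, e1, e2, Finset.coe_erase, Set.mem_sdiff, Finset.mem_coe,
            Set.mem_singleton_iff, not_and, not_not] at ha ha' hb hb'
          rw [ha' ha.1, hb' hb.1, M.symmetric]; exact h0
        · simp only [Bool.not_true, e1, e2, Finset.coe_erase, Set.mem_sdiff, Finset.mem_coe,
            Set.mem_singleton_iff, not_and, not_not] at ha ha' hb hb'
          rw [ha' ha.1, hb' hb.1]; exact h0
      rw [← hU]
      apply QP_amalgam cs q hF
      intro b
      cases b
      · rw [e2]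
        exact ih _ (by rw [← hn]; exact Finset.card_erase_lt_of_mem hs) _ rfl
      · rw [e1]
        exact ih _ (by rw [← hn]; exact Finset.card_erase_lt_of_mem hr) _ rfl
    · push Not at hinf
      rcases P.eq_empty_or_nonempty with rfl | ⟨s, hs⟩
      · rw [Finset.coe_empty]; exact QP_empty cs q
      have key : ∀ a ∈ P, ∀ b ∈ P, a ≠ b → M a b = 2 ∨ 3 ≤ M a b := by
        intro a ha b hb hab
        have h1 := hinf a ha b hb hab
        have h2 : M a b ≠ 1 := M.off_diagonal a b hab
        omega
      -- the component of `s`
      set K : Finset B := P.filter (fun k => k = s ∨ 3 ≤ M s k) with hK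
      have hsK : s ∈ K := by rw [hK, Finset.mem_filter]; exact ⟨hs, Or.inl rfl⟩
      have hU : (P : Set B) = (K : Set B) ∪ ((P \ K : Finset B) : Set B) := by
        rw [← Finset.coe_union, Finset.union_sdiff_of_subset (Finset.filter_subset _ _)]
      have hcross : ∀ a ∈ (K : Set B), ∀ b ∈ ((P \ K : Finset B) : Set B), M a b = 2 := by
        intro a ha b hb
        rw [Finset.mem_coe, Finset.mem_sdiff] at hb
        rw [Finset.mem_coe, hK, Finset.mem_filter] at ha
        obtain ⟨hbP, hbK⟩ := hb
        rw [hK, Finset.mem_filter, not_and, not_or] at hbK
        obtain ⟨hbs, hb3⟩ := hbK hbP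
        have hsb : M s b = 2 := (key s hs b hbP (Ne.symm hbs)).resolve_right hb3
        rcases ha.2 with rfl | h3
        · exact hsb
        · have has : a ≠ s := by
            rintro rfl
            rw [M.diagonal] at h3; omega
          have hab : a ≠ b := by
            rintro rfl
            exact hb3 h3
          rcases key a ha.1 b hbP hab with h | h
          · exact h
          · exfalso
            rcases hM s a b has.symm hab (Ne.symm hbs) h3 h with h4 | h4
            · exact hinf s hs b hbP (Ne.symm hbs) h4
            · omega
      rw [hU]
      apply QP_prod cs q hcross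
      · -- the component itself
        by_cases h1 : ∃ t ∈ K, t ≠ s ∧ ∃ u ∈ K, u ≠ s ∧ u ≠ t
        · obtain ⟨t, ht, hts, u, hu, hus, hut⟩ := h1
          have mem3 : ∀ k ∈ K, k ≠ s → k ∈ P ∧ 3 ≤ M s k := by
            intro k hk hks
            rw [hK, Finset.mem_filter] at hk
            exact ⟨hk.1, hk.2.resolve_left hks⟩
          have pair : ∀ a ∈ K, a ≠ s → ∀ b ∈ K, b ≠ s → a ≠ b → 5 ≤ M s a ∧ 5 ≤ M a b := by
            intro a ha has b hb hbs hab
            obtain ⟨ha1, ha2⟩ := mem3 a ha has
            obtain ⟨hb1, hb2⟩ := mem3 b hb hbs
            rcases hM a s b has (Ne.symm hbs) hab (by rw [M.symmetric]; exact ha2) hb2 with h | h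
            · exact absurd h (hinf a ha1 b hb1 hab)
            · exact ⟨by rw [M.symmetric]; exact h.1, h.2.2⟩
          have big : ∀ a ∈ K, a ≠ s → 5 ≤ M s a := by
            intro a ha has
            by_cases hat : a = t
            · subst hat
              exact (pair a ha has u hu hus (Ne.symm hut)).1
            · exact (pair a ha has t ht hts hat).1
          apply QP_xxl cs S1 S2
          intro a ha b hb hab
          right
          rw [Finset.mem_coe] at ha hb
          by_cases has : a = s
          · subst has
            exact big b hb (Ne.symm hab)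
          · by_cases hbs : b = s
            · subst hbs
              rw [M.symmetric]
              exact big a ha has
            · exact (pair a ha has b hb hbs hab).2
        · push Not at h1
          by_cases h2 : ∃ t ∈ K, t ≠ s
          · obtain ⟨t, ht, hts⟩ := h2
            have hKe : (K : Set B) = {s, t} := by
              ext k
              rw [Finset.mem_coe, Set.mem_insert_iff, Set.mem_singleton_iff]
              constructor
              · intro hk
                by_cases hks : k = s
                · exact Or.inl hks
                · exact Or.inr (h1 t ht hts k hk hks)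
              · rintro (rfl | rfl)
                · exact hsK
                · exact ht
            rw [hKe]
            apply QP_pair cs S1 S2 hts.symm
            rw [hK, Finset.mem_filter] at ht
            exact ht.2.resolve_left hts
          · push Not at h2
            have hKe : (K : Set B) = {s} := by
              ext k
              rw [Finset.mem_coe, Set.mem_singleton_iff]
              constructor
              · intro hk; exact h2 k hk
              · rintro rfl; exact hsK
            rw [hKe]
            exact QP_single cs S1 s
      · -- the rest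
        apply ih _ _ _ rfl
        rw [← hn]
        apply Finset.card_lt_card
        rw [Finset.ssubset_iff_of_subset Finset.sdiff_subset]
        exact ⟨s, hs, by simp [hsK]⟩

end final

section inj

variable {B : Type*} (M : CoxeterMatrix B)

theorem rho_injective_of_QP
    (hQ : ∀ P : Finset B, QP M.toCoxeterSystem (T (-1) - T 1 : LaurentPolynomial ℤ)
      (P : Set B)) : Function.Injective (rho M) := by
  classical
  rw [injective_iff_map_eq_one]
  intro g hg
  have h1 := regRep_rho M g
  rw [hg, Units.val_one, map_one] at h1
  obtain ⟨P, hP⟩ := exists_finset M g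
  have hne : (Finsupp.single (1 : M.Group) (1 : LaurentPolynomial ℤ)) ≠ 0 := by
    rw [Ne, Finsupp.single_eq_zero]; exact one_ne_zero
  have hs : ∀ w, (Finsupp.single (1 : M.Group) (1 : LaurentPolynomial ℤ)) w ≠ 0 → w = 1 := by
    intro w hw
    rw [Finsupp.single_apply] at hw
    by_contra h
    exact hw (if_neg (fun h' => h h'.symm))
  have hact : act M.toCoxeterSystem (T (-1) - T 1 : LaurentPolynomial ℤ) g
      (Finsupp.single (1 : M.Group) 1) = Finsupp.single (1 : M.Group) 1 := by
    have := DFunLike.congr_fun h1 (Finsupp.single (1 : M.Group) 1)
    exact this.symm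
  obtain ⟨a, ha, b, hb, he⟩ := hQ P ∅ (Set.empty_subset _) ∅ (Set.empty_subset _) g hP _ hne
    (by
      intro w hw
      rw [hs w hw]; exact Subgroup.one_mem _)
    (by
      intro w hw
      rw [hact] at hw
      rw [hs w hw]
      exact ⟨1, Subgroup.one_mem _, 1, Subgroup.one_mem _, by simp⟩)
  rw [he, mem_BP_empty ha, mem_BP_empty hb, one_mul]

theorem rho_injective5 (hM : ∀ s t u : B, s ≠ t → t ≠ u → s ≠ u → 3 ≤ M s t → 3 ≤ M t u →
    M s u = 0 ∨ (5 ≤ M s t ∧ 5 ≤ M t u ∧ 5 ≤ M s u)) :
    Function.Injective (rho M) :=
  rho_injective_of_QP M (fun P => QP_finset5 M.toCoxeterSystem SD1 SD2 hM P)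

end inj

end Pool.Agent.HeckeCox
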