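import Mathlib
import Pool.Agent.Lib_helper18.Hecke.Root

set_option autoImplicit false

/-! Configurations of pieces: contexts, futures, visible letters. -/

namespace Pool.Agent.HeckeCox

open CoxeterSystem Real
open scoped Classical

section gdef

variable {B W : Type*} [Group W] {M : CoxeterMatrix B} (cs : CoxeterSystem M W)

/-- `k` commutes with all of `T` -/
def Cm (M : CoxeterMatrix B) (k : B) (T : Set B) : Prop := ∀ t ∈ T, M k t = 2

/-- `T` together with the letters of `A` commuting with `T` -/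
def nx (M : CoxeterMatrix B) (T A : Set B) : Set B := {k | k ∈ T ∨ (k ∈ A ∧ Cm M k T)}

/-- the context after a list of types -/
def ctx (M : CoxeterMatrix B) : Set B → List (Set B) → Set B
  | A, [] => A
  | A, T :: Ts => ctx M (nx M T A) Ts

/-- the future before a list of types -/
def fut (M : CoxeterMatrix B) : List (Set B) → Set B → Set B
  | [], N => N
  | T :: Ts, N => nx M T (fut M Ts N)

theorem ctx_append (A : Set B) (Ts Us : List (Set B)) :
    ctx M A (Ts ++ Us) = ctx M (ctx M A Ts) Us := by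
  induction Ts generalizing A with
  | nil => rfl
  | cons T Ts ih => exact ih _

theorem fut_append (Ts Us : List (Set B)) (N : Set B) :
    fut M (Ts ++ Us) N = fut M Ts (fut M Us N) := by
  induction Ts with
  | nil => rfl
  | cons T Ts ih => simp only [List.cons_append, fut]; rw [ih]

/-- labels in `P` -/
def HG (M : CoxeterMatrix B) (P : Set B) : Prop :=
  (∀ s ∈ P, ∀ t ∈ P, s ≠ t → M s t = 2 ∨ 4 ≤ M s t) ∧
  ∀ s ∈ P, ∀ t ∈ P, ∀ u ∈ P, M s u = 2 → 3 ≤ M s t → 3 ≤ M t u → 6 ≤ M s t ∧ 6 ≤ M t u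

theorem ne_of_ge {s t : B} (h : 2 ≤ M s t) : s ≠ t := by
  rintro rfl
  rw [M.diagonal] at h
  omega

theorem Cm.notMem {k : B} {T : Set B} (h : Cm M k T) : k ∉ T := by
  intro hk
  have := h k hk
  rw [M.diagonal] at this
  omega

theorem HG.four {P : Set B} (hP : HG M P) {s t : B} (hs : s ∈ P) (ht : t ∈ P) (h : s ≠ t)
    (h2 : M s t ≠ 2) : 4 ≤ M s t := (hP.1 s hs t ht h).resolve_left h2

/-- products -/
def prd : List (Set B × W) → W → W
  | [], w => w
  | p :: L, w => p.2 * prd L w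

theorem prd_mul (L : List (Set B × W)) (w v : W) : prd L (w * v) = prd L w * v := by
  induction L with
  | nil => rfl
  | cons p L ih => simp only [prd]; rw [ih, mul_assoc]

theorem prd_append (L L' : List (Set B × W)) (w : W) : prd (L ++ L') w = prd L (prd L' w) := by
  induction L with
  | nil => rfl
  | cons p L ih => simp only [List.cons_append, prd]; rw [ih]

/-- types of a list of pieces -/
def ty (L : List (Set B × W)) : List (Set B) := L.map Prod.fst

/-- visible letters -/
def Vis (k : B) : List (Set B × W) → Set B → W → Prop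
  | [], T, w => k ∈ T ∧ D cs w (cs.simple k) = 1
  | p :: L, T, w => (k ∈ p.1 ∧ D cs p.2 (cs.simple k) = 1) ∨ (Cm M k p.1 ∧ Vis k L T w)

/-- admissible pieces -/
def Pc (P A F T : Set B) (a : W) : Prop :=
  T ⊆ P ∧ a ∈ WP cs T ∧ IsMin cs (T ∩ A) a ∧
  ((∃ r, T = {r} ∧ a = cs.simple r ∧ r ∉ F) ∨
   (∃ s t l, T = {s, t} ∧ 3 ≤ M s t ∧ a = alt (sx cs s t) true l ∧ 2 ≤ l ∧ l ≤ M s t ∧
    (l = 2 → t ∈ A ∧ t ∉ F)))

/-- valid lists of pieces -/
def Vd (P : Set B) : Set B → List (Set B × W) → Set B → Prop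
  | _, [], _ => True
  | A, p :: L, N => Pc cs P A (fut M (ty L) N) p.1 p.2 ∧ Vd P (nx M p.1 A) L N

/-- no pattern `r … k … r` -/
def NoPat (M : CoxeterMatrix B) (Ts : List (Set B)) : Prop :=
  ∀ (X Y Z U : List (Set B)) (r k : B), Ts = X ++ ({r} : Set B) :: (Y ++ ({k} : Set B) ::
    (Z ++ ({r} : Set B) :: U)) → 3 ≤ M r k → (∀ T ∈ Y, Cm M k T ∧ Cm M r T) →
    (∀ T ∈ Z, Cm M k T ∧ Cm M r T) → False

theorem NoPat.tail {T : Set B} {Ts : List (Set B)} (h : NoPat M (T :: Ts)) : NoPat M Ts := by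
  intro X Y Z U r k he
  apply h (T :: X) Y Z U r k
  rw [he]; rfl

theorem Vd.append {P A N : Set B} {L L' : List (Set B × W)} :
    Vd cs P A (L ++ L') N ↔ Vd cs P A L (fut M (ty L') N) ∧ Vd cs P (ctx M A (ty L)) L' N := by
  induction L generalizing A with
  | nil => simp [Vd, ty, ctx]
  | cons p L ih =>
    have e : fut M (ty (L ++ L')) N = fut M (ty L) (fut M (ty L') N) := by
      rw [ty, List.map_append, fut_append]; rfl
    simp only [List.cons_append, Vd, ih, e]
    rw [and_assoc]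
    rfl

theorem not_vis_ctx {P : Set B} {L : List (Set B × W)} {A N T : Set B} {w : W}
    (hV : Vd cs P A L N) (hw : IsMin cs (T ∩ ctx M A (ty L)) w) {x : B} (hx : x ∈ A) :
    ¬ Vis cs x L T w := by
  induction L generalizing A with
  | nil =>
    rintro ⟨h1, h2⟩
    have := hw x ⟨h1, hx⟩
    rw [h2] at this
    simp at this
  | cons p L ih =>
    rintro (⟨h1, h2⟩ | ⟨h1, h2⟩)
    · have := hV.1.2.2.1 x ⟨h1, hx⟩
      rw [h2] at this
      simp at this
    · exact ih hV.2 hw (Or.inr ⟨hx, h1⟩) h2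

theorem Vd.mem {P : Set B} {L : List (Set B × W)} {A N T : Set B} {w : W}
    (hV : Vd cs P A L N) (hT : T ⊆ P) (hw : w ∈ WP cs T) : prd L w ∈ WP cs P := by
  induction L generalizing A with
  | nil => exact WP_mono cs hT hw
  | cons p L ih => exact Subgroup.mul_mem _ (WP_mono cs hV.1.1 hV.1.2.1) (ih hV.2)

/-- elements fixing a simple root -/
theorem ga_fix {T : Set B} {k : B} (hk : Cm M k T) {a : W} (ha : a ∈ WP cs T) :
    ga cs a (gx k) = gx k := by
  have key : ∀ t ∈ T, ga cs (cs.simple t) (gx k) = gx k := by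
    intro t ht
    rw [ga_simple, bf_gx_gx]
    have h1 : kap M t k = 0 := by
      rw [kap_symm, kap, hk t ht]
      norm_num
    rw [h1]; simp
  unfold WP at ha
  induction ha using Subgroup.closure_induction_left with
  | one => rw [ga_one]
  | mul_left x hx y hy ih =>
    obtain ⟨i, hi, rfl⟩ := hx
    rw [ga_mul, ih, key i hi]
  | inv_mul_cancel x hx y hy ih =>
    obtain ⟨i, hi, rfl⟩ := hx
    rw [ga_mul, ih, cs.inv_simple, key i hi]

theorem WP_comm {T T' : Set B} (h : ∀ t ∈ T, ∀ t' ∈ T', M t t' = 2) {a b : W}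
    (ha : a ∈ WP cs T) (hb : b ∈ WP cs T') : a * b = b * a := by
  have h1 : ∀ t ∈ T, ∀ t' ∈ T', cs.simple t * cs.simple t' = cs.simple t' * cs.simple t := by
    intro t ht t' ht'
    have h2 := cs.simple_mul_simple_pow t t'
    rw [h t ht t' ht'] at h2
    have h3 : cs.simple t * cs.simple t' * (cs.simple t * cs.simple t') = 1 := by
      rw [← sq]; exact h2
    have h4 : (cs.simple t * cs.simple t')⁻¹ = cs.simple t' * cs.simple t := by
      rw [mul_inv_rev, cs.inv_simple, cs.inv_simple]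
    rw [← h4]
    exact eq_inv_of_mul_eq_one_left h3
  have k1 : WP cs T' ≤ Subgroup.centralizer (cs.simple '' T) := by
    unfold WP
    rw [Subgroup.closure_le]
    rintro _ ⟨t', ht', rfl⟩
    rw [SetLike.mem_coe, Subgroup.mem_centralizer_iff]
    rintro _ ⟨t, ht, rfl⟩
    exact h1 t ht t' ht'
  have k2 : WP cs T ≤ Subgroup.centralizer (WP cs T' : Set W) := by
    unfold WP at k1 ⊢
    rw [Subgroup.closure_le]
    rintro z hz
    rw [SetLike.mem_coe, Subgroup.mem_centralizer_iff]
    intro y hy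
    exact ((Subgroup.mem_centralizer_iff.mp (k1 hy)) z hz).symm
  exact ((Subgroup.mem_centralizer_iff.mp (k2 ha)) b hb).symm

/-- left descents commuting with a piece -/
theorem D_comm {T : Set B} {k : B} (hk : Cm M k T) {a u : W} (ha : a ∈ WP cs T) :
    D cs (a * u) (cs.simple k) = D cs u (cs.simple k) := by
  have h1 : a⁻¹ * cs.simple k * a = cs.simple k := by
    have := WP_comm cs (T := T) (T' := {k}) (by
      intro t ht t' ht'
      rw [Set.mem_singleton_iff] at ht'; subst ht'
      rw [M.symmetric]; exact hk t ht) ha (simple_mem_WP cs rfl : cs.simple k ∈ WP cs {k})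
    rw [mul_assoc, ← this]; group
  rw [D_mul, h1]
  have h2 : D cs a (cs.simple k) = 0 := by
    by_contra h
    exact hk.notMem (desc_mem cs ha h)
  rw [h2, zero_add]

end gdef

section numbers

variable {B : Type*} {M : CoxeterMatrix B}

theorem kap_two {i j : B} (h : M i j = 2) : kap M i j = 0 := by
  unfold kap; rw [h]; norm_num

theorem kap_mono {i j : B} {n : ℕ} (hn : 1 ≤ n) (h : n ≤ M i j) : cos (π / n) ≤ kap M i j := by
  unfold kap
  have hm : (n : ℝ) ≤ M i j := by exact_mod_cast h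
  have hn' : (1 : ℝ) ≤ n := by exact_mod_cast hn
  have hpi := pi_pos
  apply cos_le_cos_of_nonneg_of_le_pi
  · positivity
  · rw [div_le_iff₀ (by linarith)]; nlinarith
  · exact div_le_div_of_nonneg_left hpi.le (by linarith) hm

theorem kap_four {i j : B} (h : M i j = 4) : kap M i j = √2 / 2 := by
  unfold kap; rw [h]; norm_num

theorem kap_ge4 {i j : B} (h : 4 ≤ M i j) : √2 / 2 ≤ kap M i j := by
  have := kap_mono (M := M) (n := 4) (by norm_num) h
  have e : cos (π / ((4 : ℕ) : ℝ)) = √2 / 2 := by norm_num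
  rwa [e] at this

theorem kap_ge6 {i j : B} (h : 6 ≤ M i j) : √3 / 2 ≤ kap M i j := by
  have := kap_mono (M := M) (n := 6) (by norm_num) h
  have e : cos (π / ((6 : ℕ) : ℝ)) = √3 / 2 := by norm_num
  rwa [e] at this

theorem kap_self (i : B) : kap M i i = -1 := by
  unfold kap; rw [M.diagonal]; norm_num

end numbers

section bt

variable {B W : Type*} [Group W] {M : CoxeterMatrix B} (cs : CoxeterSystem M W)

/-- the roots of a rank two subsystem -/
noncomputable def bt (M : CoxeterMatrix B) (k r : B) (i : ℕ) : B →₀ ℝ :=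
  ul (2 * kap M k r) (i + 1) • gx k + ul (2 * kap M k r) i • gx r

theorem bf_two (i j k l : B) (a b c d : ℝ) : bf M (a • gx i + b • gx j) (c • gx k + d • gx l) =
    -(a * c * kap M i k + a * d * kap M i l + b * c * kap M j k + b * d * kap M j l) := by
  simp only [map_add, LinearMap.add_apply, map_smul, LinearMap.smul_apply, bf_gx_gx, smul_eq_mul]
  ring

theorem bt_rt (k r : B) (i : ℕ) : IsRt cs (bt M k r i) := by
  have h := ga_alt_inv cs k r i (!(tw true i))
  rw [Bool.not_not] at h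
  have e1 : tw (tw true i) i = true := by
    rw [← tw_add, ← two_mul, tw_two_mul]
  have e2 : tw (!(tw true i)) i = false := by rw [tw_not, e1]; rfl
  rw [e1, e2] at h
  have e3 : pr k r true = k := rfl
  have e4 : pr k r false = r := rfl
  rw [e3, e4] at h
  unfold bt
  rw [← h]
  exact (IsRt_gx cs _).ga cs _

theorem ul_nn {k r : B} (hkr : k ≠ r) {i : ℕ} (h : i ≤ M k r) : 0 ≤ ul (2 * kap M k r) i :=
  ul_nonneg M hkr (Or.inr h)

theorem bt_pos {k r : B} (hkr : k ≠ r) {i : ℕ} (h : i + 1 ≤ M k r) : Pos (bt M k r i) :=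
  (Pos.smul (ul_nn hkr h) (Pos_gx _)).add (Pos.smul (ul_nn hkr (by omega)) (Pos_gx _))

/-- left inversions -/
def Iv (y : W) (β : B →₀ ℝ) : Prop := Ng (ga cs y⁻¹ β)

theorem Iv_of_D {y : W} {k : B} (h : D cs y (cs.simple k) = 1) : Iv cs y (gx k) :=
  root_neg cs y h

theorem D_of_Iv {y : W} {k : B} (h : Iv cs y (gx k)) : D cs y (cs.simple k) = 1 := by
  have := D_inv_of_ng cs h
  rwa [inv_inv] at this

theorem Iv.comb {y : W} {β γ : B →₀ ℝ} (h1 : Iv cs y β) (h2 : Iv cs y γ) {a b : ℝ}
    (ha : 0 ≤ a) (hb : 0 ≤ b) : Iv cs y (a • β + b • γ) := by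
  unfold Iv at *
  rw [ga_add, ga_smul, ga_smul]
  exact (Ng.smul ha h1).add (Ng.smul hb h2)

theorem Iv_mul {a u : W} {β : B →₀ ℝ} : Iv cs (a * u) β ↔ Iv cs u (ga cs a⁻¹ β) := by
  unfold Iv
  rw [mul_inv_rev, ga_mul]

theorem Iv_false {y : W} {α β : B →₀ ℝ} (hα : IsRt cs α) (hβ : IsRt cs β) (pα : Pos α)
    (pβ : Pos β) (h : bf M α β ≤ -1) (h1 : Iv cs y α) (h2 : Iv cs y β) : False :=
  not_both cs y⁻¹ α β hα hβ pα pβ h h1 h2

theorem bt_zero (k r : B) : bt M k r 0 = gx k := by
  simp [bt, ul_one, ul_zero]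

/-- crossing the first wall -/
theorem ga_bt (k r : B) (i : ℕ) : ga cs (cs.simple k) (bt M k r (i + 1)) = bt M r k i := by
  unfold bt
  rw [ga_add, ga_smul, ga_smul, ga_sg_self', ga_sg', ul_rec, kap_symm r k]
  module
where
  ga_sg_self' : ga cs (cs.simple k) (gx k) = -gx k := by
    rw [ga_simple, bf_self]; module
  ga_sg' : ga cs (cs.simple k) (gx r) = gx r + (2 * kap M k r) • gx k := by
    rw [ga_simple, bf_gx_gx]; module

end bt

end Pool.Agent.HeckeCox
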