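import Mathlib
import Pool.Agent.Lib_helper18.Hecke.GCfg

set_option autoImplicit false

/-! Left descents of products of pieces are visible. -/

namespace Pool.Agent.HeckeCox

open CoxeterSystem Real
open scoped Classical

section stage

variable {B W : Type*} [Group W] {M : CoxeterMatrix B} (cs : CoxeterSystem M W)

theorem alt_swap (s t : B) (c : Bool) (l : ℕ) :
    alt (sx cs s t) c l = alt (sx cs t s) (!c) l := by
  have h : ∀ c, sx cs s t c = sx cs t s (!c) := by
    intro c
    cases c <;> rfl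
  induction l generalizing c with
  | zero => rfl
  | succ l ih => rw [alt_succ, alt_succ, h, ih]

theorem alt_iv {s t : B} (hst : s ≠ t) (i : ℕ) : ∀ {l : ℕ}, i < l → l ≤ M s t → ∃ a b : ℝ,
    0 ≤ a ∧ 0 ≤ b ∧ ga cs (alt (sx cs s t) true l)⁻¹ (bt M s t i) = -(a • gx s + b • gx t) := by
  induction i generalizing s t with
  | zero =>
    intro l hl hM
    obtain ⟨l, rfl⟩ : ∃ l', l = l' + 1 := ⟨l - 1, by omega⟩
    have h1 := ga_alt_inv cs s t l false
    rw [Bool.not_false] at h1
    have e3 : pr s t true = s := rfl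
    have e4 : pr s t false = t := rfl
    have h2 : ga cs (alt (sx cs s t) true (l + 1))⁻¹ (bt M s t 0) =
        -(ul (2 * kap M s t) (l + 1) • gx (pr s t (tw true l)) +
          ul (2 * kap M s t) l • gx (pr s t (tw false l))) := by
      rw [alt_succ, Bool.not_true, mul_inv_rev, ga_mul, bt_zero]
      have e5 : (sx cs s t true)⁻¹ = cs.simple s := cs.inv_simple _
      have e6 : ga cs (cs.simple s) (gx s) = -gx s := by
        rw [ga_simple, bf_self]; module
      rw [e5, e6, ga_neg]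
      rw [e3] at h1
      rw [h1]
    have u1 := ul_nn (M := M) hst (i := l + 1) hM
    have u2 := ul_nn (M := M) hst (i := l) (by omega)
    rw [h2]
    have h3 : tw false l = !(tw true l) := tw_not true l
    rw [h3]
    rcases Bool.eq_false_or_eq_true (tw true l) with h | h
    · rw [h]
      exact ⟨_, _, u1, u2, by rw [Bool.not_true, e3, e4]⟩
    · rw [h]
      exact ⟨_, _, u2, u1, by rw [Bool.not_false, e3, e4, add_comm]⟩
  | succ i ih =>
    intro l hl hM
    obtain ⟨l, rfl⟩ : ∃ l', l = l' + 1 := ⟨l - 1, by omega⟩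
    obtain ⟨a, b, ha, hb, he⟩ := ih (s := t) (t := s) hst.symm (l := l) (by omega)
      (by rw [M.symmetric]; omega)
    refine ⟨b, a, hb, ha, ?_⟩
    rw [alt_succ, Bool.not_true, mul_inv_rev, ga_mul]
    have e5 : (sx cs s t true)⁻¹ = cs.simple s := cs.inv_simple _
    rw [e5, ga_bt, alt_swap, Bool.not_false, he, add_comm]

theorem long_iv {s t : B} (hst : s ≠ t) {l i : ℕ} (hi : i < l) (hl : l ≤ M s t) {u : W}
    (h1 : D cs u (cs.simple s) = 0) (h2 : D cs u (cs.simple t) = 0) :
    Iv cs (alt (sx cs s t) true l * u) (bt M s t i) := by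
  obtain ⟨a, b, ha, hb, he⟩ := alt_iv cs hst i hi hl
  rw [Iv_mul, he]
  unfold Iv
  rw [ga_neg, Ng_neg, ga_add, ga_smul, ga_smul]
  exact (Pos.smul ha (root_pos cs _ h1)).add (Pos.smul hb (root_pos cs _ h2))

theorem bt_one (k r : B) : bt M k r 1 = (2 * kap M k r) • gx k + (1 : ℝ) • gx r := by
  simp [bt, ul_rec, ul_one, ul_zero]

theorem bt_two (k r : B) : bt M k r 2 =
    ((2 * kap M k r) ^ 2 - 1) • gx k + (2 * kap M k r) • gx r := by
  simp [bt, ul_rec, ul_one, ul_zero, sq]

theorem bt_three (k r : B) : bt M k r 3 =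
    ((2 * kap M k r) ^ 3 - 2 * (2 * kap M k r)) • gx k + ((2 * kap M k r) ^ 2 - 1) • gx r := by
  have e1 : ul (2 * kap M k r) 4 = (2 * kap M k r) ^ 3 - 2 * (2 * kap M k r) := by
    simp [ul_rec, ul_one, ul_zero]; ring
  have e2 : ul (2 * kap M k r) 3 = (2 * kap M k r) ^ 2 - 1 := by
    simp [ul_rec, ul_one, ul_zero]; ring
  rw [bt, e1, e2]

/-- configurations -/
structure Cf (P A N T : Set B) (w : W) (L : List (Set B × W)) : Prop where
  hA : A ⊆ P
  vd : Vd cs P A L N
  np : NoPat M (ty L)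
  tP : T ⊆ P
  tN : T ⊆ N
  wT : w ∈ WP cs T
  mn : IsMin cs (T ∩ ctx M A (ty L)) w

theorem Cf.tail {P A N T : Set B} {w : W} {p : Set B × W} {L : List (Set B × W)}
    (h : Cf cs P A N T w (p :: L)) : Cf cs P (nx M p.1 A) N T w L := by
  obtain ⟨h1, h2, h3, h4, h5, h6, h7⟩ := h
  refine ⟨?_, h2.2, h3.tail, h4, h5, h6, h7⟩
  rintro k (hk | hk)
  · exact h2.1.1 hk
  · exact h1 hk.1

theorem Cf.split {P N T : Set B} {w : W} {L1 : List (Set B × W)} {p : Set B × W}
    {L2 : List (Set B × W)} : ∀ {A : Set B}, Cf cs P A N T w (L1 ++ p :: L2) →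
      Cf cs P (ctx M A (ty L1)) N T w (p :: L2) := by
  induction L1 with
  | nil => intro A h; exact h
  | cons q L1 ih => intro A h; exact ih (A := nx M q.1 A) (Cf.tail cs h)

/-- visibility for short lists -/
def VP (P : Set B) (n : ℕ) : Prop :=
  ∀ (A N T : Set B) (w : W) (L : List (Set B × W)), L.length ≤ n → Cf cs P A N T w L →
    ∀ k, D cs (prd L w) (cs.simple k) = 1 → Vis cs k L T w

variable {P : Set B}

theorem VP.min {n : ℕ} (hV : VP cs P n) {A N T : Set B} {w : W} {L : List (Set B × W)}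
    (hn : L.length ≤ n) (h : Cf cs P A N T w L) : IsMin cs A (prd L w) := by
  intro x hx
  rcases zmod2_cases (D cs (prd L w) (cs.simple x)) with h1 | h1
  · exact h1
  · exact absurd (hV A N T w L hn h x h1) (not_vis_ctx cs h.vd h.mn hx)

theorem VP.min_tail {n : ℕ} (hV : VP cs P n) {A N T : Set B} {w : W} {p : Set B × W}
    {L : List (Set B × W)} (hn : L.length ≤ n) (h : Cf cs P A N T w (p :: L)) :
    IsMin cs p.1 (prd L w) :=
  isMin_mono cs (fun _ hk => Or.inl hk) (hV.min cs hn h.tail)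

theorem mem_ctx {q : B} : ∀ {Ts : List (Set B)} {A : Set B}, q ∈ ctx M A Ts →
    q ∈ A ∨ ∃ T ∈ Ts, q ∈ T := by
  intro Ts
  induction Ts with
  | nil => intro A h; exact Or.inl h
  | cons T Ts ih =>
    intro A h
    rcases ih h with (h1 | h1) | ⟨T', hT', h1⟩
    · exact Or.inr ⟨T, List.mem_cons_self, h1⟩
    · exact Or.inl h1.1
    · exact Or.inr ⟨T', List.mem_cons_of_mem _ hT', h1⟩

/-- a long piece read from one of its left descents -/
theorem long_head (hP : HG M P) {A F : Set B} {s t : B} {l : ℕ} (hs : s ∈ P) (ht : t ∈ P)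
    (hm : 3 ≤ M s t) (hl : l ≤ M s t) (hE : l = 2 → t ∈ A ∧ t ∉ F) {k : B}
    (hk : k ∈ ({s, t} : Set B)) (hD : D cs (alt (sx cs s t) true l) (cs.simple k) = 1) :
    ∃ q, ({s, t} : Set B) = {k, q} ∧ 3 ≤ M k q ∧ alt (sx cs s t) true l = alt (sx cs k q) true l ∧
      l ≤ M k q ∧ (l = 2 → q ∈ A ∧ q ∉ F) := by
  have hst : s ≠ t := ne_of_ge (M := M) (by omega)
  rcases hk with rfl | hk
  · exact ⟨t, rfl, hm, rfl, hl, hE⟩
  · rw [Set.mem_singleton_iff] at hk
    subst hk
    have h4 := hP.four hs ht hst (by omega)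
    have hlM : l = M s k := by
      by_contra hne
      have h5 := D_alt_not cs hst true (l := l) (Or.inr (by omega))
      have h6 : sx cs s k (!true) = cs.simple k := rfl
      rw [h6, hD] at h5
      simp at h5
    refine ⟨s, Set.pair_comm _ _, by rw [M.symmetric]; exact hm, ?_, by rw [M.symmetric]; exact hl,
      fun h => by omega⟩
    rw [hlM, alt_sx_braid, alt_swap, Bool.not_not]

theorem sq_ge {a x : ℝ} {n : ℝ} (hn : 0 ≤ n) (h : √n / 2 ≤ x) (ha : a = 2 * x) :
    n ≤ a ^ 2 ∧ 0 ≤ a := by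
  have h1 : √n ≤ a := by linarith
  have h2 := sqrt_nonneg n
  have h3 := sq_sqrt hn
  constructor
  · nlinarith
  · linarith

theorem kap_nn (hP : HG M P) {s t : B} (hs : s ∈ P) (ht : t ∈ P) (h : s ≠ t) :
    0 ≤ kap M s t := by
  rcases hP.1 s hs t ht h with h1 | h1
  · rw [kap_two h1]
  · exact le_trans (by positivity) (kap_ge4 h1)

/-- the long piece cannot be entered -/
theorem stage_long (hP : HG M P) {k q r : B} (hk : k ∈ P) (hq : q ∈ P) (hr : r ∈ P)
    (hqr : q ≠ r) {l j : ℕ} (hkq : 3 ≤ M k q) (hkr : 3 ≤ M k r) (h2 : 2 ≤ l) (hl : l ≤ M k q)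
    (hE : l = 2 → M q r = 2 ∧ 4 ≤ j) (hj : 3 ≤ j ∨ (j = 2 ∧ M k r = 4))
    {u : W} (hu1 : D cs u (cs.simple k) = 0) (hu2 : D cs u (cs.simple q) = 0)
    (hI : ∀ i < j, Iv cs (alt (sx cs k q) true l * u) (bt M k r i)) : False := by
  have nkq : k ≠ q := ne_of_ge (M := M) (by omega)
  have nkr : k ≠ r := ne_of_ge (M := M) (by omega)
  have m1 := hP.four hk hq nkq (by omega)
  have m2 := hP.four hk hr nkr (by omega)
  have k0 := kap_nn hP hq hr hqr
  obtain ⟨a1, a2⟩ := sq_ge (by norm_num) (kap_ge4 m1) rfl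
  obtain ⟨b1, b2⟩ := sq_ge (by norm_num) (kap_ge4 m2) rfl
  by_cases hl2 : l = 2
  · obtain ⟨c1, c2⟩ := hE hl2
    obtain ⟨d1, d2⟩ := hP.2 q hq k hk r hr c1 (by rw [M.symmetric]; exact hkq) hkr
    rw [M.symmetric] at d1
    obtain ⟨e1, e2⟩ := sq_ge (by norm_num) (kap_ge6 d1) rfl
    obtain ⟨f1, f2⟩ := sq_ge (by norm_num) (kap_ge6 d2) rfl
    refine Iv_false cs (bt_rt cs k q 1) (bt_rt cs k r 3) (bt_pos nkq (by omega))
      (bt_pos nkr (by omega)) ?_ (long_iv cs nkq (by omega) hl hu1 hu2) (hI 3 (by omega))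
    rw [bt_one, bt_three, bf_two, kap_self, kap_symm q k, kap_two c1]
    have s1 : 3 ≤ (2 * kap M k q) * (2 * kap M k r) := by
      have h3 : √3 ≤ 2 * kap M k q := by linarith [kap_ge6 (M := M) d1]
      have h4 : √3 ≤ 2 * kap M k r := by linarith [kap_ge6 (M := M) d2]
      have h5 := mul_le_mul h3 h4 (sqrt_nonneg _) (by linarith)
      rwa [mul_self_sqrt (by norm_num)] at h5
    nlinarith
  · have hl3 : 3 ≤ l := by omega
    rcases hj with hj | ⟨hj, hj4⟩
    · refine Iv_false cs (bt_rt cs k q 2) (bt_rt cs k r 2) (bt_pos nkq (by omega))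
        (bt_pos nkr (by omega)) ?_ (long_iv cs nkq (by omega) hl hu1 hu2) (hI 2 (by omega))
      rw [bt_two, bt_two, bf_two, kap_self, kap_symm q k]
      set x := kap M k q
      set y := kap M k r
      set z := kap M q r
      have : 0 ≤ x * y * z := mul_nonneg (mul_nonneg (by linarith) (by linarith)) k0
      nlinarith
    · have hqr2 : M q r ≠ 2 := by
        intro h
        have := (hP.2 q hq k hk r hr h (by rw [M.symmetric]; exact hkq) hkr).2
        omega
      have m3 := kap_ge4 (hP.four hq hr hqr hqr2)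
      refine Iv_false cs (bt_rt cs k q 2) (bt_rt cs k r 1) (bt_pos nkq (by omega))
        (bt_pos nkr (by omega)) ?_ (long_iv cs nkq (by omega) hl hu1 hu2) (hI 1 (by omega))
      rw [bt_two, bt_one, bf_two, kap_self, kap_symm q k]
      have m4 := kap_ge4 m1
      have h5 : √2 / 2 * (√2 / 2) ≤ kap M k q * kap M q r :=
        mul_le_mul m4 m3 (by positivity) (by linarith [sqrt_nonneg 2])
      have h6 : √2 / 2 * (√2 / 2) = (1 : ℝ) / 2 := by
        have := mul_self_sqrt (show (0 : ℝ) ≤ 2 by norm_num)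
        nlinarith
      rw [h6] at h5
      set x := kap M k q
      set y := kap M k r
      set z := kap M q r
      nlinarith

theorem ga_fix_bt {T : Set B} {k r : B} (hk : Cm M k T) (hr : Cm M r T) {a : W}
    (ha : a ∈ WP cs T) (i : ℕ) : ga cs a (bt M k r i) = bt M k r i := by
  unfold bt
  rw [ga_add, ga_smul, ga_smul, ga_fix cs hk ha, ga_fix cs hr ha]

/-- a piece commuting with `k` but not with `r` blocks -/
theorem stage_block (hP : HG M P) {A F T : Set B} {a u : W} (hPc : Pc cs P A F T a) {k r : B}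
    (hk : k ∈ P) (hr : r ∈ P) (hkT : Cm M k T) (hrT : r ∉ T) (hrC : ¬ Cm M r T)
    (hkr : 3 ≤ M k r) {j : ℕ} (hj : 3 ≤ j ∨ (j = 2 ∧ M k r = 4)) (hu : IsMin cs T u)
    (hI : ∀ i < j, Iv cs (a * u) (bt M k r i)) : False := by
  obtain ⟨hTP, haT, -, hform⟩ := hPc
  unfold Cm at hrC
  push Not at hrC
  obtain ⟨x, hx, hrx⟩ := hrC
  have nkr : k ≠ r := ne_of_ge (M := M) (by omega)
  have nrx : r ≠ x := by rintro rfl; exact hrT hx
  have m1 := hP.four hr (hTP hx) nrx hrx
  obtain ⟨m2, m3⟩ := hP.2 k hk r hr x (hTP hx) (hkT x hx) hkr (by omega)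
  have hj3 : 3 ≤ j := by omega
  have hI2 := hI 2 (by omega)
  have hp2 : Pos (bt M k r 2) := bt_pos nkr (by omega)
  have num : ∀ x, 6 ≤ M r x → 3 / 2 ≤ 2 * kap M k r * kap M r x := by
    intro x hx
    have h3 := kap_ge6 m2
    have h4 := kap_ge6 hx
    have h5 := mul_le_mul h3 h4 (by positivity) (by linarith [sqrt_nonneg 3])
    have h6 : √3 / 2 * (√3 / 2) = (3 : ℝ) / 4 := by
      have := mul_self_sqrt (show (0 : ℝ) ≤ 3 by norm_num)
      nlinarith
    rw [h6] at h5
    linarith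
  -- a left descent not commuting with `r`
  have key : ∀ y ∈ T, 6 ≤ M r y → D cs a (cs.simple y) = 1 → False := by
    intro y hy hm hD
    have h1 : Iv cs (a * u) (gx y) := Iv_of_D cs (by rw [D_mul_isMin' cs haT hu hy]; exact hD)
    refine Iv_false cs (IsRt_gx cs y) (bt_rt cs k r 2) (Pos_gx y) hp2 ?_ h1 hI2
    have e1 : (gx y : B →₀ ℝ) = (1 : ℝ) • gx y + (0 : ℝ) • gx y := by simp
    rw [e1, bt_two, bf_two, kap_symm y k, kap_two (hkT y hy), kap_symm y r]
    have := num y hm
    linarith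
  rcases hform with ⟨r', hT, ha, -⟩ | ⟨s, t, l, hT, hm, ha, h2, hl, -⟩
  · have hxr : x = r' := by rw [hT] at hx; exact hx
    apply key x hx m3
    rw [ha, hxr, D_simple, if_pos rfl]
  · have hs : s ∈ T := by rw [hT]; simp
    have ht : t ∈ T := by rw [hT]; simp
    have nst : s ≠ t := ne_of_ge (M := M) (by omega)
    have hDs : D cs a (cs.simple s) = 1 := by
      rw [ha]
      exact D_alt_self cs nst true (by omega) (Or.inr hl)
    by_cases hrs : M r s = 2
    · have hxt : x = t := by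
        rw [hT] at hx
        rcases hx with h | h
        · rw [h] at hrx; exact absurd hrs hrx
        · exact h
      have h1 : Iv cs (a * u) (bt M s t 1) := by
        rw [ha]
        exact long_iv cs nst (by omega) hl (hu s hs) (hu t ht)
      refine Iv_false cs (bt_rt cs s t 1) (bt_rt cs k r 2) (bt_pos nst (by omega)) hp2 ?_ h1 hI2
      rw [bt_one, bt_two, bf_two, kap_symm s k, kap_two (hkT s hs), kap_symm s r, kap_two hrs,
        kap_symm t k, kap_two (hkT t ht), kap_symm t r]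
      have := num t (by rw [← hxt]; exact m3)
      linarith
    · have nrs : r ≠ s := by rintro rfl; exact hrT hs
      have m4 := hP.four hr (hTP hs) nrs hrs
      exact key s hs (hP.2 k hk r hr s (hTP hs) (hkT s hs) hkr (by omega)).2 hDs

theorem stage (hP : HG M P) {n : ℕ} (hV : VP cs P n) (N T : Set B) (w : W)
    (L : List (Set B × W)) : ∀ (A : Set B), L.length ≤ n → Cf cs P A N T w L →
    ∀ {k r : B} {j : ℕ}, k ∈ P → r ∈ P → r ∉ fut M (ty L) N →
    (∀ q ∈ A, 3 ≤ M k q → q = r ∨ (M q r = 2 ∧ 4 ≤ j)) → 3 ≤ M k r →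
    (3 ≤ j ∨ (j = 2 ∧ M k r = 4)) → (∀ i < j, Iv cs (prd L w) (bt M k r i)) →
    ∃ (L1 : List (Set B × W)) (a : W) (L2 : List (Set B × W)), L = L1 ++ (({k} : Set B), a) :: L2 ∧
      (∀ p ∈ L1, Cm M k p.1 ∧ Cm M r p.1) ∧ ∀ i, i + 1 < j → Iv cs (prd L2 w) (bt M r k i) := by
  induction L with
  | nil =>
    intro A _ hC k r j hk hr hrF _ hkr hj hI
    exfalso
    have nkr : k ≠ r := ne_of_ge (M := M) (by omega)
    have hrT : r ∉ T := fun h => hrF (hC.tN h)
    have h1 := hI 1 (by omega) r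
    have h2 := ga_parab cs (Subgroup.inv_mem _ hC.wT) (bt M k r 1) hrT
    change ga cs w⁻¹ (bt M k r 1) r ≤ 0 at h1
    rw [h2, bt_one, Finsupp.add_apply, Finsupp.smul_apply, Finsupp.smul_apply, gx_ne nkr,
      gx_same] at h1
    norm_num at h1
  | cons p L ih =>
    intro A hn hC k r j hk hr hrF hA hkr hj hI
    have nkr : k ≠ r := ne_of_ge (M := M) (by omega)
    have hn' : L.length ≤ n := by
      have : (p :: L).length = L.length + 1 := rfl
      omega
    have hmin : IsMin cs p.1 (prd L w) := hV.min_tail cs hn' hC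
    have hPc := hC.vd.1
    have hrT : r ∉ p.1 := fun h => hrF (Or.inl h)
    have hD : D cs (prd (p :: L) w) (cs.simple k) = 1 := by
      apply D_of_Iv
      rw [← bt_zero (M := M) k r]
      exact hI 0 (by omega)
    have hvis := hV A N T w (p :: L) hn hC k hD
    rcases hvis with ⟨hkT, hDk⟩ | ⟨hkT, -⟩
    · -- the piece contains `k`
      obtain ⟨hTP, haT, -, hform⟩ := hPc
      rcases hform with ⟨r', hT, ha, -⟩ | ⟨s, t, l, hT, hm, ha, h2, hl, hE⟩
      · have hkr' : k = r' := by rw [hT] at hkT; exact hkT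
        refine ⟨[], p.2, L, ?_, by simp, ?_⟩
        · rw [List.nil_append, hkr', ← hT]
        · intro i hi
          have h1 := hI (i + 1) hi
          have h2 : prd (p :: L) w = cs.simple k * prd L w := by
            rw [prd, ha, hkr']
          rw [h2, Iv_mul, cs.inv_simple, ga_bt] at h1
          exact h1
      · exfalso
        have hs : s ∈ P := hTP (by rw [hT]; simp)
        have ht : t ∈ P := hTP (by rw [hT]; simp)
        rw [hT] at hkT
        rw [ha] at hDk
        obtain ⟨q, hq1, hq2, hq3, hq4, hq5⟩ := long_head cs hP hs ht hm hl hE hkT hDk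
        rw [← hT] at hq1
        have hqT : q ∈ p.1 := by rw [hq1]; simp
        have hkT' : k ∈ p.1 := by rw [hq1]; simp
        have nqr : q ≠ r := by rintro rfl; exact hrT hqT
        apply stage_long cs hP hk (hTP hqT) hr nqr hq2 hkr h2 hq4 (j := j) _ hj
          (hmin k hkT') (hmin q hqT)
        · intro i hi
          have := hI i hi
          rw [prd, ha, hq3] at this
          exact this
        · intro hl2
          rcases hA q (hq5 hl2).1 hq2 with h | h
          · exact absurd h nqr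
          · exact h
    · by_cases hrC : Cm M r p.1
      · have hI' : ∀ i < j, Iv cs (prd L w) (bt M k r i) := by
          intro i hi
          have := hI i hi
          rw [prd, Iv_mul, ga_fix_bt cs hkT hrC (Subgroup.inv_mem _ hPc.2.1)] at this
          exact this
        obtain ⟨L1, a, L2, h1, h2, h3⟩ := ih (nx M p.1 A) hn' hC.tail hk hr
          (fun h => hrF (Or.inr ⟨h, hrC⟩)) (by
            rintro q (hq | hq) h
            · rw [hkT q hq] at h; omega
            · exact hA q hq.1 h) hkr hj hI'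
        refine ⟨p :: L1, a, L2, by rw [h1]; rfl, ?_, h3⟩
        intro p' hp'
        rcases List.mem_cons.mp hp' with rfl | hp'
        · exact ⟨hkT, hrC⟩
        · exact h2 p' hp'
      · exfalso
        exact stage_block cs hP hPc hk hr hkT hrT hrC hkr hj hmin hI

/-- the next stage -/
theorem stage_next (hP : HG M P) {n : ℕ} (hV : VP cs P n) {N T : Set B} {w : W}
    {L L1 L2 : List (Set B × W)} {a : W} {A : Set B} (hn : L.length ≤ n)
    (hC : Cf cs P A N T w L) {k r : B} {j : ℕ} (hk : k ∈ P) (hr : r ∈ P)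
    (hL : L = L1 ++ (({k} : Set B), a) :: L2) (hL1 : ∀ p ∈ L1, Cm M k p.1 ∧ Cm M r p.1)
    (hA : ∀ q ∈ A, 3 ≤ M r q → M q k = 2 → 4 ≤ j) (hkr : 3 ≤ M r k)
    (hj : 3 ≤ j ∨ (j = 2 ∧ M r k = 4)) (hI : ∀ i < j, Iv cs (prd L2 w) (bt M r k i)) :
    ∃ (A2 : Set B), L2.length ≤ n ∧ Cf cs P A2 N T w L2 ∧ (∀ q ∈ A2, ¬ 3 ≤ M k q) ∧
    ∃ (L3 : List (Set B × W)) (a' : W) (L4 : List (Set B × W)),
      L2 = L3 ++ (({r} : Set B), a') :: L4 ∧
      (∀ p ∈ L3, Cm M k p.1 ∧ Cm M r p.1) ∧ ∀ i, i + 1 < j → Iv cs (prd L4 w) (bt M k r i) := by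
  subst hL
  have hC2 := Cf.split cs hC
  have hPc := hC2.vd.1
  have hlen : L2.length ≤ n := by
    rw [List.length_append, List.length_cons] at hn
    omega
  have hkF : k ∉ fut M (ty L2) N := by
    rcases hPc.2.2.2 with ⟨r', hT, ha, hF⟩ | ⟨s, t, l, hT, hm, ha, h2, hl, hE⟩
    · have : k = r' := by
        have h1 : k ∈ ({k} : Set B) := rfl
        rw [show (({k} : Set B), a).1 = ({k} : Set B) from rfl] at hT
        rw [hT] at h1
        exact h1
      rw [this]; exact hF
    · exfalso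
      have h1 : s ∈ ({k} : Set B) := by
        rw [show (({k} : Set B), a).1 = ({k} : Set B) from rfl] at hT
        rw [hT]; simp
      have h3 : t ∈ ({k} : Set B) := by
        rw [show (({k} : Set B), a).1 = ({k} : Set B) from rfl] at hT
        rw [hT]; simp
      rw [Set.mem_singleton_iff] at h1 h3
      rw [h1, h3, M.diagonal] at hm
      omega
  have hA2 : ∀ q ∈ nx M ({k} : Set B) (ctx M A (ty L1)), q = k ∨ M q k = 2 := by
    rintro q (hq | hq)
    · exact Or.inl hq
    · exact Or.inr (hq.2 k rfl)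
  obtain ⟨L3, a', L4, h1, h2, h3⟩ := stage cs hP hV N T w L2 _ hlen hC2.tail hr hk hkF
    (j := j) (by
      rintro q (hq | ⟨hq, hqk⟩) h
      · exact Or.inl hq
      · right
        refine ⟨hqk k rfl, ?_⟩
        rcases mem_ctx hq with h4 | ⟨T', hT', h4⟩
        · exact hA q h4 h (hqk k rfl)
        · obtain ⟨p, hp, rfl⟩ := List.mem_map.mp hT'
          rw [(hL1 p hp).2 q h4] at h
          omega) hkr hj hI
  refine ⟨_, hlen, hC2.tail, ?_, L3, a', L4, h1, fun p hp => (h2 p hp).symm, h3⟩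
  intro q hq h
  rcases hA2 q hq with rfl | h4
  · rw [M.diagonal] at h; omega
  · rw [M.symmetric, h4] at h; omega

end stage

end Pool.Agent.HeckeCox
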