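import Mathlib
import Pool.Agent.Lib_helper18.Hecke.GStage

set_option autoImplicit false

/-! The visibility theorem. -/

namespace Pool.Agent.HeckeCox

open CoxeterSystem Real
open scoped Classical

section vis

variable {B W : Type*} [Group W] {M : CoxeterMatrix B} (cs : CoxeterSystem M W)
variable {P : Set B}

theorem two_desc {k r : B} (hkr : k ≠ r) {u : W}
    (h1 : D cs (cs.simple r * u) (cs.simple k) = 1)
    (h2 : D cs (cs.simple r * u) (cs.simple r) = 1) {i : ℕ} (hi : i + 2 ≤ M k r) :
    Iv cs u (bt M k r i) := by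
  have k1 := Iv_of_D cs h1
  have k2 := Iv_of_D cs h2
  have k3 := Iv.comb cs k1 k2 (ul_nn (M := M) hkr (i := i + 1) (by omega))
    (ul_nn (M := M) hkr (i := i + 2) hi)
  rw [Iv_mul, cs.inv_simple] at k3
  have e : ga cs (cs.simple r) (ul (2 * kap M k r) (i + 1) • gx k +
      ul (2 * kap M k r) (i + 2) • gx r) = bt M k r i := by
    have e1 : ga cs (cs.simple r) (gx r) = -gx r := by
      rw [ga_simple, bf_self]; module
    have e2 : ga cs (cs.simple r) (gx k) = gx k + (2 * kap M k r) • gx r := by
      rw [ga_simple, bf_gx_gx, kap_symm r k]; module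
    rw [ga_add, ga_smul, ga_smul, e1, e2, bt, ul_rec]
    module
  rw [e] at k3
  exact k3

theorem vis_syl (hP : HG M P) {n : ℕ} (hV : VP cs P n) {A N T : Set B} {w : W} {r : B}
    {L : List (Set B × W)} (hn : L.length ≤ n)
    (hC : Cf cs P A N T w ((({r} : Set B), cs.simple r) :: L)) (hrF : r ∉ fut M (ty L) N) {k : B}
    (hk : k ∈ P) (hkr : 4 ≤ M k r)
    (hD : D cs (cs.simple r * prd L w) (cs.simple k) = 1) : False := by
  have hr : r ∈ P := hC.vd.1.1 rfl
  have nkr : k ≠ r := ne_of_ge (M := M) (by omega)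
  have hmin : IsMin cs {r} (prd L w) := hV.min_tail cs hn hC
  have hDr : D cs (cs.simple r * prd L w) (cs.simple r) = 1 := by
    rw [D_simple_mul, hmin r rfl]; rfl
  have hI : ∀ i < M k r - 1, Iv cs (prd L w) (bt M k r i) := by
    intro i hi
    exact two_desc cs nkr hD hDr (by omega)
  have hctx : ∀ q ∈ nx M ({r} : Set B) A, q = r ∨ (q ∈ A ∧ M q r = 2) := by
    rintro q (hq | hq)
    · exact Or.inl hq
    · exact Or.inr ⟨hq.1, hq.2 r rfl⟩
  obtain ⟨L1, a, L2, h1, h2, h3⟩ := stage cs hP hV N T w L _ hn hC.tail hk hr hrF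
    (j := M k r - 1) (by
      intro q hq h
      rcases hctx q hq with h4 | ⟨h4, h5⟩
      · exact Or.inl h4
      · right
        have := (hP.2 q (hC.hA h4) k hk r hr h5 (by rw [M.symmetric]; exact h) (by omega)).2
        exact ⟨h5, by omega⟩) (by omega) (Or.inl (by omega)) hI
  obtain ⟨A2, -, -, -, L3, a', L4, h4, h5, -⟩ := stage_next cs hP hV hn hC.tail hk hr h1 h2
    (j := M k r - 2) (by
      intro q hq h hqk
      exfalso
      rcases hctx q hq with h6 | ⟨-, h6⟩
      · rw [h6, M.diagonal] at h; omega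
      · rw [M.symmetric, h6] at h; omega) (by rw [M.symmetric]; omega)
    (by rw [M.symmetric r k]; omega) (fun i hi => h3 i (by omega))
  apply hC.np [] (ty L1) (ty L3) (ty L4) r k
  · rw [h1, h4]
    simp [ty]
  · rw [M.symmetric]; omega
  · intro T' hT'
    obtain ⟨p, hp, rfl⟩ := List.mem_map.mp hT'
    exact h2 p hp
  · intro T' hT'
    obtain ⟨p, hp, rfl⟩ := List.mem_map.mp hT'
    exact h5 p hp

theorem vis_two (hP : HG M P) {n : ℕ} (hV : VP cs P n) {A N T : Set B} {w : W} {s t : B}
    {L : List (Set B × W)} (hn : L.length ≤ n) {a : W}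
    (hC : Cf cs P A N T w ((({s, t} : Set B), a) :: L))
    (htF : t ∉ fut M (ty L) N) {k : B} (hk : k ∈ P) (hks : M k s = 2) (hkt : 6 ≤ M k t)
    (hD : D cs (cs.simple t * prd L w) (cs.simple k) = 1) : False := by
  have ht : t ∈ P := hC.vd.1.1 (by simp)
  have nkt : k ≠ t := ne_of_ge (M := M) (by omega)
  have hmin : IsMin cs {s, t} (prd L w) := hV.min_tail cs hn hC
  have hDr : D cs (cs.simple t * prd L w) (cs.simple t) = 1 := by
    rw [D_simple_mul, hmin t (by simp)]; rfl
  have hI : ∀ i < M k t - 1, Iv cs (prd L w) (bt M k t i) := by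
    intro i hi
    exact two_desc cs nkt hD hDr (by omega)
  have hctx : ∀ q ∈ nx M ({s, t} : Set B) A, q = s ∨ q = t ∨ M q t = 2 := by
    rintro q ((hq | hq) | hq)
    · exact Or.inl hq
    · exact Or.inr (Or.inl hq)
    · exact Or.inr (Or.inr (hq.2 t (by simp)))
  obtain ⟨L1, a1, L2, h1, h2, h3⟩ := stage cs hP hV N T w L _ hn hC.tail hk ht htF
    (j := M k t - 1) (by
      intro q hq h
      rcases hctx q hq with h4 | h4 | h4
      · rw [h4, hks] at h; omega
      · exact Or.inl h4
      · exact Or.inr ⟨h4, by omega⟩) (by omega) (Or.inl (by omega)) hI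
  obtain ⟨A2, hn2, hC2, hA2, L3, a2, L4, h4, h5, h6⟩ := stage_next cs hP hV hn hC.tail hk ht h1 h2
    (j := M k t - 2) (by
      intro q hq h hqk
      omega) (by rw [M.symmetric]; omega)
    (by rw [M.symmetric t k]; omega) (fun i hi => h3 i (by omega))
  obtain ⟨A4, -, -, -, L5, a3, L6, h7, h8, -⟩ := stage_next cs hP hV hn2 hC2 ht hk h4
    (fun p hp => (h5 p hp).symm) (j := M k t - 3) (by
      intro q hq h hqk
      exact absurd h (hA2 q hq)) (by omega) (by omega) (fun i hi => h6 i (by omega))
  apply hC.np (({s, t} : Set B) :: ty L1) (ty L3) (ty L5) (ty L6) k t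
  · rw [h1, h4, h7]
    simp [ty]
  · omega
  · intro T' hT'
    obtain ⟨p, hp, rfl⟩ := List.mem_map.mp hT'
    exact (h5 p hp).symm
  · intro T' hT'
    obtain ⟨p, hp, rfl⟩ := List.mem_map.mp hT'
    exact h8 p hp |>.symm.symm

theorem vis_long (hP : HG M P) {n : ℕ} (hV : VP cs P n) {A N T : Set B} {w : W} {s t : B}
    {l : ℕ} {L : List (Set B × W)} (hn : L.length ≤ n)
    (hC : Cf cs P A N T w ((({s, t} : Set B), alt (sx cs s t) true l) :: L))
    (hm : 3 ≤ M s t) (h2 : 2 ≤ l) (hl : l ≤ M s t)
    (hE : l = 2 → t ∈ A ∧ t ∉ fut M (ty L) N) {k : B}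
    (hk : k ∈ P) (hkT : k ∉ ({s, t} : Set B)) (hkC : ¬ Cm M k {s, t})
    (hD : D cs (alt (sx cs s t) true l * prd L w) (cs.simple k) = 1) : False := by
  have hs : s ∈ P := hC.vd.1.1 (by simp)
  have ht : t ∈ P := hC.vd.1.1 (by simp)
  have nst : s ≠ t := ne_of_ge (M := M) (by omega)
  have mst := hP.four hs ht nst (by omega)
  have nks : k ≠ s := by rintro rfl; exact hkT (by simp)
  have nkt : k ≠ t := by rintro rfl; exact hkT (by simp)
  have hmin : IsMin cs {s, t} (prd L w) := hV.min_tail cs hn hC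
  have hms := hmin s (by simp)
  have hmt := hmin t (by simp)
  set u := prd L w with hu
  by_cases hks : M k s = 2
  · -- the first letter commutes with `k`
    have hkt2 : M k t ≠ 2 := by
      intro h
      apply hkC
      intro x hx
      rcases hx with rfl | hx
      · exact hks
      · rw [Set.mem_singleton_iff] at hx; subst hx; exact h
    have mkt := hP.four hk ht nkt hkt2
    obtain ⟨m1, m2⟩ := hP.2 k hk t ht s hs hks (by omega) (by rw [M.symmetric]; omega)
    obtain ⟨l, rfl⟩ : ∃ l', l = l' + 1 := ⟨l - 1, by omega⟩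
    have e1 : alt (sx cs s t) true (l + 1) = cs.simple s * alt (sx cs t s) true l := by
      rw [alt_succ, Bool.not_true, alt_swap, Bool.not_false]; rfl
    have hD' : D cs (alt (sx cs t s) true l * u) (cs.simple k) = 1 := by
      rw [e1, mul_assoc] at hD
      rwa [D_comm cs (T := {s}) (by
        intro x hx; rw [Set.mem_singleton_iff] at hx; subst hx; exact hks)
        (simple_mem_WP cs rfl)] at hD
    by_cases hl2 : l = 1
    · subst hl2
      rw [alt_one] at hD'
      exact vis_two cs hP hV hn hC (hE rfl).2 hk hks m1 hD'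
    · refine Iv_false cs (IsRt_gx cs k) (bt_rt cs t s 1) (Pos_gx k)
        (bt_pos nst.symm (by omega)) ?_ (Iv_of_D cs hD')
        (long_iv cs nst.symm (l := l) (by omega) (by rw [M.symmetric]; omega) hmt hms)
      have e2 : (gx k : B →₀ ℝ) = (1 : ℝ) • gx k + (0 : ℝ) • gx k := by simp
      rw [e2, bt_one, bf_two, kap_two hks]
      have h3 := kap_ge6 m1
      have h4 := kap_ge6 m2
      have h5 := mul_le_mul h3 h4 (by positivity) (by linarith [sqrt_nonneg 3])
      have h6 : √3 / 2 * (√3 / 2) = (3 : ℝ) / 4 := by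
        have := mul_self_sqrt (show (0 : ℝ) ≤ 3 by norm_num)
        nlinarith
      rw [h6] at h5
      linarith
  · have mks := hP.four hk hs nks hks
    have h1 : Iv cs (alt (sx cs s t) true l * u) (bt M s t 0) :=
      long_iv cs nst (by omega) hl hms hmt
    rw [bt_zero] at h1
    have h3 := Iv.comb cs (Iv_of_D cs hD) h1 (ul_nn (M := M) nks (i := 2) (by omega))
      (ul_nn (M := M) nks (i := 1) (by omega))
    have h4 : Iv cs (alt (sx cs s t) true l * u) (bt M s t 1) :=
      long_iv cs nst (by omega) hl hms hmt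
    refine Iv_false cs (bt_rt cs k s 1) (bt_rt cs s t 1) (bt_pos nks (by omega))
      (bt_pos nst (by omega)) ?_ h3 h4
    rw [bt_one, bt_one, bf_two, kap_self]
    obtain ⟨a1, a2⟩ := sq_ge (by norm_num) (kap_ge4 mks) rfl
    obtain ⟨b1, b2⟩ := sq_ge (by norm_num) (kap_ge4 mst) rfl
    have kn := kap_nn hP hk ht nkt
    by_cases hkt : M k t = 2
    · rw [kap_two hkt]
      obtain ⟨m1, m2⟩ := hP.2 k hk s hs t ht hkt (by omega) hm
      obtain ⟨c1, c2⟩ := sq_ge (by norm_num) (kap_ge6 m1) rfl
      obtain ⟨d1, d2⟩ := sq_ge (by norm_num) (kap_ge6 m2) rfl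
      have h7 := kap_ge6 m2
      have h8 : (1.5 : ℝ) ≤ √3 := by
        rw [show (1.5 : ℝ) = √(1.5 ^ 2) from by rw [sqrt_sq (by norm_num)]]
        exact sqrt_le_sqrt (by norm_num)
      set x := kap M k s
      set y := kap M s t
      nlinarith
    · have m3 := kap_ge4 (hP.four hk ht nkt hkt)
      have m4 := kap_ge4 mks
      have h5 : √2 / 2 * (√2 / 2) ≤ kap M k s * kap M k t :=
        mul_le_mul m4 m3 (by positivity) (by linarith [sqrt_nonneg 2])
      have h6 : √2 / 2 * (√2 / 2) = (1 : ℝ) / 2 := by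
        have := mul_self_sqrt (show (0 : ℝ) ≤ 2 by norm_num)
        nlinarith
      rw [h6] at h5
      set x := kap M k s
      set y := kap M s t
      set z := kap M k t
      nlinarith

/-- the visibility theorem -/
theorem vis_main (hP : HG M P) (n : ℕ) : VP cs P n := by
  induction n with
  | zero =>
    intro A N T w L hn hC k hD
    match L, hn, hC, hD with
    | [], _, hC, hD =>
      exact ⟨desc_mem cs hC.wT (by rw [show w = prd [] w from rfl, hD]; exact one_ne_zero), hD⟩
  | succ n hV =>
    intro A N T w L hn hC k hD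
    match L, hn, hC, hD with
    | [], _, hC, hD =>
      exact ⟨desc_mem cs hC.wT (by rw [show w = prd [] w from rfl, hD]; exact one_ne_zero), hD⟩
    | p :: L, hn, hC, hD =>
      have hn' : L.length ≤ n := by
        rw [List.length_cons] at hn; omega
      have hmin : IsMin cs p.1 (prd L w) := hV.min_tail cs hn' hC
      have hk : k ∈ P := desc_mem cs (Vd.mem cs hC.vd hC.tP hC.wT) (by rw [hD]; exact one_ne_zero)
      have hPc := hC.vd.1
      by_cases hkT : k ∈ p.1
      · left
        refine ⟨hkT, ?_⟩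
        rw [prd, D_mul_isMin' cs hPc.2.1 hmin hkT] at hD
        exact hD
      by_cases hkC : Cm M k p.1
      · right
        refine ⟨hkC, ?_⟩
        rw [prd, D_comm cs hkC hPc.2.1] at hD
        exact hV _ _ _ _ _ hn' hC.tail k hD
      exfalso
      obtain ⟨T1, a1⟩ := p
      obtain ⟨hTP, haT, -, hform⟩ := hPc
      rcases hform with ⟨r, hT, ha, hF⟩ | ⟨s, t, l, hT, hm, ha, h2, hl, hE⟩
      · simp only at hT ha
        subst hT ha
        have hkr2 : M k r ≠ 2 := by
          intro h
          apply hkC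
          intro x hx
          have : x = r := hx
          rw [this]; exact h
        have nkr : k ≠ r := by rintro rfl; exact hkT rfl
        have := hP.four hk (hTP rfl) nkr hkr2
        exact vis_syl cs hP hV hn' hC hF hk this hD
      · simp only at hT ha
        subst hT ha
        exact vis_long cs hP hV hn' hC hm h2 hl hE hk hkT hkC hD

end vis

end Pool.Agent.HeckeCox
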