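import Mathlib
import Pool.Agent.Lib_helper18.Hecke.GVis
import Pool.Agent.Lib_helper18.Hecke.DihMain

set_option autoImplicit false

/-! Product sets of parabolic subgroups and the greedy argument. -/

namespace Pool.Agent.HeckeCox

open CoxeterSystem Real
open scoped Classical

section gprod

variable {B W : Type*} [Group W] {M : CoxeterMatrix B} (cs : CoxeterSystem M W)
variable {P : Set B}

/-- products of parabolic subgroups -/
def Qs : List (Set B) → Set W
  | [] => {1}
  | T :: Ts => {w | ∃ a ∈ WP cs T, ∃ b ∈ Qs Ts, w = a * b}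

theorem Qs_del {Ts : List (Set B)} : ∀ {q t : W}, q ∈ Qs cs Ts → D cs q t = 1 → t * q ∈ Qs cs Ts := by
  induction Ts with
  | nil =>
    intro q t hq hD
    rw [Qs, Set.mem_singleton_iff] at hq
    subst hq
    rw [D_one] at hD
    simp at hD
  | cons T Ts ih =>
    rintro q t ⟨a, ha, b, hb, rfl⟩ hD
    rw [D_mul] at hD
    rcases zmod2_cases (D cs a t) with h | h
    · rw [h, zero_add] at hD
      exact ⟨a, ha, _, ih hb hD, by group⟩
    · exact ⟨t * a, Subgroup.mul_mem _ (mem_WP_of_D cs ha (by rw [h]; exact one_ne_zero)) ha,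
        b, hb, by rw [mul_assoc]⟩

theorem Qs_del_right {Ts : List (Set B)} : ∀ {q t : W}, q ∈ Qs cs Ts → D cs q⁻¹ t = 1 →
    q * t ∈ Qs cs Ts := by
  induction Ts with
  | nil =>
    intro q t hq hD
    rw [Qs, Set.mem_singleton_iff] at hq
    subst hq
    rw [inv_one, D_one] at hD
    simp at hD
  | cons T Ts ih =>
    rintro q t ⟨a, ha, b, hb, rfl⟩ hD
    rw [mul_inv_rev, D_mul, inv_inv] at hD
    rcases zmod2_cases (D cs b⁻¹ t) with h | h
    · rw [h, zero_add] at hD
      exact ⟨a * (b * t * b⁻¹), Subgroup.mul_mem _ ha (mem_WP_of_D cs (Subgroup.inv_mem _ ha)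
        (by rw [hD]; exact one_ne_zero)), b, hb, by group⟩
    · exact ⟨a, ha, _, ih hb h, by group⟩

/-- passing to the minimal representative -/
theorem del_min {S : Set W} (hS : ∀ q ∈ S, ∀ t, D cs q t = 1 → t * q ∈ S) {K : Set B} {u : W}
    (hu : IsMin cs K u) {g : W} (hg : g ∈ WP cs K) (h : g * u ∈ S) : u ∈ S := by
  induction hn : cs.length g using Nat.strong_induction_on generalizing g with
  | _ n ih =>
    by_cases h1 : g = 1
    · rwa [h1, one_mul] at h
    · obtain ⟨i, hi, hD⟩ := exists_desc cs hg h1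
      have hlt := length_lt_of_D cs hD
      have h2 := hS _ h (cs.simple i) (by rw [D_mul_isMin' cs hg hu hi]; exact hD)
      rw [← mul_assoc] at h2
      exact ih _ (by rw [← hn]; exact hlt)
        (Subgroup.mul_mem _ (simple_mem_WP cs hi) hg) h2 rfl

theorem prd_mem_Qs {L : List (Set B × W)} (hL : ∀ p ∈ L, p.2 ∈ WP cs p.1) :
    prd L 1 ∈ Qs cs (ty L) := by
  induction L with
  | nil => rfl
  | cons p L ih =>
    exact ⟨p.2, hL p List.mem_cons_self, _, ih fun q hq => hL q (List.mem_cons_of_mem _ hq), rfl⟩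

theorem Vd.memT {L : List (Set B × W)} : ∀ {A N : Set B}, Vd cs P A L N →
    ∀ p ∈ L, p.2 ∈ WP cs p.1 := by
  induction L with
  | nil => intro A N _ p hp; exact absurd hp (by simp)
  | cons q L ih =>
    intro A N h p hp
    rcases List.mem_cons.mp hp with rfl | hp
    · exact h.1.2.1
    · exact ih h.2 p hp

/-- the greedy argument -/
theorem greedy (hP : HG M P) {N T : Set B} {w : W} {L : List (Set B × W)} : ∀ {A : Set B},
    Cf cs P A N T w L → ∀ {g : W}, g ∈ WP cs A → g * prd L w ∈ Qs cs (ty L) → w = 1 := by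
  induction L with
  | nil =>
    intro A hC g hg h
    have h1 := del_min cs (fun q hq t => Qs_del cs hq)
      ((vis_main cs hP 0).min cs (Nat.le_refl _) hC) hg h
    exact h1
  | cons p L ih =>
    intro A hC g hg h
    have h1 := del_min cs (fun q hq t => Qs_del cs hq)
      ((vis_main cs hP (p :: L).length).min cs (Nat.le_refl _) hC) hg h
    obtain ⟨b, hb, q, hq, he⟩ := h1
    apply ih hC.tail (g := b⁻¹ * p.2)
    · exact WP_mono cs (fun _ hk => Or.inl hk)
        (Subgroup.mul_mem _ (Subgroup.inv_mem _ hb) hC.vd.1.2.1)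
    · rw [prd] at he
      rw [mul_assoc, he, inv_mul_cancel_left]
      exact hq

/-- supports -/
def Xs (J : Set B) (Ts : List (Set B)) : Set W := {y | y⁻¹ ∈ Qs cs (J :: Ts)}

theorem Xs_del {J : Set B} {Ts : List (Set B)} {y t : W} (hy : y ∈ Xs cs J Ts)
    (hr : cs.IsReflection t) (hD : D cs y t = 1) : t * y ∈ Xs cs J Ts := by
  have h1 := Qs_del_right cs hy (t := t) (by rwa [inv_inv])
  change (t * y)⁻¹ ∈ Qs cs (J :: Ts)
  rw [mul_inv_rev, hr.inv]
  exact h1

theorem Qs_ctx_mul {e : B} {Ts : List (Set B)} : ∀ {A : Set B}, e ∈ ctx M A Ts → ∀ {q : W},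
    q ∈ Qs cs Ts → q * cs.simple e ∈ Qs cs Ts ∨
      ∃ e' ∈ A, ∃ q' ∈ Qs cs Ts, q * cs.simple e = cs.simple e' * q' := by
  induction Ts with
  | nil =>
    intro A he q hq
    rw [Qs, Set.mem_singleton_iff] at hq
    subst hq
    exact Or.inr ⟨e, he, 1, rfl, by simp⟩
  | cons T Ts ih =>
    rintro A he q ⟨a, ha, b, hb, rfl⟩
    rcases ih he hb with h | ⟨e', he', q', hq', h⟩
    · exact Or.inl ⟨a, ha, _, h, by rw [mul_assoc]⟩
    · rcases he' with he' | ⟨he', hc⟩
      · left
        exact ⟨a * cs.simple e', Subgroup.mul_mem _ ha (simple_mem_WP cs he'), q', hq', by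
          rw [mul_assoc, h, mul_assoc]⟩
      · right
        refine ⟨e', he', a * q', ⟨a, ha, q', hq', rfl⟩, ?_⟩
        have := WP_comm cs (T := T) (T' := {e'}) (by
          intro t ht t' ht'
          rw [Set.mem_singleton_iff] at ht'; subst ht'
          rw [M.symmetric]; exact hc t ht) ha
            (simple_mem_WP cs rfl : cs.simple e' ∈ WP cs {e'})
        rw [mul_assoc, h, ← mul_assoc, this, mul_assoc]

theorem Xs_ctx {J : Set B} {Ts : List (Set B)} {y c : W} (hy : y ∈ Xs cs J Ts)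
    (hc : c ∈ WP cs (ctx M J Ts)) : c * y ∈ Xs cs J Ts := by
  have key : ∀ e ∈ ctx M J Ts, ∀ y ∈ Xs cs J Ts, cs.simple e * y ∈ Xs cs J Ts := by
    rintro e he y ⟨a, ha, b, hb, hab⟩
    change (cs.simple e * y)⁻¹ ∈ Qs cs (J :: Ts)
    rw [mul_inv_rev, cs.inv_simple, hab]
    rcases Qs_ctx_mul cs he hb with h | ⟨e', he', q', hq', h⟩
    · exact ⟨a, ha, _, h, by rw [mul_assoc]⟩
    · exact ⟨a * cs.simple e', Subgroup.mul_mem _ ha (simple_mem_WP cs he'), q', hq', by
        rw [mul_assoc, h, mul_assoc]⟩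
  unfold WP at hc
  induction hc using Subgroup.closure_induction_left generalizing y with
  | one => rwa [one_mul]
  | mul_left x hx z hz ih =>
    obtain ⟨i, hi, rfl⟩ := hx
    rw [mul_assoc]
    exact key i hi _ (ih hy)
  | inv_mul_cancel x hx z hz ih =>
    obtain ⟨i, hi, rfl⟩ := hx
    rw [cs.inv_simple, mul_assoc]
    exact key i hi _ (ih hy)

/-- deleting letters -/
theorem del_par {T E : Set B} {S : Set W}
    (hS : ∀ v ∈ S, v ∈ WP cs T → ∀ t, t ∈ WP cs T → cs.IsReflection t → D cs v t = 1 → t * v ∈ S)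
    (hE : ∀ t ∈ T, cs.simple t ∈ S → t ∈ E) {v : W} (hv : v ∈ S) (hvT : v ∈ WP cs T) :
    v ∈ WP cs E := by
  induction hn : cs.length v using Nat.strong_induction_on generalizing v with
  | _ n ih =>
    by_cases h1 : v = 1
    · rw [h1]; exact Subgroup.one_mem _
    obtain ⟨i, hi, hD⟩ := exists_desc cs hvT h1
    have hlt := length_lt_of_D cs hD
    have hv' := hS v hv hvT _ (simple_mem_WP cs hi) (cs.isReflection_simple i) hD
    have hvT' : cs.simple i * v ∈ WP cs T := Subgroup.mul_mem _ (simple_mem_WP cs hi) hvT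
    have h2 := ih _ (by rw [← hn]; exact hlt) hv' hvT' rfl
    have e1 : v = cs.simple i * (cs.simple i * v) := by simp
    by_cases hiE : i ∈ E
    · rw [e1]
      exact Subgroup.mul_mem _ (simple_mem_WP cs hiE) h2
    exfalso
    by_cases h3 : cs.simple i * v = 1
    · rw [h3, mul_one] at e1
      rw [e1] at hv
      exact hiE (hE i hi hv)
    · set v' := cs.simple i * v with hv'def
      have h4 : v'⁻¹ ≠ 1 := by simpa using h3
      obtain ⟨j, hj, hDj⟩ := exists_desc cs (Subgroup.inv_mem _ h2) h4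
      have hjT : j ∈ T := desc_mem cs (Subgroup.inv_mem _ hvT') (by rw [hDj]; exact one_ne_zero)
      have l1 : cs.length (v' * cs.simple j) < cs.length v' := by
        have := length_lt_of_D cs hDj
        rw [← cs.length_inv (v' * cs.simple j), mul_inv_rev, cs.inv_simple]
        rwa [cs.length_inv v'] at this
      have l2 : cs.length (v * cs.simple j) < cs.length v := by
        have a1 : v * cs.simple j = cs.simple i * (v' * cs.simple j) := by
          rw [hv'def]; simp [mul_assoc]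
        have a2 := cs.length_mul_le (cs.simple i) (v' * cs.simple j)
        rw [← a1, cs.length_simple] at a2
        omega
      -- right deletion
      have hr : cs.IsReflection (v * cs.simple j * v⁻¹) := by
        exact (cs.isReflection_simple j).conj v
      have hDv : D cs v (v * cs.simple j * v⁻¹) = 1 := by
        rw [D_eq_one_iff cs v hr]
        have : v * cs.simple j * v⁻¹ * v = v * cs.simple j := by group
        rw [this]; exact l2
      have hjm := simple_mem_WP cs hjT
      have h5 := hS v hv hvT _ (Subgroup.mul_mem _ (Subgroup.mul_mem _ hvT hjm)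
        (Subgroup.inv_mem _ hvT)) hr hDv
      have e2 : v * cs.simple j * v⁻¹ * v = v * cs.simple j := by group
      rw [e2] at h5
      have h6 := ih _ (by rw [← hn]; exact l2) h5 (Subgroup.mul_mem _ hvT hjm) rfl
      apply hiE
      have h7 : cs.simple i ∈ WP cs E := by
        have : cs.simple i = v * cs.simple j * (v' * cs.simple j)⁻¹ := by
          rw [hv'def]; simp [mul_assoc]
        rw [this]
        refine Subgroup.mul_mem _ h6 (Subgroup.inv_mem _ (Subgroup.mul_mem _ h2
          (simple_mem_WP cs hj)))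
      exact (simple_mem_WP_iff cs).mp h7

/-- right deletion of a letter outside the context is impossible -/
theorem not_ext (hP : HG M P) {J N : Set B} {L : List (Set B × W)} (hC : Cf cs P J N ∅ 1 L)
    {h : W} (hh : h ∈ WP cs J) {t : B} (ht : t ∈ P) (htN : t ∈ N) (htC : t ∉ ctx M J (ty L)) :
    cs.simple t * (h * prd L 1)⁻¹ ∉ Xs cs J (ty L) := by
  rintro ⟨a, ha, b, hb, hab⟩
  have e1 : (cs.simple t * (h * prd L 1)⁻¹)⁻¹ = h * prd L (cs.simple t) := by
    rw [mul_inv_rev, inv_inv, cs.inv_simple, mul_assoc, ← prd_mul, one_mul]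
  rw [e1] at hab
  have hC' : Cf cs P J N {t} (cs.simple t) L := by
    refine ⟨hC.hA, hC.vd, hC.np, ?_, ?_, simple_mem_WP cs rfl, ?_⟩
    · intro x hx; rw [Set.mem_singleton_iff] at hx; subst hx; exact ht
    · intro x hx; rw [Set.mem_singleton_iff] at hx; subst hx; exact htN
    · rintro x ⟨hx, hx'⟩
      rw [Set.mem_singleton_iff] at hx; subst hx
      exact absurd hx' htC
  have h1 := greedy cs hP hC' (g := a⁻¹ * h) (Subgroup.mul_mem _ (Subgroup.inv_mem _ ha) hh)
    (by rw [mul_assoc, hab, inv_mul_cancel_left]; exact hb)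
  exact simple_ne_one cs t h1

theorem x_mem_Xs {J : Set B} {L : List (Set B × W)} (hL : ∀ p ∈ L, p.2 ∈ WP cs p.1) {h : W}
    (hh : h ∈ WP cs J) : (h * prd L 1)⁻¹ ∈ Xs cs J (ty L) := by
  change (h * prd L 1)⁻¹⁻¹ ∈ Qs cs (J :: ty L)
  rw [inv_inv]
  exact ⟨h, hh, _, prd_mem_Qs cs hL, rfl⟩

theorem claimG_min (hP : HG M P) {J N : Set B} {L : List (Set B × W)} (hC : Cf cs P J N ∅ 1 L)
    {h : W} (hh : h ∈ WP cs J) {T : Set B} (hTP : T ⊆ P) (hTN : T ⊆ N)
    (hx : IsMin cs (T ∩ ctx M J (ty L)) (h * prd L 1)⁻¹) : IsMin cs T (h * prd L 1)⁻¹ := by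
  intro t ht
  rcases zmod2_cases (D cs (h * prd L 1)⁻¹ (cs.simple t)) with h1 | h1
  · exact h1
  exfalso
  by_cases htC : t ∈ ctx M J (ty L)
  · rw [hx t ⟨ht, htC⟩] at h1
    simp at h1
  · exact not_ext cs hP hC hh (hTP ht) (hTN ht) htC
      (Xs_del cs (x_mem_Xs cs (Vd.memT cs hC.vd) hh) (cs.isReflection_simple t) h1)

theorem claimG (hP : HG M P) {J N : Set B} {L : List (Set B × W)} (hC : Cf cs P J N ∅ 1 L)
    {h : W} (hh : h ∈ WP cs J) {T : Set B} (hTP : T ⊆ P) (hTN : T ⊆ N)
    (hx : IsMin cs T (h * prd L 1)⁻¹) {v : W} (hv : v ∈ WP cs T)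
    (hvX : v * (h * prd L 1)⁻¹ ∈ Xs cs J (ty L)) : v ∈ WP cs (T ∩ ctx M J (ty L)) := by
  set x := (h * prd L 1)⁻¹ with hxdef
  apply del_par cs (T := T) (S := {v | v * x ∈ Xs cs J (ty L)}) _ _ hvX hv
  · intro v hv hvT t htT hr hD
    change t * v * x ∈ Xs cs J (ty L)
    rw [mul_assoc]
    apply Xs_del cs hv hr
    rw [D_mul_isMin cs hvT hx htT hr]
    exact hD
  · intro t ht htS
    refine ⟨ht, ?_⟩
    by_contra htC
    exact not_ext cs hP hC hh (hTP ht) (hTN ht) htC htS

end gprod

end Pool.Agent.HeckeCox
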