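import Mathlib
import Pool.Agent.Lib_helper18.Hecke.GProd

set_option autoImplicit false

/-! Absorption of a letter of the context. -/

namespace Pool.Agent.HeckeCox

open CoxeterSystem Real
open scoped Classical

section gabs

variable {B W : Type*} [Group W] {M : CoxeterMatrix B} (cs : CoxeterSystem M W)
variable {P : Set B}

theorem length_mul_isMin {K : Set B} {x : W} (hx : IsMin cs K x) {u : W} (hu : u ∈ WP cs K) :
    cs.length (u * x) = cs.length u + cs.length x := by
  induction hn : cs.length u using Nat.strong_induction_on generalizing u with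
  | _ n ih =>
    by_cases h1 : u = 1
    · rw [h1, cs.length_one] at hn
      rw [h1, one_mul, ← hn, zero_add]
    · obtain ⟨i, hi, hD⟩ := exists_desc cs hu h1
      have hD' : D cs (u * x) (cs.simple i) = 1 := by rw [D_mul_isMin' cs hu hx hi]; exact hD
      have hlt := length_lt_of_D cs hD
      have hlt' := length_lt_of_D cs hD'
      have h2 := ih _ (by rw [← hn]; exact hlt)
        (Subgroup.mul_mem _ (simple_mem_WP cs hi) hu) rfl
      rw [mul_assoc] at h2
      have e1 : u * x = cs.simple i * (cs.simple i * (u * x)) := by simp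
      have e2 : u = cs.simple i * (cs.simple i * u) := by simp
      have l1 := cs.length_mul_le (cs.simple i) (cs.simple i * (u * x))
      have l2 := cs.length_mul_le (cs.simple i) (cs.simple i * u)
      rw [← e1, cs.length_simple] at l1
      rw [← e2, cs.length_simple] at l2
      omega

theorem D_zero_of_lt {y : W} {i : B} (h : cs.length y < cs.length (cs.simple i * y)) :
    D cs y (cs.simple i) = 0 := by
  rcases zmod2_cases (D cs y (cs.simple i)) with h1 | h1
  · exact h1
  · have := length_lt_of_D cs h1
    omega

/-- extending a long piece -/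
theorem pc_ext {A F T : Set B} {a : W} (hPc : Pc cs P A F T a) {e : B}
    (he : e ∈ T) (hl : cs.length a < cs.length (a * cs.simple e))
    (hmin : IsMin cs (T ∩ A) (a * cs.simple e)) : Pc cs P A F T (a * cs.simple e) := by
  obtain ⟨hTP, haT, -, hform⟩ := hPc
  refine ⟨hTP, Subgroup.mul_mem _ haT (simple_mem_WP cs he), hmin, ?_⟩
  rcases hform with ⟨r, hT, ha, hF⟩ | ⟨s, t, l, hT, hm, ha, h2, hlM, hE⟩
  · exfalso
    have her : e = r := by rw [hT] at he; exact he
    rw [ha, her, cs.simple_mul_simple_self, cs.length_one] at hl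
    omega
  · right
    have hs : s ∈ P := hTP (by rw [hT]; simp)
    have ht : t ∈ P := hTP (by rw [hT]; simp)
    have nst : s ≠ t := ne_of_ge (M := M) (by omega)
    have e1 : cs.simple e = sx cs s t (tw true l) := by
      obtain ⟨l', rfl⟩ : ∃ l', l = l' + 1 := ⟨l - 1, by omega⟩
      have h3 : cs.simple e = sx cs s t true ∨ cs.simple e = sx cs s t false := by
        rw [hT] at he
        rcases he with h | h
        · left; rw [h]; rfl
        · right; rw [Set.mem_singleton_iff] at h; rw [h]; rfl
      have h4 : cs.simple e = sx cs s t (tw true (l' + 1)) ∨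
          cs.simple e = sx cs s t (tw true l') := by
        rw [tw_succ]
        rcases Bool.eq_false_or_eq_true (tw true l') with h | h
        · rw [h]; exact h3.symm
        · rw [h]; exact h3
      rcases h4 with h4 | h4
      · exact h4
      · exfalso
        have h5 : a * cs.simple e = alt (sx cs s t) true l' := by
          rw [ha, alt_succ', h4, mul_assoc, sx_mul_self, mul_one]
        rw [h5, ha, length_alt cs nst true (Or.inr (by omega)),
          length_alt cs nst true (Or.inr (by omega))] at hl
        omega
    have e2 : a * cs.simple e = alt (sx cs s t) true (l + 1) := by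
      rw [alt_succ', ← e1, ha]
    have hlM' : l + 1 ≤ M s t := by
      by_contra hcon
      have hlM2 : l = M s t := by omega
      have hmem : a * cs.simple e ∈ WP cs {s, t} := by
        rw [← hT]; exact Subgroup.mul_mem _ haT (simple_mem_WP cs he)
      obtain ⟨c', l'', h5, h6⟩ := exists_alt_le cs (by omega) hmem
      rw [h6, ha, length_alt cs nst true (Or.inr hlM), length_alt cs nst c' (Or.inr h5)] at hl
      omega
    exact ⟨s, t, l + 1, hT, hm, e2, by omega, hlM', fun h => by omega⟩

theorem absorb1 (hP : HG M P) {N : Set B} {e : B} {L : List (Set B × W)} : ∀ {A : Set B},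
    Cf cs P A N ∅ 1 L → e ∈ ctx M A (ty L) →
    cs.length (prd L 1) < cs.length (prd L 1 * cs.simple e) →
    (∃ L' : List (Set B × W), ty L' = ty L ∧ Cf cs P A N ∅ 1 L' ∧
      prd L 1 * cs.simple e = prd L' 1) ∨
    ∃ e' ∈ A, prd L 1 * cs.simple e = cs.simple e' * prd L 1 := by
  induction L with
  | nil =>
    intro A hC he _
    exact Or.inr ⟨e, he, by simp [prd]⟩
  | cons p L ih =>
    intro A hC he hl
    have hV := vis_main cs hP L.length
    have hmin : IsMin cs p.1 (prd L 1) := hV.min_tail cs (Nat.le_refl _) hC
    obtain ⟨T, a⟩ := p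
    have hPc : Pc cs P A (fut M (ty L) N) T a := hC.vd.1
    have haT := hPc.2.1
    change cs.length (a * prd L 1) < cs.length (a * prd L 1 * cs.simple e) at hl
    change (∃ L' : List (Set B × W), ty L' = T :: ty L ∧ Cf cs P A N ∅ 1 L' ∧
      a * prd L 1 * cs.simple e = prd L' 1) ∨
    ∃ e' ∈ A, a * prd L 1 * cs.simple e = cs.simple e' * (a * prd L 1)
    change IsMin cs T (prd L 1) at hmin
    set u := prd L 1 with hu
    have l1 : cs.length (a * u) = cs.length a + cs.length u := length_mul_isMin cs hmin haT
    have l2 : cs.length (a * u * cs.simple e) ≤ cs.length a + cs.length (u * cs.simple e) := by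
      rw [mul_assoc]; exact cs.length_mul_le _ _
    rcases ih hC.tail he (by omega) with ⟨L', h1, h2, h3⟩ | ⟨e', he', h3⟩
    · left
      refine ⟨(T, a) :: L', by rw [← h1]; rfl, ?_, ?_⟩
      · refine ⟨hC.hA, ⟨?_, h2.vd⟩, ?_, hC.tP, hC.tN, hC.wT, ?_⟩
        · rw [h1]; exact hPc
        · have : ty ((T, a) :: L') = ty ((T, a) :: L) := by
            change T :: ty L' = T :: ty L
            rw [h1]
          rw [this]; exact hC.np
        · intro i hi; exact absurd hi.1 (Set.notMem_empty i)
      · rw [mul_assoc, h3]; rfl
    · rcases he' with he' | ⟨he', hc⟩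
      · have l3 : cs.length (a * cs.simple e' * u) = cs.length (a * cs.simple e') + cs.length u :=
          length_mul_isMin cs hmin (Subgroup.mul_mem _ haT (simple_mem_WP cs he'))
        have e1 : a * u * cs.simple e = a * cs.simple e' * u := by
          rw [mul_assoc, h3, mul_assoc]
        rw [e1, l3, l1] at hl
        by_cases hm : IsMin cs (T ∩ A) (a * cs.simple e')
        · left
          refine ⟨(T, a * cs.simple e') :: L, rfl, ?_, ?_⟩
          · refine ⟨hC.hA, ⟨pc_ext cs hPc he' (by omega) hm, hC.vd.2⟩, hC.np, hC.tP, hC.tN,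
              hC.wT, ?_⟩
            intro i hi; exact absurd hi.1 (Set.notMem_empty i)
          · rw [e1]; rfl
        · right
          unfold IsMin at hm
          push Not at hm
          obtain ⟨f, hf, hD⟩ := hm
          have hD1 : D cs (a * cs.simple e') (cs.simple f) = 1 := (zmod2_cases _).resolve_left hD
          rw [D_mul, hPc.2.2.1 f hf, zero_add, D_simple] at hD1
          have h4 : a⁻¹ * cs.simple f * a = cs.simple e' := by
            by_contra hne
            rw [if_neg hne] at hD1
            simp at hD1
          refine ⟨f, hf.2, ?_⟩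
          rw [e1, ← h4]
          group
      · right
        refine ⟨e', he', ?_⟩
        have := WP_comm cs (T := T) (T' := {e'}) (by
          intro t ht t' ht'
          rw [Set.mem_singleton_iff] at ht'; subst ht'
          rw [M.symmetric]; exact hc t ht) haT
            (simple_mem_WP cs rfl : cs.simple e' ∈ WP cs {e'})
        rw [mul_assoc, h3, ← mul_assoc, this, mul_assoc]

/-- absorption in the inverse element -/
theorem absorb_x (hP : HG M P) {J N : Set B} {L : List (Set B × W)} (hC : Cf cs P J N ∅ 1 L)
    {h : W} (hh : h ∈ WP cs J) {e : B} (he : e ∈ ctx M J (ty L))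
    (hD : D cs (h * prd L 1)⁻¹ (cs.simple e) = 0) :
    ∃ (h' : W) (L' : List (Set B × W)), h' ∈ WP cs J ∧ ty L' = ty L ∧ Cf cs P J N ∅ 1 L' ∧
      cs.simple e * (h * prd L 1)⁻¹ = (h' * prd L' 1)⁻¹ := by
  have hmin : IsMin cs J (prd L 1) := (vis_main cs hP L.length).min cs (Nat.le_refl _) hC
  have l1 : cs.length (h * prd L 1) = cs.length h + cs.length (prd L 1) :=
    length_mul_isMin cs hmin hh
  have l2 : cs.length (h * prd L 1) < cs.length (h * (prd L 1 * cs.simple e)) := by
    by_contra hcon
    have h1 : cs.length (cs.simple e * (h * prd L 1)⁻¹) ≤ cs.length (h * prd L 1)⁻¹ := by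
      have h2 : (h * (prd L 1 * cs.simple e))⁻¹ = cs.simple e * (h * prd L 1)⁻¹ := by
        rw [← mul_assoc, mul_inv_rev _ (cs.simple e), cs.inv_simple]
      rw [← h2, cs.length_inv, cs.length_inv]
      omega
    have h3 : cs.length (cs.simple e * (h * prd L 1)⁻¹) ≠ cs.length (h * prd L 1)⁻¹ := by
      rcases cs.length_simple_mul (h * prd L 1)⁻¹ e with h4 | h4 <;> omega
    have h5 : D cs (h * prd L 1)⁻¹ (cs.simple e) = 1 :=
      (D_eq_one_iff cs _ (cs.isReflection_simple e)).mpr (by omega)
    rw [hD] at h5
    simp at h5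
  have l3 := cs.length_mul_le h (prd L 1 * cs.simple e)
  rcases absorb1 cs hP hC he (by omega) with ⟨L', h1, h2, h3⟩ | ⟨e', he', h3⟩
  · refine ⟨h, L', hh, h1, h2, ?_⟩
    rw [← h3, ← mul_assoc, mul_inv_rev _ (cs.simple e), cs.inv_simple]
  · refine ⟨h * cs.simple e', L, Subgroup.mul_mem _ hh (simple_mem_WP cs he'), rfl, hC, ?_⟩
    rw [mul_assoc h, ← h3, ← mul_assoc, mul_inv_rev _ (cs.simple e), cs.inv_simple]

end gabs

end Pool.Agent.HeckeCox
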