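import Mathlib
import Pool.Agent.Lib_helper18.Hecke.GAbs
import Pool.Agent.Lib_helper18.Hecke.Exit

set_option autoImplicit false

/-! Exits from long pieces, second version. -/

namespace Pool.Agent.HeckeCox

open CoxeterSystem Real
open scoped Classical

section gexit

variable {B W : Type*} [Group W] {M : CoxeterMatrix B} (cs : CoxeterSystem M W)
variable {R : Type*} [CommRing R] {q ε ε' : R}

/-- the three factor property of a dihedral group -/
def Q3 (q : R) (i j : B) : Prop :=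
  ∀ g ∈ BP M {i, j}, ∀ c : W →₀ R, c ≠ 0 → Supp (WP cs {j} : Set W) c →
    Supp (WT cs i j) (act cs q g c) →
    ∃ a ∈ BP M {j}, ∃ b ∈ BP M {i}, ∃ c ∈ BP M {j}, g = a * b * c

theorem q3v [IsDomain R] (S1 : SD R q ε ε') {i j : B} (hij : i ≠ j)
    (hm : 4 ≤ M i j) (h3 : Q3 cs q i j) {g : BraidGroup M} (hg : g ∈ BP M {i, j})
    {c : W →₀ R} (hc : c ≠ 0) (hcj : Supp (WP cs ∅ : Set W) c)
    (h : Supp (WPP cs {i} {j} ∪ WPP cs {j} {i}) (act cs q g c)) :
    (∃ a ∈ BP M {i}, ∃ b ∈ BP M {j}, g = a * b) ∨ (∃ a ∈ BP M {j}, ∃ b ∈ BP M {i}, g = a * b) := by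
  obtain ⟨a, ha, b, hb, d, hd, he⟩ := h3 g hg c hc
    (hcj.mono (WP_mono cs (Set.empty_subset _))) (h.mono (WPP_sub_WT cs i j))
  by_cases ha1 : a = 1
  · left; exact ⟨b, hb, d, hd, by rw [he, ha1, one_mul]⟩
  by_cases hd1 : d = 1
  · right; exact ⟨a, ha, b, hb, by rw [he, hd1, mul_one]⟩
  by_cases hb1 : b = 1
  · left; exact ⟨1, Subgroup.one_mem _, a * d, Subgroup.mul_mem _ ha hd, by
      rw [he, hb1, mul_one, one_mul]⟩
  exfalso
  obtain ⟨ka, rfl⟩ := mem_BP_singleton ha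
  obtain ⟨kb, rfl⟩ := mem_BP_singleton hb
  obtain ⟨kd, rfl⟩ := mem_BP_singleton hd
  have na : ka ≠ 0 := by rintro rfl; exact ha1 (zpow_zero _)
  have nb : kb ≠ 0 := by rintro rfl; exact hb1 (zpow_zero _)
  have nd : kd ≠ 0 := by rintro rfl; exact hd1 (zpow_zero _)
  obtain ⟨βa, hβa, fa⟩ := offdiag cs S1 j na
  obtain ⟨βb, hβb, fb⟩ := offdiag cs S1 i nb
  obtain ⟨βd, hβd, fd⟩ := offdiag cs S1 j nd
  have s1 : ∀ w, c w ≠ 0 → w = 1 := by
    intro w hw
    have := hcj w hw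
    rw [WP_empty] at this
    exact Subgroup.mem_bot.mp this
  have hc1 : c 1 ≠ 0 := by
    obtain ⟨w, hw⟩ := exists_ne_zero hc
    rw [← s1 w hw]; exact hw
  set z1 := act cs q ((PresentedGroup.of j : BraidGroup M) ^ kd) c with hz1
  set z2 := act cs q ((PresentedGroup.of i : BraidGroup M) ^ kb) z1 with hz2
  have s2 : Supp (WP cs {j} : Set W) z1 :=
    supp_act_WP cs q hd (hcj.mono (WP_mono cs (Set.empty_subset _)))
  have s3 : Supp (WPP cs {i} {j}) z2 :=
    supp_act_WPP cs q hb (s2.mono (fun w hw => WP_sub_WPP_right cs hw))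
  have v1 : z1 (cs.simple j * 1) = βd * c 1 := by
    apply fd
    by_contra hne
    have := s1 _ hne
    rw [mul_one] at this
    exact simple_ne_one cs j this
  rw [mul_one] at v1
  have v2 : z2 (cs.simple i * cs.simple j) = βb * z1 (cs.simple j) := by
    apply fb
    by_contra hne
    rcases mem_WP_singleton cs (s2 _ hne) with h1 | h1
    · apply simple_ne cs hij
      have := congrArg (fun z => z * cs.simple j) h1
      simpa [mul_assoc] using this
    · exact simple_ne_one cs i (mul_eq_right.mp h1)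
  have v3 : act cs q g c (cs.simple j * (cs.simple i * cs.simple j)) =
      βa * z2 (cs.simple i * cs.simple j) := by
    rw [he, act_mul_apply, act_mul_apply]
    apply fa
    by_contra hne
    exact (jij_not_mem cs hij hm).1 (s3 _ hne)
  have v4 : act cs q g c (cs.simple j * (cs.simple i * cs.simple j)) ≠ 0 := by
    rw [v3, v2, v1]
    exact mul_ne_zero hβa (mul_ne_zero hβb (mul_ne_zero hβd hc1))
  rcases h _ v4 with h5 | h5
  · exact (jij_not_mem cs hij hm).1 h5
  · exact (jij_not_mem cs hij hm).2 h5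

/-- exits -/
def ExitQ (T E F : Set B) (z : W →₀ R) : Prop :=
  ∃ (s t : B) (l : ℕ) (e : W), ({s, t} : Set B) = T ∧ 2 ≤ l ∧ l ≤ M s t ∧
    (e = 1 ∨ ∃ e0 ∈ E, e = cs.simple e0) ∧ (l = 2 → t ∈ E ∧ t ∉ F) ∧
    IsMin cs E (alt (sx cs s t) true l) ∧
    (∀ k ∈ F, D cs ((alt (sx cs s t) true l)⁻¹ * e) (cs.simple k) = 0) ∧
    ∃ f ∈ WP cs F, z (f * ((alt (sx cs s t) true l)⁻¹ * e)) ≠ 0

theorem exit_core {i j : B} (hij : i ≠ j) (hM : M i j ≠ 0) {E F : Set B}
    (hE : E = ∅ ∨ ∃ e0, e0 ∈ ({i, j} : Set B) ∧ E = {e0}) {z : W →₀ R} {u f : W}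
    (hu : u ∈ WP cs {i, j}) (hD : ∀ k ∈ F, D cs u (cs.simple k) = 0) (hf : f ∈ WP cs F)
    (hz : z (f * u) ≠ 0)
    (hs : ∀ (s t : B) (l : ℕ) (e : W), ({s, t} : Set B) = {i, j} → (1 ≤ l → s ∉ E) →
      (e = 1 ∨ ∃ e0 ∈ E, e = cs.simple e0) → l ≤ 2 → u = (alt (sx cs s t) true l)⁻¹ * e →
      l = 2 ∧ t ∈ E ∧ t ∉ F) : ExitQ cs {i, j} E F z := by
  have hEs : E ⊆ {i, j} := by
    rcases hE with rfl | ⟨e0, h0, rfl⟩
    · exact Set.empty_subset _
    · intro x hx; rw [Set.mem_singleton_iff] at hx; subst hx; exact h0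
  obtain ⟨e', he', a, ha, hdec⟩ := exists_decomp cs E u⁻¹
  have hamem : a ∈ WP cs {i, j} := by
    have : a = e'⁻¹ * u⁻¹ := by rw [hdec]; group
    rw [this]
    exact Subgroup.mul_mem _ (Subgroup.inv_mem _ (WP_mono cs hEs he')) (Subgroup.inv_mem _ hu)
  have hue : u = a⁻¹ * e'⁻¹ := by
    have := congrArg (fun z => z⁻¹) hdec
    simpa using this
  have he1 : e'⁻¹ = 1 ∨ ∃ e0 ∈ E, e'⁻¹ = cs.simple e0 := by
    rcases hE with rfl | ⟨e0, h0, rfl⟩
    · left
      rw [WP_empty] at he'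
      rw [Subgroup.mem_bot.mp he', inv_one]
    · rcases mem_WP_singleton cs he' with h | h
      · left; rw [h, inv_one]
      · right; exact ⟨e0, rfl, by rw [h, cs.inv_simple]⟩
  obtain ⟨s, t, l, hst, hpair, hl, hal⟩ : ∃ (s t : B) (l : ℕ), s ≠ t ∧ ({s, t} : Set B) = {i, j} ∧
      l ≤ M s t ∧ a = alt (sx cs s t) true l := by
    obtain ⟨c, l, hl, he⟩ := exists_alt_le cs hM hamem
    cases c
    · exact ⟨j, i, l, hij.symm, Set.pair_comm _ _, by rw [M.symmetric]; exact hl, by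
        rw [he, alt_swap, Bool.not_false]⟩
    · exact ⟨i, j, l, hij, rfl, hl, he⟩
  have hsE : 1 ≤ l → s ∉ E := by
    intro h1 hsE
    have h2 := ha s hsE
    rw [hal, show cs.simple s = sx cs s t true from rfl,
      D_alt_self cs hst true h1 (Or.inr hl)] at h2
    simp at h2
  have hue' : u = (alt (sx cs s t) true l)⁻¹ * e'⁻¹ := by rw [← hal]; exact hue
  have h2 : 2 ≤ l := by
    by_contra hcon
    have := (hs s t l e'⁻¹ hpair hsE he1 (by omega) hue').1
    omega
  refine ⟨s, t, l, e'⁻¹, hpair, h2, hl, he1, ?_, ?_, ?_, f, hf, ?_⟩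
  · intro h3
    exact (hs s t l e'⁻¹ hpair hsE he1 (by omega) hue').2
  · rw [← hal]; exact ha
  · rw [← hue']; exact hD
  · rw [← hue']; exact hz

theorem pair_eq {s t i j : B} (hij : i ≠ j) (h : ({s, t} : Set B) = {i, j}) :
    (s = i ∧ t = j) ∨ (s = j ∧ t = i) := by
  have h1 : s ∈ ({i, j} : Set B) := by rw [← h]; simp
  have h2 : t ∈ ({i, j} : Set B) := by rw [← h]; simp
  have h3 : i ∈ ({s, t} : Set B) := by rw [h]; simp
  have h4 : j ∈ ({s, t} : Set B) := by rw [h]; simp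
  simp only [Set.mem_insert_iff, Set.mem_singleton_iff] at h1 h2 h3 h4
  rcases h1 with rfl | rfl
  · rcases h2 with rfl | rfl
    · exfalso
      rcases h4 with h4 | h4 <;> exact hij h4.symm
    · exact Or.inl ⟨rfl, rfl⟩
  · rcases h2 with rfl | rfl
    · exact Or.inr ⟨rfl, rfl⟩
    · exfalso
      rcases h3 with h3 | h3 <;> exact hij h3

theorem e_mem {E K : Set B} (hE : E ⊆ K) {e : W} (he : e = 1 ∨ ∃ e0 ∈ E, e = cs.simple e0) :
    e ∈ WP cs K := by
  rcases he with rfl | ⟨e0, h0, rfl⟩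
  · exact Subgroup.one_mem _
  · exact simple_mem_WP cs (hE h0)

/-- short words are in `W_j W_i W_j` -/
theorem small_WT {i j : B} (hij : i ≠ j) {s t : B} {l : ℕ} {e : W}
    (hp : ({s, t} : Set B) = {i, j}) (hl : l ≤ 2) (he : e ∈ WP cs {j}) :
    (alt (sx cs s t) true l)⁻¹ * e ∈ WT cs i j := by
  have hi : cs.simple i ∈ WP cs {i} := simple_mem_WP cs rfl
  have hj : cs.simple j ∈ WP cs {j} := simple_mem_WP cs rfl
  have i1 : (sx cs s t true)⁻¹ = cs.simple s := cs.inv_simple _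
  have i2 : (sx cs s t false)⁻¹ = cs.simple t := cs.inv_simple _
  interval_cases l
  · exact ⟨1, Subgroup.one_mem _, e, ⟨1, Subgroup.one_mem _, e, he, by simp⟩, by simp⟩
  · rw [alt_one, i1]
    rcases pair_eq hij hp with ⟨rfl, rfl⟩ | ⟨rfl, rfl⟩
    · exact ⟨1, Subgroup.one_mem _, cs.simple s * e, ⟨_, hi, e, he, rfl⟩, by simp⟩
    · exact ⟨1, Subgroup.one_mem _, cs.simple s * e, ⟨1, Subgroup.one_mem _, _,
        Subgroup.mul_mem _ hj he, by simp⟩, by simp⟩
  · rw [alt_succ, alt_one, Bool.not_true, mul_inv_rev, i1, i2]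
    rcases pair_eq hij hp with ⟨rfl, rfl⟩ | ⟨rfl, rfl⟩
    · exact ⟨_, hj, cs.simple s * e, ⟨_, hi, e, he, rfl⟩, by rw [mul_assoc]⟩
    · exact ⟨1, Subgroup.one_mem _, cs.simple t * (cs.simple s * e), ⟨_, hi, _,
        Subgroup.mul_mem _ hj he, rfl⟩, by rw [one_mul, mul_assoc]⟩

theorem gexitA [IsDomain R] (S1 : SD R q ε ε') {s t : B} (hst : s ≠ t)
    (hm : 4 ≤ M s t) (h3 : Q3 cs q s t) {p : BraidGroup M} (hp : p ∈ BP M {s, t})
    (hNB : NBad M {s, t} ∅ ∅ p) {d : W →₀ R} (hd : d ≠ 0) (hdE : Supp (WP cs ∅ : Set W) d) :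
    ExitQ cs {s, t} ∅ ∅ (act cs q p d) := by
  by_contra hcon
  have h : Supp (WPP cs {s} {t} ∪ WPP cs {t} {s}) (act cs q p d) := by
    intro w hw
    by_contra hw2
    apply hcon
    have hwm := supp_act_WP cs q hp (hdE.mono (WP_mono cs (Set.empty_subset _))) w hw
    refine exit_core cs hst (by omega) (Or.inl rfl) hwm (by simp) (Subgroup.one_mem _)
      (by rwa [one_mul]) ?_
    intro s' t' l e hpair _ he hl hue
    exfalso
    apply hw2
    have he1 : e = 1 := by
      rcases he with h | ⟨e0, h0, -⟩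
      · exact h
      · exact absurd h0 (Set.notMem_empty _)
    rw [he1, mul_one] at hue
    have hc := alt_mul_alt (sx cs s' t') (sx_mul_self cs s' t') true l
    have hinv : (alt (sx cs s' t') true l)⁻¹ = alt (sx cs s' t') (tw (!true) l) l := by
      exact inv_eq_of_mul_eq_one_right hc
    rw [hue, hinv]
    rcases pair_eq hst hpair with ⟨rfl, rfl⟩ | ⟨rfl, rfl⟩
    · exact alt_small cs s' t' _ hl
    · exact (alt_small cs s' t' _ hl).symm
  rcases q3v cs S1 hst hm h3 hp hd hdE h with ⟨a, ha, b, hb, he⟩ | ⟨a, ha, b, hb, he⟩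
  · exact hNB 1 (Subgroup.one_mem _) s (by simp) t (by simp) a ha b hb 1 (Subgroup.one_mem _)
      (by rw [he]; simp)
  · exact hNB 1 (Subgroup.one_mem _) t (by simp) s (by simp) a ha b hb 1 (Subgroup.one_mem _)
      (by rw [he]; simp)

theorem gexitB {g e : B} (hge : g ≠ e)
    (hm : 4 ≤ M g e) (h3 : Q3 cs q g e) {p : BraidGroup M} (hp : p ∈ BP M {g, e})
    (hNB : NBad M {g, e} {e} ∅ p) {d : W →₀ R} (hd : d ≠ 0)
    (hdE : Supp (WP cs {e} : Set W) d) : ExitQ cs {g, e} {e} ∅ (act cs q p d) := by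
  by_contra hcon
  have h : Supp (WT cs g e) (act cs q p d) := by
    intro w hw
    by_contra hw2
    apply hcon
    have hwm := supp_act_WP cs q hp (hdE.mono (WP_mono cs (by simp))) w hw
    refine exit_core cs hge (by omega) (Or.inr ⟨e, by simp, rfl⟩) hwm (by simp)
      (Subgroup.one_mem _) (by rwa [one_mul]) ?_
    intro s' t' l e1 hpair _ he hl hue
    exfalso
    apply hw2
    rw [hue]
    exact small_WT cs hge hpair hl (e_mem cs (subset_refl _) he)
  obtain ⟨a, ha, b, hb, c, hc, he⟩ := h3 p hp d hd hdE h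
  exact hNB 1 (Subgroup.one_mem _) e (by simp) g (by simp) a ha b hb c hc (by rw [he]; simp)

theorem gexitC {g f : B} (hgf : g ≠ f)
    (hm : 4 ≤ M g f) (h3 : Q3 cs q g f) {p : BraidGroup M} (hp : p ∈ BP M {g, f}) {E : Set B}
    (hE : E = ∅ ∨ E = {f}) (hNB : NBad M {g, f} E {f} p) {d : W →₀ R} (hd : d ≠ 0)
    (hdE : Supp (WP cs {f} : Set W) d) : ExitQ cs {g, f} E {f} (act cs q p d) := by
  by_contra hcon
  have h : Supp (WT cs g f) (act cs q p d) := by
    intro w hw
    by_contra hw2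
    apply hcon
    have hwm := supp_act_WP cs q hp (hdE.mono (WP_mono cs (by simp))) w hw
    obtain ⟨u, hD, ⟨f0, hf0, hz⟩, hu⟩ := choose_min cs (f := f) hw
    have hum : u ∈ WP cs {g, f} := by
      rcases hu with rfl | rfl
      · exact hwm
      · exact Subgroup.mul_mem _ (simple_mem_WP cs (by simp)) hwm
    have huT : u ∉ WT cs g f := by
      rcases hu with rfl | rfl
      · exact hw2
      · intro h
        apply hw2
        have := WT_mul cs h
        rwa [← mul_assoc, cs.simple_mul_simple_self, one_mul] at this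
    refine exit_core cs hgf (by omega) ?_ hum
      (by intro k hk; rw [Set.mem_singleton_iff] at hk; subst hk; exact hD) hf0 hz ?_
    · rcases hE with h | h
      · exact Or.inl h
      · exact Or.inr ⟨f, by simp, h⟩
    · intro s' t' l e1 hpair _ he hl hue
      exfalso
      apply huT
      rw [hue]
      refine small_WT cs hgf hpair hl (e_mem cs (E := E) ?_ he)
      rcases hE with h | h
      · rw [h]; exact Set.empty_subset _
      · rw [h]
  obtain ⟨a, ha, b, hb, c, hc, he⟩ := h3 p hp d hd hdE h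
  exact hNB a ha g (by simp) f (by simp) b hb c hc 1 (Subgroup.one_mem _) (by rw [he]; simp)

theorem gexitD [IsDomain R] (S1 : SD R q ε ε') (S2 : SD R q ε' ε) {f g : B} (hfg : f ≠ g)
    (hm : 4 ≤ M f g) {p : BraidGroup M} (hp : p ∈ BP M {f, g})
    (hNB : NBad M {f, g} {g} {f} p) {d : W →₀ R} (hd : d ≠ 0)
    (hdE : Supp (WP cs {g} : Set W) d) : ExitQ cs {f, g} {g} {f} (act cs q p d) := by
  by_contra hcon
  have h : Supp (WPP cs {f} {g}) (act cs q p d) := by
    intro w hw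
    by_contra hw2
    apply hcon
    have hwm := supp_act_WP cs q hp (hdE.mono (WP_mono cs (by simp))) w hw
    obtain ⟨u, hD, ⟨f0, hf0, hz⟩, hu⟩ := choose_min cs (f := f) hw
    have hum : u ∈ WP cs {f, g} := by
      rcases hu with rfl | rfl
      · exact hwm
      · exact Subgroup.mul_mem _ (simple_mem_WP cs (by simp)) hwm
    have huT : u ∉ WPP cs {f} {g} := by
      rcases hu with rfl | rfl
      · exact hw2
      · intro h
        apply hw2
        have := mul_mem_WPP cs (Set.mem_singleton f) h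
        rwa [← mul_assoc, cs.simple_mul_simple_self, one_mul] at this
    have hi : cs.simple f ∈ WP cs {f} := simple_mem_WP cs rfl
    have hj : cs.simple g ∈ WP cs {g} := simple_mem_WP cs rfl
    refine exit_core cs hfg (by omega) (Or.inr ⟨g, by simp, rfl⟩) hum
      (by intro k hk; rw [Set.mem_singleton_iff] at hk; subst hk; exact hD) hf0 hz ?_
    intro s' t' l e1 hpair hs' he hl hue
    have heg : e1 ∈ WP cs {g} := e_mem cs (subset_refl _) he
    have i1 : (sx cs s' t' true)⁻¹ = cs.simple s' := cs.inv_simple _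
    have hl2 : l = 2 := by
      by_contra hne
      apply huT
      have hl1 : l ≤ 1 := by omega
      interval_cases l
      · rw [hue, alt_zero, inv_one, one_mul]
        exact ⟨1, Subgroup.one_mem _, e1, heg, by simp⟩
      · rw [hue, alt_one, i1]
        rcases pair_eq hfg hpair with ⟨rfl, rfl⟩ | ⟨rfl, rfl⟩
        · exact ⟨_, hi, e1, heg, rfl⟩
        · exact absurd rfl (hs' le_rfl)
    refine ⟨hl2, ?_⟩
    rcases pair_eq hfg hpair with ⟨rfl, rfl⟩ | ⟨rfl, rfl⟩
    · exact ⟨rfl, fun h => hfg (Set.mem_singleton_iff.mp h).symm⟩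
    · exact absurd rfl (hs' (by omega))
  obtain ⟨a, ha, b, hb, he⟩ := pair_main cs S1 S2 hfg (by omega) hp hd hdE h
  exact hNB 1 (Subgroup.one_mem _) f (by simp) g (by simp) a ha b hb 1 (Subgroup.one_mem _)
    (by rw [he]; simp)

/-- the exit lemma -/
theorem gexit [IsDomain R] (S1 : SD R q ε ε') (S2 : SD R q ε' ε) {s t : B} (hst : s ≠ t)
    (hm : 4 ≤ M s t) (h3 : Q3 cs q s t) (h3' : Q3 cs q t s) {p : BraidGroup M}
    (hp : p ∈ BP M {s, t}) {E F : Set B}
    (hE : E ⊆ {s, t}) (hE' : ¬ {s, t} ⊆ E) (hF : F ⊆ {s, t}) (hF' : ¬ {s, t} ⊆ F)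
    (hNB : NBad M {s, t} E F p) {d : W →₀ R} (hd : d ≠ 0) (hdE : Supp (WP cs E : Set W) d) :
    ExitQ cs {s, t} E F (act cs q p d) := by
  have hm' : 4 ≤ M t s := by rw [M.symmetric]; exact hm
  have hcomm : ({t, s} : Set B) = {s, t} := Set.pair_comm t s
  rcases proper_sub hst hF hF' with rfl | rfl | rfl
  · rcases proper_sub hst hE hE' with rfl | rfl | rfl
    · exact gexitA cs S1 hst hm h3 hp hNB hd hdE
    · rw [← hcomm] at hp hNB ⊢
      exact gexitB cs hst.symm hm' h3' hp hNB hd hdE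
    · exact gexitB cs hst hm h3 hp hNB hd hdE
  · rcases proper_sub hst hE hE' with rfl | rfl | rfl
    · rw [← hcomm] at hp hNB ⊢
      exact gexitC cs hst.symm hm' h3' hp (Or.inl rfl) hNB hd
        (hdE.mono (WP_mono cs (Set.empty_subset _)))
    · rw [← hcomm] at hp hNB ⊢
      exact gexitC cs hst.symm hm' h3' hp (Or.inr rfl) hNB hd hdE
    · exact gexitD cs S1 S2 hst hm hp hNB hd hdE
  · rcases proper_sub hst hE hE' with rfl | rfl | rfl
    · exact gexitC cs hst hm h3 hp (Or.inl rfl) hNB hd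
        (hdE.mono (WP_mono cs (Set.empty_subset _)))
    · rw [← hcomm] at hp hNB ⊢
      exact gexitD cs S1 S2 hst.symm hm' hp hNB hd hdE
    · exact gexitC cs hst hm h3 hp (Or.inr rfl) hNB hd hdE

end gexit

end Pool.Agent.HeckeCox
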