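import Mathlib
import Pool.Agent.Lib_helper18.Hecke.GExit

set_option autoImplicit false

/-! Chains of pieces. -/

namespace Pool.Agent.HeckeCox

open CoxeterSystem
open scoped Classical

section gchain

universe u

/-- pieces of a chain -/
inductive Pie {B : Type u} (M : CoxeterMatrix B) : Type u
  | syl (r : B) (k : ℤ) : Pie M
  | long (s t : B) (p : BraidGroup M) : Pie M

variable {B : Type u} {M : CoxeterMatrix B}

/-- the type -/
def Pie.T : Pie M → Set B
  | .syl r _ => {r}
  | .long s t _ => {s, t}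

/-- the value -/
def Pie.val : Pie M → BraidGroup M
  | .syl r k => (PresentedGroup.of r : BraidGroup M) ^ k
  | .long _ _ p => p

/-- the cost -/
def Pie.cost : Pie M → ℕ
  | .syl _ _ => 2
  | .long _ _ _ => 5

/-- well-formed pieces -/
def Pie.wf (P : Set B) : Pie M → Prop
  | .syl r _ => r ∈ P
  | .long s t p => s ∈ P ∧ t ∈ P ∧ 3 ≤ M s t ∧ p ∈ BP M {s, t}

/-- the product; the head of the list is the innermost (rightmost) factor -/
def cval : List (Pie M) → BraidGroup M
  | [] => 1
  | p :: l => cval l * p.val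

/-- the cost -/
def ccost : List (Pie M) → ℕ
  | [] => 0
  | p :: l => ccost l + p.cost

/-- the types -/
def cty : List (Pie M) → List (Set B)
  | [] => []
  | p :: l => p.T :: cty l

/-- well-formed chains -/
def cwf (P : Set B) (l : List (Pie M)) : Prop := ∀ p ∈ l, p.wf P

theorem cval_append (l l' : List (Pie M)) : cval (l ++ l') = cval l' * cval l := by
  induction l with
  | nil => simp [cval]
  | cons p l ih => simp only [List.cons_append, cval]; rw [ih, mul_assoc]

theorem ccost_append (l l' : List (Pie M)) : ccost (l ++ l') = ccost l + ccost l' := by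
  induction l with
  | nil => simp [ccost]
  | cons p l ih => simp only [List.cons_append, ccost]; rw [ih]; omega

theorem cty_append (l l' : List (Pie M)) : cty (l ++ l') = cty l ++ cty l' := by
  induction l with
  | nil => rfl
  | cons p l ih => simp only [List.cons_append, cty]; rw [ih]

variable {P : Set B}

theorem cwf_append {l l' : List (Pie M)} : cwf P (l ++ l') ↔ cwf P l ∧ cwf P l' := by
  unfold cwf
  constructor
  · intro h
    exact ⟨fun p hp => h p (List.mem_append_left _ hp), fun p hp => h p (List.mem_append_right _ hp)⟩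
  · rintro ⟨h1, h2⟩ p hp
    rcases List.mem_append.mp hp with h | h
    · exact h1 p h
    · exact h2 p h

theorem cwf_cons {p : Pie M} {l : List (Pie M)} : cwf P (p :: l) ↔ p.wf P ∧ cwf P l := by
  unfold cwf
  simp

theorem Pie.val_mem {p : Pie M} (h : p.wf P) : p.val ∈ BP M p.T := by
  cases p with
  | syl r k => exact of_zpow_mem r k
  | long s t p => exact h.2.2.2

theorem Pie.T_sub {p : Pie M} (h : p.wf P) : p.T ⊆ P := by
  cases p with
  | syl r k => intro x hx; rw [Set.mem_singleton_iff.mp hx]; exact h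
  | long s t p =>
    rintro x (hx | hx)
    · rw [hx]; exact h.1
    · rw [Set.mem_singleton_iff.mp hx]; exact h.2.1

theorem Pie.mulL {p : Pie M} (h : p.wf P) {b : BraidGroup M} (hb : b ∈ BP M p.T) :
    ∃ p' : Pie M, p'.T = p.T ∧ p'.cost = p.cost ∧ p'.wf P ∧ p'.val = b * p.val := by
  cases p with
  | syl r k =>
    obtain ⟨j, rfl⟩ := mem_BP_singleton hb
    exact ⟨.syl r (j + k), rfl, rfl, h, by simp only [Pie.val]; rw [zpow_add]⟩
  | long s t p =>
    exact ⟨.long s t (b * p), rfl, rfl, ⟨h.1, h.2.1, h.2.2.1, Subgroup.mul_mem _ hb h.2.2.2⟩, rfl⟩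

theorem Pie.mulR {p : Pie M} (h : p.wf P) {b : BraidGroup M} (hb : b ∈ BP M p.T) :
    ∃ p' : Pie M, p'.T = p.T ∧ p'.cost = p.cost ∧ p'.wf P ∧ p'.val = p.val * b := by
  cases p with
  | syl r k =>
    obtain ⟨j, rfl⟩ := mem_BP_singleton hb
    exact ⟨.syl r (k + j), rfl, rfl, h, by simp only [Pie.val]; rw [zpow_add]⟩
  | long s t p =>
    exact ⟨.long s t (p * b), rfl, rfl, ⟨h.1, h.2.1, h.2.2.1, Subgroup.mul_mem _ h.2.2.2 hb⟩, rfl⟩

theorem BP_nx {T A : Set B} {g : BraidGroup M} (hg : g ∈ BP M (nx M T A)) :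
    ∃ x ∈ BP M T, ∃ y ∈ BP M {k | k ∈ A ∧ Cm M k T}, g = x * y := by
  have e : nx M T A = T ∪ {k | k ∈ A ∧ Cm M k T} := rfl
  rw [e] at hg
  exact BP_union_comm (fun a ha b hb => by rw [M.symmetric]; exact hb.2 a ha) hg

theorem absorbR {l : List (Pie M)} (hl : cwf P l) : ∀ {A : Set B} {g : BraidGroup M},
    g ∈ BP M (ctx M A (cty l)) → ∃ l' : List (Pie M), cty l' = cty l ∧ ccost l' = ccost l ∧
      cwf P l' ∧ ∃ b ∈ BP M A, g * cval l = cval l' * b := by
  induction l with
  | nil =>
    intro A g hg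
    exact ⟨[], rfl, rfl, hl, g, hg, by simp [cval]⟩
  | cons p l ih =>
    intro A g hg
    obtain ⟨hp, hl'⟩ := cwf_cons.mp hl
    obtain ⟨l', h1, h2, h3, b, hb, h4⟩ := ih hl' hg
    obtain ⟨x, hx, y, hy, rfl⟩ := BP_nx hb
    obtain ⟨p', q1, q2, q3, q4⟩ := Pie.mulL hp hx
    refine ⟨p' :: l', by simp only [cty]; rw [h1, q1], by simp only [ccost]; rw [h2, q2],
      cwf_cons.mpr ⟨q3, h3⟩, y, BP_mono (fun k hk => hk.1) hy, ?_⟩
    have hc : y * p.val = p.val * y :=
      (BP_comm (M := M) (P1 := p.T) (P2 := {k | k ∈ A ∧ Cm M k p.T})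
        (fun a ha b hb => by rw [M.symmetric]; exact hb.2 a ha) (Pie.val_mem hp) hy).symm
    simp only [cval]
    rw [q4, ← mul_assoc, h4]
    calc cval l' * (x * y) * p.val = cval l' * x * (y * p.val) := by group
      _ = cval l' * x * (p.val * y) := by rw [hc]
      _ = _ := by group

theorem absorbL {l : List (Pie M)} (hl : cwf P l) {N : Set B} : ∀ {g : BraidGroup M},
    g ∈ BP M (fut M (cty l) N) → ∃ l' : List (Pie M), cty l' = cty l ∧ ccost l' = ccost l ∧
      cwf P l' ∧ ∃ b ∈ BP M N, cval l * g = b * cval l' := by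
  induction l with
  | nil =>
    intro g hg
    exact ⟨[], rfl, rfl, hl, g, hg, by simp [cval]⟩
  | cons p l ih =>
    intro g hg
    obtain ⟨hp, hl'⟩ := cwf_cons.mp hl
    obtain ⟨x, hx, y, hy, rfl⟩ := BP_nx hg
    obtain ⟨l', h1, h2, h3, b, hb, h4⟩ := ih hl' (BP_mono (fun k hk => hk.1) hy)
    obtain ⟨p', q1, q2, q3, q4⟩ := Pie.mulR hp hx
    refine ⟨p' :: l', by simp only [cty]; rw [h1, q1], by simp only [ccost]; rw [h2, q2],
      cwf_cons.mpr ⟨q3, h3⟩, b, hb, ?_⟩
    have hc : p.val * x * y = y * (p.val * x) :=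
      (BP_comm (M := M) (P1 := p.T) (P2 := {k | k ∈ fut M (cty l) N ∧ Cm M k p.T})
        (fun a ha b hb => by rw [M.symmetric]; exact hb.2 a ha)
        (Subgroup.mul_mem _ (Pie.val_mem hp) hx) hy)
    simp only [cval]
    rw [q4]
    calc cval l * p.val * (x * y) = cval l * (p.val * x * y) := by group
      _ = cval l * (y * (p.val * x)) := by rw [hc]
      _ = (cval l * y) * (p.val * x) := by group
      _ = (b * cval l') * (p.val * x) := by rw [h4]
      _ = _ := by group

/-- minimal chains -/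
def MinL (P J N : Set B) (l : List (Pie M)) : Prop :=
  cwf P l ∧ ∀ l' : List (Pie M), cwf P l' → ∀ b ∈ BP M N, ∀ b' ∈ BP M J,
    cval l = b * cval l' * b' → ccost l ≤ ccost l'

variable {J N : Set B}

/-- replacing a middle piece by a product -/
theorem MinL.repl {l1 l2 : List (Pie M)} {p : Pie M} (h : MinL P J N (l1 ++ p :: l2))
    {f e v : BraidGroup M} (hf : f ∈ BP M (fut M (cty l2) N)) (he : e ∈ BP M (ctx M J (cty l1)))
    {m : List (Pie M)} (hm : cwf P m) (hv : v = cval m) (hp : p.val = f * v * e) :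
    p.cost ≤ ccost m := by
  obtain ⟨w1, w2⟩ := cwf_append.mp h.1
  obtain ⟨w3, w4⟩ := cwf_cons.mp w2
  obtain ⟨l1', a1, a2, a3, b, hb, a4⟩ := absorbR w1 he
  obtain ⟨l2', c1, c2, c3, b', hb', c4⟩ := absorbL w4 hf
  have := h.2 (l1' ++ (m ++ l2')) (cwf_append.mpr ⟨a3, cwf_append.mpr ⟨hm, c3⟩⟩) b' hb' b hb (by
    rw [cval_append, cval_append, cval_append]
    simp only [cval]
    rw [hp, hv]
    calc cval l2 * (f * cval m * e) * cval l1 = (cval l2 * f) * cval m * (e * cval l1) := by group
      _ = (b' * cval l2') * cval m * (cval l1' * b) := by rw [a4, c4]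
      _ = _ := by group)
  simp only [ccost_append, ccost] at this
  rw [a2, c2] at this
  omega

theorem Pie.cost_pos (p : Pie M) : 2 ≤ p.cost := by
  cases p <;> simp [Pie.cost]

theorem MinL.not_ctx {l1 l2 : List (Pie M)} {p : Pie M} (h : MinL P J N (l1 ++ p :: l2)) :
    ¬ p.T ⊆ ctx M J (cty l1) := by
  intro hs
  have hp : p.wf P := h.1 p (by simp)
  have := h.repl (f := 1) (e := p.val) (v := 1) (Subgroup.one_mem _)
    (BP_mono hs (Pie.val_mem hp)) (m := []) (by intro q hq; simp at hq) rfl (by simp)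
  have h2 := p.cost_pos
  simp only [ccost] at this
  omega

theorem MinL.not_fut {l1 l2 : List (Pie M)} {p : Pie M} (h : MinL P J N (l1 ++ p :: l2)) :
    ¬ p.T ⊆ fut M (cty l2) N := by
  intro hs
  have hp : p.wf P := h.1 p (by simp)
  have := h.repl (f := p.val) (e := 1) (v := 1) (BP_mono hs (Pie.val_mem hp))
    (Subgroup.one_mem _) (m := []) (by intro q hq; simp at hq) rfl (by simp)
  have h2 := p.cost_pos
  simp only [ccost] at this
  omega

theorem MinL.k_ne {l1 l2 : List (Pie M)} {r : B} {k : ℤ}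
    (h : MinL P J N (l1 ++ (Pie.syl r k) :: l2)) : k ≠ 0 := by
  rintro rfl
  have := h.repl (f := 1) (e := 1) (v := 1) (Subgroup.one_mem _)
    (Subgroup.one_mem _) (m := []) (by intro q hq; simp at hq) rfl (by simp [Pie.val])
  simp [ccost, Pie.cost] at this

theorem MinL.nbad {l1 l2 : List (Pie M)} {s t : B} {p : BraidGroup M}
    (h : MinL P J N (l1 ++ (Pie.long s t p) :: l2)) :
    NBad M {s, t} ({s, t} ∩ ctx M J (cty l1)) ({s, t} ∩ fut M (cty l2) N) p := by
  intro n hn x hx y hy a ha b hb d hd he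
  have hp : (Pie.long s t p).wf P := h.1 _ (by simp)
  have hP : ∀ z ∈ ({s, t} : Set B), z ∈ P := Pie.T_sub hp
  obtain ⟨i, rfl⟩ := mem_BP_singleton ha
  obtain ⟨j, rfl⟩ := mem_BP_singleton hb
  have := h.repl (f := n) (e := d) (BP_mono Set.inter_subset_right hn)
    (BP_mono Set.inter_subset_right hd) (m := [Pie.syl y j, Pie.syl x i])
    (by
      intro q hq
      rcases List.mem_cons.mp hq with rfl | hq
      · exact hP y hy
      · rw [List.mem_singleton] at hq; subst hq; exact hP x hx) rfl (by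
      simp only [Pie.val, cval, one_mul]
      rw [he]; group)
  simp [ccost, Pie.cost] at this

theorem comm_cval {r : B} {l : List (Pie M)} (hl : cwf P l) (h : ∀ T ∈ cty l, Cm M r T) (k : ℤ) :
    cval l * (PresentedGroup.of r : BraidGroup M) ^ k =
      (PresentedGroup.of r : BraidGroup M) ^ k * cval l := by
  induction l with
  | nil => simp [cval]
  | cons p l ih =>
    obtain ⟨hp, hl'⟩ := cwf_cons.mp hl
    have h1 := ih hl' (fun T hT => h T (List.mem_cons_of_mem _ hT))
    have h2 : p.val * (PresentedGroup.of r : BraidGroup M) ^ k =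
        (PresentedGroup.of r : BraidGroup M) ^ k * p.val :=
      BP_comm (M := M) (P1 := p.T) (P2 := {r}) (fun a ha b hb => by
        rw [Set.mem_singleton_iff] at hb; subst hb
        rw [M.symmetric]; exact h p.T List.mem_cons_self a ha) (Pie.val_mem hp) (of_zpow_mem r k)
    simp only [cval]
    rw [mul_assoc, h2, ← mul_assoc, h1, mul_assoc]

theorem cty_split {l : List (Pie M)} : ∀ {X Y : List (Set B)} {T : Set B},
    cty l = X ++ T :: Y → ∃ (l1 l2 : List (Pie M)) (p : Pie M), l = l1 ++ p :: l2 ∧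
      cty l1 = X ∧ p.T = T ∧ cty l2 = Y := by
  induction l with
  | nil =>
    intro X Y T h
    exfalso
    have := congrArg List.length h
    simp [cty] at this
  | cons p l ih =>
    intro X Y T h
    match X, h with
    | [], h =>
      simp only [cty, List.nil_append, List.cons.injEq] at h
      exact ⟨[], l, p, rfl, rfl, h.1, h.2⟩
    | T' :: X, h =>
      simp only [cty, List.cons_append, List.cons.injEq] at h
      obtain ⟨l1, l2, p', h1, h2, h3, h4⟩ := ih h.2
      exact ⟨p :: l1, l2, p', by rw [h1]; rfl, by simp only [cty]; rw [h2, h.1], h3, h4⟩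

theorem Pie.syl_of_T {p : Pie M} (hp : p.wf P) {r : B} (h : p.T = {r}) :
    ∃ k, p = Pie.syl r k := by
  cases p with
  | syl r' k =>
    have : r' = r := by
      have h1 : r' ∈ ({r'} : Set B) := rfl
      change ({r'} : Set B) = {r} at h
      rw [h] at h1
      exact h1
    exact ⟨k, by rw [this]⟩
  | long s t p =>
    exfalso
    change ({s, t} : Set B) = {r} at h
    have h1 : s ∈ ({r} : Set B) := by rw [← h]; simp
    have h2 : t ∈ ({r} : Set B) := by rw [← h]; simp
    rw [Set.mem_singleton_iff] at h1 h2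
    have h3 := hp.2.2.1
    rw [h1, h2, M.diagonal] at h3
    omega

theorem MinL.noPat {l : List (Pie M)} (h : MinL P J N l) : NoPat M (cty l) := by
  intro X Y Z U r k he hrk hY hZ
  obtain ⟨lX, l1, p1, e1, e2, e3, e4⟩ := cty_split he
  obtain ⟨lY, l2, p2, f1, f2, f3, f4⟩ := cty_split e4
  obtain ⟨lZ, lU, p3, g1, g2, g3, g4⟩ := cty_split f4
  subst g1
  subst f1
  subst e1
  have hw := h.1
  simp only [cwf_append, cwf_cons] at hw
  obtain ⟨wX, w1, wY, w2, wZ, w3, wU⟩ := hw
  obtain ⟨a, rfl⟩ := Pie.syl_of_T w1 e3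
  obtain ⟨b, rfl⟩ := Pie.syl_of_T w2 f3
  obtain ⟨c, rfl⟩ := Pie.syl_of_T w3 g3
  have cY := comm_cval wY (r := r) (by rw [f2]; exact fun T hT => (hY T hT).2)
  have cZ := comm_cval wZ (r := r) (by rw [g2]; exact fun T hT => (hZ T hT).2)
  have cZk := comm_cval wZ (r := k) (by rw [g2]; exact fun T hT => (hZ T hT).1)
  have m1 : (PresentedGroup.of r : BraidGroup M) ∈ BP M {r, k} := of_mem_BP (by simp)
  have m2 : (PresentedGroup.of k : BraidGroup M) ∈ BP M {r, k} := of_mem_BP (by simp)
  set R := (PresentedGroup.of r : BraidGroup M)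
  set K := (PresentedGroup.of k : BraidGroup M)
  have := h.2 (lX ++ (lY ++ (lZ ++ Pie.long r k (R ^ c * K ^ b * R ^ a) :: lU))) (by
      simp only [cwf_append, cwf_cons]
      exact ⟨wX, wY, wZ, ⟨w1, w2, hrk, Subgroup.mul_mem _ (Subgroup.mul_mem _
        (Subgroup.zpow_mem _ m1 _) (Subgroup.zpow_mem _ m2 _)) (Subgroup.zpow_mem _ m1 _)⟩, wU⟩)
    1 (Subgroup.one_mem _) 1 (Subgroup.one_mem _) (by
      simp only [cval_append, cval, Pie.val, one_mul, mul_one]
      calc cval lU * R ^ c * cval lZ * K ^ b * cval lY * R ^ a * cval lX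
          = cval lU * R ^ c * (cval lZ * K ^ b) * (cval lY * R ^ a) * cval lX := by group
        _ = cval lU * R ^ c * (K ^ b * cval lZ) * (R ^ a * cval lY) * cval lX := by
            rw [cZk, cY]
        _ = cval lU * R ^ c * K ^ b * (cval lZ * R ^ a) * cval lY * cval lX := by group
        _ = cval lU * R ^ c * K ^ b * (R ^ a * cval lZ) * cval lY * cval lX := by rw [cZ]
        _ = _ := by group)
  simp only [ccost_append, ccost, Pie.cost] at this
  omega

theorem exists_chainL {g : BraidGroup M} (hg : g ∈ BP M P) :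
    ∃ l : List (Pie M), cwf P l ∧ g = cval l := by
  unfold BP at hg
  induction hg using Subgroup.closure_induction_left with
  | one => exact ⟨[], by intro q hq; simp at hq, rfl⟩
  | mul_left y hy z hz ih =>
    obtain ⟨i, hi, rfl⟩ := hy
    obtain ⟨C, hC, rfl⟩ := ih
    refine ⟨C ++ [Pie.syl i 1], cwf_append.mpr ⟨hC, ?_⟩, ?_⟩
    · intro q hq; rw [List.mem_singleton] at hq; subst hq; exact hi
    · rw [cval_append]; simp [cval, Pie.val]
  | inv_mul_cancel y hy z hz ih =>
    obtain ⟨i, hi, rfl⟩ := hy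
    obtain ⟨C, hC, rfl⟩ := ih
    refine ⟨C ++ [Pie.syl i (-1)], cwf_append.mpr ⟨hC, ?_⟩, ?_⟩
    · intro q hq; rw [List.mem_singleton] at hq; subst hq; exact hi
    · rw [cval_append]; simp [cval, Pie.val]

end gchain

end Pool.Agent.HeckeCox
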