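import Mathlib

set_option autoImplicit false

/-! A rigidity property of Laurent polynomials. -/

namespace Pool.Agent.HeckeCox

open LaurentPolynomial
open scoped Classical

section rig

theorem coeff_mul_invert (f g : LaurentPolynomial ℤ) (d : ℤ) :
    (f * invert g).coeff d = g.coeff.sum (fun k y => f.coeff (k + d) * y) := by
  induction g using LaurentPolynomial.induction_on' with
  | add p q hp hq =>
    rw [map_add, mul_add, AddMonoidAlgebra.coeff_add, Finsupp.add_apply, hp, hq,
      AddMonoidAlgebra.coeff_add, Finsupp.sum_add_index']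
    · intro a; rw [mul_zero]
    · intro a b c; rw [mul_add]
  | C_mul_T n a =>
    rw [map_mul, invert_C, invert_T, ← single_eq_C_mul_T, ← single_eq_C_mul_T,
      AddMonoidAlgebra.coeff_mul_single_apply, AddMonoidAlgebra.coeff_single,
      Finsupp.sum_single_index (by rw [mul_zero])]
    congr 2
    ring

/-- the alternating sign on even integers -/
def sgn (k : ℤ) : ℤ := if Even k then ((k / 2).negOnePow : ℤ) else 0

theorem sgn_even (k : ℤ) : sgn (2 * k) = (k.negOnePow : ℤ) := by
  rw [sgn, if_pos (even_two_mul k)]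
  congr 2
  omega

theorem sgn_odd {k : ℤ} (h : ¬ Even k) : sgn k = 0 := by rw [sgn, if_neg h]

theorem sgn_add_two (k : ℤ) : sgn (k + 2) = -sgn k := by
  by_cases h : Even k
  · obtain ⟨l, hl⟩ := h
    have h1 : k = 2 * l := by omega
    have h2 : k + 2 = 2 * (l + 1) := by omega
    rw [h2, h1, sgn_even, sgn_even, Int.negOnePow_succ]
    simp
  · rw [sgn_odd h, sgn_odd, neg_zero]
    intro h2
    apply h
    obtain ⟨l, hl⟩ := h2
    exact ⟨l - 1, by omega⟩

theorem sgn_sq {k : ℤ} (h : Even k) : sgn k * sgn k = 1 := by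
  obtain ⟨l, hl⟩ := h
  have h1 : k = 2 * l := by omega
  rw [h1, sgn_even]
  rcases Int.even_or_odd l with h2 | h2
  · rw [Int.negOnePow_even _ h2]; norm_num
  · rw [Int.negOnePow_odd _ h2]; norm_num

/-- the functional killing the multiples of `T + T⁻¹` -/
noncomputable def Phi0 (f : LaurentPolynomial ℤ) : ℤ := f.coeff.sum (fun k y => y * sgn k)

theorem Phi0_add (f g : LaurentPolynomial ℤ) : Phi0 (f + g) = Phi0 f + Phi0 g := by
  unfold Phi0
  rw [AddMonoidAlgebra.coeff_add, Finsupp.sum_add_index']
  · intro a; rw [zero_mul]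
  · intro a b c; rw [add_mul]

theorem Phi0_mono (a : ℤ) (n : ℤ) : Phi0 (C a * T n) = a * sgn n := by
  unfold Phi0
  rw [← single_eq_C_mul_T, AddMonoidAlgebra.coeff_single, Finsupp.sum_single_index (by rw [zero_mul])]

theorem Phi0_zero : Phi0 0 = 0 := by
  unfold Phi0
  simp

theorem Phi0_sub (f g : LaurentPolynomial ℤ) : Phi0 (f - g) = Phi0 f - Phi0 g := by
  have := Phi0_add (f - g) g
  rw [sub_add_cancel] at this
  omega

theorem Phi0_del (g : LaurentPolynomial ℤ) : Phi0 ((T 1 + T (-1)) * g) = 0 := by
  induction g using LaurentPolynomial.induction_on' with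
  | add p q hp hq => rw [mul_add, Phi0_add, hp, hq, add_zero]
  | C_mul_T n a =>
    have e : (T 1 + T (-1) : LaurentPolynomial ℤ) * (C a * T n) =
        C a * T (n - 1 + 2) + C a * T (n - 1) := by
      have e1 : (T (n - 1 + 2) : LaurentPolynomial ℤ) = T 1 * T n := by
        rw [← T_add]; congr 1; ring
      have e2 : (T (n - 1) : LaurentPolynomial ℤ) = T (-1) * T n := by
        rw [← T_add]; congr 1; ring
      rw [e1, e2]; ring
    rw [e, Phi0_add, Phi0_mono, Phi0_mono, sgn_add_two]
    ring

/-- the alternating sum -/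
noncomputable def al (n : ℕ) : LaurentPolynomial ℤ :=
  ∑ l ∈ Finset.range n, C ((-1) ^ l) * T (2 * (l : ℤ))

theorem coeff_sum' {ι : Type*} (s : Finset ι) (f : ι → LaurentPolynomial ℤ) (k : ℤ) :
    (∑ l ∈ s, f l).coeff k = ∑ l ∈ s, (f l).coeff k := by
  induction s using Finset.induction_on with
  | empty => simp
  | insert a s ha ih =>
    rw [Finset.sum_insert ha, Finset.sum_insert ha, AddMonoidAlgebra.coeff_add,
      Finsupp.add_apply, ih]

theorem coeff_mono (a n k : ℤ) : (C a * T n : LaurentPolynomial ℤ).coeff k =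
    if n = k then a else 0 := by
  rw [← single_eq_C_mul_T, AddMonoidAlgebra.coeff_single, Finsupp.single_apply]

theorem al_big {n : ℕ} {k : ℤ} (h : 2 * (n : ℤ) - 2 < k) : (al n).coeff k = 0 := by
  unfold al
  rw [coeff_sum']
  apply Finset.sum_eq_zero
  intro l hl
  rw [Finset.mem_range] at hl
  rw [coeff_mono, if_neg]
  omega

theorem al_even {n l : ℕ} (h : l < n) : (al n).coeff (2 * (l : ℤ)) = (-1) ^ l := by
  unfold al
  rw [coeff_sum', Finset.sum_eq_single l]
  · rw [coeff_mono, if_pos rfl]
  · intro m _ hm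
    rw [coeff_mono, if_neg]
    omega
  · intro h'
    exact absurd (Finset.mem_range.mpr h) h'

theorem negOnePow_nat (l : ℕ) : (((l : ℤ).negOnePow : ℤˣ) : ℤ) = (-1) ^ l := by
  rw [Int.negOnePow]
  simp

theorem Phi0_al (n : ℕ) : Phi0 (al n) = n := by
  unfold al
  have : ∀ s : Finset ℕ, Phi0 (∑ l ∈ s, C ((-1) ^ l) * T (2 * (l : ℤ))) = s.card := by
    intro s
    induction s using Finset.induction_on with
    | empty => simp [Phi0_zero]
    | insert a s ha ih =>
      rw [Finset.sum_insert ha, Phi0_add, ih, Phi0_mono, sgn_even, negOnePow_nat,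
        Finset.card_insert_of_notMem ha, ← mul_pow]
      norm_num
      ring
  rw [this, Finset.card_range]

theorem mul_inv_al (n : ℕ) (f : LaurentPolynomial ℤ) (d : ℤ) :
    (f * invert (al n)).coeff d = ∑ l ∈ Finset.range n, f.coeff (2 * (l : ℤ) + d) * (-1) ^ l := by
  unfold al
  rw [map_sum, Finset.mul_sum, coeff_sum']
  apply Finset.sum_congr rfl
  intro l _
  rw [map_mul, invert_C, invert_T, ← single_eq_C_mul_T, AddMonoidAlgebra.coeff_mul_single_apply]
  congr 2
  ring

theorem rigid0 {n : ℕ} (hn : 0 < n) {β γ : LaurentPolynomial ℤ}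
    (h1 : β = al n - (T 1 + T (-1)) * γ) (h2 : β * invert β = al n * invert (al n)) :
    ∃ m : ℤ, β = C (m.negOnePow : ℤ) * T (2 * m) * al n := by
  set b := β.coeff with hb
  have e0 : b.sum (fun k y => b (k + 0) * y) = n := by
    rw [← coeff_mul_invert, h2, mul_inv_al]
    have : ∀ l ∈ Finset.range n, (al n).coeff (2 * (l : ℤ) + 0) * (-1) ^ l = 1 := by
      intro l hl
      rw [add_zero, al_even (Finset.mem_range.mp hl), ← mul_pow]
      norm_num
    rw [Finset.sum_congr rfl this]
    simp
  have e1 : b.sum (fun k y => y * sgn k) = n := by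
    have : Phi0 β = n := by
      rw [h1, Phi0_sub, Phi0_del, Phi0_al, sub_zero]
    exact this
  have e2 : ∑ k ∈ b.support, (b k * b k - b k * sgn k) = 0 := by
    rw [Finset.sum_sub_distrib]
    have a1 : ∑ k ∈ b.support, b k * b k = n := by
      rw [← e0, Finsupp.sum]
      apply Finset.sum_congr rfl
      intro k _
      rw [add_zero]
    have a2 : ∑ k ∈ b.support, b k * sgn k = n := by
      rw [← e1, Finsupp.sum]
    rw [a1, a2, sub_self]
  have hsg : ∀ k, sgn k = 0 ∨ sgn k = 1 ∨ sgn k = -1 := by
    intro k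
    by_cases h : Even k
    · right
      have := sgn_sq h
      rcases mul_self_eq_one_iff.mp this with h | h
      · exact Or.inl h
      · exact Or.inr h
    · left; exact sgn_odd h
  have e3 : ∀ k ∈ b.support, b k * b k - b k * sgn k = 0 := by
    rw [Finset.sum_eq_zero_iff_of_nonneg] at e2
    · exact e2
    · intro k _
      rcases hsg k with h | h | h
      · rw [h]; nlinarith [mul_self_nonneg (b k)]
      · rw [h]
        rcases le_or_gt (b k) 0 with h3 | h3
        · nlinarith [mul_self_nonneg (b k)]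
        · nlinarith
      · rw [h]
        rcases le_or_gt 0 (b k) with h3 | h3
        · nlinarith [mul_self_nonneg (b k)]
        · nlinarith
  have e4 : ∀ k ∈ b.support, b k = sgn k ∧ Even k := by
    intro k hk
    have hne : b k ≠ 0 := Finsupp.mem_support_iff.mp hk
    have h3 := e3 k hk
    have h4 : b k * (b k - sgn k) = 0 := by rw [← h3]; ring
    have h5 : b k = sgn k := by
      rcases mul_eq_zero.mp h4 with h | h
      · exact absurd h hne
      · omega
    refine ⟨h5, ?_⟩
    by_contra h6
    rw [sgn_odd h6] at h5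
    exact hne h5
  have hcard : b.support.card = n := by
    have a1 : ∑ k ∈ b.support, b k * b k = n := by
      rw [← e0, Finsupp.sum]
      apply Finset.sum_congr rfl
      intro k _
      rw [add_zero]
    have a2 : ∀ k ∈ b.support, b k * b k = 1 := by
      intro k hk
      rw [(e4 k hk).1]
      exact sgn_sq (e4 k hk).2
    rw [Finset.sum_congr rfl a2] at a1
    simp at a1
    exact_mod_cast a1
  have hne : b.support.Nonempty := by
    rw [← Finset.card_pos, hcard]; exact hn
  set m0 := b.support.min' hne with hm0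
  set m1 := b.support.max' hne with hm1
  have m0S : m0 ∈ b.support := Finset.min'_mem _ _
  have m1S : m1 ∈ b.support := Finset.max'_mem _ _
  have hle : ∀ k ∈ b.support, m0 ≤ k ∧ k ≤ m1 := fun k hk =>
    ⟨Finset.min'_le _ _ hk, Finset.le_max' _ _ hk⟩
  have hD : m1 - m0 ≤ 2 * (n : ℤ) - 2 := by
    by_contra hcon
    push Not at hcon
    have h3 : (β * invert β).coeff (m1 - m0) = 0 := by
      rw [h2, mul_inv_al]
      apply Finset.sum_eq_zero
      intro l _
      rw [al_big (by omega), zero_mul]
    rw [coeff_mul_invert, Finsupp.sum, Finset.sum_eq_single m0] at h3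
    · have h4 : m0 + (m1 - m0) = m1 := by ring
      rw [h4] at h3
      rcases mul_eq_zero.mp h3 with h5 | h5
      · exact Finsupp.mem_support_iff.mp m1S h5
      · exact Finsupp.mem_support_iff.mp m0S h5
    · intro k hk hkm
      have h5 : β.coeff (k + (m1 - m0)) = 0 := by
        by_contra h6
        have h7 := (hle _ (Finsupp.mem_support_iff.mpr h6)).2
        have h8 := (hle k hk).1
        omega
      rw [h5, zero_mul]
    · intro h; exact absurd m0S h
  obtain ⟨m, hm⟩ := (e4 m0 m0S).2
  have hm2 : m0 = 2 * m := by omega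
  have hSsub : b.support ⊆ (Finset.range n).image (fun l : ℕ => m0 + 2 * (l : ℤ)) := by
    intro k hk
    obtain ⟨k1, k2⟩ := hle k hk
    obtain ⟨k', hk'⟩ := (e4 k hk).2
    rw [Finset.mem_image]
    refine ⟨(k' - m).toNat, ?_, ?_⟩
    · rw [Finset.mem_range]
      omega
    · rw [Int.toNat_of_nonneg (by omega)]
      omega
  have hSeq : b.support = (Finset.range n).image (fun l : ℕ => m0 + 2 * (l : ℤ)) := by
    apply Finset.eq_of_subset_of_card_le hSsub
    rw [hcard]
    exact le_trans Finset.card_image_le (by rw [Finset.card_range])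
  refine ⟨m, ?_⟩
  apply LaurentPolynomial.ext
  intro k
  have e5 : C (m.negOnePow : ℤ) * T (2 * m) * al n =
      ∑ l ∈ Finset.range n, C (sgn (m0 + 2 * (l : ℤ))) * T (m0 + 2 * (l : ℤ)) := by
    unfold al
    rw [Finset.mul_sum]
    apply Finset.sum_congr rfl
    intro l _
    have a1 : m0 + 2 * (l : ℤ) = 2 * (m + l) := by omega
    rw [a1, sgn_even, Int.negOnePow_add]
    have a2 : (T (2 * (m + l)) : LaurentPolynomial ℤ) = T (2 * m) * T (2 * (l : ℤ)) := by
      rw [← T_add]; congr 1; ring
    rw [a2, Units.val_mul, map_mul, negOnePow_nat]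
    ring
  rw [e5, coeff_sum']
  by_cases hk : k ∈ b.support
  · have hk' := hk
    rw [hSeq, Finset.mem_image] at hk'
    obtain ⟨l, hl, hlk⟩ := hk'
    rw [Finset.sum_eq_single l]
    · rw [coeff_mono, if_pos hlk, hlk]
      exact (e4 k hk).1
    · intro l' _ hl'
      rw [coeff_mono, if_neg]
      omega
    · intro h; exact absurd hl h
  · have h3 : β.coeff k = 0 := by
      by_contra h4; exact hk (Finsupp.mem_support_iff.mpr h4)
    rw [h3]
    symm
    apply Finset.sum_eq_zero
    intro l hl
    rw [coeff_mono, if_neg]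
    intro h4
    apply hk
    rw [hSeq, Finset.mem_image]
    exact ⟨l, hl, h4⟩

end rig

end Pool.Agent.HeckeCox
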