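import Mathlib
import Pool.Agent.Lib_helper18.Hecke.GRig
import Pool.Agent.Lib_helper18.Hecke.GExit
import Pool.Agent.Lib_helper18.Hecke.Inj

set_option autoImplicit false

/-! The three factor property for dihedral groups with label four. -/

namespace Pool.Agent.HeckeCox

open CoxeterSystem LaurentPolynomial
open scoped Classical

section ident

variable {R : Type*} [CommRing R]

/-- the quadratic invariant; capital letters are the conjugates -/
def NF4 (e f a b c d A B C D : R) : R :=
  ((e - f) * (a + f * d) - (e + f) * f * (b + e * c)) *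
    ((e - f) * (A - e * D) - (e + f) * e * (B - f * C)) +
    2 * (e ^ 2 + f ^ 2) * ((b + f * c) * (B - e * C))

theorem NF4_j (e f a b c d A B C D : R) (hp : e * f = -1) :
    NF4 e f (e * a) c (b + (e + f) * c) (e * d) (-f * A) C (B - (e + f) * C) (-f * D) =
      NF4 e f a b c d A B C D := by
  unfold NF4
  linear_combination (2 * f^2 * c * C + (-2) * f^2 * b * B + (-1) * f^2 * a * A + (-1) * f^3 * d * A +
    (-2) * f^3 * c * B + 2 * f^3 * b * C + (-1) * f^3 * b * A + 2 * f^4 * c * C +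
    (-1) * f^4 * c * A + 2 * e * f * a * A + 2 * e * f^2 * d * A + (-2) * e * f^2 * c * B +
    2 * e * f^2 * b * C + 1 * e * f^2 * a * D + (-1) * e * f^2 * a * B + 1 * e * f^3 * d * D +
    (-1) * e * f^3 * d * B + 5 * e * f^3 * c * C + (-1) * e * f^3 * c * A +
    1 * e * f^3 * b * D + (-1) * e * f^3 * b * B + 1 * e * f^3 * a * C + 1 * e * f^4 * d * C +
    1 * e * f^4 * c * D + (-1) * e * f^4 * c * B + 1 * e * f^4 * b * C + 1 * e * f^5 * c * C +
    2 * e^2 * c * C + (-2) * e^2 * b * B + (-1) * e^2 * a * A + (-1) * e^2 * f * d * A +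
    (-2) * e^2 * f * c * B + 2 * e^2 * f * b * C + 1 * e^2 * f * b * A +
    (-2) * e^2 * f * a * D + (-2) * e^2 * f^2 * d * D + 6 * e^2 * f^2 * c * C +
    1 * e^2 * f^2 * c * A + (-2) * e^2 * f^2 * b * B + 1 * e^2 * f^2 * a * C +
    1 * e^2 * f^3 * d * C + 1 * e^2 * f^3 * c * D + (-3) * e^2 * f^3 * c * B +
    3 * e^2 * f^3 * b * C + 4 * e^2 * f^4 * c * C + (-2) * e^3 * c * B + 2 * e^3 * b * C +
    1 * e^3 * a * D + 1 * e^3 * a * B + 1 * e^3 * f * d * D + 1 * e^3 * f * d * B +
    5 * e^3 * f * c * C + 1 * e^3 * f * c * A + (-1) * e^3 * f * b * D +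
    (-1) * e^3 * f * b * B + (-1) * e^3 * f * a * C + (-1) * e^3 * f^2 * d * C +
    (-1) * e^3 * f^2 * c * D + (-3) * e^3 * f^2 * c * B + 3 * e^3 * f^2 * b * C +
    6 * e^3 * f^3 * c * C + 2 * e^4 * c * C + (-1) * e^4 * a * C + (-1) * e^4 * f * d * C +
    (-1) * e^4 * f * c * D + (-1) * e^4 * f * c * B + 1 * e^4 * f * b * C +
    4 * e^4 * f^2 * c * C + 1 * e^5 * f * c * C) * hp

theorem NF4_i (e f a b c d A B C D : R) (hp : e * f = -1) :
    NF4 e f b (a + (e + f) * b) d (c + (e + f) * d) B (A - (e + f) * B) D (C - (e + f) * D) =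
      NF4 e f a b c d A B C D := by
  unfold NF4
  linear_combination ((-1) * f^2 * b * B + 1 * f^2 * a * A + 1 * f^3 * d * A + (-1) * f^3 * c * B +
    1 * f^3 * b * A + (-1) * f^3 * a * B + (-1) * f^4 * d * B + (-1) * f^4 * b * B +
    (-2) * e * f * b * B + 2 * e * f * a * A + 2 * e * f^2 * d * A + (-2) * e * f^2 * c * B +
    1 * e * f^2 * b * C + 3 * e * f^2 * b * A + (-1) * e * f^2 * a * D +
    (-3) * e * f^2 * a * B + (-1) * e * f^3 * d * D + (-3) * e * f^3 * d * B +
    1 * e * f^3 * c * C + (-1) * e * f^3 * b * D + (-4) * e * f^3 * b * B + (-1) * e^2 * b * B +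
    1 * e^2 * a * A + 1 * e^2 * f * d * A + (-1) * e^2 * f * c * B + 2 * e^2 * f * b * C +
    3 * e^2 * f * b * A + (-2) * e^2 * f * a * D + (-3) * e^2 * f * a * B +
    (-2) * e^2 * f^2 * d * D + (-3) * e^2 * f^2 * d * B + 2 * e^2 * f^2 * c * C +
    (-3) * e^2 * f^2 * b * D + (-6) * e^2 * f^2 * b * B + 1 * e^3 * b * C + 1 * e^3 * b * A +
    (-1) * e^3 * a * D + (-1) * e^3 * a * B + (-1) * e^3 * f * d * D + (-1) * e^3 * f * d * B +
    1 * e^3 * f * c * C + (-3) * e^3 * f * b * D + (-4) * e^3 * f * b * B + (-1) * e^4 * b * D +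
    (-1) * e^4 * b * B) * hp

theorem NF4_val (e f a b A B : R) (hp : e * f = -1) (h1 : (a + e * b) * (A - f * B) = 1)
    (h2 : (a + f * b) * (A - e * B) = 1) :
    ((e - f) * a - (e + f) * f * b) * ((e - f) * A - (e + f) * e * B) +
      2 * (e ^ 2 + f ^ 2) * (b * B) = (e - f) ^ 2 := by
  linear_combination ((-2) * a * A + 2 * f * a * B + 2 * f^2 * b * B + (-2) * e * b * A + 2 * e * f * b * B +
    2 * e^2 * b * B) * hp + 2 * h1 + (e ^ 2 + f ^ 2) * h2 + 2 * hp

end ident

section coords4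

variable {B W : Type*} [Group W] {M : CoxeterMatrix B} (cs : CoxeterSystem M W)
variable {R : Type*} [CommRing R] {q ε ε' : R}

theorem alt4 {i j : B} (hm : M i j = 4) :
    cs.simple j * (cs.simple i * (cs.simple j * cs.simple i)) =
      cs.simple i * (cs.simple j * (cs.simple i * cs.simple j)) := by
  have h := alt_sx_braid cs i j false
  rw [hm] at h
  have e1 : alt (sx cs i j) false 4 =
      cs.simple j * (cs.simple i * (cs.simple j * cs.simple i)) := by
    simp [alt_succ, sx, pr]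
  have e2 : alt (sx cs i j) (!false) 4 =
      cs.simple i * (cs.simple j * (cs.simple i * cs.simple j)) := by
    simp [alt_succ, sx, pr]
  rw [← e1, ← e2]; exact h

theorem D4 {i j : B} (hij : i ≠ j) (hm : M i j = 4) :
    D cs (cs.simple i) (cs.simple j) = 0 ∧ D cs (cs.simple i) (cs.simple i) = 1 ∧
    D cs (cs.simple j * cs.simple i) (cs.simple i) = 0 ∧
    D cs (cs.simple j * cs.simple i) (cs.simple j) = 1 ∧
    D cs (cs.simple i * (cs.simple j * cs.simple i)) (cs.simple j) = 0 ∧
    D cs (cs.simple i * (cs.simple j * cs.simple i)) (cs.simple i) = 1 := by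
  have a2 : alt (sx cs i j) false 2 = cs.simple j * cs.simple i := by
    simp [alt_succ, sx, pr]
  have a3 : alt (sx cs i j) true 3 = cs.simple i * (cs.simple j * cs.simple i) := by
    simp [alt_succ, sx, pr]
  refine ⟨?_, ?_, ?_, ?_, ?_, ?_⟩
  · rw [D_simple, if_neg (simple_ne cs hij.symm)]
  · rw [D_simple, if_pos rfl]
  · rw [← a2]; exact D_alt_not cs hij false (Or.inr (by omega))
  · rw [← a2]; exact D_alt_self cs hij false (by norm_num) (Or.inr (by omega))
  · rw [← a3]; exact D_alt_not cs hij true (Or.inr (by omega))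
  · rw [← a3]; exact D_alt_self cs hij true (by norm_num) (Or.inr (by omega))

theorem Lj_laws {i j : B} (hij : i ≠ j) (hm : M i j = 4) {y : W →₀ R}
    (hy : Rop cs q j y = ε • y) :
    Lop cs q j y 1 = ε * y 1 ∧ Lop cs q j y (cs.simple i) = y (cs.simple j * cs.simple i) ∧
    Lop cs q j y (cs.simple j * cs.simple i) =
      y (cs.simple i) + q * y (cs.simple j * cs.simple i) ∧
    Lop cs q j y (cs.simple i * (cs.simple j * cs.simple i)) =
      ε * y (cs.simple i * (cs.simple j * cs.simple i)) := by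
  obtain ⟨d1, d2, d3, d4, d5, d6⟩ := D4 cs hij hm
  refine ⟨?_, ?_, ?_, ?_⟩
  · have h := DFunLike.congr_fun hy 1
    rw [Rop_apply, Finsupp.smul_apply, smul_eq_mul, one_mul, inv_one, D_one,
      if_neg (by decide), zero_mul, add_zero] at h
    rw [Lop_apply, D_one, if_neg (by decide), zero_mul, add_zero, mul_one, h]
  · rw [Lop_apply, d1, if_neg (by decide), zero_mul, add_zero]
  · rw [Lop_apply, d4, if_pos rfl, ← mul_assoc, cs.simple_mul_simple_self, one_mul]
  · have h := DFunLike.congr_fun hy (cs.simple i * (cs.simple j * cs.simple i))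
    have e1 : (cs.simple i * (cs.simple j * cs.simple i))⁻¹ =
        cs.simple i * (cs.simple j * cs.simple i) := by
      rw [mul_inv_rev, mul_inv_rev, cs.inv_simple, cs.inv_simple, mul_assoc]
    rw [Rop_apply, Finsupp.smul_apply, smul_eq_mul, e1, d5,
      if_neg (by decide), zero_mul, add_zero] at h
    rw [Lop_apply, d5, if_neg (by decide), zero_mul, add_zero, ← h]
    congr 1
    rw [alt4 cs hm]
    simp only [mul_assoc]

theorem Li_laws {i j : B} (hij : i ≠ j) (hm : M i j = 4) (y : W →₀ R) :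
    Lop cs q i y 1 = y (cs.simple i) ∧ Lop cs q i y (cs.simple i) = y 1 + q * y (cs.simple i) ∧
    Lop cs q i y (cs.simple j * cs.simple i) = y (cs.simple i * (cs.simple j * cs.simple i)) ∧
    Lop cs q i y (cs.simple i * (cs.simple j * cs.simple i)) =
      y (cs.simple j * cs.simple i) + q * y (cs.simple i * (cs.simple j * cs.simple i)) := by
  obtain ⟨d1, d2, d3, d4, d5, d6⟩ := D4 cs hij hm
  refine ⟨?_, ?_, ?_, ?_⟩
  · rw [Lop_apply, D_one, if_neg (by decide), zero_mul, add_zero, mul_one]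
  · rw [Lop_apply, d2, if_pos rfl, cs.simple_mul_simple_self]
  · rw [Lop_apply, d3, if_neg (by decide), zero_mul, add_zero]
  · rw [Lop_apply, d6, if_pos rfl, ← mul_assoc (cs.simple i) (cs.simple i),
      cs.simple_mul_simple_self, one_mul]

/-- first character -/
def X1 (ε : R) (i j : B) (y : W →₀ R) : R :=
  y 1 + ε * y (cs.simple i) + ε ^ 2 * y (cs.simple j * cs.simple i) +
    ε ^ 3 * y (cs.simple i * (cs.simple j * cs.simple i))

/-- second character -/
def X2 (ε' : R) (i j : B) (y : W →₀ R) : R :=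
  y 1 + ε' * y (cs.simple i) - y (cs.simple j * cs.simple i) -
    ε' * y (cs.simple i * (cs.simple j * cs.simple i))

/-- the quadratic invariant -/
def N4 (bar : R →+* R) (ε ε' : R) (i j : B) (y : W →₀ R) : R :=
  NF4 ε ε' (y 1) (y (cs.simple i)) (y (cs.simple j * cs.simple i))
    (y (cs.simple i * (cs.simple j * cs.simple i))) (bar (y 1)) (bar (y (cs.simple i)))
    (bar (y (cs.simple j * cs.simple i))) (bar (y (cs.simple i * (cs.simple j * cs.simple i))))

theorem step_j {i j : B} (hij : i ≠ j) (hm : M i j = 4) (hsum : ε + ε' = q)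
    (hprod : ε * ε' = -1) (bar : R →+* R) (hb1 : bar ε = -ε') (hb2 : bar ε' = -ε) {y : W →₀ R}
    (hy : Rop cs q j y = ε • y) :
    X1 cs ε i j (Lop cs q j y) = ε * X1 cs ε i j y ∧
    X2 cs ε' i j (Lop cs q j y) = ε * X2 cs ε' i j y ∧
    N4 cs bar ε ε' i j (Lop cs q j y) = N4 cs bar ε ε' i j y := by
  obtain ⟨l1, l2, l3, l4⟩ := Lj_laws cs hij hm hy
  unfold X1 X2 N4
  rw [l1, l2, l3, l4]
  subst hsum
  generalize y 1 = a
  generalize y (cs.simple i) = b
  generalize y (cs.simple i * (cs.simple j * cs.simple i)) = d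
  generalize y (cs.simple j * cs.simple i) = c
  refine ⟨?_, ?_, ?_⟩
  · linear_combination (ε * c) * hprod
  · linear_combination (-b) * hprod
  · simp only [map_add, map_mul, hb1, hb2]
    have h := NF4_j ε ε' a b c d (bar a) (bar b) (bar c) (bar d) hprod
    rw [← h]
    congr 1
    ring

theorem step_i {i j : B} (hij : i ≠ j) (hm : M i j = 4) (hsum : ε + ε' = q)
    (hprod : ε * ε' = -1) (bar : R →+* R) (hb1 : bar ε = -ε') (hb2 : bar ε' = -ε) (y : W →₀ R) :
    X1 cs ε i j (Lop cs q i y) = ε * X1 cs ε i j y ∧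
    X2 cs ε' i j (Lop cs q i y) = ε' * X2 cs ε' i j y ∧
    N4 cs bar ε ε' i j (Lop cs q i y) = N4 cs bar ε ε' i j y := by
  obtain ⟨l1, l2, l3, l4⟩ := Li_laws (q := q) cs hij hm y
  unfold X1 X2 N4
  rw [l1, l2, l3, l4]
  subst hsum
  generalize y 1 = a
  generalize y (cs.simple i) = b
  generalize y (cs.simple i * (cs.simple j * cs.simple i)) = d
  generalize y (cs.simple j * cs.simple i) = c
  refine ⟨?_, ?_, ?_⟩
  · linear_combination (b + ε ^ 2 * d) * hprod
  · linear_combination (b - d) * hprod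
  · simp only [map_add, map_mul, hb1, hb2]
    have h := NF4_i ε ε' a b c d (bar a) (bar b) (bar c) (bar d) hprod
    rw [← h]
    congr 1 <;> ring

/-- `ε'` as a unit -/
def unit' (hprod : ε * ε' = -1) : Rˣ where
  val := ε'
  inv := -ε
  val_inv := by rw [mul_neg, mul_comm, hprod, neg_neg]
  inv_val := by rw [neg_mul, hprod, neg_neg]

/-- the invariants -/
def Inv4 (bar : R →+* R) (hS : SD R q ε ε') (i j : B) (y : W →₀ R) : Prop :=
  ∃ a b : ℤ, X1 cs ε i j y = ((hS.unit ^ (a + b) : Rˣ) : R) ∧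
    X2 cs ε' i j y = ((hS.unit ^ a * unit' hS.prod ^ b : Rˣ) : R) ∧
    N4 cs bar ε ε' i j y = (ε - ε') ^ 2

theorem Inv4_j {i j : B} (hij : i ≠ j) (hm : M i j = 4) (hS : SD R q ε ε') (bar : R →+* R)
    (hb1 : bar ε = -ε') (hb2 : bar ε' = -ε) {y : W →₀ R} (hy : Rop cs q j y = ε • y) :
    Inv4 cs bar hS i j (Lop cs q j y) ↔ Inv4 cs bar hS i j y := by
  obtain ⟨s1, s2, s3⟩ := step_j cs hij hm hS.sum hS.prod bar hb1 hb2 hy
  have hu : ∀ x : R, ε * x = ((hS.unit : Rˣ) : R) * x := fun _ => rfl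
  constructor
  · rintro ⟨a, b, h1, h2, h3⟩
    refine ⟨a - 1, b, ?_, ?_, ?_⟩
    · rw [s1, hu] at h1
      have e : (hS.unit ^ (a - 1 + b) : Rˣ) = hS.unit⁻¹ * hS.unit ^ (a + b) := by
        rw [← zpow_neg_one, ← zpow_add]; congr 1; ring
      rw [e, Units.val_mul, ← h1, ← mul_assoc, Units.inv_mul, one_mul]
    · rw [s2, hu] at h2
      have e : (hS.unit ^ (a - 1) * unit' hS.prod ^ b : Rˣ) =
          hS.unit⁻¹ * (hS.unit ^ a * unit' hS.prod ^ b) := by
        rw [← mul_assoc]; congr 1
        rw [← zpow_neg_one, ← zpow_add]; congr 1; ring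
      rw [e, Units.val_mul, ← h2, ← mul_assoc, Units.inv_mul, one_mul]
    · rw [← s3, h3]
  · rintro ⟨a, b, h1, h2, h3⟩
    refine ⟨a + 1, b, ?_, ?_, ?_⟩
    · rw [s1, hu, h1, ← Units.val_mul]
      congr 1
      rw [← zpow_one_add]; congr 1; ring
    · rw [s2, hu, h2, ← Units.val_mul]
      congr 1
      rw [← mul_assoc]; congr 1
      rw [← zpow_one_add]; congr 1; ring
    · rw [s3, h3]

theorem Inv4_i {i j : B} (hij : i ≠ j) (hm : M i j = 4) (hS : SD R q ε ε') (bar : R →+* R)
    (hb1 : bar ε = -ε') (hb2 : bar ε' = -ε) (y : W →₀ R) :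
    Inv4 cs bar hS i j (Lop cs q i y) ↔ Inv4 cs bar hS i j y := by
  obtain ⟨s1, s2, s3⟩ := step_i (q := q) cs hij hm hS.sum hS.prod bar hb1 hb2 y
  have hu : ∀ x : R, ε * x = ((hS.unit : Rˣ) : R) * x := fun _ => rfl
  have hu' : ∀ x : R, ε' * x = ((unit' hS.prod : Rˣ) : R) * x := fun _ => rfl
  constructor
  · rintro ⟨a, b, h1, h2, h3⟩
    refine ⟨a, b - 1, ?_, ?_, ?_⟩
    · rw [s1, hu] at h1
      have e : (hS.unit ^ (a + (b - 1)) : Rˣ) = hS.unit⁻¹ * hS.unit ^ (a + b) := by
        rw [← zpow_neg_one, ← zpow_add]; congr 1; ring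
      rw [e, Units.val_mul, ← h1, ← mul_assoc, Units.inv_mul, one_mul]
    · rw [s2, hu'] at h2
      have e : (hS.unit ^ a * unit' hS.prod ^ (b - 1) : Rˣ) =
          (unit' hS.prod)⁻¹ * (hS.unit ^ a * unit' hS.prod ^ b) := by
        rw [mul_left_comm]; congr 1
        rw [← zpow_neg_one, ← zpow_add]; congr 1; ring
      rw [e, Units.val_mul, ← h2, ← mul_assoc, Units.inv_mul, one_mul]
    · rw [← s3, h3]
  · rintro ⟨a, b, h1, h2, h3⟩
    refine ⟨a, b + 1, ?_, ?_, ?_⟩
    · rw [s1, hu, h1, ← Units.val_mul]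
      congr 1
      rw [← zpow_one_add]; congr 1; ring
    · rw [s2, hu', h2, ← Units.val_mul]
      congr 1
      rw [mul_left_comm]; congr 1
      rw [← zpow_one_add]; congr 1; ring
    · rw [s3, h3]

theorem Inv4_act {i j : B} (hij : i ≠ j) (hm : M i j = 4) (hS : SD R q ε ε') (bar : R →+* R)
    (hb1 : bar ε = -ε') (hb2 : bar ε' = -ε) {g : BraidGroup M} (hg : g ∈ BP M {i, j}) :
    Inv4 cs bar hS i j (act cs q g (ev cs ε' j)) := by
  have eig : ∀ h ∈ BP M {i, j}, Rop cs q j (act cs q h (ev cs ε' j)) =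
      ε • act cs q h (ev cs ε' j) := by
    intro h hh
    rw [← act_Rop cs q hh, Rop_ev cs hS, map_smul]
  have key : ∀ k ∈ ({i, j} : Set B), ∀ h ∈ BP M {i, j},
      (Inv4 cs bar hS i j (act cs q ((PresentedGroup.of k : BraidGroup M) * h) (ev cs ε' j)) ↔
        Inv4 cs bar hS i j (act cs q h (ev cs ε' j))) := by
    intro k hk h hh
    rw [act_mul_apply, act_of, Leq_apply]
    rcases hk with rfl | hk
    · exact Inv4_i cs hij hm hS bar hb1 hb2 _
    · rw [Set.mem_singleton_iff] at hk; subst hk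
      exact Inv4_j cs hij hm hS bar hb1 hb2 (eig h hh)
  have hg' := hg
  unfold BP at hg
  induction hg using Subgroup.closure_induction_left with
  | one =>
    have e : act cs q (1 : BraidGroup M) (ev cs ε' j) = ev cs ε' j := by rw [map_one]; rfl
    rw [e]
    have hprod := hS.prod
    have n1 := simple_ne cs hij
    have n2 := simple_ne_one cs i
    have n3 := simple_ne_one cs j
    have v0 : ev cs ε' j 1 = -ε' := by
      simp [ev, n3]
    have v1 : ev cs ε' j (cs.simple i) = 0 := by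
      simp [ev, n1.symm, n2.symm]
    have v2 : ev cs ε' j (cs.simple j * cs.simple i) = 0 := by
      have m1 : cs.simple j ≠ cs.simple j * cs.simple i := fun h => n2 (mul_eq_left.mp h.symm)
      have m2 : 1 ≠ cs.simple j * cs.simple i := by
        intro h
        apply n1
        have := congrArg (fun z => cs.simple j * z) h
        simpa using this.symm
      simp [ev, m1, m2]
    have v3 : ev cs ε' j (cs.simple i * (cs.simple j * cs.simple i)) = 0 := by
      have l3 : cs.length (cs.simple i * (cs.simple j * cs.simple i)) = 3 := by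
        have h3 := length_alt cs hij true (l := 3) (Or.inr (by omega))
        have a3 : alt (sx cs i j) true 3 = cs.simple i * (cs.simple j * cs.simple i) := by
          simp [alt_succ, sx, pr]
        rwa [a3] at h3
      have m1 : cs.simple j ≠ cs.simple i * (cs.simple j * cs.simple i) := by
        intro h
        rw [← h, cs.length_simple] at l3
        omega
      have m2 : 1 ≠ cs.simple i * (cs.simple j * cs.simple i) := by
        intro h
        rw [← h, cs.length_one] at l3
        omega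
      simp [ev, m1, m2]
    refine ⟨-1, 0, ?_, ?_, ?_⟩
    · unfold X1
      rw [v0, v1, v2, v3, add_zero, zpow_neg_one]
      have : ((hS.unit⁻¹ : Rˣ) : R) = -ε' := rfl
      rw [this]; ring
    · unfold X2
      rw [v0, v1, v2, v3, zpow_zero, mul_one, zpow_neg_one]
      have : ((hS.unit⁻¹ : Rˣ) : R) = -ε' := rfl
      rw [this]; ring
    · unfold N4 NF4
      rw [v0, v1, v2, v3, map_neg, map_zero, hb2]
      linear_combination (-(ε - ε') ^ 2) * hprod
  | mul_left x hx z hz ih =>
    obtain ⟨k, hk, rfl⟩ := hx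
    exact (key k hk z hz).mpr (ih hz)
  | inv_mul_cancel x hx z hz ih =>
    obtain ⟨k, hk, rfl⟩ := hx
    have hm' : (PresentedGroup.of k : BraidGroup M)⁻¹ * z ∈ BP M {i, j} :=
      Subgroup.mul_mem _ (Subgroup.inv_mem _ (of_mem_BP hk)) hz
    apply (key k hk _ hm').mp
    rw [mul_inv_cancel_left]
    exact ih hz

/-- the local consequence of the invariants -/
theorem val4 [IsDomain R] {i j : B} (hS : SD R q ε ε') (bar : R →+* R)
    (hb1 : bar ε = -ε') (hb2 : bar ε' = -ε) {y : W →₀ R} (hI : Inv4 cs bar hS i j y)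
    (h3 : y (cs.simple i * (cs.simple j * cs.simple i)) = 0) :
    ∃ a b : ℤ, (y (cs.simple i) + ε * y (cs.simple j * cs.simple i)) * (ε - ε') =
      ((hS.unit ^ (a + b) : Rˣ) : R) - ((hS.unit ^ a * unit' hS.prod ^ b : Rˣ) : R) ∧
      (y (cs.simple i) + ε' * y (cs.simple j * cs.simple i)) *
        bar (y (cs.simple i) + ε' * y (cs.simple j * cs.simple i)) =
      (y (cs.simple i) + ε * y (cs.simple j * cs.simple i)) *
        bar (y (cs.simple i) + ε * y (cs.simple j * cs.simple i)) := by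
  obtain ⟨a, b, h1, h2, hN⟩ := hI
  have hprod := hS.prod
  unfold X1 at h1
  unfold X2 at h2
  unfold N4 at hN
  rw [h3] at h1 h2 hN
  rw [map_zero] at hN
  have hbu : Units.map (bar : R →* R) hS.unit = hS.unit⁻¹ := by
    apply Units.ext
    change bar ε = -ε'
    exact hb1
  have hbu' : Units.map (bar : R →* R) (unit' hS.prod) = (unit' hS.prod)⁻¹ := by
    apply Units.ext
    change bar ε' = -ε
    exact hb2
  have b1 : ∀ n : ℤ, bar ((hS.unit ^ n : Rˣ) : R) = ((hS.unit ^ (-n) : Rˣ) : R) := by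
    intro n
    have : ((Units.map (bar : R →* R) (hS.unit ^ n) : Rˣ) : R) = bar ((hS.unit ^ n : Rˣ) : R) := rfl
    rw [← this, map_zpow, hbu, inv_zpow, zpow_neg]
  have b2 : ∀ n : ℤ, bar ((unit' hS.prod ^ n : Rˣ) : R) = ((unit' hS.prod ^ (-n) : Rˣ) : R) := by
    intro n
    have : ((Units.map (bar : R →* R) (unit' hS.prod ^ n) : Rˣ) : R) =
      bar ((unit' hS.prod ^ n : Rˣ) : R) := rfl
    rw [← this, map_zpow, hbu', inv_zpow, zpow_neg]
  have p1 : ((hS.unit ^ (a + b) : Rˣ) : R) * bar ((hS.unit ^ (a + b) : Rˣ) : R) = 1 := by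
    rw [b1, ← Units.val_mul, ← zpow_add, add_neg_cancel, zpow_zero, Units.val_one]
  have p2 : ((hS.unit ^ a * unit' hS.prod ^ b : Rˣ) : R) *
      bar ((hS.unit ^ a * unit' hS.prod ^ b : Rˣ) : R) = 1 := by
    rw [Units.val_mul, map_mul, b1, b2]
    have e1 : ((hS.unit ^ a : Rˣ) : R) * ((hS.unit ^ (-a) : Rˣ) : R) = 1 := by
      rw [← Units.val_mul, ← zpow_add, add_neg_cancel, zpow_zero, Units.val_one]
    have e2 : ((unit' hS.prod ^ b : Rˣ) : R) * ((unit' hS.prod ^ (-b) : Rˣ) : R) = 1 := by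
      rw [← Units.val_mul, ← zpow_add, add_neg_cancel, zpow_zero, Units.val_one]
    linear_combination (((unit' hS.prod ^ b : Rˣ) : R) * ((unit' hS.prod ^ (-b) : Rˣ) : R)) * e1 + e2
  refine ⟨a, b, ?_, ?_⟩
  · rw [← h1, ← h2]
    linear_combination (-(y (cs.simple j * cs.simple i))) * hprod
  · rw [← h1] at p1
    rw [← h2] at p2
    simp only [map_add, map_sub, map_mul, map_pow, map_zero, hb1, hb2] at p1 p2 ⊢
    unfold NF4 at hN
    generalize bar (y 1) = A at *
    generalize bar (y (cs.simple i)) = B' at *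
    generalize bar (y (cs.simple j * cs.simple i)) = C' at *
    generalize y 1 = a' at *
    generalize y (cs.simple i) = b' at *
    generalize y (cs.simple j * cs.simple i) = c' at *
    have hv := NF4_val ε ε' a' (b' + ε * c') A (B' - ε' * C') hprod (by
      rw [← p1]; ring) (by
      rw [← p2]
      linear_combination (c' * (A - ε * (B' - ε' * C')) + (a' + ε' * b' - c') * C') * hprod)
    have hK : (2 * (ε ^ 2 + ε' ^ 2) : R) ≠ 0 := by
      obtain ⟨φ, h1, h2⟩ := hS.pos
      intro h0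
      have h4 := congrArg φ h0
      simp only [map_mul, map_add, map_pow, map_ofNat, map_zero] at h4
      nlinarith [sq_nonneg (φ ε), mul_pos_of_neg_of_neg h1 h1]
    have hfin : 2 * (ε ^ 2 + ε' ^ 2) * ((b' + ε' * c') * (B' - ε * C') -
        (b' + ε * c') * (B' - ε' * C')) = 0 := by
      linear_combination hN - hv
    have h5 := (mul_eq_zero.mp hfin).resolve_left hK
    linear_combination h5

/-- powers of the door -/
theorem pow_j {i j : B} (hij : i ≠ j) (hm : M i j = 4) (hS : SD R q ε ε') {y : W →₀ R}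
    (hy : Rop cs q j y = ε • y) (n : ℤ) :
    ∀ z : W →₀ R, z = act cs q ((PresentedGroup.of j : BraidGroup M) ^ n) y →
    z (cs.simple i) + ε * z (cs.simple j * cs.simple i) =
      ((hS.unit ^ n : Rˣ) : R) * (y (cs.simple i) + ε * y (cs.simple j * cs.simple i)) ∧
    z (cs.simple i) + ε' * z (cs.simple j * cs.simple i) =
      ((unit' hS.prod ^ n : Rˣ) : R) * (y (cs.simple i) + ε' * y (cs.simple j * cs.simple i)) ∧
    z (cs.simple i * (cs.simple j * cs.simple i)) =
      ((hS.unit ^ n : Rˣ) : R) * y (cs.simple i * (cs.simple j * cs.simple i)) := by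
  have hprod := hS.prod
  have hsum := hS.sum
  have eig : ∀ n : ℤ, Rop cs q j (act cs q ((PresentedGroup.of j : BraidGroup M) ^ n) y) =
      ε • act cs q ((PresentedGroup.of j : BraidGroup M) ^ n) y := by
    intro n
    rw [← act_Rop cs q (of_zpow_mem j n), hy, map_smul]
  -- one step
  have one : ∀ z : W →₀ R, Rop cs q j z = ε • z →
      Lop cs q j z (cs.simple i) + ε * Lop cs q j z (cs.simple j * cs.simple i) =
        ε * (z (cs.simple i) + ε * z (cs.simple j * cs.simple i)) ∧
      Lop cs q j z (cs.simple i) + ε' * Lop cs q j z (cs.simple j * cs.simple i) =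
        ε' * (z (cs.simple i) + ε' * z (cs.simple j * cs.simple i)) ∧
      Lop cs q j z (cs.simple i * (cs.simple j * cs.simple i)) =
        ε * z (cs.simple i * (cs.simple j * cs.simple i)) := by
    intro z hz
    obtain ⟨-, l2, l3, l4⟩ := Lj_laws cs hij hm hz
    rw [l2, l3, l4]
    refine ⟨?_, ?_, rfl⟩
    · rw [← hsum]
      linear_combination (z (cs.simple j * cs.simple i)) * hprod
    · rw [← hsum]
      linear_combination (z (cs.simple j * cs.simple i)) * hprod
  have hu : ((hS.unit : Rˣ) : R) = ε := rfl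
  have hu' : ((unit' hS.prod : Rˣ) : R) = ε' := rfl
  have stepn : ∀ n : ℤ, act cs q ((PresentedGroup.of j : BraidGroup M) ^ (n + 1)) y =
      Lop cs q j (act cs q ((PresentedGroup.of j : BraidGroup M) ^ n) y) := by
    intro n
    rw [add_comm, zpow_add, zpow_one, act_mul_apply, act_of, Leq_apply]
  induction n using Int.induction_on with
  | zero =>
    intro z hz
    have e : act cs q ((PresentedGroup.of j : BraidGroup M) ^ (0 : ℤ)) y = y := by
      rw [zpow_zero, map_one]; rfl
    rw [hz, e]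
    simp
  | succ n ih =>
    rintro z rfl
    obtain ⟨i1, i2, i3⟩ := ih _ rfl
    rw [stepn]
    obtain ⟨o1, o2, o3⟩ := one _ (eig n)
    rw [o1, o2, o3, i1, i2, i3, zpow_add_one, zpow_add_one, Units.val_mul, Units.val_mul, hu, hu']
    refine ⟨by ring, by ring, by ring⟩
  | pred n ih =>
    rintro z rfl
    obtain ⟨i1, i2, i3⟩ := ih _ rfl
    have e1 : (-(n : ℤ)) = (-(n : ℤ) - 1) + 1 := by ring
    rw [e1, stepn] at i1 i2 i3
    obtain ⟨o1, o2, o3⟩ := one _ (eig (-(n : ℤ) - 1))
    rw [o1, zpow_add_one, Units.val_mul, hu] at i1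
    rw [o2, zpow_add_one, Units.val_mul, hu'] at i2
    rw [o3, zpow_add_one, Units.val_mul, hu] at i3
    refine ⟨?_, ?_, ?_⟩
    · linear_combination (-ε') * i1 + (act cs q ((PresentedGroup.of j : BraidGroup M) ^
        (-(n : ℤ) - 1)) y (cs.simple i) + ε * act cs q ((PresentedGroup.of j : BraidGroup M) ^
        (-(n : ℤ) - 1)) y (cs.simple j * cs.simple i) - ((hS.unit ^ (-(n : ℤ) - 1) : Rˣ) : R) *
        (y (cs.simple i) + ε * y (cs.simple j * cs.simple i))) * hprod
    · linear_combination (-ε) * i2 + (act cs q ((PresentedGroup.of j : BraidGroup M) ^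
        (-(n : ℤ) - 1)) y (cs.simple i) + ε' * act cs q ((PresentedGroup.of j : BraidGroup M) ^
        (-(n : ℤ) - 1)) y (cs.simple j * cs.simple i) -
        ((unit' hS.prod ^ (-(n : ℤ) - 1) : Rˣ) : R) *
        (y (cs.simple i) + ε' * y (cs.simple j * cs.simple i))) * hprod
    · linear_combination (-ε') * i3 + (act cs q ((PresentedGroup.of j : BraidGroup M) ^
        (-(n : ℤ) - 1)) y (cs.simple i * (cs.simple j * cs.simple i)) -
        ((hS.unit ^ (-(n : ℤ) - 1) : Rˣ) : R) *
        y (cs.simple i * (cs.simple j * cs.simple i))) * hprod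

theorem iji_not_mem {i j : B} (hij : i ≠ j) (hm : M i j = 4) :
    cs.simple i * (cs.simple j * cs.simple i) ∉ WT cs i j := by
  have a3 : alt (sx cs i j) true 3 = cs.simple i * (cs.simple j * cs.simple i) := by
    simp [alt_succ, sx, pr]
  have a4 : alt (sx cs i j) false 4 = cs.simple j * (cs.simple i * (cs.simple j * cs.simple i)) := by
    simp [alt_succ, sx, pr]
  have h3 := length_alt cs hij true (l := 3) (Or.inr (by omega))
  have h4 := length_alt cs hij false (l := 4) (Or.inr (by omega))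
  rw [a3] at h3
  rw [a4] at h4
  rintro ⟨a, ha, b, hb, he⟩
  have hl := length_le_of_mem_WPP cs hb
  rcases mem_WP_singleton cs ha with rfl | rfl
  · rw [one_mul] at he
    rw [he] at h3
    omega
  · have : b = cs.simple j * (cs.simple i * (cs.simple j * cs.simple i)) := by
      rw [he, ← mul_assoc, cs.simple_mul_simple_self, one_mul]
    rw [← this] at h4
    omega

/-- eigenvectors with two vanishing coordinates -/
theorem supp4 {i j : B} (hij : i ≠ j) (hm : M i j = 4) {z : W →₀ R}
    (hz : Rop cs q j z = ε • z) (hs : Supp (WP cs {i, j} : Set W) z)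
    (h2 : z (cs.simple j * cs.simple i) = 0)
    (h3 : z (cs.simple i * (cs.simple j * cs.simple i)) = 0) : Supp (WPP cs {i} {j}) z := by
  obtain ⟨d1, d2, d3, d4, d5, d6⟩ := D4 cs hij hm
  have D2 : D cs (cs.simple j * cs.simple i)⁻¹ (cs.simple j) = 0 := by
    rw [mul_inv_rev, cs.inv_simple, cs.inv_simple]
    have a2 : alt (sx cs i j) true 2 = cs.simple i * cs.simple j := by
      simp [alt_succ, sx, pr]
    rw [← a2]
    exact D_alt_not cs hij true (Or.inr (by omega))
  have e1 : (cs.simple i * (cs.simple j * cs.simple i))⁻¹ =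
      cs.simple i * (cs.simple j * cs.simple i) := by
    rw [mul_inv_rev, mul_inv_rev, cs.inv_simple, cs.inv_simple, mul_assoc]
  have k2 : z (cs.simple j * cs.simple i * cs.simple j) = 0 := by
    have h := DFunLike.congr_fun hz (cs.simple j * cs.simple i)
    rw [Rop_apply, Finsupp.smul_apply, smul_eq_mul, D2, if_neg (by decide), zero_mul, add_zero,
      h2, mul_zero] at h
    exact h
  have k3 : z (cs.simple i * (cs.simple j * cs.simple i) * cs.simple j) = 0 := by
    have h := DFunLike.congr_fun hz (cs.simple i * (cs.simple j * cs.simple i))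
    rw [Rop_apply, Finsupp.smul_apply, smul_eq_mul, e1, d5, if_neg (by decide), zero_mul,
      add_zero, h3, mul_zero] at h
    exact h
  have hi : cs.simple i ∈ WP cs {i} := simple_mem_WP cs rfl
  have hj : cs.simple j ∈ WP cs {j} := simple_mem_WP cs rfl
  intro w hw
  obtain ⟨c, l, hl, rfl⟩ := exists_alt_le cs (by omega) (hs w hw)
  rw [hm] at hl
  have b3 : alt (sx cs i j) false 3 = cs.simple j * cs.simple i * cs.simple j := by
    simp [alt_succ, sx, pr, mul_assoc]
  have b4 : alt (sx cs i j) true 4 =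
      cs.simple i * (cs.simple j * cs.simple i) * cs.simple j := by
    simp [alt_succ, sx, pr, mul_assoc]
  have a3 : alt (sx cs i j) true 3 = cs.simple i * (cs.simple j * cs.simple i) := by
    simp [alt_succ, sx, pr]
  have a2 : alt (sx cs i j) false 2 = cs.simple j * cs.simple i := by
    simp [alt_succ, sx, pr]
  have b4' : alt (sx cs i j) false 4 =
      cs.simple i * (cs.simple j * cs.simple i) * cs.simple j := by
    rw [← b4]
    have h := alt_sx_braid cs i j false
    rw [hm] at h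
    exact h
  interval_cases l
  · exact ⟨1, Subgroup.one_mem _, 1, Subgroup.one_mem _, by simp⟩
  · cases c
    · exact ⟨1, Subgroup.one_mem _, _, hj, by simp [sx, pr]⟩
    · exact ⟨_, hi, 1, Subgroup.one_mem _, by simp [sx, pr]⟩
  · cases c
    · exfalso; rw [a2] at hw; exact hw h2
    · exact ⟨_, hi, _, hj, by simp [alt_succ, sx, pr]⟩
  · cases c
    · exfalso; rw [b3] at hw; exact hw k2
    · exfalso; rw [a3] at hw; exact hw h3
  · exfalso
    cases c
    · rw [b4'] at hw; exact hw k3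
    · rw [b4] at hw; exact hw k3

/-- the rigidity hypothesis -/
def RigH (bar : R →+* R) (hS : SD R q ε ε') : Prop :=
  ∀ (α γ : R) (a b : ℤ), α * (ε - ε') =
      ((hS.unit ^ (a + b) : Rˣ) : R) - ((hS.unit ^ a * unit' hS.prod ^ b : Rˣ) : R) →
    (α - (ε - ε') * γ) * bar (α - (ε - ε') * γ) = α * bar α →
    ∃ m : ℤ, ((hS.unit ^ m : Rˣ) : R) * α =
      ((unit' hS.prod ^ m : Rˣ) : R) * (α - (ε - ε') * γ)

theorem q4_ev [IsDomain R] {i j : B} (hij : i ≠ j) (hm : M i j = 4) (hS : SD R q ε ε')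
    (bar : R →+* R) (hb1 : bar ε = -ε') (hb2 : bar ε' = -ε) (hR : RigH bar hS)
    {g : BraidGroup M} (hg : g ∈ BP M {i, j})
    (h : Supp (WT cs i j) (act cs q g (ev cs ε' j))) :
    ∃ a ∈ BP M {j}, ∃ b ∈ BP M {i}, ∃ c ∈ BP M {j}, g = a * b * c := by
  set y := act cs q g (ev cs ε' j) with hy
  have eig : Rop cs q j y = ε • y := by
    rw [hy, ← act_Rop cs q hg, Rop_ev cs hS, map_smul]
  have h3 : y (cs.simple i * (cs.simple j * cs.simple i)) = 0 := by
    by_contra hne
    exact iji_not_mem cs hij hm (h _ hne)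
  have hI := Inv4_act cs hij hm hS bar hb1 hb2 hg
  obtain ⟨a, b, v1, v2⟩ := val4 cs hS bar hb1 hb2 hI h3
  set c1 := y (cs.simple i) with hc1
  set c2 := y (cs.simple j * cs.simple i) with hc2
  obtain ⟨m, hmm⟩ := hR (c1 + ε * c2) c2 a b v1 (by
    have e : c1 + ε * c2 - (ε - ε') * c2 = c1 + ε' * c2 := by ring
    rw [e]; exact v2)
  have e : c1 + ε * c2 - (ε - ε') * c2 = c1 + ε' * c2 := by ring
  rw [e] at hmm
  obtain ⟨p1, p2, p3⟩ := pow_j cs hij hm hS eig m _ rfl
  set z := act cs q ((PresentedGroup.of j : BraidGroup M) ^ m) y with hz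
  have hz2 : z (cs.simple j * cs.simple i) = 0 := by
    have h5 : (ε - ε') * z (cs.simple j * cs.simple i) = 0 := by
      linear_combination p1 - p2 + hmm
    exact (mul_eq_zero.mp h5).resolve_left (sub_ne_zero.mpr hS.ne)
  have hz3 : z (cs.simple i * (cs.simple j * cs.simple i)) = 0 := by
    rw [p3, h3, mul_zero]
  have hjm : (PresentedGroup.of j : BraidGroup M) ^ m ∈ BP M {i, j} :=
    Subgroup.zpow_mem _ (of_mem_BP (by simp)) _
  have hzg : z = act cs q ((PresentedGroup.of j : BraidGroup M) ^ m * g) (ev cs ε' j) := by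
    rw [hz, hy, act_mul_apply]
  have hgm : (PresentedGroup.of j : BraidGroup M) ^ m * g ∈ BP M {i, j} :=
    Subgroup.mul_mem _ hjm hg
  have eigz : Rop cs q j z = ε • z := by
    rw [hzg, ← act_Rop cs q hgm, Rop_ev cs hS, map_smul]
  have hsz : Supp (WP cs {i, j} : Set W) z := by
    rw [hzg]
    apply supp_act_WP cs q hgm
    intro w hw
    by_contra hcon
    apply hw
    have m1 : cs.simple j ≠ w := by
      rintro rfl; exact hcon (simple_mem_WP cs (by simp))
    have m2 : (1 : W) ≠ w := by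
      rintro rfl; exact hcon (Subgroup.one_mem _)
    simp [ev, m1, m2]
  have hs := supp4 cs hij hm eigz hsz hz2 hz3
  rw [hzg] at hs
  obtain ⟨x, hx, x', hx', he⟩ := dih_main cs hij (by omega) hS hgm hs
  refine ⟨(PresentedGroup.of j : BraidGroup M) ^ (-m), of_zpow_mem j _, x, hx, x', hx', ?_⟩
  rw [mul_assoc, ← he, ← mul_assoc, ← zpow_add, neg_add_cancel, zpow_zero, one_mul]

end coords4

end Pool.Agent.HeckeCox
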