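import Mathlib
import Pool.Agent.Lib_helper18.Hecke.GLoc4

set_option autoImplicit false

/-! The three factor property for label four over the Laurent polynomials. -/

namespace Pool.Agent.HeckeCox

open CoxeterSystem LaurentPolynomial
open scoped Classical

section rigz

/-- `-T²` as a unit -/
noncomputable def Y0 : (LaurentPolynomial ℤ)ˣ where
  val := -T 2
  inv := -T (-2)
  val_inv := by rw [neg_mul_neg, ← T_add]; simp
  inv_val := by rw [neg_mul_neg, ← T_add]; simp

/-- the bar involution -/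
noncomputable def barZ : LaurentPolynomial ℤ →+* LaurentPolynomial ℤ :=
  (invert : LaurentPolynomial ℤ ≃ₐ[ℤ] LaurentPolynomial ℤ).toAlgHom.toRingHom

theorem barZ_apply (x : LaurentPolynomial ℤ) : barZ x = invert x := rfl

theorem barZ_T (n : ℤ) : barZ (T n) = T (-n) := by rw [barZ_apply, invert_T]

/-- norm one units -/
def NU (w : (LaurentPolynomial ℤ)ˣ) : Prop := Units.map (barZ : _ →* _) w = w⁻¹

theorem NU.mul {v w : (LaurentPolynomial ℤ)ˣ} (hv : NU v) (hw : NU w) : NU (v * w) := by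
  unfold NU at *
  rw [map_mul, hv, hw, mul_inv]

theorem NU.zpow {v : (LaurentPolynomial ℤ)ˣ} (hv : NU v) (n : ℤ) : NU (v ^ n) := by
  unfold NU at *
  rw [map_zpow, hv, inv_zpow]

theorem NU.norm {v : (LaurentPolynomial ℤ)ˣ} (hv : NU v) :
    (v : LaurentPolynomial ℤ) * barZ v = 1 := by
  have h : ((Units.map (barZ : _ →* _) v : (LaurentPolynomial ℤ)ˣ) : LaurentPolynomial ℤ) =
    barZ v := rfl
  rw [← h, hv, Units.mul_inv]

theorem NU_Y0 : NU Y0 := by
  apply Units.ext
  change barZ (-T 2) = -T (-2)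
  rw [map_neg, barZ_T]

theorem NU_neg_one : NU (-1) := by
  apply Units.ext
  change barZ (-1) = _
  simp

theorem Y0_pow (l : ℕ) : ((Y0 ^ l : (LaurentPolynomial ℤ)ˣ) : LaurentPolynomial ℤ) =
    C ((-1) ^ l) * T (2 * (l : ℤ)) := by
  rw [Units.val_pow_eq_pow_val]
  change (-T 2) ^ l = _
  rw [neg_pow, T_pow, map_pow]
  congr 1
  · simp
  · congr 1; ring

theorem Y0_zpow (m : ℤ) : ((Y0 ^ m : (LaurentPolynomial ℤ)ˣ) : LaurentPolynomial ℤ) =
    C (m.negOnePow : ℤ) * T (2 * m) := by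
  induction m using Int.induction_on with
  | zero => simp
  | succ n ih =>
    rw [zpow_add_one, Units.val_mul, ih, Int.negOnePow_succ]
    have e : (T (2 * ((n : ℤ) + 1)) : LaurentPolynomial ℤ) = T (2 * n) * T 2 := by
      rw [← T_add]; congr 1
    rw [e]
    change _ * (-T 2) = _
    rw [Units.val_neg, map_neg]; ring
  | pred n ih =>
    rw [zpow_sub_one, Units.val_mul, ih]
    have e : (T (2 * (-(n : ℤ) - 1)) : LaurentPolynomial ℤ) = T (2 * -n) * T (-2) := by
      rw [← T_add]; congr 1; ring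
    have e2 : (-(n : ℤ) - 1).negOnePow = -((-(n : ℤ)).negOnePow) := by
      have := Int.negOnePow_succ (-(n : ℤ) - 1)
      rw [sub_add_cancel] at this
      rw [this, neg_neg]
    rw [e, e2]
    change _ * (-T (-2)) = _
    rw [Units.val_neg, map_neg]; ring

theorem al_eq (n : ℕ) : al n = ∑ l ∈ Finset.range n, (Y0 : LaurentPolynomial ℤ) ^ l := by
  unfold al
  apply Finset.sum_congr rfl
  intro l _
  rw [← Y0_pow, Units.val_pow_eq_pow_val]

theorem one_sub_Y0 : (1 - (Y0 : LaurentPolynomial ℤ)) ≠ 0 := by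
  intro h
  have h1 := congrArg (evR (Units.mk0 1 one_ne_zero)) h
  have h2 : (Y0 : LaurentPolynomial ℤ) = -T 2 := rfl
  rw [h2, map_sub, map_one, map_neg, evR_T, map_zero] at h1
  norm_num at h1

theorem al_geom (n : ℕ) : al n * (1 - (Y0 : LaurentPolynomial ℤ)) =
    1 - ((Y0 ^ n : (LaurentPolynomial ℤ)ˣ) : LaurentPolynomial ℤ) := by
  rw [al_eq, geom_sum_mul_neg, Units.val_pow_eq_pow_val]

theorem rigid2 {α β γ : LaurentPolynomial ℤ} {ω : (LaurentPolynomial ℤ)ˣ} (hω : NU ω) (b : ℤ)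
    (hα : α * (1 - (Y0 : LaurentPolynomial ℤ)) =
      ω * (1 - ((Y0 ^ b : (LaurentPolynomial ℤ)ˣ) : LaurentPolynomial ℤ)))
    (hβ : β = α - (T 1 + T (-1)) * γ) (h2 : β * barZ β = α * barZ α) :
    ∃ m : ℤ, β = ((Y0 ^ m : (LaurentPolynomial ℤ)ˣ) : LaurentPolynomial ℤ) * α := by
  obtain ⟨n, w, hw, hαw⟩ : ∃ (n : ℕ) (w : (LaurentPolynomial ℤ)ˣ), NU w ∧ α = w * al n := by
    obtain ⟨n, rfl | rfl⟩ := b.eq_nat_or_neg
    · refine ⟨n, ω, hω, ?_⟩
      apply mul_right_cancel₀ one_sub_Y0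
      rw [hα, mul_assoc, al_geom, zpow_natCast]
    · refine ⟨n, -1 * (ω * Y0 ^ (-(n : ℤ))), NU_neg_one.mul (hω.mul (NU_Y0.zpow _)), ?_⟩
      apply mul_right_cancel₀ one_sub_Y0
      rw [hα, mul_assoc, al_geom, Units.val_mul, Units.val_mul, Units.val_neg, Units.val_one]
      have e : ((Y0 ^ (-(n : ℤ)) : (LaurentPolynomial ℤ)ˣ) : LaurentPolynomial ℤ) *
          ((Y0 ^ n : (LaurentPolynomial ℤ)ˣ) : LaurentPolynomial ℤ) = 1 := by
        rw [← Units.val_mul, ← zpow_natCast, ← zpow_add, neg_add_cancel, zpow_zero,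
          Units.val_one]
      linear_combination (-(ω : LaurentPolynomial ℤ)) * e
  rcases Nat.eq_zero_or_pos n with rfl | hn
  · have hα0 : α = 0 := by rw [hαw]; simp [al]
    rw [hα0, zero_mul] at h2
    have hβ0 : β = 0 := by
      rcases mul_eq_zero.mp h2 with h | h
      · exact h
      · rw [barZ_apply] at h
        exact (map_eq_zero_iff _ (invert (R := ℤ)).injective).mp h
    exact ⟨0, by rw [hβ0, hα0, mul_zero]⟩
  · have hn1 := hw.norm
    have hn2 : ((w⁻¹ : (LaurentPolynomial ℤ)ˣ) : LaurentPolynomial ℤ) *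
        barZ ((w⁻¹ : (LaurentPolynomial ℤ)ˣ) : LaurentPolynomial ℤ) = 1 := by
      have : NU w⁻¹ := by rw [← zpow_neg_one]; exact hw.zpow _
      exact this.norm
    have hww : ((w⁻¹ : (LaurentPolynomial ℤ)ˣ) : LaurentPolynomial ℤ) * w = 1 := Units.inv_mul _
    obtain ⟨m, hm⟩ := rigid0 hn (β := ((w⁻¹ : (LaurentPolynomial ℤ)ˣ) : LaurentPolynomial ℤ) * β)
      (γ := ((w⁻¹ : (LaurentPolynomial ℤ)ˣ) : LaurentPolynomial ℤ) * γ)
      (by
        rw [hβ, hαw]
        linear_combination (al n) * hww)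
      (by
        rw [← barZ_apply, ← barZ_apply, map_mul]
        rw [hαw, map_mul] at h2
        linear_combination (β * barZ β) * hn2 + h2 + (al n * barZ (al n)) * hn1)
    refine ⟨m, ?_⟩
    have hww' : (w : LaurentPolynomial ℤ) *
        ((w⁻¹ : (LaurentPolynomial ℤ)ˣ) : LaurentPolynomial ℤ) = 1 := Units.mul_inv _
    rw [Y0_zpow, hαw]
    linear_combination (-β) * hww' + (w : LaurentPolynomial ℤ) * hm

theorem RigH1 : RigH barZ SD1 := by
  intro α γ a b h1 h2
  set u := SD1.unit with hu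
  set u' := unit' SD1.prod with hu'
  have e1 : u' = Y0 * u := by
    apply Units.ext
    change -T 1 = -T 2 * T (-1)
    rw [neg_mul, ← T_add]; norm_num
  have nu : NU u := by
    apply Units.ext
    change barZ (T (-1)) = -(-T 1)
    rw [barZ_T, neg_neg, neg_neg]
  have e2 : (T (-1) - -T 1 : LaurentPolynomial ℤ) = (u : LaurentPolynomial ℤ) * (1 - Y0) := by
    change _ = T (-1) * (1 - -T 2)
    rw [sub_neg_eq_add, sub_neg_eq_add, mul_add, mul_one, ← T_add]; norm_num
  obtain ⟨m, hm⟩ := rigid2 (α := α) (β := α - (T (-1) - -T 1) * γ) (γ := γ)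
    (ω := u ^ (a + b - 1)) (nu.zpow _) b (by
      have h3 : α * (1 - (Y0 : LaurentPolynomial ℤ)) =
          ((u⁻¹ : (LaurentPolynomial ℤ)ˣ) : LaurentPolynomial ℤ) * (α * (T (-1) - -T 1)) := by
        rw [e2]
        have : ((u⁻¹ : (LaurentPolynomial ℤ)ˣ) : LaurentPolynomial ℤ) * u = 1 := Units.inv_mul _
        linear_combination (-α * (1 - (Y0 : LaurentPolynomial ℤ))) * this
      rw [h3, h1, mul_sub, mul_sub, mul_one, ← Units.val_mul, ← Units.val_mul, ← Units.val_mul]
      congr 2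
      · rw [← zpow_neg_one, ← zpow_add]; congr 1; ring
      · rw [e1, mul_zpow, ← zpow_neg_one]
        rw [show a + b - 1 = -1 + (a + b) by ring, zpow_add, zpow_add]
        rw [mul_comm (Y0 ^ b), mul_assoc, mul_assoc]) (by ring) h2
  refine ⟨-m, ?_⟩
  rw [hm, ← mul_assoc, ← Units.val_mul, e1, mul_zpow]
  congr 2
  rw [mul_comm (Y0 ^ (-m)), mul_assoc, ← zpow_add, neg_add_cancel, zpow_zero, mul_one]

theorem RigH2 : RigH barZ SD2 := by
  intro α γ a b h1 h2
  set u := SD2.unit with hu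
  set u' := unit' SD2.prod with hu'
  have e1 : u = Y0 * u' := by
    apply Units.ext
    change -T 1 = -T 2 * T (-1)
    rw [neg_mul, ← T_add]; norm_num
  have nu : NU u' := by
    apply Units.ext
    change barZ (T (-1)) = -(-T 1)
    rw [barZ_T, neg_neg, neg_neg]
  have nu2 : NU u := by rw [e1]; exact NU_Y0.mul nu
  have e2 : (-T 1 - T (-1) : LaurentPolynomial ℤ) = -((u' : LaurentPolynomial ℤ) * (1 - Y0)) := by
    change _ = -(T (-1) * (1 - -T 2))
    rw [sub_neg_eq_add, mul_add, mul_one, ← T_add]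
    norm_num
    ring
  obtain ⟨m, hm⟩ := rigid2 (α := α) (β := α - (-T 1 - T (-1)) * γ) (γ := -γ)
    (ω := u ^ a * u' ^ (b - 1)) ((nu2.zpow _).mul (nu.zpow _)) b (by
      have h3 : α * (1 - (Y0 : LaurentPolynomial ℤ)) =
          -(((u'⁻¹ : (LaurentPolynomial ℤ)ˣ) : LaurentPolynomial ℤ) * (α * (-T 1 - T (-1)))) := by
        rw [e2]
        have : ((u'⁻¹ : (LaurentPolynomial ℤ)ˣ) : LaurentPolynomial ℤ) * u' = 1 := Units.inv_mul _
        linear_combination (-α * (1 - (Y0 : LaurentPolynomial ℤ))) * this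
      rw [h3, h1, mul_sub, mul_sub, mul_one, ← Units.val_mul, ← Units.val_mul, ← Units.val_mul,
        neg_sub]
      congr 2
      · rw [mul_left_comm]; congr 1
        rw [← zpow_neg_one, ← zpow_add]; congr 1; ring
      · rw [zpow_add, mul_left_comm, mul_assoc]
        congr 1
        rw [e1, mul_zpow, mul_left_comm, mul_comm (u' ^ (b - 1))]
        congr 1
        rw [← zpow_neg_one, ← zpow_add]; congr 1; ring) (by ring) h2
  refine ⟨m, ?_⟩
  rw [hm, ← mul_assoc, ← Units.val_mul]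
  congr 2
  rw [e1, mul_zpow, mul_comm]

end rigz

section q4

variable {B W : Type*} [Group W] {M : CoxeterMatrix B} (cs : CoxeterSystem M W)

theorem Q3_four {i j : B} (hm : M i j = 4) :
    Q3 cs (T (-1) - T 1 : LaurentPolynomial ℤ) i j := by
  have hij : i ≠ j := ne_of_ge (M := M) (by omega)
  intro g hg c hc hcj h
  have key : ∀ {ε ε' : LaurentPolynomial ℤ} (hS : SD _ (T (-1) - T 1) ε ε'),
      RigH barZ hS → barZ ε = -ε' → barZ ε' = -ε → c 1 + c (cs.simple j) * ε ≠ 0 →
      ∃ a ∈ BP M {j}, ∃ b ∈ BP M {i}, ∃ c ∈ BP M {j}, g = a * b * c := by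
    intro ε ε' hS hR hb1 hb2 hne
    apply q4_ev cs hij hm hS barZ hb1 hb2 hR hg
    have e1 : (c 1 + c (cs.simple j) * ε) •
        act cs (T (-1) - T 1 : LaurentPolynomial ℤ) g (ev cs ε' j) =
        Rop cs (T (-1) - T 1 : LaurentPolynomial ℤ) j
          (act cs (T (-1) - T 1 : LaurentPolynomial ℤ) g c) -
        ε' • act cs (T (-1) - T 1 : LaurentPolynomial ℤ) g c := by
      rw [← map_smul, ← reduce cs hS hcj, map_sub, map_smul, act_Rop cs _ hg]
    intro w hw
    have hw' : ((c 1 + c (cs.simple j) * ε) •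
        act cs (T (-1) - T 1 : LaurentPolynomial ℤ) g (ev cs ε' j)) w ≠ 0 := by
      rw [Finsupp.smul_apply, smul_eq_mul]
      exact mul_ne_zero hne hw
    rw [e1] at hw'
    by_contra hcon
    apply hw'
    have e2 : Rop cs (T (-1) - T 1 : LaurentPolynomial ℤ) j
        (act cs (T (-1) - T 1 : LaurentPolynomial ℤ) g c) w = 0 := by
      by_contra h'; exact hcon (supp_Rop_WT cs _ h w h')
    have e3 : act cs (T (-1) - T 1 : LaurentPolynomial ℤ) g c w = 0 := by
      by_contra h'; exact hcon (h w h')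
    rw [Finsupp.sub_apply, Finsupp.smul_apply, e2, e3]; simp
  by_cases h1 : c 1 + c (cs.simple j) * T (-1) = 0
  · by_cases h2 : c 1 + c (cs.simple j) * (-T 1) = 0
    · exfalso
      have h3 : c (cs.simple j) * (T (-1) - -T 1) = 0 := by linear_combination h1 - h2
      have h4 : c (cs.simple j) = 0 := by
        rcases mul_eq_zero.mp h3 with h | h
        · exact h
        · exact absurd (sub_eq_zero.mp h) SD1.ne
      have h5 : c 1 = 0 := by rw [h4, zero_mul, add_zero] at h1; exact h1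
      obtain ⟨w, hw⟩ := exists_ne_zero hc
      rcases mem_WP_singleton cs (hcj w hw) with rfl | rfl
      · exact hw h5
      · exact hw h4
    · exact key SD2 RigH2 (by rw [map_neg, barZ_T]) (by rw [barZ_T, neg_neg, neg_neg]) h2
  · exact key SD1 RigH1 (by rw [barZ_T, neg_neg, neg_neg]) (by rw [map_neg, barZ_T]) h1

end q4

end Pool.Agent.HeckeCox
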