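import Mathlib
import Pool.Agent.Lib_helper18.Hecke.GChain

set_option autoImplicit false

/-! The invariant along a minimal chain. -/

namespace Pool.Agent.HeckeCox

open CoxeterSystem
open scoped Classical

section gstate

universe u

variable {B : Type u} {W : Type*} [Group W] {M : CoxeterMatrix B} (cs : CoxeterSystem M W)
variable {R : Type*} [CommRing R] {q ε ε' : R}
variable {P J : Set B}

theorem Qs_snoc {T : Set B} {Ts : List (Set B)} : ∀ {w : W}, w ∈ Qs cs Ts →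
    w ∈ Qs cs (Ts ++ [T]) := by
  induction Ts with
  | nil =>
    intro w hw
    rw [Qs, Set.mem_singleton_iff] at hw
    subst hw
    exact ⟨1, Subgroup.one_mem _, 1, rfl, by simp⟩
  | cons T' Ts ih =>
    rintro w ⟨a, ha, b, hb, rfl⟩
    exact ⟨a, ha, b, ih hb, rfl⟩

theorem ctx_snoc (T : Set B) (Ts : List (Set B)) (A : Set B) :
    ctx M A (Ts ++ [T]) = nx M T (ctx M A Ts) := by
  rw [ctx_append]; rfl

theorem supp_step {T : Set B} {Ts : List (Set B)} {z : W →₀ R} (hz : Supp (Xs cs J Ts) z)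
    {p : BraidGroup M} (hp : p ∈ BP M T) : Supp (Xs cs J (Ts ++ [T])) (act cs q p z) := by
  have h1 : Supp (Xs cs J (Ts ++ [T])) z := by
    apply hz.mono
    rintro y ⟨a, ha, b, hb, hab⟩
    exact ⟨a, ha, b, Qs_snoc cs hb, hab⟩
  apply supp_act cs q _ hp h1
  intro i hi w hw
  apply Xs_ctx cs hw
  apply simple_mem_WP
  rw [ctx_snoc]
  exact Or.inl hi

theorem WP_union_comm {P1 P2 : Set B} (h : ∀ a ∈ P1, ∀ b ∈ P2, M a b = 2) {g : W}
    (hg : g ∈ WP cs (P1 ∪ P2)) : ∃ x ∈ WP cs P1, ∃ y ∈ WP cs P2, g = x * y := by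
  unfold WP at hg
  induction hg using Subgroup.closure_induction with
  | mem z hz =>
    obtain ⟨i, hi, rfl⟩ := hz
    rcases hi with hi | hi
    · exact ⟨_, simple_mem_WP cs hi, 1, Subgroup.one_mem _, by simp⟩
    · exact ⟨1, Subgroup.one_mem _, _, simple_mem_WP cs hi, by simp⟩
  | one => exact ⟨1, Subgroup.one_mem _, 1, Subgroup.one_mem _, by simp⟩
  | mul z z' _ _ ih ih' =>
    obtain ⟨x, hx, y, hy, rfl⟩ := ih
    obtain ⟨x', hx', y', hy', rfl⟩ := ih'
    refine ⟨x * x', Subgroup.mul_mem _ hx hx', y * y', Subgroup.mul_mem _ hy hy', ?_⟩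
    have := WP_comm cs h hx' hy
    calc x * y * (x' * y') = x * (y * x') * y' := by group
      _ = x * (x' * y) * y' := by rw [this]
      _ = x * x' * (y * y') := by group
  | inv z _ ih =>
    obtain ⟨x, hx, y, hy, rfl⟩ := ih
    refine ⟨x⁻¹, Subgroup.inv_mem _ hx, y⁻¹, Subgroup.inv_mem _ hy, ?_⟩
    rw [WP_comm cs h hx hy, mul_inv_rev]

/-- the invariant -/
def StG (P J N : Set B) (Ts : List (Set B)) (z : W →₀ R) : Prop :=
  ∃ (L : List (Set B × W)) (h : W), h ∈ WP cs J ∧ ty L = Ts ∧ Cf cs P J N ∅ 1 L ∧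
    IsMin cs (ctx M J Ts ∩ N) (h * prd L 1)⁻¹ ∧
    ∃ u ∈ WP cs (ctx M J Ts ∩ N), z (u * (h * prd L 1)⁻¹) ≠ 0

/-- the letters commuting with the next piece -/
def Ec (M : CoxeterMatrix B) (C N T : Set B) : Set B := {k | (k ∈ C ∧ k ∈ N) ∧ Cm M k T}

theorem st_common (hP : HG M P) {N T : Set B} {Ts : List (Set B)} {z : W →₀ R} (hTP : T ⊆ P)
    (hX : Supp (Xs cs J Ts) z) {L : List (Set B × W)} {h : W} (hh : h ∈ WP cs J)
    (hty : ty L = Ts) (hC : Cf cs P J (nx M T N) ∅ 1 L)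
    (hmin : IsMin cs (ctx M J Ts ∩ nx M T N) (h * prd L 1)⁻¹) {u : W}
    (hu : u ∈ WP cs (ctx M J Ts ∩ nx M T N)) (hz : z (u * (h * prd L 1)⁻¹) ≠ 0) :
    ∃ u2 ∈ WP cs (Ec M (ctx M J Ts) N T), IsMin cs T (h * prd L 1)⁻¹ ∧
      IsMin cs T (u2 * (h * prd L 1)⁻¹) ∧ comp cs T (u2 * (h * prd L 1)⁻¹) z ≠ 0 ∧
      Supp (WP cs (T ∩ ctx M J Ts) : Set W) (comp cs T (u2 * (h * prd L 1)⁻¹) z) := by
  subst hty
  set C := ctx M J (ty L) with hCdef
  set x := (h * prd L 1)⁻¹ with hx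
  have hcomm : ∀ a ∈ T ∩ C, ∀ b ∈ Ec M C N T, M a b = 2 := by
    intro a ha b hb
    rw [M.symmetric]; exact hb.2 a ha.1
  have hcommT : ∀ a ∈ T, ∀ b ∈ Ec M C N T, M a b = 2 := by
    intro a ha b hb
    rw [M.symmetric]; exact hb.2 a ha
  have hsub : C ∩ nx M T N ⊆ (T ∩ C) ∪ Ec M C N T := by
    rintro k ⟨hk, hk' | hk'⟩
    · exact Or.inl ⟨hk', hk⟩
    · exact Or.inr ⟨⟨hk, hk'.1⟩, hk'.2⟩
  obtain ⟨u1, hu1, u2, hu2, rfl⟩ := WP_union_comm cs hcomm (WP_mono cs hsub hu)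
  have hTN : T ⊆ nx M T N := fun k hk => Or.inl hk
  have hsubm : T ∩ C ⊆ C ∩ nx M T N := fun k hk => ⟨hk.2, hTN hk.1⟩
  have hminT : IsMin cs T x := claimG_min cs hP hC hh hTP hTN (isMin_mono cs hsubm hmin)
  have hminT2 : IsMin cs T (u2 * x) := by
    intro t ht
    have hc : Cm M t (Ec M C N T) := fun b hb => hcommT t ht b hb
    rw [D_comm cs hc hu2]
    exact hminT t ht
  have hu1T : u1 ∈ WP cs T := WP_mono cs Set.inter_subset_left hu1
  refine ⟨u2, hu2, hminT, hminT2, ?_, ?_⟩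
  · intro h0
    apply hz
    have h1 := DFunLike.congr_fun h0 u1
    rw [comp_apply_mem cs hu1T, ← mul_assoc] at h1
    exact h1
  · intro v hv
    have hvT := comp_supp cs T (u2 * x) z v hv
    rw [comp_apply_mem cs hvT] at hv
    have h1 : v * (u2 * x) ∈ Xs cs J (ty L) := hX _ hv
    have h2 : v * (u2 * x) = u2 * (v * x) := by
      rw [← mul_assoc, WP_comm cs hcommT hvT hu2, mul_assoc]
    rw [h2] at h1
    have h3 : u2⁻¹ * (u2 * (v * x)) ∈ Xs cs J (ty L) :=
      Xs_ctx cs h1 (Subgroup.inv_mem _ (WP_mono cs (fun k hk => hk.1.1) hu2))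
    rw [inv_mul_cancel_left] at h3
    exact claimG cs hP hC hh hTP hTN hminT hvT h3

/-- a syllable -/
theorem stG_syl [IsDomain R] (S1 : SD R q ε ε') (hP : HG M P) {N : Set B} {r : B} {k : ℤ}
    (hk : k ≠ 0) (hr : r ∈ P) {Ts : List (Set B)} (hrC : r ∉ ctx M J Ts) (hrN : r ∉ N)
    (hnp : NoPat M (Ts ++ [({r} : Set B)])) {z : W →₀ R} (hX : Supp (Xs cs J Ts) z)
    (hS : StG cs P J (nx M {r} N) Ts z) :
    StG cs P J N (Ts ++ [({r} : Set B)])
      (act cs q ((PresentedGroup.of r : BraidGroup M) ^ k) z) := by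
  obtain ⟨L, h, hh, hty, hC, hmin, u, hu, hz⟩ := hS
  have hTP : ({r} : Set B) ⊆ P := by
    intro x hx; rw [Set.mem_singleton_iff.mp hx]; exact hr
  obtain ⟨u2, hu2, m1, m2, d0, dS⟩ := st_common cs hP hTP hX hh hty hC hmin hu hz
  subst hty
  set C := ctx M J (ty L) with hCdef
  set x := (h * prd L 1)⁻¹ with hx
  have hE : ({r} : Set B) ∩ C = ∅ := by
    ext y
    constructor
    · rintro ⟨h1, h2⟩
      rw [Set.mem_singleton_iff] at h1; subst h1
      exact absurd h2 hrC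
    · intro h; exact absurd h (Set.notMem_empty y)
  rw [hE] at dS
  have v1 : z (u2 * x) ≠ 0 := by
    obtain ⟨v, hv⟩ := exists_ne_zero d0
    have h1 := dS v hv
    rw [WP_empty] at h1
    have h2 := Subgroup.mem_bot.mp h1
    rw [h2, comp_apply_mem cs (Subgroup.one_mem _), one_mul] at hv
    exact hv
  have v2 : z (cs.simple r * (u2 * x)) = 0 := by
    by_contra hne
    have h1 : comp cs {r} (u2 * x) z (cs.simple r) ≠ 0 := by
      rw [comp_apply_mem cs (show cs.simple r ∈ WP cs {r} from simple_mem_WP cs rfl)]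
      exact hne
    have h2 := dS _ h1
    rw [WP_empty] at h2
    exact simple_ne_one cs r (Subgroup.mem_bot.mp h2)
  obtain ⟨b, hb, hf⟩ := offdiag cs S1 r hk
  have v3 := hf z _ v2
  have hsu : u2 * cs.simple r = cs.simple r * u2 :=
    (WP_comm cs (T := {r}) (T' := Ec M C N {r}) (by
      intro a ha b hb
      rw [M.symmetric]; exact hb.2 a ha) (simple_mem_WP cs rfl) hu2).symm
  have hxn : (h * prd (L ++ [(({r} : Set B), cs.simple r)]) 1)⁻¹ = cs.simple r * x := by
    rw [prd_append]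
    change (h * prd L (cs.simple r * 1))⁻¹ = _
    rw [show cs.simple r * (1 : W) = 1 * cs.simple r by simp, prd_mul, ← mul_assoc,
      mul_inv_rev _ (cs.simple r), cs.inv_simple]
  refine ⟨L ++ [(({r} : Set B), cs.simple r)], h, hh, by simp [ty], ?_, ?_, u2, ?_, ?_⟩
  · refine ⟨hC.hA, ?_, ?_, hC.tP, Set.empty_subset _, hC.wT, ?_⟩
    · rw [Vd.append]
      refine ⟨hC.vd, ⟨hTP, simple_mem_WP cs rfl, ?_, Or.inl ⟨r, rfl, rfl, hrN⟩⟩, trivial⟩
      rintro y ⟨h1, h2⟩
      change y ∈ ({r} : Set B) at h1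
      rw [Set.mem_singleton_iff] at h1; subst h1
      exact absurd h2 hrC
    · have : ty (L ++ [(({r} : Set B), cs.simple r)]) = ty L ++ [({r} : Set B)] := by simp [ty]
      rw [this]; exact hnp
    · intro i hi; exact absurd hi.1 (Set.notMem_empty i)
  · rw [hxn, ctx_snoc]
    rintro y ⟨h1 | h1, h2⟩
    · rw [Set.mem_singleton_iff] at h1; subst h1
      exact absurd h2 hrN
    · rw [D_comm cs h1.2 (simple_mem_WP cs rfl)]
      exact hmin y ⟨h1.1, Or.inr ⟨h2, h1.2⟩⟩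
  · apply WP_mono cs _ hu2
    intro y hy
    rw [ctx_snoc]
    exact ⟨Or.inr ⟨hy.1.1, hy.2⟩, hy.1.2⟩
  · rw [hxn, ← mul_assoc, hsu, mul_assoc, v3]
    exact mul_ne_zero hb v1

/-- a long piece -/
theorem stG_long [IsDomain R] (S1 : SD R q ε ε') (S2 : SD R q ε' ε) (hP : HG M P) {N : Set B}
    {s t : B} {p : BraidGroup M} (hs : s ∈ P) (ht : t ∈ P) (hm : 3 ≤ M s t)
    (h3 : Q3 cs q s t) (h3' : Q3 cs q t s) (hp : p ∈ BP M {s, t})
    {Ts : List (Set B)} (hTC : ¬ ({s, t} : Set B) ⊆ ctx M J Ts) (hTN : ¬ ({s, t} : Set B) ⊆ N)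
    (hNB : NBad M {s, t} ({s, t} ∩ ctx M J Ts) ({s, t} ∩ N) p)
    (hnp : NoPat M (Ts ++ [({s, t} : Set B)])) {z : W →₀ R} (hX : Supp (Xs cs J Ts) z)
    (hS : StG cs P J (nx M {s, t} N) Ts z) :
    StG cs P J N (Ts ++ [({s, t} : Set B)]) (act cs q p z) := by
  obtain ⟨L, h, hh, hty, hC, hmin, u, hu, hz⟩ := hS
  have nst : s ≠ t := ne_of_ge (M := M) (by omega)
  have hm4 := hP.four hs ht nst (by omega)
  have hTP : ({s, t} : Set B) ⊆ P := by
    rintro x (hx | hx)
    · rw [hx]; exact hs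
    · rw [Set.mem_singleton_iff.mp hx]; exact ht
  obtain ⟨u2, hu2, m1, m2, d0, dS⟩ := st_common cs hP hTP hX hh hty hC hmin hu hz
  subst hty
  set C := ctx M J (ty L) with hCdef
  set x := (h * prd L 1)⁻¹ with hx
  set T : Set B := {s, t} with hT
  obtain ⟨s', t', l, e, hpair, hl2, hlM, he, hsp, hminE, hDF, f, hf, hv⟩ :=
    gexit cs S1 S2 nst hm4 h3 h3' hp (E := T ∩ C) (F := T ∩ N) Set.inter_subset_left
      (fun h' => hTC (h'.trans Set.inter_subset_right)) Set.inter_subset_left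
      (fun h' => hTN (h'.trans Set.inter_subset_right)) hNB d0 dS
  set a := alt (sx cs s' t') true l with ha
  have haT : a ∈ WP cs T := by rw [hT, ← hpair]; exact alt_mem cs s' t' true l
  have heT : e ∈ WP cs T := e_mem cs (E := T ∩ C) Set.inter_subset_left he
  have hfT : f ∈ WP cs T := WP_mono cs Set.inter_subset_left hf
  -- absorb `e`
  obtain ⟨h', L', hh', hty', hC', hx'⟩ : ∃ (h' : W) (L' : List (Set B × W)), h' ∈ WP cs J ∧
      ty L' = ty L ∧ Cf cs P J (nx M T N) ∅ 1 L' ∧ e * x = (h' * prd L' 1)⁻¹ := by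
    rcases he with rfl | ⟨e0, he0, rfl⟩
    · exact ⟨h, L, hh, rfl, hC, by rw [one_mul]⟩
    · exact absorb_x cs hP hC hh he0.2 (m1 e0 he0.1)
  have hcommT : ∀ a ∈ T, ∀ b ∈ Ec M C N T, M a b = 2 := by
    intro a ha b hb
    rw [M.symmetric]; exact hb.2 a ha
  have hxn : (h' * prd (L' ++ [(T, a)]) 1)⁻¹ = a⁻¹ * (e * x) := by
    rw [prd_append]
    change (h' * prd L' (a * 1))⁻¹ = _
    rw [show a * (1 : W) = 1 * a by simp, prd_mul, ← mul_assoc, mul_inv_rev _ a, hx']
  have hctx' : ctx M J (ty L') = C := by rw [hty']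
  refine ⟨L' ++ [(T, a)], h', hh', by simp only [ty, List.map_append] at hty' ⊢; rw [hty']; rfl,
    ?_, ?_, f * u2, ?_, ?_⟩
  · refine ⟨hC'.hA, ?_, ?_, hC'.tP, Set.empty_subset _, hC'.wT, ?_⟩
    · rw [Vd.append, hctx']
      refine ⟨hC'.vd, ⟨hTP, haT, ?_, Or.inr ⟨s', t', l, hpair.symm, ?_, ha, hl2, hlM, ?_⟩⟩, trivial⟩
      · exact hminE
      · have : 3 ≤ M s' t' := by
          rcases pair_eq nst hpair with ⟨h1, h2⟩ | ⟨h1, h2⟩
          · rw [h1, h2]; exact hm
          · rw [h1, h2, M.symmetric]; exact hm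
        exact this
      · intro h2
        obtain ⟨h4, h5⟩ := hsp h2
        refine ⟨h4.2, fun h6 => h5 ⟨h4.1, h6⟩⟩
    · have : ty (L' ++ [(T, a)]) = ty L' ++ [T] := by simp [ty]
      rw [this, hty']; exact hnp
    · intro i hi; exact absurd hi.1 (Set.notMem_empty i)
  · rw [hxn, ctx_snoc]
    rintro y ⟨h1 | h1, h2⟩
    · rw [← mul_assoc, D_mul_isMin' cs (Subgroup.mul_mem _ (Subgroup.inv_mem _ haT) heT) m1 h1]
      exact hDF y ⟨h1, h2⟩
    · rw [← mul_assoc, D_comm cs h1.2 (Subgroup.mul_mem _ (Subgroup.inv_mem _ haT) heT)]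
      exact hmin y ⟨h1.1, Or.inr ⟨h2, h1.2⟩⟩
  · rw [ctx_snoc]
    apply Subgroup.mul_mem
    · apply WP_mono cs _ hf
      intro y hy
      exact ⟨Or.inl hy.1, hy.2⟩
    · apply WP_mono cs _ hu2
      intro y hy
      exact ⟨Or.inr ⟨hy.1.1, hy.2⟩, hy.1.2⟩
  · rw [hxn]
    rw [← comp_act cs q m2 hp, comp_apply_mem cs (Subgroup.mul_mem _ hfT
      (Subgroup.mul_mem _ (Subgroup.inv_mem _ haT) heT))] at hv
    have hc : a⁻¹ * e * u2 = u2 * (a⁻¹ * e) :=
      WP_comm cs hcommT (Subgroup.mul_mem _ (Subgroup.inv_mem _ haT) heT) hu2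
    have e1 : f * (a⁻¹ * e) * (u2 * x) = f * u2 * (a⁻¹ * (e * x)) := by
      calc f * (a⁻¹ * e) * (u2 * x) = f * (a⁻¹ * e * u2) * x := by group
        _ = f * (u2 * (a⁻¹ * e)) * x := by rw [hc]
        _ = _ := by group
    rw [← e1]
    exact hv

theorem stG_nil (hJ : J ⊆ P) (N : Set B) {c : W →₀ R} (hc : c ≠ 0)
    (hcJ : Supp (WP cs J : Set W) c) : StG cs P J N [] c := by
  obtain ⟨w, hw⟩ := exists_ne_zero hc
  obtain ⟨u, hu, x, hx, rfl⟩ := exists_decomp cs (J ∩ N) w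
  have huJ : u ∈ WP cs J := WP_mono cs Set.inter_subset_left hu
  have hxJ : x ∈ WP cs J := by
    have : x = u⁻¹ * (u * x) := by group
    rw [this]; exact Subgroup.mul_mem _ (Subgroup.inv_mem _ huJ) (hcJ _ hw)
  have e1 : (x⁻¹ * prd ([] : List (Set B × W)) 1)⁻¹ = x := by simp [prd]
  refine ⟨[], x⁻¹, Subgroup.inv_mem _ hxJ, rfl, ?_, ?_, u, hu, ?_⟩
  · refine ⟨hJ, trivial, ?_, Set.empty_subset _, Set.empty_subset _, Subgroup.one_mem _, ?_⟩
    · intro X Y Z U r k he
      have := congrArg List.length he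
      simp [ty] at this
    · intro i hi; exact absurd hi.1 (Set.notMem_empty i)
  · rw [e1]; exact hx
  · rw [e1]; exact hw

theorem NoPat.leftPart {Ts Us : List (Set B)} (h : NoPat M (Ts ++ Us)) : NoPat M Ts := by
  intro X Y Z U r k he
  apply h X Y Z (U ++ Us) r k
  rw [he]
  simp

/-- the invariant along a chain -/
theorem stG_main [IsDomain R] (S1 : SD R q ε ε') (S2 : SD R q ε' ε) (hP : HG M P)
    (hQ : ∀ i ∈ P, ∀ j ∈ P, 4 ≤ M i j → Q3 cs q i j) {I : Set B} (hJ : J ⊆ P)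
    {c : W →₀ R} (hc : c ≠ 0) (hcJ : Supp (WP cs J : Set W) c) {l : List (Pie M)}
    (hl : MinL P J I l) : ∀ (l1 l2 : List (Pie M)), l = l1 ++ l2 →
      Supp (Xs cs J (cty l1)) (act cs q (cval l1) c) ∧
      StG cs P J (fut M (cty l2) I) (cty l1) (act cs q (cval l1) c) := by
  intro l1
  induction l1 using List.reverseRecOn with
  | nil =>
    intro l2 _
    have e : act cs q (cval ([] : List (Pie M))) c = c := by simp [cval]
    rw [e]
    refine ⟨?_, stG_nil cs hJ _ hc hcJ⟩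
    intro w hw
    exact ⟨w⁻¹, Subgroup.inv_mem _ (hcJ w hw), 1, rfl, by simp⟩
  | append_singleton l1 p ih =>
    intro l2 he
    have he' : l = l1 ++ p :: l2 := by rw [he]; simp
    obtain ⟨ih1, ih2⟩ := ih (p :: l2) he'
    have hmin : MinL P J I (l1 ++ p :: l2) := by rw [← he']; exact hl
    have hpw : p.wf P := hmin.1 p (by simp)
    have hval : act cs q (cval (l1 ++ [p])) c = act cs q p.val (act cs q (cval l1) c) := by
      rw [cval_append, ← act_mul_apply]
      simp [cval]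
    have hty : cty (l1 ++ [p]) = cty l1 ++ [p.T] := by
      rw [cty_append]; rfl
    rw [hval, hty]
    refine ⟨supp_step cs ih1 (Pie.val_mem hpw), ?_⟩
    have hnp : NoPat M (cty l1 ++ [p.T]) := by
      have h1 := hmin.noPat
      rw [cty_append] at h1
      change NoPat M (cty l1 ++ p.T :: cty l2) at h1
      have h2 : cty l1 ++ p.T :: cty l2 = (cty l1 ++ [p.T]) ++ cty l2 := by simp
      rw [h2] at h1
      exact h1.leftPart
    have n1 := hmin.not_ctx
    have n2 := hmin.not_fut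
    cases p with
    | syl r k =>
      have hrC : r ∉ ctx M J (cty l1) := by
        intro h
        apply n1
        intro y hy
        rw [Set.mem_singleton_iff.mp hy]; exact h
      have hrN : r ∉ fut M (cty l2) I := by
        intro h
        apply n2
        intro y hy
        rw [Set.mem_singleton_iff.mp hy]; exact h
      exact stG_syl cs S1 hP hmin.k_ne hpw hrC hrN hnp ih1 ih2
    | long s t p =>
      obtain ⟨hs, ht, hm, hp⟩ := hpw
      have nst : s ≠ t := ne_of_ge (M := M) (by omega)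
      have hm4 := hP.four hs ht nst (by omega)
      exact stG_long cs S1 S2 hP hs ht hm (hQ s hs t ht hm4)
        (hQ t ht s hs (by rw [M.symmetric]; exact hm4)) hp n1 n2 hmin.nbad hnp ih1 ih2

/-- all pieces of an element of `W_I` lie in `W_I` -/
theorem pieces_mem (hP : HG M P) {I N : Set B} {L : List (Set B × W)} : ∀ {A : Set B},
    Cf cs P A N ∅ 1 L → prd L 1 ∈ WP cs I → ∀ p ∈ L, p.2 ∈ WP cs I := by
  induction L with
  | nil => intro A _ _ p hp; exact absurd hp (by simp)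
  | cons p0 L ih =>
    intro A hC h
    have hmin : IsMin cs p0.1 (prd L 1) :=
      (vis_main cs hP L.length).min_tail cs (Nat.le_refl _) hC
    have h1 : p0.2 ∈ WP cs I := by
      apply mem_WP_of_forall
      intro t ht hD
      have htT : t ∈ WP cs p0.1 := mem_WP_of_D cs hC.vd.1.2.1 (by rw [hD]; exact one_ne_zero)
      have h2 : D cs (p0.2 * prd L 1) t = 1 := by
        rw [D_mul_isMin cs hC.vd.1.2.1 hmin htT ht]; exact hD
      have h3 : D cs (prd (p0 :: L) 1) t = 1 := h2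
      exact mem_WP_of_D cs h (by rw [h3]; exact one_ne_zero)
    have h3 : prd L 1 ∈ WP cs I := by
      have : prd L 1 = p0.2⁻¹ * prd (p0 :: L) 1 := by simp [prd]
      rw [this]; exact Subgroup.mul_mem _ (Subgroup.inv_mem _ h1) h
    intro p hp
    rcases List.mem_cons.mp hp with rfl | hp
    · exact h1
    · exact ih hC.tail h3 p hp

theorem not_suppG [IsDomain R] (S1 : SD R q ε ε') (S2 : SD R q ε' ε) (hP : HG M P)
    (hQ : ∀ i ∈ P, ∀ j ∈ P, 4 ≤ M i j → Q3 cs q i j) {I : Set B} (hJ : J ⊆ P)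
    {c : W →₀ R} (hc : c ≠ 0) (hcJ : Supp (WP cs J : Set W) c) {l : List (Pie M)}
    (hl : MinL P J I l) (hne : l ≠ []) : ¬ Supp (WPP cs I J) (act cs q (cval l) c) := by
  intro hsupp
  obtain ⟨-, L, h, hh, hty, hC, hmin, u, hu, hz⟩ :=
    stG_main cs S1 S2 hP hQ hJ hc hcJ hl l [] (by simp)
  have hC' : Cf cs P J I ∅ 1 L := hC
  change u ∈ WP cs (ctx M J (cty l) ∩ I) at hu
  obtain ⟨a, ha, b, hb, hab⟩ := hsupp _ hz
  -- the product lies in `W_J W_I`
  have h1 : prd L 1 = (b * h)⁻¹ * (a⁻¹ * u) := by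
    have e1 : h * prd L 1 = (u⁻¹ * (u * (h * prd L 1)⁻¹))⁻¹ := by group
    rw [hab] at e1
    have e2 : prd L 1 = h⁻¹ * (h * prd L 1) := by group
    rw [e2, e1]; group
  have h2 : (b * h) * prd L 1 ∈ (WP cs I : Set W) := by
    rw [h1, mul_inv_cancel_left]
    exact Subgroup.mul_mem _ (Subgroup.inv_mem _ ha) (WP_mono cs Set.inter_subset_right hu)
  have hminJ : IsMin cs J (prd L 1) := (vis_main cs hP L.length).min cs (Nat.le_refl _) hC'
  have h3 : prd L 1 ∈ (WP cs I : Set W) := by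
    apply del_min cs _ hminJ (Subgroup.mul_mem _ hb hh) h2
    intro q hq t hD
    exact Subgroup.mul_mem _ (mem_WP_of_D cs hq (by rw [hD]; exact one_ne_zero)) hq
  -- the last piece
  obtain ⟨l1, p, rfl⟩ : ∃ l1 p, l = l1 ++ [p] :=
    ⟨l.dropLast, l.getLast hne, (List.dropLast_append_getLast hne).symm⟩
  have n2 := hl.not_fut (l2 := [])
  change ¬ p.T ⊆ I at n2
  obtain ⟨L1, pL, rfl⟩ : ∃ L1 pL, L = L1 ++ [pL] := by
    have hLne : L ≠ [] := by
      rintro rfl
      rw [cty_append] at hty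
      have := congrArg List.length hty
      simp [ty, cty] at this
    exact ⟨L.dropLast, L.getLast hLne, (List.dropLast_append_getLast hLne).symm⟩
  have hT : pL.1 = p.T := by
    rw [cty_append, ty, List.map_append] at hty
    have := congrArg List.getLast? hty
    simpa [cty] using this
  have hpI := pieces_mem cs hP hC' h3 pL (by simp)
  have hPc := ((Vd.append cs).mp hC'.vd).2.1
  apply n2
  rw [← hT]
  rcases hPc.2.2.2 with ⟨r, h4, h5, h6⟩ | ⟨s, t, l', h4, h5, h6, h7, h8, -⟩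
  · exfalso
    rw [h5] at hpI
    exact h6 ((simple_mem_WP_iff cs).mp hpI)
  · rw [h4]
    have nst : s ≠ t := ne_of_ge (M := M) (by omega)
    have hs : s ∈ I := by
      apply desc_mem cs hpI
      rw [h6, show cs.simple s = sx cs s t true from rfl, D_alt_self cs nst true (by omega)
        (Or.inr h8)]
      exact one_ne_zero
    have ht : t ∈ I := by
      have h9 : cs.simple s * pL.2 ∈ WP cs I := Subgroup.mul_mem _ (simple_mem_WP cs hs) hpI
      obtain ⟨l'', rfl⟩ : ∃ l'', l' = l'' + 1 := ⟨l' - 1, by omega⟩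
      have h10 : cs.simple s * pL.2 = alt (sx cs s t) false l'' := by
        rw [h6, alt_succ, Bool.not_true, show sx cs s t true = cs.simple s from rfl,
          ← mul_assoc, cs.simple_mul_simple_self, one_mul]
      apply desc_mem cs h9
      rw [h10, show cs.simple t = sx cs s t false from rfl, D_alt_self cs nst false (by omega)
        (Or.inr (by omega))]
      exact one_ne_zero
    rintro y (hy | hy)
    · rw [hy]; exact hs
    · rw [Set.mem_singleton_iff.mp hy]; exact ht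

/-- the property for large labels -/
theorem QP_G [IsDomain R] (S1 : SD R q ε ε') (S2 : SD R q ε' ε) (hP : HG M P)
    (hQ : ∀ i ∈ P, ∀ j ∈ P, 4 ≤ M i j → Q3 cs q i j) : QP cs q P := by
  intro I hI J hJ g hg c hc hcJ hcIJ
  have hex : ∃ n : ℕ, ∃ l : List (Pie M), cwf P l ∧ (∃ b ∈ BP M I, ∃ b' ∈ BP M J,
      g = b * cval l * b') ∧ ccost l = n := by
    obtain ⟨C, hC, he⟩ := exists_chainL hg
    exact ⟨_, C, hC, ⟨1, Subgroup.one_mem _, 1, Subgroup.one_mem _, by rw [← he]; simp⟩, rfl⟩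
  obtain ⟨l, hl, ⟨b, hb, b', hb', he⟩, hn⟩ := Nat.find_spec hex
  have hmin : MinL P J I l := by
    refine ⟨hl, ?_⟩
    intro C' hC' b1 hb1 b1' hb1' he'
    rw [hn]
    apply Nat.find_min' hex
    refine ⟨C', hC', ⟨b * b1, Subgroup.mul_mem _ hb hb1, b1' * b', Subgroup.mul_mem _ hb1' hb',
      ?_⟩, rfl⟩
    rw [he, he']; group
  by_cases hnil : l = []
  · subst hnil
    exact ⟨b, hb, b', hb', by rw [he]; simp [cval]⟩
  · exfalso
    set c' := act cs q b' c with hc'
    have hc0 : c' ≠ 0 := by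
      intro h0
      apply hc
      have := congrArg (act cs q b'⁻¹) h0
      rw [hc', act_inv_act, map_zero] at this
      exact this
    have hcJ' : Supp (WP cs J : Set W) c' := supp_act_WP cs q hb' hcJ
    apply not_suppG cs S1 S2 hP hQ hJ hc0 hcJ' hmin hnil
    have e1 : act cs q (cval l) c' = act cs q b⁻¹ (act cs q g c) := by
      rw [he, mul_assoc, act_mul_apply, act_inv_act, act_mul_apply]
    rw [e1]
    exact supp_act_WPP cs q (Subgroup.inv_mem _ hb) hcIJ

end gstate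

end Pool.Agent.HeckeCox
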