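import Mathlib
import Pool.Agent.Lib_helper18.Hecke.GState
import Pool.Agent.Lib_helper18.Hecke.GLoc4Z
import Pool.Agent.Lib_helper18.Hecke.Final

set_option autoImplicit false

/-! Assembly of the second theorem. -/

namespace Pool.Agent.HeckeCox

open CoxeterSystem LaurentPolynomial

section gfinal

universe u

variable {B : Type u} {W : Type*} [Group W] {M : CoxeterMatrix B} (cs : CoxeterSystem M W)
variable {R : Type*} [CommRing R] {q ε ε' : R}

/-- the condition on triangles -/
def TriG (M : CoxeterMatrix B) (n : ℕ) : Prop :=
  ∀ s t u : B, s ≠ t → t ≠ u → s ≠ u → 3 ≤ M s t → 3 ≤ M t u →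
    M s u = 0 ∨ (n ≤ M s t ∧ n ≤ M t u ∧ n ≤ M s u) ∨ (M s u = 2 ∧ 6 ≤ M s t ∧ 6 ≤ M t u)

theorem Q3_five [IsDomain R] (S1 : SD R q ε ε') (S2 : SD R q ε' ε) {i j : B}
    (h : 5 ≤ M i j) : Q3 cs q i j := by
  intro g hg c hc hcj hw
  exact q3 cs S1 S2 (ne_of_ge (M := M) (by omega)) h hg hc hcj hw

/-- the main induction -/
theorem QP_finsetG [IsDomain R] (S1 : SD R q ε ε') (S2 : SD R q ε' ε) {n0 : ℕ} (h4 : 4 ≤ n0)
    (h6 : n0 ≤ 6) (hM : TriG M n0) (hQ : ∀ i j, n0 ≤ M i j → Q3 cs q i j)
    (P : Finset B) : QP cs q (P : Set B) := by
  classical
  induction hn : P.card using Nat.strong_induction_on generalizing P with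
  | _ n ih =>
    by_cases hinf : ∃ s ∈ P, ∃ r ∈ P, s ≠ r ∧ M s r = 0
    · obtain ⟨s, hs, r, hr, hsr, h0⟩ := hinf
      let P' : Bool → Set B := fun b => if b then ((P.erase r : Finset B) : Set B)
        else ((P.erase s : Finset B) : Set B)
      have e1 : P' true = ((P.erase r : Finset B) : Set B) := rfl
      have e2 : P' false = ((P.erase s : Finset B) : Set B) := rfl
      have hU : P' true ∪ P' false = (P : Set B) := by
        rw [e1, e2]
        ext k
        simp only [Finset.coe_erase, Set.mem_union, Set.mem_sdiff, Finset.mem_coe,
          Set.mem_singleton_iff]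
        constructor
        · rintro (h | h) <;> exact h.1
        · intro hk
          by_cases hkr : k = r
          · right; exact ⟨hk, by rw [hkr]; exact hsr.symm⟩
          · left; exact ⟨hk, hkr⟩
      have hF : Free M P' := by
        intro b a ha ha' b' hb hb'
        cases b
        · simp only [Bool.not_false, e1, e2, Finset.coe_erase, Set.mem_sdiff, Finset.mem_coe,
            Set.mem_singleton_iff, not_and, not_not] at ha ha' hb hb'
          rw [ha' ha.1, hb' hb.1, M.symmetric]; exact h0
        · simp only [Bool.not_true, e1, e2, Finset.coe_erase, Set.mem_sdiff, Finset.mem_coe,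
            Set.mem_singleton_iff, not_and, not_not] at ha ha' hb hb'
          rw [ha' ha.1, hb' hb.1]; exact h0
      rw [← hU]
      apply QP_amalgam cs q hF
      intro b
      cases b
      · rw [e2]
        exact ih _ (by rw [← hn]; exact Finset.card_erase_lt_of_mem hs) _ rfl
      · rw [e1]
        exact ih _ (by rw [← hn]; exact Finset.card_erase_lt_of_mem hr) _ rfl
    · push Not at hinf
      have key : ∀ a ∈ P, ∀ b ∈ P, a ≠ b → M a b = 2 ∨ 3 ≤ M a b := by
        intro a ha b hb hab
        have h1 := hinf a ha b hb hab
        have h2 : M a b ≠ 1 := M.off_diagonal a b hab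
        omega
      by_cases hsm : ∃ s ∈ P, ∃ t ∈ P, 3 ≤ M s t ∧ M s t < n0
      · obtain ⟨s, hs, t, ht, h3, hlt⟩ := hsm
        have hst : s ≠ t := ne_of_ge (M := M) (by omega)
        have hU : (P : Set B) = ({s, t} : Set B) ∪ (((P.erase s).erase t : Finset B) : Set B) := by
          ext k
          simp only [Finset.coe_erase, Set.mem_union, Set.mem_sdiff, Finset.mem_coe,
            Set.mem_singleton_iff, Set.mem_insert_iff]
          constructor
          · intro hk
            by_cases h1 : k = s
            · left; left; exact h1
            · by_cases h2 : k = t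
              · left; right; exact h2
              · right; exact ⟨⟨hk, h1⟩, h2⟩
          · rintro ((rfl | rfl) | h)
            · exact hs
            · exact ht
            · exact h.1.1
        rw [hU]
        apply QP_prod cs q
        · intro a ha b hb
          have hb1 : b ∈ P := Finset.mem_of_mem_erase (Finset.mem_of_mem_erase hb)
          have hb2 : b ≠ t := Finset.ne_of_mem_erase hb
          have hb3 : b ≠ s := Finset.ne_of_mem_erase (Finset.mem_of_mem_erase hb)
          rcases ha with rfl | ha
          · rcases key a hs b hb1 hb3.symm with h | h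
            · exact h
            · exfalso
              rcases hM b a t hb3 hst hb2 (by rw [M.symmetric]; exact h) h3 with h5 | h5 | h5
              · exact hinf b hb1 t ht hb2 h5
              · omega
              · omega
          · rw [Set.mem_singleton_iff] at ha
            subst ha
            rcases key a ht b hb1 hb2.symm with h | h
            · exact h
            · exfalso
              rcases hM s a b hst hb2.symm hb3.symm h3 h with h5 | h5 | h5
              · exact hinf s hs b hb1 hb3.symm h5
              · omega
              · omega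
        · exact QP_pair cs S1 S2 hst h3
        · apply ih _ _ _ rfl
          rw [← hn]
          exact lt_of_le_of_lt (Finset.card_erase_le) (Finset.card_erase_lt_of_mem hs)
      · push Not at hsm
        have hP : HG M (P : Set B) := by
          constructor
          · intro s hs t ht hst
            rcases key s hs t ht hst with h | h
            · exact Or.inl h
            · exact Or.inr (le_trans h4 (hsm s hs t ht h))
          · intro s hs t ht u hu h1 h2 h3
            rcases hM s t u (ne_of_ge (M := M) (by omega)) (ne_of_ge (M := M) (by omega))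
              (ne_of_ge (M := M) (by omega)) h2 h3 with h | h | h
            · omega
            · omega
            · exact h.2
        exact QP_G cs S1 S2 hP (fun i hi j hj h => hQ i j (hsm i hi j hj (by omega)))

theorem rho_injectiveG (M : CoxeterMatrix B)
    (hM : ∀ s t u : B, s ≠ t → t ≠ u → s ≠ u → 3 ≤ M s t → 3 ≤ M t u →
      M s u = 0 ∨ (4 ≤ M s t ∧ 4 ≤ M t u ∧ 4 ≤ M s u) ∨
        (M s u = 2 ∧ 6 ≤ M s t ∧ 6 ≤ M t u)) : Function.Injective (rho M) :=
  rho_injective_of_QP M (fun P => QP_finsetG M.toCoxeterSystem SD1 SD2 (n0 := 4) le_rfl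
    (by norm_num) hM (fun i j h => by
      rcases Nat.eq_or_lt_of_le h with h4 | h5
      · exact Q3_four _ h4.symm
      · exact Q3_five _ SD1 SD2 h5) P)

end gfinal

end Pool.Agent.HeckeCox
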